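import Pool.Agent.Lib_helper68.KSL.Defs
import Pool.Agent.Lib_helper68.LEV.GEL
import Pool.Agent.Lib_helper61.FG.P.CE

/-! KSL block HIR: the upper parts of the half lines -/

namespace Pool.Agent.KSL

open Pool.Agent.LEV Pool.Agent.LVB
open Pool.Agent.FG61 (mu phi cc ff AA Lam)
open Complex MeasureTheory Filter Topology UpperHalfPlane ModularGroup ProbabilityTheory
open scoped MatrixGroups Modular ENNReal ModularForm ComplexConjugate ContDiff

theorem hir_cs {T : ℝ} {ρ : ℝ → ℝ} (hρ : Ker T ρ) : HasCompactSupport ρ := by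
  refine HasCompactSupport.intro (K := Set.Icc (-T) T) isCompact_Icc fun t ht => hρ.supp t ?_
  rw [Set.mem_Icc, not_and_or, not_le, not_le] at ht
  rcases ht with h | h
  · exact lt_of_lt_of_le (by linarith) (neg_le_abs t)
  · exact lt_of_lt_of_le h (le_abs_self t)

theorem hir_int {T : ℝ} {ρ : ℝ → ℝ} (hρ : Ker T ρ) {g : ℝ → ℂ} (hg : Continuous g) :
    Integrable (fun t : ℝ => (ρ t : ℂ) * g t) := by
  have h1 : HasCompactSupport (fun t : ℝ => (ρ t : ℂ)) := (hir_cs hρ).comp_left Complex.ofReal_zero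
  have h2 : Continuous (fun t : ℝ => (ρ t : ℂ)) := Complex.continuous_ofReal.comp hρ.cont
  exact (h2.mul hg).integrable_of_hasCompactSupport h1.mul_right

theorem hir_intR {T : ℝ} {ρ : ℝ → ℝ} (hρ : Ker T ρ) {g : ℝ → ℝ} (hg : Continuous g) :
    Integrable (fun t : ℝ => ρ t * g t) :=
  (hρ.cont.mul hg).integrable_of_hasCompactSupport (hir_cs hρ).mul_right

/-- the Fourier transform of the weight is real -/
theorem hir_char {T : ℝ} {ρ : ℝ → ℝ} (hρ : Ker T ρ) (u : ℝ) :
    ∫ t : ℝ, (ρ t : ℂ) * cexp (2 * Real.pi * Complex.I * u * t) = ((sgm ρ u : ℝ) : ℂ) := by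
  have h1 : ∀ t : ℝ, (ρ t : ℂ) * cexp (2 * Real.pi * Complex.I * u * t) =
      ((ρ t * Real.cos (2 * Real.pi * u * t) : ℝ) : ℂ) +
        ((ρ t * Real.sin (2 * Real.pi * u * t) : ℝ) : ℂ) * Complex.I := by
    intro t
    have h2 : (2 * Real.pi * Complex.I * u * t : ℂ) = ((2 * Real.pi * u * t : ℝ) : ℂ) * Complex.I := by
      push_cast
      ring
    rw [h2, Complex.exp_mul_I, ← Complex.ofReal_cos, ← Complex.ofReal_sin]
    push_cast
    ring
  have i1 : Integrable (fun t : ℝ => ρ t * Real.cos (2 * Real.pi * u * t)) :=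
    hir_intR hρ (by fun_prop)
  have i2 : Integrable (fun t : ℝ => ρ t * Real.sin (2 * Real.pi * u * t)) :=
    hir_intR hρ (by fun_prop)
  have h3 : ∫ t : ℝ, ρ t * Real.sin (2 * Real.pi * u * t) = 0 := by
    have h4 := integral_neg_eq_self (fun t : ℝ => ρ t * Real.sin (2 * Real.pi * u * t)) volume
    have h5 : ∀ t : ℝ, ρ (-t) * Real.sin (2 * Real.pi * u * -t) =
        -(ρ t * Real.sin (2 * Real.pi * u * t)) := by
      intro t
      rw [hρ.even, mul_neg, Real.sin_neg, mul_neg]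
    simp only [h5] at h4
    rw [integral_neg] at h4
    linarith
  simp only [h1]
  rw [integral_add i1.ofReal (i2.ofReal.mul_const _), integral_mul_const, integral_complex_ofReal,
    integral_complex_ofReal, h3]
  simp [sgm]

theorem ram_sum_pr (q n : ℕ) (hq : 1 ≤ q) :
    ∑ j ∈ RR q, cexp (2 * Real.pi * Complex.I * n * (((j : ℝ) / q : ℝ) : ℂ)) =
      ((cc q n : ℝ) : ℂ) := by
  rw [Pool.Agent.FG61.cc_exp q n hq]
  unfold RR
  refine Finset.sum_congr ?_ fun j _ => ?_
  · ext j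
    rw [Finset.mem_filter, Finset.mem_filter, Nat.coprime_comm]
  · unfold Pool.Agent.Var35.e
    congr 1
    push_cast
    ring

section
variable {N : ℕ} [Fact N.Prime]

theorem hir_psi {T : ℝ} {ρ : ℝ → ℝ} (hρ : Ker T ρ) (f : S2 N) (x : ℝ) {y : ℝ} (hy : 0 < y) :
    HasSum (fun n : ℕ => co f n * (Real.exp (-2 * Real.pi * n * y) / (2 * Real.pi * n) : ℝ) *
      (GEL_e n x * ((sgm ρ (n * y) : ℝ) : ℂ))) (∫ t : ℝ, (ρ t : ℂ) * Psi f (x + t * y) y) := by
  obtain ⟨C, hC⟩ := co_bound f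
  set F : ℕ → ℝ → ℂ := fun n t => (ρ t : ℂ) *
    (co f n * (Real.exp (-2 * Real.pi * n * y) / (2 * Real.pi * n) : ℝ) * GEL_e n (x + t * y))
    with hF
  have hnorm_e : ∀ (n : ℕ) (x : ℝ), ‖GEL_e n x‖ = 1 := by
    intro n x
    rw [GEL_e, Complex.norm_exp]
    simp
  have hcont : ∀ n : ℕ, Continuous fun t : ℝ => GEL_e n (x + t * y) := by
    intro n
    unfold GEL_e
    fun_prop
  have hint : ∀ n, Integrable (F n) := fun n => hir_int hρ (continuous_const.mul (hcont n))
  have hval : ∀ n, ∫ t, F n t = co f n *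
      (Real.exp (-2 * Real.pi * n * y) / (2 * Real.pi * n) : ℝ) *
      (GEL_e n x * ((sgm ρ (n * y) : ℝ) : ℂ)) := by
    intro n
    rw [← hir_char hρ (n * y), ← mul_assoc, ← integral_const_mul]
    refine integral_congr_ae (Eventually.of_forall fun t => ?_)
    simp only [hF, GEL_e]
    have h1 : (2 * Real.pi * Complex.I * n * ((x + t * y : ℝ) : ℂ) : ℂ) =
        2 * Real.pi * Complex.I * n * (x : ℂ) + 2 * Real.pi * Complex.I * ((n * y : ℝ) : ℂ) * t := by
      push_cast
      ring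
    rw [h1, Complex.exp_add]
    ring
  have hρn : ∀ t, ‖(ρ t : ℂ)‖ = ρ t := fun t => by
    rw [Complex.norm_real, Real.norm_of_nonneg (hρ.nonneg t)]
  have hnorm : ∀ n, ∫ t, ‖F n t‖ =
      ‖co f n‖ * (Real.exp (-2 * Real.pi * n * y) / (2 * Real.pi * n)) := by
    intro n
    have h1 : ∀ t, ‖F n t‖ =
        ‖co f n‖ * (Real.exp (-2 * Real.pi * n * y) / (2 * Real.pi * n)) * ρ t := by
      intro t
      have h2 : 0 ≤ Real.exp (-2 * Real.pi * n * y) / (2 * Real.pi * n) := by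
        have := Real.pi_pos
        positivity
      simp only [hF]
      rw [norm_mul, norm_mul, norm_mul, hnorm_e, hρn, Complex.norm_real, Real.norm_of_nonneg h2]
      ring
    simp only [h1]
    rw [integral_const_mul, hρ.int, mul_one]
  have hsum : Summable fun n => ∫ t, ‖F n t‖ := by
    simp only [hnorm]
    have hg : Summable fun n : ℕ => C / (2 * Real.pi) * Real.exp (-2 * Real.pi * y) ^ n := by
      refine (summable_geometric_of_lt_one (Real.exp_pos _).le ?_).mul_left _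
      rw [Real.exp_lt_one_iff]
      have := mul_pos Real.pi_pos hy
      linarith
    refine Summable.of_nonneg_of_le (fun n => by have := Real.pi_pos; positivity) (fun n => ?_) hg
    rcases Nat.eq_zero_or_pos n with rfl | hn
    · rw [co_zero]
      simp only [norm_zero, zero_mul, pow_zero, mul_one]
      have h1 := hC 1
      have h2 : (0 : ℝ) ≤ C := by
        have := (norm_nonneg _).trans h1
        simpa using this
      have := Real.pi_pos
      positivity
    · have hn' : (0 : ℝ) < n := by exact_mod_cast hn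
      have hpi := Real.pi_pos
      rw [← Real.exp_nat_mul]
      have he : (n : ℝ) * (-2 * Real.pi * y) = -2 * Real.pi * n * y := by ring
      rw [he]
      calc ‖co f n‖ * (Real.exp (-2 * Real.pi * n * y) / (2 * Real.pi * n))
          ≤ (C * n) * (Real.exp (-2 * Real.pi * n * y) / (2 * Real.pi * n)) :=
            mul_le_mul_of_nonneg_right (hC n) (by positivity)
        _ = C / (2 * Real.pi) * Real.exp (-2 * Real.pi * n * y) := by
            field_simp
  have hmain := hasSum_integral_of_summable_integral_norm hint hsum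
  simp only [hval] at hmain
  have hcong : ∫ t : ℝ, (ρ t : ℂ) * Psi f (x + t * y) y = ∫ t : ℝ, ∑' n, F n t := by
    refine integral_congr_ae (Eventually.of_forall fun t => ?_)
    have h1 := (GEL_int f (x + t * y) hy).tsum_eq
    show (ρ t : ℂ) * Psi f (x + t * y) y = ∑' n, F n t
    simp only [hF]
    rw [tsum_mul_left, h1]
    rfl
  rw [hcong]
  exact hmain

/-- the upper parts of the half lines -/
theorem high_eq_pr {T : ℝ} {ρ : ℝ → ℝ} (hρ : Ker T ρ) (f : S2 N) (Q : ℕ) (w : ℕ → ℝ) {y : ℝ}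
    (hy : 0 < y) :
    ∑ q ∈ Finset.Icc 1 Q, (w q : ℂ) * ∑ j ∈ RR q,
      (∫ t : ℝ, (ρ t : ℂ) * Psi f ((j : ℝ) / q + t * y) y) =
    ∑' n : ℕ, co f n / (2 * Real.pi * n) *
      ((Real.exp (-2 * Real.pi * n * y) * sgm ρ (n * y) * WW Q w n : ℝ) : ℂ) := by
  have h1 : HasSum (fun n : ℕ => ∑ q ∈ Finset.Icc 1 Q, (w q : ℂ) * ∑ j ∈ RR q,
      (co f n * (Real.exp (-2 * Real.pi * n * y) / (2 * Real.pi * n) : ℝ) *
      (GEL_e n ((j : ℝ) / q) * ((sgm ρ (n * y) : ℝ) : ℂ))))
      (∑ q ∈ Finset.Icc 1 Q, (w q : ℂ) * ∑ j ∈ RR q,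
      (∫ t : ℝ, (ρ t : ℂ) * Psi f ((j : ℝ) / q + t * y) y)) :=
    hasSum_sum fun q _ => (hasSum_sum fun j _ => hir_psi hρ f _ hy).mul_left _
  rw [← h1.tsum_eq]
  refine tsum_congr fun n => ?_
  have h2 : ∀ q ∈ Finset.Icc 1 Q, (w q : ℂ) * ∑ j ∈ RR q,
      (co f n * (Real.exp (-2 * Real.pi * n * y) / (2 * Real.pi * n) : ℝ) *
      (GEL_e n ((j : ℝ) / q) * ((sgm ρ (n * y) : ℝ) : ℂ))) =
      co f n * (Real.exp (-2 * Real.pi * n * y) / (2 * Real.pi * n) : ℝ) *
        ((sgm ρ (n * y) : ℝ) : ℂ) * ((w q * cc q n : ℝ) : ℂ) := by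
    intro q hq
    rw [Finset.mem_Icc] at hq
    rw [Complex.ofReal_mul (w q), ← ram_sum_pr q n hq.1, Finset.mul_sum, Finset.mul_sum,
      Finset.mul_sum]
    refine Finset.sum_congr rfl fun j _ => ?_
    unfold GEL_e
    ring
  rw [Finset.sum_congr rfl h2, ← Finset.mul_sum, ← Complex.ofReal_sum]
  have h3 : ∑ q ∈ Finset.Icc 1 Q, w q * cc q n = WW Q w n := rfl
  rw [h3]
  push_cast
  ring

end

theorem ram_sum : type_of% @ram_sum_pr := @ram_sum_pr
theorem high_eq : type_of% @high_eq_pr := @high_eq_pr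

end Pool.Agent.KSL
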