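import Pool.Agent.Lib_helper68.KSL.Defs
import Pool.Agent.Lib_helper61.FG.P.GR

/-! KSL, block GRI. -/

namespace Pool.Agent.FG61

open Finset Filter Topology

theorem GRI_sum_log {y : ℝ} (hy : 0 < y) (W : ℕ) :
    ∑ e ∈ Icc 1 W, Real.log (y / e) ≤ y := by
  rw [← Real.log_prod]
  · rw [Finset.prod_div_distrib, Finset.prod_const, Nat.card_Icc, Nat.add_sub_cancel]
    have h1 : (∏ x ∈ Icc 1 W, (x : ℝ)) = (W.factorial : ℝ) := by
      rw [← Nat.cast_prod]
      congr 1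
      induction W with
      | zero => simp
      | succ n ih => rw [Finset.prod_Icc_succ_top (by omega), ih, Nat.factorial_succ, mul_comm]
    rw [h1]
    have h2 := Real.pow_div_factorial_le_exp y hy.le W
    have h3 : 0 < y ^ W / (W.factorial : ℝ) := by positivity
    have h4 := Real.log_le_log h3 h2
    rwa [Real.log_exp] at h4
  · intro e he
    rw [mem_Icc] at he
    have : (0 : ℝ) < e := by exact_mod_cast he.1
    positivity

theorem GRI_dq (q M : ℕ) (hq : 1 ≤ q) (R : ℝ) (hR : 1 ≤ R) (hM : R ≤ M) :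
    ∑ s ∈ (Icc 1 M).filter (fun s => q ∣ s), ff ((s : ℝ) / R) s ^ 2
      ≤ ∑ s ∈ Icc 1 M, GG q ((s : ℝ) / R) + (M / R) ^ 2 := by
  have hR0 : 0 < R := by linarith
  set W : ℕ := ⌊(M : ℝ) / R⌋₊ with hW
  have hMR : 1 ≤ (M : ℝ) / R := by rw [le_div_iff₀ hR0]; linarith
  have hWle : (W : ℝ) ≤ (M : ℝ) / R := Nat.floor_le (by linarith)
  have hL0 : 0 ≤ Real.log ((M : ℝ) / R) := Real.log_nonneg hMR
  -- left side
  have hleft : ∑ s ∈ (Icc 1 M).filter (fun s => q ∣ s), ff ((s : ℝ) / R) s ^ 2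
      = ∑ e₁ ∈ Icc 1 W, ∑ e₂ ∈ Icc 1 W, mu e₁ * mu e₂ *
        ∑ s ∈ (Icc 1 M).filter (fun s => Nat.lcm q (Nat.lcm e₁ e₂) ∣ s), DQlp R s e₁ * DQlp R s e₂ := by
    have h1 : ∀ s ∈ (Icc 1 M).filter (fun s => q ∣ s), ff ((s : ℝ) / R) s ^ 2
        = ∑ e₁ ∈ Icc 1 W, ∑ e₂ ∈ Icc 1 W, mu e₁ * mu e₂ *
          (if Nat.lcm e₁ e₂ ∣ s then DQlp R s e₁ * DQlp R s e₂ else 0) := by
      intro s hs
      rw [mem_filter, mem_Icc] at hs
      rw [DQ_ff R hR M s hs.1.1 hs.1.2, sq, Finset.sum_mul_sum]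
      refine Finset.sum_congr rfl ?_
      intro e₁ _
      refine Finset.sum_congr rfl ?_
      intro e₂ _
      by_cases h1 : e₁ ∣ s
      · by_cases h2 : e₂ ∣ s
        · rw [if_pos h1, if_pos h2, if_pos (Nat.lcm_dvd h1 h2)]
          ring
        · rw [if_neg h2, if_neg (fun h => h2 ((Nat.dvd_lcm_right e₁ e₂).trans h))]
          ring
      · rw [if_neg h1, if_neg (fun h => h1 ((Nat.dvd_lcm_left e₁ e₂).trans h))]
        ring
    rw [Finset.sum_congr rfl h1, Finset.sum_comm]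
    refine Finset.sum_congr rfl ?_
    intro e₁ _
    rw [Finset.sum_comm]
    refine Finset.sum_congr rfl ?_
    intro e₂ _
    rw [← Finset.mul_sum]
    congr 1
    rw [Finset.sum_filter, Finset.sum_filter]
    refine Finset.sum_congr rfl ?_
    intro s _
    by_cases h1 : q ∣ s
    · by_cases h2 : Nat.lcm e₁ e₂ ∣ s
      · rw [if_pos h1, if_pos h2, if_pos (Nat.lcm_dvd h1 h2)]
      · rw [if_pos h1, if_neg h2, if_neg (fun h => h2 ((Nat.dvd_lcm_right q _).trans h))]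
    · rw [if_neg h1, if_neg (fun h => h1 ((Nat.dvd_lcm_left q _).trans h))]
  -- right side
  have hright : ∑ s ∈ Icc 1 M, GG q ((s : ℝ) / R)
      = ∑ e₁ ∈ Icc 1 W, ∑ e₂ ∈ Icc 1 W, mu e₁ * mu e₂ *
        ((1 / ((Nat.lcm q (Nat.lcm e₁ e₂) : ℕ) : ℝ)) * ∑ s ∈ Icc 1 M, DQlp R s e₁ * DQlp R s e₂) := by
    have h1 : ∀ s ∈ Icc 1 M, GG q ((s : ℝ) / R) = ∑ e₁ ∈ Icc 1 W, ∑ e₂ ∈ Icc 1 W,
      mu e₁ * mu e₂ * ((1 / ((Nat.lcm q (Nat.lcm e₁ e₂) : ℕ) : ℝ)) * (DQlp R s e₁ * DQlp R s e₂)) := by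
      intro s hs
      rw [mem_Icc] at hs
      exact DQ_GG q R hR M s hs.2
    rw [Finset.sum_congr rfl h1, Finset.sum_comm]
    refine Finset.sum_congr rfl ?_
    intro e₁ _
    rw [Finset.sum_comm]
    refine Finset.sum_congr rfl ?_
    intro e₂ _
    rw [← Finset.mul_sum, ← Finset.mul_sum]
  rw [hleft, hright]
  have hdiff : ∑ e₁ ∈ Icc 1 W, ∑ e₂ ∈ Icc 1 W, mu e₁ * mu e₂ *
        ∑ s ∈ (Icc 1 M).filter (fun s => Nat.lcm q (Nat.lcm e₁ e₂) ∣ s), DQlp R s e₁ * DQlp R s e₂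
      ≤ ∑ e₁ ∈ Icc 1 W, ∑ e₂ ∈ Icc 1 W, (mu e₁ * mu e₂ *
        ((1 / ((Nat.lcm q (Nat.lcm e₁ e₂) : ℕ) : ℝ)) * ∑ s ∈ Icc 1 M, DQlp R s e₁ * DQlp R s e₂)
        + DQlp R M e₁ * DQlp R M e₂) := by
    refine Finset.sum_le_sum ?_
    intro e₁ he₁
    refine Finset.sum_le_sum ?_
    intro e₂ he₂
    rw [mem_Icc] at he₁ he₂
    have hE : 1 ≤ Nat.lcm q (Nat.lcm e₁ e₂) :=
      Nat.lcm_pos hq (Nat.lcm_pos he₁.1 he₂.1)
    have hm1 := DQ_lp_mono R hR e₁ he₁.1
    have hm2 := DQ_lp_mono R hR e₂ he₂.1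
    have hmono : Monotone (fun s => DQlp R s e₁ * DQlp R s e₂) := by
      intro a b hab
      exact mul_le_mul (hm1 hab) (hm2 hab) (DQ_lp_nonneg _ _ _) (DQ_lp_nonneg _ _ _)
    have h := DQ_mono (fun s => DQlp R s e₁ * DQlp R s e₂) hmono
      (mul_nonneg (DQ_lp_nonneg _ _ _) (DQ_lp_nonneg _ _ _)) _ hE M
    have hmu : |mu e₁ * mu e₂| ≤ 1 := by
      rw [abs_mul]
      calc |mu e₁| * |mu e₂| ≤ 1 * 1 :=
            mul_le_mul (DQ_mu_abs e₁) (DQ_mu_abs e₂) (abs_nonneg _) (by norm_num)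
        _ = 1 := by norm_num
    have h5 := (abs_le.mp (show |mu e₁ * mu e₂ *
        (∑ s ∈ (Icc 1 M).filter (fun s => Nat.lcm q (Nat.lcm e₁ e₂) ∣ s), DQlp R s e₁ * DQlp R s e₂
          - (1 / ((Nat.lcm q (Nat.lcm e₁ e₂) : ℕ) : ℝ)) * ∑ s ∈ Icc 1 M, DQlp R s e₁ * DQlp R s e₂)|
        ≤ DQlp R M e₁ * DQlp R M e₂ by
      rw [abs_mul]
      calc _ ≤ 1 * (DQlp R M e₁ * DQlp R M e₂) :=
            mul_le_mul hmu h (abs_nonneg _) (by norm_num)
        _ ≤ _ := by rw [one_mul])).2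
    rw [mul_sub] at h5
    linarith
  refine hdiff.trans ?_
  simp_rw [Finset.sum_add_distrib]
  refine add_le_add le_rfl ?_
  rw [← Finset.sum_mul_sum, ← sq]
  apply pow_le_pow_left₀ (Finset.sum_nonneg fun e _ => DQ_lp_nonneg R M e)
  have h1 : ∑ e ∈ Icc 1 W, DQlp R M e = ∑ e ∈ Icc 1 W, Real.log ((M : ℝ) / R / e) := by
    apply Finset.sum_congr rfl
    intro e he
    rw [mem_Icc] at he
    apply DQ_lp_of_le R hR M e he.1
    exact (Nat.le_floor_iff (by linarith)).1 he.2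
  rw [h1]
  exact GRI_sum_log (by linarith) W

theorem GRI_D (q M : ℕ) (hq : 1 ≤ q) (R : ℝ) (hR : 1 ≤ R) (g : ℝ) (hg : 0 ≤ g)
    (hG : ∀ y : ℝ, 1 ≤ y → y ≤ M / R → GG q y ≤ g) :
    ∑ s ∈ (Icc 1 M).filter (fun s => q ∣ s), ff ((s : ℝ) / R) s ^ 2
      ≤ M * g + (M / R) ^ 2 := by
  have hR0 : 0 < R := by linarith
  by_cases hM : R ≤ M
  · have h1 := GRI_dq q M hq R hR hM
    have h2 : ∑ s ∈ Icc 1 M, GG q ((s : ℝ) / R) ≤ M * g := by
      calc ∑ s ∈ Icc 1 M, GG q ((s : ℝ) / R) ≤ ∑ s ∈ Icc 1 M, g := by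
            apply Finset.sum_le_sum
            intro s hs
            rw [mem_Icc] at hs
            by_cases hy : 1 ≤ (s : ℝ) / R
            · apply hG _ hy
              apply div_le_div_of_nonneg_right _ hR0.le
              exact_mod_cast hs.2
            · rw [GR_GG_zero q _ (not_le.1 hy)]; exact hg
        _ = M * g := by simp
    linarith
  · rw [not_le] at hM
    have h1 : ∑ s ∈ (Icc 1 M).filter (fun s => q ∣ s), ff ((s : ℝ) / R) s ^ 2 = 0 := by
      apply Finset.sum_eq_zero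
      intro s hs
      rw [mem_filter, mem_Icc] at hs
      rw [GR_ff_zero R s hR]
      · ring
      · have : (s : ℝ) ≤ M := by exact_mod_cast hs.1.2
        linarith
    rw [h1]
    positivity

theorem GRI_graham {ε : ℝ} (hε : 0 < ε) : ∃ C : ℝ, 0 ≤ C ∧ ∀ N : ℕ, ∀ R : ℝ, 1 ≤ R → R ≤ N →
    ∑ n ∈ Icc 1 N, (ff R n - Lam n) ^ 2
      ≤ (1 + ε) * N * Real.log (N / R) + C * N + C * (N / R) ^ 2 := by
  obtain ⟨C1, hC1, h1⟩ := g_one (ε / 2) (by positivity)
  obtain ⟨Cw, hCw, hw⟩ := wt_sum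
  obtain ⟨C2, hC2, h2⟩ := g_gen (ε / (2 * (Cw + 1))) (by positivity)
  refine ⟨4 + C1 + C2 * Cw + 2, by positivity, ?_⟩
  intro N R hR hRN
  have hR0 : 0 < R := by linarith
  have hN1 : (1:ℝ) ≤ N := hR.trans hRN
  set z : ℝ := N / R with hz
  have hz1 : 1 ≤ z := by rw [hz, one_le_div hR0]; exact hRN
  have hlz : 0 ≤ Real.log z := Real.log_nonneg hz1
  set δ : ℝ := ε / (2 * (Cw + 1)) with hδ
  have hδ0 : 0 < δ := by positivity
  set F : ℕ → ℝ := fun s => ff ((s : ℝ) / R) s ^ 2 with hF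
  have hF0 : ∀ s, 0 ≤ F s := fun s => sq_nonneg _
  have hstep : ∀ n ∈ Icc 1 N, (ff R n - Lam n) ^ 2 ≤ (if n = 1 then Real.log R ^ 2 else 0) + F (rad n) := by
    intro n hn
    rw [mem_Icc] at hn
    by_cases hn1 : n = 1
    · subst hn1
      rw [if_pos rfl]
      have : ff R 1 = Real.log R := by
        unfold ff
        have : (Nat.divisors 1).filter (fun d : ℕ => (d:ℝ) ≤ R) = {1} := by
          rw [Nat.divisors_one, Finset.filter_singleton]
          simp [hR]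
        rw [this]; simp [mu]
      rw [this]
      have h4 := hF0 (rad 1)
      simp only [Lam, ArithmeticFunction.vonMangoldt_apply_one, sub_zero]
      linarith
    · rw [if_neg hn1, zero_add, flip R hR n (by omega), mul_pow]
      have h4 : mu (rad n) ^ 2 ≤ 1 := by
        have h5 : |ArithmeticFunction.moebius (rad n)| ≤ 1 := ArithmeticFunction.abs_moebius_le_one
        have h6 : |mu (rad n)| ≤ 1 := by
          unfold mu; rw [← Int.cast_abs]; exact_mod_cast h5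
        rw [← sq_abs]
        exact pow_le_one₀ (abs_nonneg _) h6
      calc mu (rad n) ^ 2 * ff ((rad n : ℕ) / R) (rad n) ^ 2 ≤ 1 * ff ((rad n : ℕ) / R) (rad n) ^ 2 :=
            mul_le_mul_of_nonneg_right h4 (sq_nonneg _)
        _ = F (rad n) := by rw [one_mul]
  have hsum1 : ∑ n ∈ Icc 1 N, (ff R n - Lam n) ^ 2 ≤ Real.log R ^ 2 + ∑ n ∈ Icc 1 N, F (rad n) := by
    refine (Finset.sum_le_sum hstep).trans ?_
    rw [Finset.sum_add_distrib]
    apply add_le_add_left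
    rw [Finset.sum_ite_eq' (Icc 1 N) 1]
    split_ifs
    · exact le_rfl
    · positivity
  have hlR : Real.log R ^ 2 ≤ 4 * N := by
    have h5 := GR_log_sq_le R hR
    linarith
  have hgk : ∀ k ∈ Icc 1 N, ∑ s ∈ (Icc 1 (N / k)).filter (fun s => rad k ∣ s), F s
      ≤ (if k = 1 then N * ((1 + ε / 2) * Real.log z + C1) else 0)
        + N * (δ * Real.log z + C2) * (wt (rad k) / k) + z ^ 2 * (1 / (k:ℝ) ^ 2) := by
    intro k hk
    rw [mem_Icc] at hk
    have hk0 : (0:ℝ) < k := by exact_mod_cast hk.1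
    have hMk : ((N / k : ℕ) : ℝ) ≤ N / k := Nat.cast_div_le
    have hMR : ((N / k : ℕ) : ℝ) / R ≤ z / k := by
      rw [hz, div_div, mul_comm R, ← div_div]
      exact div_le_div_of_nonneg_right hMk hR0.le
    have hzk : z / k ≤ z := by
      apply div_le_self (by linarith); exact_mod_cast hk.1
    have hlogy : ∀ y : ℝ, 1 ≤ y → y ≤ ((N / k : ℕ) : ℝ) / R → Real.log y ≤ Real.log z := by
      intro y hy hy2
      exact Real.log_le_log (by linarith) (by linarith)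
    have herr : (((N / k : ℕ) : ℝ) / R) ^ 2 ≤ z ^ 2 * (1 / (k:ℝ) ^ 2) := by
      have h5 : (((N / k : ℕ) : ℝ) / R) ^ 2 ≤ (z / k) ^ 2 := pow_le_pow_left₀ (by positivity) hMR 2
      calc _ ≤ (z / k) ^ 2 := h5
        _ = _ := by rw [div_pow]; ring
    by_cases hk1 : k = 1
    · subst hk1
      have h7 := GRI_D (rad 1) (N / 1) (GR_rad_pos 1) R hR ((1 + ε / 2) * Real.log z + C1) (by positivity) (by
        intro y hy hy2
        rw [GR_rad_one]
        refine (h1 y hy).trans ?_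
        have := hlogy y hy hy2
        nlinarith)
      rw [if_pos rfl]
      have h8 : 0 ≤ N * (δ * Real.log z + C2) * (wt (rad 1) / (1:ℕ)) := by
        have := GR_wt_nonneg (rad 1)
        positivity
      rw [Nat.div_one] at h7 herr ⊢
      have h9 : (N : ℝ) * ((1 + ε / 2) * Real.log z + C1) ≤ N * ((1 + ε / 2) * Real.log z + C1) := le_rfl
      linarith
    · have hk2 : 2 ≤ k := by omega
      have h7 := GRI_D (rad k) (N / k) (GR_rad_pos k) R hR (wt (rad k) * (δ * Real.log z + C2))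
        (by have := GR_wt_nonneg (rad k); positivity) (by
        intro y hy hy2
        refine (h2 (rad k) (GR_rad_sqfree k) (GR_rad_two k hk2) y hy).trans ?_
        apply mul_le_mul_of_nonneg_left _ (GR_wt_nonneg _)
        have := hlogy y hy hy2
        have : δ * Real.log y ≤ δ * Real.log z := mul_le_mul_of_nonneg_left this hδ0.le
        linarith)
      rw [if_neg hk1, zero_add]
      have h8 : ((N / k : ℕ) : ℝ) * (wt (rad k) * (δ * Real.log z + C2)) ≤ N * (δ * Real.log z + C2) * (wt (rad k) / k) := by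
        have := GR_wt_nonneg (rad k)
        calc ((N / k : ℕ) : ℝ) * (wt (rad k) * (δ * Real.log z + C2)) ≤ (N / k) * (wt (rad k) * (δ * Real.log z + C2)) :=
              mul_le_mul_of_nonneg_right hMk (by positivity)
          _ = _ := by ring
      linarith
  have hsum2 : ∑ n ∈ Icc 1 N, F (rad n) ≤ N * ((1 + ε / 2) * Real.log z + C1)
      + N * (δ * Real.log z + C2) * Cw + z ^ 2 * 2 := by
    refine (rad_split F hF0 N).trans ((Finset.sum_le_sum hgk).trans ?_)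
    rw [Finset.sum_add_distrib, Finset.sum_add_distrib, ← Finset.mul_sum, ← Finset.mul_sum]
    apply add_le_add (add_le_add _ _) _
    · rw [Finset.sum_ite_eq' (Icc 1 N) 1]
      split_ifs
      · exact le_rfl
      · positivity
    · exact mul_le_mul_of_nonneg_left (hw N) (by positivity)
    · exact mul_le_mul_of_nonneg_left (GR_sum_inv_sq N) (by positivity)
  have hδC : δ * Cw ≤ ε / 2 := by
    rw [hδ, div_mul_eq_mul_div, div_le_iff₀ (by positivity)]
    nlinarith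
  have hN0 : (0:ℝ) ≤ N := by linarith
  have h9 : N * (δ * Real.log z + C2) * Cw ≤ N * (ε / 2 * Real.log z) + N * (C2 * Cw) := by
    have : δ * Cw * Real.log z ≤ ε / 2 * Real.log z := mul_le_mul_of_nonneg_right hδC hlz
    calc N * (δ * Real.log z + C2) * Cw = N * (δ * Cw * Real.log z) + N * (C2 * Cw) := by ring
      _ ≤ _ := by
        have := mul_le_mul_of_nonneg_left this hN0
        linarith
  have h10 : 0 ≤ (4 + C1 + C2 * Cw) * (z ^ 2) := by positivity
  have h11 : 0 ≤ (N:ℝ) * 2 := by positivity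
  have : (1 + ε) * N * Real.log z + (4 + C1 + C2 * Cw + 2) * N + (4 + C1 + C2 * Cw + 2) * z ^ 2
      = 4 * N + (N * ((1 + ε / 2) * Real.log z + C1) + (N * (ε / 2 * Real.log z) + N * (C2 * Cw)) + z ^ 2 * 2)
        + ((4 + C1 + C2 * Cw) * (z ^ 2) + N * 2) := by ring
  rw [this]
  linarith


end Pool.Agent.FG61

namespace Pool.Agent.KSL

open Pool.Agent.LEV Pool.Agent.LVB
open Pool.Agent.FG61 (mu phi cc ff AA Lam)
open Complex MeasureTheory Filter Topology UpperHalfPlane ModularGroup ProbabilityTheory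
open scoped MatrixGroups Modular ENNReal ModularForm ComplexConjugate ContDiff

/-- Graham's estimate with a sharper error term -/
theorem graham_imp_pr {ε : ℝ} (hε : 0 < ε) : ∃ C : ℝ, 0 ≤ C ∧ ∀ N : ℕ, ∀ R : ℝ, 1 ≤ R → R ≤ N →
    ∑ n ∈ Finset.Icc 1 N, (ff R n - Lam n) ^ 2 ≤
      (1 + ε) * N * Real.log (N / R) + C * N + C * (N / R) ^ 2 :=
  Pool.Agent.FG61.GRI_graham hε

theorem graham_imp : type_of% @graham_imp_pr := @graham_imp_pr

end Pool.Agent.KSL
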