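import Pool.Agent.Lib_helper68.KSL.Defs
import Pool.Agent.Lib_helper61.FG.P.G1
import Pool.Agent.Lib_helper61.FG.P.FL
import Pool.Agent.Lib_helper61.FG.P.GR
import Pool.Agent.Lib_helper61.FG.P.MU
import Pool.Agent.Lib_helper68.KSLF.GRI

/-! KSL, block FSQ: the mean square of the truncated divisor sum. -/

set_option linter.unusedVariables false

namespace Pool.Agent.KSL

open Pool.Agent.FG61 (mu phi cc ff AA Lam GG rad)
open Filter Topology

lemma fsq_log {d : ℕ} (hd : 1 ≤ d) : ∀ m : ℕ, d ≤ m → Real.log (((m : ℝ) + 1) / d) ≤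
    ∑ k ∈ Finset.Icc d m, 1 / (k : ℝ) := by
  intro m hm
  have hd0 : (0 : ℝ) < d := by exact_mod_cast hd
  induction m, hm using Nat.le_induction with
  | base =>
    rw [Finset.Icc_self, Finset.sum_singleton]
    have h1 := Real.log_le_sub_one_of_pos (show (0 : ℝ) < ((d : ℝ) + 1) / d by positivity)
    have h2 : ((d : ℝ) + 1) / d - 1 = 1 / d := by field_simp; ring
    linarith
  | succ m hm ih =>
    rw [Finset.sum_Icc_succ_top (by omega)]
    have hm0 : (0 : ℝ) < (m : ℝ) + 1 := by positivity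
    have h1 : Real.log ((((m + 1 : ℕ) : ℝ) + 1) / d) =
        Real.log (((m : ℝ) + 1) / d) + Real.log (((m : ℝ) + 1 + 1) / ((m : ℝ) + 1)) := by
      rw [← Real.log_mul (by positivity) (by positivity)]
      congr 1
      push_cast
      field_simp
    have h2 := Real.log_le_sub_one_of_pos
      (show (0 : ℝ) < ((m : ℝ) + 1 + 1) / ((m : ℝ) + 1) by positivity)
    have h3 : ((m : ℝ) + 1 + 1) / ((m : ℝ) + 1) - 1 = 1 / (((m + 1 : ℕ) : ℝ)) := by
      push_cast
      field_simp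
      ring
    rw [h1]
    linarith

lemma fsq_swap (m : ℕ) (a b : ℕ → ℝ) : ∑ n ∈ Finset.Icc 1 m, a n * ∑ k ∈ Finset.Icc n m, b k =
    ∑ k ∈ Finset.Icc 1 m, b k * ∑ n ∈ Finset.Icc 1 k, a n := by
  simp only [Finset.mul_sum]
  rw [Finset.sum_comm' (t' := Finset.Icc 1 m) (s' := fun k => Finset.Icc 1 k)]
  · exact Finset.sum_congr rfl fun k _ => Finset.sum_congr rfl fun n _ => mul_comm _ _
  · intro x y
    simp only [Finset.mem_Icc]
    omega

lemma fsq_sum_log {R : ℝ} (hR : 1 ≤ R) :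
    ∑ d ∈ Finset.Icc 1 ⌊R⌋₊, Real.log (R / d) ≤ R := by
  have h1 : ∀ d ∈ Finset.Icc 1 ⌊R⌋₊, Real.log (R / d) ≤
      1 * ∑ k ∈ Finset.Icc d ⌊R⌋₊, 1 / (k : ℝ) := by
    intro d hd
    rw [Finset.mem_Icc] at hd
    have hd0 : (0 : ℝ) < d := by exact_mod_cast hd.1
    rw [one_mul]
    refine le_trans ?_ (fsq_log hd.1 ⌊R⌋₊ hd.2)
    apply Real.log_le_log (by positivity)
    exact div_le_div_of_nonneg_right (Nat.lt_floor_add_one R).le hd0.le
  refine (Finset.sum_le_sum h1).trans ?_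
  rw [fsq_swap ⌊R⌋₊ (fun _ => 1) (fun k => 1 / (k : ℝ))]
  have h2 : ∀ k ∈ Finset.Icc 1 ⌊R⌋₊, 1 / (k : ℝ) * ∑ n ∈ Finset.Icc 1 k, (1 : ℝ) = 1 := by
    intro k hk
    rw [Finset.mem_Icc] at hk
    have hk0 : (0 : ℝ) < k := by exact_mod_cast hk.1
    rw [Finset.sum_const, Nat.card_Icc, nsmul_eq_mul, mul_one, Nat.add_sub_cancel, one_div,
      inv_mul_cancel₀ hk0.ne']
  rw [Finset.sum_congr rfl h2, Finset.sum_const, Nat.card_Icc, nsmul_eq_mul, mul_one,
    Nat.add_sub_cancel]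
  exact Nat.floor_le (by linarith)

lemma fsq_psi (k : ℕ) : ∑ n ∈ Finset.Icc 1 k, Lam n = Chebyshev.psi k := by
  unfold Chebyshev.psi
  rw [Nat.floor_natCast]
  rfl

lemma fsq_lam_log (Y : ℕ) : ∑ n ∈ Finset.Icc 1 Y, Lam n * Real.log ((Y : ℝ) / n) ≤
    (Real.log 4 + 4) * Y := by
  have h1 : ∀ n ∈ Finset.Icc 1 Y, Lam n * Real.log ((Y : ℝ) / n) ≤
      Lam n * ∑ k ∈ Finset.Icc n Y, 1 / (k : ℝ) := by
    intro n hn
    rw [Finset.mem_Icc] at hn
    have hn0 : (0 : ℝ) < n := by exact_mod_cast hn.1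
    apply mul_le_mul_of_nonneg_left _ ArithmeticFunction.vonMangoldt_nonneg
    refine le_trans ?_ (fsq_log hn.1 Y hn.2)
    have hY0 : (0 : ℝ) < Y := by exact_mod_cast (by omega : 0 < Y)
    apply Real.log_le_log (by positivity)
    exact div_le_div_of_nonneg_right (by linarith) hn0.le
  refine (Finset.sum_le_sum h1).trans ?_
  rw [fsq_swap Y (fun n => Lam n) (fun k => 1 / (k : ℝ))]
  have h2 : ∀ k ∈ Finset.Icc 1 Y, 1 / (k : ℝ) * ∑ n ∈ Finset.Icc 1 k, Lam n ≤
      Real.log 4 + 4 := by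
    intro k hk
    rw [Finset.mem_Icc] at hk
    have hk0 : (0 : ℝ) < k := by exact_mod_cast hk.1
    rw [fsq_psi, one_div, inv_mul_le_iff₀ hk0, mul_comm]
    exact Chebyshev.psi_le_const_mul_self hk0.le
  refine (Finset.sum_le_card_nsmul _ _ _ h2).trans ?_
  rw [Nat.card_Icc, nsmul_eq_mul, Nat.add_sub_cancel]
  exact le_of_eq (mul_comm _ _)

lemma fsq_psi_up {ε : ℝ} (hε : 0 < ε) : ∃ C : ℝ, 0 ≤ C ∧ ∀ Y : ℕ,
    Chebyshev.psi Y ≤ (1 + ε) * Y + C := by
  have h1 := Pool.Agent.Lib_helper90.PNT.tendsto_psi_div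
  have h2 : ∀ᶠ x : ℝ in atTop, Chebyshev.psi x / x < 1 + ε :=
    h1.eventually_lt_const (by linarith)
  obtain ⟨x0, hx0⟩ := eventually_atTop.1 h2
  refine ⟨Chebyshev.psi (max x0 1), Chebyshev.psi_nonneg _, fun Y => ?_⟩
  have hC : 0 ≤ Chebyshev.psi (max x0 1) := Chebyshev.psi_nonneg _
  rcases le_total (max x0 1) Y with h | h
  · have h3 := hx0 Y ((le_max_left _ _).trans h)
    have hY : (0 : ℝ) < Y := lt_of_lt_of_le one_pos ((le_max_right _ _).trans h)
    rw [div_lt_iff₀ hY] at h3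
    linarith
  · have h3 := Chebyshev.psi_mono h
    have h4 : 0 ≤ (1 + ε) * (Y : ℝ) := by positivity
    linarith

lemma fsq_rad_pp {p k : ℕ} (hp : p.Prime) (hk : k ≠ 0) : rad (p ^ k) = p := by
  unfold rad
  rw [Nat.primeFactors_prime_pow hk hp, Finset.prod_singleton]

lemma fsq_ff_pp {R : ℝ} (hR : 1 ≤ R) {n : ℕ} (hn : IsPrimePow n) : ff R n ≤ Real.log R := by
  rw [isPrimePow_nat_iff] at hn
  obtain ⟨p, k, hp, hk, rfl⟩ := hn
  rw [Pool.Agent.FG61.FL_ff R _ (pow_ne_zero _ hp.ne_zero), fsq_rad_pp hp hk.ne', hp.divisors,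
    Finset.sum_pair hp.one_lt.ne]
  have h1 : (if ((1 : ℕ) : ℝ) ≤ R then mu 1 * Real.log (R / ((1 : ℕ) : ℝ)) else 0) =
      Real.log R := by
    rw [if_pos (by simpa using hR)]
    simp [mu]
  rw [h1]
  have h2 : (if (p : ℝ) ≤ R then mu p * Real.log (R / p) else 0) ≤ 0 := by
    split_ifs with h
    · have h3 : mu p = -1 := by
        unfold mu
        rw [ArithmeticFunction.moebius_apply_prime hp]
        norm_num
      have hp0 : (0 : ℝ) < p := by exact_mod_cast hp.pos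
      have h4 : 0 ≤ Real.log (R / p) := Real.log_nonneg (by rwa [one_le_div hp0])
      rw [h3]
      linarith
    · exact le_rfl
  linarith

lemma fsq_second {R : ℝ} (hR : 1 ≤ R) {Y : ℕ} (hY : 1 ≤ Y) :
    ∑ n ∈ Finset.Icc 1 Y, Lam n * (2 * ff R n - Lam n) ≤
      Chebyshev.psi Y * (2 * Real.log R - Real.log Y) +
        ∑ n ∈ Finset.Icc 1 Y, Lam n * Real.log ((Y : ℝ) / n) +
        Real.log Y * (Chebyshev.psi Y - Chebyshev.theta Y) := by
  have h1 : Chebyshev.psi Y - Chebyshev.theta Y =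
      ∑ n ∈ Finset.Icc 1 Y, (if n.Prime then 0 else Lam n) := by
    have h2 : Chebyshev.theta Y = ∑ n ∈ Finset.Icc 1 Y, (if n.Prime then Lam n else 0) := by
      unfold Chebyshev.theta
      rw [Nat.floor_natCast, Finset.sum_filter]
      refine Finset.sum_congr rfl fun n _ => ?_
      split_ifs with h
      · exact (ArithmeticFunction.vonMangoldt_apply_prime h).symm
      · rfl
    rw [h2, ← fsq_psi, ← Finset.sum_sub_distrib]
    refine Finset.sum_congr rfl fun n _ => ?_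
    split_ifs <;> ring
  rw [h1, ← fsq_psi, Finset.sum_mul, Finset.mul_sum, ← Finset.sum_add_distrib,
    ← Finset.sum_add_distrib]
  refine Finset.sum_le_sum fun n hn => ?_
  rw [Finset.mem_Icc] at hn
  have hn0 : (0 : ℝ) < n := by exact_mod_cast hn.1
  have hY0 : (0 : ℝ) < Y := by exact_mod_cast hY
  have hnY : (n : ℝ) ≤ Y := by exact_mod_cast hn.2
  have hΛ : 0 ≤ Lam n := ArithmeticFunction.vonMangoldt_nonneg
  have hlY : 0 ≤ Real.log Y := Real.log_nonneg (by exact_mod_cast hY)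
  by_cases h0 : Lam n = 0
  · rw [h0]
    simp
  · have hpp : IsPrimePow n := ArithmeticFunction.vonMangoldt_ne_zero_iff.1 h0
    have hff := fsq_ff_pp hR hpp
    have hlog : Real.log ((Y : ℝ) / n) = Real.log Y - Real.log n :=
      Real.log_div hY0.ne' hn0.ne'
    have hlogn : Real.log n ≤ Real.log Y := Real.log_le_log hn0 hnY
    split_ifs with hp
    · have h3 : Lam n = Real.log n := ArithmeticFunction.vonMangoldt_apply_prime hp
      rw [hlog, mul_zero, add_zero, ← mul_add]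
      apply mul_le_mul_of_nonneg_left _ hΛ
      rw [h3]
      linarith
    · rw [hlog]
      have h4 : Lam n * (2 * ff R n - Lam n) ≤ Lam n * (2 * Real.log R) := by
        apply mul_le_mul_of_nonneg_left _ hΛ
        linarith
      have h5 : 0 ≤ Lam n * (Real.log Y - Real.log n) := mul_nonneg hΛ (by linarith)
      nlinarith

/-- divisors as a filter of an interval -/
lemma fsq_ff_eq {R : ℝ} (hR : 1 ≤ R) {n : ℕ} (hn : 1 ≤ n) : ff R n =
    ∑ d ∈ Finset.Icc 1 ⌊R⌋₊, if d ∣ n then mu d * Real.log (R / d) else 0 := by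
  unfold ff
  rw [← Finset.sum_filter]
  apply Finset.sum_congr _ fun _ _ => rfl
  ext d
  simp only [Finset.mem_filter, Nat.mem_divisors, Finset.mem_Icc]
  constructor
  · rintro ⟨⟨h1, h2⟩, h3⟩
    exact ⟨⟨Nat.pos_of_dvd_of_pos h1 hn, Nat.le_floor h3⟩, h1⟩
  · rintro ⟨⟨h1, h2⟩, h3⟩
    exact ⟨⟨h3, by omega⟩, (Nat.le_floor_iff (by linarith)).1 h2⟩

lemma fsq_large {R : ℝ} (hR : 1 ≤ R) (Y : ℕ) :
    ∑ n ∈ Finset.Icc 1 Y, ff R n ^ 2 ≤ Y * GG 1 R + R ^ 2 := by
  set m := ⌊R⌋₊ with hm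
  set a : ℕ → ℝ := fun d => mu d * Real.log (R / d) with ha
  have h1 : ∀ n ∈ Finset.Icc 1 Y, ff R n ^ 2 = ∑ d ∈ Finset.Icc 1 m, ∑ e ∈ Finset.Icc 1 m,
      a d * a e * (if Nat.lcm d e ∣ n then 1 else 0) := by
    intro n hn
    rw [Finset.mem_Icc] at hn
    rw [fsq_ff_eq hR hn.1, pow_two, Finset.sum_mul_sum]
    refine Finset.sum_congr rfl fun d _ => Finset.sum_congr rfl fun e _ => ?_
    by_cases h2 : d ∣ n <;> by_cases h3 : e ∣ n
    · rw [if_pos h2, if_pos h3, if_pos (Nat.lcm_dvd h2 h3), mul_one]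
    · rw [if_neg h3, if_neg (fun h => h3 ((Nat.dvd_lcm_right d e).trans h)), mul_zero, mul_zero]
    · rw [if_neg h2, if_neg (fun h => h2 ((Nat.dvd_lcm_left d e).trans h)), mul_zero, zero_mul]
    · rw [if_neg h2, if_neg (fun h => h2 ((Nat.dvd_lcm_left d e).trans h)), mul_zero, zero_mul]
  have hcount : ∀ L : ℕ, 1 ≤ L → |∑ n ∈ Finset.Icc 1 Y, (if L ∣ n then (1 : ℝ) else 0) -
      (Y : ℝ) / L| ≤ 1 := by
    intro L hL
    have hL0 : (0 : ℝ) < L := by exact_mod_cast hL
    have h2 : ∑ n ∈ Finset.Icc 1 Y, (if L ∣ n then (1 : ℝ) else 0) = ((Y / L : ℕ) : ℝ) := by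
      rw [← Finset.sum_filter, Finset.sum_const, nsmul_eq_mul, mul_one]
      congr 1
      exact Nat.Ioc_filter_dvd_card_eq_div Y L
    rw [h2]
    have h3 : ((Y / L : ℕ) : ℝ) ≤ (Y : ℝ) / L := Nat.cast_div_le
    have h4 : (Y : ℝ) / L < ((Y / L : ℕ) : ℝ) + 1 := by
      rw [div_lt_iff₀ hL0]
      have h5 := Nat.lt_div_mul_add (a := Y) (b := L) hL
      have h6 : ((Y : ℕ) : ℝ) < ((Y / L * L + L : ℕ) : ℝ) := by exact_mod_cast h5
      push_cast at h6
      push_cast
      linarith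
    rw [abs_le]
    constructor <;> linarith
  rw [Finset.sum_congr rfl h1, Finset.sum_comm]
  have h2 : ∀ d ∈ Finset.Icc 1 m, ∑ n ∈ Finset.Icc 1 Y, ∑ e ∈ Finset.Icc 1 m,
      a d * a e * (if Nat.lcm d e ∣ n then 1 else 0) ≤ ∑ e ∈ Finset.Icc 1 m,
      (Y * (a d * a e / ((Nat.lcm 1 (Nat.lcm d e) : ℕ) : ℝ)) + |a d| * |a e|) := by
    intro d hd
    rw [Finset.mem_Icc] at hd
    rw [Finset.sum_comm]
    refine Finset.sum_le_sum fun e he => ?_
    rw [Finset.mem_Icc] at he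
    rw [← Finset.mul_sum, Nat.lcm_one_left]
    have h3 := hcount (Nat.lcm d e) (Nat.lcm_pos (by omega) (by omega))
    have h4 : a d * a e * ∑ n ∈ Finset.Icc 1 Y, (if Nat.lcm d e ∣ n then (1 : ℝ) else 0) =
        Y * (a d * a e / ((Nat.lcm d e : ℕ) : ℝ)) + a d * a e *
          (∑ n ∈ Finset.Icc 1 Y, (if Nat.lcm d e ∣ n then (1 : ℝ) else 0) -
            (Y : ℝ) / (Nat.lcm d e : ℕ)) := by ring
    rw [h4]
    have h5 : a d * a e * (∑ n ∈ Finset.Icc 1 Y, (if Nat.lcm d e ∣ n then (1 : ℝ) else 0) -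
        (Y : ℝ) / (Nat.lcm d e : ℕ)) ≤ |a d| * |a e| := by
      refine (le_abs_self _).trans ?_
      rw [abs_mul, abs_mul]
      exact mul_le_of_le_one_right (by positivity) h3
    linarith
  refine (Finset.sum_le_sum h2).trans ?_
  simp only [Finset.sum_add_distrib, ← Finset.mul_sum, ← Finset.sum_mul]
  apply add_le_add
  · apply le_of_eq
    congr 1
    unfold GG
    refine Finset.sum_congr rfl fun d _ => Finset.sum_congr rfl fun e _ => ?_
    congr 1
    ring
  · have h3 : ∑ d ∈ Finset.Icc 1 m, |a d| ≤ R := by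
      refine le_trans (Finset.sum_le_sum fun d hd => ?_) (fsq_sum_log hR)
      rw [Finset.mem_Icc] at hd
      have hd0 : (0 : ℝ) < d := by exact_mod_cast hd.1
      have h4 : (d : ℝ) ≤ R := (Nat.le_floor_iff (by linarith)).1 hd.2
      have h5 : 0 ≤ Real.log (R / d) := Real.log_nonneg (by rwa [one_le_div hd0])
      rw [ha]
      show |mu d * Real.log (R / d)| ≤ _
      rw [abs_mul, abs_of_nonneg h5]
      exact mul_le_of_le_one_left h5 (Pool.Agent.FG61.MU_abs d)
    have h6 : 0 ≤ ∑ d ∈ Finset.Icc 1 m, |a d| := Finset.sum_nonneg fun _ _ => abs_nonneg _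
    nlinarith

/-- the mean square of the truncated divisor sum, all ranges -/
theorem ff_sq_pr {ε : ℝ} (hε : 0 < ε) : ∃ C : ℝ, 0 ≤ C ∧ ∀ (R : ℝ) (Y : ℕ), 1 ≤ R →
    ∑ n ∈ Finset.Icc 2 Y, ff R n ^ 2 ≤ (1 + ε) * Y * Real.log (min (Y : ℝ) R) + C * Y := by
  obtain ⟨C1, hC1, h1⟩ := graham_imp hε
  obtain ⟨C2, hC2, h2⟩ := fsq_psi_up hε
  obtain ⟨C3, hC3, h3⟩ := Pool.Agent.FG61.g_one ε hε
  obtain ⟨C4, h4⟩ := Chebyshev.psi_sub_theta_le_mul_sqrt
  refine ⟨2 * C1 + C2 + C3 + 2 * |C4| + Real.log 4 + 4 + 1, by positivity, ?_⟩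
  intro R Y hR
  have hR0 : 0 < R := by linarith
  have hl4 : 0 ≤ Real.log 4 := Real.log_nonneg (by norm_num)
  rcases Nat.lt_or_ge Y 2 with hY2 | hY2
  · rw [Finset.Icc_eq_empty (by omega), Finset.sum_empty]
    have h5 : 0 ≤ (2 * C1 + C2 + C3 + 2 * |C4| + Real.log 4 + 4 + 1) * (Y : ℝ) := by positivity
    have h6 : 0 ≤ Real.log (min (Y : ℝ) R) := by
      interval_cases Y
      · simp [hR0.le]
      · rw [Nat.cast_one, min_eq_left hR, Real.log_one]
    positivity
  have hY0 : (0 : ℝ) < Y := by exact_mod_cast (by omega : 0 < Y)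
  have hY1 : (1 : ℝ) ≤ Y := by exact_mod_cast (by omega : 1 ≤ Y)
  have hlY0 : 0 ≤ Real.log Y := Real.log_nonneg hY1
  have hlYY : Real.log Y ≤ Y := by
    have := Real.log_le_sub_one_of_pos hY0
    linarith
  have hlR0 : 0 ≤ Real.log R := Real.log_nonneg hR
  rcases le_total (Y : ℝ) R with hYR | hRY
  · -- small range
    rw [min_eq_left hYR]
    have h5 : ∀ n ∈ Finset.Icc 2 Y, ff R n ^ 2 ≤ Real.log Y * Lam n := by
      intro n hn
      rw [Finset.mem_Icc] at hn
      have h6 := Pool.Agent.FG61.flip R hR n hn.1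
      have h7 : ff ((rad n : ℕ) / R) (rad n) = 0 := by
        have h8 : (rad n : ℝ) ≤ R := by
          have h9 : rad n ≤ n := Nat.le_of_dvd (by omega) (Pool.Agent.FG61.FL_dvd n)
          have h10 : (rad n : ℝ) ≤ Y := by exact_mod_cast h9.trans hn.2
          linarith
        rcases eq_or_lt_of_le h8 with h9 | h9
        · rw [h9, div_self hR0.ne']
          unfold ff
          apply Finset.sum_eq_zero
          intro d hd
          rw [Finset.mem_filter, Nat.mem_divisors] at hd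
          have h10 : d = 1 := by
            have h11 : d ≤ 1 := by exact_mod_cast hd.2
            have h12 : 0 < d := Nat.pos_of_dvd_of_pos hd.1.1 (Nat.pos_of_ne_zero hd.1.2)
            omega
          rw [h10]
          simp
        · exact Pool.Agent.FG61.GR_ff_zero R (rad n) hR h9
      rw [h7, mul_zero] at h6
      have h8 : ff R n = Lam n := by linarith
      rw [h8, pow_two]
      apply mul_le_mul_of_nonneg_right _ ArithmeticFunction.vonMangoldt_nonneg
      refine ArithmeticFunction.vonMangoldt_le_log.trans ?_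
      apply Real.log_le_log
      · exact_mod_cast (by omega : 0 < n)
      · exact_mod_cast hn.2
    refine (Finset.sum_le_sum h5).trans ?_
    rw [← Finset.mul_sum]
    have h6 : ∑ n ∈ Finset.Icc 2 Y, Lam n ≤ Chebyshev.psi Y := by
      rw [← fsq_psi]
      apply Finset.sum_le_sum_of_subset_of_nonneg
      · exact Finset.Icc_subset_Icc_left (by omega)
      · intro i _ _
        exact ArithmeticFunction.vonMangoldt_nonneg
    have h7 : Real.log Y * ∑ n ∈ Finset.Icc 2 Y, Lam n ≤ Real.log Y * ((1 + ε) * Y + C2) :=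
      mul_le_mul_of_nonneg_left (h6.trans (h2 Y)) hlY0
    have h8 : Real.log Y * C2 ≤ Y * C2 := mul_le_mul_of_nonneg_right hlYY hC2
    have h9 : 0 ≤ (2 * C1 + C3 + 2 * |C4| + Real.log 4 + 4 + 1) * (Y : ℝ) := by positivity
    nlinarith
  · rw [min_eq_right hRY]
    have hlRY : Real.log R ≤ Real.log Y := Real.log_le_log hR0 hRY
    rcases le_total (Y : ℝ) (R ^ 2) with hY2R | hR2Y
    · -- middle range
      have h5 : ∑ n ∈ Finset.Icc 2 Y, ff R n ^ 2 =
          ∑ n ∈ Finset.Icc 2 Y, (ff R n - Lam n) ^ 2 +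
          ∑ n ∈ Finset.Icc 2 Y, Lam n * (2 * ff R n - Lam n) := by
        rw [← Finset.sum_add_distrib]
        exact Finset.sum_congr rfl fun n _ => by ring
      have h6 : ∑ n ∈ Finset.Icc 2 Y, (ff R n - Lam n) ^ 2 ≤
          ∑ n ∈ Finset.Icc 1 Y, (ff R n - Lam n) ^ 2 := by
        apply Finset.sum_le_sum_of_subset_of_nonneg
        · exact Finset.Icc_subset_Icc_left (by omega)
        · intro i _ _
          exact sq_nonneg _
      have h7 : ∑ n ∈ Finset.Icc 2 Y, Lam n * (2 * ff R n - Lam n) =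
          ∑ n ∈ Finset.Icc 1 Y, Lam n * (2 * ff R n - Lam n) := by
        apply Finset.sum_subset (Finset.Icc_subset_Icc_left (by omega))
        intro n hn hn'
        rw [Finset.mem_Icc] at hn hn'
        have h8 : n = 1 := by omega
        rw [h8]
        simp [Lam]
      have h8 := h1 Y R hR hRY
      have h9 := fsq_second hR (Y := Y) (by omega)
      have h10 := fsq_lam_log Y
      have hlYR2 : Real.log Y ≤ 2 * Real.log R := by
        have := Real.log_le_log hY0 hY2R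
        rw [Real.log_pow] at this
        push_cast at this
        linarith
      have h11 : Chebyshev.psi Y * (2 * Real.log R - Real.log Y) ≤
          ((1 + ε) * Y + C2) * (2 * Real.log R - Real.log Y) :=
        mul_le_mul_of_nonneg_right (h2 Y) (by linarith)
      have h12 : C2 * (2 * Real.log R - Real.log Y) ≤ C2 * Y := by
        apply mul_le_mul_of_nonneg_left _ hC2
        linarith
      have h13 : Real.log Y * (Chebyshev.psi Y - Chebyshev.theta Y) ≤ 2 * |C4| * Y := by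
        have g1 : Real.log Y ≤ 2 * Real.sqrt Y := by
          have := Real.log_le_sub_one_of_pos (Real.sqrt_pos.2 hY0)
          rw [Real.log_sqrt hY0.le] at this
          linarith
        have g2 : Chebyshev.psi Y - Chebyshev.theta Y ≤ |C4| * Real.sqrt Y :=
          (h4 Y).trans (mul_le_mul_of_nonneg_right (le_abs_self _) (Real.sqrt_nonneg _))
        have g3 : 0 ≤ Chebyshev.psi Y - Chebyshev.theta Y := by
          linarith [Chebyshev.theta_le_psi (Y : ℝ)]
        calc Real.log Y * (Chebyshev.psi Y - Chebyshev.theta Y) ≤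
            (2 * Real.sqrt Y) * (|C4| * Real.sqrt Y) :=
              mul_le_mul g1 g2 g3 (by positivity)
          _ = 2 * |C4| * (Real.sqrt Y * Real.sqrt Y) := by ring
          _ = 2 * |C4| * Y := by rw [Real.mul_self_sqrt hY0.le]
      have h14 : C1 * ((Y : ℝ) / R) ^ 2 ≤ C1 * Y := by
        apply mul_le_mul_of_nonneg_left _ hC1
        rw [div_pow, div_le_iff₀ (by positivity)]
        nlinarith
      have h15 : Real.log ((Y : ℝ) / R) = Real.log Y - Real.log R :=
        Real.log_div hY0.ne' hR0.ne'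
      rw [h15] at h8
      rw [h5, h7]
      have h16 : 0 ≤ (C3 + 1) * (Y : ℝ) := by positivity
      nlinarith
    · -- large range
      have h5 : ∑ n ∈ Finset.Icc 2 Y, ff R n ^ 2 ≤ ∑ n ∈ Finset.Icc 1 Y, ff R n ^ 2 := by
        apply Finset.sum_le_sum_of_subset_of_nonneg
        · exact Finset.Icc_subset_Icc_left (by omega)
        · intro i _ _
          exact sq_nonneg _
      have h6 := fsq_large hR Y
      have h7 : (Y : ℝ) * GG 1 R ≤ Y * ((1 + ε) * Real.log R + C3) :=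
        mul_le_mul_of_nonneg_left (h3 R hR) hY0.le
      have h9 : 0 ≤ (2 * C1 + C2 + 2 * |C4| + Real.log 4 + 4) * (Y : ℝ) := by positivity
      nlinarith

theorem ff_sq : type_of% @ff_sq_pr := @ff_sq_pr

end Pool.Agent.KSL
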