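import Pool.Agent.Lib_helper68.KSL.Defs
import Pool.Agent.Lib_helper41.KSNF.CONP
import Pool.Agent.Lib_helper68.KSLF.FSQ

/-! Block RSA. -/

namespace Pool.Agent.KSL

open Pool.Agent.LEV Pool.Agent.LVB
open Pool.Agent.FG61 (mu phi cc ff AA Lam)
open Complex MeasureTheory Filter Topology UpperHalfPlane ModularGroup ProbabilityTheory
open scoped MatrixGroups Modular ENNReal ModularForm ComplexConjugate ContDiff

/-- Mertens -/
theorem vz_bounds_pr : ∃ c C : ℝ, 0 < c ∧ 0 < C ∧ ∀ z : ℕ, 2 ≤ z →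
    c / Real.log z ≤ Vz z ∧ Vz z ≤ C / Real.log z := CON_VV_bounds

theorem rsa_ff {z : ℕ} (hz : 1 ≤ z) {n : ℕ} (hn : 1 ≤ n) (hr : rough z n) :
    ff z n = Real.log z := by
  unfold ff
  have h1 : n.divisors.filter (fun d : ℕ => (d : ℝ) ≤ z) = {1} := by
    ext d
    simp only [Finset.mem_filter, Nat.mem_divisors, Finset.mem_singleton, Nat.cast_le]
    constructor
    · rintro ⟨⟨h1, h2⟩, h3⟩
      by_contra hd
      obtain ⟨p, hp, hpd⟩ := Nat.exists_prime_and_dvd hd
      have h4 := hr p hp (hpd.trans h1)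
      have h5 : p ≤ d := Nat.le_of_dvd (Nat.pos_of_dvd_of_pos h1 hn) hpd
      omega
    · rintro rfl
      exact ⟨⟨one_dvd _, by omega⟩, hz⟩
  rw [h1, Finset.sum_singleton]
  simp [mu]

theorem rough_card_pr : ∃ C : ℝ, 0 < C ∧ ∀ z x : ℕ, 2 ≤ z →
    ((RO z x).card : ℝ) ≤ 1 + C * x / Real.log z := by
  classical
  obtain ⟨C, hC, h⟩ := ff_sq (ε := 1) one_pos
  have hl2 : 0 < Real.log 2 := Real.log_pos (by norm_num)
  refine ⟨2 + C / Real.log 2, by positivity, fun z x hz => ?_⟩
  have hz1 : (1 : ℝ) ≤ z := by exact_mod_cast (by omega : 1 ≤ z)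
  have hz2 : (2 : ℝ) ≤ z := by exact_mod_cast hz
  have hlz : 0 < Real.log z := Real.log_pos (by linarith)
  have hl2z : Real.log 2 ≤ Real.log z := Real.log_le_log (by norm_num) hz2
  set A : Finset ℕ := (Finset.Icc 2 x).filter (fun n => rough z n) with hA
  have hsub : RO z x ⊆ insert 1 A := by
    intro n hn
    unfold RO at hn
    rw [Finset.mem_filter, Finset.mem_Icc] at hn
    rw [Finset.mem_insert, hA, Finset.mem_filter, Finset.mem_Icc]
    by_cases h1 : n = 1
    · exact Or.inl h1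
    · exact Or.inr ⟨⟨by omega, hn.1.2⟩, hn.2⟩
  have hcard : ((RO z x).card : ℝ) ≤ 1 + A.card := by
    have h1 := (Finset.card_le_card hsub).trans (Finset.card_insert_le 1 A)
    have h2 : (RO z x).card ≤ A.card + 1 := h1
    have h3 : ((RO z x).card : ℝ) ≤ ((A.card + 1 : ℕ) : ℝ) := by exact_mod_cast h2
    push_cast at h3
    linarith
  have h1 := h z x hz1
  have h2 : (A.card : ℝ) * Real.log z ^ 2 ≤ ∑ n ∈ Finset.Icc 2 x, ff z n ^ 2 := by
    calc (A.card : ℝ) * Real.log z ^ 2 = ∑ n ∈ A, ff z n ^ 2 := by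
          rw [← nsmul_eq_mul, ← Finset.sum_const]
          refine Finset.sum_congr rfl fun n hn => ?_
          rw [hA, Finset.mem_filter, Finset.mem_Icc] at hn
          rw [rsa_ff (by omega) (by omega) hn.2]
      _ ≤ _ := Finset.sum_le_sum_of_subset_of_nonneg (Finset.filter_subset _ _)
          fun n _ _ => sq_nonneg _
  have h3 : (1 + 1) * (x : ℝ) * Real.log (min (x : ℝ) z) ≤ 2 * x * Real.log z := by
    rcases Nat.eq_zero_or_pos x with h0 | h0
    · rw [h0]
      simp
    · have hx1 : (1 : ℝ) ≤ x := by exact_mod_cast h0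
      have : Real.log (min (x : ℝ) z) ≤ Real.log z :=
        Real.log_le_log (lt_min (by linarith) (by linarith)) (min_le_right _ _)
      nlinarith
  have h4 : (A.card : ℝ) * Real.log z ^ 2 ≤ 2 * x * Real.log z + C * x := by linarith
  have h5 : C * x ≤ C / Real.log 2 * x * Real.log z := by
    have hx0 : (0 : ℝ) ≤ x := Nat.cast_nonneg x
    calc C * x = C / Real.log 2 * x * Real.log 2 := by field_simp
      _ ≤ _ := mul_le_mul_of_nonneg_left hl2z (by positivity)
  have h6 : (A.card : ℝ) ≤ (2 + C / Real.log 2) * x / Real.log z := by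
    rw [le_div_iff₀ hlz]
    have h7 : (A.card : ℝ) * Real.log z * Real.log z ≤
        (2 + C / Real.log 2) * x * Real.log z := by nlinarith
    exact le_of_mul_le_mul_right h7 hlz
  linarith

theorem vz_bounds : type_of% @vz_bounds_pr := @vz_bounds_pr
theorem rough_card : type_of% @rough_card_pr := @rough_card_pr

end Pool.Agent.KSL
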