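import Pool.Agent.Lib_helper68.KSL.Defs

/-! KSL, block SZF. -/

namespace Pool.Agent.KSL

open Pool.Agent.LEV Pool.Agent.LVB
open Pool.Agent.FG61 (mu phi cc ff AA Lam)
open Complex MeasureTheory Filter Topology UpperHalfPlane ModularGroup ProbabilityTheory
open scoped MatrixGroups Modular ENNReal ModularForm ComplexConjugate ContDiff

/-- sizes of the parameters -/
theorem sizes_pr {δ : ℝ} (h0 : 0 < δ) (h1 : δ < 1 / 4) {ε : ℝ} (hε : 0 < ε) : ∃ N₀ : ℕ, ∀ N : ℕ,
    N₀ ≤ N → 3 ≤ N ∧ 2 ≤ zz N ∧ zz N < MM δ N ∧ (zz N : ℝ) ≤ (N : ℝ) ^ ε ∧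
      1 / ε ≤ Real.log (zz N) ∧ Real.log N ≤ 2 * Real.log (Real.log N) ^ 2 * Real.log (zz N) ∧
      |Real.log (MM δ N) - (1 / 2 - δ) * Real.log N| ≤ ε ∧ 1 / ε ≤ Real.log (Real.log N) ∧
      Real.log (Real.log N) ≤ ε * Real.log (zz N) := by
  have hL : Tendsto (fun N : ℕ => Real.log N) atTop atTop :=
    Real.tendsto_log_atTop.comp tendsto_natCast_atTop_atTop
  have hl : Tendsto (fun N : ℕ => Real.log (Real.log N)) atTop atTop :=
    Real.tendsto_log_atTop.comp hL
  set c : ℝ := min (ε / 2) (1 / 2) with hc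
  have hc0 : 0 < c := lt_min (by linarith) (by norm_num)
  have hc1 : c ≤ ε / 2 := min_le_left _ _
  have hc2 : c ≤ 1 / 2 := min_le_right _ _
  have hd : ∀ᶠ N : ℕ in atTop, Real.log (Real.log N) ^ 3 ≤ c * Real.log N := by
    have h := (Real.isLittleO_pow_log_id_atTop (n := 3)).comp_tendsto hL
    filter_upwards [h.bound hc0, hL.eventually_ge_atTop 1, hl.eventually_ge_atTop 0]
      with N h2 h3 h4
    simp only [Function.comp, id, Real.norm_eq_abs] at h2
    rwa [abs_of_nonneg (by positivity), abs_of_nonneg (by linarith)] at h2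
  set K : ℝ := -Real.log (1 - Real.exp (-ε)) with hK
  have he1 : Real.exp (-ε) < 1 := by
    rw [Real.exp_lt_one_iff]; linarith
  have key : ∀ᶠ N : ℕ in atTop, 3 ≤ N ∧ 2 ≤ zz N ∧ zz N < MM δ N ∧ (zz N : ℝ) ≤ (N : ℝ) ^ ε ∧
      1 / ε ≤ Real.log (zz N) ∧ Real.log N ≤ 2 * Real.log (Real.log N) ^ 2 * Real.log (zz N) ∧
      |Real.log (MM δ N) - (1 / 2 - δ) * Real.log N| ≤ ε ∧ 1 / ε ≤ Real.log (Real.log N) ∧
      Real.log (Real.log N) ≤ ε * Real.log (zz N) := by
    filter_upwards [hd, eventually_ge_atTop 3, hL.eventually_ge_atTop (8 * Real.log 2),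
      hL.eventually_ge_atTop (4 * K), hl.eventually_ge_atTop 3, hl.eventually_ge_atTop (1 / ε)]
      with N k1 k2 k3 k4 k5 k6
    set L := Real.log (N : ℝ) with hLd
    set l := Real.log L with hld
    have hN0 : (0 : ℝ) < N := by
      have : (3 : ℝ) ≤ N := by exact_mod_cast k2
      linarith
    have hl2 : 0 < l ^ 2 := by positivity
    have hL0 : 0 < L := by
      have := Real.log_pos (show (1 : ℝ) < 2 by norm_num)
      linarith
    -- the exponent
    have e1 : l ≤ c * (L / l ^ 2) := by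
      rw [mul_div_assoc', le_div_iff₀ hl2]
      nlinarith [k1]
    have e0 : 0 < L / l ^ 2 := by positivity
    have e2 : 2 * l ≤ ε * (L / l ^ 2) := by
      have := mul_le_mul_of_nonneg_right hc1 e0.le
      linarith
    have e3 : 2 * l ≤ L / l ^ 2 := by
      have := mul_le_mul_of_nonneg_right hc2 e0.le
      linarith
    have hz : zN N = Real.exp (L / l ^ 2) := rfl
    have hzf : (zz N : ℝ) ≤ Real.exp (L / l ^ 2) := by
      unfold zz
      rw [← hz]
      exact Nat.floor_le (by rw [hz]; positivity)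
    have hln2 : Real.log 2 < 1 := by
      have := Real.log_two_lt_d9
      linarith
    have hz2 : 2 ≤ zz N := by
      unfold zz
      rw [hz]
      apply Nat.le_floor
      push_cast
      calc (2 : ℝ) = Real.exp (Real.log 2) := (Real.exp_log (by norm_num)).symm
        _ ≤ _ := Real.exp_le_exp.2 (by linarith)
    have hz2r : (2 : ℝ) ≤ zz N := by exact_mod_cast hz2
    have hlz : L / l ^ 2 - Real.log 2 ≤ Real.log (zz N) := by
      have h5 : Real.exp (L / l ^ 2) < zz N + 1 := by
        unfold zz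
        rw [← hz]
        exact Nat.lt_floor_add_one _
      have h6 : Real.exp (L / l ^ 2) ≤ 2 * zz N := by linarith
      have h7 := Real.log_le_log (Real.exp_pos _) h6
      rw [Real.log_exp, Real.log_mul (by norm_num) (by positivity)] at h7
      linarith
    have hlz2 : L / l ^ 2 / 2 ≤ Real.log (zz N) := by linarith
    have c1 : (1 : ℝ) / 4 ≤ 1 / 2 - δ := by linarith
    -- MM
    have hMe : (N : ℝ) ^ (1 / 2 - δ) = Real.exp ((1 / 2 - δ) * L) := by
      rw [Real.rpow_def_of_pos hN0, mul_comm]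
    have hMf : (MM δ N : ℝ) ≤ Real.exp ((1 / 2 - δ) * L) := by
      unfold MM
      rw [← hMe]
      exact Nat.floor_le (by positivity)
    have hMg : Real.exp ((1 / 2 - δ) * L) - 1 < MM δ N := by
      have := Nat.lt_floor_add_one ((N : ℝ) ^ (1 / 2 - δ))
      unfold MM
      rw [← hMe]
      linarith
    have hzM : (zz N : ℝ) < MM δ N := by
      have h5 : Real.exp (L / l ^ 2) ≤ Real.exp (L / 8) := by
        apply Real.exp_le_exp.2
        apply div_le_div_of_nonneg_left hL0.le (by norm_num)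
        nlinarith
      have h6 : (2 : ℝ) ≤ Real.exp (L / 8) := by
        calc (2 : ℝ) = Real.exp (Real.log 2) := (Real.exp_log (by norm_num)).symm
          _ ≤ _ := Real.exp_le_exp.2 (by linarith)
      have h7 : Real.exp (L / 8) * Real.exp (L / 8) ≤ Real.exp ((1 / 2 - δ) * L) := by
        rw [← Real.exp_add]
        apply Real.exp_le_exp.2
        nlinarith
      nlinarith
    have hMpos : (0 : ℝ) < MM δ N := by linarith
    refine ⟨k2, hz2, by exact_mod_cast hzM, ?_, ?_, ?_, ?_, k6, ?_⟩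
    · refine hzf.trans ?_
      rw [Real.rpow_def_of_pos hN0]
      apply Real.exp_le_exp.2
      rw [div_le_iff₀ hl2]
      have h5 : 1 / ε ≤ l ^ 2 := by
        have : l * 1 ≤ l * l := mul_le_mul_of_nonneg_left (by linarith) (by linarith)
        calc 1 / ε ≤ l := k6
          _ ≤ l ^ 2 := by rw [sq]; linarith
      rw [div_le_iff₀ hε] at h5
      have h6 := mul_le_mul_of_nonneg_left h5 hL0.le
      calc L = L * 1 := (mul_one _).symm
        _ ≤ L * (l ^ 2 * ε) := h6
        _ = _ := by ring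
    · have h5 : 1 / ε ≤ L / l ^ 2 / 2 := by
        rw [div_le_iff₀ hε]
        calc (1 : ℝ) ≤ l := by linarith
          _ ≤ L / l ^ 2 / 2 * ε := by linarith
      linarith
    · have h5 : L = 2 * l ^ 2 * (L / l ^ 2 / 2) := by
        field_simp
      calc L = 2 * l ^ 2 * (L / l ^ 2 / 2) := h5
        _ ≤ _ := mul_le_mul_of_nonneg_left hlz2 (by positivity)
    · have h5 : Real.log (MM δ N) ≤ (1 / 2 - δ) * L := by
        have := Real.log_le_log hMpos hMf
        rwa [Real.log_exp] at this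
      have h6 : (1 / 2 - δ) * L - ε ≤ Real.log (MM δ N) := by
        rw [Real.le_log_iff_exp_le hMpos]
        refine le_trans ?_ hMg.le
        rw [sub_eq_add_neg ((1 / 2 - δ) * L) ε, Real.exp_add]
        have h7 : 1 ≤ Real.exp ((1 / 2 - δ) * L) * (1 - Real.exp (-ε)) := by
          have h8 : (1 - Real.exp (-ε)) = Real.exp (-K) := by
            rw [hK, neg_neg, Real.exp_log (by linarith)]
          rw [h8, ← Real.exp_add, Real.one_le_exp_iff]
          have h9 := mul_le_mul_of_nonneg_right c1 hL0.le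
          linarith
        linarith
      rw [abs_le]
      constructor <;> linarith
    · have h5 := mul_le_mul_of_nonneg_left hlz2 hε.le
      linarith
  exact eventually_atTop.1 key

theorem ka_size_pr {ε : ℝ} (hε : 0 < ε) {N : ℕ} (hN : 1 ≤ N) : 1 ≤ KA ε N ∧
    (KA ε N : ℝ) ≤ (N : ℝ) ^ ε ∧ Real.log (KA ε N) ≤ ε * Real.log N := by
  have hN1 : (1 : ℝ) ≤ N := by exact_mod_cast hN
  have h1 : (1 : ℝ) ≤ (N : ℝ) ^ ε := Real.one_le_rpow hN1 hε.le
  have h2 : 1 ≤ KA ε N := by
    unfold KA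
    apply Nat.le_floor
    push_cast
    exact h1
  have h3 : (KA ε N : ℝ) ≤ (N : ℝ) ^ ε := Nat.floor_le (by positivity)
  refine ⟨h2, h3, ?_⟩
  have h4 : (1 : ℝ) ≤ KA ε N := by exact_mod_cast h2
  have h5 := Real.log_le_log (by linarith) h3
  rwa [Real.log_rpow (by linarith)] at h5

theorem sizes : type_of% @sizes_pr := @sizes_pr
theorem ka_size : type_of% @ka_size_pr := @ka_size_pr

end Pool.Agent.KSL
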