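import Pool.Agent.Lib_helper68.KSL.Defs
import Pool.Agent.Lib_helper90.PNT.WienerIkehara
import Pool.Agent.Lib_helper68.KSLF.RSA
import Pool.Agent.Lib_helper68.KSLF.SZF

/-! Block BET. -/

namespace Pool.Agent.KSL

open Pool.Agent.LEV Pool.Agent.LVB
open Pool.Agent.FG61 (mu phi cc ff AA Lam)
open Complex MeasureTheory Filter Topology UpperHalfPlane ModularGroup ProbabilityTheory
open scoped MatrixGroups Modular ENNReal ModularForm ComplexConjugate ContDiff

/-- primes in `(M, 2M]` -/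
theorem bet_primes : ∃ M₀ : ℕ, ∀ M : ℕ, M₀ ≤ M → 2 ≤ M ∧
    (M : ℝ) / (2 * Real.log M) ≤ (PK M 2).card ∧ ((PK M 2).card : ℝ) ≤ 2 * M / Real.log M := by
  have h := Pool.Agent.Lib_helper90.PNT.tendsto_theta_div
  have h1 : ∀ᶠ x : ℝ in atTop, |Chebyshev.theta x / x - 1| ≤ 1 / 12 := by
    have := (Metric.tendsto_nhds.1 h) (1 / 12) (by norm_num)
    filter_upwards [this] with x hx
    rw [Real.dist_eq] at hx
    exact hx.le
  obtain ⟨X, hX⟩ := eventually_atTop.1 h1
  refine ⟨max ⌈X⌉₊ 4, fun M hM => ?_⟩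
  have hM4 : 4 ≤ M := (le_max_right _ _).trans hM
  have hMX : X ≤ M := (Nat.le_ceil X).trans (by exact_mod_cast (le_max_left _ _).trans hM)
  have hM0 : (4 : ℝ) ≤ M := by exact_mod_cast hM4
  have hMp : (0 : ℝ) < M := by linarith
  refine ⟨by omega, ?_⟩
  have a1 := hX M hMX
  have a2 := hX (2 * M) (by linarith)
  have b1 : |Chebyshev.theta M - M| ≤ M / 12 := by
    have : Chebyshev.theta M - M = (Chebyshev.theta M / M - 1) * M := by field_simp
    rw [this, abs_mul, abs_of_pos hMp]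
    nlinarith
  have b2 : |Chebyshev.theta (2 * M) - 2 * M| ≤ M / 6 := by
    have : Chebyshev.theta (2 * M) - 2 * M = (Chebyshev.theta (2 * M) / (2 * M) - 1) * (2 * M) := by
      field_simp
    rw [this, abs_mul, abs_of_pos (by positivity : (0 : ℝ) < 2 * M)]
    nlinarith
  have hdiff : Chebyshev.theta (2 * M) - Chebyshev.theta M = ∑ p ∈ PK M 2, Real.log p := by
    unfold Chebyshev.theta PK
    have e1 : ⌊(2 * (M : ℝ))⌋₊ = 2 * M := by
      have : (2 * (M : ℝ)) = ((2 * M : ℕ) : ℝ) := by push_cast; ring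
      rw [this, Nat.floor_natCast]
    rw [e1, Nat.floor_natCast, sub_eq_iff_eq_add]
    have e2 : (Finset.Ioc 0 (2 * M)).filter Nat.Prime =
        (Finset.Ioc M (2 * M)).filter Nat.Prime ∪ (Finset.Ioc 0 M).filter Nat.Prime := by
      ext p
      simp only [Finset.mem_filter, Finset.mem_Ioc, Finset.mem_union]
      constructor
      · rintro ⟨h1, h2⟩
        by_cases h3 : M < p
        · exact Or.inl ⟨⟨h3, h1.2⟩, h2⟩
        · exact Or.inr ⟨⟨h1.1, by omega⟩, h2⟩
      · rintro (⟨h1, h2⟩ | ⟨h1, h2⟩)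
        · exact ⟨⟨by omega, h1.2⟩, h2⟩
        · exact ⟨⟨h1.1, by omega⟩, h2⟩
    rw [e2, Finset.sum_union]
    rw [Finset.disjoint_left]
    intro p h1 h2
    simp only [Finset.mem_filter, Finset.mem_Ioc] at h1 h2
    omega
  have hlow : 3 / 4 * (M : ℝ) ≤ ∑ p ∈ PK M 2, Real.log p := by
    rw [← hdiff]
    have := abs_le.1 b1
    have := abs_le.1 b2
    linarith
  have hup : ∑ p ∈ PK M 2, Real.log p ≤ 5 / 4 * (M : ℝ) := by
    rw [← hdiff]
    have := abs_le.1 b1
    have := abs_le.1 b2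
    linarith
  have hmem : ∀ p ∈ PK M 2, M < p ∧ p ≤ 2 * M := by
    intro p hp
    unfold PK at hp
    simp only [Finset.mem_filter, Finset.mem_Ioc] at hp
    exact hp.1
  have hL : 0 < Real.log M := Real.log_pos (by linarith)
  have hlog2 : 2 * Real.log 2 ≤ Real.log M := by
    have : 2 * Real.log 2 = Real.log 4 := by
      rw [show (4 : ℝ) = 2 ^ 2 by norm_num, Real.log_pow]
      push_cast
      ring
    rw [this]
    exact Real.log_le_log (by norm_num) hM0
  have h2 : ((PK M 2).card : ℝ) * Real.log M ≤ ∑ p ∈ PK M 2, Real.log p := by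
    rw [← nsmul_eq_mul, ← Finset.sum_const]
    refine Finset.sum_le_sum fun p hp => Real.log_le_log hMp ?_
    exact_mod_cast (hmem p hp).1.le
  have h3 : ∑ p ∈ PK M 2, Real.log p ≤ ((PK M 2).card : ℝ) * (Real.log 2 + Real.log M) := by
    rw [← nsmul_eq_mul, ← Finset.sum_const]
    refine Finset.sum_le_sum fun p hp => ?_
    rw [← Real.log_mul (by norm_num) hMp.ne']
    refine Real.log_le_log ?_ ?_
    · have := (hmem p hp).1
      exact_mod_cast (by omega : 0 < p)
    · exact_mod_cast (hmem p hp).2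
  have hc0 : (0 : ℝ) ≤ (PK M 2).card := Nat.cast_nonneg _
  constructor
  · rw [div_le_iff₀ (by positivity)]
    nlinarith
  · rw [le_div_iff₀ hL]
    linarith

/-- `log (M/e) ≤ ∑_{e ≤ k < M} 1/k` -/
theorem bet_log {e : ℕ} (he : 1 ≤ e) {M : ℕ} (hM : e ≤ M) :
    Real.log ((M : ℝ) / e) ≤ ∑ k ∈ Finset.Ico e M, 1 / (k : ℝ) := by
  have he0 : (0 : ℝ) < e := by exact_mod_cast he
  induction M, hM using Nat.le_induction with
  | base => simp [div_self he0.ne']
  | succ n hn ih =>
    have hn0 : (0 : ℝ) < n := by exact_mod_cast (by omega : 0 < n)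
    rw [Finset.sum_Ico_succ_top hn]
    have h1 : Real.log (((n + 1 : ℕ) : ℝ) / e) = Real.log ((n : ℝ) / e) + Real.log ((n + 1) / n) := by
      rw [← Real.log_mul (by positivity) (by positivity)]
      congr 1
      push_cast
      field_simp
    have h2 : Real.log (((n : ℝ) + 1) / n) ≤ 1 / n := by
      have := Real.log_le_sub_one_of_pos (by positivity : (0 : ℝ) < ((n : ℝ) + 1) / n)
      have e1 : ((n : ℝ) + 1) / n - 1 = 1 / n := by field_simp; ring
      linarith
    rw [h1]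
    linarith

/-- harmonic sum -/
theorem bet_harm {M : ℕ} (hM : 1 ≤ M) : ∑ k ∈ Finset.Ico 1 M, 1 / (k : ℝ) ≤ 1 + Real.log M := by
  have h1 : ∑ k ∈ Finset.Ico 1 M, 1 / (k : ℝ) ≤ ∑ k ∈ Finset.Icc 1 M, 1 / (k : ℝ) :=
    Finset.sum_le_sum_of_subset_of_nonneg (fun k hk => by
      rw [Finset.mem_Ico] at hk
      rw [Finset.mem_Icc]
      omega) fun k _ _ => by positivity
  have h2 := harmonic_le_one_add_log M
  have h3 : ((harmonic M : ℚ) : ℝ) = ∑ k ∈ Finset.Icc 1 M, 1 / (k : ℝ) := by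
    rw [harmonic_eq_sum_Icc]
    push_cast
    simp [one_div]
  rw [h3] at h2
  linarith

theorem bet_g0 : ∃ C : ℝ, 0 < C ∧ ∀ z M : ℕ, 2 ≤ z → 1 ≤ M →
    |g0 z M| ≤ 1 + Real.log M + C * M / Real.log z := by
  classical
  obtain ⟨C, hC, h⟩ := rough_card
  refine ⟨C, hC, fun z M hz hM => ?_⟩
  have hz2 : (2 : ℝ) ≤ z := by exact_mod_cast hz
  have hlz : 0 < Real.log z := Real.log_pos (by linarith)
  have hM0 : (0 : ℝ) < M := by exact_mod_cast hM
  have hmem : ∀ e ∈ RO z M, 1 ≤ e ∧ e ≤ M := by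
    intro e he
    unfold RO at he
    rw [Finset.mem_filter, Finset.mem_Icc] at he
    exact he.1
  have h1 : |g0 z M| ≤ ∑ e ∈ RO z M, Real.log ((M : ℝ) / e) := by
    unfold g0
    refine (Finset.abs_sum_le_sum_abs _ _).trans (Finset.sum_le_sum fun e he => ?_)
    obtain ⟨h2, h3⟩ := hmem e he
    have he0 : (0 : ℝ) < e := by exact_mod_cast h2
    have h4 : 0 ≤ Real.log ((M : ℝ) / e) := Real.log_nonneg (by
      rw [le_div_iff₀ he0, one_mul]
      exact_mod_cast h3)
    rw [abs_mul, abs_of_nonneg h4]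
    have h5 : |mu e| ≤ 1 := by
      unfold mu
      have := ArithmeticFunction.abs_moebius_le_one (n := e)
      exact_mod_cast this
    exact mul_le_of_le_one_left h4 h5
  have h2 : ∑ e ∈ RO z M, Real.log ((M : ℝ) / e) ≤
      ∑ e ∈ RO z M, ∑ k ∈ Finset.Ico 1 M, if e ≤ k then 1 / (k : ℝ) else 0 := by
    refine Finset.sum_le_sum fun e he => ?_
    obtain ⟨h3, h4⟩ := hmem e he
    refine (bet_log h3 h4).trans (le_of_eq ?_)
    rw [← Finset.sum_filter]
    refine Finset.sum_congr ?_ fun _ _ => rfl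
    ext k
    simp only [Finset.mem_filter, Finset.mem_Ico]
    omega
  rw [Finset.sum_comm] at h2
  have h3 : ∀ k ∈ Finset.Ico 1 M, (∑ e ∈ RO z M, if e ≤ k then 1 / (k : ℝ) else 0) ≤
      1 / (k : ℝ) + C / Real.log z := by
    intro k hk
    rw [Finset.mem_Ico] at hk
    have hk0 : (0 : ℝ) < k := by exact_mod_cast hk.1
    rw [← Finset.sum_filter, Finset.sum_const, nsmul_eq_mul]
    have h4 : (((RO z M).filter (fun e => e ≤ k)).card : ℝ) ≤ (RO z k).card := by
      refine Nat.cast_le.2 (Finset.card_le_card fun e he => ?_)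
      unfold RO at he ⊢
      simp only [Finset.mem_filter, Finset.mem_Icc] at he ⊢
      exact ⟨⟨he.1.1.1, he.2⟩, he.1.2⟩
    have h5 := h z k hz
    calc (((RO z M).filter (fun e => e ≤ k)).card : ℝ) * (1 / k)
        ≤ (1 + C * k / Real.log z) * (1 / k) :=
          mul_le_mul_of_nonneg_right (h4.trans h5) (by positivity)
      _ = _ := by field_simp
  have h4 := Finset.sum_le_sum h3
  rw [Finset.sum_add_distrib, Finset.sum_const, nsmul_eq_mul, Nat.card_Ico] at h4
  have h5 := bet_harm hM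
  have h6 : ((M - 1 : ℕ) : ℝ) * (C / Real.log z) ≤ C * M / Real.log z := by
    have : ((M - 1 : ℕ) : ℝ) ≤ M := by exact_mod_cast Nat.sub_le M 1
    calc ((M - 1 : ℕ) : ℝ) * (C / Real.log z) ≤ M * (C / Real.log z) :=
          mul_le_mul_of_nonneg_right this (by positivity)
      _ = _ := by ring
  linarith

theorem be_small_pr {δ : ℝ} (h0 : 0 < δ) (h1 : δ < 1 / 4) {ε : ℝ} (hε : 0 < ε) : ∃ N₀ : ℕ,
    ∀ N : ℕ, N₀ ≤ N → (PK (MM δ N) 2).Nonempty ∧
      |be (zz N) (MM δ N) 2| ≤ ε * Real.log (MM δ N) ∧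
      ∑ p ∈ PK (MM δ N) 2, 1 / (p : ℝ) ≤ 2 / Real.log (MM δ N) := by
  obtain ⟨C, hC, hg⟩ := bet_g0
  obtain ⟨M₀, hM₀⟩ := bet_primes
  -- `2 (1 + log M) / M ≤ ε / 2` eventually
  have hlim : ∀ᶠ M : ℕ in atTop, 2 * (1 + Real.log (M : ℝ)) ≤ ε / 2 * M := by
    have h2 : Tendsto (fun x : ℝ => (1 + Real.log x) / x) atTop (𝓝 0) := by
      have h3 : Tendsto (fun x : ℝ => 1 / x) atTop (𝓝 0) := by
        simpa using tendsto_inv_atTop_zero (𝕜 := ℝ)
      have h4 : Tendsto (fun x : ℝ => Real.log x / x) atTop (𝓝 0) :=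
        Real.isLittleO_log_id_atTop.tendsto_div_nhds_zero
      have := h3.add h4
      simp only [add_zero] at this
      refine this.congr fun x => ?_
      ring
    have h3 := (h2.comp tendsto_natCast_atTop_atTop).eventually
      (ge_mem_nhds (by positivity : (0 : ℝ) < ε / 4))
    filter_upwards [h3, eventually_ge_atTop 1] with M h4 h5
    have hM0 : (0 : ℝ) < M := by exact_mod_cast h5
    simp only [Function.comp] at h4
    rw [div_le_iff₀ hM0] at h4
    linarith
  obtain ⟨M₁, hM₁⟩ := eventually_atTop.1 hlim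
  set B : ℝ := max 1 (max (Real.log (max M₀ M₁ + 1 : ℕ)) (4 * C / ε)) with hB
  have hB1 : 1 ≤ B := le_max_left _ _
  obtain ⟨N₀, hN₀⟩ := sizes h0 h1 (ε := 1 / B) (by positivity)
  refine ⟨N₀, fun N hN => ?_⟩
  obtain ⟨-, hz, hzM, -, hlz, -⟩ := hN₀ N hN
  rw [one_div_one_div] at hlz
  set z := zz N with hzd
  set M := MM δ N with hMd
  have hz2 : (2 : ℝ) ≤ z := by exact_mod_cast hz
  have hlz0 : 0 < Real.log z := Real.log_pos (by linarith)
  have hMz : (z : ℝ) ≤ M := by exact_mod_cast hzM.le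
  have hM0 : (0 : ℝ) < M := by linarith
  have hLM : Real.log z ≤ Real.log M := Real.log_le_log (by linarith) hMz
  have hMM : max M₀ M₁ ≤ M := by
    have h2 : Real.log ((max M₀ M₁ + 1 : ℕ) : ℝ) ≤ Real.log M :=
      ((le_max_left _ _).trans (le_max_right _ _)).trans (hlz.trans hLM)
    rw [Real.log_le_log_iff (by positivity) hM0] at h2
    have : max M₀ M₁ + 1 ≤ M := by exact_mod_cast h2
    omega
  obtain ⟨-, hlow, hup⟩ := hM₀ M ((le_max_left _ _).trans hMM)
  have hlarge := hM₁ M ((le_max_right _ _).trans hMM)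
  have hL : 0 < Real.log M := hlz0.trans_le hLM
  have hcard : (0 : ℝ) < (PK M 2).card := lt_of_lt_of_le (by positivity) hlow
  refine ⟨?_, ?_, ?_⟩
  · rw [← Finset.card_pos]
    exact_mod_cast hcard
  · unfold be
    rw [abs_div, abs_of_pos hcard, div_le_iff₀ hcard]
    have h2 := hg z M hz (by omega)
    have h3 : C * M / Real.log z ≤ ε / 4 * M := by
      rw [div_le_iff₀ hlz0]
      have h4 : 4 * C / ε ≤ Real.log z :=
        ((le_max_right _ _).trans (le_max_right _ _)).trans hlz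
      rw [div_le_iff₀ hε] at h4
      nlinarith
    have h4 : ε * (M : ℝ) / 2 ≤ ε * Real.log M * (PK M 2).card := by
      calc ε * (M : ℝ) / 2 = ε * Real.log M * (M / (2 * Real.log M)) := by field_simp
        _ ≤ _ := mul_le_mul_of_nonneg_left hlow (by positivity)
    linarith
  · calc ∑ p ∈ PK M 2, 1 / (p : ℝ) ≤ ∑ p ∈ PK M 2, 1 / (M : ℝ) := by
          refine Finset.sum_le_sum fun p hp => ?_
          unfold PK at hp
          simp only [Finset.mem_filter, Finset.mem_Ioc] at hp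
          exact one_div_le_one_div_of_le hM0 (by exact_mod_cast hp.1.1.le)
      _ = (PK M 2).card / M := by rw [Finset.sum_const, nsmul_eq_mul]; ring
      _ ≤ (2 * M / Real.log M) / M := by gcongr
      _ = 2 / Real.log M := by field_simp

theorem be_small : type_of% @be_small_pr := @be_small_pr

end Pool.Agent.KSL
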