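import Pool.Agent.Lib_helper68.KSL.Defs
import Pool.Agent.Lib_helper68.KSLF.BET
import Pool.Agent.Lib_helper68.KSLF.SZF

namespace Pool.Agent.KSL

open Pool.Agent.LEV Pool.Agent.LVB
open Pool.Agent.FG61 (mu phi cc ff AA Lam)
open Complex MeasureTheory Filter Topology UpperHalfPlane ModularGroup ProbabilityTheory
open scoped MatrixGroups Modular ENNReal ModularForm ComplexConjugate ContDiff

theorem wbd_smp_rop (z : ℕ) {n : ℕ} (hn : 1 ≤ n) : smp z n * rop z n = n := by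
  have h : (n.primeFactors.filter fun p => z < p) =
      n.primeFactors.filter fun p => ¬ p ≤ z := Finset.filter_congr fun p _ => (not_le).symm
  unfold smp rop
  rw [h, Finset.prod_filter_mul_prod_filter_not]
  exact Nat.prod_factorization_pow_eq_self (by omega)

theorem wbd_smp_pos (z : ℕ) {n : ℕ} (hn : 1 ≤ n) : 1 ≤ smp z n := by
  have := wbd_smp_rop z hn
  rcases Nat.eq_zero_or_pos (smp z n) with h | h
  · rw [h, zero_mul] at this; omega
  · exact h

theorem wbd_rop_pos (z : ℕ) {n : ℕ} (hn : 1 ≤ n) : 1 ≤ rop z n := by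
  have := wbd_smp_rop z hn
  rcases Nat.eq_zero_or_pos (rop z n) with h | h
  · rw [h, mul_zero] at this; omega
  · exact h

theorem wbd_al {z A : ℕ} {a : ℕ → ℝ} (h : Sht z A a) {u : ℕ} (hu : 1 ≤ u) :
    |al A a u| ≤ (A : ℝ) ^ 2 / u := by
  have hu' : (0 : ℝ) < u := by exact_mod_cast hu
  unfold al
  refine (Finset.abs_sum_le_sum_abs _ _).trans ?_
  have h1 : ∀ k ∈ (Finset.Icc 1 A).filter (fun k => u ∣ k),
      |a k / Real.sqrt k * ((k / u).divisors.card : ℝ)| ≤ |a k| * ((A : ℝ) / u) := by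
    intro k hk
    obtain ⟨hk, -⟩ := Finset.mem_filter.1 hk
    obtain ⟨hk1, hk2⟩ := Finset.mem_Icc.1 hk
    have hk1' : (1 : ℝ) ≤ Real.sqrt k := by
      rw [Real.one_le_sqrt]
      exact_mod_cast hk1
    rw [abs_mul, abs_div, abs_of_nonneg (Real.sqrt_nonneg _), Nat.abs_cast]
    refine mul_le_mul (div_le_self (abs_nonneg _) hk1') ?_ (Nat.cast_nonneg _) (abs_nonneg _)
    have h2 : ((k / u).divisors.card : ℝ) ≤ ((k / u : ℕ) : ℝ) := by
      exact_mod_cast Nat.card_divisors_le_self _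
    refine h2.trans (Nat.cast_div_le.trans ?_)
    exact div_le_div_of_nonneg_right (by exact_mod_cast hk2) hu'.le
  refine (Finset.sum_le_sum h1).trans ?_
  rw [← Finset.sum_mul]
  have h2 : ∑ k ∈ (Finset.Icc 1 A).filter (fun k => u ∣ k), |a k| ≤ A :=
    (Finset.sum_le_sum_of_subset_of_nonneg (Finset.filter_subset _ _)
      fun _ _ _ => abs_nonneg _).trans h.l1
  calc (∑ k ∈ (Finset.Icc 1 A).filter (fun k => u ∣ k), |a k|) * ((A : ℝ) / u)
      ≤ A * ((A : ℝ) / u) := mul_le_mul_of_nonneg_right h2 (by positivity)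
    _ = (A : ℝ) ^ 2 / u := by ring

theorem wbd_gE {z M e : ℕ} (hM : 1 ≤ M) (he : 1 ≤ e) (hb : |be z M 2| ≤ Real.log M) :
    |gE z M 2 e| ≤ Real.log M := by
  have hM' : (1 : ℝ) ≤ M := by exact_mod_cast hM
  have he' : (1 : ℝ) ≤ e := by exact_mod_cast he
  unfold gE
  split_ifs with h1 h2
  · have h1' : (e : ℝ) ≤ M := by exact_mod_cast h1
    rw [abs_of_nonneg (Real.log_nonneg ((one_le_div (by linarith)).2 h1'))]
    exact Real.log_le_log (by positivity) (div_le_self (by linarith) he')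
  · exact hb
  · rw [abs_zero]
    exact Real.log_nonneg hM'

theorem wbd_yE {z M e : ℕ} (hM : 2 ≤ M) (hb : |be z M 2| ≤ Real.log M) :
    |yE z M 2 e| ≤ 1 / e := by
  classical
  have hM' : (1 : ℝ) < M := by exact_mod_cast (by omega : 1 < M)
  have hL : 0 < Real.log M := Real.log_pos hM'
  unfold yE
  split_ifs with h1
  · have he : (0 : ℝ) < e := by exact_mod_cast h1.2
    have h2 : |mu e| ≤ 1 := by
      have := ArithmeticFunction.abs_moebius_le_one (n := e)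
      have h3 : ((|ArithmeticFunction.moebius e| : ℤ) : ℝ) ≤ 1 := by exact_mod_cast this
      rwa [Int.cast_abs] at h3
    rw [abs_div, abs_mul, abs_of_pos (mul_pos he hL), div_le_div_iff₀ (mul_pos he hL) he]
    have h3 : |mu e| * |gE z M 2 e| ≤ 1 * Real.log M :=
      mul_le_mul h2 (wbd_gE (by omega) h1.2 hb) (abs_nonneg _) zero_le_one
    nlinarith
  · rw [abs_zero]
    positivity

theorem wbd_harm (n : ℕ) : ∑ m ∈ Finset.Icc 1 n, 1 / (m : ℝ) ≤ 1 + Real.log n := by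
  have h := harmonic_le_one_add_log n
  rw [harmonic_eq_sum_Icc] at h
  push_cast at h
  simpa [one_div] using h

theorem wbd_wr {z M r : ℕ} (hM : 2 ≤ M) (hb : |be z M 2| ≤ Real.log M) (hr : 1 ≤ r) :
    |wr z M 2 r| ≤ (1 + Real.log (2 * M)) / r := by
  have hr' : (0 : ℝ) < r := by exact_mod_cast hr
  unfold wr
  refine (Finset.abs_sum_le_sum_abs _ _).trans ?_
  have h1 : ∀ m ∈ Finset.Icc 1 (2 * M), |yE z M 2 (r * m)| ≤ 1 / (m : ℝ) * (1 / r) := by
    intro m _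
    refine (wbd_yE hM hb).trans (le_of_eq ?_)
    push_cast
    rw [one_div_mul_one_div, mul_comm]
  refine (Finset.sum_le_sum h1).trans ?_
  rw [← Finset.sum_mul]
  have h2 := wbd_harm (2 * M)
  push_cast at h2
  calc (∑ m ∈ Finset.Icc 1 (2 * M), 1 / (m : ℝ)) * (1 / r)
      ≤ (1 + Real.log (2 * M)) * (1 / r) := mul_le_mul_of_nonneg_right h2 (by positivity)
    _ = (1 + Real.log (2 * M)) / r := by ring

theorem wbd_sigma {q : ℕ} (hq : 1 ≤ q) :
    ∑ d ∈ q.divisors, (d : ℝ) ≤ q * (1 + Real.log q) := by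
  have h1 : ∑ d ∈ q.divisors, (d : ℝ) = ∑ d ∈ q.divisors, ((q / d : ℕ) : ℝ) :=
    (Nat.sum_div_divisors q (fun d => (d : ℝ))).symm
  rw [h1]
  have h2 : ∀ d ∈ q.divisors, ((q / d : ℕ) : ℝ) ≤ q * (1 / (d : ℝ)) := by
    intro d _
    rw [mul_one_div]
    exact Nat.cast_div_le
  refine (Finset.sum_le_sum h2).trans ?_
  rw [← Finset.mul_sum]
  refine mul_le_mul_of_nonneg_left ?_ (Nat.cast_nonneg _)
  refine le_trans (Finset.sum_le_sum_of_subset_of_nonneg ?_ fun _ _ _ => by positivity)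
    (wbd_harm q)
  intro d hd
  have hd' := Nat.dvd_of_mem_divisors hd
  exact Finset.mem_Icc.2 ⟨Nat.pos_of_mem_divisors hd, Nat.le_of_dvd (by omega) hd'⟩

theorem wbd_growth {ε : ℝ} (hε : 0 < ε) : ∃ N₀ : ℕ, ∀ N : ℕ, N₀ ≤ N →
    1 + Real.log (2 * N) ≤ (N : ℝ) ^ ε := by
  have h1 : Tendsto (fun N : ℕ => (N : ℝ)) atTop atTop := tendsto_natCast_atTop_atTop
  have h2 := (isLittleO_log_rpow_atTop hε).comp_tendsto h1
  have h3 := h2.bound (show (0 : ℝ) < 1 / 2 by norm_num)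
  have h4 := ((tendsto_rpow_atTop hε).comp h1).eventually_ge_atTop 4
  obtain ⟨N₀, h5⟩ := eventually_atTop.1 ((h3.and h4).and (eventually_ge_atTop 1))
  refine ⟨N₀, fun N hN => ?_⟩
  obtain ⟨⟨h6, h7⟩, h8⟩ := h5 N hN
  have h8' : (0 : ℝ) < N := by exact_mod_cast h8
  have h9 : (4 : ℝ) ≤ (N : ℝ) ^ ε := h7
  have h10 : |Real.log N| ≤ 1 / 2 * |(N : ℝ) ^ ε| := h6
  rw [abs_of_nonneg (Real.rpow_nonneg h8'.le _)] at h10
  rw [Real.log_mul two_ne_zero h8'.ne']
  have h11 := Real.log_two_lt_d9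
  have h12 := le_abs_self (Real.log N)
  linarith

theorem ww_bound_pr {δ : ℝ} (h0 : 0 < δ) (h1 : δ < 1 / 4) {ε : ℝ} (hε : 0 < ε) : ∃ N₀ : ℕ,
    ∀ N : ℕ, N₀ ≤ N → ∀ a : ℕ → ℝ, Sht (zz N) (KA ε N) a →
      (∀ q, 1 ≤ q → |ww δ ε N a q| ≤ (N : ℝ) ^ (4 * ε) / q) ∧
      ∀ Y : ℕ, Y ≤ N → ∑ q ∈ Finset.Icc 1 Y, |ww δ ε N a q| * ∑ d ∈ q.divisors, (d : ℝ) ≤
        (N : ℝ) ^ (5 * ε) * Y := by
  obtain ⟨N₁, H1⟩ := sizes h0 h1 (show (0 : ℝ) < 1 by norm_num)
  obtain ⟨N₂, H2⟩ := be_small h0 h1 (show (0 : ℝ) < 1 by norm_num)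
  obtain ⟨N₃, H3⟩ := wbd_growth hε
  refine ⟨max N₁ (max N₂ N₃), fun N hN a ha => ?_⟩
  obtain ⟨hN3, hz2, hzM, -⟩ := H1 N ((le_max_left _ _).trans hN)
  obtain ⟨-, hbe, -⟩ := H2 N (((le_max_left _ _).trans (le_max_right _ _)).trans hN)
  have hgr := H3 N (((le_max_right _ _).trans (le_max_right _ _)).trans hN)
  rw [one_mul] at hbe
  have hM2 : 2 ≤ MM δ N := by omega
  have hN1 : (1 : ℝ) ≤ N := by exact_mod_cast (by omega : 1 ≤ N)
  have hN0 : (0 : ℝ) < N := by linarith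
  have hMN : (MM δ N : ℝ) ≤ N := by
    unfold MM
    refine (Nat.floor_le (by positivity)).trans ?_
    calc (N : ℝ) ^ (1 / 2 - δ) ≤ (N : ℝ) ^ (1 : ℝ) :=
          Real.rpow_le_rpow_of_exponent_le hN1 (by linarith)
      _ = N := Real.rpow_one _
  have hM0 : (0 : ℝ) < MM δ N := by exact_mod_cast (by omega : 0 < MM δ N)
  have hlog : 1 + Real.log (2 * MM δ N) ≤ (N : ℝ) ^ ε := by
    refine le_trans ?_ hgr
    have := Real.log_le_log (show (0 : ℝ) < 2 * MM δ N by positivity)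
      (show (2 : ℝ) * MM δ N ≤ 2 * N by linarith)
    linarith
  have hA : ((KA ε N : ℕ) : ℝ) ≤ (N : ℝ) ^ ε := by
    unfold KA
    exact Nat.floor_le (by positivity)
  have hE1 : (1 : ℝ) ≤ (N : ℝ) ^ ε := Real.one_le_rpow hN1 hε.le
  have key : ∀ q, 1 ≤ q → |ww δ ε N a q| ≤ (N : ℝ) ^ (3 * ε) / q := by
    intro q hq
    have hs := wbd_smp_pos (zz N) hq
    have hr := wbd_rop_pos (zz N) hq
    have hs' : (0 : ℝ) < smp (zz N) q := by exact_mod_cast hs
    have hr' : (0 : ℝ) < rop (zz N) q := by exact_mod_cast hr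
    have hq' : (smp (zz N) q : ℝ) * rop (zz N) q = q := by exact_mod_cast wbd_smp_rop (zz N) hq
    unfold ww wA
    rw [abs_mul]
    have b1 : |al (KA ε N) a (smp (zz N) q)| ≤ (N : ℝ) ^ ε * (N : ℝ) ^ ε / smp (zz N) q := by
      refine (wbd_al ha hs).trans (div_le_div_of_nonneg_right ?_ hs'.le)
      rw [pow_two]
      exact mul_le_mul hA hA (Nat.cast_nonneg _) (by positivity)
    have b2 : |wr (zz N) (MM δ N) 2 (rop (zz N) q)| ≤ (N : ℝ) ^ ε / rop (zz N) q :=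
      (wbd_wr hM2 hbe hr).trans (div_le_div_of_nonneg_right hlog hr'.le)
    refine (mul_le_mul b1 b2 (abs_nonneg _) (by positivity)).trans (le_of_eq ?_)
    rw [div_mul_div_comm, hq']
    congr 1
    rw [← Real.rpow_add hN0, ← Real.rpow_add hN0]
    congr 1
    ring
  refine ⟨fun q hq => (key q hq).trans ?_, fun Y hY => ?_⟩
  · refine div_le_div_of_nonneg_right ?_ (Nat.cast_nonneg _)
    exact Real.rpow_le_rpow_of_exponent_le hN1 (by linarith)
  · have b1 : ∀ q ∈ Finset.Icc 1 Y, |ww δ ε N a q| * ∑ d ∈ q.divisors, (d : ℝ) ≤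
        (N : ℝ) ^ (3 * ε) * (N : ℝ) ^ ε := by
      intro q hq
      obtain ⟨hq1, hq2⟩ := Finset.mem_Icc.1 hq
      have hq0 : (0 : ℝ) < q := by exact_mod_cast hq1
      have hqN : (q : ℝ) ≤ 2 * N := by
        have : (q : ℝ) ≤ N := by exact_mod_cast hq2.trans hY
        linarith
      have b2 := mul_le_mul (key q hq1) (wbd_sigma hq1) (by positivity) (by positivity)
      refine b2.trans ?_
      have b3 : 1 + Real.log q ≤ (N : ℝ) ^ ε := by
        have := Real.log_le_log hq0 hqN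
        linarith
      calc (N : ℝ) ^ (3 * ε) / q * (q * (1 + Real.log q))
          = (N : ℝ) ^ (3 * ε) * (1 + Real.log q) := by field_simp
        _ ≤ (N : ℝ) ^ (3 * ε) * (N : ℝ) ^ ε := mul_le_mul_of_nonneg_left b3 (by positivity)
    refine (Finset.sum_le_sum b1).trans ?_
    rw [Finset.sum_const, Nat.card_Icc, nsmul_eq_mul, Nat.add_sub_cancel, mul_comm]
    refine mul_le_mul_of_nonneg_right ?_ (Nat.cast_nonneg _)
    rw [← Real.rpow_add hN0]
    exact Real.rpow_le_rpow_of_exponent_le hN1 (by linarith)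

theorem ww_bound : type_of% @ww_bound_pr := @ww_bound_pr

end Pool.Agent.KSL
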