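import Pool.Agent.Lib_helper68.KSL.Defs
import Pool.Agent.Lib_helper68.LEV.GEL
import Pool.Agent.Lib_helper68.LEV.HPO
import Pool.Agent.Lib_helper68.LEV.EIA
import Pool.Agent.Lib_helper68.LEV.LSB
import Pool.Agent.Lib_helper68.KSLF.HIR
import Pool.Agent.Lib_helper68.KSLF.WBD

namespace Pool.Agent.KSL

open Pool.Agent.LEV Pool.Agent.LVB
open Pool.Agent.FG61 (mu phi cc ff AA Lam)
open Complex MeasureTheory Filter Topology UpperHalfPlane ModularGroup ProbabilityTheory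
open scoped MatrixGroups Modular ENNReal ModularForm ComplexConjugate ContDiff

theorem fse_rq_pos {N q : ℕ} (hN : 0 < N) (hq : 1 ≤ q) : 0 < rq N q := by
  unfold rq
  have h1 : (0 : ℝ) < q := by exact_mod_cast hq
  have h2 : 0 < Real.sqrt N := Real.sqrt_pos.2 (by exact_mod_cast hN)
  positivity

/-- the Fourier expansion of the functional -/
theorem fse_hasSum {N : ℕ} [Fact N.Prime] (f : S2 N) (Q : ℕ) (w : ℕ → ℝ) :
    HasSum (fun n : ℕ => co f n * ((Wt N Q w n / (2 * Real.pi * n) : ℝ) : ℂ)) (lw f Q w) := by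
  have h : HasSum (fun n : ℕ => ∑ q ∈ Finset.Icc 1 Q, (w q : ℂ) * ∑ j ∈ RR q,
      co f n * ((Real.exp (-2 * Real.pi * n * rq N q) / (2 * Real.pi * n) : ℝ) : ℂ) *
        GEL_e n ((j : ℝ) / q)) (lw f Q w) := by
    unfold lw
    refine hasSum_sum fun q hq => (hasSum_sum fun j _ => GEL_int f _ ?_).mul_left _
    exact fse_rq_pos (Fact.out : N.Prime).pos (Finset.mem_Icc.1 hq).1
  convert h using 1
  funext n
  have h2 : ∀ q ∈ Finset.Icc 1 Q, (w q : ℂ) * ∑ j ∈ RR q,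
      co f n * ((Real.exp (-2 * Real.pi * n * rq N q) / (2 * Real.pi * n) : ℝ) : ℂ) *
        GEL_e n ((j : ℝ) / q) =
      co f n * ((w q * cc q n * Real.exp (-2 * Real.pi * n * rq N q) / (2 * Real.pi * n) : ℝ) :
        ℂ) := by
    intro q hq
    have h3 : ∑ j ∈ RR q, GEL_e n ((j : ℝ) / q) = ((cc q n : ℝ) : ℂ) := by
      rw [← ram_sum q n (Finset.mem_Icc.1 hq).1]
      rfl
    rw [← Finset.mul_sum, h3]
    push_cast
    ring
  rw [Finset.sum_congr rfl h2, ← Finset.mul_sum]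
  congr 1
  unfold Wt
  push_cast
  rw [Finset.sum_div]

/-- the coefficients -/
noncomputable def fse_b (N Q : ℕ) (w : ℕ → ℝ) (n : ℕ) : ℝ := 2 * Wt N Q w n / Real.sqrt n

theorem fse_hasSum' {N : ℕ} [Fact N.Prime] (f : S2 N) (Q : ℕ) (w : ℕ → ℝ) :
    HasSum (fun n : ℕ => ((fse_b N Q w n : ℝ) : ℂ) * (co f n / (Real.sqrt n : ℂ)))
      (4 * Real.pi * lw f Q w) := by
  have h := (fse_hasSum f Q w).mul_left (4 * Real.pi : ℂ)
  suffices h2 : (fun n : ℕ => ((fse_b N Q w n : ℝ) : ℂ) * (co f n / (Real.sqrt n : ℂ))) =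
      fun n : ℕ => (4 * Real.pi : ℂ) * (co f n * ((Wt N Q w n / (2 * Real.pi * n) : ℝ) : ℂ)) by
    rw [h2]
    exact h
  funext n
  rcases Nat.eq_zero_or_pos n with rfl | hn
  · rw [co_zero]
    simp
  · have hn' : (0 : ℝ) < n := by exact_mod_cast hn
    have hs : (0 : ℝ) < Real.sqrt n := Real.sqrt_pos.2 hn'
    have hs2 : Real.sqrt n * Real.sqrt n = n := Real.mul_self_sqrt hn'.le
    have hs' : ((Real.sqrt n : ℝ) : ℂ) ≠ 0 := by exact_mod_cast hs.ne'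
    have hpi : ((Real.pi : ℝ) : ℂ) ≠ 0 := by exact_mod_cast Real.pi_ne_zero
    have hs3 : ((Real.sqrt n : ℝ) : ℂ) * ((Real.sqrt n : ℝ) : ℂ) = (n : ℂ) := by
      rw [← Complex.ofReal_mul, hs2, Complex.ofReal_natCast]
    unfold fse_b
    push_cast
    rw [← hs3]
    field_simp
    ring

/-- the truncated coefficients -/
noncomputable def fse_g (δ : ℝ) (N Q : ℕ) (w : ℕ → ℝ) (n : ℕ) : ℝ :=
  if n ∈ Finset.Icc 1 (X1 δ N) then 0 else fse_b N Q w n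

theorem fse_diff {δ : ℝ} {N : ℕ} [Fact N.Prime] (hX : X1 δ N < N) {f : S2 N} (hf : IsNew f)
    (Q : ℕ) (w : ℕ → ℝ) :
    4 * Real.pi * lw f Q w - ((Fs δ N Q w (la f) : ℝ) : ℂ) =
      ∑' n : ℕ, ((fse_g δ N Q w n : ℝ) : ℂ) * (co f n / (Real.sqrt n : ℂ)) := by
  have h1 := fse_hasSum' f Q w
  have hreal : ∀ n, (co f n).im = 0 := fun n => new_real hf n
  have hla : ∀ n, co f n / ((Real.sqrt n : ℝ) : ℂ) = ((la f n : ℝ) : ℂ) := by
    intro n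
    unfold la
    rw [Complex.ofReal_div]
    congr 1
    apply Complex.ext
    · simp
    · simp [hreal n]
  have h2 : ((Fs δ N Q w (la f) : ℝ) : ℂ) = ∑ n ∈ Finset.Icc 1 (X1 δ N),
      ((fse_b N Q w n : ℝ) : ℂ) * (co f n / (Real.sqrt n : ℂ)) := by
    unfold Fs
    rw [Complex.ofReal_sum]
    refine Finset.sum_congr rfl fun n hn => ?_
    obtain ⟨hn1, hn2⟩ := Finset.mem_Icc.1 hn
    have hcop : n.Coprime N := by
      rw [Nat.coprime_comm, (Fact.out : N.Prime).coprime_iff_not_dvd]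
      intro hd
      have := Nat.le_of_dvd hn1 hd
      omega
    rw [um_new hf hreal hn1 hcop, hla, Complex.ofReal_mul]
    rfl
  have h3 : HasSum (fun n : ℕ => if n ∈ Finset.Icc 1 (X1 δ N) then
      ((fse_b N Q w n : ℝ) : ℂ) * (co f n / (Real.sqrt n : ℂ)) else 0)
      ((Fs δ N Q w (la f) : ℝ) : ℂ) := by
    rw [h2]
    have := hasSum_sum_of_ne_finset_zero (L := SummationFilter.unconditional ℕ)
      (s := Finset.Icc 1 (X1 δ N)) (f := fun n : ℕ => if n ∈ Finset.Icc 1 (X1 δ N) then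
      ((fse_b N Q w n : ℝ) : ℂ) * (co f n / (Real.sqrt n : ℂ)) else 0) (fun n hn => if_neg hn)
    convert this using 1
    exact Finset.sum_congr rfl fun n hn => (if_pos hn).symm
  have h4 := h1.sub h3
  rw [← h4.tsum_eq]
  refine tsum_congr fun n => ?_
  unfold fse_g
  split_ifs with h
  · simp
  · simp

theorem fse_cc {q n : ℕ} (hq : 1 ≤ q) : |cc q n| ≤ ∑ d ∈ q.divisors, (d : ℝ) := by
  unfold cc
  refine (Finset.abs_sum_le_sum_abs _ _).trans ?_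
  have h1 : ∀ d ∈ (Nat.gcd q n).divisors, |(d : ℝ) * mu (q / d)| ≤ (d : ℝ) := by
    intro d _
    have h2 : |mu (q / d)| ≤ 1 := by
      have := ArithmeticFunction.abs_moebius_le_one (n := q / d)
      have h3 : ((|ArithmeticFunction.moebius (q / d)| : ℤ) : ℝ) ≤ 1 := by exact_mod_cast this
      rwa [Int.cast_abs] at h3
    rw [abs_mul, Nat.abs_cast]
    calc (d : ℝ) * |mu (q / d)| ≤ d * 1 := mul_le_mul_of_nonneg_left h2 (Nat.cast_nonneg _)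
      _ = d := mul_one _
  refine (Finset.sum_le_sum h1).trans ?_
  refine Finset.sum_le_sum_of_subset_of_nonneg ?_ fun _ _ _ => Nat.cast_nonneg _
  exact Nat.divisors_subset_of_dvd (by omega) (Nat.gcd_dvd_left q n)

theorem fse_Wt {N Q : ℕ} {w : ℕ → ℝ} {ρ : ℝ} (hρ : ∀ q ∈ Finset.Icc 1 Q, ρ ≤ rq N q) (n : ℕ) :
    |Wt N Q w n| ≤ (∑ q ∈ Finset.Icc 1 Q, |w q| * ∑ d ∈ q.divisors, (d : ℝ)) *
      Real.exp (-(2 * Real.pi * n * ρ)) := by
  unfold Wt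
  refine (Finset.abs_sum_le_sum_abs _ _).trans ?_
  rw [Finset.sum_mul]
  refine Finset.sum_le_sum fun q hq => ?_
  rw [abs_mul, abs_mul, abs_of_pos (Real.exp_pos _)]
  refine mul_le_mul (mul_le_mul_of_nonneg_left (fse_cc (Finset.mem_Icc.1 hq).1) (abs_nonneg _))
    (Real.exp_le_exp.2 ?_) (Real.exp_pos _).le (by positivity)
  have h1 := hρ q hq
  have h2 : 0 ≤ 2 * Real.pi * n := by positivity
  have h3 := mul_le_mul_of_nonneg_left h1 h2
  linarith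

/-- the geometric bound -/
theorem fse_geo {N : ℕ} (hN : 1 ≤ N) :
    Summable (fun n : ℕ => (1 + (n : ℝ)) ^ 4 * Real.exp (-(6 * n / N))) ∧
    ∑' n : ℕ, (1 + (n : ℝ)) ^ 4 * Real.exp (-(6 * n / N)) ≤ 144 * (N : ℝ) ^ 5 := by
  have hN1 : (1 : ℝ) ≤ N := by exact_mod_cast hN
  have hN0 : (0 : ℝ) < N := by linarith
  set r := Real.exp (-(1 / (N : ℝ))) with hr
  have hr0 : 0 ≤ r := (Real.exp_pos _).le
  have hr1 : r < 1 := by
    rw [hr, Real.exp_lt_one_iff]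
    have : 0 < 1 / (N : ℝ) := by positivity
    linarith
  have hterm : ∀ n : ℕ, (1 + (n : ℝ)) ^ 4 * Real.exp (-(6 * n / N)) ≤
      72 * (N : ℝ) ^ 4 * r ^ n := by
    intro n
    have hn : (0 : ℝ) ≤ n := Nat.cast_nonneg n
    have h1 : ((1 + (n : ℝ)) / N) ^ 4 / (Nat.factorial 4 : ℕ) ≤ Real.exp ((1 + (n : ℝ)) / N) :=
      Real.pow_div_factorial_le_exp _ (by positivity) 4
    have h2 : (1 + (n : ℝ)) ^ 4 ≤ 24 * (N : ℝ) ^ 4 * Real.exp ((1 + (n : ℝ)) / N) := by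
      rw [div_pow, div_div, div_le_iff₀ (by positivity)] at h1
      have h3 : ((Nat.factorial 4 : ℕ) : ℝ) = 24 := by norm_num [Nat.factorial]
      rw [h3] at h1
      linarith
    have h4 : Real.exp ((1 + (n : ℝ)) / N) * Real.exp (-(6 * n / N)) ≤ 3 * r ^ n := by
      rw [← Real.exp_add, hr, ← Real.exp_nat_mul]
      have h5 : (1 + (n : ℝ)) / N + -(6 * n / N) ≤ 1 + n * -(1 / (N : ℝ)) := by
        have e1 : (1 + (n : ℝ)) / N + -(6 * n / N) = 1 / N + n * -(1 / (N : ℝ)) -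
          4 * (n / N) := by
          field_simp
          ring
        have e2 : 1 / (N : ℝ) ≤ 1 := (div_le_one hN0).2 hN1
        have e3 : 0 ≤ (n : ℝ) / N := by positivity
        rw [e1]
        linarith
      refine (Real.exp_le_exp.2 h5).trans ?_
      rw [Real.exp_add]
      refine mul_le_mul_of_nonneg_right ?_ (Real.exp_pos _).le
      have := Real.exp_one_lt_d9
      linarith
    calc (1 + (n : ℝ)) ^ 4 * Real.exp (-(6 * n / N))
        ≤ 24 * (N : ℝ) ^ 4 * Real.exp ((1 + (n : ℝ)) / N) * Real.exp (-(6 * n / N)) :=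
          mul_le_mul_of_nonneg_right h2 (Real.exp_pos _).le
      _ = 24 * (N : ℝ) ^ 4 * (Real.exp ((1 + (n : ℝ)) / N) * Real.exp (-(6 * n / N))) := by ring
      _ ≤ 24 * (N : ℝ) ^ 4 * (3 * r ^ n) := mul_le_mul_of_nonneg_left h4 (by positivity)
      _ = 72 * (N : ℝ) ^ 4 * r ^ n := by ring
  have hs : Summable fun n : ℕ => 72 * (N : ℝ) ^ 4 * r ^ n :=
    (summable_geometric_of_lt_one hr0 hr1).mul_left _
  have hsum : Summable (fun n : ℕ => (1 + (n : ℝ)) ^ 4 * Real.exp (-(6 * n / N))) :=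
    Summable.of_nonneg_of_le (fun n => by positivity) hterm hs
  refine ⟨hsum, (hsum.tsum_le_tsum hterm hs).trans ?_⟩
  rw [tsum_mul_left, tsum_geometric_of_lt_one hr0 hr1]
  have h1 : (1 - r)⁻¹ ≤ 2 * N := by
    have h2 : r * (1 + 1 / (N : ℝ)) ≤ 1 := by
      have h3 : 1 + 1 / (N : ℝ) ≤ Real.exp (1 / (N : ℝ)) := by
        have := Real.add_one_le_exp (1 / (N : ℝ))
        linarith
      calc r * (1 + 1 / (N : ℝ)) ≤ r * Real.exp (1 / (N : ℝ)) :=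
            mul_le_mul_of_nonneg_left h3 hr0
        _ = 1 := by rw [hr, ← Real.exp_add, neg_add_cancel, Real.exp_zero]
    have h4 : 1 / (2 * (N : ℝ)) ≤ 1 - r := by
      have h5 : r * (N + 1) ≤ N := by
        have : r * (1 + 1 / (N : ℝ)) * N ≤ 1 * N := mul_le_mul_of_nonneg_right h2 hN0.le
        have e : r * (1 + 1 / (N : ℝ)) * N = r * (N + 1) := by
          field_simp
        rw [e] at this
        linarith
      rw [div_le_iff₀ (by positivity)]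
      nlinarith
    rw [inv_le_comm₀ (by linarith) (by positivity)]
    rw [← one_div]
    exact h4
  calc 72 * (N : ℝ) ^ 4 * (1 - r)⁻¹ ≤ 72 * (N : ℝ) ^ 4 * (2 * N) :=
        mul_le_mul_of_nonneg_left h1 (by positivity)
    _ = 144 * (N : ℝ) ^ 5 := by ring

theorem fse_growth {δ : ℝ} (hδ : 0 < δ) (C : ℝ) : ∃ N₀ : ℕ, ∀ N : ℕ, N₀ ≤ N →
    C * (N : ℝ) ^ 10 * Real.exp (-(N : ℝ) ^ (δ / 4)) ≤ 1 ∧ (2 : ℝ) ≤ (N : ℝ) ^ (δ / 8) := by
  have h1 : Tendsto (fun N : ℕ => (N : ℝ)) atTop atTop := tendsto_natCast_atTop_atTop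
  have h2 : Tendsto (fun N : ℕ => (N : ℝ) ^ (δ / 4)) atTop atTop :=
    (tendsto_rpow_atTop (by positivity)).comp h1
  have h3 := (tendsto_rpow_mul_exp_neg_mul_atTop_nhds_zero (40 / δ) 1 one_pos).comp h2
  have h4 := h3.const_mul C
  rw [mul_zero] at h4
  have h5 := h4.eventually (gt_mem_nhds one_pos)
  have h6 := ((tendsto_rpow_atTop (show 0 < δ / 8 by positivity)).comp h1).eventually_ge_atTop 2
  obtain ⟨N₀, h7⟩ := eventually_atTop.1 (h5.and h6)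
  refine ⟨N₀, fun N hN => ?_⟩
  obtain ⟨h8, h9⟩ := h7 N hN
  refine ⟨?_, h9⟩
  simp only [Function.comp] at h8
  have h10 : ((N : ℝ) ^ (δ / 4)) ^ (40 / δ) = (N : ℝ) ^ 10 := by
    rw [← Real.rpow_mul (Nat.cast_nonneg N), ← Real.rpow_natCast]
    congr 1
    push_cast
    field_simp
    norm_num
  rw [h10, neg_one_mul] at h8
  rw [mul_assoc]
  exact h8.le

theorem fse_size {δ : ℝ} (h0 : 0 < δ) (h1 : δ < 1 / 4) {ε : ℝ} (hε2 : ε ≤ δ / 8)
    {N : ℕ} (hN : 2 ≤ N) (h8 : (2 : ℝ) ≤ (N : ℝ) ^ (δ / 8)) :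
    (QQ δ ε N : ℝ) * Real.sqrt N ≤ (N : ℝ) ^ (1 - 3 * δ / 4) ∧ QQ δ ε N ≤ N ∧ X1 δ N < N := by
  have hN1 : (1 : ℝ) < N := by exact_mod_cast hN
  have hN0 : (0 : ℝ) < N := by linarith
  have hM : (MM δ N : ℝ) ≤ (N : ℝ) ^ (1 / 2 - δ) := Nat.floor_le (by positivity)
  have hK : (KA ε N : ℝ) ≤ (N : ℝ) ^ (δ / 8) :=
    (Nat.floor_le (by positivity)).trans (Real.rpow_le_rpow_of_exponent_le hN1.le hε2)
  have hQ : (QQ δ ε N : ℝ) ≤ (N : ℝ) ^ (1 / 2 - 3 * δ / 4) := by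
    have e : (QQ δ ε N : ℝ) = 2 * MM δ N * KA ε N := by
      unfold QQ QA
      push_cast
      ring
    have e2 : (N : ℝ) ^ (1 / 2 - 3 * δ / 4) =
        (N : ℝ) ^ (δ / 8) * (N : ℝ) ^ (1 / 2 - δ) * (N : ℝ) ^ (δ / 8) := by
      rw [← Real.rpow_add hN0, ← Real.rpow_add hN0]
      congr 1
      ring
    rw [e, e2]
    exact mul_le_mul (mul_le_mul h8 hM (Nat.cast_nonneg _) (by positivity)) hK
      (Nat.cast_nonneg _) (by positivity)
  refine ⟨?_, ?_, ?_⟩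
  · rw [Real.sqrt_eq_rpow]
    calc (QQ δ ε N : ℝ) * (N : ℝ) ^ (1 / 2 : ℝ) ≤
        (N : ℝ) ^ (1 / 2 - 3 * δ / 4) * (N : ℝ) ^ (1 / 2 : ℝ) :=
          mul_le_mul_of_nonneg_right hQ (by positivity)
      _ = (N : ℝ) ^ (1 - 3 * δ / 4) := by
          rw [← Real.rpow_add hN0]
          congr 1
          ring
  · have h2 : (QQ δ ε N : ℝ) ≤ N := by
      refine hQ.trans ?_
      calc (N : ℝ) ^ (1 / 2 - 3 * δ / 4) ≤ (N : ℝ) ^ (1 : ℝ) :=
            Real.rpow_le_rpow_of_exponent_le hN1.le (by linarith)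
        _ = N := Real.rpow_one _
    exact_mod_cast h2
  · have h2 : (X1 δ N : ℝ) < N := by
      calc (X1 δ N : ℝ) ≤ (N : ℝ) ^ (1 - δ / 2) := Nat.floor_le (by positivity)
        _ < (N : ℝ) ^ (1 : ℝ) := Real.rpow_lt_rpow_of_exponent_lt hN1 (by linarith)
        _ = N := Real.rpow_one _
    exact_mod_cast h2

theorem fse_gsq {δ : ℝ} (h0 : 0 < δ) {N Q : ℕ} (hN : 2 ≤ N) {w : ℕ → ℝ}
    (hQ : (Q : ℝ) * Real.sqrt N ≤ (N : ℝ) ^ (1 - 3 * δ / 4))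
    (hS : ∑ q ∈ Finset.Icc 1 Q, |w q| * ∑ d ∈ q.divisors, (d : ℝ) ≤ (N : ℝ) ^ 2) (n : ℕ) :
    fse_g δ N Q w n ^ 2 ≤ 4 * (N : ℝ) ^ 4 * Real.exp (-(N : ℝ) ^ (δ / 4)) *
      Real.exp (-(6 * n / N)) := by
  have hN1 : (1 : ℝ) < N := by exact_mod_cast hN
  have hN0 : (0 : ℝ) < N := by linarith
  have hrhs : 0 ≤ 4 * (N : ℝ) ^ 4 * Real.exp (-(N : ℝ) ^ (δ / 4)) *
      Real.exp (-(6 * n / N)) := by positivity
  unfold fse_g
  split_ifs with h
  · simpa using hrhs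
  rcases Nat.eq_zero_or_pos n with rfl | hn
  · have e : fse_b N Q w 0 = 0 := by simp [fse_b]
    rw [e]
    simpa using hrhs
  have hn1 : (1 : ℝ) ≤ n := by exact_mod_cast hn
  have hX : X1 δ N < n := by
    by_contra hc
    exact h (Finset.mem_Icc.2 ⟨hn, by omega⟩)
  have hX2 : (N : ℝ) ^ (1 - δ / 2) ≤ n := (Nat.lt_of_floor_lt hX).le
  set ρ := 1 / (N : ℝ) ^ (1 - 3 * δ / 4) with hρd
  have hρ0 : 0 < ρ := by positivity
  have hρ : ∀ q ∈ Finset.Icc 1 Q, ρ ≤ rq N q := by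
    intro q hq
    obtain ⟨hq1, hq2⟩ := Finset.mem_Icc.1 hq
    have hq0 : (0 : ℝ) < q := by exact_mod_cast hq1
    have hq3 : (q : ℝ) ≤ Q := by exact_mod_cast hq2
    have hs : 0 < Real.sqrt N := Real.sqrt_pos.2 hN0
    unfold rq
    exact one_div_le_one_div_of_le (by positivity)
      ((mul_le_mul_of_nonneg_right hq3 hs.le).trans hQ)
  have hρN : 1 / (N : ℝ) ≤ ρ := by
    rw [hρd]
    refine one_div_le_one_div_of_le (by positivity) ?_
    calc (N : ℝ) ^ (1 - 3 * δ / 4) ≤ (N : ℝ) ^ (1 : ℝ) :=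
          Real.rpow_le_rpow_of_exponent_le hN1.le (by linarith)
      _ = N := Real.rpow_one _
  have hnρ : (N : ℝ) ^ (δ / 4) ≤ n * ρ := by
    rw [hρd, mul_one_div, le_div_iff₀ (by positivity), ← Real.rpow_add hN0]
    refine le_trans (le_of_eq ?_) hX2
    congr 1
    ring
  have hnN : (n : ℝ) / N ≤ n * ρ := by
    rw [div_eq_mul_one_div]
    exact mul_le_mul_of_nonneg_left hρN (by positivity)
  have hWt := fse_Wt (w := w) hρ n
  have hWt2 : |Wt N Q w n| ≤ (N : ℝ) ^ 2 * Real.exp (-(2 * Real.pi * n * ρ)) :=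
    hWt.trans (mul_le_mul_of_nonneg_right hS (Real.exp_pos _).le)
  have hWt3 : Wt N Q w n ^ 2 ≤ (N : ℝ) ^ 4 * Real.exp (-(12 * (n * ρ))) := by
    rw [← sq_abs]
    calc |Wt N Q w n| ^ 2 ≤ ((N : ℝ) ^ 2 * Real.exp (-(2 * Real.pi * n * ρ))) ^ 2 :=
          pow_le_pow_left₀ (abs_nonneg _) hWt2 2
      _ = (N : ℝ) ^ 4 * Real.exp (-(4 * Real.pi * (n * ρ))) := by
          rw [mul_pow, ← pow_mul, ← Real.exp_nat_mul]
          congr 2
          push_cast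
          ring
      _ ≤ (N : ℝ) ^ 4 * Real.exp (-(12 * (n * ρ))) := by
          refine mul_le_mul_of_nonneg_left (Real.exp_le_exp.2 ?_) (by positivity)
          have h3 : 12 * (n * ρ) ≤ 4 * Real.pi * (n * ρ) :=
            mul_le_mul_of_nonneg_right (by linarith [Real.pi_gt_three]) (by positivity)
          linarith
  have hb : fse_b N Q w n ^ 2 ≤ 4 * Wt N Q w n ^ 2 := by
    unfold fse_b
    rw [div_pow, Real.sq_sqrt (by positivity), mul_pow]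
    have h3 : (2 : ℝ) ^ 2 * Wt N Q w n ^ 2 / n ≤ (2 : ℝ) ^ 2 * Wt N Q w n ^ 2 :=
      div_le_self (by positivity) hn1
    linarith
  calc fse_b N Q w n ^ 2 ≤ 4 * Wt N Q w n ^ 2 := hb
    _ ≤ 4 * ((N : ℝ) ^ 4 * Real.exp (-(12 * (n * ρ)))) := by linarith
    _ ≤ 4 * ((N : ℝ) ^ 4 * Real.exp (-(N : ℝ) ^ (δ / 4) + -(6 * n / N))) := by
        have h4 : Real.exp (-(12 * (n * ρ))) ≤
            Real.exp (-(N : ℝ) ^ (δ / 4) + -(6 * n / N)) := by
          refine Real.exp_le_exp.2 ?_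
          have e : 6 * (n : ℝ) / N = 6 * (n / N) := by ring
          rw [e]
          have : 0 ≤ n * ρ := by positivity
          linarith
        have h5 : (N : ℝ) ^ 4 * Real.exp (-(12 * (n * ρ))) ≤
            (N : ℝ) ^ 4 * Real.exp (-(N : ℝ) ^ (δ / 4) + -(6 * n / N)) :=
          mul_le_mul_of_nonneg_left h4 (by positivity)
        linarith
    _ = 4 * (N : ℝ) ^ 4 * Real.exp (-(N : ℝ) ^ (δ / 4)) * Real.exp (-(6 * n / N)) := by
        rw [Real.exp_add]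
        ring

/-- the functional is a Dirichlet polynomial up to a small error -/
theorem fs_tail_pr {δ : ℝ} (h0 : 0 < δ) (h1 : δ < 1 / 4) : ∃ ε₁ : ℝ, 0 < ε₁ ∧ ∀ ε₂ : ℝ,
    0 < ε₂ → ε₂ ≤ ε₁ → ∃ N₀ : ℕ, ∀ (N : ℕ) [Fact N.Prime], N₀ ≤ N → ∀ {ι : Type} [Fintype ι]
    (f : ι → S2 N), Function.Injective f → (∀ i, IsNew (f i)) → ∀ a : ℕ → ℝ,
    Sht (zz N) (KA ε₂ N) a →
      ∑ i, om (f i) * ‖4 * Real.pi * lw (f i) (QQ δ ε₂ N) (ww δ ε₂ N a) -
        ((Fs δ N (QQ δ ε₂ N) (ww δ ε₂ N a) (la (f i)) : ℝ) : ℂ)‖ ^ 2 ≤ 1 / N := by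
  obtain ⟨C, hC, hls⟩ := ls_inf
  refine ⟨δ / 8, by positivity, fun ε₂ hε hε2 => ?_⟩
  obtain ⟨N₁, hN₁⟩ := ww_bound h0 h1 hε
  obtain ⟨N₂, hN₂⟩ := fse_growth h0 (C * 576)
  refine ⟨max N₁ N₂, fun N _ hN ι _ f hinj hnew a ha => ?_⟩
  have hp : N.Prime := Fact.out
  have hN2 : 2 ≤ N := hp.two_le
  have hNr : (2 : ℝ) ≤ N := by exact_mod_cast hN2
  have hNr0 : (0 : ℝ) < N := by linarith
  obtain ⟨hgr, h8⟩ := hN₂ N (le_trans (le_max_right _ _) hN)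
  obtain ⟨hs1, hs2, hs3⟩ := fse_size h0 h1 hε2 hN2 h8
  obtain ⟨-, hW⟩ := hN₁ N (le_trans (le_max_left _ _) hN) a ha
  have hW2 := hW (QQ δ ε₂ N) hs2
  have hS2 : ∑ q ∈ Finset.Icc 1 (QQ δ ε₂ N), |ww δ ε₂ N a q| * ∑ d ∈ q.divisors, (d : ℝ) ≤
      (N : ℝ) ^ 2 := by
    refine hW2.trans ?_
    have h3 : (N : ℝ) ^ (5 * ε₂) ≤ N := by
      calc (N : ℝ) ^ (5 * ε₂) ≤ (N : ℝ) ^ (1 : ℝ) :=
            Real.rpow_le_rpow_of_exponent_le (by linarith) (by linarith)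
        _ = N := Real.rpow_one _
    have h4 : (QQ δ ε₂ N : ℝ) ≤ N := by exact_mod_cast hs2
    calc (N : ℝ) ^ (5 * ε₂) * QQ δ ε₂ N ≤ N * N :=
          mul_le_mul h3 h4 (Nat.cast_nonneg _) hNr0.le
      _ = (N : ℝ) ^ 2 := by ring
  have hg := fse_gsq h0 hN2 hs1 hS2
  set Q := QQ δ ε₂ N with hQ
  set w := ww δ ε₂ N a with hw
  set E := Real.exp (-(N : ℝ) ^ (δ / 4)) with hE
  have hE0 : 0 < E := Real.exp_pos _
  obtain ⟨hgeo1, hgeo2⟩ := fse_geo (N := N) (by omega)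
  have hterm : ∀ n : ℕ, fse_g δ N Q w n ^ 2 * (1 + (n : ℝ)) ^ 4 ≤
      4 * (N : ℝ) ^ 4 * E * ((1 + (n : ℝ)) ^ 4 * Real.exp (-(6 * n / N))) := by
    intro n
    calc fse_g δ N Q w n ^ 2 * (1 + (n : ℝ)) ^ 4 ≤
        4 * (N : ℝ) ^ 4 * E * Real.exp (-(6 * n / N)) * (1 + (n : ℝ)) ^ 4 :=
          mul_le_mul_of_nonneg_right (hg n) (by positivity)
      _ = _ := by ring
  have hsr := hgeo1.mul_left (4 * (N : ℝ) ^ 4 * E)
  have hsum1 : Summable (fun n : ℕ => fse_g δ N Q w n ^ 2 * (1 + (n : ℝ)) ^ 4) :=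
    Summable.of_nonneg_of_le (fun n => by positivity) hterm hsr
  have hterm2 : ∀ n : ℕ, fse_g δ N Q w n ^ 2 * (1 + (n : ℝ) / N) ^ 2 ≤
      fse_g δ N Q w n ^ 2 * (1 + (n : ℝ)) ^ 4 := by
    intro n
    refine mul_le_mul_of_nonneg_left ?_ (sq_nonneg _)
    have h3 : (n : ℝ) / N ≤ n := div_le_self (Nat.cast_nonneg n) (by linarith)
    have h4 : (0 : ℝ) ≤ n / N := by positivity
    calc (1 + (n : ℝ) / N) ^ 2 ≤ (1 + (n : ℝ)) ^ 2 :=
          pow_le_pow_left₀ (by positivity) (by linarith) 2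
      _ ≤ (1 + (n : ℝ)) ^ 4 := pow_le_pow_right₀ (by linarith [Nat.cast_nonneg (α := ℝ) n])
          (by norm_num)
  have hsum2 : Summable (fun n : ℕ => fse_g δ N Q w n ^ 2 * (1 + (n : ℝ) / N) ^ 2) :=
    Summable.of_nonneg_of_le (fun n => by positivity) hterm2 hsum1
  have hT : ∑' n : ℕ, fse_g δ N Q w n ^ 2 * (1 + (n : ℝ) / N) ^ 2 ≤ 576 * (N : ℝ) ^ 9 * E := by
    calc ∑' n : ℕ, fse_g δ N Q w n ^ 2 * (1 + (n : ℝ) / N) ^ 2 ≤
        ∑' n : ℕ, 4 * (N : ℝ) ^ 4 * E * ((1 + (n : ℝ)) ^ 4 * Real.exp (-(6 * n / N))) :=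
          hsum2.tsum_le_tsum (fun n => (hterm2 n).trans (hterm n)) hsr
      _ = 4 * (N : ℝ) ^ 4 * E * ∑' n : ℕ, ((1 + (n : ℝ)) ^ 4 * Real.exp (-(6 * n / N))) :=
          tsum_mul_left
      _ ≤ 4 * (N : ℝ) ^ 4 * E * (144 * (N : ℝ) ^ 5) :=
          mul_le_mul_of_nonneg_left hgeo2 (by positivity)
      _ = 576 * (N : ℝ) ^ 9 * E := by ring
  have hmain := hls N f (fun i => new_ne_zero (hnew i))
    (fun i j hij => new_orth (hnew i) (hnew j) (fun h => hij (hinj h))) (fse_g δ N Q w) hsum1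
  have e1 : ∑ i, om (f i) * ‖4 * Real.pi * lw (f i) Q w -
        ((Fs δ N Q w (la (f i)) : ℝ) : ℂ)‖ ^ 2 =
      1 / (4 * Real.pi) * ∑ i, 1 / nr (f i) *
        ‖∑' n : ℕ, ((fse_g δ N Q w n : ℝ) : ℂ) * (co (f i) n / (Real.sqrt n : ℂ))‖ ^ 2 := by
    rw [Finset.mul_sum]
    refine Finset.sum_congr rfl fun i _ => ?_
    rw [fse_diff hs3 (hnew i)]
    unfold om
    rw [← one_div_mul_one_div]
    ring
  rw [e1]
  have hpi : 1 / (4 * Real.pi) ≤ 1 := by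
    rw [div_le_one (by positivity)]
    linarith [Real.pi_gt_three]
  have hpi0 : 0 ≤ 1 / (4 * Real.pi) := by positivity
  have hR0 : 0 ≤ C * (576 * (N : ℝ) ^ 9 * E) := by positivity
  calc 1 / (4 * Real.pi) * ∑ i, 1 / nr (f i) *
        ‖∑' n : ℕ, ((fse_g δ N Q w n : ℝ) : ℂ) * (co (f i) n / (Real.sqrt n : ℂ))‖ ^ 2
      ≤ 1 / (4 * Real.pi) * (C * (576 * (N : ℝ) ^ 9 * E)) :=
        mul_le_mul_of_nonneg_left (hmain.trans (mul_le_mul_of_nonneg_left hT hC.le)) hpi0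
    _ ≤ 1 * (C * (576 * (N : ℝ) ^ 9 * E)) := mul_le_mul_of_nonneg_right hpi hR0
    _ ≤ 1 / N := by
        rw [one_mul, le_div_iff₀ hNr0]
        calc C * (576 * (N : ℝ) ^ 9 * E) * N = C * 576 * (N : ℝ) ^ 10 * E := by ring
          _ ≤ 1 := hgr

theorem fs_tail : type_of% @fs_tail_pr := @fs_tail_pr

end Pool.Agent.KSL
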