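import Pool.Agent.Lib_helper68.KSL.Defs
import Pool.Agent.Lib_helper68.LEV.MRT

/-! KSL, block RSB. -/

namespace Pool.Agent.KSL

open Pool.Agent.LEV Pool.Agent.LVB
open Pool.Agent.FG61 (mu phi cc ff AA Lam)

/-- sum of `1/n` over `n ≤ x` with all prime factors in `T` -/
noncomputable def RSB_S (T : Finset ℕ) (x : ℕ) : ℝ :=
  ∑ n ∈ (Finset.Icc 1 x).filter (fun n => n.primeFactors ⊆ T), 1 / (n : ℝ)

/-- sum of `1/φ(n)` over squarefree `n ≤ x` with all prime factors in `T` -/
noncomputable def RSB_G (T : Finset ℕ) (x : ℕ) : ℝ :=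
  ∑ n ∈ (Finset.Icc 1 x).filter (fun n => Squarefree n ∧ n.primeFactors ⊆ T),
    1 / (n.totient : ℝ)

theorem RSB_S_nonneg (T : Finset ℕ) (x : ℕ) : 0 ≤ RSB_S T x :=
  Finset.sum_nonneg fun n _ => by positivity

theorem RSB_G_nonneg (T : Finset ℕ) (x : ℕ) : 0 ≤ RSB_G T x :=
  Finset.sum_nonneg fun n _ => by positivity

theorem RSB_S_mono (T : Finset ℕ) {x y : ℕ} (h : x ≤ y) : RSB_S T x ≤ RSB_S T y := by
  unfold RSB_S
  apply Finset.sum_le_sum_of_subset_of_nonneg
  · intro n hn
    rw [Finset.mem_filter, Finset.mem_Icc] at hn ⊢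
    exact ⟨⟨hn.1.1, hn.1.2.trans h⟩, hn.2⟩
  · intro n _ _
    positivity

theorem RSB_G_mono (T : Finset ℕ) {x y : ℕ} (h : x ≤ y) : RSB_G T x ≤ RSB_G T y := by
  unfold RSB_G
  apply Finset.sum_le_sum_of_subset_of_nonneg
  · intro n hn
    rw [Finset.mem_filter, Finset.mem_Icc] at hn ⊢
    exact ⟨⟨hn.1.1, hn.1.2.trans h⟩, hn.2⟩
  · intro n _ _
    positivity

theorem RSB_pf {p : ℕ} (hp : p.Prime) {m : ℕ} (hm : m ≠ 0) :
    (p * m).primeFactors = insert p m.primeFactors := by
  rw [Nat.primeFactors_mul hp.ne_zero hm, hp.primeFactors]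
  rfl

theorem RSB_S_step {p : ℕ} (hp : p.Prime) {T : Finset ℕ} (hT : p ∉ T) (x : ℕ) :
    RSB_S (insert p T) x = RSB_S T x + 1 / (p : ℝ) * RSB_S (insert p T) (x / p) := by
  unfold RSB_S
  rw [← Finset.sum_filter_add_sum_filter_not _ (fun n => ¬ p ∣ n)]
  congr 1
  · apply Finset.sum_congr _ (fun _ _ => rfl)
    ext n
    simp only [Finset.mem_filter, Finset.mem_Icc]
    constructor
    · rintro ⟨⟨h1, h2⟩, h3⟩
      refine ⟨h1, fun q hq => ?_⟩
      have := h2 hq
      rw [Finset.mem_insert] at this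
      rcases this with rfl | h
      · exact absurd (Nat.dvd_of_mem_primeFactors hq) h3
      · exact h
    · rintro ⟨h1, h2⟩
      refine ⟨⟨h1, h2.trans (Finset.subset_insert _ _)⟩, fun h3 => hT (h2 ?_)⟩
      exact Nat.mem_primeFactors.mpr ⟨hp, h3, by omega⟩
  · rw [Finset.mul_sum]
    symm
    apply Finset.sum_bij (fun m _ => p * m)
    · intro m hm
      simp only [Finset.mem_filter, Finset.mem_Icc, not_not] at hm ⊢
      refine ⟨⟨⟨?_, ?_⟩, ?_⟩, dvd_mul_right _ _⟩
      · exact Nat.mul_pos hp.pos hm.1.1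
      · exact (Nat.mul_le_mul_left p hm.1.2).trans (Nat.mul_div_le x p)
      · rw [RSB_pf hp (by omega)]
        exact Finset.insert_subset (Finset.mem_insert_self _ _) hm.2
    · intro a _ b _ h
      exact Nat.eq_of_mul_eq_mul_left hp.pos h
    · intro n hn
      simp only [Finset.mem_filter, Finset.mem_Icc, not_not] at hn
      obtain ⟨m, rfl⟩ := hn.2
      have hm : m ≠ 0 := by
        rintro rfl
        simp at hn
      refine ⟨m, ?_, rfl⟩
      simp only [Finset.mem_filter, Finset.mem_Icc]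
      refine ⟨⟨by omega, ?_⟩, ?_⟩
      · rw [Nat.le_div_iff_mul_le hp.pos, mul_comm]
        exact hn.1.1.2
      · have := hn.1.2
        rw [RSB_pf hp hm] at this
        exact (Finset.subset_insert _ _).trans this
    · intro m hm
      push_cast
      rw [one_div_mul_one_div]

theorem RSB_G_step {p : ℕ} (hp : p.Prime) {T : Finset ℕ} (hT : p ∉ T) (x : ℕ) :
    RSB_G (insert p T) x = RSB_G T x + 1 / ((p : ℝ) - 1) * RSB_G T (x / p) := by
  unfold RSB_G
  rw [← Finset.sum_filter_add_sum_filter_not _ (fun n => ¬ p ∣ n)]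
  congr 1
  · apply Finset.sum_congr _ (fun _ _ => rfl)
    ext n
    simp only [Finset.mem_filter, Finset.mem_Icc]
    constructor
    · rintro ⟨⟨h1, h0, h2⟩, h3⟩
      refine ⟨h1, h0, fun q hq => ?_⟩
      have := h2 hq
      rw [Finset.mem_insert] at this
      rcases this with rfl | h
      · exact absurd (Nat.dvd_of_mem_primeFactors hq) h3
      · exact h
    · rintro ⟨h1, h0, h2⟩
      refine ⟨⟨h1, h0, h2.trans (Finset.subset_insert _ _)⟩, fun h3 => hT (h2 ?_)⟩
      exact Nat.mem_primeFactors.mpr ⟨hp, h3, by omega⟩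
  · rw [Finset.mul_sum]
    symm
    apply Finset.sum_bij (fun m _ => p * m)
    · intro m hm
      simp only [Finset.mem_filter, Finset.mem_Icc, not_not] at hm ⊢
      have hc : Nat.Coprime p m := by
        rw [hp.coprime_iff_not_dvd]
        intro h
        exact hT (hm.2.2 (Nat.mem_primeFactors.mpr ⟨hp, h, by omega⟩))
      refine ⟨⟨⟨?_, ?_⟩, ?_, ?_⟩, dvd_mul_right _ _⟩
      · exact Nat.mul_pos hp.pos hm.1.1
      · exact (Nat.mul_le_mul_left p hm.1.2).trans (Nat.mul_div_le x p)
      · exact (Nat.squarefree_mul hc).mpr ⟨hp.squarefree, hm.2.1⟩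
      · rw [RSB_pf hp (by omega)]
        exact Finset.insert_subset_insert _ hm.2.2
    · intro a _ b _ h
      exact Nat.eq_of_mul_eq_mul_left hp.pos h
    · intro n hn
      simp only [Finset.mem_filter, Finset.mem_Icc, not_not] at hn
      obtain ⟨m, rfl⟩ := hn.2
      have hm : m ≠ 0 := by
        rintro rfl
        simp at hn
      have hsq := hn.1.2.1
      have hc : Nat.Coprime p m := Nat.coprime_of_squarefree_mul hsq
      refine ⟨m, ?_, rfl⟩
      simp only [Finset.mem_filter, Finset.mem_Icc]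
      refine ⟨⟨by omega, ?_⟩, ?_, ?_⟩
      · rw [Nat.le_div_iff_mul_le hp.pos, mul_comm]
        exact hn.1.1.2
      · exact ((Nat.squarefree_mul hc).mp hsq).2
      · have := hn.1.2.2
        rw [RSB_pf hp hm] at this
        intro q hq
        have h1 := this (Finset.mem_insert_of_mem hq)
        rw [Finset.mem_insert] at h1
        rcases h1 with rfl | h1
        · exact absurd (Nat.dvd_of_mem_primeFactors hq) ((hp.coprime_iff_not_dvd).mp hc)
        · exact h1
    · intro m hm
      simp only [Finset.mem_filter, Finset.mem_Icc] at hm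
      have hc : Nat.Coprime p m := by
        rw [hp.coprime_iff_not_dvd]
        intro h
        exact hT (hm.2.2 (Nat.mem_primeFactors.mpr ⟨hp, h, by omega⟩))
      rw [Nat.totient_mul hc, Nat.totient_prime hp]
      push_cast [Nat.cast_sub hp.one_le]
      rw [one_div_mul_one_div]

theorem RSB_S_le {p : ℕ} (hp : p.Prime) {T : Finset ℕ} (hT : p ∉ T) (x : ℕ) :
    RSB_S (insert p T) x ≤ (1 - 1 / (p : ℝ))⁻¹ * RSB_S T x := by
  have hp1 : (1 : ℝ) < p := by exact_mod_cast hp.one_lt
  have hq : (1 - 1 / (p : ℝ))⁻¹ = p / (p - 1) := by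
    have : (p : ℝ) - 1 ≠ 0 := by linarith
    field_simp
  induction x using Nat.strong_induction_on with
  | _ x ih =>
    rcases Nat.eq_zero_or_pos x with rfl | hx
    · simp [RSB_S]
    · rw [RSB_S_step hp hT x]
      have h1 := ih (x / p) (Nat.div_lt_self hx hp.one_lt)
      have h2 := RSB_S_mono T (Nat.div_le_self x p)
      rw [hq] at h1 ⊢
      have h3 : 1 / (p : ℝ) * RSB_S (insert p T) (x / p) ≤ 1 / (p : ℝ) * (p / (p - 1) * RSB_S T x) := by
        apply mul_le_mul_of_nonneg_left _ (by positivity)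
        refine h1.trans ?_
        apply mul_le_mul_of_nonneg_left h2
        apply div_nonneg <;> linarith
      have h4 : 1 / (p : ℝ) * (p / (p - 1) * RSB_S T x) = 1 / (p - 1) * RSB_S T x := by
        have : (p : ℝ) - 1 ≠ 0 := by linarith
        field_simp
      have h5 : (p : ℝ) / (p - 1) * RSB_S T x = RSB_S T x + 1 / (p - 1) * RSB_S T x := by
        have : (p : ℝ) - 1 ≠ 0 := by linarith
        field_simp
        ring
      rw [h5]
      linarith

theorem RSB_pf_empty {n : ℕ} (hn : 1 ≤ n) : n.primeFactors ⊆ ∅ ↔ n = 1 := by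
  rw [Finset.subset_empty, Nat.primeFactors_eq_empty]
  omega

theorem RSB_S_le_G {T : Finset ℕ} (hT : ∀ p ∈ T, p.Prime) (x : ℕ) : RSB_S T x ≤ RSB_G T x := by
  induction T using Finset.induction_on generalizing x with
  | empty =>
    unfold RSB_S RSB_G
    apply le_of_eq
    apply Finset.sum_congr
    · ext n
      simp only [Finset.mem_filter, Finset.mem_Icc]
      constructor
      · rintro ⟨h1, h2⟩
        have := (RSB_pf_empty h1.1).mp h2
        subst this
        exact ⟨h1, squarefree_one, h2⟩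
      · rintro ⟨h1, _, h2⟩
        exact ⟨h1, h2⟩
    · intro n hn
      simp only [Finset.mem_filter, Finset.mem_Icc] at hn
      have := (RSB_pf_empty hn.1.1).mp hn.2.2
      subst this
      simp
  | insert p T hp ih =>
    have hpp := hT p (Finset.mem_insert_self _ _)
    have ih' := fun y => ih (fun q hq => hT q (Finset.mem_insert_of_mem hq)) y
    have hp1 : (1 : ℝ) < p := by exact_mod_cast hpp.one_lt
    rw [RSB_S_step hpp hp, RSB_G_step hpp hp]
    have h1 := RSB_S_le hpp hp (x / p)
    have h2 : 1 / (p : ℝ) * RSB_S (insert p T) (x / p) ≤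
        1 / (p : ℝ) * ((1 - 1 / (p : ℝ))⁻¹ * RSB_S T (x / p)) :=
      mul_le_mul_of_nonneg_left h1 (by positivity)
    have h3 : 1 / (p : ℝ) * ((1 - 1 / (p : ℝ))⁻¹ * RSB_S T (x / p)) =
        1 / ((p : ℝ) - 1) * RSB_S T (x / p) := by
      have : (p : ℝ) - 1 ≠ 0 := by linarith
      have h0 : (1 - 1 / (p : ℝ)) ≠ 0 := by
        have : 1 / (p : ℝ) < 1 := by
          rw [div_lt_one (by linarith)]
          exact hp1
        linarith
      field_simp
    have h4 : 1 / ((p : ℝ) - 1) * RSB_S T (x / p) ≤ 1 / ((p : ℝ) - 1) * RSB_G T (x / p) := by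
      apply mul_le_mul_of_nonneg_left (ih' _)
      apply div_nonneg zero_le_one
      linarith
    linarith [ih' x]

theorem RSB_S_union {T U : Finset ℕ} (hU : ∀ p ∈ U, p.Prime) (hd : Disjoint U T) (x : ℕ) :
    (∏ p ∈ U, (1 - 1 / (p : ℝ))) * RSB_S (U ∪ T) x ≤ RSB_S T x := by
  induction U using Finset.induction_on with
  | empty => simp
  | insert p U hp ih =>
    have hpp := hU p (Finset.mem_insert_self _ _)
    have ih' := ih (fun q hq => hU q (Finset.mem_insert_of_mem hq))
      (Finset.disjoint_of_subset_left (Finset.subset_insert _ _) hd)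
    have hpT : p ∉ T := fun h => (Finset.disjoint_left.mp hd) (Finset.mem_insert_self _ _) h
    have hp1 : (1 : ℝ) < p := by exact_mod_cast hpp.one_lt
    have h0 : 0 < (1 - 1 / (p : ℝ)) := by
      have : 1 / (p : ℝ) < 1 := by
        rw [div_lt_one (by linarith)]
        exact hp1
      linarith
    have hpUT : p ∉ U ∪ T := by
      rw [Finset.mem_union]
      tauto
    rw [Finset.prod_insert hp, Finset.insert_union]
    have h1 := RSB_S_le hpp hpUT x
    have h2 : (1 - 1 / (p : ℝ)) * RSB_S (insert p (U ∪ T)) x ≤ RSB_S (U ∪ T) x := by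
      rw [← div_eq_inv_mul, le_div_iff₀ h0] at h1
      linarith
    have h3 : 0 ≤ ∏ q ∈ U, (1 - 1 / (q : ℝ)) := by
      apply Finset.prod_nonneg
      intro q hq
      have hq1 : (1 : ℝ) < q := by exact_mod_cast (hU q (Finset.mem_insert_of_mem hq)).one_lt
      have : 1 / (q : ℝ) < 1 := by
        rw [div_lt_one (by linarith)]
        exact hq1
      linarith
    calc (1 - 1 / (p : ℝ)) * (∏ q ∈ U, (1 - 1 / (q : ℝ))) * RSB_S (insert p (U ∪ T)) x
        = (∏ q ∈ U, (1 - 1 / (q : ℝ))) * ((1 - 1 / (p : ℝ)) * RSB_S (insert p (U ∪ T)) x) := by ring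
      _ ≤ (∏ q ∈ U, (1 - 1 / (q : ℝ))) * RSB_S (U ∪ T) x := mul_le_mul_of_nonneg_left h2 h3
      _ ≤ RSB_S T x := ih'

/-- the sum of the statement in terms of `RSB_G` -/
theorem RSB_conv (z x : ℕ) : ∑ r ∈ RO z x, mu r ^ 2 / phi r =
    RSB_G ((Finset.Ioc z x).filter Nat.Prime) x := by
  classical
  unfold RO RSB_G
  rw [← Finset.sum_filter_add_sum_filter_not _ (fun n => Squarefree n)]
  rw [Finset.sum_eq_zero (s := Finset.filter (fun n => ¬ Squarefree n) _), add_zero]
  · apply Finset.sum_congr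
    · ext n
      simp only [Finset.mem_filter, Finset.mem_Icc]
      constructor
      · rintro ⟨⟨h1, h2⟩, h3⟩
        refine ⟨h1, h3, fun q hq => ?_⟩
        have hqp := Nat.prime_of_mem_primeFactors hq
        have hqd := Nat.dvd_of_mem_primeFactors hq
        rw [Finset.mem_filter, Finset.mem_Ioc]
        exact ⟨⟨h2 q hqp hqd, (Nat.le_of_dvd (by omega) hqd).trans h1.2⟩, hqp⟩
      · rintro ⟨h1, h3, h2⟩
        refine ⟨⟨h1, fun q hqp hqd => ?_⟩, h3⟩
        have := h2 (Nat.mem_primeFactors.mpr ⟨hqp, hqd, by omega⟩)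
        rw [Finset.mem_filter, Finset.mem_Ioc] at this
        exact this.1.1
    · intro n hn
      simp only [Finset.mem_filter, Finset.mem_Icc] at hn
      have h : mu n ^ 2 = 1 := by
        have := ArithmeticFunction.moebius_sq_eq_one_of_squarefree hn.2.1
        unfold mu
        exact_mod_cast this
      rw [h]
  · intro n hn
    rw [Finset.mem_filter] at hn
    have h : mu n = 0 := by
      unfold mu
      rw [ArithmeticFunction.moebius_eq_zero_of_not_squarefree hn.2]
      simp
    rw [h]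
    simp

theorem rsum_low_pr {z : ℕ} {x : ℕ} (hx : 1 ≤ x) :
    Vz z * Real.log (x + 1) ≤ ∑ r ∈ RO z x, mu r ^ 2 / phi r := by
  rw [RSB_conv]
  set T := (Finset.Ioc z x).filter Nat.Prime with hT
  set U := (Finset.Icc 1 z).filter Nat.Prime with hU
  have hTp : ∀ p ∈ T, p.Prime := fun p hp => (Finset.mem_filter.mp hp).2
  have hUp : ∀ p ∈ U, p.Prime := fun p hp => (Finset.mem_filter.mp hp).2
  have hd : Disjoint U T := by
    rw [Finset.disjoint_left]
    intro p h1 h2
    have a := (Finset.mem_Icc.mp (Finset.mem_filter.mp h1).1).2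
    have b := (Finset.mem_Ioc.mp (Finset.mem_filter.mp h2).1).1
    omega
  refine le_trans ?_ (RSB_S_le_G hTp x)
  refine le_trans ?_ (RSB_S_union hUp hd x)
  have hV : Vz z = ∏ p ∈ U, (1 - 1 / (p : ℝ)) := rfl
  rw [hV]
  apply mul_le_mul_of_nonneg_left
  · have h1 := log_add_one_le_harmonic x
    rw [harmonic_eq_sum_Icc] at h1
    push_cast at h1
    refine h1.trans (le_of_eq ?_)
    unfold RSB_S
    apply Finset.sum_congr
    · ext n
      simp only [Finset.mem_filter, Finset.mem_Icc]
      constructor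
      · intro h
        refine ⟨h, fun q hq => ?_⟩
        have hqp := Nat.prime_of_mem_primeFactors hq
        have hqd := Nat.dvd_of_mem_primeFactors hq
        have hqx := (Nat.le_of_dvd (by omega) hqd).trans h.2
        rw [Finset.mem_union, hU, hT, Finset.mem_filter, Finset.mem_filter, Finset.mem_Icc,
          Finset.mem_Ioc]
        rcases Nat.lt_or_ge z q with hz | hz
        · exact Or.inr ⟨⟨hz, hqx⟩, hqp⟩
        · exact Or.inl ⟨⟨hqp.one_le, hz⟩, hqp⟩
      · exact fun h => h.1
    · intro n _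
      rw [one_div]
  · apply Finset.prod_nonneg
    intro q hq
    have hq1 : (1 : ℝ) < q := by exact_mod_cast (hUp q hq).one_lt
    have : 1 / (q : ℝ) < 1 := by
      rw [div_lt_one (by linarith)]
      exact hq1
    linarith

theorem RSB_G_le {T : Finset ℕ} (hT : ∀ p ∈ T, p.Prime) (x : ℕ) :
    RSB_G T x ≤ ∏ p ∈ T, (1 + 1 / ((p : ℝ) - 1)) := by
  induction T using Finset.induction_on generalizing x with
  | empty =>
    rw [Finset.prod_empty]
    unfold RSB_G
    calc ∑ n ∈ (Finset.Icc 1 x).filter (fun n => Squarefree n ∧ n.primeFactors ⊆ ∅),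
        1 / (n.totient : ℝ) ≤ ∑ n ∈ ({1} : Finset ℕ), 1 / (n.totient : ℝ) := by
          apply Finset.sum_le_sum_of_subset_of_nonneg
          · intro n hn
            simp only [Finset.mem_filter, Finset.mem_Icc] at hn
            rw [Finset.mem_singleton]
            exact (RSB_pf_empty hn.1.1).mp hn.2.2
          · intro n _ _
            positivity
      _ ≤ 1 := by simp
  | insert p T hp ih =>
    have hpp := hT p (Finset.mem_insert_self _ _)
    have ih' := fun y => ih (fun q hq => hT q (Finset.mem_insert_of_mem hq)) y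
    have hp1 : (1 : ℝ) < p := by exact_mod_cast hpp.one_lt
    rw [RSB_G_step hpp hp, Finset.prod_insert hp]
    have h1 : 1 / ((p : ℝ) - 1) * RSB_G T (x / p) ≤
        1 / ((p : ℝ) - 1) * ∏ p ∈ T, (1 + 1 / ((p : ℝ) - 1)) := by
      apply mul_le_mul_of_nonneg_left (ih' _)
      apply div_nonneg zero_le_one
      linarith
    linarith [ih' x]

theorem RSB_tele (z x : ℕ) (hz : 1 ≤ z) :
    ∑ n ∈ Finset.Ioc z x, 1 / ((n : ℝ) * (n - 1)) ≤ 1 := by
  rcases Nat.lt_or_ge x z with h | h
  · rw [Finset.Ioc_eq_empty (by omega)]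
    simp
  · have key : ∀ y : ℕ, z ≤ y → ∑ n ∈ Finset.Ioc z y, 1 / ((n : ℝ) * (n - 1)) = 1 / z - 1 / y := by
      intro y hy
      induction y, hy using Nat.le_induction with
      | base => simp
      | succ y hy ih =>
        rw [← Finset.insert_Ioc_right_eq_Ioc_add_one (by omega), Finset.sum_insert (by simp), ih]
        have h0 : (0 : ℝ) < y := by
          have : 0 < y := by omega
          exact_mod_cast this
        push_cast
        have h1 : (y : ℝ) + 1 - 1 = y := by ring
        rw [h1]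
        field_simp
        ring
    rw [key x h]
    have h1 : 1 / (z : ℝ) ≤ 1 := by
      rw [div_le_one (by exact_mod_cast hz)]
      exact_mod_cast hz
    have h2 : 0 ≤ 1 / (x : ℝ) := by positivity
    linarith

theorem rsum_up_pr : ∃ C : ℝ, 0 < C ∧ ∀ z x : ℕ, 2 ≤ z → 1 ≤ x →
    ∑ r ∈ RO z x, mu r ^ 2 / phi r ≤ C * (1 + Real.log x / Real.log z) := by
  obtain ⟨C0, hC0⟩ := mertens_two
  refine ⟨Real.exp (2 * |C0| + 1), Real.exp_pos _, ?_⟩
  intro z x hz hx
  have hC1 : 1 ≤ Real.exp (2 * |C0| + 1) := Real.one_le_exp (by positivity)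
  have hlz : 0 < Real.log z := Real.log_pos (by exact_mod_cast hz)
  have hlx : 0 ≤ Real.log x := Real.log_nonneg (by exact_mod_cast hx)
  rw [RSB_conv]
  set T := (Finset.Ioc z x).filter Nat.Prime with hT
  have hTp : ∀ p ∈ T, p.Prime := fun p hp => (Finset.mem_filter.mp hp).2
  refine (RSB_G_le hTp x).trans ?_
  rcases Nat.lt_or_ge x z with hxz | hxz
  · have : T = ∅ := by
      rw [hT, Finset.Ioc_eq_empty (by omega)]
      rfl
    rw [this, Finset.prod_empty]
    have h1 : 1 ≤ 1 + Real.log x / Real.log z := by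
      have : 0 ≤ Real.log x / Real.log z := by positivity
      linarith
    nlinarith
  · have hlx' : 0 < Real.log x := Real.log_pos (by
      have : 2 ≤ x := by omega
      exact_mod_cast this)
    have h1 : ∏ p ∈ T, (1 + 1 / ((p : ℝ) - 1)) ≤ Real.exp (∑ p ∈ T, 1 / ((p : ℝ) - 1)) := by
      rw [Real.exp_sum]
      apply Finset.prod_le_prod
      · intro p hp
        have hp1 : (1 : ℝ) < p := by exact_mod_cast (hTp p hp).one_lt
        have : 0 ≤ 1 / ((p : ℝ) - 1) := by
          apply div_nonneg zero_le_one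
          linarith
        linarith
      · intro p _
        rw [add_comm]
        exact Real.add_one_le_exp _
    have h2 : ∑ p ∈ T, 1 / ((p : ℝ) - 1) = ∑ p ∈ T, 1 / (p : ℝ) + ∑ p ∈ T, 1 / ((p : ℝ) * (p - 1)) := by
      rw [← Finset.sum_add_distrib]
      apply Finset.sum_congr rfl
      intro p hp
      have hp1 : (1 : ℝ) < p := by exact_mod_cast (hTp p hp).one_lt
      have : (p : ℝ) - 1 ≠ 0 := by linarith
      field_simp
      ring
    have h3 : ∑ p ∈ T, 1 / ((p : ℝ) * (p - 1)) ≤ 1 := by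
      refine le_trans ?_ (RSB_tele z x (by omega))
      apply Finset.sum_le_sum_of_subset_of_nonneg (Finset.filter_subset _ _)
      intro n hn _
      have : (1 : ℝ) ≤ n := by
        have := (Finset.mem_Ioc.mp hn).1
        have : 1 ≤ n := by omega
        exact_mod_cast this
      apply div_nonneg zero_le_one
      apply mul_nonneg <;> linarith
    have h4 : ∑ p ∈ T, 1 / (p : ℝ) = ∑ p ∈ (Finset.Icc 1 x).filter Nat.Prime, 1 / (p : ℝ) -
        ∑ p ∈ (Finset.Icc 1 z).filter Nat.Prime, 1 / (p : ℝ) := by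
      rw [eq_sub_iff_add_eq, ← Finset.sum_union]
      · apply Finset.sum_congr _ (fun _ _ => rfl)
        ext p
        rw [Finset.mem_union, hT, Finset.mem_filter, Finset.mem_filter, Finset.mem_filter,
          Finset.mem_Ioc, Finset.mem_Icc, Finset.mem_Icc]
        constructor
        · rintro (⟨⟨a, b⟩, c⟩ | ⟨⟨a, b⟩, c⟩)
          · exact ⟨⟨c.one_le, b⟩, c⟩
          · exact ⟨⟨a, by omega⟩, c⟩
        · rintro ⟨⟨a, b⟩, c⟩
          rcases Nat.lt_or_ge z p with hz | hz
          · exact Or.inl ⟨⟨hz, b⟩, c⟩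
          · exact Or.inr ⟨⟨a, hz⟩, c⟩
      · rw [Finset.disjoint_left]
        intro p h1 h2
        have a := (Finset.mem_Ioc.mp (Finset.mem_filter.mp h1).1).1
        have b := (Finset.mem_Icc.mp (Finset.mem_filter.mp h2).1).2
        omega
    have h5 := hC0 x (by
      have : 2 ≤ x := by omega
      exact_mod_cast this)
    have h6 := hC0 z (by exact_mod_cast hz)
    rw [Nat.floor_natCast] at h5 h6
    have h7 : ∑ p ∈ T, 1 / ((p : ℝ) - 1) ≤
        (2 * |C0| + 1) + Real.log (Real.log x) - Real.log (Real.log z) := by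
      rw [h2, h4]
      have a := abs_le.mp h5
      have b := abs_le.mp h6
      have c := le_abs_self C0
      linarith [a.2, b.1]
    calc ∏ p ∈ T, (1 + 1 / ((p : ℝ) - 1)) ≤ Real.exp (∑ p ∈ T, 1 / ((p : ℝ) - 1)) := h1
      _ ≤ Real.exp ((2 * |C0| + 1) + Real.log (Real.log x) - Real.log (Real.log z)) :=
          Real.exp_le_exp.mpr h7
      _ = Real.exp (2 * |C0| + 1) * (Real.log x / Real.log z) := by
          rw [Real.exp_sub, Real.exp_add, Real.exp_log hlx', Real.exp_log hlz]
          ring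
      _ ≤ Real.exp (2 * |C0| + 1) * (1 + Real.log x / Real.log z) := by
          apply mul_le_mul_of_nonneg_left _ (Real.exp_pos _).le
          linarith

theorem rsum_low : type_of% @rsum_low_pr := @rsum_low_pr
theorem rsum_up : type_of% @rsum_up_pr := @rsum_up_pr

end Pool.Agent.KSL
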