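import Pool.Agent.Lib_helper68.KSL.Defs
import Pool.Agent.Lib_helper41.LVBF.STO
import Pool.Agent.Lib_helper68.KSLF.BET
import Pool.Agent.Lib_helper68.KSLF.RSB
import Pool.Agent.Lib_helper68.KSLF.SZF

/-! KSL block MRB. -/

namespace Pool.Agent.KSL

open Pool.Agent.LEV Pool.Agent.LVB
open Pool.Agent.FG61 (mu phi cc ff AA Lam)
open Complex MeasureTheory Filter Topology UpperHalfPlane ModularGroup ProbabilityTheory
open scoped MatrixGroups Modular ENNReal ModularForm ComplexConjugate ContDiff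

lemma mrb_um {m : ℕ} (hm : Squarefree m) (x : ℕ → ℝ) : Um m x = ∏ p ∈ m.primeFactors, x p := by
  unfold Um
  refine Finset.prod_congr rfl (fun p hp => ?_)
  have h1 : m.factorization p ≤ 1 := hm.natFactorization_le_one p
  have h2 : 0 < m.factorization p := by
    have hp' := Nat.mem_primeFactors.mp hp
    exact hp'.1.factorization_pos_of_dvd hm.ne_zero hp'.2.1
  have h3 : m.factorization p = 1 := by omega
  rw [h3]; rfl

lemma mrb_sqrt {m : ℕ} (hm : Squarefree m) : Real.sqrt m = ∏ p ∈ m.primeFactors, Real.sqrt p := by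
  rw [Real.sqrt_eq_iff_mul_self_eq (by positivity) (Finset.prod_nonneg (fun p _ => Real.sqrt_nonneg _)),
    ← Finset.prod_mul_distrib]
  have h1 : ∏ p ∈ m.primeFactors, Real.sqrt p * Real.sqrt p = ∏ p ∈ m.primeFactors, (p : ℝ) :=
    Finset.prod_congr rfl (fun p _ => Real.mul_self_sqrt (Nat.cast_nonneg p))
  rw [h1, ← Nat.cast_prod, Nat.prod_primeFactors_of_squarefree hm]

lemma mrb_mu {m : ℕ} (hm : Squarefree m) : ∏ p ∈ m.primeFactors, (-1 / (p : ℝ)) = mu m / m := by
  have h1 : (∏ p ∈ m.primeFactors, ArithmeticFunction.moebius p) = ArithmeticFunction.moebius m :=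
    ArithmeticFunction.isMultiplicative_moebius.prod_primeFactors hm
  have h2 : ∏ p ∈ m.primeFactors, (-1 / (p : ℝ)) =
      ∏ p ∈ m.primeFactors, (((ArithmeticFunction.moebius p : ℤ) : ℝ) / p) := by
    refine Finset.prod_congr rfl (fun p hp => ?_)
    rw [ArithmeticFunction.moebius_apply_prime (Nat.prime_of_mem_primeFactors hp)]
    norm_num
  rw [h2, Finset.prod_div_distrib, ← Nat.cast_prod, Nat.prod_primeFactors_of_squarefree hm,
    ← Int.cast_prod, h1]

lemma mrb_loc (x : ℕ → ℝ) {e : ℕ} (he : Squarefree e) :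
    ∏ p ∈ e.primeFactors, (x p / Real.sqrt p - 1 / p) =
      ∑ m ∈ e.divisors, Um m x / Real.sqrt m * (mu (e / m) / ((e / m : ℕ) : ℝ)) := by
  have hf := ArithmeticFunction.IsMultiplicative.prodPrimeFactors (fun p : ℕ => x p / Real.sqrt p)
  have hg := ArithmeticFunction.IsMultiplicative.prodPrimeFactors (fun p : ℕ => (-1 : ℝ) / p)
  have h := hf.prodPrimeFactors_add_of_squarefree hg he
  rw [ArithmeticFunction.prodPrimeFactors_apply he.ne_zero, ArithmeticFunction.mul_apply,
    Nat.sum_divisorsAntidiagonal (fun a b => ArithmeticFunction.prodPrimeFactors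
      (fun p : ℕ => x p / Real.sqrt p) a * ArithmeticFunction.prodPrimeFactors
      (fun p : ℕ => (-1 : ℝ) / p) b)] at h
  have h1 : ∏ p ∈ e.primeFactors, (x p / Real.sqrt p - 1 / p) =
      ∏ p ∈ e.primeFactors, (ArithmeticFunction.prodPrimeFactors (fun p : ℕ => x p / Real.sqrt p) +
        ArithmeticFunction.prodPrimeFactors (fun p : ℕ => (-1 : ℝ) / p)) p := by
    refine Finset.prod_congr rfl (fun p hp => ?_)
    have hpp := Nat.prime_of_mem_primeFactors hp
    rw [ArithmeticFunction.add_apply, ArithmeticFunction.prodPrimeFactors_apply hpp.ne_zero,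
      ArithmeticFunction.prodPrimeFactors_apply hpp.ne_zero, hpp.primeFactors,
      Finset.prod_singleton, Finset.prod_singleton]
    ring
  rw [h1, h]
  refine Finset.sum_congr rfl (fun m hm => ?_)
  have hme := Nat.dvd_of_mem_divisors hm
  have hms : Squarefree m := he.squarefree_of_dvd hme
  have hks : Squarefree (e / m) := he.squarefree_of_dvd (Nat.div_dvd_of_dvd hme)
  rw [ArithmeticFunction.prodPrimeFactors_apply hms.ne_zero,
    ArithmeticFunction.prodPrimeFactors_apply hks.ne_zero, Finset.prod_div_distrib, mrb_mu hks,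
    mrb_um hms, mrb_sqrt hms]

noncomputable def mrbc (z M K m : ℕ) : ℝ :=
  Real.sqrt m * ∑ e ∈ (Finset.Icc 1 (K * M)).filter (fun e => m ∣ e), yE z M K e * mu (e / m)

lemma mrb_yE {z M K e : ℕ} (h : yE z M K e ≠ 0) : rough z e ∧ 1 ≤ e ∧ Squarefree e := by
  unfold yE at h
  split_ifs at h with h1
  · refine ⟨h1.1, h1.2, ?_⟩
    by_contra h2
    apply h
    have : mu e = 0 := by
      unfold mu
      rw [ArithmeticFunction.moebius_eq_zero_of_not_squarefree h2]; simp
    rw [this]; simp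
  · exact absurd rfl h

lemma mrb_exp (z M K : ℕ) (x : ℕ → ℝ) :
    Mr z M K x = ∑ m ∈ Finset.Icc 1 (K * M), mrbc z M K m * Um m x := by
  unfold Mr mrbc
  have h1 : ∀ e ∈ Finset.Icc 1 (K * M), (e : ℝ) * yE z M K e *
      ∏ p ∈ e.primeFactors, (x p / Real.sqrt p - 1 / p) =
      ∑ m ∈ Finset.Icc 1 (K * M), if m ∣ e then Real.sqrt m * (yE z M K e * mu (e / m)) * Um m x
        else 0 := by
    intro e he
    rw [Finset.mem_Icc] at he
    by_cases hy : yE z M K e = 0
    · rw [hy]
      simp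
    · obtain ⟨_, _, hs⟩ := mrb_yE hy
      rw [mrb_loc x hs, Finset.mul_sum, ← Finset.sum_filter]
      have h2 : (Finset.Icc 1 (K * M)).filter (fun m => m ∣ e) = e.divisors := by
        ext m
        simp only [Finset.mem_filter, Finset.mem_Icc, Nat.mem_divisors]
        constructor
        · rintro ⟨_, h⟩; exact ⟨h, by omega⟩
        · rintro ⟨h, _⟩
          exact ⟨⟨Nat.pos_of_dvd_of_pos h (by omega), (Nat.le_of_dvd (by omega) h).trans he.2⟩, h⟩
      rw [h2]
      refine Finset.sum_congr rfl (fun m hm => ?_)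
      have hme := Nat.dvd_of_mem_divisors hm
      have hm0 : 0 < m := Nat.pos_of_mem_divisors hm
      have hk0 : 0 < e / m := Nat.div_pos (Nat.le_of_dvd (by omega) hme) hm0
      have h3 : (e : ℝ) = m * ((e / m : ℕ) : ℝ) := by
        rw [← Nat.cast_mul, Nat.mul_div_cancel' hme]
      have hm1 : (0 : ℝ) < m := by exact_mod_cast hm0
      have hk1 : (0 : ℝ) < ((e / m : ℕ) : ℝ) := by exact_mod_cast hk0
      rw [h3]
      have h4 : (m : ℝ) = Real.sqrt m * Real.sqrt m := (Real.mul_self_sqrt hm1.le).symm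
      have h5 : 0 < Real.sqrt m := Real.sqrt_pos.mpr hm1
      generalize ((e / m : ℕ) : ℝ) = k at *
      generalize Real.sqrt (m : ℝ) = r at *
      rw [h4]
      field_simp
  rw [Finset.sum_congr rfl h1, Finset.sum_comm]
  refine Finset.sum_congr rfl (fun m _ => ?_)
  rw [← Finset.sum_filter, Finset.mul_sum, Finset.sum_mul]

lemma mrb_ne {z M K m : ℕ} (h : mrbc z M K m ≠ 0) :
    ∃ e ∈ Finset.Icc 1 (K * M), m ∣ e ∧ yE z M K e ≠ 0 := by
  by_contra hc
  push Not at hc
  apply h
  unfold mrbc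
  rw [Finset.sum_eq_zero, mul_zero]
  intro e he
  rw [Finset.mem_filter] at he
  rw [hc e he.1 he.2, zero_mul]

lemma mrb_len {δ : ℝ} (h0 : 0 < δ) {N : ℕ} (hN : 5 ≤ N) : 2 * MM δ N < N := by
  have hN1 : (1 : ℝ) ≤ N := by exact_mod_cast (by omega : 1 ≤ N)
  have h1 : (MM δ N : ℝ) ≤ (N : ℝ) ^ (1 / 2 - δ) := Nat.floor_le (by positivity)
  have h2 : (N : ℝ) ^ (1 / 2 - δ) ≤ Real.sqrt N := by
    rw [Real.sqrt_eq_rpow]
    exact Real.rpow_le_rpow_of_exponent_le hN1 (by linarith)
  have h3 : 2 * Real.sqrt N < N := by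
    have h4 : Real.sqrt N * Real.sqrt N = N := Real.mul_self_sqrt (by positivity)
    have h5 : 2 < Real.sqrt N := by
      rw [Real.lt_sqrt (by norm_num)]
      have : (5 : ℝ) ≤ N := by exact_mod_cast hN
      linarith
    nlinarith
  have h6 : ((2 * MM δ N : ℕ) : ℝ) < N := by push_cast; linarith
  exact_mod_cast h6

theorem mr_hpoly_pr {δ : ℝ} (h0 : 0 < δ) (h1 : δ < 1 / 4) : ∃ N₀ : ℕ, ∀ N : ℕ, N₀ ≤ N →
    HPoly (Pr N) (2 * MM δ N) (Mr (zz N) (MM δ N) 2) := by
  refine ⟨5, fun N hN => ⟨mrbc (zz N) (MM δ N) 2, ?_, fun x => mrb_exp _ _ _ x⟩⟩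
  intro m hm
  obtain ⟨e, he, hme, hy⟩ := mrb_ne hm
  rw [Finset.mem_Icc] at he
  have hlt := mrb_len h0 hN
  refine ⟨Nat.pos_of_dvd_of_pos hme (by omega), (Nat.le_of_dvd (by omega) hme).trans he.2, ?_⟩
  intro p hp
  have hp' := Nat.mem_primeFactors.mp hp
  unfold Pr
  rw [Finset.mem_filter, Finset.mem_range]
  refine ⟨?_, hp'.1⟩
  have : p ≤ e := Nat.le_of_dvd (by omega) (hp'.2.1.trans hme)
  omega

lemma mrb_abs_mu (m : ℕ) : |mu m| ≤ 1 := by
  unfold mu
  exact_mod_cast ArithmeticFunction.abs_moebius_le_one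

lemma mrb_yE_le {z M K : ℕ} (hM : 2 ≤ M) (hb : |be z M K| ≤ Real.log M) (e : ℕ) (he : 1 ≤ e) :
    |yE z M K e| ≤ 1 / e := by
  have hL : 0 < Real.log M := Real.log_pos (by exact_mod_cast hM)
  have he0 : (0 : ℝ) < e := by exact_mod_cast he
  have hg : |gE z M K e| ≤ Real.log M := by
    unfold gE
    split_ifs with h1 h2
    · have h3 : (1 : ℝ) ≤ (M : ℝ) / e := by
        rw [le_div_iff₀ he0, one_mul]; exact_mod_cast h1
      rw [abs_of_nonneg (Real.log_nonneg h3)]
      apply Real.log_le_log (by linarith)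
      apply div_le_self (by positivity)
      exact_mod_cast he
    · exact hb
    · simpa using hL.le
  unfold yE
  split_ifs with h1
  · rw [abs_div, abs_mul, abs_mul, abs_of_pos he0, abs_of_pos hL, div_le_div_iff₀ (by positivity) he0]
    have := mul_le_mul (mrb_abs_mu e) hg (abs_nonneg _) (by norm_num)
    nlinarith
  · simp only [abs_zero]; positivity

lemma mrb_c_le {z M : ℕ} (hM : 2 ≤ M) (hb : |be z M 2| ≤ Real.log M) (m : ℕ) (hm : 1 ≤ m) :
    mrbc z M 2 m ^ 2 ≤ (∑ r ∈ RO z (2 * M), mu r ^ 2 / phi r) ^ 2 *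
      (if m ∈ RO z (2 * M) then mu m ^ 2 / phi m else 0) := by
  classical
  set R := ∑ r ∈ RO z (2 * M), mu r ^ 2 / phi r with hR
  by_cases hc : mrbc z M 2 m = 0
  · rw [hc]
    have : 0 ≤ (if m ∈ RO z (2 * M) then mu m ^ 2 / phi m else 0) := by
      split_ifs
      · unfold phi; positivity
      · exact le_refl _
    have h0 : (0 : ℝ) ^ 2 = 0 := by norm_num
    rw [h0]
    exact mul_nonneg (sq_nonneg _) this
  · obtain ⟨e, he, hme, hy⟩ := mrb_ne hc
    obtain ⟨hr, he1, hs⟩ := mrb_yE hy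
    rw [Finset.mem_Icc] at he
    have hms : Squarefree m := hs.squarefree_of_dvd hme
    have hmr : rough z m := fun p hp hpm => hr p hp (hpm.trans hme)
    have hmR : m ∈ RO z (2 * M) := by
      unfold RO
      rw [Finset.mem_filter, Finset.mem_Icc]
      exact ⟨⟨hm, (Nat.le_of_dvd (by omega) hme).trans he.2⟩, hmr⟩
    rw [if_pos hmR]
    have hm0 : (0 : ℝ) < m := by exact_mod_cast hm
    -- the inner sum
    have h1 : |∑ e ∈ (Finset.Icc 1 (2 * M)).filter (fun e => m ∣ e), yE z M 2 e * mu (e / m)| ≤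
        R / m := by
      refine (Finset.abs_sum_le_sum_abs _ _).trans ?_
      have h2 : ∀ e ∈ (Finset.Icc 1 (2 * M)).filter (fun e => m ∣ e),
          |yE z M 2 e * mu (e / m)| ≤
          (if e / m ∈ RO z (2 * M) then mu (e / m) ^ 2 / phi (e / m) else 0) / m := by
        intro e he
        rw [Finset.mem_filter, Finset.mem_Icc] at he
        obtain ⟨⟨he1, he2⟩, hme⟩ := he
        by_cases hy : yE z M 2 e = 0
        · rw [hy, zero_mul, abs_zero]
          have : 0 ≤ (if e / m ∈ RO z (2 * M) then mu (e / m) ^ 2 / phi (e / m) else 0) := by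
            split_ifs
            · unfold phi; positivity
            · exact le_refl _
          positivity
        · obtain ⟨hr, _, hs⟩ := mrb_yE hy
          have hk : e / m ∣ e := Nat.div_dvd_of_dvd hme
          have hks : Squarefree (e / m) := hs.squarefree_of_dvd hk
          have hk0 : 0 < e / m := Nat.div_pos (Nat.le_of_dvd (by omega) hme) (by omega)
          have hkR : e / m ∈ RO z (2 * M) := by
            unfold RO
            rw [Finset.mem_filter, Finset.mem_Icc]
            exact ⟨⟨hk0, (Nat.le_of_dvd (by omega) hk).trans he2⟩,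
              fun p hp hpm => hr p hp (hpm.trans hk)⟩
          rw [if_pos hkR, abs_mul]
          have h3 := mrb_yE_le hM hb e he1
          have h4 : (e : ℝ) = m * ((e / m : ℕ) : ℝ) := by
            rw [← Nat.cast_mul, Nat.mul_div_cancel' hme]
          have hk1 : (0 : ℝ) < ((e / m : ℕ) : ℝ) := by exact_mod_cast hk0
          have hmu1 : mu (e / m) ^ 2 = 1 := by
            unfold mu
            have := ArithmeticFunction.moebius_sq_eq_one_of_squarefree hks
            exact_mod_cast this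
          have hphi : phi (e / m) ≤ ((e / m : ℕ) : ℝ) := by
            unfold phi; exact_mod_cast Nat.totient_le _
          have hphi0 : 0 < phi (e / m) := by
            unfold phi; exact_mod_cast Nat.totient_pos.mpr hk0
          calc |yE z M 2 e| * |mu (e / m)| ≤ 1 / e * 1 :=
                mul_le_mul h3 (mrb_abs_mu _) (abs_nonneg _) (by positivity)
            _ = 1 / ((e / m : ℕ) : ℝ) / m := by rw [h4]; field_simp
            _ ≤ mu (e / m) ^ 2 / phi (e / m) / m := by
                rw [hmu1]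
                gcongr
      refine (Finset.sum_le_sum h2).trans ?_
      rw [← Finset.sum_div]
      refine div_le_div_of_nonneg_right ?_ hm0.le
      rw [← Finset.sum_filter]
      have hinj : Set.InjOn (fun e => e / m) (((Finset.Icc 1 (2 * M)).filter (fun e => m ∣ e)).filter
          (fun e => e / m ∈ RO z (2 * M)) : Finset ℕ) := by
        intro a ha b hb hab
        simp only [Finset.coe_filter, Finset.mem_filter, Set.mem_ofPred_eq] at ha hb
        have h1 := Nat.div_mul_cancel ha.1.2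
        have h2 := Nat.div_mul_cancel hb.1.2
        simp only at hab
        rw [← h1, ← h2, hab]
      rw [← Finset.sum_image (g := fun e => e / m) (f := fun k => mu k ^ 2 / phi k) hinj]
      apply Finset.sum_le_sum_of_subset_of_nonneg
      · intro k hk
        rw [Finset.mem_image] at hk
        obtain ⟨e, he, rfl⟩ := hk
        exact (Finset.mem_filter.mp he).2
      · intro k _ _
        unfold phi; positivity
    have h5 : mrbc z M 2 m ^ 2 ≤ m * (R / m) ^ 2 := by
      unfold mrbc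
      rw [mul_pow, Real.sq_sqrt hm0.le]
      refine mul_le_mul_of_nonneg_left ?_ hm0.le
      exact sq_le_sq' (by linarith [neg_abs_le (∑ e ∈ (Finset.Icc 1 (2 * M)).filter (fun e => m ∣ e), yE z M 2 e * mu (e / m))]) ((le_abs_self _).trans h1)
    refine h5.trans ?_
    have hmu1 : mu m ^ 2 = 1 := by
      unfold mu
      have := ArithmeticFunction.moebius_sq_eq_one_of_squarefree hms
      exact_mod_cast this
    have hphi : phi m ≤ (m : ℝ) := by
      unfold phi; exact_mod_cast Nat.totient_le _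
    have hphi0 : 0 < phi m := by
      unfold phi; exact_mod_cast Nat.totient_pos.mpr hm
    rw [hmu1]
    have h6 : (m : ℝ) * (R / m) ^ 2 = R ^ 2 * (1 / m) := by field_simp
    rw [h6]
    gcongr

theorem mr_sq_pr {δ : ℝ} (h0 : 0 < δ) (h1 : δ < 1 / 4) : ∃ (C : ℝ) (N₀ : ℕ), ∀ N : ℕ, N₀ ≤ N →
    ∀ P : Measure (ℕ → ℝ), IsST (Pr N) P →
      ∫ x, Mr (zz N) (MM δ N) 2 x ^ 2 ∂P ≤ C * Real.log (Real.log N) ^ 8 := by
  classical
  obtain ⟨N₁, hN₁⟩ := sizes h0 h1 (ε := 1) one_pos
  obtain ⟨N₂, hN₂⟩ := be_small h0 h1 (ε := 1) one_pos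
  obtain ⟨C, hC, hup⟩ := rsum_up
  refine ⟨(C * 3) ^ 3, max 5 (max N₁ N₂), fun N hN P hP => ?_⟩
  have hN5 : 5 ≤ N := (le_max_left _ _).trans hN
  obtain ⟨hN3, hz2, hzM, _, hlz, hsz, _, hll, _⟩ := hN₁ N ((le_max_left _ _).trans ((le_max_right _ _).trans hN))
  obtain ⟨_, hbe, _⟩ := hN₂ N ((le_max_right _ _).trans ((le_max_right _ _).trans hN))
  rw [one_mul] at hbe
  have hM2 : 2 ≤ MM δ N := by omega
  have hlt := mrb_len h0 hN5
  set z := zz N with hz
  set M := MM δ N with hM
  have hc : ∀ m, mrbc z M 2 m ≠ 0 → 1 ≤ m ∧ m ≤ 2 * M ∧ m.primeFactors ⊆ Pr N := by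
    intro m hm
    obtain ⟨e, he, hme, hy⟩ := mrb_ne hm
    rw [Finset.mem_Icc] at he
    refine ⟨Nat.pos_of_dvd_of_pos hme (by omega), (Nat.le_of_dvd (by omega) hme).trans he.2, ?_⟩
    intro p hp
    have hp' := Nat.mem_primeFactors.mp hp
    unfold Pr
    rw [Finset.mem_filter, Finset.mem_range]
    refine ⟨?_, hp'.1⟩
    have : p ≤ e := Nat.le_of_dvd (by omega) (hp'.2.1.trans hme)
    omega
  have hPr : ∀ p ∈ Pr N, p.Prime := by
    intro p hp
    unfold Pr at hp
    exact (Finset.mem_filter.mp hp).2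
  have h2 : ∫ x, Mr z M 2 x ^ 2 ∂P = ∑ m ∈ Finset.Icc 1 (2 * M), mrbc z M 2 m ^ 2 := by
    rw [← st_sq hPr hP hc]
    refine integral_congr_ae (Eventually.of_forall (fun x => ?_))
    simp only
    rw [mrb_exp]
  rw [h2]
  set R := ∑ r ∈ RO z (2 * M), mu r ^ 2 / phi r with hR
  have hR0 : 0 ≤ R := Finset.sum_nonneg (fun r _ => by unfold phi; positivity)
  have h3 : ∑ m ∈ Finset.Icc 1 (2 * M), mrbc z M 2 m ^ 2 ≤ R ^ 3 := by
    have h4 : ∑ m ∈ Finset.Icc 1 (2 * M), mrbc z M 2 m ^ 2 ≤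
        ∑ m ∈ Finset.Icc 1 (2 * M), R ^ 2 * (if m ∈ RO z (2 * M) then mu m ^ 2 / phi m else 0) :=
      Finset.sum_le_sum (fun m hm => mrb_c_le hM2 hbe m (Finset.mem_Icc.mp hm).1)
    refine h4.trans (le_of_eq ?_)
    rw [← Finset.mul_sum, ← Finset.sum_filter]
    have h5 : (Finset.Icc 1 (2 * M)).filter (fun m => m ∈ RO z (2 * M)) = RO z (2 * M) := by
      ext m
      simp only [Finset.mem_filter]
      constructor
      · exact fun h => h.2
      · intro h
        refine ⟨?_, h⟩
        unfold RO at h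
        exact (Finset.mem_filter.mp h).1
    rw [h5]
    ring
  refine h3.trans ?_
  have hlz0 : 0 < Real.log z := by linarith
  have hll1 : 1 ≤ Real.log (Real.log N) := by linarith
  have h6 : R ≤ C * 3 * Real.log (Real.log N) ^ 2 := by
    refine (hup z (2 * M) hz2 (by omega)).trans ?_
    have h7 : Real.log ((2 * M : ℕ) : ℝ) ≤ Real.log N := by
      apply Real.log_le_log
      · exact_mod_cast (by omega : 0 < 2 * M)
      · exact_mod_cast hlt.le
    have h8 : Real.log ((2 * M : ℕ) : ℝ) / Real.log z ≤ 2 * Real.log (Real.log N) ^ 2 := by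
      rw [div_le_iff₀ hlz0]
      linarith
    have h9 : 1 ≤ Real.log (Real.log N) ^ 2 := one_le_pow₀ hll1
    rw [mul_assoc]
    refine mul_le_mul_of_nonneg_left ?_ hC.le
    linarith
  calc R ^ 3 ≤ (C * 3 * Real.log (Real.log N) ^ 2) ^ 3 := pow_le_pow_left₀ hR0 h6 3
    _ = (C * 3) ^ 3 * Real.log (Real.log N) ^ 6 := by ring
    _ ≤ (C * 3) ^ 3 * Real.log (Real.log N) ^ 8 := by
        refine mul_le_mul_of_nonneg_left ?_ (by positivity)
        exact pow_le_pow_right₀ hll1 (by norm_num)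

theorem mr_hpoly : type_of% @mr_hpoly_pr := @mr_hpoly_pr
theorem mr_sq : type_of% @mr_sq_pr := @mr_sq_pr

end Pool.Agent.KSL
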