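import Pool.Agent.Lib_helper68.KSL.Defs

namespace Pool.Agent.KSL

open Pool.Agent.LEV Pool.Agent.LVB
open Complex MeasureTheory Filter Topology UpperHalfPlane ModularGroup ProbabilityTheory
open scoped MatrixGroups Modular ENNReal ModularForm ComplexConjugate ContDiff

theorem cs_large_pr {ι : Type} [Fintype ι] (o F S : ι → ℝ) (ho : ∀ i, 0 ≤ o i) (hF : ∀ i, 0 ≤ F i)
    (hS : ∀ i, 0 ≤ S i) {m₁ m₂ m₃ κ : ℝ} (hκ : 0 ≤ κ) (h1 : m₁ ≤ ∑ i, o i * (F i * S i))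
    (h2 : ∑ i, o i * F i ^ 2 ≤ m₂) (h3 : ∑ i, o i * S i ^ 2 ≤ m₃) (hm : κ * m₃ ≤ m₁)
    (hm2 : 0 < m₂) (t : Finset ι) (ht : ∀ i, i ∉ t → F i < κ * S i ∨ S i = 0) :
    (m₁ - κ * m₃) ^ 2 / m₂ ≤ ∑ i ∈ t, o i * S i ^ 2 := by
  classical
  have e1 : ∑ i, o i * (F i * S i) = ∑ i ∈ t, o i * (F i * S i) + ∑ i ∈ tᶜ, o i * (F i * S i) :=
    (Finset.sum_add_sum_compl t _).symm
  have e2 : ∑ i ∈ tᶜ, o i * (F i * S i) ≤ κ * ∑ i, o i * S i ^ 2 := by
    rw [Finset.mul_sum]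
    calc ∑ i ∈ tᶜ, o i * (F i * S i) ≤ ∑ i ∈ tᶜ, κ * (o i * S i ^ 2) := by
          apply Finset.sum_le_sum
          intro i hi
          rw [Finset.mem_compl] at hi
          rcases ht i hi with h | h
          · have : F i * S i ≤ κ * S i * S i := mul_le_mul_of_nonneg_right h.le (hS i)
            calc o i * (F i * S i) ≤ o i * (κ * S i * S i) := mul_le_mul_of_nonneg_left this (ho i)
              _ = κ * (o i * S i ^ 2) := by ring
          · rw [h]; simp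
      _ ≤ ∑ i, κ * (o i * S i ^ 2) := by
          apply Finset.sum_le_sum_of_subset_of_nonneg (Finset.subset_univ _)
          intro i _ _
          exact mul_nonneg hκ (mul_nonneg (ho i) (sq_nonneg _))
  have e3 : (∑ i ∈ t, o i * (F i * S i)) ^ 2 ≤ (∑ i ∈ t, o i * F i ^ 2) * ∑ i ∈ t, o i * S i ^ 2 := by
    have := Finset.sum_mul_sq_le_sq_mul_sq t (fun i => Real.sqrt (o i) * F i)
      (fun i => Real.sqrt (o i) * S i)
    have h4 : ∀ i, Real.sqrt (o i) * F i * (Real.sqrt (o i) * S i) = o i * (F i * S i) := by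
      intro i
      calc _ = (Real.sqrt (o i) * Real.sqrt (o i)) * (F i * S i) := by ring
        _ = _ := by rw [Real.mul_self_sqrt (ho i)]
    have h5 : ∀ (g : ι → ℝ) i, (Real.sqrt (o i) * g i) ^ 2 = o i * g i ^ 2 := by
      intro g i
      rw [mul_pow, Real.sq_sqrt (ho i)]
    simp only [h4, h5 F, h5 S] at this
    exact this
  have e4 : ∑ i ∈ t, o i * F i ^ 2 ≤ m₂ := by
    refine le_trans ?_ h2
    apply Finset.sum_le_sum_of_subset_of_nonneg (Finset.subset_univ _)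
    intro i _ _
    exact mul_nonneg (ho i) (sq_nonneg _)
  have e5 : 0 ≤ ∑ i ∈ t, o i * S i ^ 2 := Finset.sum_nonneg fun i _ => mul_nonneg (ho i) (sq_nonneg _)
  have e6 : m₁ - κ * m₃ ≤ ∑ i ∈ t, o i * (F i * S i) := by
    have : κ * ∑ i, o i * S i ^ 2 ≤ κ * m₃ := mul_le_mul_of_nonneg_left h3 hκ
    linarith
  rw [div_le_iff₀ hm2]
  calc (m₁ - κ * m₃) ^ 2 ≤ (∑ i ∈ t, o i * (F i * S i)) ^ 2 :=
        pow_le_pow_left₀ (by linarith) e6 2
    _ ≤ (∑ i ∈ t, o i * F i ^ 2) * ∑ i ∈ t, o i * S i ^ 2 := e3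
    _ ≤ m₂ * ∑ i ∈ t, o i * S i ^ 2 := mul_le_mul_of_nonneg_right e4 e5
    _ = _ := by ring

theorem cs_large : type_of% @cs_large_pr := @cs_large_pr

end Pool.Agent.KSL
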