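import Pool.Agent.Lib_helper68.KSL.Defs

/-!
# KSL, block PHI
-/

set_option autoImplicit false

namespace Pool.Agent.KSL

open Pool.Agent.LEV Pool.Agent.LVB
open Pool.Agent.FG61 (mu phi cc ff AA Lam)

theorem phi_smooth_iff {z m : ℕ} : smooth z m ↔ m ∈ Nat.smoothNumbers (z + 1) := by
  constructor
  · intro h
    rw [Nat.mem_smoothNumbers']
    intro p hp hd
    exact Nat.lt_succ_of_le (h.2 p hp hd)
  · intro h
    refine ⟨Nat.ne_zero_of_mem_smoothNumbers h, fun p hp hd => ?_⟩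
    exact Nat.le_of_lt_succ (Nat.mem_smoothNumbers'.1 h p hp hd)

theorem phi_smooth_dvd {z m d : ℕ} (h : smooth z m) (hd : d ∣ m) : smooth z d :=
  ⟨fun h0 => h.1 (by rw [h0] at hd; exact Nat.eq_zero_of_zero_dvd hd),
    fun p hp hpd => h.2 p hp (hpd.trans hd)⟩

theorem phi_smooth_mul {z m n : ℕ} (hm : smooth z m) (hn : smooth z n) : smooth z (m * n) :=
  ⟨Nat.mul_ne_zero hm.1 hn.1, fun p hp hd => (hp.dvd_mul.1 hd).elim (hm.2 p hp) (hn.2 p hp)⟩

open Classical in
theorem phi_hasSum (z : ℕ) :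
    HasSum (fun m : ℕ => if smooth z m then (1 : ℝ) / m else 0) (Vz z)⁻¹ := by
  let f : ℕ →* ℝ :=
    { toFun := fun m => (m : ℝ)⁻¹
      map_one' := by simp
      map_mul' := by intro a b; push_cast; exact mul_inv _ _ }
  have hf : ∀ {p : ℕ}, p.Prime → ‖f p‖ < 1 := by
    intro p hp
    have h1 : (1 : ℝ) < p := by exact_mod_cast hp.one_lt
    have h2 : ‖f p‖ = (p : ℝ)⁻¹ := by
      show ‖(p : ℝ)⁻¹‖ = _
      rw [Real.norm_of_nonneg (by positivity)]
    rw [h2]
    exact inv_lt_one_of_one_lt₀ h1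
  have h := (EulerProduct.summable_and_hasSum_smoothNumbers_prod_primesBelow_geometric
    (f := f) hf (z + 1)).2
  have h2 : (∏ p ∈ (z + 1).primesBelow, (1 - f p)⁻¹) = (Vz z)⁻¹ := by
    unfold Vz
    rw [← Finset.prod_inv_distrib]
    apply Finset.prod_congr
    · ext p
      simp only [Nat.primesBelow, Finset.mem_filter, Finset.mem_range, Finset.mem_Icc]
      constructor
      · rintro ⟨h1, h2⟩
        exact ⟨⟨h2.one_le, Nat.le_of_lt_succ h1⟩, h2⟩
      · rintro ⟨⟨_, h1⟩, h2⟩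
        exact ⟨Nat.lt_succ_of_le h1, h2⟩
    · intro p _
      show (1 - (p : ℝ)⁻¹)⁻¹ = (1 - 1 / (p : ℝ))⁻¹
      rw [one_div]
  rw [h2] at h
  have h3 := (hasSum_subtype_iff_indicator (s := Nat.smoothNumbers (z + 1))
    (f := fun m : ℕ => f m)).1 h
  convert h3 using 1
  funext m
  by_cases hm : smooth z m
  · rw [if_pos hm, Set.indicator_of_mem (phi_smooth_iff.1 hm), one_div]
    rfl
  · rw [if_neg hm, Set.indicator_of_notMem (fun h => hm (phi_smooth_iff.2 h))]

theorem phi_hasSum_congr {f g : ℕ → ℝ} {s : ℝ} (h : ∀ m, g m = f m) (hf : HasSum f s) :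
    HasSum g s := by
  have : g = f := funext h
  rw [this]; exact hf

open Classical in
theorem phi_hasSum_dvd {z L : ℕ} (hL : smooth z L) :
    HasSum (fun m : ℕ => if smooth z m ∧ L ∣ m then (1 : ℝ) / m else 0)
      ((L : ℝ)⁻¹ * (Vz z)⁻¹) := by
  have h := (phi_hasSum z).mul_left ((L : ℝ)⁻¹)
  have hinj : Function.Injective (fun m : ℕ => L * m) := fun a b hab =>
    Nat.eq_of_mul_eq_mul_left (Nat.pos_of_ne_zero hL.1) hab
  rw [← hinj.hasSum_iff]
  · refine phi_hasSum_congr ?_ h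
    intro m
    by_cases hm : smooth z m
    · have h1 : smooth z (L * m) ∧ L ∣ L * m := ⟨phi_smooth_mul hL hm, dvd_mul_right _ _⟩
      simp only [Function.comp]
      rw [if_pos h1, if_pos hm]
      push_cast
      rw [one_div, one_div, mul_inv]
    · have h1 : ¬ (smooth z (L * m) ∧ L ∣ L * m) := fun h =>
        hm (phi_smooth_dvd h.1 (dvd_mul_left _ _))
      simp only [Function.comp]
      rw [if_neg h1, if_neg hm, mul_zero]
  · intro m hm
    rw [if_neg]
    rintro ⟨-, k, rfl⟩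
    exact hm ⟨k, rfl⟩

theorem phi_Vz_pos (z : ℕ) : 0 < Vz z := by
  unfold Vz
  apply Finset.prod_pos
  intro p hp
  have h1 : (1 : ℝ) < p := by exact_mod_cast (Finset.mem_filter.1 hp).2.one_lt
  have h2 : 1 / (p : ℝ) < 1 := by
    rw [div_lt_one (by linarith)]; exact h1
  linarith

/-- the coefficients after summing over the multiples -/
noncomputable def phi_B (A : ℕ) (a : ℕ → ℝ) (d : ℕ) : ℝ :=
  ∑ k ∈ Finset.Icc 1 A, if d ∣ k then a k / Real.sqrt k else 0

theorem phi_Ph (A : ℕ) (a : ℕ → ℝ) (m : ℕ) :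
    Ph A a m = ∑ d ∈ Finset.Icc 1 A, if d ∣ m then (d : ℝ) * phi_B A a d else 0 := by
  have h1 : ∀ k ∈ Finset.Icc 1 A, (∑ d ∈ (Nat.gcd k m).divisors, (d : ℝ)) =
      ∑ d ∈ Finset.Icc 1 A, if d ∣ m ∧ d ∣ k then (d : ℝ) else 0 := by
    intro k hk
    rw [Finset.mem_Icc] at hk
    rw [← Finset.sum_filter]
    apply Finset.sum_congr _ (fun _ _ => rfl)
    ext d
    simp only [Nat.mem_divisors, Finset.mem_filter, Finset.mem_Icc]
    constructor
    · rintro ⟨h1, -⟩
      have h2 := (Nat.dvd_gcd_iff.1 h1)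
      exact ⟨⟨Nat.pos_of_dvd_of_pos h2.1 (by omega), (Nat.le_of_dvd (by omega) h2.1).trans hk.2⟩,
        h2.2, h2.1⟩
    · rintro ⟨-, h1, h2⟩
      exact ⟨Nat.dvd_gcd h2 h1, (Nat.gcd_pos_of_pos_left _ (by omega)).ne'⟩
  unfold Ph phi_B
  calc ∑ k ∈ Finset.Icc 1 A, a k / Real.sqrt k * ∑ d ∈ (Nat.gcd k m).divisors, (d : ℝ)
      = ∑ k ∈ Finset.Icc 1 A, ∑ d ∈ Finset.Icc 1 A,
          (if d ∣ m ∧ d ∣ k then a k / Real.sqrt k * (d : ℝ) else 0) := by
        refine Finset.sum_congr rfl fun k hk => ?_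
        rw [h1 k hk, Finset.mul_sum]
        refine Finset.sum_congr rfl fun d _ => ?_
        split_ifs <;> simp
    _ = ∑ d ∈ Finset.Icc 1 A, ∑ k ∈ Finset.Icc 1 A,
          (if d ∣ m ∧ d ∣ k then a k / Real.sqrt k * (d : ℝ) else 0) := Finset.sum_comm
    _ = _ := by
        refine Finset.sum_congr rfl fun d _ => ?_
        by_cases hd : d ∣ m
        · rw [if_pos hd, Finset.mul_sum]
          refine Finset.sum_congr rfl fun k _ => ?_
          by_cases hk : d ∣ k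
          · rw [if_pos ⟨hd, hk⟩, if_pos hk, mul_comm]
          · rw [if_neg (fun h => hk h.2), if_neg hk, mul_zero]
        · rw [if_neg hd]
          exact Finset.sum_eq_zero fun k _ => if_neg fun h => hd h.1

theorem phi_al_eq (A : ℕ) (a : ℕ → ℝ) {u : ℕ} (hu : 1 ≤ u) :
    al A a u = ∑ d ∈ Finset.Icc 1 A, if u ∣ d then phi_B A a d else 0 := by
  have h1 : ∀ k ∈ Finset.Icc 1 A, u ∣ k → ((k / u).divisors.card : ℝ) =
      ∑ d ∈ Finset.Icc 1 A, if u ∣ d ∧ d ∣ k then (1 : ℝ) else 0 := by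
    intro k hk huk
    rw [Finset.mem_Icc] at hk
    rw [← Finset.sum_filter, Finset.sum_const, nsmul_eq_mul, mul_one]
    congr 1
    have hku : 0 < k / u := Nat.div_pos (Nat.le_of_dvd (by omega) huk) (by omega)
    refine Finset.card_bij (fun e _ => u * e) ?_ ?_ ?_
    · intro e he
      have h1 := Nat.dvd_of_mem_divisors he
      have h2 : u * e ∣ k := by
        calc u * e ∣ u * (k / u) := Nat.mul_dvd_mul_left u h1
          _ = k := Nat.mul_div_cancel' huk
      rw [Finset.mem_filter, Finset.mem_Icc]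
      exact ⟨⟨Nat.pos_of_dvd_of_pos h2 (by omega), (Nat.le_of_dvd (by omega) h2).trans hk.2⟩,
        dvd_mul_right _ _, h2⟩
    · intro e _ e' _ h
      exact Nat.eq_of_mul_eq_mul_left (by omega) h
    · intro d hd
      rw [Finset.mem_filter, Finset.mem_Icc] at hd
      obtain ⟨-, ⟨e, rfl⟩, h2⟩ := hd
      refine ⟨e, ?_, rfl⟩
      rw [Nat.mem_divisors]
      refine ⟨?_, hku.ne'⟩
      obtain ⟨c, rfl⟩ := h2
      rw [mul_assoc, Nat.mul_div_cancel_left _ (by omega)]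
      exact dvd_mul_right _ _
  unfold al phi_B
  rw [Finset.sum_filter]
  calc ∑ k ∈ Finset.Icc 1 A, (if u ∣ k then
        a k / Real.sqrt k * ((k / u).divisors.card : ℝ) else 0)
      = ∑ k ∈ Finset.Icc 1 A, ∑ d ∈ Finset.Icc 1 A,
          (if u ∣ d ∧ d ∣ k then a k / Real.sqrt k else 0) := by
        refine Finset.sum_congr rfl fun k hk => ?_
        by_cases huk : u ∣ k
        · rw [if_pos huk, h1 k hk huk, Finset.mul_sum]
          refine Finset.sum_congr rfl fun d _ => ?_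
          split_ifs <;> simp
        · rw [if_neg huk]
          symm
          exact Finset.sum_eq_zero fun d _ => if_neg fun h => huk (h.1.trans h.2)
    _ = ∑ d ∈ Finset.Icc 1 A, ∑ k ∈ Finset.Icc 1 A,
          (if u ∣ d ∧ d ∣ k then a k / Real.sqrt k else 0) := Finset.sum_comm
    _ = _ := by
        refine Finset.sum_congr rfl fun d _ => ?_
        by_cases hd : u ∣ d
        · rw [if_pos hd]
          refine Finset.sum_congr rfl fun k _ => ?_
          by_cases hk : d ∣ k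
          · rw [if_pos ⟨hd, hk⟩, if_pos hk]
          · rw [if_neg (fun h => hk h.2), if_neg hk]
        · rw [if_neg hd]
          exact Finset.sum_eq_zero fun k _ => if_neg fun h => hd h.1

theorem phi_B_smooth {z A : ℕ} {a : ℕ → ℝ} (ha : ∀ k, a k ≠ 0 → smooth z k ∧ k ≤ A) {d : ℕ}
    (hd : phi_B A a d ≠ 0) : smooth z d := by
  obtain ⟨k, _, hk2⟩ := Finset.exists_ne_zero_of_sum_ne_zero hd
  by_cases h : d ∣ k
  · rw [if_pos h] at hk2
    have h1 : a k ≠ 0 := by
      rintro h0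
      rw [h0, zero_div] at hk2
      exact hk2 rfl
    exact phi_smooth_dvd (ha k h1).1 h
  · rw [if_neg h] at hk2
    exact absurd rfl hk2

theorem phi_gcd {A d d' : ℕ} (hd : d ∈ Finset.Icc 1 A) :
    ((Nat.gcd d d' : ℕ) : ℝ) = ∑ u ∈ Finset.Icc 1 A, if u ∣ d ∧ u ∣ d' then phi u else 0 := by
  rw [Finset.mem_Icc] at hd
  have hg : 0 < Nat.gcd d d' := Nat.gcd_pos_of_pos_left _ (by omega)
  rw [← Finset.sum_filter]
  have h1 : (Finset.Icc 1 A).filter (fun u => u ∣ d ∧ u ∣ d') = (Nat.gcd d d').divisors := by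
    ext u
    simp only [Nat.mem_divisors, Finset.mem_filter, Finset.mem_Icc]
    constructor
    · rintro ⟨-, h1, h2⟩
      exact ⟨Nat.dvd_gcd h1 h2, hg.ne'⟩
    · rintro ⟨h1, -⟩
      have h2 := (Nat.dvd_gcd_iff.1 h1)
      exact ⟨⟨Nat.pos_of_dvd_of_pos h2.1 (by omega), (Nat.le_of_dvd (by omega) h2.1).trans hd.2⟩, h2⟩
  rw [h1]
  have h2 := Nat.sum_totient (Nat.gcd d d')
  rw [← Nat.cast_sum, h2]

open Classical in
theorem phi_al_pr {z A : ℕ} {a : ℕ → ℝ} (ha : ∀ k, a k ≠ 0 → smooth z k ∧ k ≤ A) :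
    Summable (fun m : ℕ => if smooth z m then Ph A a m ^ 2 / m else 0) ∧
    ∑ u ∈ Finset.Icc 1 A, phi u * al A a u ^ 2 = Vz z * cn z A a := by
  set B := phi_B A a with hB
  have hV := phi_Vz_pos z
  have key : HasSum (fun m : ℕ => if smooth z m then Ph A a m ^ 2 / m else 0)
      (∑ d ∈ Finset.Icc 1 A, ∑ d' ∈ Finset.Icc 1 A,
        (d : ℝ) * B d * (d' * B d') * (((Nat.lcm d d' : ℕ) : ℝ)⁻¹ * (Vz z)⁻¹)) := by
    have h1 : (fun m : ℕ => if smooth z m then Ph A a m ^ 2 / m else 0) =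
        fun m : ℕ => ∑ d ∈ Finset.Icc 1 A, ∑ d' ∈ Finset.Icc 1 A,
          (d : ℝ) * B d * (d' * B d') *
            (if smooth z m ∧ Nat.lcm d d' ∣ m then (1 : ℝ) / m else 0) := by
      funext m
      by_cases hm : smooth z m
      · rw [if_pos hm, phi_Ph, sq, Finset.sum_mul_sum, Finset.sum_div]
        refine Finset.sum_congr rfl fun d _ => ?_
        rw [Finset.sum_div]
        refine Finset.sum_congr rfl fun d' _ => ?_
        by_cases h1 : d ∣ m
        · by_cases h2 : d' ∣ m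
          · rw [if_pos h1, if_pos h2, if_pos ⟨hm, Nat.lcm_dvd h1 h2⟩]
            ring
          · have hn : ¬ (smooth z m ∧ Nat.lcm d d' ∣ m) :=
              fun h => h2 ((Nat.dvd_lcm_right _ _).trans h.2)
            rw [if_neg h2, if_neg hn]
            ring
        · have hn : ¬ (smooth z m ∧ Nat.lcm d d' ∣ m) :=
            fun h => h1 ((Nat.dvd_lcm_left _ _).trans h.2)
          rw [if_neg h1, if_neg hn]
          ring
      · rw [if_neg hm]
        symm
        refine Finset.sum_eq_zero fun d _ => Finset.sum_eq_zero fun d' _ => ?_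
        rw [if_neg (fun h => hm h.1), mul_zero]
    rw [h1]
    refine hasSum_sum fun d _ => hasSum_sum fun d' _ => ?_
    by_cases hd : B d = 0
    · simp only [hd, mul_zero, zero_mul]
      exact hasSum_zero
    by_cases hd' : B d' = 0
    · simp only [hd', mul_zero, zero_mul]
      exact hasSum_zero
    have h2 : smooth z (Nat.lcm d d') :=
      phi_smooth_dvd (phi_smooth_mul (phi_B_smooth ha hd) (phi_B_smooth ha hd'))
        (Nat.lcm_dvd_mul d d')
    exact (phi_hasSum_dvd h2).mul_left _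
  refine ⟨key.summable, ?_⟩
  have hcn : cn z A a = _ := key.tsum_eq
  rw [hcn, Finset.mul_sum]
  have h3 : ∀ d ∈ Finset.Icc 1 A, ∀ d' ∈ Finset.Icc 1 A,
      Vz z * ((d : ℝ) * B d * (d' * B d') * (((Nat.lcm d d' : ℕ) : ℝ)⁻¹ * (Vz z)⁻¹)) =
        ∑ u ∈ Finset.Icc 1 A, (if u ∣ d ∧ u ∣ d' then phi u else 0) * (B d * B d') := by
    intro d hd d' hd'
    rw [← Finset.sum_mul, ← phi_gcd hd]
    rw [Finset.mem_Icc] at hd hd'
    have h4 : ((Nat.gcd d d' : ℕ) : ℝ) * ((Nat.lcm d d' : ℕ) : ℝ) = d * d' := by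
      rw [← Nat.cast_mul, Nat.gcd_mul_lcm, Nat.cast_mul]
    have h5 : ((Nat.lcm d d' : ℕ) : ℝ) ≠ 0 := by
      have := Nat.lcm_pos (m := d) (n := d') (by omega) (by omega)
      exact_mod_cast this.ne'
    calc Vz z * ((d : ℝ) * B d * (d' * B d') * (((Nat.lcm d d' : ℕ) : ℝ)⁻¹ * (Vz z)⁻¹))
        = (Vz z * (Vz z)⁻¹) * ((d : ℝ) * d') * ((Nat.lcm d d' : ℕ) : ℝ)⁻¹ * (B d * B d') := by ring
      _ = ((Nat.gcd d d' : ℕ) : ℝ) * (((Nat.lcm d d' : ℕ) : ℝ) * ((Nat.lcm d d' : ℕ) : ℝ)⁻¹) *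
            (B d * B d') := by
          rw [mul_inv_cancel₀ hV.ne', ← h4]; ring
      _ = _ := by rw [mul_inv_cancel₀ h5, mul_one]
  symm
  calc ∑ d ∈ Finset.Icc 1 A, Vz z * ∑ d' ∈ Finset.Icc 1 A,
        (d : ℝ) * B d * (d' * B d') * (((Nat.lcm d d' : ℕ) : ℝ)⁻¹ * (Vz z)⁻¹)
      = ∑ d ∈ Finset.Icc 1 A, ∑ d' ∈ Finset.Icc 1 A, ∑ u ∈ Finset.Icc 1 A,
          (if u ∣ d ∧ u ∣ d' then phi u else 0) * (B d * B d') := by
        refine Finset.sum_congr rfl fun d hd => ?_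
        rw [Finset.mul_sum]
        exact Finset.sum_congr rfl fun d' hd' => h3 d hd d' hd'
    _ = ∑ d ∈ Finset.Icc 1 A, ∑ u ∈ Finset.Icc 1 A, ∑ d' ∈ Finset.Icc 1 A,
          (if u ∣ d ∧ u ∣ d' then phi u else 0) * (B d * B d') :=
        Finset.sum_congr rfl fun d _ => Finset.sum_comm
    _ = ∑ u ∈ Finset.Icc 1 A, ∑ d ∈ Finset.Icc 1 A, ∑ d' ∈ Finset.Icc 1 A,
          (if u ∣ d ∧ u ∣ d' then phi u else 0) * (B d * B d') := Finset.sum_comm
    _ = _ := by
        refine Finset.sum_congr rfl fun u hu => ?_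
        rw [phi_al_eq A a (Finset.mem_Icc.1 hu).1, sq, Finset.sum_mul_sum, Finset.mul_sum]
        refine Finset.sum_congr rfl fun d _ => ?_
        rw [Finset.mul_sum]
        refine Finset.sum_congr rfl fun d' _ => ?_
        by_cases h1 : u ∣ d
        · by_cases h2 : u ∣ d'
          · rw [if_pos ⟨h1, h2⟩, if_pos h1, if_pos h2]
          · rw [if_neg (fun h => h2 h.2), if_neg h2]; ring
        · rw [if_neg (fun h => h1 h.1), if_neg h1]; ring

theorem phi_al : type_of% @phi_al_pr := @phi_al_pr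

end Pool.Agent.KSL
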