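import Pool.Agent.Lib_helper68.KSL.Defs

/-! KSL, block SRO. -/

namespace Pool.Agent.KSL

open Pool.Agent.LEV Pool.Agent.LVB
open Pool.Agent.FG61 (mu phi cc ff AA Lam)
open Complex MeasureTheory Filter Topology UpperHalfPlane ModularGroup ProbabilityTheory
open scoped MatrixGroups Modular ENNReal ModularForm ComplexConjugate ContDiff

theorem SRO_prime_mem {s : Finset ℕ} {f : ℕ → ℕ} (hs : ∀ q ∈ s, q.Prime) {p : ℕ} (hp : p.Prime)
    (h : p ∣ ∏ q ∈ s, q ^ f q) : p ∈ s := by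
  obtain ⟨q, hq, h1⟩ := (Prime.dvd_finset_prod_iff hp.prime _).1 h
  have h2 := hp.dvd_of_dvd_pow h1
  rw [(Nat.prime_dvd_prime_iff_eq hp (hs q hq)).1 h2]
  exact hq

theorem SRO_smp_smooth (z n : ℕ) : smooth z (smp z n) := by
  constructor
  · unfold smp
    refine Finset.prod_ne_zero_iff.2 fun p hp => pow_ne_zero _ ?_
    exact (Nat.prime_of_mem_primeFactors (Finset.mem_filter.1 hp).1).ne_zero
  · intro p hp h
    have := SRO_prime_mem (fun q hq => Nat.prime_of_mem_primeFactors (Finset.mem_filter.1 hq).1) hp h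
    exact (Finset.mem_filter.1 this).2

theorem SRO_rop_rough (z n : ℕ) : rough z (rop z n) := by
  intro p hp h
  have := SRO_prime_mem (fun q hq => Nat.prime_of_mem_primeFactors (Finset.mem_filter.1 hq).1) hp h
  exact (Finset.mem_filter.1 this).2

theorem SRO_rop_pos (z n : ℕ) : 1 ≤ rop z n := by
  rw [Nat.one_le_iff_ne_zero]
  unfold rop
  refine Finset.prod_ne_zero_iff.2 fun p hp => pow_ne_zero _ ?_
  exact (Nat.prime_of_mem_primeFactors (Finset.mem_filter.1 hp).1).ne_zero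

theorem SRO_coprime {z u r : ℕ} (hu : smooth z u) (hr : rough z r) : u.Coprime r := by
  rw [Nat.coprime_iff_gcd_eq_one]
  by_contra h
  obtain ⟨p, hp, h1⟩ := Nat.exists_prime_and_dvd h
  have h2 := hu.2 p hp (h1.trans (Nat.gcd_dvd_left _ _))
  have h3 := hr p hp (h1.trans (Nat.gcd_dvd_right _ _))
  omega

/-- smooth and rough part -/
theorem smp_rop_pr {z n : ℕ} (hn : 1 ≤ n) : smp z n * rop z n = n ∧ (smp z n).Coprime (rop z n) ∧
    smooth z (smp z n) ∧ rough z (rop z n) ∧ 1 ≤ rop z n := by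
  refine ⟨?_, SRO_coprime (SRO_smp_smooth z n) (SRO_rop_rough z n), SRO_smp_smooth z n,
    SRO_rop_rough z n, SRO_rop_pos z n⟩
  unfold smp rop
  have h1 : (n.primeFactors.filter fun p => z < p) = n.primeFactors.filter fun p => ¬ p ≤ z := by
    apply Finset.filter_congr
    intro p _
    exact not_le.symm
  rw [h1, Finset.prod_filter_mul_prod_filter_not]
  exact Nat.prod_factorization_pow_eq_self (by omega)

theorem SRO_unique {z u r u' r' : ℕ} (hu : smooth z u) (hr : rough z r) (hu' : smooth z u')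
    (hr' : rough z r') (hr1 : 1 ≤ r) (h : u * r = u' * r') : u = u' ∧ r = r' := by
  have h1 : u ∣ u' := by
    have : u ∣ u' * r' := ⟨r, h.symm⟩
    exact (SRO_coprime hu hr').dvd_of_dvd_mul_right this
  have h2 : u' ∣ u := by
    have : u' ∣ u * r := ⟨r', h⟩
    exact (SRO_coprime hu' hr).dvd_of_dvd_mul_right this
  have h3 := Nat.dvd_antisymm h1 h2
  refine ⟨h3, ?_⟩
  rw [h3] at h
  exact Nat.eq_of_mul_eq_mul_left (Nat.pos_of_ne_zero hu'.1) h

theorem smp_mul_pr {z u r : ℕ} (hu : smooth z u) (hr : rough z r) (hr1 : 1 ≤ r) :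
    smp z (u * r) = u ∧ rop z (u * r) = r := by
  have hn : 1 ≤ u * r := Nat.mul_pos (Nat.pos_of_ne_zero hu.1) hr1
  obtain ⟨h1, _, h3, h4, h5⟩ := smp_rop_pr (z := z) hn
  exact SRO_unique h3 h4 hu hr h5 h1

theorem al_supp_pr {z A : ℕ} {a : ℕ → ℝ} (ha : ∀ k, a k ≠ 0 → smooth z k ∧ k ≤ A) {u : ℕ}
    (hu : al A a u ≠ 0) : smooth z u ∧ u ≤ A := by
  unfold al at hu
  obtain ⟨k, hk, h1⟩ := Finset.exists_ne_zero_of_sum_ne_zero hu
  rw [Finset.mem_filter, Finset.mem_Icc] at hk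
  have h2 : a k ≠ 0 := by
    intro h
    apply h1
    rw [h]; simp
  obtain ⟨h3, h4⟩ := ha k h2
  refine ⟨⟨?_, fun p hp h => h3.2 p hp (h.trans hk.2)⟩, (Nat.le_of_dvd (by omega) hk.2).trans h4⟩
  intro h
  rw [h] at hk
  have := Nat.eq_zero_of_zero_dvd hk.2
  omega

theorem wr_supp_pr {z M K r : ℕ} (hr : wr z M K r ≠ 0) : rough z r ∧ 1 ≤ r ∧ Squarefree r ∧
    r ≤ K * M := by
  unfold wr at hr
  obtain ⟨m, hm, h1⟩ := Finset.exists_ne_zero_of_sum_ne_zero hr
  rw [Finset.mem_Icc] at hm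
  unfold yE at h1
  have hc : rough z (r * m) ∧ 1 ≤ r * m := by
    by_contra hc
    exact h1 (if_neg hc)
  have h4 : mu (r * m) * gE z M K (r * m) ≠ 0 := by
    rw [if_pos hc] at h1
    intro h0
    apply h1
    rw [h0, zero_div]
  obtain ⟨h2, h3⟩ := hc
  have hr1 : 1 ≤ r := by
    rw [Nat.one_le_iff_ne_zero]
    intro h; rw [h] at h3; omega
  have h5 : mu (r * m) ≠ 0 := by
    intro h; apply h4; rw [h]; simp
  have h6 : gE z M K (r * m) ≠ 0 := by
    intro h; apply h4; rw [h]; simp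
  have h7 : Squarefree (r * m) := by
    by_contra h
    apply h5
    unfold mu
    rw [ArithmeticFunction.moebius_eq_zero_of_not_squarefree h]
    simp
  have h8 : r * m ≤ K * M := by
    unfold gE at h6
    split_ifs at h6 with h9 h10
    · have hK : 1 ≤ K := by
        rw [Nat.one_le_iff_ne_zero]
        intro h; rw [h] at hm; omega
      exact h9.trans (Nat.le_mul_of_pos_left _ hK)
    · unfold PK at h10
      rw [Finset.mem_filter, Finset.mem_Ioc] at h10
      exact h10.1.2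
    · exact absurd rfl h6
  refine ⟨fun p hp h => h2 p hp (h.mul_right _), hr1, h7.of_mul_left, ?_⟩
  exact (Nat.le_mul_of_pos_right r (by omega)).trans h8

/-- sums over all weights split -/
theorem wa_sum_pr {z M K A : ℕ} {a : ℕ → ℝ} (ha : ∀ k, a k ≠ 0 → smooth z k ∧ k ≤ A)
    (F : ℕ → ℂ) : ∑ q ∈ Finset.Icc 1 (QA M K A), (wA z M K A a q : ℂ) * F q =
      ∑ u ∈ Finset.Icc 1 A, ∑ r ∈ Finset.Icc 1 (K * M),
        (al A a u : ℂ) * (wr z M K r : ℂ) * F (u * r) := by
  rw [← Finset.sum_product']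
  symm
  refine Finset.sum_bij_ne_zero (fun x _ _ => x.1 * x.2) ?_ ?_ ?_ ?_
  · rintro ⟨u, r⟩ hx _
    rw [Finset.mem_product, Finset.mem_Icc, Finset.mem_Icc] at hx
    rw [Finset.mem_Icc]
    refine ⟨Nat.mul_pos hx.1.1 hx.2.1, ?_⟩
    unfold QA
    rw [mul_comm]
    exact Nat.mul_le_mul hx.2.2 hx.1.2
  · rintro ⟨u, r⟩ hx hx0 ⟨u', r'⟩ hx' hx0' h
    have h1 : al A a u ≠ 0 ∧ wr z M K r ≠ 0 := by
      constructor
      · intro h0; apply hx0; simp only [h0]; simp
      · intro h0; apply hx0; simp only [h0]; simp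
    have h1' : al A a u' ≠ 0 ∧ wr z M K r' ≠ 0 := by
      constructor
      · intro h0; apply hx0'; simp only [h0]; simp
      · intro h0; apply hx0'; simp only [h0]; simp
    have h2 := SRO_unique (al_supp_pr ha h1.1).1 (wr_supp_pr h1.2).1 (al_supp_pr ha h1'.1).1
      (wr_supp_pr h1'.2).1 (wr_supp_pr h1.2).2.1 h
    exact Prod.ext h2.1 h2.2
  · intro q hq hq0
    rw [Finset.mem_Icc] at hq
    obtain ⟨h1, h2, h3, h4, h5⟩ := smp_rop_pr (z := z) hq.1
    have h6 : al A a (smp z q) ≠ 0 ∧ wr z M K (rop z q) ≠ 0 := by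
      constructor
      · intro h0; apply hq0; unfold wA; rw [h0]; simp
      · intro h0; apply hq0; unfold wA; rw [h0]; simp
    have h7 : (smp z q, rop z q) ∈ Finset.Icc 1 A ×ˢ Finset.Icc 1 (K * M) := by
      rw [Finset.mem_product, Finset.mem_Icc, Finset.mem_Icc]
      exact ⟨⟨Nat.pos_of_ne_zero h3.1, (al_supp_pr ha h6.1).2⟩, h5, (wr_supp_pr h6.2).2.2.2⟩
    refine ⟨(smp z q, rop z q), h7, ?_, h1⟩
    simp only [h1]
    unfold wA at hq0
    push_cast at hq0
    exact hq0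
  · rintro ⟨u, r⟩ hx hx0
    have h1 : al A a u ≠ 0 ∧ wr z M K r ≠ 0 := by
      constructor
      · intro h0; apply hx0; simp only [h0]; simp
      · intro h0; apply hx0; simp only [h0]; simp
    obtain ⟨h2, h3⟩ := smp_mul_pr (al_supp_pr ha h1.1).1 (wr_supp_pr h1.2).1 (wr_supp_pr h1.2).2.1
    simp only [wA, h2, h3]
    push_cast
    rfl

theorem smp_rop : type_of% @smp_rop_pr := @smp_rop_pr
theorem smp_mul : type_of% @smp_mul_pr := @smp_mul_pr
theorem wa_sum : type_of% @wa_sum_pr := @wa_sum_pr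
theorem al_supp : type_of% @al_supp_pr := @al_supp_pr
theorem wr_supp : type_of% @wr_supp_pr := @wr_supp_pr

end Pool.Agent.KSL
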