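import Pool.Agent.Lib_helper68.KSL.Defs
import Pool.Agent.Lib_helper61.FG.P.CD
import Pool.Agent.Lib_helper68.KSLF.SRO

/-! KSL, block WWF: the Fourier coefficients of the functional factor. -/

namespace Pool.Agent.KSL

open Pool.Agent.LEV Pool.Agent.LVB
open Pool.Agent.FG61 (mu phi cc ff AA Lam)
open Complex MeasureTheory Filter Topology UpperHalfPlane ModularGroup ProbabilityTheory
open scoped MatrixGroups Modular ENNReal ModularForm ComplexConjugate ContDiff

/-! ### Ramanujan sums -/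

/-- the divisors of `n`, weighted by themselves -/
noncomputable def wwf_g (n : ℕ) : ArithmeticFunction ℝ :=
  ⟨fun t => if t ∣ n then (t : ℝ) else 0, by simp⟩

theorem wwf_g_apply (n t : ℕ) : wwf_g n t = if t ∣ n then (t : ℝ) else 0 := rfl

/-- the Ramanujan sums -/
noncomputable def wwf_C (n : ℕ) : ArithmeticFunction ℝ :=
  wwf_g n * ((ArithmeticFunction.moebius : ArithmeticFunction ℤ) : ArithmeticFunction ℝ)

theorem wwf_C_apply (n : ℕ) {r : ℕ} (hr : 1 ≤ r) : wwf_C n r = cc r n := by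
  rw [wwf_C, ArithmeticFunction.mul_apply,
    Nat.sum_divisorsAntidiagonal (fun a b => wwf_g n a *
      ((ArithmeticFunction.moebius : ArithmeticFunction ℤ) : ArithmeticFunction ℝ) b),
    Pool.Agent.FG61.CD_cc r n hr]
  refine Finset.sum_congr rfl fun t _ => ?_
  rw [wwf_g_apply, ArithmeticFunction.intCoe_apply]
  split_ifs <;> simp

theorem wwf_g_mult (n : ℕ) : (wwf_g n).IsMultiplicative := by
  refine ⟨by simp [wwf_g_apply], ?_⟩
  intro a b hab
  rw [wwf_g_apply, wwf_g_apply, wwf_g_apply]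
  by_cases h : a * b ∣ n
  · rw [if_pos h, if_pos (dvd_of_mul_right_dvd h), if_pos (dvd_of_mul_left_dvd h)]
    push_cast
    rfl
  · rw [if_neg h]
    by_cases h1 : a ∣ n
    · by_cases h2 : b ∣ n
      · exact absurd (hab.mul_dvd_of_dvd_of_dvd h1 h2) h
      · rw [if_neg h2, mul_zero]
    · rw [if_neg h1, zero_mul]

theorem wwf_cc_mul (n : ℕ) {u r : ℕ} (hu : 1 ≤ u) (hr : 1 ≤ r) (h : u.Coprime r) :
    cc (u * r) n = cc u n * cc r n := by
  rw [← wwf_C_apply n hu, ← wwf_C_apply n hr, ← wwf_C_apply n (Nat.mul_pos hu hr)]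
  exact ((wwf_g_mult n).mul
    ArithmeticFunction.isMultiplicative_moebius.intCast).map_mul_of_coprime h

theorem wwf_zC (n : ℕ) :
    (((ArithmeticFunction.zeta : ArithmeticFunction ℕ) : ArithmeticFunction ℝ)) * wwf_C n =
      wwf_g n := by
  rw [wwf_C, mul_comm (wwf_g n), ← mul_assoc, ArithmeticFunction.coe_zeta_mul_coe_moebius, one_mul]

theorem wwf_sum_cc (n : ℕ) {m : ℕ} (hm : 1 ≤ m) :
    ∑ r ∈ m.divisors, cc r n = if m ∣ n then (m : ℝ) else 0 := by
  have h := congrArg (fun f : ArithmeticFunction ℝ => f m) (wwf_zC n)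
  simp only [ArithmeticFunction.coe_zeta_mul_apply] at h
  rw [wwf_g_apply] at h
  rw [← h]
  refine Finset.sum_congr rfl fun r hr => (wwf_C_apply n (Nat.pos_of_mem_divisors hr)).symm

theorem wwf_sum_tau (n : ℕ) {k : ℕ} (hk : 1 ≤ k) :
    ∑ u ∈ k.divisors, ((k / u).divisors.card : ℝ) * cc u n =
      ∑ d ∈ (Nat.gcd k n).divisors, (d : ℝ) := by
  set Z : ArithmeticFunction ℝ :=
    ((ArithmeticFunction.zeta : ArithmeticFunction ℕ) : ArithmeticFunction ℝ) with hZ
  have h1 : wwf_C n * (Z * Z) = Z * wwf_g n := by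
    rw [← wwf_zC n, ← hZ]; ring
  have h2 : ∀ m : ℕ, (Z * Z) m = (m.divisors.card : ℝ) := by
    intro m
    rw [hZ, ArithmeticFunction.coe_zeta_mul_apply]
    rw [Finset.sum_congr rfl (g := fun _ => (1 : ℝ)), Finset.sum_const, nsmul_eq_mul, mul_one]
    intro i hi
    rw [ArithmeticFunction.natCoe_apply, ArithmeticFunction.zeta_apply_ne
      (Nat.pos_of_mem_divisors hi).ne', Nat.cast_one]
  have h3 : (wwf_C n * (Z * Z)) k = (Z * wwf_g n) k := by rw [h1]
  rw [ArithmeticFunction.mul_apply, hZ, ArithmeticFunction.coe_zeta_mul_apply, ← hZ,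
    Nat.sum_divisorsAntidiagonal (fun a b => wwf_C n a * (Z * Z) b)] at h3
  have h4 : ∑ u ∈ k.divisors, ((k / u).divisors.card : ℝ) * cc u n =
      ∑ i ∈ k.divisors, wwf_C n i * (Z * Z) (k / i) := by
    refine Finset.sum_congr rfl fun u hu => ?_
    rw [wwf_C_apply n (Nat.pos_of_mem_divisors hu), h2, mul_comm]
  rw [h4, h3]
  have h5 : k.divisors.filter (fun c => c ∣ n) = (Nat.gcd k n).divisors := by
    ext c
    rw [Finset.mem_filter, Nat.mem_divisors, Nat.mem_divisors, Nat.dvd_gcd_iff]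
    constructor
    · rintro ⟨⟨h4, h5⟩, h6⟩
      exact ⟨⟨h4, h6⟩, fun h => h5 (Nat.eq_zero_of_gcd_eq_zero_left h)⟩
    · rintro ⟨⟨h4, h6⟩, h5⟩
      exact ⟨⟨h4, by omega⟩, h6⟩
  rw [← h5, Finset.sum_filter]
  rfl

theorem wwf_cc_zero {r : ℕ} (hr : 1 ≤ r) : cc r 0 = phi r := by
  have h1 : ∀ m : ℕ, m > 0 → ∑ i ∈ m.divisors, phi i = (m : ℝ) := by
    intro m _
    have := Nat.sum_totient m
    rw [← Nat.cast_sum, this]
  have h2 := (ArithmeticFunction.sum_eq_iff_sum_mul_moebius_eq (R := ℝ)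
    (f := fun i => phi i) (g := fun n => (n : ℝ))).mp h1 r hr
  rw [← h2, Nat.sum_divisorsAntidiagonal' (fun a b => ((ArithmeticFunction.moebius a : ℤ) : ℝ) * (b : ℝ)),
    Pool.Agent.FG61.CD_cc r 0 hr]
  refine Finset.sum_congr rfl fun t _ => ?_
  rw [if_pos (dvd_zero t), mul_comm]

/-! ### supports -/

theorem wwf_yE {z M K e : ℕ} (h : yE z M K e ≠ 0) :
    rough z e ∧ 1 ≤ e ∧ (e ≤ M ∨ e ∈ PK M K) := by
  unfold yE at h
  split_ifs at h with h1
  · refine ⟨h1.1, h1.2, ?_⟩
    by_contra h2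
    push Not at h2
    apply h
    unfold gE
    rw [if_neg (by omega), if_neg h2.2, mul_zero, zero_div]
  · exact absurd rfl h

theorem wwf_PK {M K e : ℕ} (h : e ∈ PK M K) : M < e ∧ e ≤ K * M ∧ e.Prime := by
  unfold PK at h
  rw [Finset.mem_filter, Finset.mem_Ioc] at h
  exact ⟨h.1.1, h.1.2, h.2⟩

theorem wwf_yE_le {z M K e : ℕ} (hK : 1 ≤ K) (h : yE z M K e ≠ 0) : e ≤ K * M := by
  rcases (wwf_yE h).2.2 with h1 | h1
  · calc e ≤ M := h1
      _ = 1 * M := (one_mul M).symm
      _ ≤ K * M := Nat.mul_le_mul_right M hK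
  · exact (wwf_PK h1).2.1

theorem wwf_cop {z u r : ℕ} (hu : smooth z u) (hr : rough z r) : u.Coprime r := by
  rw [Nat.coprime_iff_gcd_eq_one]
  by_contra h
  obtain ⟨p, hp, hpd⟩ := Nat.exists_prime_and_dvd h
  have h1 := hu.2 p hp (hpd.trans (Nat.gcd_dvd_left _ _))
  have h2 := hr p hp (hpd.trans (Nat.gcd_dvd_right _ _))
  omega

/-! ### sums over multiples -/

theorem wwf_mult {X : ℕ} {y : ℕ → ℝ} (hy : ∀ e, y e ≠ 0 → 1 ≤ e ∧ e ≤ X) {r : ℕ} (hr : 1 ≤ r) :
    ∑ m ∈ Finset.Icc 1 X, y (r * m) = ∑ e ∈ (Finset.Icc 1 X).filter (fun e => r ∣ e), y e := by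
  have h1 : ∑ m ∈ Finset.Icc 1 X, y (r * m) =
      ∑ m ∈ (Finset.Icc 1 X).filter (fun m => r * m ≤ X), y (r * m) := by
    rw [Finset.sum_filter]
    refine Finset.sum_congr rfl fun m _ => ?_
    split_ifs with h
    · rfl
    · by_contra h2
      exact h (hy _ h2).2
  rw [h1]
  refine Finset.sum_nbij' (fun m => r * m) (fun e => e / r) ?_ ?_ ?_ ?_ ?_
  · intro m hm
    simp only [Finset.mem_filter, Finset.mem_Icc] at hm ⊢
    exact ⟨⟨Nat.mul_pos hr hm.1.1, hm.2⟩, dvd_mul_right r m⟩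
  · intro e he
    simp only [Finset.mem_filter, Finset.mem_Icc] at he ⊢
    have h2 : r * (e / r) = e := Nat.mul_div_cancel' he.2
    refine ⟨⟨?_, ?_⟩, ?_⟩
    · rw [Nat.one_le_div_iff hr]
      exact Nat.le_of_dvd he.1.1 he.2
    · exact (Nat.div_le_self e r).trans he.1.2
    · rw [h2]; exact he.1.2
  · intro m hm
    exact Nat.mul_div_cancel_left m hr
  · intro e he
    simp only [Finset.mem_filter, Finset.mem_Icc] at he
    exact Nat.mul_div_cancel' he.2
  · intro m _
    rfl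

theorem wwf_swap (X : ℕ) (y G : ℕ → ℝ) (t : ℕ → ℕ → ℝ) :
    ∑ r ∈ Finset.Icc 1 X, (∑ e ∈ (Finset.Icc 1 X).filter (fun e => r ∣ e), y e * t e r) * G r =
      ∑ e ∈ Finset.Icc 1 X, y e * ∑ r ∈ e.divisors, t e r * G r := by
  simp_rw [Finset.sum_mul, Finset.mul_sum, Finset.sum_filter]
  rw [Finset.sum_comm]
  refine Finset.sum_congr rfl fun e he => ?_
  rw [Finset.mem_Icc] at he
  rw [← Finset.sum_filter]
  have h1 : (Finset.Icc 1 X).filter (fun r => r ∣ e) = e.divisors := by
    ext r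
    rw [Finset.mem_filter, Finset.mem_Icc, Nat.mem_divisors]
    constructor
    · rintro ⟨_, h⟩
      exact ⟨h, by omega⟩
    · rintro ⟨h, h2⟩
      exact ⟨⟨Nat.pos_of_dvd_of_pos h (by omega), (Nat.le_of_dvd (by omega) h).trans he.2⟩, h⟩
  rw [h1]
  refine Finset.sum_congr rfl fun r _ => ?_
  ring

theorem wwf_wr {z M K : ℕ} (hK : 1 ≤ K) (G : ℕ → ℝ) :
    ∑ r ∈ Finset.Icc 1 (K * M), wr z M K r * G r =
      ∑ e ∈ Finset.Icc 1 (K * M), yE z M K e * ∑ r ∈ e.divisors, G r := by
  have h := wwf_swap (K * M) (yE z M K) G (fun _ _ => 1)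
  simp only [one_mul, mul_one] at h
  rw [← h]
  refine Finset.sum_congr rfl fun r hr => ?_
  rw [Finset.mem_Icc] at hr
  rw [wr, wwf_mult (fun e he => ⟨(wwf_yE he).2.1, wwf_yE_le hK he⟩) hr.1]

theorem wwf_al {A : ℕ} (a G : ℕ → ℝ) :
    ∑ u ∈ Finset.Icc 1 A, al A a u * G u =
      ∑ k ∈ Finset.Icc 1 A, a k / Real.sqrt k *
        ∑ u ∈ k.divisors, ((k / u).divisors.card : ℝ) * G u :=
  wwf_swap A (fun k => a k / Real.sqrt k) G (fun k u => ((k / u).divisors.card : ℝ))

theorem wwf_split {z M K A : ℕ} {a : ℕ → ℝ} (ha : ∀ k, a k ≠ 0 → smooth z k ∧ k ≤ A) (n : ℕ) :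
    WW (QA M K A) (wA z M K A a) n =
      (∑ u ∈ Finset.Icc 1 A, al A a u * cc u n) *
        ∑ r ∈ Finset.Icc 1 (K * M), wr z M K r * cc r n := by
  have h := wa_sum (z := z) (M := M) (K := K) ha (fun q => ((cc q n : ℝ) : ℂ))
  have h2 : WW (QA M K A) (wA z M K A a) n =
      ∑ u ∈ Finset.Icc 1 A, ∑ r ∈ Finset.Icc 1 (K * M),
        al A a u * wr z M K r * cc (u * r) n := by
    have h3 : ((WW (QA M K A) (wA z M K A a) n : ℝ) : ℂ) =
        ((∑ u ∈ Finset.Icc 1 A, ∑ r ∈ Finset.Icc 1 (K * M),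
          al A a u * wr z M K r * cc (u * r) n : ℝ) : ℂ) := by
      unfold WW
      push_cast
      exact h
    exact_mod_cast h3
  rw [h2, Finset.sum_mul_sum]
  refine Finset.sum_congr rfl fun u hu => Finset.sum_congr rfl fun r hr => ?_
  rw [Finset.mem_Icc] at hu hr
  by_cases h3 : al A a u = 0
  · rw [h3]; ring
  · by_cases h4 : wr z M K r = 0
    · rw [h4]; ring
    · rw [wwf_cc_mul n hu.1 hr.1 (wwf_cop (al_supp ha h3).1 (wr_supp h4).1)]
      ring

theorem wwf_Ph (A : ℕ) (a : ℕ → ℝ) (n : ℕ) :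
    ∑ u ∈ Finset.Icc 1 A, al A a u * cc u n = Ph A a n := by
  rw [wwf_al, Ph]
  refine Finset.sum_congr rfl fun k hk => ?_
  rw [Finset.mem_Icc] at hk
  rw [wwf_sum_tau n hk.1]

/-- the Fourier coefficients factor -/
theorem ww_factor_pr {z M K A : ℕ} {a : ℕ → ℝ} (ha : ∀ k, a k ≠ 0 → smooth z k ∧ k ≤ A)
    (hK : 1 ≤ K) {n : ℕ} (hn : 1 ≤ n) : WW (QA M K A) (wA z M K A a) n = Ph A a n * Wr z M K n := by
  rw [wwf_split ha, wwf_Ph, wwf_wr hK]
  congr 1
  rw [Wr]
  have h1 : ∑ e ∈ Finset.Icc 1 (K * M), yE z M K e * ∑ r ∈ e.divisors, cc r n =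
      ∑ e ∈ (Finset.Icc 1 (K * M)).filter (fun e => e ∣ n), (e : ℝ) * yE z M K e := by
    rw [Finset.sum_filter]
    refine Finset.sum_congr rfl fun e he => ?_
    rw [Finset.mem_Icc] at he
    rw [wwf_sum_cc n he.1]
    split_ifs <;> ring
  rw [h1]
  refine Finset.sum_subset_zero_on_sdiff ?_ ?_ (fun _ _ => rfl)
  · intro e he
    rw [Finset.mem_filter] at he
    exact Nat.mem_divisors.mpr ⟨he.2, by omega⟩
  · intro e he
    rw [Finset.mem_sdiff, Finset.mem_filter, Finset.mem_Icc, Nat.mem_divisors] at he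
    by_contra h2
    have h3 : yE z M K e ≠ 0 := fun h => h2 (by rw [h, mul_zero])
    exact he.2 ⟨⟨(wwf_yE h3).2.1, wwf_yE_le hK h3⟩, he.1.1⟩

theorem wwf_eyE {z M K e : ℕ} (hM : Real.log M ≠ 0) (he : rough z e ∧ 1 ≤ e) :
    (e : ℝ) * yE z M K e * Real.log M = mu e * gE z M K e := by
  unfold yE
  rw [if_pos he]
  have : (e : ℝ) ≠ 0 := by exact_mod_cast (by omega : e ≠ 0)
  field_simp

theorem wwf_mu_prime {p : ℕ} (hp : p.Prime) : mu p = -1 := by
  unfold mu
  rw [ArithmeticFunction.moebius_apply_prime hp]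
  simp

theorem wwf_rough_prime {z p : ℕ} (hp : p.Prime) (h : z < p) : rough z p := by
  intro q hq hqp
  rw [(Nat.prime_dvd_prime_iff_eq hq hp).mp hqp]
  exact h

theorem wwf_sum_eyE {z M K : ℕ} (hzM : z ≤ M) (hK : (PK M K).Nonempty) :
    ∑ e ∈ Finset.Icc 1 (K * M), (e : ℝ) * yE z M K e = 0 := by
  by_cases hM : Real.log M = 0
  · refine Finset.sum_eq_zero fun e _ => ?_
    unfold yE
    rw [hM, mul_zero, div_zero]
    simp
  · classical
    obtain ⟨p0, hp0⟩ := hK
    have hp0' := wwf_PK hp0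
    have hKM : M < K * M := lt_of_lt_of_le hp0'.1 hp0'.2.1
    have hcard : ((PK M K).card : ℝ) ≠ 0 := by
      have : (PK M K).card ≠ 0 := Finset.card_ne_zero_of_mem hp0
      exact_mod_cast this
    have h1 : (∑ e ∈ Finset.Icc 1 (K * M), (e : ℝ) * yE z M K e) * Real.log M =
        ∑ e ∈ RO z M ∪ PK M K, mu e * gE z M K e := by
      rw [Finset.sum_mul]
      symm
      have hsub : RO z M ∪ PK M K ⊆ Finset.Icc 1 (K * M) := by
        intro e he
        rw [Finset.mem_union] at he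
        rw [Finset.mem_Icc]
        rcases he with he | he
        · rw [RO, Finset.mem_filter, Finset.mem_Icc] at he
          exact ⟨he.1.1, by omega⟩
        · have := wwf_PK he
          exact ⟨this.2.2.pos, this.2.1⟩
      refine Finset.sum_subset_zero_on_sdiff hsub ?_ ?_
      · intro e he
        rw [Finset.mem_sdiff, Finset.mem_union] at he
        by_contra h2
        have h3 : yE z M K e ≠ 0 := fun h => h2 (by rw [h]; ring)
        have h4 := wwf_yE h3
        apply he.2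
        rcases h4.2.2 with h5 | h5
        · left
          rw [RO, Finset.mem_filter, Finset.mem_Icc]
          exact ⟨⟨h4.2.1, h5⟩, h4.1⟩
        · right; exact h5
      · intro e he
        rw [Finset.mem_union] at he
        have h4 : rough z e ∧ 1 ≤ e := by
          rcases he with he | he
          · rw [RO, Finset.mem_filter, Finset.mem_Icc] at he
            exact ⟨he.2, he.1.1⟩
          · have := wwf_PK he
            exact ⟨wwf_rough_prime this.2.2 (by omega), this.2.2.pos⟩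
        exact (wwf_eyE hM h4).symm
    have hdis : Disjoint (RO z M) (PK M K) := by
      rw [Finset.disjoint_left]
      intro e he he2
      rw [RO, Finset.mem_filter, Finset.mem_Icc] at he
      have := wwf_PK he2
      omega
    rw [Finset.sum_union hdis] at h1
    have h2 : ∑ e ∈ RO z M, mu e * gE z M K e = g0 z M := by
      rw [g0]
      refine Finset.sum_congr rfl fun e he => ?_
      rw [RO, Finset.mem_filter, Finset.mem_Icc] at he
      rw [gE, if_pos he.1.2]
    have h3 : ∑ e ∈ PK M K, mu e * gE z M K e = -g0 z M := by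
      rw [Finset.sum_congr rfl (g := fun _ => -be z M K)]
      · rw [Finset.sum_const, nsmul_eq_mul, be]
        field_simp
      · intro e he
        have := wwf_PK he
        rw [gE, if_neg (by omega), if_pos he, wwf_mu_prime this.2.2, neg_one_mul]
    rw [h2, h3, add_neg_cancel] at h1
    exact (mul_eq_zero.mp h1).resolve_right hM

theorem ww_zero_pr {z M K A : ℕ} {a : ℕ → ℝ} (ha : ∀ k, a k ≠ 0 → smooth z k ∧ k ≤ A)
    (hzM : z ≤ M) (hK : (PK M K).Nonempty) : WW (QA M K A) (wA z M K A a) 0 = 0 := by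
  have hK1 : 1 ≤ K := by
    obtain ⟨p0, hp0⟩ := hK
    have hp0' := wwf_PK hp0
    by_contra h
    have : K = 0 := by omega
    rw [this, zero_mul] at hp0'
    have := hp0'.2.2.pos
    omega
  rw [wwf_split ha]
  have h1 : ∑ r ∈ Finset.Icc 1 (K * M), wr z M K r * cc r 0 = 0 := by
    rw [wwf_wr hK1, ← wwf_sum_eyE hzM hK]
    refine Finset.sum_congr rfl fun e he => ?_
    rw [Finset.mem_Icc] at he
    rw [wwf_sum_cc 0 he.1, if_pos (dvd_zero e), mul_comm]
  rw [h1, mul_zero]

theorem ph_smp_pr {z A : ℕ} {a : ℕ → ℝ} (ha : ∀ k, a k ≠ 0 → smooth z k ∧ k ≤ A) {n : ℕ}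
    (hn : 1 ≤ n) : Ph A a n = Ph A a (smp z n) := by
  obtain ⟨h1, h2, h3, h4, h5⟩ := smp_rop (z := z) hn
  rw [Ph, Ph]
  refine Finset.sum_congr rfl fun k _ => ?_
  by_cases hk : a k = 0
  · rw [hk]; simp
  · have h6 : k.Coprime (rop z n) := wwf_cop (ha k hk).1 h4
    have h7 : Nat.gcd k n = Nat.gcd k (smp z n) := by
      conv_lhs => rw [← h1]
      exact Nat.Coprime.gcd_mul_right_cancel_right _ h6.symm
    rw [h7]

theorem wr_rop_pr (z M K : ℕ) {n : ℕ} (hn : 1 ≤ n) : Wr z M K n = Wr z M K (rop z n) := by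
  obtain ⟨h1, h2, h3, h4, h5⟩ := smp_rop (z := z) hn
  rw [Wr, Wr]
  symm
  refine Finset.sum_subset_zero_on_sdiff ?_ ?_ (fun _ _ => rfl)
  · intro e he
    rw [Nat.mem_divisors] at he ⊢
    exact ⟨he.1.trans ⟨smp z n, by rw [mul_comm]; exact h1.symm⟩, by omega⟩
  · intro e he
    rw [Finset.mem_sdiff, Nat.mem_divisors, Nat.mem_divisors] at he
    by_contra h6
    have h7 : yE z M K e ≠ 0 := fun h => h6 (by rw [h, mul_zero])
    have h8 : (smp z n).Coprime e := wwf_cop h3 (wwf_yE h7).1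
    apply he.2
    refine ⟨?_, by omega⟩
    have h9 := he.1.1
    rw [← h1] at h9
    exact (Nat.Coprime.dvd_of_dvd_mul_left h8.symm h9)

theorem wr_one_pr {z M K : ℕ} (hM : 2 ≤ M) : Wr z M K 1 = 1 := by
  have hlog : Real.log M ≠ 0 := by
    have : (1 : ℝ) < M := by exact_mod_cast (by omega : 1 < M)
    exact (Real.log_pos this).ne'
  have hr : rough z 1 ∧ 1 ≤ 1 := by
    refine ⟨?_, le_refl _⟩
    intro p hp h
    exact absurd (Nat.dvd_one.mp h) hp.one_lt.ne'
  have h := wwf_eyE (K := K) hlog hr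
  rw [gE, if_pos (by omega : 1 ≤ M)] at h
  have h1 : mu 1 = 1 := by simp [mu]
  rw [h1, one_mul, Nat.cast_one, div_one, one_mul] at h
  rw [Wr, Nat.divisors_one, Finset.sum_singleton, Nat.cast_one, one_mul]
  exact mul_right_cancel₀ hlog (by rw [h, one_mul])

/-- the rough factor in terms of the truncated divisor sum -/
theorem wr_ff_pr {z M K n : ℕ} (hn : 1 ≤ n) (hr : rough z n) :
    Wr z M K n * Real.log M = ff M n -
      be z M K * (((PK M K).filter (fun p => p ∣ n)).card : ℝ) := by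
  classical
  by_cases hM : Real.log M = 0
  · rw [hM, mul_zero]
    have hM2 : M = 0 ∨ M = 1 := by
      by_contra h
      push Not at h
      have : (1 : ℝ) < M := by exact_mod_cast (by omega : 1 < M)
      exact (Real.log_pos this).ne' hM
    rcases hM2 with h | h
    · subst h
      have h1 : PK 0 K = ∅ := by
        unfold PK; simp
      rw [h1]
      unfold ff
      have h2 : n.divisors.filter (fun d : ℕ => (d : ℝ) ≤ ((0 : ℕ) : ℝ)) = ∅ := by
        rw [Finset.filter_eq_empty_iff]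
        intro d hd h3
        have h4 : d ≤ 0 := by exact_mod_cast h3
        have := Nat.pos_of_mem_divisors hd
        omega
      rw [h2]
      simp
    · subst h
      have h1 : g0 z 1 = 0 := by
        rw [g0]
        refine Finset.sum_eq_zero fun e he => ?_
        rw [RO, Finset.mem_filter, Finset.mem_Icc] at he
        have : e = 1 := by omega
        subst this
        simp
      rw [be, h1, zero_div, zero_mul, sub_zero]
      unfold ff
      symm
      refine Finset.sum_eq_zero fun e he => ?_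
      rw [Finset.mem_filter] at he
      have h2 := Nat.pos_of_mem_divisors he.1
      have h3 : e ≤ 1 := by exact_mod_cast he.2
      have : e = 1 := by omega
      subst this
      simp
  · have hdr : ∀ e ∈ n.divisors, rough z e ∧ 1 ≤ e := by
      intro e he
      exact ⟨fun p hp h => hr p hp (h.trans (Nat.dvd_of_mem_divisors he)),
        Nat.pos_of_mem_divisors he⟩
    rw [Wr, Finset.sum_mul, Finset.sum_congr rfl (fun e he => wwf_eyE hM (hdr e he))]
    have h1 : ∀ e ∈ n.divisors, mu e * gE z M K e =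
        (if (e : ℝ) ≤ M then mu e * Real.log (M / e) else 0) -
          (if e ∈ PK M K then be z M K else 0) := by
      intro e _
      unfold gE
      by_cases h2 : e ≤ M
      · have h3 : (e : ℝ) ≤ M := by exact_mod_cast h2
        have h4 : e ∉ PK M K := fun h => by
          have := wwf_PK h
          omega
        rw [if_pos h2, if_pos h3, if_neg h4, sub_zero]
      · have h3 : ¬ (e : ℝ) ≤ M := by exact_mod_cast h2
        rw [if_neg h2, if_neg h3, zero_sub]
        by_cases h4 : e ∈ PK M K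
        · simp only [if_pos h4]
          rw [wwf_mu_prime (wwf_PK h4).2.2, neg_one_mul]
        · simp only [if_neg h4]
          rw [mul_zero, neg_zero]
    rw [Finset.sum_congr rfl h1, Finset.sum_sub_distrib, ← Finset.sum_filter, ← Finset.sum_filter,
      Finset.sum_const, nsmul_eq_mul, ff, mul_comm (be z M K)]
    congr 3
    have h5 : n.divisors.filter (fun e => e ∈ PK M K) = (PK M K).filter (fun p => p ∣ n) := by
      ext e
      rw [Finset.mem_filter, Finset.mem_filter, Nat.mem_divisors]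
      constructor
      · rintro ⟨⟨h6, _⟩, h7⟩
        exact ⟨h7, h6⟩
      · rintro ⟨h6, h7⟩
        exact ⟨⟨h7, by omega⟩, h6⟩
    rw [h5]

theorem ww_factor : type_of% @ww_factor_pr := @ww_factor_pr
theorem ww_zero : type_of% @ww_zero_pr := @ww_zero_pr
theorem ph_smp : type_of% @ph_smp_pr := @ph_smp_pr
theorem wr_rop : type_of% @wr_rop_pr := @wr_rop_pr
theorem wr_one : type_of% @wr_one_pr := @wr_one_pr
theorem wr_ff : type_of% @wr_ff_pr := @wr_ff_pr

end Pool.Agent.KSL
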