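import Pool.Agent.Lib_helper68.KSL.Defs
import Pool.Agent.Lib_helper41.LVBF.STO
import Pool.Agent.Lib_helper61.FG.P.GB
import Pool.Agent.Lib_helper68.KSLF.PHI
import Pool.Agent.Lib_helper68.KSLF.SZF
import Pool.Agent.Lib_helper68.KSLF.WBD
import Pool.Agent.Lib_helper68.KSLF.WWF

/-! Block FMN: the Dirichlet polynomial and its correlation with the small factor. -/

namespace Pool.Agent.KSL

open Pool.Agent.LEV Pool.Agent.LVB
open Pool.Agent.FG61 (mu phi cc ff AA Lam)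
open Complex MeasureTheory Filter Topology UpperHalfPlane ModularGroup ProbabilityTheory
open scoped MatrixGroups Modular ENNReal ModularForm ComplexConjugate ContDiff

theorem fmn_pf {N m : ℕ} (h2 : m < N) : m.primeFactors ⊆ Pr N := by
  intro p hp
  unfold Pr
  rw [Finset.mem_filter, Finset.mem_range]
  exact ⟨(Nat.le_of_mem_primeFactors hp).trans_lt h2, Nat.prime_of_mem_primeFactors hp⟩

theorem fmn_X1 {δ : ℝ} (h0 : 0 < δ) {N : ℕ} (hN : 2 ≤ N) : X1 δ N < N := by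
  have h1 : (1 : ℝ) < N := by exact_mod_cast (by omega : 1 < N)
  have h2 : ((X1 δ N : ℕ) : ℝ) ≤ (N : ℝ) ^ (1 - δ / 2) := Nat.floor_le (by positivity)
  have h3 : (N : ℝ) ^ (1 - δ / 2) < (N : ℝ) ^ (1 : ℝ) :=
    Real.rpow_lt_rpow_of_exponent_lt h1 (by linarith)
  rw [Real.rpow_one] at h3
  exact_mod_cast h2.trans_lt h3

theorem fmn_hI (N : ℕ) : ∀ p ∈ Pr N, p.Prime := by
  intro p hp
  unfold Pr at hp
  exact (Finset.mem_filter.1 hp).2

theorem fs_hpoly_pr {δ : ℝ} (h0 : 0 < δ) {N : ℕ} (hN : 2 ≤ N) (Q : ℕ) (w : ℕ → ℝ) :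
    HPoly (Pr N) (X1 δ N) (Fs δ N Q w) ∧ ∀ P : Measure (ℕ → ℝ), IsST (Pr N) P →
      ∫ x, Fs δ N Q w x ^ 2 ∂P =
        ∑ n ∈ Finset.Icc 1 (X1 δ N), (2 * Wt N Q w n / Real.sqrt n) ^ 2 := by
  classical
  set c : ℕ → ℝ := fun m => if m ∈ Finset.Icc 1 (X1 δ N) then 2 * Wt N Q w m / Real.sqrt m else 0
    with hc
  have hX := fmn_X1 h0 hN
  have hc1 : ∀ m, c m ≠ 0 → 1 ≤ m ∧ m ≤ X1 δ N ∧ m.primeFactors ⊆ Pr N := by
    intro m hm
    have h1 : m ∈ Finset.Icc 1 (X1 δ N) := by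
      by_contra h
      exact hm (by simp only [hc, if_neg h])
    rw [Finset.mem_Icc] at h1
    exact ⟨h1.1, h1.2, fmn_pf (by omega)⟩
  have hc2 : ∀ x, Fs δ N Q w x = ∑ m ∈ Finset.Icc 1 (X1 δ N), c m * Um m x := by
    intro x
    unfold Fs
    refine Finset.sum_congr rfl fun m hm => ?_
    simp only [hc, if_pos hm]
  refine ⟨⟨c, hc1, hc2⟩, fun P hP => ?_⟩
  simp_rw [hc2]
  rw [LVB.st_sq (fmn_hI N) hP hc1]
  refine Finset.sum_congr rfl fun m hm => ?_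
  simp only [hc, if_pos hm]

/-- the integral of a product -/
theorem fmn_int {N X Y : ℕ} (hX : X < N) (hY : Y ≤ X) {P : Measure (ℕ → ℝ)}
    (hP : IsST (Pr N) P) (b s : ℕ → ℝ) :
    ∫ x, (∑ n ∈ Finset.Icc 1 X, b n * Um n x) * (∑ m ∈ Finset.Icc 1 Y, s m * Um m x) ∂P =
      ∑ m ∈ Finset.Icc 1 Y, b m * s m := by
  have hterm : ∀ n ∈ Finset.Icc 1 X, ∀ m ∈ Finset.Icc 1 Y,
      Integrable (fun x => b n * Um n x * (s m * Um m x)) P ∧
      ∫ x, b n * Um n x * (s m * Um m x) ∂P = if n = m then b n * s m else 0 := by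
    intro n hn m hm
    rw [Finset.mem_Icc] at hn hm
    have h6 : ∀ x : ℕ → ℝ, b n * Um n x * (s m * Um m x) = (b n * s m) * (Um n x * Um m x) := by
      intro x
      ring
    simp_rw [h6]
    refine ⟨(STO_int hP (fmn_pf (by omega)) (fmn_pf (by omega))).const_mul _, ?_⟩
    rw [integral_const_mul, STO_orth hP (by omega) (by omega) (fmn_pf (by omega))
      (fmn_pf (by omega)), mul_ite, mul_one, mul_zero]
  simp_rw [Finset.sum_mul_sum]
  rw [integral_finsetSum _ fun n hn => integrable_finsetSum _ fun m hm => (hterm n hn m hm).1]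
  rw [Finset.sum_congr rfl fun n hn => by
    rw [integral_finsetSum _ fun m hm => (hterm n hn m hm).1,
      Finset.sum_congr rfl fun m hm => (hterm n hn m hm).2]]
  rw [Finset.sum_comm]
  refine Finset.sum_congr rfl fun m hm => ?_
  rw [Finset.sum_ite_eq', if_pos]
  rw [Finset.mem_Icc] at hm ⊢
  omega

theorem fmn_sum_sq (Q : ℕ) : ∑ q ∈ Finset.Icc 1 Q, 1 / ((q : ℝ) * q) ≤ 2 := by
  have h : ∀ Q : ℕ, 1 ≤ Q → ∑ q ∈ Finset.Icc 1 Q, 1 / ((q : ℝ) * q) ≤ 2 - 1 / Q := by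
    intro Q hQ
    induction Q, hQ using Nat.le_induction with
    | base => norm_num
    | succ n hn ih =>
      rw [Finset.sum_Icc_succ_top (by omega)]
      have hn' : (0 : ℝ) < n := by exact_mod_cast hn
      have h1 : 1 / (((n + 1 : ℕ) : ℝ) * ((n + 1 : ℕ) : ℝ)) ≤ 1 / n - 1 / ((n + 1 : ℕ) : ℝ) := by
        push_cast
        rw [div_sub_div _ _ (by positivity) (by positivity), div_le_div_iff₀ (by positivity)
          (by positivity)]
        nlinarith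
      linarith
  rcases Nat.eq_zero_or_pos Q with h0 | h0
  · subst h0
    norm_num
  · have h1 := h Q h0
    have h2 : (0 : ℝ) ≤ 1 / Q := by positivity
    linarith

theorem fmn_cc {q m : ℕ} (hm : 1 ≤ m) : |cc q m| ≤ (m : ℝ) ^ 2 := by
  refine (Pool.Agent.FG61.GB_cc_abs q m).trans ?_
  have h1 : (Nat.gcd q m).divisors ⊆ Finset.Icc 1 m := by
    intro d hd
    have h2 := Nat.dvd_of_mem_divisors hd
    have h3 : d ∣ m := h2.trans (Nat.gcd_dvd_right q m)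
    rw [Finset.mem_Icc]
    exact ⟨Nat.pos_of_mem_divisors hd, Nat.le_of_dvd hm h3⟩
  calc ∑ d ∈ (Nat.gcd q m).divisors, (d : ℝ) ≤ ∑ d ∈ Finset.Icc 1 m, (d : ℝ) :=
        Finset.sum_le_sum_of_subset_of_nonneg h1 fun d _ _ => Nat.cast_nonneg d
    _ ≤ ∑ d ∈ Finset.Icc 1 m, (m : ℝ) := by
        refine Finset.sum_le_sum fun d hd => ?_
        rw [Finset.mem_Icc] at hd
        exact_mod_cast hd.2
    _ = (m : ℝ) ^ 2 := by
        rw [Finset.sum_const, Nat.card_Icc, Nat.add_sub_cancel, nsmul_eq_mul, sq]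

/-- comparison of `Wt` and `WW` -/
theorem fmn_wt {N Q m : ℕ} (hN : 1 ≤ N) (hm : 1 ≤ m) {w : ℕ → ℝ} {B : ℝ} (hB : 0 ≤ B)
    (hw : ∀ q, 1 ≤ q → |w q| ≤ B / q) :
    |Wt N Q w m - WW Q w m| ≤ 4 * Real.pi * B * (m : ℝ) ^ 3 / Real.sqrt N := by
  have hN' : (0 : ℝ) < Real.sqrt N := Real.sqrt_pos.2 (by exact_mod_cast hN)
  have hm' : (0 : ℝ) < m := by exact_mod_cast hm
  unfold Wt WW
  rw [← Finset.sum_sub_distrib]
  refine (Finset.abs_sum_le_sum_abs _ _).trans ?_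
  have h1 : ∀ q ∈ Finset.Icc 1 Q, |w q * cc q m * Real.exp (-2 * Real.pi * m * rq N q) -
      w q * cc q m| ≤ 2 * Real.pi * B * (m : ℝ) ^ 3 / Real.sqrt N * (1 / ((q : ℝ) * q)) := by
    intro q hq
    rw [Finset.mem_Icc] at hq
    have hq' : (0 : ℝ) < q := by exact_mod_cast hq.1
    have hr : rq N q = 1 / (q * Real.sqrt N) := rfl
    have hr0 : 0 < rq N q := by rw [hr]; positivity
    set t : ℝ := 2 * Real.pi * m * rq N q with ht
    have ht0 : 0 ≤ t := by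
      have := Real.pi_pos
      positivity
    have e1 : -2 * Real.pi * m * rq N q = -t := by rw [ht]; ring
    rw [e1]
    have e2 : w q * cc q m * Real.exp (-t) - w q * cc q m =
        -(w q * cc q m * (1 - Real.exp (-t))) := by ring
    rw [e2, abs_neg, abs_mul, abs_mul]
    have e3 : |1 - Real.exp (-t)| ≤ t := by
      rw [abs_of_nonneg]
      · have := Real.add_one_le_exp (-t)
        linarith
      · have : Real.exp (-t) ≤ 1 := Real.exp_le_one_iff.2 (by linarith)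
        linarith
    calc |w q| * |cc q m| * |1 - Real.exp (-t)|
        ≤ (B / q) * (m : ℝ) ^ 2 * t := by
          apply mul_le_mul (mul_le_mul (hw q hq.1) (fmn_cc hm) (abs_nonneg _) (by positivity)) e3
            (abs_nonneg _) (by positivity)
      _ = 2 * Real.pi * B * (m : ℝ) ^ 3 / Real.sqrt N * (1 / ((q : ℝ) * q)) := by
          rw [ht, hr]
          field_simp
  refine (Finset.sum_le_sum h1).trans ?_
  rw [← Finset.mul_sum]
  have h2 := fmn_sum_sq Q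
  have h3 : 0 ≤ 2 * Real.pi * B * (m : ℝ) ^ 3 / Real.sqrt N := by
    have := Real.pi_pos
    positivity
  calc 2 * Real.pi * B * (m : ℝ) ^ 3 / Real.sqrt N * ∑ q ∈ Finset.Icc 1 Q, 1 / ((q : ℝ) * q)
      ≤ 2 * Real.pi * B * (m : ℝ) ^ 3 / Real.sqrt N * 2 := mul_le_mul_of_nonneg_left h2 h3
    _ = _ := by ring

open Classical in
theorem fmn_cd {z A : ℕ} {a : ℕ → ℝ} (ha : ∀ k, a k ≠ 0 → smooth z k ∧ k ≤ A) {s : ℕ → ℝ}
    (hs : ∀ m, s m ≠ 0 → m ≤ A) :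
    Summable (fun m : ℕ => if smooth z m then (Ph A a m / Real.sqrt m - s m) ^ 2 else 0) := by
  have h1 := (phi_al ha).1
  have h2 : Summable (fun m : ℕ => s m ^ 2) := by
    refine summable_of_ne_finset_zero (s := Finset.range (A + 1)) fun m hm => ?_
    rw [Finset.mem_range] at hm
    have : s m = 0 := by
      by_contra h
      have := hs m h
      omega
    rw [this]
    norm_num
  refine Summable.of_nonneg_of_le (fun m => ?_) (fun m => ?_) ((h1.mul_left 2).add (h2.mul_left 2))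
  · split_ifs <;> positivity
  · by_cases h : smooth z m
    · simp only [if_pos h]
      have e1 : Ph A a m ^ 2 / m = (Ph A a m / Real.sqrt m) ^ 2 := by
        rw [div_pow, Real.sq_sqrt (Nat.cast_nonneg m)]
      rw [e1]
      nlinarith [sq_nonneg (Ph A a m / Real.sqrt m + s m)]
    · simp only [if_neg h]
      have := sq_nonneg (s m)
      linarith

theorem fmn_rop {z m : ℕ} (h : smooth z m) : rop z m = 1 := by
  unfold rop
  have : m.primeFactors.filter (fun p => z < p) = ∅ := by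
    rw [Finset.filter_eq_empty_iff]
    intro p hp
    exact not_lt.2 (h.2 p (Nat.prime_of_mem_primeFactors hp) (Nat.dvd_of_mem_primeFactors hp))
  rw [this, Finset.prod_empty]

/-- the correlation with the small factor -/
theorem fs_mean_pr {δ : ℝ} (h0 : 0 < δ) (h1 : δ < 1 / 4) {ε : ℝ} (hε : 0 < ε) (C₀ : ℝ) :
    ∃ ε₁ : ℝ, 0 < ε₁ ∧ ∀ ε₂ : ℝ, 0 < ε₂ → ε₂ ≤ ε₁ → ∃ N₀ : ℕ, ∀ N : ℕ, N₀ ≤ N →
    ∀ a : ℕ → ℝ, Sht (zz N) (KA ε₂ N) a → ∀ s : ℕ → ℝ,
    (∀ m, s m ≠ 0 → smooth (zz N) m ∧ m ≤ KA ε₂ N) → ∑ m ∈ Finset.Icc 1 (KA ε₂ N), s m ^ 2 ≤ C₀ →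
    ∀ P : Measure (ℕ → ℝ), IsST (Pr N) P →
      |∫ x, Fs δ N (QQ δ ε₂ N) (ww δ ε₂ N a) x *
          (∑ m ∈ Finset.Icc 1 (KA ε₂ N), s m * Um m x) ∂P -
        2 * ∑ m ∈ Finset.Icc 1 (KA ε₂ N), s m ^ 2| ≤
      2 * Real.sqrt (C₀ * cd (zz N) (KA ε₂ N) a s) + ε := by
  classical
  refine ⟨1 / 32, by norm_num, fun ε₂ h2 h3 => ?_⟩
  obtain ⟨N₁, hN₁⟩ := ww_bound h0 h1 h2
  obtain ⟨N₂, hN₂⟩ := sizes h0 h1 (ε := 1) one_pos
  set B : ℝ := 8 * Real.pi * Real.sqrt C₀ / ε with hB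
  have hB0 : 0 ≤ B := by
    have := Real.pi_pos
    positivity
  refine ⟨max (max N₁ N₂) (max 2 ⌈B ^ 4⌉₊), fun N hN a ha s hs hC P hP => ?_⟩
  have hNN₁ : N₁ ≤ N := (le_max_left _ _).trans ((le_max_left _ _).trans hN)
  have hNN₂ : N₂ ≤ N := (le_max_right _ _).trans ((le_max_left _ _).trans hN)
  have hN2 : 2 ≤ N := (le_max_left _ _).trans ((le_max_right _ _).trans hN)
  have hNB : ⌈B ^ 4⌉₊ ≤ N := (le_max_right _ _).trans ((le_max_right _ _).trans hN)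
  have hNB' : B ^ 4 ≤ N := (Nat.le_ceil _).trans (by exact_mod_cast hNB)
  have hNR : (1 : ℝ) ≤ N := by exact_mod_cast (by omega : 1 ≤ N)
  have hN0 : (0 : ℝ) < N := by linarith
  obtain ⟨_, hz2, hzM, _⟩ := hN₂ N hNN₂
  have hM2 : 2 ≤ MM δ N := by omega
  set z := zz N with hz
  set M := MM δ N with hM
  set A := KA ε₂ N with hA
  have hAN : (A : ℝ) ≤ (N : ℝ) ^ ε₂ := (ka_size h2 (by omega)).2.1
  have hAX : A ≤ X1 δ N := by
    apply Nat.floor_mono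
    exact Real.rpow_le_rpow_of_exponent_le hNR (by linarith)
  have hX := fmn_X1 h0 hN2
  have hC0 : 0 ≤ C₀ := (Finset.sum_nonneg fun m _ => sq_nonneg (s m)).trans hC
  have hw := (hN₁ N hNN₁ a ha).1
  -- the integral
  have hint : ∫ x, Fs δ N (QQ δ ε₂ N) (ww δ ε₂ N a) x *
      (∑ m ∈ Finset.Icc 1 A, s m * Um m x) ∂P =
      ∑ m ∈ Finset.Icc 1 A, 2 * Wt N (QQ δ ε₂ N) (ww δ ε₂ N a) m / Real.sqrt m * s m := by
    unfold Fs
    exact fmn_int hX hAX hP _ s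
  rw [hint]
  set D : ℕ → ℝ := fun m => Wt N (QQ δ ε₂ N) (ww δ ε₂ N a) m -
    WW (QQ δ ε₂ N) (ww δ ε₂ N a) m with hD
  set t : ℕ → ℝ := fun m => if smooth z m then Ph A a m / Real.sqrt m - s m else 0 with ht
  -- the coefficients
  have hWW : ∀ m, 1 ≤ m → smooth z m → WW (QQ δ ε₂ N) (ww δ ε₂ N a) m = Ph A a m := by
    intro m hm hsm
    have e1 : WW (QQ δ ε₂ N) (ww δ ε₂ N a) m = WW (QA M 2 A) (wA z M 2 A a) m := rfl
    rw [e1, ww_factor ha.sup (by norm_num) hm, wr_rop z M 2 hm, fmn_rop hsm, wr_one hM2, mul_one]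
  have hterm : ∀ m ∈ Finset.Icc 1 A,
      2 * Wt N (QQ δ ε₂ N) (ww δ ε₂ N a) m / Real.sqrt m * s m - 2 * s m ^ 2 =
      2 * (s m * t m) + 2 * (s m * (D m / Real.sqrt m)) := by
    intro m hm
    rw [Finset.mem_Icc] at hm
    by_cases hsm : s m = 0
    · rw [hsm]
      ring
    · have h4 := (hs m hsm).1
      have h5 : Wt N (QQ δ ε₂ N) (ww δ ε₂ N a) m = Ph A a m + D m := by
        rw [hD, ← hWW m hm.1 h4]
        ring
      rw [h5]
      simp only [ht, if_pos h4]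
      ring
  have hsum : ∑ m ∈ Finset.Icc 1 A, 2 * Wt N (QQ δ ε₂ N) (ww δ ε₂ N a) m / Real.sqrt m * s m -
      2 * ∑ m ∈ Finset.Icc 1 A, s m ^ 2 = 2 * (∑ m ∈ Finset.Icc 1 A, s m * t m) +
        2 * ∑ m ∈ Finset.Icc 1 A, s m * (D m / Real.sqrt m) := by
    rw [Finset.mul_sum, ← Finset.sum_sub_distrib, Finset.sum_congr rfl hterm,
      Finset.sum_add_distrib, Finset.mul_sum, Finset.mul_sum]
  rw [hsum]
  -- first part
  have hcdS := fmn_cd ha.sup (s := s) (fun m hm => (hs m hm).2)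
  have ht2 : ∑ m ∈ Finset.Icc 1 A, t m ^ 2 ≤ cd z A a s := by
    have e1 : ∀ m ∈ Finset.Icc 1 A, t m ^ 2 =
        if smooth z m then (Ph A a m / Real.sqrt m - s m) ^ 2 else 0 := by
      intro m _
      simp only [ht]
      split_ifs
      · rfl
      · norm_num
    rw [Finset.sum_congr rfl e1]
    unfold cd
    refine hcdS.sum_le_tsum _ fun m _ => ?_
    split_ifs <;> positivity
  have hfirst : |∑ m ∈ Finset.Icc 1 A, s m * t m| ≤ Real.sqrt (C₀ * cd z A a s) := by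
    apply Real.abs_le_sqrt
    calc (∑ m ∈ Finset.Icc 1 A, s m * t m) ^ 2
        ≤ (∑ m ∈ Finset.Icc 1 A, s m ^ 2) * ∑ m ∈ Finset.Icc 1 A, t m ^ 2 :=
          Finset.sum_mul_sq_le_sq_mul_sq _ _ _
      _ ≤ C₀ * cd z A a s :=
          mul_le_mul hC ht2 (Finset.sum_nonneg fun m _ => sq_nonneg _) hC0
  -- second part
  have hsb : ∀ m ∈ Finset.Icc 1 A, |s m| ≤ Real.sqrt C₀ := by
    intro m hm
    apply Real.abs_le_sqrt
    refine le_trans ?_ hC
    exact Finset.single_le_sum (f := fun m => s m ^ 2) (fun i _ => sq_nonneg (s i)) hm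
  have hA0 : (0 : ℝ) ≤ A := Nat.cast_nonneg A
  have hsecond : |∑ m ∈ Finset.Icc 1 A, s m * (D m / Real.sqrt m)| ≤ ε / 2 := by
    refine (Finset.abs_sum_le_sum_abs _ _).trans ?_
    have h4 : ∀ m ∈ Finset.Icc 1 A, |s m * (D m / Real.sqrt m)| ≤
        Real.sqrt C₀ * (4 * Real.pi * (N : ℝ) ^ (4 * ε₂) * (A : ℝ) ^ 3 / Real.sqrt N) := by
      intro m hm
      have hm' := Finset.mem_Icc.1 hm
      rw [abs_mul]
      apply mul_le_mul (hsb m hm) _ (abs_nonneg _) (Real.sqrt_nonneg _)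
      have h5 : |D m| ≤ 4 * Real.pi * (N : ℝ) ^ (4 * ε₂) * (m : ℝ) ^ 3 / Real.sqrt N :=
        fmn_wt (by omega) hm'.1 (by positivity) hw
      have h6 : 1 ≤ Real.sqrt m := by
        rw [Real.one_le_sqrt]
        exact_mod_cast hm'.1
      have h7 : |D m / Real.sqrt m| ≤ |D m| := by
        rw [abs_div, abs_of_pos (by linarith : 0 < Real.sqrt m)]
        exact div_le_self (abs_nonneg _) h6
      refine h7.trans (h5.trans ?_)
      apply div_le_div_of_nonneg_right _ (Real.sqrt_nonneg _)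
      have h8 : (m : ℝ) ^ 3 ≤ (A : ℝ) ^ 3 :=
        pow_le_pow_left₀ (Nat.cast_nonneg m) (by exact_mod_cast hm'.2) 3
      apply mul_le_mul_of_nonneg_left h8
      have := Real.pi_pos
      positivity
    refine (Finset.sum_le_sum h4).trans ?_
    rw [Finset.sum_const, Nat.card_Icc, Nat.add_sub_cancel, nsmul_eq_mul]
    have h9 : (A : ℝ) * (Real.sqrt C₀ * (4 * Real.pi * (N : ℝ) ^ (4 * ε₂) * (A : ℝ) ^ 3 /
        Real.sqrt N)) = 4 * Real.pi * Real.sqrt C₀ * ((N : ℝ) ^ (4 * ε₂) * (A : ℝ) ^ 4) /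
        Real.sqrt N := by ring
    rw [h9]
    have h10 : (A : ℝ) ^ 4 ≤ (N : ℝ) ^ (4 * ε₂) := by
      calc (A : ℝ) ^ 4 ≤ ((N : ℝ) ^ ε₂) ^ 4 := pow_le_pow_left₀ hA0 hAN 4
        _ = (N : ℝ) ^ (4 * ε₂) := by
            rw [← Real.rpow_natCast, ← Real.rpow_mul hN0.le]
            congr 1
            push_cast
            ring
    have h11 : (N : ℝ) ^ (4 * ε₂) * (A : ℝ) ^ 4 ≤ (N : ℝ) ^ (1 / 4 : ℝ) := by
      calc (N : ℝ) ^ (4 * ε₂) * (A : ℝ) ^ 4 ≤ (N : ℝ) ^ (4 * ε₂) * (N : ℝ) ^ (4 * ε₂) :=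
            mul_le_mul_of_nonneg_left h10 (by positivity)
        _ = (N : ℝ) ^ (8 * ε₂) := by
            rw [← Real.rpow_add hN0]
            congr 1
            ring
        _ ≤ (N : ℝ) ^ (1 / 4 : ℝ) := Real.rpow_le_rpow_of_exponent_le hNR (by linarith)
    have h12 : Real.sqrt N = (N : ℝ) ^ (1 / 4 : ℝ) * (N : ℝ) ^ (1 / 4 : ℝ) := by
      rw [← Real.rpow_add hN0, Real.sqrt_eq_rpow]
      norm_num
    have h13 : B ≤ (N : ℝ) ^ (1 / 4 : ℝ) := by
      have e1 : B = (B ^ 4) ^ (1 / 4 : ℝ) := by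
        rw [← Real.rpow_natCast, ← Real.rpow_mul hB0]
        norm_num
      rw [e1]
      exact Real.rpow_le_rpow (by positivity) hNB' (by norm_num)
    have hN14 : 0 < (N : ℝ) ^ (1 / 4 : ℝ) := by positivity
    rw [h12, div_le_iff₀ (by positivity)]
    have hpi := Real.pi_pos
    have h14 : 8 * Real.pi * Real.sqrt C₀ ≤ ε * (N : ℝ) ^ (1 / 4 : ℝ) := by
      rw [hB, div_le_iff₀ hε] at h13
      linarith
    calc 4 * Real.pi * Real.sqrt C₀ * ((N : ℝ) ^ (4 * ε₂) * (A : ℝ) ^ 4)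
        ≤ 4 * Real.pi * Real.sqrt C₀ * (N : ℝ) ^ (1 / 4 : ℝ) :=
          mul_le_mul_of_nonneg_left h11 (by positivity)
      _ ≤ (ε / 2 * (N : ℝ) ^ (1 / 4 : ℝ)) * (N : ℝ) ^ (1 / 4 : ℝ) := by
          apply mul_le_mul_of_nonneg_right _ hN14.le
          linarith
      _ = _ := by ring
  calc |2 * (∑ m ∈ Finset.Icc 1 A, s m * t m) +
        2 * ∑ m ∈ Finset.Icc 1 A, s m * (D m / Real.sqrt m)|
      ≤ |2 * (∑ m ∈ Finset.Icc 1 A, s m * t m)| +
        |2 * ∑ m ∈ Finset.Icc 1 A, s m * (D m / Real.sqrt m)| := abs_add_le _ _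
    _ = 2 * |∑ m ∈ Finset.Icc 1 A, s m * t m| +
        2 * |∑ m ∈ Finset.Icc 1 A, s m * (D m / Real.sqrt m)| := by
        rw [abs_mul, abs_mul, abs_two]
    _ ≤ _ := by linarith

theorem fs_hpoly : type_of% @fs_hpoly_pr := @fs_hpoly_pr
theorem fs_mean : type_of% @fs_mean_pr := @fs_mean_pr

end Pool.Agent.KSL
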