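import Pool.Agent.Lib_helper68.KSL.Defs
import Pool.Agent.Lib_helper68.LEV.MRT

/-! KSL, block HBI. -/

set_option autoImplicit false

namespace Pool.Agent.KSL

open Pool.Agent.LEV Pool.Agent.LVB
open Filter Topology

/-- the sum over `IN N` as a difference -/
lemma hbi_split {L z : ℝ} (hL : 0 ≤ L) (hLz : L ≤ z) :
    ∑ p ∈ (Finset.Icc 1 ⌊z⌋₊).filter (fun p : ℕ => p.Prime ∧ L < p), 1 / (p : ℝ) =
      ∑ p ∈ (Finset.Icc 1 ⌊z⌋₊).filter Nat.Prime, 1 / (p : ℝ) -
        ∑ p ∈ (Finset.Icc 1 ⌊L⌋₊).filter Nat.Prime, 1 / (p : ℝ) := by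
  have h1 : (Finset.Icc 1 ⌊z⌋₊).filter Nat.Prime =
      (Finset.Icc 1 ⌊z⌋₊).filter (fun p : ℕ => p.Prime ∧ L < p) ∪
        (Finset.Icc 1 ⌊L⌋₊).filter Nat.Prime := by
    ext p
    simp only [Finset.mem_filter, Finset.mem_Icc, Finset.mem_union]
    constructor
    · rintro ⟨⟨h1, h2⟩, h3⟩
      by_cases h : L < p
      · exact Or.inl ⟨⟨h1, h2⟩, h3, h⟩
      · exact Or.inr ⟨⟨h1, Nat.le_floor (not_lt.1 h)⟩, h3⟩
    · rintro (⟨⟨h1, h2⟩, h3, h⟩ | ⟨⟨h1, h2⟩, h3⟩)
      · exact ⟨⟨h1, h2⟩, h3⟩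
      · exact ⟨⟨h1, h2.trans (Nat.floor_le_floor hLz)⟩, h3⟩
  have h2 : Disjoint ((Finset.Icc 1 ⌊z⌋₊).filter (fun p : ℕ => p.Prime ∧ L < p))
      ((Finset.Icc 1 ⌊L⌋₊).filter Nat.Prime) := by
    rw [Finset.disjoint_left]
    intro p hp hp'
    simp only [Finset.mem_filter, Finset.mem_Icc] at hp hp'
    have : (p : ℝ) ≤ L := (Nat.cast_le.2 hp'.1.2).trans (Nat.floor_le hL)
    linarith [hp.2.2]
  rw [h1, Finset.sum_union h2]
  ring

/-- block HBI -/
theorem hb_in_pr {ε : ℝ} (hε : 0 < ε) : ∃ N₀ : ℕ, ∀ N : ℕ, N₀ ≤ N →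
    HB (IN N) ≤ Real.log (Real.log N) ∧ (1 - ε) * Real.log (Real.log N) ≤ HB (IN N) ∧
      1 ≤ HB (IN N) := by
  obtain ⟨C, hC⟩ := mertens_two
  have hLL : Tendsto (fun N : ℕ => Real.log (Real.log (N : ℝ))) atTop atTop :=
    Real.tendsto_log_atTop.comp (Real.tendsto_log_atTop.comp tendsto_natCast_atTop_atTop)
  -- conditions on L
  have c1 : ∀ᶠ L : ℝ in atTop, 2 * C ≤ 2 * Real.log L + Real.log (Real.log L) := by
    have h1 : Tendsto (fun L : ℝ => 2 * Real.log L + Real.log (Real.log L)) atTop atTop :=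
      Tendsto.atTop_add_atTop (Real.tendsto_log_atTop.const_mul_atTop (by norm_num))
        (Real.tendsto_log_atTop.comp Real.tendsto_log_atTop)
    exact h1.eventually_ge_atTop _
  have c2 : ∀ᶠ L : ℝ in atTop, ∀ c : ℝ, (c = ε ∨ c = 1 / 2) →
      2 * Real.log L + Real.log (Real.log L) + 2 * C ≤ c * L := by
    have key : ∀ c : ℝ, 0 < c → ∀ᶠ L : ℝ in atTop,
        2 * Real.log L + Real.log (Real.log L) + 2 * C ≤ c * L := by
      intro c hc
      have h1 : Tendsto (fun L : ℝ => Real.log L / L) atTop (𝓝 0) := by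
        have := Real.tendsto_pow_log_div_mul_add_atTop 1 0 1 one_ne_zero
        simpa using this
      have h2 : ∀ᶠ L : ℝ in atTop, Real.log L / L < c / 6 :=
        h1.eventually_lt_const (by positivity)
      have h3 : ∀ᶠ L : ℝ in atTop, 4 * C / c ≤ L := eventually_ge_atTop _
      filter_upwards [h2, h3, eventually_ge_atTop (Real.exp 1)] with L e1 e2 e3
      have hL0 : 0 < L := lt_of_lt_of_le (Real.exp_pos 1) e3
      have hlog1 : 1 ≤ Real.log L := by
        rw [Real.le_log_iff_exp_le hL0]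
        exact e3
      have e4 : Real.log L ≤ c / 6 * L := by
        rw [div_lt_iff₀ hL0] at e1
        linarith
      have e5 : Real.log (Real.log L) ≤ Real.log L := by
        have := Real.log_le_sub_one_of_pos (lt_of_lt_of_le one_pos hlog1)
        linarith
      have e6 : 2 * C ≤ c / 2 * L := by
        rw [div_le_iff₀ hc] at e2
        linarith
      linarith
    have hh := (key ε hε).and (key (1 / 2) (by norm_num))
    filter_upwards [hh] with L hL c hc
    rcases hc with rfl | rfl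
    · exact hL.1
    · exact hL.2
  have c3 : ∀ᶠ L : ℝ in atTop, 24 ≤ L := eventually_ge_atTop _
  have hall := (c1.and (c2.and c3))
  have hN := hLL.eventually hall
  obtain ⟨N₀, hN₀⟩ := (hN.and (eventually_ge_atTop 3)).exists_forall_of_atTop
  refine ⟨N₀, fun N hNN => ?_⟩
  obtain ⟨⟨d1, d2, d3⟩, hN3⟩ := hN₀ N hNN
  set L : ℝ := Real.log (Real.log (N : ℝ)) with hL
  have hL0 : 0 < L := by linarith
  have hlogL : 1 ≤ Real.log L := by
    rw [Real.le_log_iff_exp_le hL0]
    have := Real.exp_one_lt_d9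
    linarith
  have hN0 : (1 : ℝ) < N := by
    have : (3 : ℝ) ≤ N := by exact_mod_cast hN3
    linarith
  have hlogN : 0 < Real.log N := Real.log_pos hN0
  have hexpL : Real.exp L = Real.log N := Real.exp_log hlogN
  -- size of z
  have hlogz : Real.log (zN N) = Real.exp L / L ^ 2 := by
    unfold zN
    rw [Real.log_exp, ← hL, hexpL]
  have hz0 : 0 < zN N := Real.exp_pos _
  have hpow : L ^ 4 / 24 ≤ Real.exp L := by
    have := Real.pow_div_factorial_le_exp L hL0.le 4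
    have h24 : ((Nat.factorial 4 : ℕ) : ℝ) = 24 := by norm_num [Nat.factorial]
    rw [h24] at this
    exact this
  have hlz : L ≤ Real.log (zN N) := by
    rw [hlogz, le_div_iff₀ (by positivity)]
    have : L * L ^ 2 ≤ L ^ 4 / 24 := by
      have h5 : L ^ 4 / 24 - L * L ^ 2 = L ^ 3 * (L - 24) / 24 := by ring
      have h6 : 0 ≤ L ^ 3 * (L - 24) / 24 := by
        have : 0 ≤ L - 24 := by linarith
        positivity
      linarith
    linarith
  have hLz : L ≤ zN N := by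
    have h1 : Real.log (zN N) ≤ zN N - 1 := Real.log_le_sub_one_of_pos hz0
    linarith
  have hsplit : HB (IN N) = ∑ p ∈ (Finset.Icc 1 ⌊zN N⌋₊).filter Nat.Prime, 1 / (p : ℝ) -
        ∑ p ∈ (Finset.Icc 1 ⌊L⌋₊).filter Nat.Prime, 1 / (p : ℝ) := by
    have := hbi_split (L := L) (z := zN N) hL0.le hLz
    rw [← this]
    rfl
  have hm1 := abs_le.1 (hC (zN N) (by linarith))
  have hm2 := abs_le.1 (hC L (by linarith))
  have hll : Real.log (Real.log (zN N)) = L - 2 * Real.log L := by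
    rw [hlogz, Real.log_div (Real.exp_pos L).ne' (by positivity), Real.log_exp, Real.log_pow]
    push_cast
    ring
  rw [hll] at hm1
  have g1 := d2 ε (Or.inl rfl)
  have g2 := d2 (1 / 2) (Or.inr rfl)
  rw [hsplit]
  refine ⟨?_, ?_, ?_⟩
  · linarith [hm1.2, hm2.1]
  · have : (1 - ε) * L = L - ε * L := by ring
    rw [this]
    linarith [hm1.1, hm2.2]
  · linarith [hm1.1, hm2.2]

theorem hb_in : type_of% @hb_in_pr := @hb_in_pr

end Pool.Agent.KSL
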