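import Pool.Agent.Lib_helper68.KSL.Defs
import Pool.Agent.Lib_helper68.KSLF.HBI

/-! KSL, block PEX. -/

set_option autoImplicit false

namespace Pool.Agent.KSL

open Pool.Agent.LEV Pool.Agent.LVB
open MeasureTheory Filter Topology ProbabilityTheory
open scoped ENNReal NNReal

lemma pex_sub {I : Finset ℕ} {P : Measure (ℕ → ℝ)} (hP : IsST I P) {p : ℕ} (hp : p ∈ I) :
    HasSubgaussianMGF (fun x : ℕ → ℝ => x p / Real.sqrt p)
      ((‖2 / Real.sqrt p - (-(2 / Real.sqrt p))‖₊ / 2) ^ 2) P := by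
  have := hP.prob
  apply hasSubgaussianMGF_of_mem_Icc_of_integral_eq_zero
  · exact ((measurable_pi_apply p).div_const _).aemeasurable
  · filter_upwards [hP.bdd] with x hx
    have h1 := abs_le.1 (hx p hp)
    have h2 : 0 ≤ Real.sqrt p := Real.sqrt_nonneg _
    constructor
    · rw [← neg_div]
      exact div_le_div_of_nonneg_right h1.1 h2
    · exact div_le_div_of_nonneg_right h1.2 h2
  · rw [integral_div]
    have h1 := hP.mom p hp 1
    have h2 : ∀ x : ℝ, Uu x 1 = x := fun x => rfl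
    simp only [h2] at h1
    rw [h1]
    norm_num

lemma pex_PB {I : Finset ℕ} (hI : ∀ p ∈ I, p.Prime) {P : Measure (ℕ → ℝ)} (hP : IsST I P) (s : ℝ) :
    Integrable (fun x => Real.exp (s * PB I x)) P ∧
      ∫ x, Real.exp (s * PB I x) ∂P ≤ Real.exp (2 * HB I * s ^ 2) := by
  have hind : iIndepFun (fun (p : I) (x : ℕ → ℝ) => x p / Real.sqrt (p : ℕ)) P :=
    hP.ind.comp (fun (p : I) (t : ℝ) => t / Real.sqrt (p : ℕ)) (fun p => by fun_prop)
  have hsub := HasSubgaussianMGF.sum_of_iIndepFun hind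
    (c := fun p : I => (‖2 / Real.sqrt (p : ℕ) - (-(2 / Real.sqrt (p : ℕ)))‖₊ / 2) ^ 2)
    (s := Finset.univ) (fun p _ => pex_sub hP p.2)
  have h1 : ∀ x : ℕ → ℝ, ∑ p : I, x p / Real.sqrt (p : ℕ) = PB I x := by
    intro x
    unfold PB
    exact Finset.sum_coe_sort I (fun p : ℕ => x p / Real.sqrt p)
  simp only [h1] at hsub
  refine ⟨hsub.integrable_exp_mul s, ?_⟩
  have h2 := hsub.mgf_le s
  unfold mgf at h2
  refine le_trans h2 (le_of_eq ?_)
  congr 1
  have h3 : ((∑ p : I, (‖2 / Real.sqrt (p : ℕ) - (-(2 / Real.sqrt (p : ℕ)))‖₊ / 2) ^ 2 : ℝ≥0) : ℝ) =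
      4 * HB I := by
    rw [NNReal.coe_sum]
    have h4 : ∀ p : I, (((‖2 / Real.sqrt (p : ℕ) - (-(2 / Real.sqrt (p : ℕ)))‖₊ / 2) ^ 2 : ℝ≥0) : ℝ) =
        4 * (1 / ((p : ℕ) : ℝ)) := by
      intro p
      have hp0 : (0 : ℝ) < (p : ℕ) := by exact_mod_cast (hI p p.2).pos
      push_cast
      rw [sub_neg_eq_add, Real.norm_of_nonneg (by positivity)]
      have h5 : Real.sqrt (p : ℕ) ^ 2 = (p : ℕ) := Real.sq_sqrt hp0.le
      have h6 : (2 / Real.sqrt (p : ℕ) + 2 / Real.sqrt (p : ℕ)) / 2 = 2 / Real.sqrt (p : ℕ) := by ring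
      rw [h6, div_pow, h5]
      ring
    rw [Finset.sum_congr rfl fun p _ => h4 p, ← Finset.mul_sum]
    congr 1
    unfold HB
    exact Finset.sum_coe_sort I (fun p : ℕ => 1 / (p : ℝ))
  rw [h3]
  ring

/-- block PEX -/
theorem pn_exp_pr (τ : ℝ) : ∃ (C : ℝ) (N₀ : ℕ), ∀ N : ℕ, N₀ ≤ N → ∀ P : Measure (ℕ → ℝ),
    IsST (IN N) P → Integrable (fun x => Real.exp (τ * |Pn N x|)) P ∧
      ∫ x, Real.exp (τ * |Pn N x|) ∂P ≤ C := by
  obtain ⟨N₀, hN₀⟩ := hb_in (ε := 1) one_pos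
  refine ⟨2 * Real.exp (2 * τ ^ 2), N₀, fun N hN P hP => ?_⟩
  have hH := (hN₀ N hN).2.2
  have hH0 : 0 < HB (IN N) := by linarith
  have hI : ∀ p ∈ IN N, p.Prime := by
    intro p hp
    unfold IN at hp
    exact (Finset.mem_filter.1 hp).2.1
  have key : ∀ σ : ℝ, σ ^ 2 = τ ^ 2 → Integrable (fun x => Real.exp (σ * Pn N x)) P ∧
      ∫ x, Real.exp (σ * Pn N x) ∂P ≤ Real.exp (2 * τ ^ 2) := by
    intro σ hσ
    have h1 := pex_PB hI hP (σ / Real.sqrt (HB (IN N)))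
    have h2 : ∀ x : ℕ → ℝ, σ / Real.sqrt (HB (IN N)) * PB (IN N) x = σ * Pn N x := by
      intro x
      unfold Pn
      ring
    simp only [h2] at h1
    refine ⟨h1.1, h1.2.trans (le_of_eq ?_)⟩
    congr 1
    rw [div_pow, Real.sq_sqrt hH0.le, hσ]
    field_simp
  have hp := key τ rfl
  have hm := key (-τ) (neg_sq τ)
  have hle : ∀ x : ℕ → ℝ, Real.exp (τ * |Pn N x|) ≤
      Real.exp (τ * Pn N x) + Real.exp (-τ * Pn N x) := by
    intro x
    rcases abs_choice (Pn N x) with h | h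
    · rw [h]
      linarith [Real.exp_pos (-τ * Pn N x)]
    · rw [h, mul_neg, ← neg_mul]
      linarith [Real.exp_pos (τ * Pn N x)]
  have hmeas : Measurable (fun x : ℕ → ℝ => Pn N x) := by
    unfold Pn PB
    exact (Finset.measurable_fun_sum _ fun p _ => (measurable_pi_apply p).div_const _).div_const _
  have hint : Integrable (fun x => Real.exp (τ * |Pn N x|)) P := by
    refine (hp.1.add hm.1).mono' ?_ ?_
    · exact (Real.measurable_exp.comp ((hmeas.abs).const_mul τ)).aestronglyMeasurable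
    · refine Filter.Eventually.of_forall fun x => ?_
      rw [Real.norm_of_nonneg (Real.exp_pos _).le]
      exact hle x
  refine ⟨hint, ?_⟩
  calc ∫ x, Real.exp (τ * |Pn N x|) ∂P ≤
        ∫ x, (Real.exp (τ * Pn N x) + Real.exp (-τ * Pn N x)) ∂P :=
        integral_mono hint (hp.1.add hm.1) hle
    _ = ∫ x, Real.exp (τ * Pn N x) ∂P + ∫ x, Real.exp (-τ * Pn N x) ∂P :=
        integral_add hp.1 hm.1
    _ ≤ _ := by linarith [hp.2, hm.2]

theorem pn_exp : type_of% @pn_exp_pr := @pn_exp_pr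

end Pool.Agent.KSL
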