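import Pool.Agent.Lib_helper68.KSL.Defs
import Pool.Agent.Lib_helper41.LVBF.TRM
import Pool.Agent.Lib_helper41.LVBF.SPL
import Pool.Agent.Lib_helper41.LVBF.STE
import Pool.Agent.Lib_helper41.LVBF.STO
import Pool.Agent.Lib_helper41.LVBF.HPM
import Pool.Agent.Lib_helper41.LVBF.ELM
import Pool.Agent.Lib_helper41.LVBF.ELF
import Pool.Agent.Lib_helper68.KSLF.PEX
import Pool.Agent.Lib_helper68.KSLF.SZF

/-! KSL, block HMM: harm_mom (cites pn_exp, sizes) -/

set_option autoImplicit false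

namespace Pool.Agent.KSL

open Pool.Agent.LEV Pool.Agent.LVB
open Pool.Agent.FG61 (mu phi cc ff AA Lam)
open Complex MeasureTheory Filter Topology UpperHalfPlane ModularGroup ProbabilityTheory
open scoped MatrixGroups Modular ENNReal ModularForm ComplexConjugate ContDiff

lemma HMM_pn (N : ℕ) (x : ℕ → ℝ) :
    Pn N x = ∑ p ∈ IN N, (1 / (Real.sqrt p * Real.sqrt (HB (IN N)))) * x p := by
  unfold Pn PB
  rw [Finset.sum_div]
  refine Finset.sum_congr rfl fun p _ => ?_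
  rw [div_div]
  ring

lemma HMM_prime {N p : ℕ} (hp : p ∈ IN N) : p.Prime := by
  unfold IN at hp
  rw [Finset.mem_filter] at hp
  exact hp.2.1

lemma HMM_le {N p : ℕ} (hp : p ∈ IN N) : p ≤ zz N := by
  unfold IN at hp
  rw [Finset.mem_filter, Finset.mem_Icc] at hp
  exact hp.1.2

lemma HMM_hp (N k : ℕ) : HPoly (IN N) (zz N ^ k) (fun x => Pn N x ^ k) := by
  have h1 := hpoly_pow_pr (I := IN N) (fun p hp => HMM_prime hp) (Z := zz N)
    (fun p hp => HMM_le hp) (fun p => 1 / (Real.sqrt p * Real.sqrt (HB (IN N)))) k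
  have h2 : (fun x : ℕ → ℝ => Pn N x ^ k) = fun x => (∑ p ∈ IN N,
      (1 / (Real.sqrt p * Real.sqrt (HB (IN N)))) * x p) ^ k := by
    funext x
    rw [HMM_pn]
  rw [h2]
  exact h1

/-- the integral of a Hecke polynomial does not depend on the model -/
lemma HMM_indep {I I' : Finset ℕ} (hI : ∀ p ∈ I, p.Prime) {X : ℕ} {G : (ℕ → ℝ) → ℝ}
    (hG : HPoly I X G) {P P' : Measure (ℕ → ℝ)} (hP : IsST I P) (hP' : IsST I' P')
    (h : I ⊆ I') : ∫ x, G x ∂P = ∫ x, G x ∂P' := by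
  have hG1 : HPoly I (X + 1) G := hpoly_mono_pr (by omega) hG
  obtain ⟨c, hc, hG2⟩ := hG1
  have e1 : G = fun x => ∑ m ∈ Finset.Icc 1 (X + 1), c m * Um m x := funext hG2
  rw [e1, st_mean_pr hI hP (by omega) hc, st_mean_pr hI (st_sub_pr h hP') (by omega) hc]

lemma HMM_dep_um {I : Finset ℕ} {a : ℕ} (ha : a.primeFactors ⊆ I) :
    SPL_Dep I (fun x => Um a x) := by
  refine ⟨fun y => ∏ p : I, Uu (y p) (a.factorization p), ?_, fun x => ?_⟩
  · exact Finset.measurable_fun_prod _ fun p _ =>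
      (EQS_ucont _).measurable.comp (measurable_pi_apply p)
  · beta_reduce
    rw [STO_um_sub ha, Finset.prod_coe_sort I (fun p => Uu (x p) (a.factorization p))]

lemma HMM_dep_hd {A : Finset ℕ} (c : ℕ → ℝ) {J : Finset ℕ} (hJ : ∀ a ∈ A, a.primeFactors ⊆ J) :
    SPL_Dep J (fun x => Hd A c x) := by
  have : ∀ a ∈ A, SPL_Dep J (fun x => Um a x) := fun a ha => HMM_dep_um (hJ a ha)
  refine ⟨fun y => ∑ a ∈ A, c a * (∏ p : J, Uu (y p) (a.factorization p)) ^ 2, ?_, fun x => ?_⟩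
  · refine Finset.measurable_fun_sum _ fun a _ => ?_
    refine Measurable.const_mul (Measurable.pow_const ?_ 2) _
    exact Finset.measurable_fun_prod _ fun p _ =>
      (EQS_ucont _).measurable.comp (measurable_pi_apply p)
  · unfold Hd
    refine Finset.sum_congr rfl fun a ha => ?_
    rw [STO_um_sub (hJ a ha), Finset.prod_coe_sort J (fun p => Uu (x p) (a.factorization p))]

lemma HMM_dep_pn (N k : ℕ) : SPL_Dep (IN N) (fun x => Pn N x ^ k) := by
  refine ⟨fun y => (∑ p : IN N, (1 / (Real.sqrt p * Real.sqrt (HB (IN N)))) * y p) ^ k, ?_,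
    fun x => ?_⟩
  · exact (Finset.measurable_fun_sum _ fun p _ => (measurable_pi_apply p).const_mul _).pow_const k
  · beta_reduce
    rw [HMM_pn]
    congr 1
    rw [← Finset.sum_coe_sort (IN N)]

lemma HMM_um_bd {J : Finset ℕ} {a : ℕ} (ha : a.primeFactors ⊆ J) : ∃ B : ℝ, 0 ≤ B ∧
    ∀ x : ℕ → ℝ, (∀ p ∈ J, |x p| ≤ 2) → |Um a x| ≤ B := by
  refine ⟨∏ p ∈ a.primeFactors, ((a.factorization p : ℝ) + 1),
    Finset.prod_nonneg fun p _ => by positivity, fun x hx => ?_⟩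
  unfold Um
  rw [Finset.abs_prod]
  exact Finset.prod_le_prod (fun p _ => abs_nonneg _) fun p hp => uu_le (hx p (ha hp)) _

lemma HMM_hd_bd (A : Finset ℕ) (c : ℕ → ℝ) {J : Finset ℕ} (hJ : ∀ a ∈ A, a.primeFactors ⊆ J) :
    ∃ B : ℝ, 0 ≤ B ∧ ∀ x : ℕ → ℝ, (∀ p ∈ J, |x p| ≤ 2) → |Hd A c x| ≤ B := by
  classical
  have h1 : ∀ a : ℕ, ∃ B : ℝ, 0 ≤ B ∧ (a ∈ A → ∀ x : ℕ → ℝ, (∀ p ∈ J, |x p| ≤ 2) → |Um a x| ≤ B) := by
    intro a
    by_cases ha : a ∈ A
    · obtain ⟨B, hB, h⟩ := HMM_um_bd (hJ a ha)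
      exact ⟨B, hB, fun _ => h⟩
    · exact ⟨0, le_rfl, fun h => absurd h ha⟩
  choose B hB0 hB using h1
  refine ⟨∑ a ∈ A, |c a| * B a ^ 2, Finset.sum_nonneg fun a _ => by positivity, fun x hx => ?_⟩
  unfold Hd
  refine (Finset.abs_sum_le_sum_abs _ _).trans (Finset.sum_le_sum fun a ha => ?_)
  rw [abs_mul, abs_pow]
  exact mul_le_mul_of_nonneg_left (pow_le_pow_left₀ (abs_nonneg _) (hB a ha x hx) 2) (abs_nonneg _)

lemma HMM_hd_int (A : Finset ℕ) (c : ℕ → ℝ) (hA : ∀ a ∈ A, 1 ≤ a) {J : Finset ℕ}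
    (hJ : ∀ a ∈ A, a.primeFactors ⊆ J) {P : Measure (ℕ → ℝ)} (hP : IsST J P) :
    ∫ x, Hd A c x ∂P = ∑ a ∈ A, c a := by
  unfold Hd
  have h1 : ∀ a ∈ A, Integrable (fun x => c a * Um a x ^ 2) P := by
    intro a ha
    simp_rw [sq]
    exact (STO_int hP (hJ a ha) (hJ a ha)).const_mul _
  rw [integral_finsetSum _ h1]
  refine Finset.sum_congr rfl fun a ha => ?_
  rw [integral_const_mul]
  simp_rw [sq]
  have := hA a ha
  rw [STO_orth hP (by omega) (by omega) (hJ a ha) (hJ a ha), if_pos rfl, mul_one]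

/-- moments over the family, weighted by the density -/
theorem harm_mom_pr (A : Finset ℕ) (c : ℕ → ℝ) (hA : ∀ a ∈ A, 1 ≤ a) (k : ℕ) {ε : ℝ}
    (hε : 0 < ε) : ∃ N₀ : ℕ, ∀ (N : ℕ) [Fact N.Prime], N₀ ≤ N → ∀ {ι : Type} [Fintype ι]
    (f : ι → S2 N), AllNew f → ∀ P : Measure (ℕ → ℝ), IsST (IN N) P →
      |∑ i, om (f i) * (Hd A c (la (f i)) * Pn N (la (f i)) ^ k) -
        (∑ a ∈ A, c a) * ∫ x, Pn N x ^ k ∂P| ≤ ε := by
  classical
  -- the fixed primes
  set J : Finset ℕ := A.biUnion Nat.primeFactors with hJdef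
  have hJ : ∀ a ∈ A, a.primeFactors ⊆ J := fun a ha => Finset.subset_biUnion_of_mem _ ha
  have hJp : ∀ p ∈ J, p.Prime := by
    intro p hp
    rw [hJdef, Finset.mem_biUnion] at hp
    obtain ⟨a, -, ha⟩ := hp
    exact Nat.prime_of_mem_primeFactors ha
  set A0 : ℕ := ∑ a ∈ A, a + 1 with hA0
  have hA0' : ∀ a ∈ A, a ≤ A0 := by
    intro a ha
    have := Finset.single_le_sum (f := fun a : ℕ => a) (fun a _ => Nat.zero_le a) ha
    omega
  have hJA : ∀ p ∈ J, p ≤ A0 := by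
    intro p hp
    rw [hJdef, Finset.mem_biUnion] at hp
    obtain ⟨a, ha, hpa⟩ := hp
    exact (Nat.le_of_dvd (hA a ha) (Nat.dvd_of_mem_primeFactors hpa)).trans (hA0' a ha)
  obtain ⟨B, hB0, hB⟩ := HMM_hd_bd A c hJ
  obtain ⟨C1, N1, hC1⟩ := pn_exp 1
  set M : ℝ := B ^ 2 * (((2 * k).factorial : ℝ) * |C1|) with hM
  have hM0 : 0 ≤ M := by positivity
  obtain ⟨ν, N2, hν, htr⟩ := transfer_mean_pr (ε := ε / (Real.sqrt M + 1)) (by positivity)
  set e : ℝ := min (1 / ((A0 : ℝ) + 1)) (1 / (2 * ((k : ℝ) + 1))) with he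
  have he0 : 0 < e := by positivity
  obtain ⟨N3, hsz⟩ := sizes (δ := 1 / 8) (by norm_num) (by norm_num) he0
  refine ⟨max (max N1 N2) (max (max N3 (A0 + 1)) (⌈((A0 : ℝ) ^ 2 / ν ^ 2) ^ 2⌉₊ + 1)), ?_⟩
  intro N _ hN ι _ f hf P hP
  have hN1 : N1 ≤ N := le_trans (by simp) hN
  have hN2 : N2 ≤ N := le_trans (by simp) hN
  have hN3 : N3 ≤ N := le_trans (by simp) hN
  have hN4 : A0 + 1 ≤ N := le_trans (by simp) hN
  have hN5 : ⌈((A0 : ℝ) ^ 2 / ν ^ 2) ^ 2⌉₊ + 1 ≤ N := le_trans (by simp) hN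
  obtain ⟨s1, s2, s3, s4, -, -, -, s5, -⟩ := hsz N hN3
  have hNr : (3 : ℝ) ≤ N := by exact_mod_cast s1
  have hNpos : (0 : ℝ) < N := by linarith
  have hNone : (1 : ℝ) ≤ N := by linarith
  -- sizes
  have hzN : zz N < N := by
    refine lt_of_lt_of_le s3 ?_
    unfold MM
    have h1 : (N : ℝ) ^ ((1 : ℝ) / 2 - 1 / 8) ≤ N := by
      calc (N : ℝ) ^ ((1 : ℝ) / 2 - 1 / 8) ≤ (N : ℝ) ^ (1 : ℝ) :=
            Real.rpow_le_rpow_of_exponent_le hNone (by norm_num)
        _ = N := Real.rpow_one _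
    exact_mod_cast (Nat.floor_le (by positivity)).trans h1
  have hX : ((A0 * A0 * zz N ^ k : ℕ) : ℝ) ≤ ν ^ 2 * N := by
    have h1 : ((zz N : ℝ)) ^ k ≤ Real.sqrt N := by
      calc ((zz N : ℝ)) ^ k ≤ ((N : ℝ) ^ e) ^ k := pow_le_pow_left₀ (Nat.cast_nonneg _) s4 k
        _ = (N : ℝ) ^ (e * k) := by rw [← Real.rpow_natCast, ← Real.rpow_mul hNpos.le]
        _ ≤ (N : ℝ) ^ ((1 : ℝ) / 2) := by
            refine Real.rpow_le_rpow_of_exponent_le hNone ?_
            have h2 : e ≤ 1 / (2 * ((k : ℝ) + 1)) := min_le_right _ _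
            have hk : (0 : ℝ) ≤ k := Nat.cast_nonneg k
            calc e * k ≤ 1 / (2 * ((k : ℝ) + 1)) * k := mul_le_mul_of_nonneg_right h2 hk
              _ ≤ 1 / 2 := by
                rw [div_mul_eq_mul_div, div_le_div_iff₀ (by positivity) (by norm_num)]
                linarith
        _ = Real.sqrt N := (Real.sqrt_eq_rpow _).symm
    have h2 : (A0 : ℝ) ^ 2 / ν ^ 2 ≤ Real.sqrt N := by
      apply Real.le_sqrt_of_sq_le
      have h3 : ((⌈((A0 : ℝ) ^ 2 / ν ^ 2) ^ 2⌉₊ + 1 : ℕ) : ℝ) ≤ N := by exact_mod_cast hN5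
      have h4 := Nat.le_ceil (((A0 : ℝ) ^ 2 / ν ^ 2) ^ 2)
      push_cast at h3
      linarith
    have h3 : (A0 : ℝ) ^ 2 ≤ ν ^ 2 * Real.sqrt N := by
      rw [div_le_iff₀ (by positivity)] at h2
      linarith
    push_cast
    calc (A0 : ℝ) * A0 * (zz N : ℝ) ^ k = (A0 : ℝ) ^ 2 * (zz N : ℝ) ^ k := by ring
      _ ≤ (ν ^ 2 * Real.sqrt N) * Real.sqrt N :=
          mul_le_mul h3 h1 (by positivity) (by positivity)
      _ = ν ^ 2 * N := by rw [mul_assoc, Real.mul_self_sqrt hNpos.le]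
  have hdis : Disjoint J (IN N) := by
    rw [Finset.disjoint_left]
    intro p hp hp'
    have h1 := hJA p hp
    unfold IN at hp'
    rw [Finset.mem_filter] at hp'
    have h2 := hp'.2.2
    have h3 : (A0 : ℝ) + 1 ≤ 1 / e := by
      rw [le_div_iff₀ he0]
      have h4 : e ≤ 1 / ((A0 : ℝ) + 1) := min_le_left _ _
      calc ((A0 : ℝ) + 1) * e ≤ ((A0 : ℝ) + 1) * (1 / ((A0 : ℝ) + 1)) :=
            mul_le_mul_of_nonneg_left h4 (by positivity)
        _ = 1 := by field_simp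
    have h5 : (p : ℝ) ≤ A0 := by exact_mod_cast h1
    linarith
  -- the model
  have hQp : ∀ p ∈ J ∪ IN N, p.Prime := by
    intro p hp
    rcases Finset.mem_union.1 hp with h | h
    · exact hJp p h
    · exact HMM_prime h
  obtain ⟨P', hP'⟩ := st_exists_pr (J ∪ IN N) hQp
  have hPJ : IsST J P' := st_sub_pr Finset.subset_union_left hP'
  have hPI : IsST (IN N) P' := st_sub_pr Finset.subset_union_right hP'
  have := hP'.prob
  set G : (ℕ → ℝ) → ℝ := fun x => Hd A c x * Pn N x ^ k with hG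
  have hHd : HPoly J (A0 * A0) (fun x => Hd A c x) := by
    unfold Hd
    refine hpoly_sum_pr A fun a ha => hpoly_smul_pr ?_ (c a)
    have h1 : HPoly J A0 (Um a) := HPO_single (hA a ha) (hA0' a ha) (hJ a ha)
    have h2 := hpoly_mul_pr hJp hJp h1 h1
    rw [Finset.union_self] at h2
    simp_rw [sq]
    exact h2
  have hGp : HPoly (J ∪ IN N) (A0 * A0 * zz N ^ k) G :=
    hpoly_mul_pr hJp (fun p hp => HMM_prime hp) hHd (HMM_hp N k)
  have hmain := (htr N hN2 f hf hX (I := J ∪ IN N) (fun p hp => ⟨hQp p hp, by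
    rcases Finset.mem_union.1 hp with h | h
    · have := hJA p h
      omega
    · have := HMM_le h
      omega⟩) hP' hGp).1
  -- the mean
  have hmean : ∫ x, G x ∂P' = (∑ a ∈ A, c a) * ∫ x, Pn N x ^ k ∂P := by
    rw [hG, SPL_pair hP' Finset.subset_union_left Finset.subset_union_right hdis
      (HMM_dep_hd c hJ) (HMM_dep_pn N k), HMM_hd_int A c hA hJ hPJ]
    congr 1
    exact (HMM_indep (fun p hp => HMM_prime hp) (HMM_hp N k) hP hPI (subset_refl _)).symm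
  -- the second moment
  have hsq : ∫ x, G x ^ 2 ∂P' ≤ M := by
    obtain ⟨hi, hle⟩ := hC1 N hN1 P' hPI
    have h1 : ∫ x, G x ^ 2 ∂P' ≤
        ∫ x, B ^ 2 * (((2 * k).factorial : ℝ) * Real.exp (1 * |Pn N x|)) ∂P' := by
      refine integral_mono_of_nonneg (Filter.Eventually.of_forall fun x => sq_nonneg _)
        ((hi.const_mul _).const_mul _) ?_
      filter_upwards [hPJ.bdd] with x hx
      have h2 : G x ^ 2 = Hd A c x ^ 2 * |Pn N x| ^ (2 * k) := by
        rw [hG]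
        simp only
        rw [mul_pow, ← pow_mul, mul_comm k 2, pow_mul |Pn N x|, sq_abs, pow_mul]
      rw [h2]
      refine mul_le_mul ?_ ?_ (by positivity) (by positivity)
      · rw [← sq_abs]
        exact pow_le_pow_left₀ (abs_nonneg _) (hB x hx) 2
      · rw [one_mul]
        have h3 := Real.pow_div_factorial_le_exp (x := |Pn N x|) (abs_nonneg _) (2 * k)
        rw [div_le_iff₀ (by positivity)] at h3
        linarith
    refine h1.trans ?_
    rw [integral_const_mul, integral_const_mul, hM]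
    refine mul_le_mul_of_nonneg_left (mul_le_mul_of_nonneg_left ?_ (by positivity)) (by positivity)
    exact hle.trans (le_abs_self _)
  rw [hmean] at hmain
  refine hmain.trans ?_
  have h6 : Real.sqrt (∫ x, G x ^ 2 ∂P') ≤ Real.sqrt M := Real.sqrt_le_sqrt hsq
  calc ε / (Real.sqrt M + 1) * Real.sqrt (∫ x, G x ^ 2 ∂P')
      ≤ ε / (Real.sqrt M + 1) * (Real.sqrt M + 1) :=
        mul_le_mul_of_nonneg_left (by linarith) (by positivity)
    _ = ε := by
        have : Real.sqrt M + 1 ≠ 0 := by positivity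
        field_simp

theorem harm_mom : type_of% @harm_mom_pr := @harm_mom_pr

end Pool.Agent.KSL
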