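import Pool.Agent.Lib_helper68.KSL.Defs
import Pool.Agent.Lib_helper68.LEV.HPO
import Pool.Agent.Lib_helper41.LVBF.HPM

namespace Pool.Agent.KSL

open Pool.Agent.LEV Pool.Agent.LVB
open Pool.Agent.FG61 (mu phi cc ff AA Lam)
open Complex MeasureTheory Filter Topology UpperHalfPlane ModularGroup ProbabilityTheory
open scoped MatrixGroups Modular ENNReal ModularForm ComplexConjugate ContDiff

theorem rpo_Uu_cont (k : ℕ) : Continuous (fun x : ℝ => Uu x k) := by
  have h : ∀ k, Continuous (fun x : ℝ => Uu x k) ∧ Continuous (fun x : ℝ => Uu x (k + 1)) := by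
    intro k
    induction k with
    | zero => exact ⟨continuous_const, continuous_id⟩
    | succ k ih => exact ⟨ih.2, (continuous_id.mul ih.2).sub ih.1⟩
  exact (h k).1

theorem rpo_Um_cont (m : ℕ) : Continuous (Um m) := by
  unfold Um
  exact continuous_finsetProd _ fun p _ => (rpo_Uu_cont _).comp (continuous_apply p)

theorem rpo_Um_congr {I : Finset ℕ} {m : ℕ} (hm : m.primeFactors ⊆ I) {x x' : ℕ → ℝ}
    (h : ∀ p ∈ I, x p = x' p) : Um m x = Um m x' :=
  Finset.prod_congr rfl fun p hp => by rw [h p (hm hp)]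

theorem rpo_hpoly_congr {I : Finset ℕ} {X : ℕ} {G : (ℕ → ℝ) → ℝ} (hG : HPoly I X G)
    {x x' : ℕ → ℝ} (h : ∀ p ∈ I, x p = x' p) : G x = G x' := by
  obtain ⟨c, hc, hG⟩ := hG
  rw [hG, hG]
  refine Finset.sum_congr rfl fun m _ => ?_
  by_cases hcm : c m = 0
  · rw [hcm, zero_mul, zero_mul]
  · rw [rpo_Um_congr (hc m hcm).2.2 h]

/-- RPO: the cube -/
abbrev rpo_Y (I : Finset ℕ) : Type := (I → Set.Icc (-2 : ℝ) 2)

/-- RPO: extension by zero -/
noncomputable def rpo_ext (I : Finset ℕ) (y : rpo_Y I) : ℕ → ℝ :=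
  fun n => if h : n ∈ I then (y ⟨n, h⟩ : ℝ) else 0

theorem rpo_ext_cont (I : Finset ℕ) : Continuous (rpo_ext I) := by
  unfold rpo_ext
  refine continuous_pi fun n => ?_
  by_cases h : n ∈ I
  · simp only [h, dif_pos]
    exact continuous_subtype_val.comp (continuous_apply _)
  · simp only [h, dif_neg, not_false_eq_true]
    exact continuous_const

theorem rpo_one (I : Finset ℕ) : HPoly I 1 (fun _ => 1) := by
  refine ⟨fun m => if m = 1 then 1 else 0, ?_, ?_⟩
  · intro m hm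
    by_cases h : m = 1
    · subst h; simp
    · simp [h] at hm
  · intro x
    simp [Um]

/-- RPO: the algebra of polynomials -/
noncomputable def rpo_alg (I : Finset ℕ) (hI : ∀ p ∈ I, p.Prime) :
    Subalgebra ℝ C(rpo_Y I, ℝ) where
  carrier := {f | ∃ (X : ℕ) (G : (ℕ → ℝ) → ℝ), HPoly I X G ∧ ∀ y, f y = G (rpo_ext I y)}
  mul_mem' := by
    rintro f g ⟨X, G, hG, hf⟩ ⟨Y, H, hH, hg⟩
    refine ⟨X * Y, fun x => G x * H x, ?_, fun y => ?_⟩
    · have := hpoly_mul hI hI hG hH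
      rwa [Finset.union_self] at this
    · rw [ContinuousMap.mul_apply, hf, hg]
  one_mem' := ⟨1, fun _ => 1, rpo_one I, fun y => rfl⟩
  add_mem' := by
    rintro f g ⟨X, G, hG, hf⟩ ⟨Y, H, hH, hg⟩
    refine ⟨max X Y, fun x => G x + H x, hpoly_add_pr (hpoly_mono_pr (le_max_left _ _) hG)
      (hpoly_mono_pr (le_max_right _ _) hH), fun y => ?_⟩
    rw [ContinuousMap.add_apply, hf, hg]
  zero_mem' := ⟨0, fun _ => 0, HPO_zero I 0, fun y => rfl⟩
  algebraMap_mem' := by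
    intro r
    refine ⟨1, fun _ => r * 1, hpoly_smul_pr (rpo_one I) r, fun y => ?_⟩
    rw [mul_one]
    rfl

theorem rpo_coord {I : Finset ℕ} {p : ℕ} (hp : p.Prime) (hpI : p ∈ I) :
    HPoly I p (fun x => x p) := by
  have h : HPoly I p (Um p) := HPO_single hp.one_le le_rfl (by
    rw [hp.primeFactors]
    exact Finset.singleton_subset_iff.mpr hpI)
  have e : Um p = fun x => x p := by
    funext x
    unfold Um
    rw [hp.primeFactors, Finset.prod_singleton, hp.factorization_self]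
    rfl
  rwa [e] at h

theorem rpo_sep (I : Finset ℕ) (hI : ∀ p ∈ I, p.Prime) : (rpo_alg I hI).SeparatesPoints := by
  intro y y' hne
  obtain ⟨p, hp⟩ := Function.ne_iff.mp hne
  refine ⟨fun y => rpo_ext I y p, ⟨⟨fun y => rpo_ext I y p,
    (continuous_apply (p : ℕ)).comp (rpo_ext_cont I)⟩, ⟨p, fun x => x p,
      rpo_coord (hI p p.2) p.2, fun y => rfl⟩, rfl⟩, ?_⟩
  have h1 : rpo_ext I y p = (y p : ℝ) := by
    unfold rpo_ext
    rw [dif_pos p.2]
  have h2 : rpo_ext I y' p = (y' p : ℝ) := by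
    unfold rpo_ext
    rw [dif_pos p.2]
  simp only
  rw [h1, h2]
  intro h
  exact hp (Subtype.ext h)

theorem rpo_Hd_congr {A I : Finset ℕ} (hI : ∀ a ∈ A, a.primeFactors ⊆ I) (c : ℕ → ℝ)
    {x x' : ℕ → ℝ} (h : ∀ p ∈ I, x p = x' p) : Hd A c x = Hd A c x' := by
  unfold Hd
  refine Finset.sum_congr rfl fun a ha => ?_
  rw [rpo_Um_congr (hI a ha) h]

theorem rpo_Hd_cont (A : Finset ℕ) (c : ℕ → ℝ) : Continuous (Hd A c) := by
  unfold Hd
  exact continuous_finsetSum _ fun a _ => ((rpo_Um_cont a).pow 2).const_mul (c a)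

theorem rpo_Hd_nonneg {A : Finset ℕ} {c : ℕ → ℝ} (hc : ∀ a, 0 ≤ c a) (x : ℕ → ℝ) :
    0 ≤ Hd A c x :=
  Finset.sum_nonneg fun a _ => mul_nonneg (hc a) (sq_nonneg _)

/-- an approximate square root of the density -/
theorem root_poly_pr (A : Finset ℕ) (c : ℕ → ℝ) (hA : ∀ a ∈ A, 1 ≤ a) (hc : ∀ a, 0 ≤ c a) {ε : ℝ}
    (hε : 0 < ε) : ∃ (I : Finset ℕ) (X : ℕ) (R : (ℕ → ℝ) → ℝ), (∀ p ∈ I, p.Prime) ∧
      (∀ a ∈ A, a.primeFactors ⊆ I) ∧ HPoly I X R ∧
      ∀ P : Measure (ℕ → ℝ), IsST I P → ∫ x, (R x ^ 2 - Hd A c x) ^ 2 ∂P ≤ ε := by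
  classical
  set I : Finset ℕ := A.biUnion Nat.primeFactors with hIdef
  have hI : ∀ p ∈ I, p.Prime := by
    intro p hp
    obtain ⟨a, _, hpa⟩ := Finset.mem_biUnion.mp hp
    exact Nat.prime_of_mem_primeFactors hpa
  have hAI : ∀ a ∈ A, a.primeFactors ⊆ I := fun a ha => Finset.subset_biUnion_of_mem _ ha
  have hf : Continuous (fun y : rpo_Y I => Real.sqrt (Hd A c (rpo_ext I y))) :=
    Real.continuous_sqrt.comp ((rpo_Hd_cont A c).comp (rpo_ext_cont I))
  obtain ⟨M0, hM0⟩ := isCompact_univ.exists_bound_of_continuousOn hf.continuousOn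
  set M := |M0| with hM
  have hMn : 0 ≤ M := abs_nonneg _
  have hMb : ∀ y : rpo_Y I, Real.sqrt (Hd A c (rpo_ext I y)) ≤ M := by
    intro y
    have := hM0 y (Set.mem_univ _)
    rw [Real.norm_eq_abs, abs_of_nonneg (Real.sqrt_nonneg _)] at this
    exact this.trans (le_abs_self _)
  have hse : 0 < Real.sqrt ε := Real.sqrt_pos.mpr hε
  set ee := min 1 (Real.sqrt ε / (1 + 2 * M)) with hee
  have heepos : 0 < ee := lt_min one_pos (by positivity)
  obtain ⟨⟨g, X, R, hR, hgR⟩, hg⟩ :=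
    ContinuousMap.exists_mem_subalgebra_near_continuous_of_separatesPoints
      (rpo_alg I hI) (rpo_sep I hI) _ hf ee heepos
  refine ⟨I, X, R, hI, hAI, hR, fun P hP => ?_⟩
  have := hP.prob
  have hae : ∀ᵐ x ∂P, (R x ^ 2 - Hd A c x) ^ 2 ≤ ε := by
    filter_upwards [hP.bdd] with x hx
    set y : rpo_Y I := fun p => ⟨x p, abs_le.mp (hx p p.2)⟩ with hy
    have hxy : ∀ p ∈ I, x p = rpo_ext I y p := by
      intro p hp
      unfold rpo_ext
      rw [dif_pos hp]
    rw [rpo_hpoly_congr hR hxy, rpo_Hd_congr hAI c hxy]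
    have h1 := hg y
    simp only at h1
    rw [hgR, Real.norm_eq_abs] at h1
    have h2 := hMb y
    have h3 := Real.sq_sqrt (rpo_Hd_nonneg (A := A) hc (rpo_ext I y))
    have h4 := Real.sqrt_nonneg (Hd A c (rpo_ext I y))
    set r := R (rpo_ext I y)
    set s := Real.sqrt (Hd A c (rpo_ext I y))
    rw [← h3]
    have h5 : ee ≤ 1 := min_le_left _ _
    have h6 : |r + s| ≤ 1 + 2 * M := by
      have e : r + s = (r - s) + 2 * s := by ring
      rw [e]
      refine (abs_add_le _ _).trans ?_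
      rw [abs_mul, abs_of_nonneg h4, abs_of_pos (by norm_num : (0 : ℝ) < 2)]
      linarith
    have h7 : |r ^ 2 - s ^ 2| ≤ Real.sqrt ε := by
      have e : r ^ 2 - s ^ 2 = (r - s) * (r + s) := by ring
      rw [e, abs_mul]
      calc |r - s| * |r + s| ≤ ee * (1 + 2 * M) :=
            mul_le_mul h1.le h6 (abs_nonneg _) heepos.le
        _ ≤ Real.sqrt ε / (1 + 2 * M) * (1 + 2 * M) :=
            mul_le_mul_of_nonneg_right (min_le_right _ _) (by positivity)
        _ = Real.sqrt ε := by field_simp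
    calc (r ^ 2 - s ^ 2) ^ 2 = |r ^ 2 - s ^ 2| ^ 2 := (sq_abs _).symm
      _ ≤ Real.sqrt ε ^ 2 := pow_le_pow_left₀ (abs_nonneg _) h7 2
      _ = ε := Real.sq_sqrt hε.le
  calc ∫ x, (R x ^ 2 - Hd A c x) ^ 2 ∂P ≤ ∫ _, ε ∂P :=
        integral_mono_of_nonneg (Eventually.of_forall fun x => sq_nonneg _)
          (integrable_const ε) hae
    _ = ε := by simp

theorem root_poly : type_of% @root_poly_pr := @root_poly_pr

end Pool.Agent.KSL
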