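import Pool.Agent.Lib_helper68.KSL.Defs
import Pool.Agent.Lib_helper41.LVBF.LEN
import Pool.Agent.Lib_helper41.LVBF.BLE
import Pool.Agent.Lib_helper41.LVBF.PSA
import Pool.Agent.Lib_helper41.LVBF.HPM
import Pool.Agent.Lib_helper41.LVBF.ELM

/-! KSL, block BZP: the approximate inverse of the Euler product over the small primes. -/

namespace Pool.Agent.KSL

open Pool.Agent.LEV Pool.Agent.LVB
open Pool.Agent.FG61 (mu phi cc ff AA Lam)
open Complex MeasureTheory Filter Topology UpperHalfPlane ModularGroup ProbabilityTheory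
open scoped MatrixGroups Modular ENNReal ModularForm ComplexConjugate ContDiff

/-! ### sizes -/

theorem bzp_zN_le {N : ℕ} (hN : 1 < (N : ℝ)) (hL : 2 ≤ Real.log (Real.log N)) :
    zN N ≤ (N : ℝ) ^ (1 / 4 : ℝ) := by
  have h0 : 0 < Real.log N := Real.log_pos hN
  unfold zN
  rw [Real.rpow_def_of_pos (by linarith)]
  apply Real.exp_le_exp.2
  rw [div_eq_mul_one_div]
  apply mul_le_mul_of_nonneg_left _ h0.le
  apply one_div_le_one_div_of_le (by norm_num)
  nlinarith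

theorem bzp_zN_lt {N : ℕ} (hN : 1 < (N : ℝ)) (hL : 2 ≤ Real.log (Real.log N)) :
    zN N < N := by
  refine (bzp_zN_le hN hL).trans_lt ?_
  calc (N : ℝ) ^ (1 / 4 : ℝ) < (N : ℝ) ^ (1 : ℝ) :=
        Real.rpow_lt_rpow_of_exponent_lt hN (by norm_num)
    _ = N := Real.rpow_one _

theorem bzp_base : ∃ N₀ : ℕ, ∀ N : ℕ, N₀ ≤ N → 3 ≤ (N : ℝ) ∧ 2 ≤ Real.log (Real.log N) := by
  have h1 : ∀ᶠ N : ℕ in atTop, 3 ≤ (N : ℝ) :=
    tendsto_natCast_atTop_atTop.eventually_ge_atTop 3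
  have h2 := LEN_logs.eventually_ge_atTop 2
  obtain ⟨N₀, h⟩ := (h1.and h2).exists_forall_of_atTop
  exact ⟨N₀, fun N hN => h N hN⟩

/-- `log log N ≤ z` for large `N` -/
theorem bzp_ll_le : ∃ N₀ : ℕ, ∀ N : ℕ, N₀ ≤ N → Real.log (Real.log N) + 1 ≤ zN N := by
  -- `log N / (log log N)^2 ≥ log log N` when `log N ≥ (log log N)^3`
  have h1 : ∀ᶠ y : ℝ in atTop, y ^ 4 ≤ Real.exp y := by
    have := Real.tendsto_exp_div_pow_atTop 4
    filter_upwards [this.eventually_ge_atTop 1, eventually_gt_atTop 0] with y hy hy0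
    rwa [le_div_iff₀ (pow_pos hy0 4), one_mul] at hy
  have h2 := LEN_logs.eventually (h1.and (eventually_ge_atTop 2))
  have h3 : ∀ᶠ N : ℕ in atTop, 3 ≤ (N : ℝ) :=
    tendsto_natCast_atTop_atTop.eventually_ge_atTop 3
  obtain ⟨N₀, h⟩ := (h2.and h3).exists_forall_of_atTop
  refine ⟨N₀, fun N hN => ?_⟩
  obtain ⟨⟨ha, hb⟩, hc⟩ := h N hN
  set y := Real.log (Real.log N) with hy
  have hlog : 1 < Real.log N := by
    rw [Real.lt_log_iff_exp_lt (by linarith)]
    exact lt_of_lt_of_le Real.exp_one_lt_d9 (by linarith)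
  rw [Real.exp_log (by linarith)] at ha
  have hy0 : 0 < y := by linarith
  have h4 : y + 1 ≤ Real.log N / y ^ 2 := by
    rw [le_div_iff₀ (by positivity)]
    nlinarith [mul_pos hy0 hy0, mul_nonneg (sq_nonneg y) (by nlinarith : (0:ℝ) ≤ y ^ 2 - y - 1)]
  unfold zN
  rw [← hy]
  have h5 := Real.add_one_le_exp (Real.log N / y ^ 2)
  linarith

theorem bzp_mem_IZ {N p : ℕ} : p ∈ IZ N ↔ p.Prime ∧ p ≤ zz N := by
  unfold IZ
  rw [Finset.mem_filter, Finset.mem_Icc]
  constructor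
  · rintro ⟨⟨_, h1⟩, h2⟩
    exact ⟨h2, h1⟩
  · rintro ⟨h1, h2⟩
    exact ⟨⟨h1.one_lt.le, h2⟩, h1⟩

theorem bzp_fac_pos {p : ℕ} (hp : p.Prime) {x : ℝ} (hx : |x| ≤ 2) :
    0 < 1 - x / Real.sqrt p + 1 / p := by
  have hp2 : (2 : ℝ) ≤ p := by exact_mod_cast hp.two_le
  have hp0 : (0 : ℝ) < p := by linarith
  have hs : 1 < Real.sqrt p := by
    rw [Real.lt_sqrt (by norm_num)]
    linarith
  have hs0 : 0 < Real.sqrt p := by linarith
  have e1 : (1 : ℝ) / p = (1 / Real.sqrt p) ^ 2 := by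
    rw [div_pow, Real.sq_sqrt hp0.le, one_pow]
  have h1 : 1 / Real.sqrt p < 1 := by
    rw [div_lt_one hs0]
    exact hs
  have h2 : x / Real.sqrt p ≤ 2 * (1 / Real.sqrt p) := by
    rw [mul_one_div]
    exact div_le_div_of_nonneg_right (le_of_abs_le hx) hs0.le
  rw [e1]
  nlinarith [sq_nonneg (1 - 1 / Real.sqrt p), mul_pos (sub_pos.2 h1) (sub_pos.2 h1)]

theorem bzp_fac_abs {p : ℕ} (hp : p.Prime) {x : ℝ} (hx : |x| ≤ 2) :
    |1 - x / Real.sqrt p + 1 / p| ≤ 4 := by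
  have hp2 : (2 : ℝ) ≤ p := by exact_mod_cast hp.two_le
  have hp0 : (0 : ℝ) < p := by linarith
  have hs : 1 < Real.sqrt p := by
    rw [Real.lt_sqrt (by norm_num)]
    linarith
  have hs0 : 0 < Real.sqrt p := by linarith
  rw [abs_of_pos (bzp_fac_pos hp hx)]
  have h1 : 1 / (p : ℝ) ≤ 1 := by
    rw [div_le_one hp0]
    linarith
  have h2 : -(x / Real.sqrt p) ≤ 2 := by
    rw [← neg_div, div_le_iff₀ hs0]
    have := neg_le_of_abs_le hx
    nlinarith
  linarith

theorem iz_split_pr : ∃ N₀ : ℕ, ∀ N : ℕ, N₀ ≤ N → IZ N = I0 N ∪ IN N ∧ Disjoint (I0 N) (IN N) ∧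
    (∀ p ∈ IZ N, p.Prime ∧ p < N) ∧ (∀ m, smooth (zz N) m ↔ 1 ≤ m ∧ m.primeFactors ⊆ IZ N) ∧
    ∀ (A₁ : ℕ) (x : ℕ → ℝ), (∀ p ∈ IZ N, |x p| ≤ 2) →
      (∏ p ∈ IZ N, er p (x p)) * Bz A₁ N x = Yz A₁ N x := by
  obtain ⟨N1, hN1⟩ := bzp_base
  obtain ⟨N2, hN2⟩ := bzp_ll_le
  refine ⟨max N1 N2, fun N hN => ?_⟩
  obtain ⟨h3, hL⟩ := hN1 N (le_trans (le_max_left _ _) hN)
  have hzl := hN2 N (le_trans (le_max_right _ _) hN)
  have hL0 : 0 ≤ Real.log (Real.log N) := by linarith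
  have hunion : IZ N = I0 N ∪ IN N := by
    ext p
    rw [bzp_mem_IZ, Finset.mem_union, I0, IN, Finset.mem_filter, Finset.mem_filter,
      Finset.mem_Icc, Finset.mem_Icc]
    constructor
    · rintro ⟨h1, h2⟩
      by_cases h : Real.log (Real.log N) < p
      · exact Or.inr ⟨⟨h1.one_lt.le, h2⟩, h1, h⟩
      · exact Or.inl ⟨⟨h1.one_lt.le, Nat.le_floor (not_lt.1 h)⟩, h1⟩
    · rintro (⟨⟨_, h1⟩, h2⟩ | ⟨⟨_, h1⟩, h2, _⟩)
      · refine ⟨h2, ?_⟩
        have h4 : (p : ℝ) ≤ Real.log (Real.log N) := (Nat.le_floor_iff hL0).1 h1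
        exact Nat.le_floor (by linarith)
      · exact ⟨h2, h1⟩
  have hdisj : Disjoint (I0 N) (IN N) := by
    rw [Finset.disjoint_left]
    intro p h1 h2
    rw [I0, Finset.mem_filter, Finset.mem_Icc] at h1
    rw [IN, Finset.mem_filter] at h2
    have h4 : (p : ℝ) ≤ Real.log (Real.log N) := (Nat.le_floor_iff hL0).1 h1.1.2
    exact absurd h2.2.2 (not_lt.2 h4)
  refine ⟨hunion, hdisj, ?_, ?_, ?_⟩
  · intro p hp
    rw [bzp_mem_IZ] at hp
    refine ⟨hp.1, ?_⟩
    have h1 : (p : ℝ) ≤ zN N := by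
      have h2 : (p : ℝ) ≤ (zz N : ℝ) := by exact_mod_cast hp.2
      exact h2.trans (Nat.floor_le (Real.exp_pos _).le)
    exact_mod_cast lt_of_le_of_lt h1 (bzp_zN_lt (by linarith) hL)
  · intro m
    constructor
    · rintro ⟨h1, h2⟩
      refine ⟨Nat.one_le_iff_ne_zero.2 h1, fun p hp => ?_⟩
      rw [Nat.mem_primeFactors] at hp
      exact bzp_mem_IZ.2 ⟨hp.1, h2 p hp.1 hp.2.1⟩
    · rintro ⟨h1, h2⟩
      refine ⟨Nat.one_le_iff_ne_zero.1 h1, fun p hp hpm => ?_⟩
      exact (bzp_mem_IZ.1 (h2 (Nat.mem_primeFactors.2 ⟨hp, hpm,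
        Nat.one_le_iff_ne_zero.1 h1⟩))).2
  · intro A₁ x hx
    rw [hunion, Finset.prod_union hdisj, Bz, Yz]
    have h1 : (∏ p ∈ I0 N, er p (x p)) * ∏ p ∈ I0 N, (1 - x p / Real.sqrt p + 1 / p) = 1 := by
      rw [← Finset.prod_mul_distrib]
      apply Finset.prod_eq_one
      intro p hp
      have hpz : p ∈ IZ N := by rw [hunion]; exact Finset.mem_union_left _ hp
      have h2 := bzp_fac_pos (bzp_mem_IZ.1 hpz).1 (hx p hpz)
      unfold er
      exact inv_mul_cancel₀ h2.ne'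
    calc (∏ p ∈ I0 N, er p (x p)) * (∏ p ∈ IN N, er p (x p)) *
          ((∏ p ∈ I0 N, (1 - x p / Real.sqrt p + 1 / p)) *
            mb1 (IN N) (A₁ * ⌈Real.log (Real.log N)⌉₊) x)
        = ((∏ p ∈ I0 N, er p (x p)) * ∏ p ∈ I0 N, (1 - x p / Real.sqrt p + 1 / p)) *
          ((∏ p ∈ IN N, er p (x p)) * mb1 (IN N) (A₁ * ⌈Real.log (Real.log N)⌉₊) x) := by ring
      _ = _ := by rw [h1, one_mul]

/-! ### the length -/

theorem bzp_prod_hpoly (I : Finset ℕ) (hI : ∀ p ∈ I, p.Prime) :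
    HPoly I (∏ p ∈ I, p) (fun x => ∏ p ∈ I, (1 - x p / Real.sqrt p + 1 / p)) := by
  induction I using Finset.induction_on with
  | empty => simpa using LEN_one ∅
  | insert p I hp ih =>
    have hpp := hI p (Finset.mem_insert_self _ _)
    have hI' : ∀ q ∈ I, q.Prime := fun q hq => hI q (Finset.mem_insert_of_mem hq)
    have h1 : HPoly {p} p (fun x => 1 - x p / Real.sqrt p + 1 / p) := by
      have a1 : HPoly {p} p (fun x => (1 + 1 / (p : ℝ)) * Um 1 x) :=
        hpoly_smul_pr (HPO_single le_rfl hpp.one_lt.le (by simp)) _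
      have a2 : HPoly {p} p (fun x => (-(1 / Real.sqrt p)) * Um p x) :=
        hpoly_smul_pr (HPO_single hpp.one_lt.le le_rfl (by rw [hpp.primeFactors])) _
      refine HPM_congr (fun x => ?_) (hpoly_add_pr a1 a2)
      have e1 : Um p x = x p := by
        have := HPO_um_pow hpp 1 x
        rw [pow_one] at this
        rw [this]
        rfl
      rw [HPO_um_one, e1]
      ring
    have h2 := hpoly_mul_pr (I := {p}) (I' := I)
      (fun q hq => by rw [Finset.mem_singleton] at hq; rw [hq]; exact hpp) hI' h1 (ih hI')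
    rw [Finset.prod_insert hp, Finset.insert_eq]
    refine HPM_congr (fun x => ?_) h2
    rw [← Finset.insert_eq, Finset.prod_insert hp]

theorem bzp_I0_prod (N : ℕ) (hL : 0 ≤ Real.log (Real.log N)) (hN : 0 < Real.log N) :
    ((∏ p ∈ I0 N, p : ℕ) : ℝ) ≤ Real.log N ^ (2 : ℝ) := by
  have h1 : (∏ p ∈ I0 N, p) ≤ 4 ^ ⌊Real.log (Real.log N)⌋₊ := by
    have h2 := primorial_le_four_pow ⌊Real.log (Real.log N)⌋₊
    refine le_trans (le_of_eq ?_) h2
    unfold primorial I0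
    apply Finset.prod_congr _ (fun _ _ => rfl)
    ext p
    simp only [Finset.mem_filter, Finset.mem_Icc, Finset.mem_range]
    constructor
    · rintro ⟨⟨_, h3⟩, h4⟩
      exact ⟨Nat.lt_succ_of_le h3, h4⟩
    · rintro ⟨h3, h4⟩
      exact ⟨⟨h4.one_lt.le, Nat.lt_succ_iff.1 h3⟩, h4⟩
  calc ((∏ p ∈ I0 N, p : ℕ) : ℝ) ≤ ((4 ^ ⌊Real.log (Real.log N)⌋₊ : ℕ) : ℝ) := by exact_mod_cast h1
    _ = (4 : ℝ) ^ ((⌊Real.log (Real.log N)⌋₊ : ℕ) : ℝ) := by
        rw [Real.rpow_natCast]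
        push_cast
        rfl
    _ ≤ (4 : ℝ) ^ (Real.log (Real.log N)) :=
        Real.rpow_le_rpow_of_exponent_le (by norm_num) (Nat.floor_le hL)
    _ ≤ Real.log N ^ (2 : ℝ) := by
        rw [Real.rpow_def_of_pos (by norm_num), Real.rpow_def_of_pos hN]
        apply Real.exp_le_exp.2
        rw [mul_comm (Real.log (Real.log N))]
        apply mul_le_mul_of_nonneg_right _ hL
        have e : Real.log 4 = 2 * Real.log 2 := by
          rw [show (4 : ℝ) = 2 ^ 2 by norm_num, Real.log_pow]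
          norm_num
        rw [e]
        have := Real.log_two_lt_d9
        linarith

theorem bz_hpoly_pr (A₁ : ℕ) {ε₂ : ℝ} (h2 : 0 < ε₂) : ∃ N₀ : ℕ, ∀ N : ℕ, N₀ ≤ N →
    HPoly (IZ N) ⌊(N : ℝ) ^ ε₂⌋₊ (Bz A₁ N) := by
  obtain ⟨N1, hN1⟩ := bzp_base
  obtain ⟨N2, hN2⟩ := iz_split_pr
  -- `2 A₁ (y + 1) / y² + 2 y / e^y ≤ ε₂`, where `y = log log N`
  have hlim : Tendsto (fun y : ℝ => 2 * (A₁ : ℝ) * ((y + 1) / y ^ 2) + 2 * (y / Real.exp y)) atTop
      (𝓝 (2 * (A₁ : ℝ) * 0 + 2 * 0)) := by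
    apply Tendsto.add
    · apply Tendsto.const_mul
      have a1 : Tendsto (fun y : ℝ => y⁻¹ + (y⁻¹) ^ 2) atTop (𝓝 (0 + 0 ^ 2)) :=
        tendsto_inv_atTop_zero.add (tendsto_inv_atTop_zero.pow 2)
      rw [show (0 : ℝ) + 0 ^ 2 = 0 by norm_num] at a1
      apply a1.congr'
      filter_upwards [eventually_gt_atTop 0] with y hy
      field_simp
    · apply Tendsto.const_mul
      have := Real.tendsto_pow_mul_exp_neg_atTop_nhds_zero 1
      apply this.congr
      intro y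
      rw [pow_one, Real.exp_neg, div_eq_mul_inv]
  rw [mul_zero, mul_zero, add_zero] at hlim
  have hev := LEN_logs.eventually (hlim.eventually_le_const h2)
  obtain ⟨N3, hN3⟩ := hev.exists_forall_of_atTop
  refine ⟨max N1 (max N2 N3), fun N hN => ?_⟩
  obtain ⟨h3, hL⟩ := hN1 N (le_trans (le_max_left _ _) hN)
  obtain ⟨hun, -, hpr, -, -⟩ := hN2 N (le_trans ((le_max_left _ _).trans (le_max_right _ _)) hN)
  have hy := hN3 N (le_trans ((le_max_right _ _).trans (le_max_right _ _)) hN)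
  have hlog : 1 < Real.log N := by
    rw [Real.lt_log_iff_exp_lt (by linarith)]
    exact lt_of_lt_of_le Real.exp_one_lt_d9 (by linarith)
  set y := Real.log (Real.log N) with hydef
  have hy0 : 0 < y := by linarith
  have hexpy : Real.exp y = Real.log N := Real.exp_log (by linarith)
  have hprI : ∀ p ∈ I0 N, p.Prime := fun p hp => (Finset.mem_filter.1 hp).2
  have hprN : ∀ p ∈ IN N, p.Prime := fun p hp => (Finset.mem_filter.1 hp).2.1
  have hz1 : 1 ≤ zz N := by
    apply Nat.le_floor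
    rw [Nat.cast_one]
    unfold zN
    rw [← Real.exp_zero]
    apply Real.exp_le_exp.2
    positivity
  have hK := hpoly_ex_pr hprN hz1 (fun p hp => by
    have := (Finset.mem_Icc.1 (Finset.mem_filter.1 hp).1).2
    exact this) (A₁ * ⌈y⌉₊)
  have hB := hpoly_mul_pr hprI hprN (bzp_prod_hpoly (I0 N) hprI) hK
  rw [← hun] at hB
  have hlen : (∏ p ∈ I0 N, p) * zz N ^ (2 * (A₁ * ⌈y⌉₊)) ≤ ⌊(N : ℝ) ^ ε₂⌋₊ := by
    apply Nat.le_floor
    push_cast
    have b1 : ((∏ p ∈ I0 N, p : ℕ) : ℝ) ≤ Real.exp (2 * y) := by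
      have := bzp_I0_prod N hy0.le (by linarith)
      rw [Real.rpow_def_of_pos (by linarith), ← hydef] at this
      rwa [mul_comm] at this
    have b2 : ((zz N : ℕ) : ℝ) ^ (2 * (A₁ * ⌈y⌉₊)) ≤
        Real.exp (Real.log N * (2 * (A₁ : ℝ) * ((y + 1) / y ^ 2))) := by
      have c1 : ((zz N : ℕ) : ℝ) ≤ Real.exp (Real.log N / y ^ 2) :=
        Nat.floor_le (Real.exp_pos _).le
      calc ((zz N : ℕ) : ℝ) ^ (2 * (A₁ * ⌈y⌉₊)) ≤
            Real.exp (Real.log N / y ^ 2) ^ (2 * (A₁ * ⌈y⌉₊)) :=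
            pow_le_pow_left₀ (Nat.cast_nonneg _) c1 _
        _ = Real.exp ((2 * (A₁ * ⌈y⌉₊) : ℕ) * (Real.log N / y ^ 2)) := by
            rw [Real.exp_nat_mul]
        _ ≤ _ := by
            apply Real.exp_le_exp.2
            push_cast
            have c2 : (⌈y⌉₊ : ℝ) ≤ y + 1 := (Nat.ceil_lt_add_one hy0.le).le
            have c3 : 0 ≤ Real.log N / y ^ 2 := by positivity
            calc 2 * ((A₁ : ℝ) * (⌈y⌉₊ : ℝ)) * (Real.log N / y ^ 2)
                ≤ 2 * ((A₁ : ℝ) * (y + 1)) * (Real.log N / y ^ 2) := by gcongr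
              _ = _ := by ring
    have b3 : ((∏ p ∈ I0 N, (p : ℝ))) = ((∏ p ∈ I0 N, p : ℕ) : ℝ) := by push_cast; rfl
    rw [b3]
    calc ((∏ p ∈ I0 N, p : ℕ) : ℝ) * ((zz N : ℕ) : ℝ) ^ (2 * (A₁ * ⌈y⌉₊))
        ≤ Real.exp (2 * y) * Real.exp (Real.log N * (2 * (A₁ : ℝ) * ((y + 1) / y ^ 2))) :=
          mul_le_mul b1 b2 (by positivity) (Real.exp_pos _).le
      _ = Real.exp (Real.log N * (2 * (A₁ : ℝ) * ((y + 1) / y ^ 2) + 2 * (y / Real.exp y))) := by
          rw [← Real.exp_add]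
          congr 1
          rw [hexpy]
          field_simp
          ring
      _ ≤ Real.exp (Real.log N * ε₂) := by
          apply Real.exp_le_exp.2
          exact mul_le_mul_of_nonneg_left hy (by linarith)
      _ = (N : ℝ) ^ ε₂ := by
          rw [Real.rpow_def_of_pos (by linarith)]
  exact hpoly_mono_pr hlen hB

/-! ### fourth moments -/

theorem bzp_exp_int {I : Finset ℕ} (hI : ∀ p ∈ I, p.Prime) {Cl : ℝ}
    (hloc : ∀ (I : Finset ℕ) (P : Measure (ℕ → ℝ)), IsST I P → ∀ p ∈ I, p.Prime → ∀ a : ℂ,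
      ‖a‖ ≤ 1 → ∀ τ : ℝ, |τ| ≤ 8 →
        ∫ x, Real.exp (τ * x p / Real.sqrt p) * ‖el p a (x p)‖ ^ 2 ∂P ≤ 1 + Cl / p)
    {P : Measure (ℕ → ℝ)} (hP : IsST I P) {τ : ℝ} (hτ : |τ| ≤ 8) :
    Integrable (fun x => Real.exp (τ * PB I x)) P ∧
      ∫ x, Real.exp (τ * PB I x) ∂P ≤ Real.exp (Cl * HB I) := by
  have := hP.prob
  have hel : ∀ (p : ℕ) (y : ℝ), ‖el p 0 y‖ = 1 := by
    intro p y
    unfold el
    simp
  constructor
  · have h := (BLE_int hI hP (a := fun _ => 0) (by simp)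
      (G := fun t => Real.exp (τ * t)) (by fun_prop)).1
    refine h.congr (Eventually.of_forall fun x => ?_)
    beta_reduce
    rw [norm_prod, Finset.prod_congr rfl (fun p _ => hel p (x p)), Finset.prod_const_one]
    simp
  · let F : ℕ → ℝ → ℝ := fun (p : ℕ) (y : ℝ) => Real.exp (τ * y / Real.sqrt p)
    have hF : ∀ p, Measurable (F p) := fun p => by fun_prop
    have h1 : ∀ x : ℕ → ℝ, Real.exp (τ * PB I x) = ∏ p ∈ I, F p (x p) := by
      intro x
      simp only [F]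
      rw [← Real.exp_sum]
      congr 1
      unfold PB
      rw [Finset.mul_sum]
      exact Finset.sum_congr rfl (fun p _ => by rw [mul_div_assoc])
    rw [integral_congr_ae (Eventually.of_forall h1), BLE_prod hP F hF]
    have h2 : ∀ p ∈ I, (∫ x : ℕ → ℝ, F p (x p) ∂P) ≤ Real.exp (Cl * (1 / p)) := by
      intro p hp
      have h3 := hloc I P hP p hp (hI p hp) 0 (by simp) τ hτ
      have h4 : (∫ x : ℕ → ℝ, F p (x p) ∂P) =
          ∫ x, Real.exp (τ * x p / Real.sqrt p) * ‖el p 0 (x p)‖ ^ 2 ∂P := by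
        apply integral_congr_ae (Eventually.of_forall fun x => ?_)
        beta_reduce
        rw [hel, one_pow, mul_one]
      rw [h4]
      refine h3.trans ?_
      have := Real.add_one_le_exp (Cl * (1 / (p : ℝ)))
      have h5 : Cl * (1 / (p : ℝ)) = Cl / p := by ring
      rw [h5] at this ⊢
      linarith
    refine (Finset.prod_le_prod (fun p _ => integral_nonneg (fun x => by positivity)) h2).trans ?_
    rw [← Real.exp_sum, ← Finset.mul_sum]
    exact le_rfl

theorem bzp_meas (A₁ N : ℕ) : Measurable (Bz A₁ N) := by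
  unfold Bz mb1
  apply Measurable.mul
  · exact Finset.measurable_fun_prod _ fun p _ =>
      ((measurable_const.sub ((measurable_pi_apply p).div_const _)).add_const _)
  · exact measurable_const.mul ((BLE_ex_cont _).measurable.comp (BLE_PB_meas _).neg)

theorem bz_four_pr (A₁ : ℕ) : ∃ (C : ℝ) (N₀ : ℕ), ∀ N : ℕ, N₀ ≤ N → ∀ P : Measure (ℕ → ℝ),
    IsST (IZ N) P → Integrable (fun x => Bz A₁ N x ^ 4) P ∧
      ∫ x, Bz A₁ N x ^ 4 ∂P ≤ Real.log N ^ C := by
  obtain ⟨Cl, hCl1, hloc⟩ := local_est_pr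
  obtain ⟨C2, hC2⟩ := Pool.Agent.LEV.mertens_two
  obtain ⟨N1, hN1⟩ := bzp_base
  obtain ⟨N2, hN2⟩ := iz_split_pr
  set D : ℝ := max C2 0 with hD
  have hD0 : 0 ≤ D := le_max_right _ _
  refine ⟨4 * Real.log 4 + (2 + Cl) * (1 + D) + 1, max N1 N2, fun N hN P hP => ?_⟩
  obtain ⟨h3, hL⟩ := hN1 N (le_trans (le_max_left _ _) hN)
  obtain ⟨hun, -, hpr, -, -⟩ := hN2 N (le_trans (le_max_right _ _) hN)
  have hlog : 1 < Real.log N := by
    rw [Real.lt_log_iff_exp_lt (by linarith)]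
    exact lt_of_lt_of_le Real.exp_one_lt_d9 (by linarith)
  set y := Real.log (Real.log N) with hydef
  have hy0 : 0 < y := by linarith
  have := hP.prob
  have hsub : IN N ⊆ IZ N := by rw [hun]; exact Finset.subset_union_right
  have hPN : IsST (IN N) P := st_sub_pr hsub hP
  have hprN : ∀ p ∈ IN N, p.Prime := fun p hp => (Finset.mem_filter.1 hp).2.1
  -- the sum of reciprocals
  have hHB : HB (IN N) ≤ y + D := by
    have h := psa_all hC2 (x := (N : ℝ)) (by linarith) (S := IN N) (fun p hp =>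
      ⟨hprN p hp, by exact_mod_cast (hpr p (hsub hp)).2.le⟩)
    have : C2 ≤ D := le_max_left _ _
    unfold HB
    linarith
  have hHB0 : 0 ≤ HB (IN N) := Finset.sum_nonneg fun p _ => by positivity
  obtain ⟨hi1, he1⟩ := bzp_exp_int hprN (fun I P hP p hp hpp a ha τ hτ =>
    (hloc I P hP p hp hpp a ha).2.2 τ hτ) hPN (τ := 4) (by norm_num [abs_of_pos])
  obtain ⟨hi2, he2⟩ := bzp_exp_int hprN (fun I P hP p hp hpp a ha τ hτ =>
    (hloc I P hP p hp hpp a ha).2.2 τ hτ) hPN (τ := -4) (by norm_num)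
  set E0 : ℝ := Real.exp (4 * Real.log 4 * y) with hE0
  set K := A₁ * ⌈y⌉₊ with hK
  have hpt : ∀ᵐ x ∂P, Bz A₁ N x ^ 4 ≤ E0 * Real.exp (2 * HB (IN N)) *
      (Real.exp (4 * PB (IN N) x) + Real.exp (-4 * PB (IN N) x)) := by
    filter_upwards [hP.bdd] with x hx
    have a1 : |∏ p ∈ I0 N, (1 - x p / Real.sqrt p + 1 / p)| ≤ 4 ^ (I0 N).card := by
      rw [Finset.abs_prod]
      calc ∏ p ∈ I0 N, |1 - x p / Real.sqrt p + 1 / p| ≤ ∏ _p ∈ I0 N, (4 : ℝ) :=
            Finset.prod_le_prod (fun p _ => abs_nonneg _) (fun p hp => by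
              have hpz : p ∈ IZ N := by rw [hun]; exact Finset.mem_union_left _ hp
              exact bzp_fac_abs (bzp_mem_IZ.1 hpz).1 (hx p hpz))
        _ = _ := by rw [Finset.prod_const]
    have a2 : ((I0 N).card : ℝ) ≤ y := by
      have b1 : (I0 N).card ≤ ⌊y⌋₊ := by
        calc (I0 N).card ≤ (Finset.Icc 1 ⌊y⌋₊).card := Finset.card_filter_le _ _
          _ = ⌊y⌋₊ := by simp
      calc ((I0 N).card : ℝ) ≤ (⌊y⌋₊ : ℝ) := by exact_mod_cast b1
        _ ≤ y := Nat.floor_le hy0.le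
    have a3 : (∏ p ∈ I0 N, (1 - x p / Real.sqrt p + 1 / p)) ^ 4 ≤ E0 := by
      rw [← Even.pow_abs (by decide : Even 4)]
      calc |∏ p ∈ I0 N, (1 - x p / Real.sqrt p + 1 / p)| ^ 4 ≤ (4 ^ (I0 N).card) ^ 4 :=
            pow_le_pow_left₀ (abs_nonneg _) a1 4
        _ = Real.exp (4 * Real.log 4 * (I0 N).card) := by
            rw [← pow_mul, ← Real.rpow_natCast, Real.rpow_def_of_pos (by norm_num)]
            congr 1
            push_cast
            ring
        _ ≤ E0 := by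
            apply Real.exp_le_exp.2
            apply mul_le_mul_of_nonneg_left a2
            have : 0 < Real.log 4 := Real.log_pos (by norm_num)
            positivity
    have a4 : mb1 (IN N) K x ^ 4 ≤ Real.exp (2 * HB (IN N)) *
        (Real.exp (4 * PB (IN N) x) + Real.exp (-4 * PB (IN N) x)) := by
      unfold mb1
      have c1 : 0 < ex K (-PB (IN N) x) := ex_pos_pr _ _
      have c2 : ex K (-PB (IN N) x) ≤ Real.exp |PB (IN N) x| := by
        have := ex_le_pr K (-PB (IN N) x)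
        rwa [abs_neg] at this
      rw [mul_pow]
      have c3 : Real.exp (HB (IN N) / 2) ^ 4 = Real.exp (2 * HB (IN N)) := by
        rw [← Real.exp_nat_mul]
        congr 1
        push_cast
        ring
      rw [c3]
      apply mul_le_mul_of_nonneg_left _ (Real.exp_pos _).le
      calc ex K (-PB (IN N) x) ^ 4 ≤ Real.exp |PB (IN N) x| ^ 4 := pow_le_pow_left₀ c1.le c2 4
        _ = Real.exp (4 * |PB (IN N) x|) := by
            rw [← Real.exp_nat_mul]
            congr 1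
        _ ≤ _ := by
            rcases abs_cases (PB (IN N) x) with ⟨h, _⟩ | ⟨h, _⟩
            · rw [h]
              have := Real.exp_pos (-4 * PB (IN N) x)
              linarith
            · rw [h]
              have := Real.exp_pos (4 * PB (IN N) x)
              have e : 4 * -PB (IN N) x = -4 * PB (IN N) x := by ring
              rw [e]
              linarith
    have a5 : Bz A₁ N x = (∏ p ∈ I0 N, (1 - x p / Real.sqrt p + 1 / p)) * mb1 (IN N) K x := rfl
    rw [a5, mul_pow, mul_assoc]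
    exact mul_le_mul a3 a4 (by positivity) (Real.exp_pos _).le
  have hint : Integrable (fun x => E0 * Real.exp (2 * HB (IN N)) *
      (Real.exp (4 * PB (IN N) x) + Real.exp (-4 * PB (IN N) x))) P := (hi1.add hi2).const_mul _
  have hI4 : Integrable (fun x => Bz A₁ N x ^ 4) P := by
    refine hint.mono' ((bzp_meas A₁ N).pow_const 4).aestronglyMeasurable ?_
    filter_upwards [hpt] with x hx
    rw [Real.norm_eq_abs, abs_of_nonneg (by positivity)]
    exact hx
  refine ⟨hI4, ?_⟩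
  calc ∫ x, Bz A₁ N x ^ 4 ∂P ≤ ∫ x, E0 * Real.exp (2 * HB (IN N)) *
        (Real.exp (4 * PB (IN N) x) + Real.exp (-4 * PB (IN N) x)) ∂P :=
        integral_mono_ae hI4 hint hpt
    _ = E0 * Real.exp (2 * HB (IN N)) * (∫ x, Real.exp (4 * PB (IN N) x) ∂P +
          ∫ x, Real.exp (-4 * PB (IN N) x) ∂P) := by
        rw [integral_const_mul, integral_add hi1 hi2]
    _ ≤ E0 * Real.exp (2 * HB (IN N)) * (Real.exp (Cl * HB (IN N)) +
          Real.exp (Cl * HB (IN N))) := by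
        apply mul_le_mul_of_nonneg_left (add_le_add he1 he2) (by positivity)
    _ ≤ E0 * Real.exp (2 * HB (IN N)) * (Real.exp 1 * Real.exp (Cl * HB (IN N))) := by
        apply mul_le_mul_of_nonneg_left _ (by positivity)
        have h1 := Real.exp_pos (Cl * HB (IN N))
        have h2 : (2 : ℝ) ≤ Real.exp 1 := by
          have := Real.exp_one_gt_d9
          linarith
        nlinarith
    _ = Real.exp (4 * Real.log 4 * y + (2 + Cl) * HB (IN N) + 1) := by
        rw [hE0, ← Real.exp_add, ← Real.exp_add, ← Real.exp_add]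
        congr 1
        ring
    _ ≤ Real.exp (y * (4 * Real.log 4 + (2 + Cl) * (1 + D) + 1)) := by
        apply Real.exp_le_exp.2
        have h1 : (2 + Cl) * HB (IN N) ≤ (2 + Cl) * (y + D) :=
          mul_le_mul_of_nonneg_left hHB (by linarith)
        have h2 : (2 + Cl) * D ≤ (2 + Cl) * D * y := by
          have : 0 ≤ (2 + Cl) * D := by positivity
          nlinarith
        nlinarith
    _ = Real.log N ^ (4 * Real.log 4 + (2 + Cl) * (1 + D) + 1) := by
        rw [Real.rpow_def_of_pos (by linarith)]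

theorem iz_split : type_of% @iz_split_pr := @iz_split_pr
theorem bz_hpoly : type_of% @bz_hpoly_pr := @bz_hpoly_pr
theorem bz_four : type_of% @bz_four_pr := @bz_four_pr

end Pool.Agent.KSL
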