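import Pool.Agent.Lib_helper68.KSL.Defs
import Pool.Agent.Lib_helper68.LEV.EIA
import Pool.Agent.Lib_helper68.LEV.FRK
import Pool.Agent.Lib_helper68.LEV.PET
import Pool.Agent.Lib_helper41.KSNF.BIL
import Pool.Agent.Lib_helper41.LVBF.ELM
import Pool.Agent.Lib_helper41.LVBF.STE
import Pool.Agent.Lib_helper41.LVBF.STO
import Pool.Agent.Lib_helper41.LVBF.TRA
import Pool.Agent.Lib_helper68.KSLF.BZP
import Pool.Agent.Lib_helper68.KSLF.FMN
import Pool.Agent.Lib_helper68.KSLF.FNM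
import Pool.Agent.Lib_helper68.KSLF.FSE

/-! Block FIA: the first moment over the even forms (cites fs_norm, fs_tail, fs_mean, fs_hpoly, bilinear,
iz_split, transfer, st_sq, st_sub, st_exists). -/

namespace Pool.Agent.KSL

open Pool.Agent.LEV Pool.Agent.LVB
open Pool.Agent.FG61 (mu phi cc ff AA Lam)
open Complex MeasureTheory Filter Topology UpperHalfPlane ModularGroup ProbabilityTheory
open scoped MatrixGroups Modular ENNReal ModularForm ComplexConjugate ContDiff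

theorem fia_om {N : ℕ} [Fact N.Prime] {f : S2 N} (hf : IsNew f) : 0 ≤ om f := by
  unfold om
  have : 0 < nr f := nr_pos (new_ne_zero hf)
  have := Real.pi_pos
  positivity

theorem fia_se {N : ℕ} [Fact N.Prime] {f : S2 N} (hf : IsNew f) : se f = 1 ∨ se f = -1 := by
  obtain ⟨W, hW⟩ := fricke_exists (N := N)
  rcases (new_fricke hf hW).2 with h | h <;> simp [se, h]

theorem fia_mono {I : Finset ℕ} {X Y : ℕ} (h : X ≤ Y) {G : (ℕ → ℝ) → ℝ} (hG : HPoly I X G) :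
    HPoly I Y G := by
  obtain ⟨c, hc, hGc⟩ := hG
  refine ⟨c, fun m hm => ⟨(hc m hm).1, (hc m hm).2.1.trans h, (hc m hm).2.2⟩, fun x => ?_⟩
  rw [hGc x]
  refine Finset.sum_subset (Finset.Icc_subset_Icc le_rfl h) fun m _ hm => ?_
  by_contra h0
  have h1 : c m ≠ 0 := fun h => h0 (by rw [h, zero_mul])
  exact hm (Finset.mem_Icc.mpr ⟨(hc m h1).1, (hc m h1).2.1⟩)

theorem fia_cs {ι : Type} [Fintype ι] (o u v : ι → ℝ) (ho : ∀ i, 0 ≤ o i) {a b : ℝ}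
    (h1 : ∑ i, o i * u i ^ 2 ≤ a) (h2 : ∑ i, o i * v i ^ 2 ≤ b) (ha : 0 ≤ a) :
    ∑ i, o i * (|u i| * |v i|) ≤ Real.sqrt a * Real.sqrt b := by
  have h3 : ∀ i, o i * (|u i| * |v i|) = (Real.sqrt (o i) * |u i|) * (Real.sqrt (o i) * |v i|) := by
    intro i
    have := Real.mul_self_sqrt (ho i)
    linear_combination (-(|u i| * |v i|)) * this
  have h4 : ∀ (w : ι → ℝ) (i : ι), (Real.sqrt (o i) * |w i|) ^ 2 = o i * w i ^ 2 := by
    intro w i
    rw [mul_pow, Real.sq_sqrt (ho i), sq_abs]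
  have h5 := Finset.sum_mul_sq_le_sq_mul_sq Finset.univ (fun i => Real.sqrt (o i) * |u i|)
    (fun i => Real.sqrt (o i) * |v i|)
  simp only [h4] at h5
  simp only [h3]
  rw [← Real.sqrt_mul ha]
  apply Real.le_sqrt_of_sq_le
  refine h5.trans ?_
  exact mul_le_mul h1 h2 (Finset.sum_nonneg fun i _ => mul_nonneg (ho i) (sq_nonneg _)) ha

theorem fia_grow {a c : ℝ} (ha : a < 1) (hc : 0 < c) : ∃ M₀ : ℕ, ∀ N : ℕ, M₀ ≤ N →
    (N : ℝ) ^ a ≤ c * N := by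
  have h1 : Tendsto (fun n : ℕ => (n : ℝ) ^ (-(1 - a))) atTop (𝓝 0) :=
    (tendsto_rpow_neg_atTop (by linarith)).comp tendsto_natCast_atTop_atTop
  obtain ⟨M₀, hM₀⟩ := Filter.eventually_atTop.mp (h1.eventually (gt_mem_nhds hc))
  refine ⟨max M₀ 1, fun N hN => ?_⟩
  have hN0 : (0 : ℝ) < N := by
    have : 1 ≤ N := (le_max_right _ _).trans hN
    exact_mod_cast this
  have h2 := hM₀ N ((le_max_left _ _).trans hN)
  have h3 : (N : ℝ) ^ a = (N : ℝ) ^ (-(1 - a)) * N := by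
    rw [← Real.rpow_add_one hN0.ne']
    congr 1
    ring
  rw [h3]
  exact mul_le_mul_of_nonneg_right h2.le hN0.le

theorem first_moment_pr {δ : ℝ} (h0 : 0 < δ) (h1 : δ < 1 / 4) {ε : ℝ} (hε : 0 < ε) (C₀ C₄ : ℝ) :
    ∃ ε₁ κ : ℝ, 0 < ε₁ ∧ 0 < κ ∧ ∀ ε₂ : ℝ, 0 < ε₂ → ε₂ ≤ ε₁ → ∃ N₀ : ℕ, ∀ (N : ℕ)
    [Fact N.Prime], N₀ ≤ N → ∀ {ι : Type} [Fintype ι] (f : ι → S2 N), AllNew f →
    ∀ a : ℕ → ℝ, Sht (zz N) (KA ε₂ N) a → cn (zz N) (KA ε₂ N) a ≤ C₀ → ∀ s : ℕ → ℝ,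
    (∀ m, s m ≠ 0 → 1 ≤ m ∧ m ≤ KA (ε₂ / 4) N ∧ m.primeFactors ⊆ IZ N) →
    cd (zz N) (KA ε₂ N) a s ≤ κ →
    (∀ P : Measure (ℕ → ℝ), IsST (IZ N) P →
      ∫ x, (∑ m ∈ Finset.Icc 1 (KA ε₂ N), s m * Um m x) ^ 4 ∂P ≤ C₄) →
    ∑ m ∈ Finset.Icc 1 (KA ε₂ N), s m ^ 2 ≤ C₀ →
      ∑ m ∈ Finset.Icc 1 (KA ε₂ N), s m ^ 2 - ε ≤
        ∑ i, om (f i) * ((1 + se (f i)) / 2 *
          ((4 * Real.pi * lw (f i) (QQ δ ε₂ N) (ww δ ε₂ N a)).re *
            ∑ m ∈ Finset.Icc 1 (KA ε₂ N), s m * Um m (la (f i)))) := by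
  obtain ⟨D₀, hD1, hDC⟩ : ∃ D₀ : ℝ, 1 ≤ D₀ ∧ C₀ ≤ D₀ := ⟨max 1 C₀, le_max_left _ _, le_max_right _ _⟩
  obtain ⟨e₁, κ₁, C₁, he₁, hκ₁, hnorm⟩ := fs_norm h0 h1 D₀
  obtain ⟨e₂, he₂, htail⟩ := fs_tail h0 h1
  obtain ⟨e₃, he₃, hmean⟩ := fs_mean h0 h1 (show (0 : ℝ) < ε / 4 by positivity) D₀
  obtain ⟨D₁, hD11, hDC1⟩ : ∃ D₁ : ℝ, 1 ≤ D₁ ∧ C₁ ≤ D₁ := ⟨max 1 C₁, le_max_left _ _, le_max_right _ _⟩
  have hD00 : 0 < D₀ := by linarith
  have hD10 : 0 < D₁ := by linarith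
  have hs1 : 0 < Real.sqrt D₁ := Real.sqrt_pos.mpr hD10
  obtain ⟨N₁, hbil⟩ := bilinear (ε := ε / (4 * Real.sqrt D₁)) (C₀ := C₄) (d := δ / 2) (by positivity)
    (by positivity) (by linarith)
  refine ⟨min (min e₁ e₂) (min e₃ (δ / 4)), min κ₁ (ε ^ 2 / (16 * D₀)), by positivity, by positivity,
    fun ε₂ hε₂ hε₂' => ?_⟩
  have hl1 : ε₂ ≤ e₁ := hε₂'.trans ((min_le_left _ _).trans (min_le_left _ _))
  have hl2 : ε₂ ≤ e₂ := hε₂'.trans ((min_le_left _ _).trans (min_le_right _ _))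
  have hl3 : ε₂ ≤ e₃ := hε₂'.trans ((min_le_right _ _).trans (min_le_left _ _))
  have hl4 : ε₂ ≤ δ / 4 := hε₂'.trans ((min_le_right _ _).trans (min_le_right _ _))
  obtain ⟨M₁, hnorm⟩ := hnorm ε₂ hε₂ hl1
  obtain ⟨M₂, htail⟩ := htail ε₂ hε₂ hl2
  obtain ⟨M₃, hmean⟩ := hmean ε₂ hε₂ hl3
  obtain ⟨M₄, hiz⟩ := iz_split
  have hpi := Real.pi_pos
  obtain ⟨M₅, hgrow⟩ := fia_grow (a := ε₂ / 4) (c := (1 / (16 * Real.pi)) ^ 2) (by linarith)
    (by positivity)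
  obtain ⟨M₆, hM₆⟩ := exists_nat_gt (32 * D₀ / ε ^ 2)
  refine ⟨max (max (max N₁ M₁) (max M₂ M₃)) (max (max M₄ M₅) (max M₆ 2)),
    fun N _ hN ι _ f hf a ha hcn s hs hcd hs4 hs2 => ?_⟩
  have hN1 : N₁ ≤ N := le_trans (by simp) hN
  have hNM1 : M₁ ≤ N := le_trans (by simp) hN
  have hNM2 : M₂ ≤ N := le_trans (by simp) hN
  have hNM3 : M₃ ≤ N := le_trans (by simp) hN
  have hNM4 : M₄ ≤ N := le_trans (by simp) hN
  have hNM5 : M₅ ≤ N := le_trans (by simp) hN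
  have hNM6 : M₆ ≤ N := le_trans (by simp) hN
  have hN2 : 2 ≤ N := le_trans (by simp) hN
  have hNR : (1 : ℝ) ≤ N := by exact_mod_cast (by omega : 1 ≤ N)
  have hn : ∀ i, IsNew (f i) := fun i => (hf.2 (f i)).mpr ⟨i, rfl⟩
  obtain ⟨-, -, hizp, hizs, -⟩ := hiz N hNM4
  have hizPr : IZ N ⊆ Pr N := by
    intro p hp
    obtain ⟨h2, h3⟩ := hizp p hp
    exact Finset.mem_filter.mpr ⟨Finset.mem_range.mpr h3, h2⟩
  have hPr : ∀ p ∈ Pr N, p.Prime ∧ p < N := by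
    intro p hp
    obtain ⟨h2, h3⟩ := Finset.mem_filter.mp hp
    exact ⟨h3, Finset.mem_range.mp h2⟩
  obtain ⟨P, hP⟩ := st_exists (Pr N) (fun p hp => (hPr p hp).1)
  have hPZ : IsST (IZ N) P := st_sub hizPr hP
  -- lengths
  have hKA : KA (ε₂ / 4) N ≤ KA ε₂ N := by
    unfold KA
    apply Nat.floor_le_floor
    exact Real.rpow_le_rpow_of_exponent_le hNR (by linarith)
  have hKA1 : 1 ≤ KA (ε₂ / 4) N := by
    unfold KA
    apply Nat.le_floor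
    rw [Nat.cast_one]
    exact Real.one_le_rpow hNR (by linarith)
  -- the small factor
  set S : (ℕ → ℝ) → ℝ := fun x => ∑ m ∈ Finset.Icc 1 (KA ε₂ N), s m * Um m x with hS
  have hSP : HPoly (Pr N) (KA (ε₂ / 4) N) S := by
    refine ⟨s, fun m hm => ⟨(hs m hm).1, (hs m hm).2.1, (hs m hm).2.2.trans hizPr⟩, fun x => ?_⟩
    rw [hS]
    symm
    refine Finset.sum_subset (Finset.Icc_subset_Icc le_rfl hKA) fun m _ hm => ?_
    by_contra h2
    have h3 : s m ≠ 0 := fun h => h2 (by rw [h, zero_mul])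
    exact hm (Finset.mem_Icc.mpr ⟨(hs m h3).1, (hs m h3).2.1⟩)
  have hS8 : HPoly (Pr N) ⌊(N : ℝ) ^ (δ / 2 / 8)⌋₊ S := by
    refine fia_mono ?_ hSP
    unfold KA
    apply Nat.floor_le_floor
    exact Real.rpow_le_rpow_of_exponent_le hNR (by linarith)
  have hSsq : ∫ x, S x ^ 2 ∂P = ∑ m ∈ Finset.Icc 1 (KA ε₂ N), s m ^ 2 := by
    rw [hS]
    exact st_sq (fun p hp => (hPr p hp).1) hP
      (fun m hm => ⟨(hs m hm).1, (hs m hm).2.1.trans hKA, (hs m hm).2.2.trans hizPr⟩)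
  -- the long factor
  set w : ℕ → ℝ := ww δ ε₂ N a with hw
  set Q : ℕ := QQ δ ε₂ N with hQ
  obtain ⟨hFP, hFsq⟩ := fs_hpoly h0 hN2 Q w
  have hFC : ∫ x, Fs δ N Q w x ^ 2 ∂P ≤ D₁ := by
    rw [hFsq P hP]
    exact (hnorm N hNM1 a ha (hcn.trans hDC) s (fun m hm => (hs m hm).2.1.trans hKA)
      (hcd.trans (min_le_left _ _))).trans hDC1
  have hFs : Real.sqrt (∫ x, Fs δ N Q w x ^ 2 ∂P) ≤ Real.sqrt D₁ := Real.sqrt_le_sqrt hFC
  have hm := hmean N hNM3 a ha s (fun m hm => ⟨(hizs m).mpr ⟨(hs m hm).1, (hs m hm).2.2⟩,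
    (hs m hm).2.1.trans hKA⟩) (hs2.trans hDC) P hP
  obtain ⟨hb1, hb2⟩ := hbil N hN1 f hf hPr hP hFP hS8 (hs4 P hPZ)
  have hcd2 : Real.sqrt (D₀ * cd (zz N) (KA ε₂ N) a s) ≤ ε / 4 := by
    apply Real.sqrt_le_iff.mpr
    refine ⟨by positivity, ?_⟩
    have h2 := hcd.trans (min_le_right _ _)
    rw [le_div_iff₀ (by positivity)] at h2
    nlinarith
  have hee : ε / (4 * Real.sqrt D₁) * Real.sqrt (∫ x, Fs δ N Q w x ^ 2 ∂P) ≤ ε / 4 := by
    calc ε / (4 * Real.sqrt D₁) * Real.sqrt (∫ x, Fs δ N Q w x ^ 2 ∂P) ≤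
        ε / (4 * Real.sqrt D₁) * Real.sqrt D₁ := by gcongr
      _ = ε / 4 := by field_simp
  -- the second moment of the small factor
  have hSE : ∑ i, om (f i) * S (la (f i)) ^ 2 ≤ 2 * D₀ := by
    have h2 := transfer f hf.1 hn (ν := 1 / (16 * Real.pi)) (by positivity) (by
      rw [div_lt_one (by positivity)]
      have := Real.pi_gt_three
      linarith) hKA1 (by
        refine le_trans ?_ (hgrow N hNM5)
        unfold KA
        exact Nat.floor_le (by positivity)) hPr hP hSP 0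
    have h3 : Real.exp (8 * Real.pi * (1 / (16 * Real.pi))) ≤ 2 := by
      have h4 : 8 * Real.pi * (1 / (16 * Real.pi)) = 1 / 2 := by
        field_simp
        norm_num
      rw [h4]
      have h5 : Real.exp (1 / 2) ^ 2 = Real.exp 1 := by
        rw [← Real.exp_nat_mul]
        norm_num
      have h6 := Real.exp_one_lt_three
      have h7 := Real.exp_pos (1 / 2)
      nlinarith
    have h4 : ∑ i, om (f i) * (S (la (f i)) + 0 * se (f i)) ^ 2 = ∑ i, om (f i) * S (la (f i)) ^ 2 := by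
      simp only [zero_mul, add_zero]
    rw [h4, hSsq] at h2
    have h5 : 0 ≤ ∑ m ∈ Finset.Icc 1 (KA ε₂ N), s m ^ 2 := Finset.sum_nonneg fun _ _ => sq_nonneg _
    calc _ ≤ _ := h2
      _ ≤ 2 * (D₀ + 0 ^ 2) := by
        apply mul_le_mul h3 _ (by positivity) (by norm_num)
        have := hs2.trans hDC
        linarith
      _ = _ := by ring
  -- the tail
  have ht := htail N hNM2 f hf.1 hn a ha
  set L : ι → ℂ := fun i => 4 * Real.pi * lw (f i) Q w with hL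
  have ht2 : ∑ i, om (f i) * ((L i).re - Fs δ N Q w (la (f i))) ^ 2 ≤ 1 / N := by
    refine le_trans (Finset.sum_le_sum fun i _ => ?_) ht
    apply mul_le_mul_of_nonneg_left _ (fia_om (hn i))
    have h2 : |(L i - ((Fs δ N Q w (la (f i)) : ℝ) : ℂ)).re| ≤
        ‖L i - ((Fs δ N Q w (la (f i)) : ℝ) : ℂ)‖ := Complex.abs_re_le_norm _
    rw [Complex.sub_re, Complex.ofReal_re] at h2
    rw [← sq_abs]
    exact pow_le_pow_left₀ (abs_nonneg _) h2 2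
  have herr : ∑ i, om (f i) * (|(L i).re - Fs δ N Q w (la (f i))| * |S (la (f i))|) ≤ ε / 4 := by
    have h2 := fia_cs (fun i => om (f i)) (fun i => (L i).re - Fs δ N Q w (la (f i)))
      (fun i => S (la (f i))) (fun i => fia_om (hn i)) ht2 hSE (by positivity)
    refine h2.trans ?_
    rw [← Real.sqrt_mul (by positivity)]
    apply Real.sqrt_le_iff.mpr
    refine ⟨by positivity, ?_⟩
    have h3 : 32 * D₀ / ε ^ 2 < N := hM₆.trans_le (by exact_mod_cast hNM6)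
    rw [div_lt_iff₀ (by positivity)] at h3
    have h4 : 1 / (N : ℝ) * (2 * D₀) = 2 * D₀ / N := by ring
    rw [h4, div_le_iff₀ (by linarith)]
    nlinarith
  -- assembly
  have key : ∀ i, om (f i) * ((1 + se (f i)) / 2 * ((L i).re * S (la (f i)))) ≥
      1 / 2 * (om (f i) * (Fs δ N Q w (la (f i)) * S (la (f i)))) +
      1 / 2 * (om (f i) * (se (f i) * (Fs δ N Q w (la (f i)) * S (la (f i))))) -
      om (f i) * (|(L i).re - Fs δ N Q w (la (f i))| * |S (la (f i))|) := by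
    intro i
    have h2 : 0 ≤ (1 + se (f i)) / 2 ∧ (1 + se (f i)) / 2 ≤ 1 := by
      rcases fia_se (hn i) with h | h <;> rw [h] <;> norm_num
    have h3 : -(|(L i).re - Fs δ N Q w (la (f i))| * |S (la (f i))|) ≤
        (1 + se (f i)) / 2 * (((L i).re - Fs δ N Q w (la (f i))) * S (la (f i))) := by
      have h4 : |(1 + se (f i)) / 2 * (((L i).re - Fs δ N Q w (la (f i))) * S (la (f i)))| ≤
          |(L i).re - Fs δ N Q w (la (f i))| * |S (la (f i))| := by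
        rw [abs_mul, abs_mul, abs_of_nonneg h2.1]
        exact mul_le_of_le_one_left (by positivity) h2.2
      exact (abs_le.mp h4).1
    have h5 := mul_le_mul_of_nonneg_left h3 (fia_om (hn i))
    nlinarith
  have hsum := Finset.sum_le_sum (s := Finset.univ) fun i _ => key i
  rw [Finset.sum_sub_distrib, Finset.sum_add_distrib, ← Finset.mul_sum, ← Finset.mul_sum] at hsum
  have hb1' := abs_le.mp hb1
  have hb2' := abs_le.mp hb2
  have hm' := abs_le.mp hm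
  linarith [hb1'.1, hb2'.1, hm'.1]

theorem first_moment : type_of% @first_moment_pr := @first_moment_pr

end Pool.Agent.KSL
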