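import Pool.Agent.Lib_helper68.KSL.Defs
import Pool.Agent.Lib_helper68.KSLF.HBI

/-!
# Block PCH: the characteristic function of the normalised sum over primes
-/

set_option autoImplicit false

namespace Pool.Agent.KSL

open Pool.Agent.LEV Pool.Agent.LVB
open Pool.Agent.FG61 (mu phi cc ff AA Lam)
open Complex MeasureTheory Filter Topology UpperHalfPlane ModularGroup ProbabilityTheory
open scoped MatrixGroups Modular ENNReal ModularForm ComplexConjugate ContDiff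

/-- Taylor expansion of the exponential -/
theorem PCH_taylor {t : ℝ} (ht : |t| ≤ 1) :
    ‖cexp ((t : ℂ) * Complex.I) - (1 + (t : ℂ) * Complex.I - (t : ℂ) ^ 2 / 2)‖ ≤ 3 * |t| ^ 3 := by
  have h1 := Complex.norm_exp_sub_sum_le_norm_mul_exp ((t : ℂ) * Complex.I) 3
  have h2 : ∑ m ∈ Finset.range 3, ((t : ℂ) * Complex.I) ^ m / (m.factorial : ℂ) =
      1 + (t : ℂ) * Complex.I - (t : ℂ) ^ 2 / 2 := by
    rw [Finset.sum_range_succ, Finset.sum_range_succ, Finset.sum_range_succ, Finset.sum_range_zero]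
    have : ((t : ℂ) * Complex.I) ^ 2 = -(t : ℂ) ^ 2 := by
      rw [mul_pow, Complex.I_sq]; ring
    rw [this]
    simp [Nat.factorial]
    ring
  rw [h2] at h1
  have h3 : ‖(t : ℂ) * Complex.I‖ = |t| := by simp
  rw [h3] at h1
  have h4 : Real.exp |t| ≤ 3 := by
    have := Real.exp_le_exp.2 ht
    have := Real.exp_one_lt_d9
    linarith
  calc _ ≤ |t| ^ 3 * Real.exp |t| := h1
    _ ≤ |t| ^ 3 * 3 := mul_le_mul_of_nonneg_left h4 (by positivity)
    _ = 3 * |t| ^ 3 := by ring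

/-- products of numbers in the unit disc -/
theorem PCH_prod {ι : Type} (s : Finset ι) {a b : ι → ℂ} (ha : ∀ i ∈ s, ‖a i‖ ≤ 1)
    (hb : ∀ i ∈ s, ‖b i‖ ≤ 1) : ‖∏ i ∈ s, a i - ∏ i ∈ s, b i‖ ≤ ∑ i ∈ s, ‖a i - b i‖ := by
  classical
  induction s using Finset.induction_on with
  | empty => simp
  | insert j s hj ih =>
    rw [Finset.prod_insert hj, Finset.prod_insert hj, Finset.sum_insert hj]
    have ih' := ih (fun i hi => ha i (Finset.mem_insert_of_mem hi))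
      (fun i hi => hb i (Finset.mem_insert_of_mem hi))
    have hA : ‖∏ i ∈ s, a i‖ ≤ 1 := by
      rw [norm_prod]
      exact Finset.prod_le_one (fun i _ => norm_nonneg _)
        (fun i hi => ha i (Finset.mem_insert_of_mem hi))
    have hB : ‖b j‖ ≤ 1 := hb j (Finset.mem_insert_self j s)
    have h1 : a j * ∏ i ∈ s, a i - b j * ∏ i ∈ s, b i =
        (a j - b j) * ∏ i ∈ s, a i + b j * (∏ i ∈ s, a i - ∏ i ∈ s, b i) := by ring
    rw [h1]
    refine (norm_add_le _ _).trans (add_le_add ?_ ?_)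
    · rw [norm_mul]
      exact mul_le_of_le_one_right (norm_nonneg _) hA
    · rw [norm_mul]
      exact (mul_le_of_le_one_left (norm_nonneg _) hB).trans ih'

/-- one factor -/
theorem PCH_one {I : Finset ℕ} {P : Measure (ℕ → ℝ)} (hP : IsST I P) {p : ℕ} (hp : p ∈ I)
    {c : ℝ} (hc : 2 * |c| ≤ 1) :
    ‖∫ x, cexp ((c * x p : ℝ) * Complex.I) ∂P - (Real.exp (-c ^ 2 / 2) : ℂ)‖ ≤ 25 * |c| ^ 3 := by
  have := hP.prob
  have hm : Measurable (fun x : ℕ → ℝ => x p) := measurable_pi_apply p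
  have hb : ∀ᵐ x ∂P, |x p| ≤ 2 := by
    filter_upwards [hP.bdd] with x hx
    exact hx p hp
  have hi1 : Integrable (fun x : ℕ → ℝ => x p) P :=
    Integrable.of_bound hm.aestronglyMeasurable 2 (by simpa only [Real.norm_eq_abs] using hb)
  have hi2 : Integrable (fun x : ℕ → ℝ => x p ^ 2) P := by
    refine Integrable.of_bound (hm.pow_const 2).aestronglyMeasurable 4 ?_
    filter_upwards [hb] with x hx
    rw [Real.norm_eq_abs, abs_pow]
    nlinarith [abs_nonneg (x p)]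
  have e1 : ∫ x, x p ∂P = 0 := by
    have h := hP.mom p hp 1
    simpa [Uu] using h
  have e2 : ∫ x, x p ^ 2 ∂P = 1 := by
    have h := hP.mom p hp 2
    have h' : (fun x : ℕ → ℝ => Uu (x p) 2) = fun x => x p ^ 2 - 1 := by
      funext x
      simp only [Uu]
      ring
    rw [h'] at h
    rw [integral_sub hi2 (integrable_const _)] at h
    simp at h
    linarith
  have hI : Integrable (fun x : ℕ → ℝ => cexp ((c * x p : ℝ) * Complex.I)) P := by
    refine Integrable.of_bound ?_ 1 ?_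
    · apply Measurable.aestronglyMeasurable
      fun_prop
    · refine Eventually.of_forall fun x => ?_
      rw [Complex.norm_exp_ofReal_mul_I]
  have hJ : Integrable (fun x : ℕ → ℝ => (1 : ℂ) + ((c * x p : ℝ) : ℂ) * Complex.I -
      ((c * x p : ℝ) : ℂ) ^ 2 / 2) P := by
    refine ((integrable_const _).add ?_).sub ?_
    · exact ((hi1.const_mul c).ofReal).mul_const _
    · have : (fun x : ℕ → ℝ => ((c * x p : ℝ) : ℂ) ^ 2 / 2) =
          fun x => ((c ^ 2 / 2 * x p ^ 2 : ℝ) : ℂ) := by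
        funext x
        push_cast
        ring
      rw [this]
      exact (hi2.const_mul _).ofReal
  have e3 : ∫ x, ((1 : ℂ) + ((c * x p : ℝ) : ℂ) * Complex.I - ((c * x p : ℝ) : ℂ) ^ 2 / 2) ∂P =
      ((1 - c ^ 2 / 2 : ℝ) : ℂ) := by
    have h1 : (fun x : ℕ → ℝ => (1 : ℂ) + ((c * x p : ℝ) : ℂ) * Complex.I -
        ((c * x p : ℝ) : ℂ) ^ 2 / 2) =
        fun x => (((1 - c ^ 2 / 2 * x p ^ 2 : ℝ)) : ℂ) + ((c * x p : ℝ) : ℂ) * Complex.I := by
      funext x
      push_cast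
      ring
    have f1 : ∫ x : ℕ → ℝ, (((1 - c ^ 2 / 2 * x p ^ 2 : ℝ)) : ℂ) ∂P =
        ((∫ x : ℕ → ℝ, (1 - c ^ 2 / 2 * x p ^ 2) ∂P : ℝ) : ℂ) := integral_ofReal
    have f2 : ∫ x : ℕ → ℝ, ((c * x p : ℝ) : ℂ) ∂P = ((∫ x : ℕ → ℝ, c * x p ∂P : ℝ) : ℂ) :=
      integral_ofReal
    rw [h1, integral_add ((integrable_const _).sub (hi2.const_mul _)).ofReal
      (((hi1.const_mul c).ofReal).mul_const _), integral_mul_const, f1, f2,
      integral_const_mul, e1,
      integral_sub (integrable_const _) (hi2.const_mul _), integral_const_mul, e2]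
    simp
  have h4 : ‖∫ x, cexp ((c * x p : ℝ) * Complex.I) ∂P - ((1 - c ^ 2 / 2 : ℝ) : ℂ)‖ ≤
      24 * |c| ^ 3 := by
    rw [← e3, ← integral_sub hI hJ]
    have h5 : ∀ᵐ x ∂P, ‖cexp ((c * x p : ℝ) * Complex.I) - ((1 : ℂ) +
        ((c * x p : ℝ) : ℂ) * Complex.I - ((c * x p : ℝ) : ℂ) ^ 2 / 2)‖ ≤ 24 * |c| ^ 3 := by
      filter_upwards [hb] with x hx
      have h6 : |c * x p| ≤ 2 * |c| := by
        rw [abs_mul]
        nlinarith [abs_nonneg c, abs_nonneg (x p)]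
      refine (PCH_taylor (h6.trans hc)).trans ?_
      have h7 : |c * x p| ^ 3 ≤ (2 * |c|) ^ 3 := pow_le_pow_left₀ (abs_nonneg _) h6 3
      nlinarith
    have h8 := norm_integral_le_of_norm_le_const h5
    simpa using h8
  have h9 : |Real.exp (-c ^ 2 / 2) - (1 - c ^ 2 / 2)| ≤ |c| ^ 3 := by
    have hc1 : |c| ≤ 1 / 2 := by linarith
    have hc2 : c ^ 2 = |c| ^ 2 := (sq_abs c).symm
    have h10 : |(-c ^ 2 / 2 : ℝ)| ≤ 1 := by
      rw [abs_div, abs_neg, abs_pow, abs_of_pos (show (0 : ℝ) < 2 by norm_num)]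
      nlinarith [abs_nonneg c]
    have h11 := Real.abs_exp_sub_one_sub_id_le h10
    have h12 : Real.exp (-c ^ 2 / 2) - 1 - -c ^ 2 / 2 = Real.exp (-c ^ 2 / 2) - (1 - c ^ 2 / 2) := by
      ring
    rw [h12] at h11
    refine h11.trans ?_
    have h13 : (-c ^ 2 / 2) ^ 2 = |c| ^ 3 * (|c| / 4) := by
      rw [hc2]; ring
    rw [h13]
    exact mul_le_of_le_one_right (by positivity) (by linarith)
  have h14 : ‖((1 - c ^ 2 / 2 : ℝ) : ℂ) - (Real.exp (-c ^ 2 / 2) : ℂ)‖ ≤ |c| ^ 3 := by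
    rw [← Complex.ofReal_sub, Complex.norm_real, Real.norm_eq_abs, abs_sub_comm]
    exact h9
  calc _ ≤ ‖∫ x, cexp ((c * x p : ℝ) * Complex.I) ∂P - ((1 - c ^ 2 / 2 : ℝ) : ℂ)‖ +
        ‖((1 - c ^ 2 / 2 : ℝ) : ℂ) - (Real.exp (-c ^ 2 / 2) : ℂ)‖ := by
        refine (le_of_eq ?_).trans (norm_add_le _ _)
        congr 1
        ring
    _ ≤ 24 * |c| ^ 3 + |c| ^ 3 := add_le_add h4 h14
    _ = 25 * |c| ^ 3 := by ring

theorem pn_char_pr (θ : ℝ) {ε : ℝ} (hε : 0 < ε) : ∃ N₀ : ℕ, ∀ N : ℕ, N₀ ≤ N →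
    ∀ P : Measure (ℕ → ℝ), IsST (IN N) P →
      ‖∫ x, cexp ((θ * Pn N x : ℝ) * Complex.I) ∂P - (Real.exp (-θ ^ 2 / 2) : ℂ)‖ ≤ ε := by
  obtain ⟨N₁, hN₁⟩ := hb_in (show (0 : ℝ) < 1 / 2 by norm_num)
  have hlog : Tendsto (fun N : ℕ => Real.log (Real.log N)) atTop atTop :=
    Real.tendsto_log_atTop.comp (Real.tendsto_log_atTop.comp tendsto_natCast_atTop_atTop)
  obtain ⟨N₂, hN₂⟩ := (hlog.eventually_ge_atTop
    (max 1 (max (4 * θ ^ 2) ((25 * |θ| ^ 3 / ε) ^ 2)))).exists_forall_of_atTop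
  refine ⟨max N₁ N₂, fun N hN P hP => ?_⟩
  obtain ⟨_, _, hH1⟩ := hN₁ N ((le_max_left _ _).trans hN)
  have hl := hN₂ N ((le_max_right _ _).trans hN)
  set l := Real.log (Real.log N) with hldef
  have hl1 : 1 ≤ l := (le_max_left _ _).trans hl
  have hl2 : 4 * θ ^ 2 ≤ l := ((le_max_left _ _).trans (le_max_right _ _)).trans hl
  have hl3 : (25 * |θ| ^ 3 / ε) ^ 2 ≤ l := ((le_max_right _ _).trans (le_max_right _ _)).trans hl
  have := hP.prob
  set H := HB (IN N) with hHdef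
  have hpl : ∀ p ∈ IN N, l < p := fun p hp => (Finset.mem_filter.1 hp).2.2
  let c : ℕ → ℝ := fun p => θ / (Real.sqrt p * Real.sqrt H)
  have hc2 : ∀ p ∈ IN N, c p ^ 2 = θ ^ 2 / H * (1 / p) := by
    intro p hp
    have hp0 : (0 : ℝ) < p := by have := hpl p hp; linarith
    show (θ / (Real.sqrt p * Real.sqrt H)) ^ 2 = _
    rw [div_pow, mul_pow, Real.sq_sqrt hp0.le, Real.sq_sqrt (by linarith)]
    field_simp
  have hcl : ∀ p ∈ IN N, |c p| ≤ |θ| / Real.sqrt l := by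
    intro p hp
    have hp0 : l < p := hpl p hp
    show |θ / (Real.sqrt p * Real.sqrt H)| ≤ _
    rw [abs_div, abs_mul, abs_of_nonneg (Real.sqrt_nonneg _), abs_of_nonneg (Real.sqrt_nonneg _)]
    have h1 : Real.sqrt l ≤ Real.sqrt p * Real.sqrt H := by
      have h2 : Real.sqrt l ≤ Real.sqrt p := Real.sqrt_le_sqrt hp0.le
      have h3 : 1 ≤ Real.sqrt H := by rw [Real.one_le_sqrt]; exact hH1
      calc Real.sqrt l ≤ Real.sqrt p := h2
        _ ≤ Real.sqrt p * Real.sqrt H := le_mul_of_one_le_right (Real.sqrt_nonneg _) h3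
    exact div_le_div_of_nonneg_left (abs_nonneg θ) (Real.sqrt_pos.2 (by linarith)) h1
  have hsq : |θ| / Real.sqrt l ≤ 1 / 2 := by
    rw [div_le_iff₀ (Real.sqrt_pos.2 (by linarith))]
    have h1 : 2 * |θ| ≤ Real.sqrt l := by
      apply Real.le_sqrt_of_sq_le
      rw [mul_pow, sq_abs]
      linarith
    linarith
  have hprod : ∀ x : ℕ → ℝ, cexp ((θ * Pn N x : ℝ) * Complex.I) =
      ∏ p : IN N, cexp ((c p * x p : ℝ) * Complex.I) := by
    intro x
    rw [← Complex.exp_sum]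
    congr 1
    rw [← Finset.sum_mul, ← Complex.ofReal_sum]
    congr 2
    rw [Finset.sum_coe_sort (IN N) (fun p => c p * x p)]
    unfold Pn PB
    rw [Finset.sum_div, Finset.mul_sum]
    refine Finset.sum_congr rfl fun p _ => ?_
    show θ * (x p / Real.sqrt p / Real.sqrt H) = θ / (Real.sqrt p * Real.sqrt H) * x p
    rw [div_div]
    ring
  have hint : ∫ x, cexp ((θ * Pn N x : ℝ) * Complex.I) ∂P =
      ∏ p : IN N, ∫ x, cexp ((c p * x p : ℝ) * Complex.I) ∂P := by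
    simp only [hprod]
    refine hP.ind.integral_fun_prod_comp (X := fun (p : IN N) (x : ℕ → ℝ) => x p)
      (f := fun (p : IN N) (y : ℝ) => cexp ((c p * y : ℝ) * Complex.I))
      (fun p => (measurable_pi_apply (p : ℕ)).aemeasurable) (fun p => ?_)
    apply Continuous.aestronglyMeasurable
    fun_prop
  have hexp : (Real.exp (-θ ^ 2 / 2) : ℂ) = ∏ p : IN N, (Real.exp (-c p ^ 2 / 2) : ℂ) := by
    rw [← Complex.ofReal_prod, ← Real.exp_sum]
    congr 2
    rw [Finset.sum_coe_sort (IN N) (fun p => -c p ^ 2 / 2)]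
    have h0 : ∑ p ∈ IN N, (1 / (p : ℝ)) = H := rfl
    have h1 : ∑ p ∈ IN N, -c p ^ 2 / 2 = -(θ ^ 2 / H * H) / 2 := by
      have h2 : ∀ p ∈ IN N, -c p ^ 2 / 2 = -(θ ^ 2 / H) / 2 * (1 / (p : ℝ)) := by
        intro p hp
        rw [hc2 p hp]
        ring
      rw [Finset.sum_congr rfl h2, ← Finset.mul_sum, h0]
      ring
    rw [h1, div_mul_cancel₀ _ (by linarith : H ≠ 0)]
  rw [hint, hexp]
  have hstep : ∀ p : IN N, ‖∫ x, cexp ((c p * x p : ℝ) * Complex.I) ∂P -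
      (Real.exp (-c p ^ 2 / 2) : ℂ)‖ ≤ 25 * (|θ| / Real.sqrt l) * c p ^ 2 := by
    intro p
    have h1 := hcl p p.2
    refine (PCH_one hP p.2 (c := c p) (by linarith)).trans ?_
    have h2 : |c p| ^ 3 = |c p| * c p ^ 2 := by rw [← sq_abs (c p)]; ring
    rw [h2, mul_assoc]
    refine mul_le_mul_of_nonneg_left ?_ (by norm_num)
    exact mul_le_mul_of_nonneg_right h1 (sq_nonneg _)
  refine (PCH_prod Finset.univ ?_ ?_).trans ?_
  · intro p _
    have h1 : ∀ᵐ x ∂P, ‖cexp ((c p * x p : ℝ) * Complex.I)‖ ≤ 1 :=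
      Eventually.of_forall fun x => by rw [Complex.norm_exp_ofReal_mul_I]
    have h2 := norm_integral_le_of_norm_le_const h1
    simpa using h2
  · intro p _
    rw [Complex.norm_real, Real.norm_eq_abs, Real.abs_exp, Real.exp_le_one_iff]
    nlinarith [sq_nonneg (c p)]
  · refine (Finset.sum_le_sum fun p _ => hstep p).trans ?_
    rw [← Finset.mul_sum, Finset.sum_coe_sort (IN N) (fun p => c p ^ 2),
      Finset.sum_congr rfl hc2, ← Finset.mul_sum]
    have h1 : θ ^ 2 / H * ∑ p ∈ IN N, (1 / (p : ℝ)) = θ ^ 2 := by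
      have : ∑ p ∈ IN N, (1 / (p : ℝ)) = H := rfl
      rw [this, div_mul_cancel₀ _ (by linarith : H ≠ 0)]
    rw [h1]
    have hs : 0 < Real.sqrt l := Real.sqrt_pos.2 (by linarith)
    have h2 : 25 * |θ| ^ 3 / ε ≤ Real.sqrt l := Real.le_sqrt_of_sq_le hl3
    have h3 : 25 * (|θ| / Real.sqrt l) * θ ^ 2 = 25 * |θ| ^ 3 / Real.sqrt l := by
      rw [← sq_abs θ]; ring
    rw [h3, div_le_iff₀ hs]
    rw [div_le_iff₀ hε] at h2
    linarith

theorem pn_char : type_of% @pn_char_pr := @pn_char_pr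

end Pool.Agent.KSL
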