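import Pool.Agent.Lib_helper68.KSL.Defs
import Pool.Agent.Lib_helper68.LEV.EIA
import Pool.Agent.Lib_helper68.LEV.PET
import Pool.Agent.Lib_helper41.LVBF.STE
import Pool.Agent.Lib_helper68.KSLF.HMM
import Pool.Agent.Lib_helper68.KSLF.PCH
import Pool.Agent.Lib_helper68.KSLF.PEX

/-!
# KSL block HCH (MP_cc4f83_nt): characteristic functions over the family
-/

namespace Pool.Agent.KSL

open Pool.Agent.LEV Pool.Agent.LVB
open Pool.Agent.FG61 (mu phi cc ff AA Lam)
open Complex MeasureTheory Filter Topology UpperHalfPlane ModularGroup ProbabilityTheory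
open scoped MatrixGroups Modular ENNReal ModularForm ComplexConjugate ContDiff

/-- the remainder in the Taylor expansion -/
noncomputable def hch_R (n : ℕ) (x : ℝ) : ℂ :=
  cexp ((x : ℂ) * Complex.I) - ∑ j ∈ Finset.range n, ((x : ℂ) * Complex.I) ^ j / (j.factorial : ℂ)

theorem hch_R_deriv (n : ℕ) (x : ℝ) :
    HasDerivAt (hch_R (n + 1)) (Complex.I * hch_R n x) x := by
  have h1 : HasDerivAt (fun y : ℝ => (y : ℂ) * Complex.I) Complex.I x := by
    have := ((hasDerivAt_id x).ofReal_comp).mul_const Complex.I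
    simpa using this
  have h2 : HasDerivAt (fun y : ℝ => cexp ((y : ℂ) * Complex.I))
      (cexp ((x : ℂ) * Complex.I) * Complex.I) x := h1.cexp
  have h3 : ∀ j ∈ Finset.range (n + 1), HasDerivAt
      (fun y : ℝ => ((y : ℂ) * Complex.I) ^ j / (j.factorial : ℂ))
      ((j : ℂ) * ((x : ℂ) * Complex.I) ^ (j - 1) * Complex.I / (j.factorial : ℂ)) x :=
    fun j _ => (h1.pow j).div_const _
  have h4 := h2.sub (HasDerivAt.fun_sum h3)
  refine h4.congr_deriv ?_
  rw [Finset.sum_range_succ']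
  unfold hch_R
  have h5 : ∀ j ∈ Finset.range n, ((j + 1 : ℕ) : ℂ) * ((x : ℂ) * Complex.I) ^ (j + 1 - 1) * Complex.I /
      ((j + 1).factorial : ℂ) = Complex.I * (((x : ℂ) * Complex.I) ^ j / (j.factorial : ℂ)) := by
    intro j _
    rw [Nat.factorial_succ]
    have e1 : ((j + 1 : ℕ) : ℂ) ≠ 0 := by exact_mod_cast Nat.succ_ne_zero j
    have e2 : ((j.factorial : ℕ) : ℂ) ≠ 0 := by exact_mod_cast Nat.factorial_ne_zero j
    rw [Nat.add_sub_cancel, Nat.cast_mul]
    field_simp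
  rw [Finset.sum_congr rfl h5, ← Finset.mul_sum]
  simp only [Nat.cast_zero, zero_mul, zero_div, add_zero]
  ring

theorem hch_R_nonneg (n : ℕ) : ∀ x : ℝ, 0 ≤ x → ‖hch_R n x‖ ≤ x ^ n / (n.factorial : ℝ) := by
  induction n with
  | zero =>
    intro x _
    unfold hch_R
    simp [Complex.norm_exp_ofReal_mul_I]
  | succ n ih =>
    intro x hx
    have hB : ∀ y : ℝ, HasDerivAt (fun y : ℝ => y ^ (n + 1) / ((n + 1).factorial : ℝ))
        (y ^ n / (n.factorial : ℝ)) y := by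
      intro y
      have h1 := (hasDerivAt_pow (n + 1) y).div_const ((n + 1).factorial : ℝ)
      refine h1.congr_deriv ?_
      rw [Nat.factorial_succ, Nat.add_sub_cancel]
      have e1 : ((n + 1 : ℕ) : ℝ) ≠ 0 := by exact_mod_cast Nat.succ_ne_zero n
      have e2 : ((n.factorial : ℕ) : ℝ) ≠ 0 := by exact_mod_cast Nat.factorial_ne_zero n
      rw [Nat.cast_mul]
      field_simp
    have h2 := image_norm_le_of_norm_deriv_right_le_deriv_boundary' (f := hch_R (n + 1))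
      (f' := fun y => Complex.I * hch_R n y) (a := 0) (b := x)
      (B := fun y : ℝ => y ^ (n + 1) / ((n + 1).factorial : ℝ))
      (B' := fun y : ℝ => y ^ n / (n.factorial : ℝ))
      (fun y _ => (hch_R_deriv n y).continuousAt.continuousWithinAt)
      (fun y _ => (hch_R_deriv n y).hasDerivWithinAt) (by
        unfold hch_R
        rw [Finset.sum_range_succ']
        simp)
      (fun y _ => (hB y).continuousAt.continuousWithinAt)
      (fun y _ => (hB y).hasDerivWithinAt)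
      (fun y hy => by
        rw [norm_mul, Complex.norm_I, one_mul]
        exact ih y hy.1)
    exact h2 (Set.right_mem_Icc.2 hx)

theorem hch_R_neg (n : ℕ) (x : ℝ) : hch_R n (-x) = (starRingEnd ℂ) (hch_R n x) := by
  unfold hch_R
  rw [map_sub, map_sum, ← Complex.exp_conj]
  congr 1
  · congr 1
    simp
  · refine Finset.sum_congr rfl fun j _ => ?_
    rw [map_div₀, map_pow, map_mul, Complex.conj_ofReal, Complex.conj_I, Complex.conj_natCast]
    push_cast
    ring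

theorem hch_R_le (n : ℕ) (x : ℝ) : ‖hch_R (2 * n) x‖ ≤ x ^ (2 * n) / ((2 * n).factorial : ℝ) := by
  rcases le_total 0 x with h | h
  · exact hch_R_nonneg _ x h
  · have h1 := hch_R_nonneg (2 * n) (-x) (by linarith)
    rw [hch_R_neg, RCLike.norm_conj, Even.neg_pow ⟨n, two_mul n⟩] at h1
    exact h1

theorem hch_R_cont (n : ℕ) : Continuous (hch_R n) := by
  unfold hch_R
  fun_prop

/-- the abstract estimate -/
theorem hch_abs {ι : Type} [Fintype ι] {Ω : Type} [MeasurableSpace Ω] {P : Measure Ω}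
    [IsProbabilityMeasure P] (Z : Ω → ℝ) (hZ : Measurable Z)
    (hint : ∀ j : ℕ, Integrable (fun x => Z x ^ j) P) (w y : ι → ℝ) (hw : ∀ i, 0 ≤ w i)
    {M e : ℝ} (θ : ℝ) (hM : 0 ≤ M) (k : ℕ)
    (hmom : ∀ j : ℕ, j ≤ 2 * k → |∑ i, w i * y i ^ j - M * ∫ x, Z x ^ j ∂P| ≤ e) :
    ‖∑ i, (w i : ℂ) * cexp ((θ * y i : ℝ) * Complex.I) -
      M * ∫ x, cexp ((θ * Z x : ℝ) * Complex.I) ∂P‖ ≤
      Real.exp |θ| * e + 2 * M * ∫ x, (θ * Z x) ^ (2 * k) / ((2 * k).factorial : ℝ) ∂P := by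
  have he : 0 ≤ e := (abs_nonneg _).trans (hmom 0 (Nat.zero_le _))
  set T : ℝ → ℂ := fun x => ∑ j ∈ Finset.range (2 * k), ((x : ℂ) * Complex.I) ^ j / (j.factorial : ℂ)
    with hT
  have hdec : ∀ x : ℝ, cexp ((x : ℂ) * Complex.I) = T x + hch_R (2 * k) x := by
    intro x
    rw [hT]
    unfold hch_R
    ring
  have hTc : ∀ x : ℝ, T (θ * x) = ∑ j ∈ Finset.range (2 * k),
      ((θ : ℂ) * Complex.I) ^ j / (j.factorial : ℂ) * ((x ^ j : ℝ) : ℂ) := by
    intro x
    rw [hT]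
    refine Finset.sum_congr rfl fun j _ => ?_
    push_cast
    rw [mul_right_comm, mul_pow]
    ring
  have hintC : ∀ j : ℕ, Integrable (fun x => ((Z x ^ j : ℝ) : ℂ)) P := fun j => (hint j).ofReal
  have hTint : Integrable (fun x => T (θ * Z x)) P := by
    simp_rw [hTc]
    exact integrable_finsetSum _ fun j _ => (hintC j).const_mul _
  have hRm : AEStronglyMeasurable (fun x => hch_R (2 * k) (θ * Z x)) P :=
    ((hch_R_cont _).measurable.comp (hZ.const_mul θ)).aestronglyMeasurable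
  have hpow : Integrable (fun x => (θ * Z x) ^ (2 * k) / ((2 * k).factorial : ℝ)) P := by
    simp_rw [mul_pow]
    exact ((hint (2 * k)).const_mul _).div_const _
  have hRint : Integrable (fun x => hch_R (2 * k) (θ * Z x)) P :=
    hpow.mono' hRm (Filter.Eventually.of_forall fun x => hch_R_le k _)
  have hI : ∫ x, cexp ((θ * Z x : ℝ) * Complex.I) ∂P =
      ∫ x, T (θ * Z x) ∂P + ∫ x, hch_R (2 * k) (θ * Z x) ∂P := by
    rw [← integral_add hTint hRint]
    exact integral_congr_ae (Filter.Eventually.of_forall fun x => hdec _)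
  have hIT : ∫ x, T (θ * Z x) ∂P = ∑ j ∈ Finset.range (2 * k),
      ((θ : ℂ) * Complex.I) ^ j / (j.factorial : ℂ) * ((∫ x, Z x ^ j ∂P : ℝ) : ℂ) := by
    simp_rw [hTc]
    rw [integral_finsetSum _ fun j _ => (hintC j).const_mul _]
    refine Finset.sum_congr rfl fun j _ => ?_
    rw [integral_const_mul, integral_complex_ofReal]
  have hS : ∑ i, (w i : ℂ) * cexp ((θ * y i : ℝ) * Complex.I) =
      ∑ j ∈ Finset.range (2 * k), ((θ : ℂ) * Complex.I) ^ j / (j.factorial : ℂ) *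
        ((∑ i, w i * y i ^ j : ℝ) : ℂ) + ∑ i, (w i : ℂ) * hch_R (2 * k) (θ * y i) := by
    have h1 : ∀ i, (w i : ℂ) * cexp ((θ * y i : ℝ) * Complex.I) =
        ∑ j ∈ Finset.range (2 * k), ((θ : ℂ) * Complex.I) ^ j / (j.factorial : ℂ) *
          ((w i * y i ^ j : ℝ) : ℂ) + (w i : ℂ) * hch_R (2 * k) (θ * y i) := by
      intro i
      rw [hdec, mul_add, hTc, Finset.mul_sum]
      congr 1
      refine Finset.sum_congr rfl fun j _ => ?_
      push_cast
      ring
    rw [Finset.sum_congr rfl fun i _ => h1 i, Finset.sum_add_distrib, Finset.sum_comm]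
    congr 1
    refine Finset.sum_congr rfl fun j _ => ?_
    rw [← Finset.mul_sum]
    push_cast
    rfl
  have hdiff : ∑ i, (w i : ℂ) * cexp ((θ * y i : ℝ) * Complex.I) -
      M * ∫ x, cexp ((θ * Z x : ℝ) * Complex.I) ∂P =
      ∑ j ∈ Finset.range (2 * k), ((θ : ℂ) * Complex.I) ^ j / (j.factorial : ℂ) *
        ((∑ i, w i * y i ^ j - M * ∫ x, Z x ^ j ∂P : ℝ) : ℂ) +
      (∑ i, (w i : ℂ) * hch_R (2 * k) (θ * y i) - M * ∫ x, hch_R (2 * k) (θ * Z x) ∂P) := by
    rw [hS, hI, hIT]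
    have h2 : ∑ j ∈ Finset.range (2 * k), ((θ : ℂ) * Complex.I) ^ j / (j.factorial : ℂ) *
        ((∑ i, w i * y i ^ j - M * ∫ x, Z x ^ j ∂P : ℝ) : ℂ) =
        ∑ j ∈ Finset.range (2 * k), ((θ : ℂ) * Complex.I) ^ j / (j.factorial : ℂ) *
          ((∑ i, w i * y i ^ j : ℝ) : ℂ) -
        M * ∑ j ∈ Finset.range (2 * k), ((θ : ℂ) * Complex.I) ^ j / (j.factorial : ℂ) *
          ((∫ x, Z x ^ j ∂P : ℝ) : ℂ) := by
      rw [Finset.mul_sum, ← Finset.sum_sub_distrib]
      refine Finset.sum_congr rfl fun j _ => ?_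
      push_cast
      ring
    rw [h2]
    ring
  have hb1 : ‖∑ j ∈ Finset.range (2 * k), ((θ : ℂ) * Complex.I) ^ j / (j.factorial : ℂ) *
        ((∑ i, w i * y i ^ j - M * ∫ x, Z x ^ j ∂P : ℝ) : ℂ)‖ ≤
      (∑ j ∈ Finset.range (2 * k), |θ| ^ j / (j.factorial : ℝ)) * e := by
    rw [Finset.sum_mul]
    refine (norm_sum_le _ _).trans (Finset.sum_le_sum fun j hj => ?_)
    rw [norm_mul, norm_div, norm_pow, norm_mul, Complex.norm_I, mul_one, Complex.norm_real,
      Complex.norm_real, Complex.norm_natCast, Real.norm_eq_abs, Real.norm_eq_abs]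
    refine mul_le_mul_of_nonneg_left (hmom j (Finset.mem_range.1 hj).le) (by positivity)
  set J : ℝ := ∫ x, (θ * Z x) ^ (2 * k) / ((2 * k).factorial : ℝ) ∂P with hJ
  have hJe : J = |θ| ^ (2 * k) / ((2 * k).factorial : ℝ) * ∫ x, Z x ^ (2 * k) ∂P := by
    rw [hJ, ← integral_const_mul]
    refine integral_congr_ae (Filter.Eventually.of_forall fun x => ?_)
    show (θ * Z x) ^ (2 * k) / _ = _
    rw [mul_pow, Even.pow_abs ⟨k, two_mul k⟩]
    ring
  have hb2 : ‖∑ i, (w i : ℂ) * hch_R (2 * k) (θ * y i)‖ ≤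
      |θ| ^ (2 * k) / ((2 * k).factorial : ℝ) * e + M * J := by
    have h3 : ‖∑ i, (w i : ℂ) * hch_R (2 * k) (θ * y i)‖ ≤
        |θ| ^ (2 * k) / ((2 * k).factorial : ℝ) * ∑ i, w i * y i ^ (2 * k) := by
      rw [Finset.mul_sum]
      refine (norm_sum_le _ _).trans (Finset.sum_le_sum fun i _ => ?_)
      rw [norm_mul, Complex.norm_real, Real.norm_eq_abs, abs_of_nonneg (hw i)]
      have h4 := hch_R_le k (θ * y i)
      calc w i * ‖hch_R (2 * k) (θ * y i)‖
          ≤ w i * ((θ * y i) ^ (2 * k) / ((2 * k).factorial : ℝ)) :=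
            mul_le_mul_of_nonneg_left h4 (hw i)
        _ = _ := by
            rw [mul_pow, Even.pow_abs ⟨k, two_mul k⟩]
            ring
    refine h3.trans ?_
    have h5 : ∑ i, w i * y i ^ (2 * k) ≤ M * (∫ x, Z x ^ (2 * k) ∂P) + e := by
      have := (abs_le.1 (hmom (2 * k) le_rfl)).2
      linarith
    calc |θ| ^ (2 * k) / ((2 * k).factorial : ℝ) * ∑ i, w i * y i ^ (2 * k)
        ≤ |θ| ^ (2 * k) / ((2 * k).factorial : ℝ) * (M * (∫ x, Z x ^ (2 * k) ∂P) + e) :=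
          mul_le_mul_of_nonneg_left h5 (by positivity)
      _ = |θ| ^ (2 * k) / ((2 * k).factorial : ℝ) * e + M * J := by
          rw [hJe]
          ring
  have hb3 : ‖(M : ℂ) * ∫ x, hch_R (2 * k) (θ * Z x) ∂P‖ ≤ M * J := by
    rw [norm_mul, Complex.norm_real, Real.norm_eq_abs, abs_of_nonneg hM]
    refine mul_le_mul_of_nonneg_left ?_ hM
    exact norm_integral_le_of_norm_le hpow (Filter.Eventually.of_forall fun x => hch_R_le k _)
  have hexp : (∑ j ∈ Finset.range (2 * k), |θ| ^ j / (j.factorial : ℝ)) +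
      |θ| ^ (2 * k) / ((2 * k).factorial : ℝ) ≤ Real.exp |θ| := by
    have := Real.sum_le_exp_of_nonneg (abs_nonneg θ) (2 * k + 1)
    rwa [Finset.sum_range_succ] at this
  rw [hdiff]
  have h6 := norm_add_le (∑ j ∈ Finset.range (2 * k), ((θ : ℂ) * Complex.I) ^ j / (j.factorial : ℂ) *
        ((∑ i, w i * y i ^ j - M * ∫ x, Z x ^ j ∂P : ℝ) : ℂ))
      (∑ i, (w i : ℂ) * hch_R (2 * k) (θ * y i) - M * ∫ x, hch_R (2 * k) (θ * Z x) ∂P)
  have h7 := norm_sub_le (∑ i, (w i : ℂ) * hch_R (2 * k) (θ * y i))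
      (M * ∫ x, hch_R (2 * k) (θ * Z x) ∂P)
  have h8 := mul_le_mul_of_nonneg_right hexp he
  rw [add_mul] at h8
  linarith

theorem hch_om_nonneg {N : ℕ} [Fact N.Prime] {f : S2 N} (hf : IsNew f) : 0 ≤ om f := by
  unfold om
  have : 0 < nr f := nr_pos (new_ne_zero hf)
  have := Real.pi_pos
  positivity

theorem harm_char_pr (A : Finset ℕ) (c : ℕ → ℝ) (hA : ∀ a ∈ A, 1 ≤ a) (hc : ∀ a, 0 ≤ c a)
    (θ : ℝ) {ε : ℝ} (hε : 0 < ε) : ∃ N₀ : ℕ, ∀ (N : ℕ) [Fact N.Prime], N₀ ≤ N →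
    ∀ {ι : Type} [Fintype ι] (f : ι → S2 N), AllNew f →
      ‖∑ i, ((om (f i) * Hd A c (la (f i)) : ℝ) : ℂ) *
          cexp ((θ * Pn N (la (f i)) : ℝ) * Complex.I) -
        (((∑ a ∈ A, c a) * Real.exp (-θ ^ 2 / 2) : ℝ) : ℂ)‖ ≤ ε := by
  set M : ℝ := ∑ a ∈ A, c a with hM
  have hM0 : 0 ≤ M := Finset.sum_nonneg fun a _ => hc a
  obtain ⟨C, N₁, hpe⟩ := pn_exp (2 * |θ|)
  obtain ⟨N₂, hpc⟩ := pn_char θ (ε := ε / (3 * (M + 1))) (by positivity)
  obtain ⟨C₁, N₃, hpe1⟩ := pn_exp 1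
  obtain ⟨k, hk⟩ := exists_pow_lt_of_lt_one (x := ε / (3 * (2 * M * |C| + 1))) (y := (1 / 4 : ℝ))
    (by positivity) (by norm_num)
  set e : ℝ := ε / (3 * Real.exp |θ|) with he
  have he0 : 0 < e := by positivity
  choose Nm hNm using fun j : ℕ => harm_mom A c hA j he0
  refine ⟨max N₁ (max N₂ (max N₃ ((Finset.range (2 * k + 1)).sup Nm))), ?_⟩
  intro N _ hN ι _ f hf
  have b1 : N₁ ≤ N := (le_max_left _ _).trans hN
  have hN' := (le_max_right _ _).trans hN
  have b2 : N₂ ≤ N := (le_max_left _ _).trans hN'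
  have hN'' := (le_max_right _ _).trans hN'
  have b3 : N₃ ≤ N := (le_max_left _ _).trans hN''
  have b4 : (Finset.range (2 * k + 1)).sup Nm ≤ N := (le_max_right _ _).trans hN''
  obtain ⟨P, hP⟩ := st_exists (IN N) (fun p hp => by
    unfold IN at hp
    exact (Finset.mem_filter.1 hp).2.1)
  have := hP.prob
  have hZ : Measurable (Pn N) := by
    unfold Pn PB
    fun_prop
  have hexp1 : Integrable (fun x => Real.exp |Pn N x|) P := by
    have := (hpe1 N b3 P hP).1
    simpa using this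
  have hint : ∀ j : ℕ, Integrable (fun x => Pn N x ^ j) P := by
    intro j
    refine (hexp1.const_mul (j.factorial : ℝ)).mono' (hZ.pow_const j).aestronglyMeasurable
      (Filter.Eventually.of_forall fun x => ?_)
    rw [Real.norm_eq_abs, abs_pow]
    have h1 := Real.pow_div_factorial_le_exp |Pn N x| (abs_nonneg _) j
    have h2 : (0 : ℝ) < j.factorial := by exact_mod_cast Nat.factorial_pos j
    rw [div_le_iff₀ h2] at h1
    linarith
  have hkey := hch_abs (ι := ι) (P := P) (Pn N) hZ hint (fun i => om (f i) * Hd A c (la (f i)))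
    (fun i => Pn N (la (f i))) (fun i => mul_nonneg (hch_om_nonneg ((hf.2 _).2 ⟨i, rfl⟩))
      (Finset.sum_nonneg fun a _ => mul_nonneg (hc a) (sq_nonneg _))) (e := e) θ hM0 k
    (fun j hj => by
      have h1 := hNm j N ((Finset.le_sup (Finset.mem_range.2 (by omega))).trans b4) f hf P hP
      refine le_trans (le_of_eq ?_) h1
      congr 2
      refine Finset.sum_congr rfl fun i _ => ?_
      ring)
  -- the tail
  have htail : ∫ x, (θ * Pn N x) ^ (2 * k) / ((2 * k).factorial : ℝ) ∂P ≤ (1 / 4) ^ k * |C| := by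
    obtain ⟨i1, i2⟩ := hpe N b1 P hP
    have h1 : ∀ x, (θ * Pn N x) ^ (2 * k) / ((2 * k).factorial : ℝ) ≤
        (1 / 4) ^ k * Real.exp (2 * |θ| * |Pn N x|) := by
      intro x
      have h2 := Real.pow_div_factorial_le_exp (2 * |θ| * |Pn N x|) (by positivity) (2 * k)
      have h3 : (θ * Pn N x) ^ (2 * k) / ((2 * k).factorial : ℝ) =
          (1 / 4) ^ k * ((2 * |θ| * |Pn N x|) ^ (2 * k) / ((2 * k).factorial : ℝ)) := by
        have h4 : (2 * |θ| * |Pn N x|) ^ (2 * k) = 4 ^ k * (θ * Pn N x) ^ (2 * k) := by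
          rw [mul_pow, mul_pow, mul_pow, Even.pow_abs ⟨k, two_mul k⟩, Even.pow_abs ⟨k, two_mul k⟩,
            pow_mul 2 2 k]
          norm_num
          ring
        rw [h4]
        have h5 : (1 / 4 : ℝ) ^ k * 4 ^ k = 1 := by
          rw [← mul_pow]
          norm_num
        calc (θ * Pn N x) ^ (2 * k) / ((2 * k).factorial : ℝ)
            = ((1 / 4 : ℝ) ^ k * 4 ^ k) * ((θ * Pn N x) ^ (2 * k) / ((2 * k).factorial : ℝ)) := by
              rw [h5, one_mul]
          _ = _ := by ring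
      rw [h3]
      exact mul_le_mul_of_nonneg_left h2 (by positivity)
    have h6 : Integrable (fun x => (θ * Pn N x) ^ (2 * k) / ((2 * k).factorial : ℝ)) P := by
      simp_rw [mul_pow]
      exact ((hint (2 * k)).const_mul _).div_const _
    calc ∫ x, (θ * Pn N x) ^ (2 * k) / ((2 * k).factorial : ℝ) ∂P
        ≤ ∫ x, (1 / 4) ^ k * Real.exp (2 * |θ| * |Pn N x|) ∂P :=
          integral_mono h6 (i1.const_mul _) h1
      _ = (1 / 4) ^ k * ∫ x, Real.exp (2 * |θ| * |Pn N x|) ∂P := integral_const_mul _ _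
      _ ≤ (1 / 4) ^ k * |C| := mul_le_mul_of_nonneg_left (i2.trans (le_abs_self C)) (by positivity)
  have htail2 : 2 * M * ∫ x, (θ * Pn N x) ^ (2 * k) / ((2 * k).factorial : ℝ) ∂P ≤ ε / 3 := by
    calc 2 * M * ∫ x, (θ * Pn N x) ^ (2 * k) / ((2 * k).factorial : ℝ) ∂P
        ≤ 2 * M * ((1 / 4) ^ k * |C|) := mul_le_mul_of_nonneg_left htail (by positivity)
      _ = (2 * M * |C|) * (1 / 4) ^ k := by ring
      _ ≤ (2 * M * |C| + 1) * (1 / 4) ^ k := by
          refine mul_le_mul_of_nonneg_right (by linarith) (by positivity)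
      _ ≤ (2 * M * |C| + 1) * (ε / (3 * (2 * M * |C| + 1))) :=
          mul_le_mul_of_nonneg_left hk.le (by positivity)
      _ = ε / 3 := by
          field_simp
  have he3 : Real.exp |θ| * e = ε / 3 := by
    rw [he]
    field_simp
  have hch := hpc N b2 P hP
  have hlast : ‖(M : ℂ) * ∫ x, cexp ((θ * Pn N x : ℝ) * Complex.I) ∂P -
      ((M * Real.exp (-θ ^ 2 / 2) : ℝ) : ℂ)‖ ≤ ε / 3 := by
    have h1 : (M : ℂ) * ∫ x, cexp ((θ * Pn N x : ℝ) * Complex.I) ∂P -
        ((M * Real.exp (-θ ^ 2 / 2) : ℝ) : ℂ) =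
        (M : ℂ) * (∫ x, cexp ((θ * Pn N x : ℝ) * Complex.I) ∂P - (Real.exp (-θ ^ 2 / 2) : ℂ)) := by
      push_cast
      ring
    rw [h1, norm_mul, Complex.norm_real, Real.norm_eq_abs, abs_of_nonneg hM0]
    calc M * ‖∫ x, cexp ((θ * Pn N x : ℝ) * Complex.I) ∂P - (Real.exp (-θ ^ 2 / 2) : ℂ)‖
        ≤ M * (ε / (3 * (M + 1))) := mul_le_mul_of_nonneg_left hch hM0
      _ ≤ (M + 1) * (ε / (3 * (M + 1))) := mul_le_mul_of_nonneg_right (by linarith) (by positivity)
      _ = ε / 3 := by field_simp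
  have hfin := norm_sub_le_norm_sub_add_norm_sub
    (∑ i, ((om (f i) * Hd A c (la (f i)) : ℝ) : ℂ) * cexp ((θ * Pn N (la (f i)) : ℝ) * Complex.I))
    ((M : ℂ) * ∫ x, cexp ((θ * Pn N x : ℝ) * Complex.I) ∂P) ((M * Real.exp (-θ ^ 2 / 2) : ℝ) : ℂ)
  refine hfin.trans ?_
  linarith

theorem harm_char : type_of% @harm_char_pr := @harm_char_pr

end Pool.Agent.KSL
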