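import Pool.Agent.Lib_helper68.KSL.Defs

/-! KSL, block WKC: convergence in law with moments. -/

namespace Pool.Agent.KSL

open Complex MeasureTheory Filter Topology ProbabilityTheory
open scoped ENNReal NNReal

theorem wkc_mass {μ : ℕ → Measure ℝ} [∀ n, IsFiniteMeasure (μ n)] {h : ℝ}
    (hc : ∀ θ : ℝ, Tendsto (fun n => charFun (μ n) θ) atTop
      (𝓝 ((h * Real.exp (-θ ^ 2 / 2) : ℝ) : ℂ))) :
    Tendsto (fun n => (μ n).real Set.univ) atTop (𝓝 h) := by
  have h0 := hc 0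
  have h1 := (Complex.continuous_re.tendsto _).comp h0
  refine Tendsto.congr ?_ (h1.trans (le_of_eq ?_))
  · intro n
    simp [charFun_zero]
  · simp

theorem wkc_bdd {μ : ℕ → Measure ℝ} [∀ n, IsFiniteMeasure (μ n)] {h : ℝ} (hh : 0 ≤ h)
    (hc : ∀ θ : ℝ, Tendsto (fun n => charFun (μ n) θ) atTop
      (𝓝 ((h * Real.exp (-θ ^ 2 / 2) : ℝ) : ℂ))) (F : BoundedContinuousFunction ℝ ℝ) :
    Tendsto (fun n => ∫ x, F x ∂(μ n)) atTop (𝓝 (h * ∫ x, F x ∂(gaussianReal 0 1))) := by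
  have hmass := wkc_mass hc
  rcases hh.eq_or_lt with h0 | h0
  · rw [← h0, zero_mul]
    rw [← h0] at hmass
    have h2 : Tendsto (fun n => ‖F‖ * (μ n).real Set.univ) atTop (𝓝 0) := by
      simpa using hmass.const_mul ‖F‖
    refine squeeze_zero_norm (fun n => ?_) h2
    exact norm_integral_le_of_norm_le_const (ae_of_all _ fun x => F.norm_coe_le_norm x)
  · let m : ℕ → FiniteMeasure ℝ := fun n => ⟨μ n, inferInstance⟩
    let ν : ℕ → ProbabilityMeasure ℝ := fun n => (m n).normalize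
    let γ : ProbabilityMeasure ℝ := ⟨gaussianReal 0 1, inferInstance⟩
    have hpos : ∀ᶠ n in atTop, 0 < (μ n).real Set.univ := hmass.eventually (lt_mem_nhds h0)
    have hmm : ∀ n, ((m n).mass : ℝ) = (μ n).real Set.univ := fun n => rfl
    have hne : ∀ n, 0 < (μ n).real Set.univ → m n ≠ 0 := by
      intro n hn he
      have := hmm n
      rw [he] at this
      simp at this
      rw [← this] at hn
      exact lt_irrefl _ hn
    have hint : ∀ n, 0 < (μ n).real Set.univ → ∀ (E : Type) [NormedAddCommGroup E]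
        [NormedSpace ℝ E] (G : ℝ → E),
        ∫ x, G x ∂(μ n) = ((μ n).real Set.univ) • ∫ x, G x ∂(ν n : Measure ℝ) := by
      intro n hn E _ _ G
      have e1 : (ν n : Measure ℝ) = (m n).mass⁻¹ • (μ n) :=
        (m n).toMeasure_normalize_eq_of_nonzero (hne n hn)
      rw [e1, integral_smul_nnreal_measure, ← hmm n, NNReal.smul_def, smul_smul]
      rw [NNReal.coe_inv, mul_inv_cancel₀, one_smul]
      rw [hmm n]
      exact hn.ne'
    have hν : Tendsto ν atTop (𝓝 γ) := by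
      apply ProbabilityMeasure.tendsto_of_tendsto_charFun
      intro t
      have e : charFun (γ : Measure ℝ) t = (Real.exp (-t ^ 2 / 2) : ℂ) := by
        change charFun (gaussianReal 0 1) t = _
        rw [charFun_gaussianReal]
        push_cast
        congr 1
        ring
      rw [e]
      have h3 : Tendsto (fun n => (((μ n).real Set.univ : ℝ) : ℂ)⁻¹ * charFun (μ n) t) atTop
          (𝓝 ((h : ℂ)⁻¹ * ((h * Real.exp (-t ^ 2 / 2) : ℝ) : ℂ))) := by
        refine Tendsto.mul ?_ (hc t)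
        refine Tendsto.inv₀ ?_ (by exact_mod_cast h0.ne')
        exact (Complex.continuous_ofReal.tendsto _).comp hmass
      have h4 : (h : ℂ)⁻¹ * ((h * Real.exp (-t ^ 2 / 2) : ℝ) : ℂ) = (Real.exp (-t ^ 2 / 2) : ℂ) := by
        push_cast
        rw [← mul_assoc, inv_mul_cancel₀ (by exact_mod_cast h0.ne'), one_mul]
      rw [h4] at h3
      refine h3.congr' ?_
      filter_upwards [hpos] with n hn
      rw [charFun_apply_real, charFun_apply_real, hint n hn, Complex.real_smul, ← mul_assoc,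
        inv_mul_cancel₀ (by exact_mod_cast hn.ne'), one_mul]
    have h5 := (ProbabilityMeasure.tendsto_iff_forall_integral_tendsto.1 hν) F
    have h6 := hmass.mul h5
    refine h6.congr' ?_
    filter_upwards [hpos] with n hn
    rw [hint n hn, smul_eq_mul]

theorem wkc_gauss_int (k : ℕ) : Integrable (fun x : ℝ => x ^ k) (gaussianReal 0 1) := by
  rcases Nat.eq_zero_or_pos k with h | h
  · subst h
    simp
  · have h1 := (memLp_id_gaussianReal (μ := 0) (v := 1) (k : ℝ≥0))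
    have h2 := h1.integrable_norm_pow (by omega)
    refine (integrable_norm_iff (by fun_prop)).1 ?_
    simpa using h2

theorem wkc_abs_pow {x : ℝ} (a b : ℕ) : x ^ (2 * a) ≤ 1 + x ^ (2 * (a + b)) := by
  have h0 : 0 ≤ x ^ (2 * (a + b)) := by rw [pow_mul]; positivity
  have e : x ^ (2 * a) = (x ^ 2) ^ a := by rw [pow_mul]
  have e2 : x ^ (2 * (a + b)) = (x ^ 2) ^ (a + b) := by rw [pow_mul]
  rcases le_total (x ^ 2) 1 with h | h
  · have := pow_le_one₀ (n := a) (sq_nonneg x) h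
    rw [← e] at this
    linarith
  · have := pow_le_pow_right₀ h (Nat.le_add_right a b)
    rw [e, e2]
    linarith

theorem wkc_poly_bd (p : Polynomial ℝ) : ∃ (C : ℝ) (k : ℕ), 0 ≤ C ∧
    ∀ x, |p.eval x| ≤ C * (1 + x ^ (2 * k)) := by
  induction p using Polynomial.induction_on' with
  | add p q hp hq =>
    obtain ⟨C, k, hC, h1⟩ := hp
    obtain ⟨D, l, hD, h2⟩ := hq
    refine ⟨2 * (C + D), k + l, by positivity, fun x => ?_⟩
    rw [Polynomial.eval_add]
    have h3 := wkc_abs_pow (x := x) k l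
    have h4 := wkc_abs_pow (x := x) l k
    rw [add_comm l k] at h4
    have h0 : 0 ≤ x ^ (2 * (k + l)) := by rw [pow_mul]; positivity
    calc |p.eval x + q.eval x| ≤ |p.eval x| + |q.eval x| := abs_add_le _ _
      _ ≤ C * (1 + x ^ (2 * k)) + D * (1 + x ^ (2 * l)) := add_le_add (h1 x) (h2 x)
      _ ≤ C * (1 + (1 + x ^ (2 * (k + l)))) + D * (1 + (1 + x ^ (2 * (k + l)))) := by gcongr
      _ ≤ 2 * (C + D) * (1 + x ^ (2 * (k + l))) := by nlinarith
  | monomial n a =>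
    refine ⟨|a|, n, abs_nonneg _, fun x => ?_⟩
    rw [Polynomial.eval_monomial, abs_mul]
    gcongr
    rw [abs_pow]
    have h0 : x ^ (2 * n) = (|x| ^ n) ^ 2 := by
      rw [← pow_mul, mul_comm n 2, pow_mul, pow_mul, sq_abs]
    rw [h0]
    nlinarith [sq_nonneg (|x| ^ n - 1), sq_nonneg (|x| ^ n)]

/-- a cut off function -/
noncomputable def wkc_chi (R x : ℝ) : ℝ := max 0 (min 1 (R + 1 - |x|))

theorem wkc_chi_cont (R : ℝ) : Continuous (wkc_chi R) := by
  unfold wkc_chi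
  fun_prop

theorem wkc_chi_mem (R x : ℝ) : 0 ≤ wkc_chi R x ∧ wkc_chi R x ≤ 1 := by
  unfold wkc_chi
  exact ⟨le_max_left _ _, max_le zero_le_one (min_le_left _ _)⟩

theorem wkc_chi_one {R x : ℝ} (h : |x| ≤ R) : wkc_chi R x = 1 := by
  unfold wkc_chi
  rw [min_eq_left (by linarith), max_eq_right zero_le_one]

theorem wkc_chi_zero {R x : ℝ} (h : R + 1 ≤ |x|) : wkc_chi R x = 0 := by
  unfold wkc_chi
  rw [max_eq_left]
  exact (min_le_right _ _).trans (by linarith)

theorem wkc_tail {F : ℝ → ℝ} {C : ℝ} {k : ℕ} (hC : 0 ≤ C)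
    (hb : ∀ x, |F x| ≤ C * (1 + x ^ (2 * k))) {R : ℝ} (hR : 1 ≤ R) (x : ℝ) :
    |F x * (1 - wkc_chi R x)| ≤ C / R ^ 2 * (x ^ (2 * 1) + x ^ (2 * (k + 1))) := by
  have h0 := wkc_chi_mem R x
  have hx : 0 ≤ x ^ (2 * k) := by rw [pow_mul]; positivity
  rcases le_or_gt |x| R with h | h
  · rw [wkc_chi_one h]
    simp only [sub_self, mul_zero, abs_zero]
    have : 0 ≤ x ^ (2 * (k + 1)) := by rw [pow_mul]; positivity
    have h1 : 0 ≤ x ^ (2 * 1) := by rw [pow_mul]; positivity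
    positivity
  · rw [abs_mul]
    have h1 : |1 - wkc_chi R x| ≤ 1 := by
      rw [abs_le]
      constructor <;> linarith
    have h2 : 1 ≤ x ^ 2 / R ^ 2 := by
      rw [one_le_div (by positivity)]
      rw [← sq_abs x]
      exact pow_le_pow_left₀ (by linarith) h.le 2
    calc |F x| * |1 - wkc_chi R x| ≤ (C * (1 + x ^ (2 * k))) * 1 :=
          mul_le_mul (hb x) h1 (abs_nonneg _) (by positivity)
      _ ≤ (C * (1 + x ^ (2 * k))) * (x ^ 2 / R ^ 2) := by gcongr
      _ = C / R ^ 2 * (x ^ (2 * 1) + x ^ (2 * (k + 1))) := by ring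

theorem wkc_cont {μ : ℕ → Measure ℝ} [∀ n, IsFiniteMeasure (μ n)] {h : ℝ} (hh : 0 ≤ h)
    (hc : ∀ θ : ℝ, Tendsto (fun n => charFun (μ n) θ) atTop
      (𝓝 ((h * Real.exp (-θ ^ 2 / 2) : ℝ) : ℂ)))
    (hm : ∀ k : ℕ, ∃ C : ℝ, ∀ n, Integrable (fun x => x ^ (2 * k)) (μ n) ∧
      ∫ x, x ^ (2 * k) ∂(μ n) ≤ C) {F : ℝ → ℝ} (hF : Continuous F) {C : ℝ} {k : ℕ}
    (hC : 0 ≤ C) (hb : ∀ x, |F x| ≤ C * (1 + x ^ (2 * k))) :
    (∀ n, Integrable F (μ n)) ∧ Integrable F (gaussianReal 0 1) ∧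
    Tendsto (fun n => ∫ x, F x ∂(μ n)) atTop (𝓝 (h * ∫ x, F x ∂(gaussianReal 0 1))) := by
  have hint : ∀ (ν : Measure ℝ) [IsFiniteMeasure ν], Integrable (fun x => x ^ (2 * k)) ν →
      Integrable F ν := by
    intro ν _ hν
    refine Integrable.mono' (((integrable_const 1).add hν).const_mul C)
      hF.aestronglyMeasurable (ae_of_all _ fun x => ?_)
    rw [Real.norm_eq_abs]
    exact hb x
  obtain ⟨C0, h0⟩ := hm k
  obtain ⟨C1, h1⟩ := hm 1
  obtain ⟨C2, h2⟩ := hm (k + 1)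
  set G1 := ∫ x, x ^ (2 * 1) ∂(gaussianReal 0 1) with hG1
  set G2 := ∫ x, x ^ (2 * (k + 1)) ∂(gaussianReal 0 1) with hG2
  refine ⟨fun n => hint _ (h0 n).1, hint _ (wkc_gauss_int _), ?_⟩
  rw [Metric.tendsto_atTop]
  intro ε hε
  set K := |C1| + |C2| + h * (|G1| + |G2|) with hK
  have hK0 : 0 ≤ K := by positivity
  obtain ⟨R, hR1, hR2⟩ : ∃ R : ℝ, 1 ≤ R ∧ C / R ^ 2 * K < ε / 2 := by
    refine ⟨1 + 2 * C * K / ε, by
      have : 0 ≤ 2 * C * K / ε := by positivity
      linarith, ?_⟩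
    have hu : 0 ≤ 2 * C * K / ε := by positivity
    set u := 2 * C * K / ε with hu'
    have e1 : C * K = u * ε / 2 := by
      rw [hu']
      field_simp
    have e2 : C / (1 + u) ^ 2 * K = u / (1 + u) ^ 2 * (ε / 2) := by
      rw [div_mul_eq_mul_div, e1]
      ring
    rw [e2]
    have e3 : u / (1 + u) ^ 2 < 1 := by
      rw [div_lt_one (by positivity)]
      nlinarith
    nlinarith
  -- the truncated function
  have hFc : Continuous (fun x => F x * wkc_chi R x) := hF.mul (wkc_chi_cont R)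
  let B : BoundedContinuousFunction ℝ ℝ := BoundedContinuousFunction.ofNormedAddCommGroup
    (fun x => F x * wkc_chi R x) hFc (C * (1 + (R + 1) ^ (2 * k))) (by
      intro x
      rw [Real.norm_eq_abs, abs_mul, abs_of_nonneg (wkc_chi_mem R x).1]
      rcases le_or_gt (R + 1) |x| with hx | hx
      · rw [wkc_chi_zero hx, mul_zero]
        positivity
      · calc |F x| * wkc_chi R x ≤ (C * (1 + x ^ (2 * k))) * 1 :=
              mul_le_mul (hb x) (wkc_chi_mem R x).2 (wkc_chi_mem R x).1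
                (by
                  have : 0 ≤ x ^ (2 * k) := by rw [pow_mul]; positivity
                  positivity)
          _ ≤ C * (1 + (R + 1) ^ (2 * k)) := by
              rw [mul_one]
              gcongr C * (1 + ?_)
              rw [pow_mul, ← sq_abs, ← pow_mul]
              exact pow_le_pow_left₀ (abs_nonneg _) hx.le _)
  have hB := wkc_bdd hh hc B
  have htail : ∀ (ν : Measure ℝ) [IsFiniteMeasure ν], Integrable F ν →
      Integrable (fun x => x ^ (2 * 1)) ν →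
      Integrable (fun x => x ^ (2 * (k + 1))) ν →
      |∫ x, F x ∂ν - ∫ x, B x ∂ν| ≤
        C / R ^ 2 * (∫ x, x ^ (2 * 1) ∂ν + ∫ x, x ^ (2 * (k + 1)) ∂ν) := by
    intro ν _ hF1 hν1 hν2
    rw [← integral_sub hF1 (B.integrable ν), ← integral_add hν1 hν2, ← integral_const_mul]
    refine (abs_integral_le_integral_abs).trans (integral_mono_of_nonneg
      (ae_of_all _ fun x => abs_nonneg _) ((hν1.add hν2).const_mul _) (ae_of_all _ fun x => ?_))
    have := wkc_tail hC hb hR1 x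
    have e : F x - B x = F x * (1 - wkc_chi R x) := by
      show F x - F x * wkc_chi R x = _
      ring
    show |F x - B x| ≤ _
    rw [e]
    exact this
  rw [Metric.tendsto_atTop] at hB
  obtain ⟨N0, hN0⟩ := hB (ε / 2) (by positivity)
  refine ⟨N0, fun n hn => ?_⟩
  have a1 := hN0 n hn
  have a2 := htail (μ n) (hint _ (h0 n).1) (h1 n).1 (h2 n).1
  have a3 := htail (gaussianReal 0 1) (hint _ (wkc_gauss_int _)) (wkc_gauss_int _)
    (wkc_gauss_int _)
  rw [Real.dist_eq] at a1 ⊢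
  have a4 : ∫ x, x ^ (2 * 1) ∂(μ n) + ∫ x, x ^ (2 * (k + 1)) ∂(μ n) ≤ |C1| + |C2| :=
    add_le_add ((h1 n).2.trans (le_abs_self _)) ((h2 n).2.trans (le_abs_self _))
  have a5 : G1 + G2 ≤ |G1| + |G2| := add_le_add (le_abs_self _) (le_abs_self _)
  have hCR : 0 ≤ C / R ^ 2 := by positivity
  have a6 : |∫ x, F x ∂(μ n) - ∫ x, B x ∂(μ n)| ≤ C / R ^ 2 * (|C1| + |C2|) :=
    a2.trans (mul_le_mul_of_nonneg_left a4 hCR)
  have a7 : |h * (∫ x, F x ∂(gaussianReal 0 1) - ∫ x, B x ∂(gaussianReal 0 1))| ≤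
      C / R ^ 2 * (h * (|G1| + |G2|)) := by
    rw [abs_mul, abs_of_nonneg hh]
    calc h * |∫ x, F x ∂(gaussianReal 0 1) - ∫ x, B x ∂(gaussianReal 0 1)|
        ≤ h * (C / R ^ 2 * (|G1| + |G2|)) :=
          mul_le_mul_of_nonneg_left (a3.trans (mul_le_mul_of_nonneg_left a5 hCR)) hh
      _ = C / R ^ 2 * (h * (|G1| + |G2|)) := by ring
  have e : ∫ x, F x ∂(μ n) - h * ∫ x, F x ∂(gaussianReal 0 1) =
      (∫ x, F x ∂(μ n) - ∫ x, B x ∂(μ n)) +
      (∫ x, B x ∂(μ n) - h * ∫ x, B x ∂(gaussianReal 0 1)) -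
      h * (∫ x, F x ∂(gaussianReal 0 1) - ∫ x, B x ∂(gaussianReal 0 1)) := by ring
  rw [e]
  have a8 : C / R ^ 2 * (|C1| + |C2|) + C / R ^ 2 * (h * (|G1| + |G2|)) = C / R ^ 2 * K := by
    rw [hK]; ring
  calc _ ≤ |∫ x, F x ∂(μ n) - ∫ x, B x ∂(μ n)| +
      |∫ x, B x ∂(μ n) - h * ∫ x, B x ∂(gaussianReal 0 1)| +
      |h * (∫ x, F x ∂(gaussianReal 0 1) - ∫ x, B x ∂(gaussianReal 0 1))| := by
        refine (abs_sub _ _).trans (add_le_add_left (abs_add_le _ _) _)
    _ < ε := by linarith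

/-- a continuous approximation of the indicator function -/
noncomputable def wkc_g (V η x : ℝ) : ℝ := max 0 (min 1 ((x - V) / η + 1))

/-- a bump function at `V` -/
noncomputable def wkc_b (V η x : ℝ) : ℝ := max 0 (min 1 (2 - |x - V| / η))

theorem wkc_g_cont (V η : ℝ) : Continuous (wkc_g V η) := by
  unfold wkc_g
  fun_prop

theorem wkc_b_cont (V η : ℝ) : Continuous (wkc_b V η) := by
  unfold wkc_b
  fun_prop

theorem wkc_g_mem (V η x : ℝ) : 0 ≤ wkc_g V η x ∧ wkc_g V η x ≤ 1 := by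
  unfold wkc_g
  exact ⟨le_max_left _ _, max_le zero_le_one (min_le_left _ _)⟩

theorem wkc_b_mem (V η x : ℝ) : 0 ≤ wkc_b V η x ∧ wkc_b V η x ≤ 1 := by
  unfold wkc_b
  exact ⟨le_max_left _ _, max_le zero_le_one (min_le_left _ _)⟩

theorem wkc_iV_mem (V x : ℝ) : 0 ≤ iV V x ∧ iV V x ≤ 1 := by
  unfold iV
  split_ifs <;> constructor <;> norm_num

theorem wkc_iV_meas (V : ℝ) : Measurable (iV V) := by
  unfold iV
  exact Measurable.ite measurableSet_Ici measurable_const measurable_const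

theorem wkc_iV_g {V η : ℝ} (hη : 0 < η) (x : ℝ) : |iV V x - wkc_g V η x| ≤ wkc_b V η x := by
  unfold iV wkc_g
  split_ifs with h
  · have h1 : 0 ≤ (x - V) / η := div_nonneg (by linarith) hη.le
    rw [min_eq_left (by linarith), max_eq_right zero_le_one, sub_self, abs_zero]
    exact (wkc_b_mem V η x).1
  · push Not at h
    rcases le_or_gt (x - V) (-η) with h1 | h1
    · have h2 : (x - V) / η ≤ -1 := by
        rw [div_le_iff₀ hη]
        linarith
      rw [max_eq_left ((min_le_right _ _).trans (by linarith)), sub_self, abs_zero]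
      exact (wkc_b_mem V η x).1
    · have h3 : wkc_b V η x = 1 := by
        unfold wkc_b
        have : |x - V| / η ≤ 1 := by
          rw [div_le_one hη, abs_le]
          constructor <;> linarith
        rw [min_eq_left (by linarith), max_eq_right zero_le_one]
      rw [h3]
      have h4 := wkc_g_mem V η x
      unfold wkc_g at h4
      rw [abs_le]
      constructor <;> linarith [h4.1, h4.2]

theorem wkc_b_tend (V : ℝ) : Tendsto (fun j : ℕ => ∫ x, wkc_b V (1 / ((j : ℝ) + 1)) x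
    ∂(gaussianReal 0 1)) atTop (𝓝 0) := by
  suffices h1 : Tendsto (fun j : ℕ => ∫ x, wkc_b V (1 / ((j : ℝ) + 1)) x
    ∂(gaussianReal 0 1)) atTop (𝓝 (∫ x : ℝ, (0 : ℝ) ∂(gaussianReal 0 1))) by
    rwa [integral_zero] at h1
  refine tendsto_integral_of_dominated_convergence (fun _ => (1 : ℝ))
    (fun j => (wkc_b_cont V _).aestronglyMeasurable) (integrable_const (1 : ℝ))
    (fun j => ae_of_all _ fun x => ?_) ?_
  · rw [Real.norm_eq_abs, abs_of_nonneg (wkc_b_mem V _ x).1]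
    exact (wkc_b_mem V _ x).2
  · have hna : NullSingletonClass (gaussianReal 0 1) :=
      nullSingletonClass_gaussianReal one_ne_zero
    have h2 : ∀ᵐ x ∂(gaussianReal 0 1), x ≠ V := by
      rw [ae_iff]
      simp
    filter_upwards [h2] with x hx
    have hp : 0 < |x - V| := abs_pos.2 (sub_ne_zero.2 hx)
    have h3 : ∀ᶠ j : ℕ in atTop, 2 / |x - V| ≤ j := by
      filter_upwards [eventually_ge_atTop ⌈2 / |x - V|⌉₊] with j hj
      exact (Nat.le_ceil _).trans (by exact_mod_cast hj)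
    refine tendsto_const_nhds.congr' ?_
    filter_upwards [h3] with j hj
    unfold wkc_b
    rw [div_le_iff₀ hp] at hj
    rw [max_eq_left]
    refine (min_le_right _ _).trans ?_
    rw [div_div_eq_mul_div, div_one]
    nlinarith

/-- convergence in law with moments -/
theorem weak_poly_pr {μ : ℕ → Measure ℝ} [∀ n, IsFiniteMeasure (μ n)] {h : ℝ} (hh : 0 ≤ h)
    (hc : ∀ θ : ℝ, Tendsto (fun n => charFun (μ n) θ) atTop
      (𝓝 ((h * Real.exp (-θ ^ 2 / 2) : ℝ) : ℂ)))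
    (hm : ∀ k : ℕ, ∃ C : ℝ, ∀ n, Integrable (fun x => x ^ (2 * k)) (μ n) ∧
      ∫ x, x ^ (2 * k) ∂(μ n) ≤ C) (p : Polynomial ℝ) (V : ℝ) :
    Tendsto (fun n => ∫ x, |p.eval x ^ 2 - iV V x| ∂(μ n)) atTop
        (𝓝 (h * ∫ x, |p.eval x ^ 2 - iV V x| ∂(gaussianReal 0 1))) ∧
      Tendsto (fun n => ∫ x, p.eval x ∂(μ n)) atTop
        (𝓝 (h * ∫ x, p.eval x ∂(gaussianReal 0 1))) := by
  constructor
  swap
  · obtain ⟨C, k, hC, hb⟩ := wkc_poly_bd p
    exact (wkc_cont hh hc hm p.continuous hC hb).2.2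
  obtain ⟨C, k, hC, hb⟩ := wkc_poly_bd (p ^ 2)
  have hb2 : ∀ x, |p.eval x ^ 2| ≤ C * (1 + x ^ (2 * k)) := by
    intro x
    have := hb x
    rwa [Polynomial.eval_pow] at this
  have hk : ∀ x : ℝ, 0 ≤ x ^ (2 * k) := fun x => by rw [pow_mul]; positivity
  have hb3 : ∀ g : ℝ → ℝ, (∀ x, 0 ≤ g x ∧ g x ≤ 1) → ∀ x,
      |(|p.eval x ^ 2 - g x|)| ≤ (C + 1) * (1 + x ^ (2 * k)) := by
    intro g hg x
    rw [abs_abs]
    have h1 := hb2 x
    have h2 : |g x| ≤ 1 := by
      rw [abs_of_nonneg (hg x).1]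
      exact (hg x).2
    calc |p.eval x ^ 2 - g x| ≤ |p.eval x ^ 2| + |g x| := abs_sub _ _
      _ ≤ (C + 1) * (1 + x ^ (2 * k)) := by nlinarith [hk x]
  have hpint : ∀ (ν : Measure ℝ) [IsFiniteMeasure ν], Integrable (fun x => x ^ (2 * k)) ν →
      Integrable (fun x => |p.eval x ^ 2 - iV V x|) ν := by
    intro ν _ hν
    refine Integrable.mono' (((integrable_const (μ := ν) (1 : ℝ)).add hν).const_mul (C + 1)) ?_
      (ae_of_all _ fun x => ?_)
    · refine Measurable.aestronglyMeasurable ?_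
      have h1 := wkc_iV_meas V
      have h2 : Measurable (fun x => p.eval x) := p.continuous.measurable
      exact ((h2.pow_const 2).sub h1).abs
    · rw [Real.norm_eq_abs]
      exact hb3 _ (wkc_iV_mem V) x
  rw [Metric.tendsto_atTop]
  intro ε hε
  -- the width of the bump
  obtain ⟨j, hj⟩ : ∃ j : ℕ, (h + 1) * ∫ x, wkc_b V (1 / ((j : ℝ) + 1)) x
      ∂(gaussianReal 0 1) < ε / 4 := by
    have h1 := (wkc_b_tend V).const_mul (h + 1)
    rw [mul_zero] at h1
    have h2 := h1.eventually (gt_mem_nhds (show (0 : ℝ) < ε / 4 by positivity))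
    exact h2.exists
  set η : ℝ := 1 / ((j : ℝ) + 1) with hη
  have hη0 : 0 < η := by positivity
  set J := ∫ x, wkc_b V η x ∂(gaussianReal 0 1) with hJ
  have hJ0 : 0 ≤ J := integral_nonneg fun x => (wkc_b_mem V η x).1
  have hbc := wkc_cont hh hc hm (wkc_b_cont V η) (C := 1) (k := 0) zero_le_one (by
    intro x
    rw [abs_of_nonneg (wkc_b_mem V η x).1]
    have := (wkc_b_mem V η x).2
    simp
    linarith)
  have hgc := wkc_cont hh hc hm (F := fun x => |p.eval x ^ 2 - wkc_g V η x|)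
    (((p.continuous.pow 2).sub (wkc_g_cont V η)).abs) (C := C + 1) (k := k) (by positivity)
    (hb3 _ (wkc_g_mem V η))
  obtain ⟨C0, h0⟩ := hm k
  have hdiff : ∀ (ν : Measure ℝ) [IsFiniteMeasure ν], Integrable (fun x => x ^ (2 * k)) ν →
      Integrable (fun x => |p.eval x ^ 2 - wkc_g V η x|) ν → Integrable (wkc_b V η) ν →
      |∫ x, |p.eval x ^ 2 - iV V x| ∂ν - ∫ x, |p.eval x ^ 2 - wkc_g V η x| ∂ν| ≤
        ∫ x, wkc_b V η x ∂ν := by
    intro ν _ h1 h2 h3
    rw [← integral_sub (hpint ν h1) h2]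
    refine abs_integral_le_integral_abs.trans (integral_mono_of_nonneg
      (ae_of_all _ fun x => abs_nonneg _) h3 (ae_of_all _ fun x => ?_))
    refine (abs_abs_sub_abs_le _ _).trans ?_
    have e : p.eval x ^ 2 - iV V x - (p.eval x ^ 2 - wkc_g V η x) = -(iV V x - wkc_g V η x) := by
      ring
    rw [e, abs_neg]
    exact wkc_iV_g hη0 x
  have t1 := hbc.2.2
  have t2 := hgc.2.2
  rw [Metric.tendsto_atTop] at t1 t2
  obtain ⟨N1, hN1⟩ := t1 (ε / 4) (by positivity)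
  obtain ⟨N2, hN2⟩ := t2 (ε / 4) (by positivity)
  refine ⟨max N1 N2, fun n hn => ?_⟩
  have a1 := hN1 n ((le_max_left _ _).trans hn)
  have a2 := hN2 n ((le_max_right _ _).trans hn)
  have a3 := hdiff (μ n) (h0 n).1 (hgc.1 n) (hbc.1 n)
  have a4 := hdiff (gaussianReal 0 1) (wkc_gauss_int _) hgc.2.1 hbc.2.1
  rw [Real.dist_eq] at a1 a2 ⊢
  have a5 : |h * (∫ x, |p.eval x ^ 2 - iV V x| ∂(gaussianReal 0 1) -
      ∫ x, |p.eval x ^ 2 - wkc_g V η x| ∂(gaussianReal 0 1))| ≤ h * J := by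
    rw [abs_mul, abs_of_nonneg hh]
    exact mul_le_mul_of_nonneg_left a4 hh
  have e : ∫ x, |p.eval x ^ 2 - iV V x| ∂(μ n) -
      h * ∫ x, |p.eval x ^ 2 - iV V x| ∂(gaussianReal 0 1) =
      (∫ x, |p.eval x ^ 2 - iV V x| ∂(μ n) - ∫ x, |p.eval x ^ 2 - wkc_g V η x| ∂(μ n)) +
      (∫ x, |p.eval x ^ 2 - wkc_g V η x| ∂(μ n) -
        h * ∫ x, |p.eval x ^ 2 - wkc_g V η x| ∂(gaussianReal 0 1)) -
      h * (∫ x, |p.eval x ^ 2 - iV V x| ∂(gaussianReal 0 1) -
        ∫ x, |p.eval x ^ 2 - wkc_g V η x| ∂(gaussianReal 0 1)) := by ring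
  rw [e]
  have a6 := (abs_le.1 a1.le).2
  have a7 : h * J ≤ (h + 1) * J := by nlinarith
  calc _ ≤ |∫ x, |p.eval x ^ 2 - iV V x| ∂(μ n) -
        ∫ x, |p.eval x ^ 2 - wkc_g V η x| ∂(μ n)| +
      |∫ x, |p.eval x ^ 2 - wkc_g V η x| ∂(μ n) -
        h * ∫ x, |p.eval x ^ 2 - wkc_g V η x| ∂(gaussianReal 0 1)| +
      |h * (∫ x, |p.eval x ^ 2 - iV V x| ∂(gaussianReal 0 1) -
        ∫ x, |p.eval x ^ 2 - wkc_g V η x| ∂(gaussianReal 0 1))| := by
        refine (abs_sub _ _).trans (add_le_add_left (abs_add_le _ _) _)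
    _ < ε := by linarith

theorem weak_poly : type_of% @weak_poly_pr := @weak_poly_pr

end Pool.Agent.KSL
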