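import Pool.Agent.Lib_helper68.KSL.Defs
import Pool.Agent.Lib_helper68.LEV.FRU
import Pool.Agent.Lib_helper41.LVBF.STE
import Pool.Agent.Lib_helper68.KSLF.HCH
import Pool.Agent.Lib_helper68.KSLF.HMM
import Pool.Agent.Lib_helper68.KSLF.PEX
import Pool.Agent.Lib_helper68.KSLF.WKC

/-! KSL, block HWK -/

namespace Pool.Agent.KSL

open Pool.Agent.LEV Pool.Agent.LVB
open Pool.Agent.FG61 (mu phi cc ff AA Lam)
open Complex MeasureTheory Filter Topology UpperHalfPlane ModularGroup ProbabilityTheory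
open scoped MatrixGroups Modular ENNReal ModularForm ComplexConjugate ContDiff

lemma HWK_meas (N : ℕ) : Measurable (Pn N) := by
  unfold Pn PB
  exact (Finset.measurable_fun_sum _ fun p _ => (measurable_pi_apply p).div_const _).div_const _

lemma HWK_mom (k : ℕ) : ∃ (C : ℝ) (N₀ : ℕ), ∀ N : ℕ, N₀ ≤ N → ∀ P : Measure (ℕ → ℝ),
    IsST (IN N) P → ∫ x, |Pn N x| ^ k ∂P ≤ C := by
  obtain ⟨C, N₀, h⟩ := pn_exp 1
  refine ⟨k.factorial * C, N₀, fun N hN P hP => ?_⟩
  obtain ⟨h1, h2⟩ := h N hN P hP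
  simp only [one_mul] at h1 h2
  have hle : ∀ x, |Pn N x| ^ k ≤ k.factorial * Real.exp |Pn N x| := by
    intro x
    have h3 := Real.pow_div_factorial_le_exp |Pn N x| (abs_nonneg _) k
    have hk : (0 : ℝ) < k.factorial := by exact_mod_cast k.factorial_pos
    rw [div_le_iff₀ hk] at h3
    linarith
  have hI : Integrable (fun x => |Pn N x| ^ k) P := by
    refine (h1.const_mul (k.factorial : ℝ)).mono'
      ((HWK_meas N).abs.pow_const k).aestronglyMeasurable (ae_of_all _ fun x => ?_)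
    rw [Real.norm_of_nonneg (by positivity)]; exact hle x
  calc ∫ x, |Pn N x| ^ k ∂P ≤ ∫ x, k.factorial * Real.exp |Pn N x| ∂P :=
        integral_mono hI (h1.const_mul _) hle
    _ = k.factorial * ∫ x, Real.exp |Pn N x| ∂P := integral_const_mul _ _
    _ ≤ _ := mul_le_mul_of_nonneg_left h2 (by positivity)

lemma HWK_int {ι : Type} [Fintype ι] (w : ι → ℝ) (hw : ∀ i, 0 ≤ w i) (y : ι → ℝ)
    {E : Type*} [NormedAddCommGroup E] [NormedSpace ℝ E] [CompleteSpace E] (F : ℝ → E) :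
    Integrable F (∑ i, ENNReal.ofReal (w i) • Measure.dirac (y i)) ∧
    ∫ x, F x ∂(∑ i, ENNReal.ofReal (w i) • Measure.dirac (y i)) = ∑ i, w i • F (y i) := by
  have h1 : ∀ i ∈ (Finset.univ : Finset ι), Integrable F (ENNReal.ofReal (w i) • Measure.dirac (y i)) := by
    intro i _
    refine Integrable.smul_measure ?_ ENNReal.ofReal_ne_top
    exact integrable_dirac enorm_lt_top
  refine ⟨(integrable_finsetSum_measure).2 h1, ?_⟩
  rw [integral_finsetSum_measure h1]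
  refine Finset.sum_congr rfl fun i _ => ?_
  rw [integral_smul_measure, integral_dirac, ENNReal.toReal_ofReal (hw i)]

theorem harm_weak_pr (A : Finset ℕ) (c : ℕ → ℝ) (hA : ∀ a ∈ A, 1 ≤ a) (hc : ∀ a, 0 ≤ c a)
    (p : Polynomial ℝ) (V : ℝ) {ε : ℝ} (hε : 0 < ε) : ∃ N₀ : ℕ, ∀ (N : ℕ) [Fact N.Prime],
    N₀ ≤ N → ∀ {ι : Type} [Fintype ι] (f : ι → S2 N), AllNew f →
      ∑ i, om (f i) * (Hd A c (la (f i)) *
        |p.eval (Pn N (la (f i))) ^ 2 - iV V (Pn N (la (f i)))|) ≤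
        (∑ a ∈ A, c a) * (∫ x, |p.eval x ^ 2 - iV V x| ∂(gaussianReal 0 1)) + ε := by
  by_contra hcon
  have hc2 : ∀ n : ℕ, ∃ (N : ℕ) (_ : Fact N.Prime), n ≤ N ∧ ∃ (ι : Type) (_ : Fintype ι)
      (f : ι → S2 N), AllNew f ∧
      (∑ a ∈ A, c a) * (∫ x, |p.eval x ^ 2 - iV V x| ∂(gaussianReal 0 1)) + ε <
      ∑ i, om (f i) * (Hd A c (la (f i)) *
        |p.eval (Pn N (la (f i))) ^ 2 - iV V (Pn N (la (f i)))|) := by
    intro n
    by_contra h1
    apply hcon
    refine ⟨n, fun N hN hn ι hι f hf => ?_⟩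
    by_contra h2
    exact h1 ⟨N, hN, hn, ι, hι, f, hf, not_le.1 h2⟩
  choose N hF hN ι hι f hf hlt using hc2
  have hNt : Tendsto N atTop atTop := tendsto_atTop_mono hN tendsto_id
  have hHd : ∀ x, 0 ≤ Hd A c x := by
    intro x
    unfold Hd
    exact Finset.sum_nonneg fun a _ => mul_nonneg (hc a) (sq_nonneg _)
  have hom : ∀ n i, 0 ≤ om (f n i) := by
    intro n i
    unfold om
    have := FRU_nr_nonneg (f n i)
    have := Real.pi_pos
    positivity
  set w : ∀ n, ι n → ℝ := fun n i => om (f n i) * Hd A c (la (f n i)) with hw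
  have hw0 : ∀ n i, 0 ≤ w n i := fun n i => mul_nonneg (hom n i) (hHd _)
  set y : ∀ n, ι n → ℝ := fun n i => Pn (N n) (la (f n i)) with hy
  set μ : ℕ → Measure ℝ := fun n => ∑ i, ENNReal.ofReal (w n i) • Measure.dirac (y n i) with hμ
  have hμf : ∀ n, IsFiniteMeasure (μ n) := by
    intro n
    have h1 := (HWK_int (w n) (hw0 n) (y n) (fun _ => (1 : ℝ))).1
    rw [integrable_const_iff] at h1
    rcases h1 with h1 | h1
    · exact absurd h1 one_ne_zero
    · exact h1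
  set h : ℝ := ∑ a ∈ A, c a with hh
  have hh0 : 0 ≤ h := Finset.sum_nonneg fun a _ => hc a
  have hchar : ∀ θ : ℝ, Tendsto (fun n => charFun (μ n) θ) atTop
      (𝓝 ((h * Real.exp (-θ ^ 2 / 2) : ℝ) : ℂ)) := by
    intro θ
    rw [Metric.tendsto_atTop]
    intro η hη
    obtain ⟨N₂, h2⟩ := harm_char A c hA hc θ (half_pos hη)
    obtain ⟨n₀, hn₀⟩ := (tendsto_atTop.1 hNt N₂).exists_forall_of_atTop
    refine ⟨n₀, fun n hn => ?_⟩
    have h3 := h2 (N n) (hn₀ n hn) (f n) (hf n)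
    rw [dist_eq_norm, charFun_apply_real]
    have h4 : ∫ x, cexp (θ * x * Complex.I) ∂(μ n)
        = ∑ i, ((om (f n i) * Hd A c (la (f n i)) : ℝ) : ℂ) *
          cexp ((θ * Pn (N n) (la (f n i)) : ℝ) * Complex.I) := by
      rw [(HWK_int (w n) (hw0 n) (y n) (fun x : ℝ => cexp (θ * x * Complex.I))).2]
      refine Finset.sum_congr rfl fun i _ => ?_
      rw [Complex.real_smul, hw, hy]
      simp only
      rw [Complex.ofReal_mul θ]
    rw [h4]
    exact lt_of_le_of_lt h3 (half_lt_self hη)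
  have hmom : ∀ k : ℕ, ∃ C : ℝ, ∀ n, Integrable (fun x => x ^ (2 * k)) (μ n) ∧
      ∫ x, x ^ (2 * k) ∂(μ n) ≤ C := by
    intro k
    obtain ⟨C, N₂, h2⟩ := HWK_mom (2 * k)
    obtain ⟨N₃, h3⟩ := harm_mom A c hA (2 * k) (zero_lt_one)
    obtain ⟨n₀, hn₀⟩ := (tendsto_atTop.1 hNt (max N₂ N₃)).exists_forall_of_atTop
    have h7 : ∀ n, ∫ x, x ^ (2 * k) ∂(μ n) = ∑ i, om (f n i) *
        (Hd A c (la (f n i)) * Pn (N n) (la (f n i)) ^ (2 * k)) := by
      intro n
      rw [(HWK_int (w n) (hw0 n) (y n) (fun x : ℝ => x ^ (2 * k))).2]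
      refine Finset.sum_congr rfl fun i _ => ?_
      rw [smul_eq_mul, mul_assoc]
    refine ⟨h * |C| + 1 + ∑ n ∈ Finset.range n₀, |∫ x, x ^ (2 * k) ∂(μ n)|, fun n => ⟨?_, ?_⟩⟩
    · exact (HWK_int (w n) (hw0 n) (y n) (fun x : ℝ => x ^ (2 * k))).1
    · by_cases hn : n < n₀
      · have h8 : |∫ x, x ^ (2 * k) ∂(μ n)|
            ≤ ∑ n ∈ Finset.range n₀, |∫ x, x ^ (2 * k) ∂(μ n)| :=
          Finset.single_le_sum (f := fun n => |∫ x, x ^ (2 * k) ∂(μ n)|)
            (fun _ _ => abs_nonneg _) (Finset.mem_range.2 hn)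
        have h9 := le_abs_self (∫ x, x ^ (2 * k) ∂(μ n))
        have h10 : 0 ≤ h * |C| := mul_nonneg hh0 (abs_nonneg C)
        linarith
      · have hnn := hn₀ n (not_lt.1 hn)
        have hIp : ∀ q ∈ IN (N n), q.Prime := by
          intro q hq
          unfold IN at hq
          exact (Finset.mem_filter.1 hq).2.1
        obtain ⟨P, hP⟩ := st_exists (IN (N n)) hIp
        have h8 := h2 (N n) (le_trans (le_max_left _ _) hnn) P hP
        have h9 := h3 (N n) (le_trans (le_max_right _ _) hnn) (f n) (hf n) P hP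
        rw [← h7] at h9
        have h10 : ∫ x, Pn (N n) x ^ (2 * k) ∂P = ∫ x, |Pn (N n) x| ^ (2 * k) ∂P := by
          refine integral_congr_ae (ae_of_all _ fun x => ?_)
          simp only
          rw [Even.pow_abs ⟨k, by ring⟩]
        rw [h10] at h9
        have h11 := (abs_le.1 h9).2
        have h12 : h * ∫ x, |Pn (N n) x| ^ (2 * k) ∂P ≤ h * |C| :=
          mul_le_mul_of_nonneg_left (h8.trans (le_abs_self C)) hh0
        have h13 : 0 ≤ ∑ n ∈ Finset.range n₀, |∫ x, x ^ (2 * k) ∂(μ n)| :=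
          Finset.sum_nonneg fun _ _ => abs_nonneg _
        linarith
  have hfin := (weak_poly (μ := μ) hh0 hchar hmom p V).1
  rw [Metric.tendsto_atTop] at hfin
  obtain ⟨n, hn⟩ := hfin ε hε
  have h5 := hn n le_rfl
  rw [Real.dist_eq, (HWK_int (w n) (hw0 n) (y n) (fun x : ℝ => |p.eval x ^ 2 - iV V x|)).2] at h5
  have h6 := (abs_lt.1 h5).2
  have h8 : ∑ i, w n i • |p.eval (y n i) ^ 2 - iV V (y n i)| = ∑ i, om (f n i) * (Hd A c (la (f n i)) *
        |p.eval (Pn (N n) (la (f n i))) ^ 2 - iV V (Pn (N n) (la (f n i)))|) := by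
    refine Finset.sum_congr rfl fun i _ => ?_
    rw [smul_eq_mul, mul_assoc]
  rw [h8] at h6
  linarith [hlt n]

theorem harm_weak : type_of% @harm_weak_pr := @harm_weak_pr

end Pool.Agent.KSL
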