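import Pool.Agent.Lib_helper68.KSL.Defs
import Pool.Agent.Lib_helper68.KSLF.WKC

/-! KSL, block POL: polynomials are dense in the L² space of the Gaussian measure. -/

namespace Pool.Agent.KSL

open Complex MeasureTheory Filter Topology ProbabilityTheory
open scoped ENNReal NNReal


theorem pol_exp_int (a : ℝ) : Integrable (fun x : ℝ => Real.exp (a * |x|)) (gaussianReal 0 1) := by
  have h1 := integrable_exp_mul_gaussianReal (μ := 0) (v := 1) a
  have h2 := integrable_exp_mul_gaussianReal (μ := 0) (v := 1) (-a)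
  refine Integrable.mono' (h1.add h2) (by fun_prop) (ae_of_all _ fun x => ?_)
  rw [Real.norm_eq_abs, abs_of_pos (Real.exp_pos _)]
  have e1 := (Real.exp_pos (a * x)).le
  have e2 := (Real.exp_pos (-a * x)).le
  show Real.exp (a * |x|) ≤ Real.exp (a * x) + Real.exp (-a * x)
  rcases le_total 0 x with h | h
  · rw [abs_of_nonneg h]
    linarith
  · rw [abs_of_nonpos h]
    have : a * -x = -a * x := by ring
    rw [this]
    linarith

theorem pol_exp_mem (a : ℝ) : MemLp (fun x : ℝ => Real.exp (a * |x|)) 2 (gaussianReal 0 1) := by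
  rw [memLp_two_iff_integrable_sq (by fun_prop)]
  refine (pol_exp_int (2 * a)).congr (ae_of_all _ fun x => ?_)
  show Real.exp (2 * a * |x|) = Real.exp (a * |x|) ^ 2
  rw [← Real.exp_nat_mul]
  congr 1
  push_cast
  ring

theorem pol_mem (p : Polynomial ℝ) : MemLp (fun x => p.eval x) 2 (gaussianReal 0 1) := by
  rw [memLp_two_iff_integrable_sq p.continuous.aestronglyMeasurable]
  obtain ⟨C, k, hC, hb⟩ := wkc_poly_bd (p ^ 2)
  refine Integrable.mono' (((integrable_const (1 : ℝ)).add (wkc_gauss_int (2 * k))).const_mul C)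
    (p.continuous.pow 2).aestronglyMeasurable (ae_of_all _ fun x => ?_)
  have := hb x
  rw [Polynomial.eval_pow] at this
  exact this

theorem pol_iV_mem (V : ℝ) : MemLp (iV V) 2 (gaussianReal 0 1) := by
  refine MemLp.of_bound (wkc_iV_meas V).aestronglyMeasurable 1 (ae_of_all _ fun x => ?_)
  rw [Real.norm_eq_abs, abs_of_nonneg (wkc_iV_mem V x).1]
  exact (wkc_iV_mem V x).2

/-- the partial sums of the exponential series -/
theorem pol_partial (θ x : ℝ) (n : ℕ) :
    ‖∑ k ∈ Finset.range n, ((θ * x : ℝ) * I) ^ k / (k.factorial : ℂ)‖ ≤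
      Real.exp (|θ| * |x|) := by
  refine (norm_sum_le _ _).trans ?_
  have h1 : ∀ k ∈ Finset.range n, ‖((θ * x : ℝ) * I) ^ k / (k.factorial : ℂ)‖ =
      (|θ| * |x|) ^ k / (k.factorial : ℝ) := by
    intro k _
    rw [norm_div, norm_pow, norm_mul, Complex.norm_I, mul_one, Complex.norm_real,
      Real.norm_eq_abs, abs_mul, Complex.norm_natCast]
  rw [Finset.sum_congr rfl h1]
  exact Real.sum_le_exp_of_nonneg (by positivity) n

theorem pol_char {g : ℝ → ℝ} (hg : MemLp g 2 (gaussianReal 0 1)) (h0 : ∀ k : ℕ, ∫ x, x ^ k * g x ∂(gaussianReal 0 1) = 0)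
    (θ : ℝ) : ∫ x, (g x : ℂ) * cexp ((θ * x : ℝ) * I) ∂(gaussianReal 0 1) = 0 := by
  have hint : ∀ k : ℕ, Integrable (fun x : ℝ => x ^ k * g x) (gaussianReal 0 1) := by
    intro k
    have h1 := pol_mem (Polynomial.X ^ k)
    have h2 := h1.integrable_mul hg
    refine h2.congr (ae_of_all _ fun x => ?_)
    simp
  have hexp : Integrable (fun x : ℝ => |g x| * Real.exp (|θ| * |x|)) (gaussianReal 0 1) := by
    have h1 := hg.norm.integrable_mul (pol_exp_mem |θ|)
    exact h1
  have h1 : Tendsto (fun n => ∫ x, (g x : ℂ) *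
      ∑ k ∈ Finset.range n, ((θ * x : ℝ) * I) ^ k / (k.factorial : ℂ) ∂(gaussianReal 0 1)) atTop
      (𝓝 (∫ x, (g x : ℂ) * cexp ((θ * x : ℝ) * I) ∂(gaussianReal 0 1))) := by
    refine tendsto_integral_of_dominated_convergence (fun x => |g x| * Real.exp (|θ| * |x|))
      (fun n => ?_) hexp (fun n => ae_of_all _ fun x => ?_) (ae_of_all _ fun x => ?_)
    · refine AEStronglyMeasurable.mul ?_ ?_
      · exact Complex.continuous_ofReal.comp_aestronglyMeasurable hg.1
      · exact Continuous.aestronglyMeasurable (by fun_prop)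
    · rw [norm_mul, Complex.norm_real, Real.norm_eq_abs]
      exact mul_le_mul_of_nonneg_left (pol_partial θ x n) (abs_nonneg _)
    · refine Tendsto.const_mul _ ?_
      have := (NormedSpace.expSeries_div_hasSum_exp ((θ * x : ℝ) * I : ℂ)).tendsto_sum_nat
      rwa [← Complex.exp_eq_exp_ℂ] at this
  have h2 : ∀ n, ∫ x, (g x : ℂ) *
      ∑ k ∈ Finset.range n, ((θ * x : ℝ) * I) ^ k / (k.factorial : ℂ) ∂(gaussianReal 0 1) = 0 := by
    intro n
    have e1 : ∀ x : ℝ, (g x : ℂ) *
        ∑ k ∈ Finset.range n, ((θ * x : ℝ) * I) ^ k / (k.factorial : ℂ) =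
        ∑ k ∈ Finset.range n, ((θ : ℂ) * I) ^ k / (k.factorial : ℂ) * ((x ^ k * g x : ℝ) : ℂ) := by
      intro x
      rw [Finset.mul_sum]
      refine Finset.sum_congr rfl fun k _ => ?_
      push_cast
      rw [mul_right_comm, mul_pow]
      ring
    simp_rw [e1]
    rw [integral_finsetSum]
    · refine Finset.sum_eq_zero fun k _ => ?_
      rw [integral_const_mul, integral_complex_ofReal, h0 k]
      simp
    · intro k _
      exact (hint k).ofReal.const_mul _
  simp_rw [h2] at h1
  exact tendsto_nhds_unique h1 tendsto_const_nhds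

theorem pol_zero {g : ℝ → ℝ} (hg : MemLp g 2 (gaussianReal 0 1)) (h0 : ∀ k : ℕ, ∫ x, x ^ k * g x ∂(gaussianReal 0 1) = 0) :
    g =ᵐ[(gaussianReal 0 1)] 0 := by
  have hg1 : Integrable g (gaussianReal 0 1) := hg.integrable (by norm_num)
  set a : ℝ → ℝ≥0∞ := fun x => ENNReal.ofReal (g x) with ha
  set b : ℝ → ℝ≥0∞ := fun x => ENNReal.ofReal (-g x) with hb
  have ham : AEMeasurable a (gaussianReal 0 1) := hg.1.aemeasurable.ennreal_ofReal
  have hbm : AEMeasurable b (gaussianReal 0 1) := hg.1.aemeasurable.neg.ennreal_ofReal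
  have hfa : IsFiniteMeasure (Measure.withDensity (gaussianReal 0 1) a) := isFiniteMeasure_withDensity_ofReal hg1.2
  have hfb : IsFiniteMeasure (Measure.withDensity (gaussianReal 0 1) b) :=
    isFiniteMeasure_withDensity_ofReal hg1.neg.2
  have hat : ∀ᵐ x ∂(gaussianReal 0 1), a x < ∞ := ae_of_all _ fun x => ENNReal.ofReal_lt_top
  have hbt : ∀ᵐ x ∂(gaussianReal 0 1), b x < ∞ := ae_of_all _ fun x => ENNReal.ofReal_lt_top
  have hch : charFun (Measure.withDensity (gaussianReal 0 1) a) = charFun (Measure.withDensity (gaussianReal 0 1) b) := by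
    funext θ
    rw [charFun_apply_real, charFun_apply_real,
      integral_withDensity_eq_integral_toReal_smul₀ ham hat,
      integral_withDensity_eq_integral_toReal_smul₀ hbm hbt, ← sub_eq_zero, ← integral_sub]
    · rw [← pol_char hg h0 θ]
      refine integral_congr_ae (ae_of_all _ fun x => ?_)
      show (ENNReal.ofReal (g x)).toReal • _ - (ENNReal.ofReal (-g x)).toReal • _ = _
      rw [ENNReal.toReal_ofReal', ENNReal.toReal_ofReal', ← sub_smul, max_zero_sub_max_neg_zero_eq_self,
        Complex.real_smul]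
      push_cast
      rfl
    · refine Integrable.mono' hg1.norm ?_ (ae_of_all _ fun x => ?_)
      · have hA : AEStronglyMeasurable (fun x => (a x).toReal) (gaussianReal 0 1) :=
          ham.ennreal_toReal.aestronglyMeasurable
        exact hA.smul (Continuous.aestronglyMeasurable (by fun_prop))
      · show ‖(ENNReal.ofReal (g x)).toReal • _‖ ≤ _
        rw [norm_smul, ENNReal.toReal_ofReal']
        have e : ‖cexp (θ * x * I)‖ = 1 := by
          have := Complex.norm_exp_ofReal_mul_I (θ * x)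
          push_cast at this
          exact this
        rw [e, mul_one, Real.norm_eq_abs, Real.norm_eq_abs, abs_of_nonneg (le_max_right _ _)]
        exact max_le (le_abs_self _) (abs_nonneg _)
    · refine Integrable.mono' hg1.norm ?_ (ae_of_all _ fun x => ?_)
      · have hA : AEStronglyMeasurable (fun x => (b x).toReal) (gaussianReal 0 1) :=
          hbm.ennreal_toReal.aestronglyMeasurable
        exact hA.smul (Continuous.aestronglyMeasurable (by fun_prop))
      · show ‖(ENNReal.ofReal (-g x)).toReal • _‖ ≤ _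
        rw [norm_smul, ENNReal.toReal_ofReal']
        have e : ‖cexp (θ * x * I)‖ = 1 := by
          have := Complex.norm_exp_ofReal_mul_I (θ * x)
          push_cast at this
          exact this
        rw [e, mul_one, Real.norm_eq_abs, Real.norm_eq_abs, abs_of_nonneg (le_max_right _ _)]
        exact max_le (neg_le_abs _) (abs_nonneg _)
  have hm := Measure.ext_of_charFun hch
  rw [withDensity_eq_iff_of_sigmaFinite ham hbm] at hm
  filter_upwards [hm] with x hx
  show g x = 0
  have h1 : ENNReal.ofReal (g x) = ENNReal.ofReal (-g x) := hx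
  rcases lt_trichotomy (g x) 0 with h | h | h
  · rw [ENNReal.ofReal_of_nonpos h.le] at h1
    have := ENNReal.ofReal_eq_zero.1 h1.symm
    linarith
  · exact h
  · rw [ENNReal.ofReal_of_nonpos (show -g x ≤ 0 by linarith)] at h1
    have := ENNReal.ofReal_eq_zero.1 h1
    linarith

/-- polynomials as elements of `L²` -/
noncomputable def pol_T : Polynomial ℝ →ₗ[ℝ] Lp ℝ 2 (gaussianReal 0 1) where
  toFun p := (pol_mem p).toLp
  map_add' p q := by
    rw [← MemLp.toLp_add]
    congr 1
    funext x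
    simp
  map_smul' c p := by
    rw [RingHom.id_apply, ← MemLp.toLp_const_smul]
    congr 1
    funext x
    simp

theorem pol_dense_top : (LinearMap.range pol_T).topologicalClosure = ⊤ := by
  rw [Submodule.topologicalClosure_eq_top_iff, Submodule.eq_bot_iff]
  intro g hg
  have h1 : ∀ k : ℕ, ∫ x, x ^ k * g x ∂(gaussianReal 0 1) = 0 := by
    intro k
    have h2 := (Submodule.mem_orthogonal _ _).1 hg (pol_T (Polynomial.X ^ k)) ⟨_, rfl⟩
    rw [L2.inner_def] at h2
    refine Eq.trans (integral_congr_ae ?_) h2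
    have h3 := (pol_mem (Polynomial.X ^ k)).coeFn_toLp
    filter_upwards [h3] with x hx
    have h4 : (pol_T (Polynomial.X ^ k) : ℝ → ℝ) x = x ^ k := by
      refine hx.trans ?_
      simp
    rw [h4]
    simp [mul_comm]
  have h5 := pol_zero (Lp.memLp g) h1
  exact Lp.eq_zero_iff_ae_eq_zero.2 h5

/-- polynomials are dense -/
theorem poly_dense_pr (V : ℝ) {ε : ℝ} (hε : 0 < ε) : ∃ p : Polynomial ℝ,
    ∫ x, |p.eval x ^ 2 - iV V x| ∂(gaussianReal 0 1) ≤ ε := by
  set δ : ℝ := min 1 (ε / 3) with hδ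
  have hδ0 : 0 < δ := by positivity
  have hδ1 : δ ≤ 1 := min_le_left _ _
  have hδ2 : δ ≤ ε / 3 := min_le_right _ _
  have h1 : (pol_iV_mem V).toLp ∈ (LinearMap.range pol_T).topologicalClosure := by
    rw [pol_dense_top]
    trivial
  rw [← SetLike.mem_coe, Submodule.topologicalClosure_coe, Metric.mem_closure_iff] at h1
  obtain ⟨_, ⟨p, rfl⟩, hp⟩ := h1 δ hδ0
  refine ⟨p, ?_⟩
  have hmem : MemLp (fun x => p.eval x - iV V x) 2 (gaussianReal 0 1) := (pol_mem p).sub (pol_iV_mem V)
  have h2 : ∫ x, (p.eval x - iV V x) ^ 2 ∂(gaussianReal 0 1) ≤ δ ^ 2 := by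
    have h3 : ‖pol_T p - (pol_iV_mem V).toLp‖ ≤ δ := by
      rw [← dist_eq_norm, dist_comm]
      exact hp.le
    have h4 : pol_T p - (pol_iV_mem V).toLp = hmem.toLp := by
      show (pol_mem p).toLp - (pol_iV_mem V).toLp = _
      rw [← MemLp.toLp_sub]
      rfl
    rw [h4] at h3
    have h5 : ‖hmem.toLp‖ ^ 2 = ∫ x, (p.eval x - iV V x) ^ 2 ∂(gaussianReal 0 1) := by
      rw [← real_inner_self_eq_norm_sq, L2.inner_def]
      refine integral_congr_ae ?_
      filter_upwards [hmem.coeFn_toLp] with x hx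
      rw [hx]
      simp [sq]
    rw [← h5]
    exact pow_le_pow_left₀ (norm_nonneg _) h3 2
  have hsq : Integrable (fun x => (p.eval x - iV V x) ^ 2) (gaussianReal 0 1) := hmem.integrable_sq
  have h6 : ∫ x, |p.eval x ^ 2 - iV V x| ∂(gaussianReal 0 1) ≤
      ∫ x, ((1 + 1 / δ) * (p.eval x - iV V x) ^ 2 + δ) ∂(gaussianReal 0 1) := by
    refine integral_mono_of_nonneg (ae_of_all _ fun x => abs_nonneg _)
      ((hsq.const_mul _).add (integrable_const δ)) (ae_of_all _ fun x => ?_)
    show |p.eval x ^ 2 - iV V x| ≤ (1 + 1 / δ) * (p.eval x - iV V x) ^ 2 + δ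
    have e1 : iV V x ^ 2 = iV V x := by
      unfold iV
      split_ifs <;> norm_num
    have e2 : p.eval x ^ 2 - iV V x =
        (p.eval x - iV V x) * (p.eval x - iV V x + 2 * iV V x) := by
      linear_combination e1
    rw [e2, abs_mul]
    set u := p.eval x - iV V x with hu
    have e3 : |u + 2 * iV V x| ≤ |u| + 2 := by
      refine (abs_add_le _ _).trans ?_
      have := wkc_iV_mem V x
      rw [abs_mul, abs_of_nonneg this.1, abs_two]
      linarith [this.2]
    have e4 : |u| * |u + 2 * iV V x| ≤ |u| * (|u| + 2) :=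
      mul_le_mul_of_nonneg_left e3 (abs_nonneg _)
    have e5 : |u| * |u| = u ^ 2 := by rw [← sq, sq_abs]
    have e6 : 2 * |u| ≤ 1 / δ * u ^ 2 + δ := by
      have h7 : 1 / δ * u ^ 2 + δ - 2 * |u| = (|u| - δ) ^ 2 / δ := by
        rw [← sq_abs u]
        field_simp
        ring
      have h8 : 0 ≤ (|u| - δ) ^ 2 / δ := by positivity
      linarith
    nlinarith
  rw [integral_add (hsq.const_mul _) (integrable_const δ), integral_const_mul] at h6
  have h9 : ∫ _x : ℝ, δ ∂(gaussianReal 0 1) = δ := by simp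
  rw [h9] at h6
  have h10 : (1 + 1 / δ) * ∫ x, (p.eval x - iV V x) ^ 2 ∂(gaussianReal 0 1) ≤ (1 + 1 / δ) * δ ^ 2 :=
    mul_le_mul_of_nonneg_left h2 (by positivity)
  have h11 : (1 + 1 / δ) * δ ^ 2 = δ ^ 2 + δ := by
    field_simp
  nlinarith

theorem poly_dense : type_of% @poly_dense_pr := @poly_dense_pr

end Pool.Agent.KSL
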