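import Pool.Agent.Lib_helper68.KSL.Defs
import Pool.Agent.Lib_helper68.LEV.HPO
import Pool.Agent.Lib_helper68.LEV.FRU
import Pool.Agent.Lib_helper41.LVBF.ELF
import Pool.Agent.Lib_helper41.LVBF.ELM
import Pool.Agent.Lib_helper41.LVBF.HPM
import Pool.Agent.Lib_helper41.LVBF.STE
import Pool.Agent.Lib_helper41.LVBF.STO
import Pool.Agent.Lib_helper41.LVBF.TRA
import Pool.Agent.Lib_helper68.KSLF.BZP
import Pool.Agent.Lib_helper68.KSLF.HWK
import Pool.Agent.Lib_helper68.KSLF.PNP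
import Pool.Agent.Lib_helper68.KSLF.POL
import Pool.Agent.Lib_helper68.KSLF.RPO

/-! KSL, block SCH: the choice of the small factor. -/

namespace Pool.Agent.KSL

open Pool.Agent.LEV Pool.Agent.LVB
open Pool.Agent.FG61 (mu phi cc ff AA Lam)
open Complex MeasureTheory Filter Topology UpperHalfPlane ModularGroup ProbabilityTheory
open scoped MatrixGroups Modular ENNReal ModularForm ComplexConjugate ContDiff

/-! ### polynomials in the variables -/

lemma sch_mono_set {I J : Finset ℕ} (h : I ⊆ J) {X : ℕ} {G : (ℕ → ℝ) → ℝ} (hG : HPoly I X G) :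
    HPoly J X G := by
  obtain ⟨c, hc, hx⟩ := hG
  exact ⟨c, fun m hm => ⟨(hc m hm).1, (hc m hm).2.1, (hc m hm).2.2.trans h⟩, hx⟩

lemma sch_sq {I : Finset ℕ} (hI : ∀ p ∈ I, p.Prime) {X : ℕ} {G : (ℕ → ℝ) → ℝ}
    (hG : HPoly I X G) : HPoly I (X * X) (fun x => G x ^ 2) := by
  have h := hpoly_mul hI hI hG hG
  rw [Finset.union_self] at h
  obtain ⟨c, hc, hx⟩ := h
  refine ⟨c, hc, fun x => ?_⟩
  rw [← hx x]
  ring

lemma sch_um_mean {J : Finset ℕ} (hJ : ∀ p ∈ J, p.Prime) {P : Measure (ℕ → ℝ)} (hP : IsST J P)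
    {m : ℕ} (hm : 1 ≤ m) (hmJ : m.primeFactors ⊆ J) :
    ∫ x, Um m x ∂P = if m = 1 then 1 else 0 := by
  have h := st_mean hJ hP (X := m) hm (c := fun k => if k = m then 1 else 0) (by
    intro k hk
    by_cases h1 : k = m
    · subst h1
      exact ⟨hm, le_refl _, hmJ⟩
    · exact absurd (if_neg h1) hk)
  have h2 : ∀ x : ℕ → ℝ, ∑ k ∈ Finset.Icc 1 m, (if k = m then (1 : ℝ) else 0) * Um k x = Um m x := by
    intro x
    rw [Finset.sum_eq_single_of_mem m (Finset.mem_Icc.mpr ⟨hm, le_refl _⟩)]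
    · rw [if_pos rfl, one_mul]
    · intro k _ hk
      rw [if_neg hk, zero_mul]
  simp_rw [h2] at h
  rw [h]
  exact if_congr ⟨fun h => h.symm, fun h => h.symm⟩ rfl rfl

lemma sch_um_meas (m : ℕ) : Measurable (Um m) := by
  have hu : ∀ k, Measurable (fun x : ℝ => Uu x k) := by
    intro k
    induction k using Nat.strong_induction_on with
    | _ k ih =>
      match k with
      | 0 => exact measurable_const
      | 1 => exact measurable_id
      | (k + 2) =>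
        have h1 := ih (k + 1) (by omega)
        have h2 := ih k (by omega)
        exact (measurable_id.mul h1).sub h2
  unfold Um
  exact Finset.measurable_prod _ (fun p _ => (hu _).comp (measurable_pi_apply p))

lemma sch_um_bdd {J : Finset ℕ} {m : ℕ} (hmJ : m.primeFactors ⊆ J) {x : ℕ → ℝ}
    (hx : ∀ p ∈ J, |x p| ≤ 2) : |Um m x| ≤ ∏ p ∈ m.primeFactors, ((m.factorization p : ℝ) + 1) := by
  unfold Um
  rw [Finset.abs_prod]
  exact Finset.prod_le_prod (fun p _ => abs_nonneg _) (fun p hp => uu_le (hx p (hmJ hp)) _)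

lemma sch_bdd {I J : Finset ℕ} (h : I ⊆ J) {P : Measure (ℕ → ℝ)} (hP : IsST J P) {X : ℕ}
    {G : (ℕ → ℝ) → ℝ} (hG : HPoly I X G) : Measurable G ∧ ∃ B : ℝ, ∀ᵐ x ∂P, |G x| ≤ B := by
  obtain ⟨c, hc, hx⟩ := hG
  have hG' : G = fun x => ∑ m ∈ Finset.Icc 1 X, c m * Um m x := funext hx
  refine ⟨?_, ∑ m ∈ Finset.Icc 1 X, |c m| * ∏ p ∈ m.primeFactors, ((m.factorization p : ℝ) + 1), ?_⟩
  · rw [hG']
    exact Finset.measurable_sum _ (fun m _ => (sch_um_meas m).const_mul _)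
  · filter_upwards [hP.bdd] with x hxb
    rw [hx x]
    refine (Finset.abs_sum_le_sum_abs _ _).trans (Finset.sum_le_sum (fun m _ => ?_))
    rw [abs_mul]
    by_cases h0 : c m = 0
    · rw [h0, abs_zero, zero_mul, zero_mul]
    · exact mul_le_mul_of_nonneg_left (sch_um_bdd ((hc m h0).2.2.trans h) hxb) (abs_nonneg _)

lemma sch_int {I J : Finset ℕ} (h : I ⊆ J) {P : Measure (ℕ → ℝ)} (hP : IsST J P) {X : ℕ}
    {G : (ℕ → ℝ) → ℝ} (hG : HPoly I X G) : Integrable G P := by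
  have := hP.prob
  obtain ⟨h1, B, h2⟩ := sch_bdd h hP hG
  refine Integrable.of_bound h1.aestronglyMeasurable B ?_
  filter_upwards [h2] with x hx
  rw [Real.norm_eq_abs]
  exact hx

/-- independence of polynomials in different variables -/
lemma sch_indep {I I' J : Finset ℕ} (hJ : ∀ p ∈ J, p.Prime) (hIJ : I ⊆ J) (hIJ' : I' ⊆ J)
    (hd : Disjoint I I') {P : Measure (ℕ → ℝ)} (hP : IsST J P) {X Y : ℕ} {G H : (ℕ → ℝ) → ℝ}
    (hG : HPoly I X G) (hH : HPoly I' Y H) :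
    ∫ x, G x * H x ∂P = (∫ x, G x ∂P) * ∫ x, H x ∂P := by
  have hprob := hP.prob
  obtain ⟨c, hc, hcx⟩ := hG
  obtain ⟨d, hd', hdx⟩ := hH
  -- single terms
  have hint : ∀ m, m.primeFactors ⊆ J → Integrable (Um m) P := by
    intro m hm
    refine Integrable.of_bound (sch_um_meas m).aestronglyMeasurable
      (∏ p ∈ m.primeFactors, ((m.factorization p : ℝ) + 1)) ?_
    filter_upwards [hP.bdd] with x hx
    rw [Real.norm_eq_abs]
    exact sch_um_bdd hm hx
  have hG1 : ∫ x, G x ∂P = ∑ m ∈ Finset.Icc 1 X, c m * (if m = 1 then 1 else 0) := by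
    simp_rw [hcx]
    rw [integral_finsetSum]
    · refine Finset.sum_congr rfl (fun m hm => ?_)
      by_cases h0 : c m = 0
      · simp [h0]
      · rw [integral_const_mul, sch_um_mean hJ hP (hc m h0).1 ((hc m h0).2.2.trans hIJ)]
    · intro m _
      by_cases h0 : c m = 0
      · simp [h0]
      · exact (hint m ((hc m h0).2.2.trans hIJ)).const_mul _
  have hH1 : ∫ x, H x ∂P = ∑ n ∈ Finset.Icc 1 Y, d n * (if n = 1 then 1 else 0) := by
    simp_rw [hdx]
    rw [integral_finsetSum]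
    · refine Finset.sum_congr rfl (fun m hm => ?_)
      by_cases h0 : d m = 0
      · simp [h0]
      · rw [integral_const_mul, sch_um_mean hJ hP (hd' m h0).1 ((hd' m h0).2.2.trans hIJ')]
    · intro m _
      by_cases h0 : d m = 0
      · simp [h0]
      · exact (hint m ((hd' m h0).2.2.trans hIJ')).const_mul _
  have hcop : ∀ m n, c m ≠ 0 → d n ≠ 0 → m.Coprime n := by
    intro m n hm hn
    rw [Nat.coprime_iff_gcd_eq_one]
    by_contra hg
    obtain ⟨p, hp, hpd⟩ := Nat.exists_prime_and_dvd hg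
    have h1 : p ∈ m.primeFactors := Nat.mem_primeFactors.mpr
      ⟨hp, hpd.trans (Nat.gcd_dvd_left m n), by have := (hc m hm).1; omega⟩
    have h2 : p ∈ n.primeFactors := Nat.mem_primeFactors.mpr
      ⟨hp, hpd.trans (Nat.gcd_dvd_right m n), by have := (hd' n hn).1; omega⟩
    exact (Finset.disjoint_left.mp hd) ((hc m hm).2.2 h1) ((hd' n hn).2.2 h2)
  have hGH : ∀ x, G x * H x = ∑ m ∈ Finset.Icc 1 X, ∑ n ∈ Finset.Icc 1 Y,
      c m * d n * Um (m * n) x := by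
    intro x
    rw [hcx, hdx, Finset.sum_mul_sum]
    refine Finset.sum_congr rfl (fun m _ => Finset.sum_congr rfl (fun n _ => ?_))
    by_cases h0 : c m = 0
    · simp [h0]
    by_cases h0' : d n = 0
    · simp [h0']
    have h1 := HPO_um_mul (hcop m n h0 h0') x
    rw [h1]
    ring
  have hsub : ∀ m n, c m ≠ 0 → d n ≠ 0 → (m * n).primeFactors ⊆ J := by
    intro m n hm hn
    rw [Nat.primeFactors_mul (by have := (hc m hm).1; omega) (by have := (hd' n hn).1; omega)]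
    exact Finset.union_subset ((hc m hm).2.2.trans hIJ) ((hd' n hn).2.2.trans hIJ')
  simp_rw [hGH]
  rw [integral_finsetSum, hG1, hH1, Finset.sum_mul_sum]
  · refine Finset.sum_congr rfl (fun m hm => ?_)
    rw [integral_finsetSum]
    · refine Finset.sum_congr rfl (fun n hn => ?_)
      by_cases h0 : c m = 0
      · simp [h0]
      by_cases h0' : d n = 0
      · simp [h0']
      have hmn : 1 ≤ m * n := Nat.mul_pos (hc m h0).1 (hd' n h0').1
      rw [integral_const_mul, sch_um_mean hJ hP hmn (hsub m n h0 h0')]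
      by_cases h1 : m = 1
      · by_cases h2 : n = 1
        · simp [h1, h2]
        · have : m * n ≠ 1 := fun hh => h2 (Nat.eq_one_of_mul_eq_one_left hh)
          simp [h1, h2]
      · have : m * n ≠ 1 := fun hh => h1 (Nat.eq_one_of_mul_eq_one_right hh)
        simp [h1, this]
    · intro n _
      by_cases h0 : c m = 0
      · simp [h0]
      by_cases h0' : d n = 0
      · simp [h0']
      exact (hint _ (hsub m n h0 h0')).const_mul _
  · intro m _
    refine integrable_finsetSum _ (fun n _ => ?_)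
    by_cases h0 : c m = 0
    · simp [h0]
    by_cases h0' : d n = 0
    · simp [h0']
    exact (hint _ (hsub m n h0 h0')).const_mul _

/-- the mean does not depend on the model -/
lemma sch_const {I : Finset ℕ} {X : ℕ} {G : (ℕ → ℝ) → ℝ} (hG : HPoly I X G) :
    ∃ r : ℝ, ∀ J : Finset ℕ, (∀ p ∈ J, p.Prime) → I ⊆ J → ∀ P : Measure (ℕ → ℝ), IsST J P →
      ∫ x, G x ∂P = r := by
  obtain ⟨c, hc, hcx⟩ := hpoly_mono (Nat.le_succ X) hG
  refine ⟨c 1, fun J hJ hIJ P hP => ?_⟩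
  simp_rw [hcx]
  exact st_mean hJ hP (Nat.succ_le_succ (Nat.zero_le X)) (fun m hm =>
    ⟨(hc m hm).1, (hc m hm).2.1, (hc m hm).2.2.trans hIJ⟩)


lemma sch_hd {A : Finset ℕ} (c : ℕ → ℝ) {I : Finset ℕ} (hI : ∀ p ∈ I, p.Prime)
    (hA : ∀ a ∈ A, 1 ≤ a) (hAI : ∀ a ∈ A, a.primeFactors ⊆ I) :
    HPoly I (∑ a ∈ A, a * a) (Hd A c) := by
  have h1 : ∀ a ∈ A, HPoly I (∑ a ∈ A, a * a) (fun x => c a * Um a x ^ 2) := by
    intro a ha
    refine hpoly_smul ?_ (c a)
    refine hpoly_mono (Finset.single_le_sum (f := fun a => a * a) (fun _ _ => Nat.zero_le _) ha) ?_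
    exact sch_sq hI (HPO_single (hA a ha) (le_refl a) (hAI a ha))
  have h2 := HPO_sum A (G := fun a x => c a * Um a x ^ 2) h1
  exact h2

lemma sch_hd_mean {A : Finset ℕ} (c : ℕ → ℝ) {J : Finset ℕ} (hJ : ∀ p ∈ J, p.Prime)
    (hA : ∀ a ∈ A, 1 ≤ a) (hAJ : ∀ a ∈ A, a.primeFactors ⊆ J) {P : Measure (ℕ → ℝ)}
    (hP : IsST J P) : ∫ x, Hd A c x ∂P = ∑ a ∈ A, c a := by
  unfold Hd
  have hi : ∀ a ∈ A, Integrable (fun x => c a * Um a x ^ 2) P := by
    intro a ha
    exact sch_int (le_refl J) hP (hpoly_smul (sch_sq hJ (HPO_single (hA a ha) (le_refl a)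
      (hAJ a ha))) (c a))
  rw [integral_finsetSum A hi]
  refine Finset.sum_congr rfl (fun a ha => ?_)
  rw [integral_const_mul]
  have h := st_sq hJ hP (X := a) (c := fun k => if k = a then 1 else 0) (by
    intro k hk
    by_cases h1 : k = a
    · subst h1
      exact ⟨hA k ha, le_refl _, hAJ k ha⟩
    · exact absurd (if_neg h1) hk)
  have h2 : ∀ x : ℕ → ℝ, ∑ k ∈ Finset.Icc 1 a, (if k = a then (1 : ℝ) else 0) * Um k x = Um a x := by
    intro x
    rw [Finset.sum_eq_single_of_mem a (Finset.mem_Icc.mpr ⟨hA a ha, le_refl _⟩)]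
    · rw [if_pos rfl, one_mul]
    · intro k _ hk
      rw [if_neg hk, zero_mul]
  have h3 : ∑ k ∈ Finset.Icc 1 a, (if k = a then (1 : ℝ) else 0) ^ 2 = 1 := by
    rw [Finset.sum_eq_single_of_mem a (Finset.mem_Icc.mpr ⟨hA a ha, le_refl _⟩)]
    · rw [if_pos rfl, one_pow]
    · intro k _ hk
      rw [if_neg hk]
      norm_num
  simp_rw [h2] at h
  rw [h, h3, mul_one]

/-! ### the normal law -/

lemma sch_poly_int (q : Polynomial ℝ) : Integrable (fun x => q.eval x) (gaussianReal 0 1) := by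
  have hk : ∀ k : ℕ, Integrable (fun x : ℝ => x ^ k) (gaussianReal 0 1) := by
    intro k
    have h1 : MemLp id (k : ENNReal) (gaussianReal 0 1) := by
      have := memLp_id_gaussianReal (μ := 0) (v := 1) (k : NNReal)
      simpa using this
    have h2 := h1.integrable_norm_pow' 
    refine (h2.mono' (by fun_prop) ?_)
    refine Eventually.of_forall (fun x => ?_)
    simp
  have h1 : (fun x => q.eval x) = fun x => ∑ i ∈ Finset.range (q.natDegree + 1), q.coeff i * x ^ i := by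
    funext x
    exact Polynomial.eval_eq_sum_range x
  rw [h1]
  exact integrable_finsetSum _ (fun i _ => (hk i).const_mul _)

lemma sch_gauss (p : Polynomial ℝ) (V : ℝ) :
    |(∫ x, (p ^ 2).eval x ∂(gaussianReal 0 1)) - (gaussianReal 0 1).real (Set.Ici V)| ≤
      ∫ x, |p.eval x ^ 2 - iV V x| ∂(gaussianReal 0 1) := by
  have h1 : ∀ x, iV V x = (Set.Ici V).indicator (fun _ => (1 : ℝ)) x := by
    intro x
    unfold iV
    by_cases h : V ≤ x
    · rw [if_pos h, Set.indicator_of_mem (Set.mem_Ici.mpr h)]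
    · rw [if_neg h, Set.indicator_of_notMem (fun hh => h (Set.mem_Ici.mp hh))]
  have h2 : Integrable (iV V) (gaussianReal 0 1) := by
    have : iV V = (Set.Ici V).indicator (fun _ => (1 : ℝ)) := funext h1
    rw [this]
    exact (integrable_const 1).indicator measurableSet_Ici
  have h3 : ∫ x, iV V x ∂(gaussianReal 0 1) = (gaussianReal 0 1).real (Set.Ici V) := by
    simp_rw [h1]
    rw [integral_indicator measurableSet_Ici, setIntegral_const, smul_eq_mul, mul_one]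
  rw [← h3, ← integral_sub (sch_poly_int _) h2]
  refine (abs_integral_le_integral_abs).trans (le_of_eq ?_)
  refine integral_congr_ae (Eventually.of_forall (fun x => ?_))
  simp only [Polynomial.eval_pow]


/-! ### large `N` -/

lemma sch_ll (B : ℝ) : ∃ N₀ : ℕ, ∀ N : ℕ, N₀ ≤ N → B ≤ Real.log (Real.log N) := by
  have h : Tendsto (fun N : ℕ => Real.log (Real.log N)) atTop atTop :=
    Real.tendsto_log_atTop.comp (Real.tendsto_log_atTop.comp tendsto_natCast_atTop_atTop)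
  exact eventually_atTop.mp (h.eventually_ge_atTop B)

lemma sch_ka {a b : ℝ} (ha : 0 < a) (hab : a < b) (X : ℕ) : ∃ N₀ : ℕ, ∀ N : ℕ, N₀ ≤ N →
    KA a N * X ≤ KA b N := by
  have h : Tendsto (fun N : ℕ => (N : ℝ) ^ (b - a)) atTop atTop :=
    (tendsto_rpow_atTop (by linarith)).comp tendsto_natCast_atTop_atTop
  obtain ⟨N₀, hN₀⟩ := eventually_atTop.mp (h.eventually_ge_atTop (X : ℝ))
  refine ⟨N₀ + 1, fun N hN => ?_⟩
  have hNpos : (0 : ℝ) < N := by
    have : 0 < N := by omega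
    exact_mod_cast this
  unfold KA
  refine Nat.le_floor ?_
  push_cast
  have h1 : (⌊(N : ℝ) ^ a⌋₊ : ℝ) ≤ (N : ℝ) ^ a := Nat.floor_le (by positivity)
  have h2 : (X : ℝ) ≤ (N : ℝ) ^ (b - a) := hN₀ N (by omega)
  calc (⌊(N : ℝ) ^ a⌋₊ : ℝ) * X ≤ (N : ℝ) ^ a * (N : ℝ) ^ (b - a) :=
        mul_le_mul h1 h2 (Nat.cast_nonneg _) (by positivity)
    _ = (N : ℝ) ^ b := by
        rw [← Real.rpow_add hNpos]
        congr 1
        ring

lemma sch_ka_mono {a b : ℝ} (hab : a ≤ b) {N : ℕ} (hN : 1 ≤ N) : KA a N ≤ KA b N := by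
  unfold KA
  exact Nat.floor_mono (Real.rpow_le_rpow_of_exponent_le (by exact_mod_cast hN) hab)

lemma sch_om {N : ℕ} [Fact N.Prime] (f : S2 N) : 0 ≤ om f := by
  unfold om
  have := FRU_nr_nonneg f
  positivity

/-- transfer with constant two -/
lemma sch_transfer (X₀ : ℕ → ℕ) (hX₀ : ∃ N₀ : ℕ, ∀ N : ℕ, N₀ ≤ N → X₀ N ≤ KA (1 / 2) N) :
    ∃ N₀ : ℕ, ∀ (N : ℕ) [Fact N.Prime], N₀ ≤ N → ∀ {ι : Type} [Fintype ι] (f : ι → S2 N),
    AllNew f → ∀ {I : Finset ℕ}, (∀ p ∈ I, p.Prime ∧ p < N) → ∀ {P : Measure (ℕ → ℝ)},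
    IsST I P → ∀ {G : (ℕ → ℝ) → ℝ}, HPoly I (X₀ N) G →
      ∑ i, om (f i) * G (la (f i)) ^ 2 ≤ 2 * ∫ x, G x ^ 2 ∂P := by
  obtain ⟨N₁, h₁⟩ := hX₀
  refine ⟨max N₁ (10 ^ 8), fun N _ hN ι _ f hf I hI P hP G hG => ?_⟩
  have hN1 : N₁ ≤ N := (le_max_left _ _).trans hN
  have hN2 : 10 ^ 8 ≤ N := (le_max_right _ _).trans hN
  have hNr : (10 : ℝ) ^ 8 ≤ N := by exact_mod_cast hN2
  have hNpos : (0 : ℝ) < N := by linarith [show (0 : ℝ) < 10 ^ 8 by norm_num]
  have hka1 : 1 ≤ KA (1 / 2) N := by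
    unfold KA
    refine Nat.le_floor ?_
    push_cast
    exact Real.one_le_rpow (by linarith [show (1 : ℝ) ≤ 10 ^ 8 by norm_num]) (by norm_num)
  have hG' : HPoly I (KA (1 / 2) N) G := hpoly_mono (h₁ N hN1) hG
  have hlen : ((KA (1 / 2) N : ℕ) : ℝ) ≤ (1 / 100 : ℝ) ^ 2 * N := by
    unfold KA
    refine (Nat.floor_le (by positivity)).trans ?_
    rw [← Real.sqrt_eq_rpow]
    have h3 : Real.sqrt N * Real.sqrt N = N := Real.mul_self_sqrt hNpos.le
    have h4 : (10 : ℝ) ^ 4 ≤ Real.sqrt N := by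
      refine Real.le_sqrt_of_sq_le ?_
      linarith [show ((10 : ℝ) ^ 4) ^ 2 = 10 ^ 8 by norm_num]
    nlinarith [Real.sqrt_nonneg (N : ℝ)]
  have hn : ∀ i, IsNew (f i) := fun i => (hf.2 (f i)).mpr ⟨i, rfl⟩
  have h5 := transfer f hf.1 hn (ν := 1 / 100) (by norm_num) (by norm_num) hka1 hlen hI hP hG' 0
  have h6 : Real.exp (8 * Real.pi * (1 / 100)) ≤ 2 := by
    have h7 : 8 * Real.pi * (1 / 100) ≤ Real.log 2 := by
      have := Real.pi_lt_d2
      have := Real.log_two_gt_d9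
      linarith
    calc Real.exp (8 * Real.pi * (1 / 100)) ≤ Real.exp (Real.log 2) := Real.exp_le_exp.mpr h7
      _ = 2 := Real.exp_log (by norm_num)
  have h8 : 0 ≤ ∫ x, G x ^ 2 ∂P := integral_nonneg (fun x => by positivity)
  have h9 : ∀ i, (G (la (f i)) + 0 * se (f i)) ^ 2 = G (la (f i)) ^ 2 := fun i => by ring
  simp_rw [h9] at h5
  refine h5.trans ?_
  rw [zero_pow two_ne_zero, add_zero]
  exact mul_le_mul_of_nonneg_right h6 h8

/-- the choice of the small factor -/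
theorem s_choice_pr (A : Finset ℕ) (c : ℕ → ℝ) (hA : ∀ a ∈ A, 1 ≤ a) (hc : ∀ a, 0 ≤ c a) (V : ℝ)
    {ε : ℝ} (hε : 0 < ε) : ∃ C₄ : ℝ, ∀ ε₂ : ℝ, 0 < ε₂ → ∃ N₀ : ℕ, ∀ (N : ℕ) [Fact N.Prime],
    N₀ ≤ N → ∃ s : ℕ → ℝ, (∀ m, s m ≠ 0 → 1 ≤ m ∧ m ≤ KA (ε₂ / 4) N ∧ m.primeFactors ⊆ IZ N) ∧
      (∀ P : Measure (ℕ → ℝ), IsST (IZ N) P →
        ∫ x, (∑ m ∈ Finset.Icc 1 (KA ε₂ N), s m * Um m x) ^ 4 ∂P ≤ C₄) ∧
      |∑ m ∈ Finset.Icc 1 (KA ε₂ N), s m ^ 2 -
        (∑ a ∈ A, c a) * (gaussianReal 0 1).real (Set.Ici V)| ≤ ε ∧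
      ∀ {ι : Type} [Fintype ι] (f : ι → S2 N), AllNew f →
        ∑ i, om (f i) * |(∑ m ∈ Finset.Icc 1 (KA ε₂ N), s m * Um m (la (f i))) ^ 2 -
          Hd A c (la (f i)) * iV V (Pn N (la (f i)))| ≤ ε := by
  classical
  set C : ℝ := ∑ a ∈ A, c a with hC
  have hC0 : 0 ≤ C := Finset.sum_nonneg (fun a _ => hc a)
  set gV : ℝ := (gaussianReal 0 1).real (Set.Ici V) with hgV
  have hgV0 : 0 ≤ gV := measureReal_nonneg
  have hgV1 : gV ≤ 1 := by
    have := measureReal_le_one (μ := gaussianReal 0 1) (s := Set.Ici V)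
    exact this
  set η₁ : ℝ := ε / (8 * (C + 1)) with hη₁
  have hη₁0 : 0 < η₁ := by positivity
  have hη₁C : η₁ * (C + 1) = ε / 8 := by
    rw [hη₁]
    field_simp
  obtain ⟨p, hp⟩ := poly_dense V hη₁0
  set M4 : ℝ := (∫ x, (p ^ 4).eval x ∂(gaussianReal 0 1)) + 1 with hM4
  have hM4i : 0 ≤ ∫ x, (p ^ 4).eval x ∂(gaussianReal 0 1) := by
    refine integral_nonneg (fun x => ?_)
    simp only [Polynomial.eval_pow, Pi.zero_apply]
    positivity
  have hM41 : 1 ≤ M4 := by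
    rw [hM4]
    linarith
  set t : ℝ := ε / (8 * M4) with ht
  have ht0 : 0 < t := by positivity
  have htM : t * M4 = ε / 8 := by
    rw [ht]
    field_simp
  set τ : ℝ := min (ε / 4) 1 with hτ
  have hτ0 : 0 < τ := lt_min (by linarith) one_pos
  set η₂ : ℝ := min (t * ε / 8) (τ ^ 2) with hη₂
  have hη₂0 : 0 < η₂ := lt_min (by positivity) (by positivity)
  obtain ⟨I, X, R, hI, hAI, hR, hRP⟩ := root_poly A c hA hc hη₂0
  -- constants of the model
  have hR2 := sch_sq hI hR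
  have hR4 := sch_sq hI hR2
  obtain ⟨r4, hr4⟩ := sch_const hR4
  have hHd := sch_hd c hI hA hAI
  set Y : ℕ := X * X + ∑ a ∈ A, a * a with hY
  have hD : HPoly I Y (fun x => R x ^ 2 - Hd A c x) := by
    have h1 := hpoly_add (hpoly_mono (Nat.le_add_right (X * X) (∑ a ∈ A, a * a)) hR2)
      (hpoly_smul (hpoly_mono (Nat.le_add_left (∑ a ∈ A, a * a) (X * X)) hHd) (-1))
    obtain ⟨d, hd, hdx⟩ := h1
    refine ⟨d, hd, fun x => ?_⟩
    rw [← hdx x]
    ring
  have hD2 := sch_sq hI hD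
  refine ⟨M4 * |r4|, fun ε₂ h2 => ?_⟩
  -- large N
  obtain ⟨N₁, hN₁⟩ := sch_ll (∑ q ∈ I, (q : ℝ))
  obtain ⟨N₂, hN₂⟩ := iz_split
  obtain ⟨N₃, hN₃⟩ := sch_ka (a := ε₂ / 8) (b := ε₂ / 4) (by linarith) (by linarith) X
  obtain ⟨N₄, hN₄⟩ := pn_hpoly p (ε₂ := ε₂ / 8) (by linarith)
  obtain ⟨N₅, hN₅⟩ := pn_hpoly (p ^ 2) (ε₂ := 1 / 2) (by norm_num)
  obtain ⟨N₆, hN₆⟩ := pn_hpoly (p ^ 4) (ε₂ := 1 / 2) (by norm_num)
  obtain ⟨N₇, hN₇⟩ := pn_poly (p ^ 2) hη₁0
  obtain ⟨N₈, hN₈⟩ := pn_poly (p ^ 4) one_pos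
  obtain ⟨N₉, hN₉⟩ := sch_transfer (fun N => KA (1 / 2) N) ⟨0, fun N _ => le_refl _⟩
  obtain ⟨N₁₀, hN₁₀⟩ := sch_transfer (fun _ => Y) (by
    obtain ⟨N₀, hN₀⟩ := sch_ka (a := 1 / 4) (b := 1 / 2) (by norm_num) (by norm_num) Y
    refine ⟨N₀ + 1, fun N hN => ?_⟩
    have h3 := hN₀ N (by omega)
    have h4 : 1 ≤ KA (1 / 4) N := by
      unfold KA
      refine Nat.le_floor ?_
      push_cast
      have : (1 : ℝ) ≤ N := by
        have : 1 ≤ N := by omega
        exact_mod_cast this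
      exact Real.one_le_rpow this (by norm_num)
    calc Y = 1 * Y := (one_mul Y).symm
      _ ≤ KA (1 / 4) N * Y := Nat.mul_le_mul_right Y h4
      _ ≤ KA (1 / 2) N := h3)
  obtain ⟨N₁₁, hN₁₁⟩ := harm_weak A c hA hc p V (show 0 < ε / 8 by linarith)
  refine ⟨N₁ + N₂ + N₃ + N₄ + N₅ + N₆ + N₇ + N₈ + N₉ + N₁₀ + N₁₁ + 1, fun N _ hN => ?_⟩
  have hiz := hN₂ N (by omega)
  have hIZp : ∀ q ∈ IZ N, q.Prime := fun q hq => (hiz.2.2.1 q hq).1
  have hII0 : I ⊆ I0 N := by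
    intro q hq
    have h3 : (q : ℝ) ≤ Real.log (Real.log N) :=
      (Finset.single_le_sum (f := fun q : ℕ => (q : ℝ)) (fun _ _ => Nat.cast_nonneg _) hq).trans
        (hN₁ N (by omega))
    unfold I0
    rw [Finset.mem_filter, Finset.mem_Icc]
    exact ⟨⟨(hI q hq).one_le, Nat.le_floor h3⟩, hI q hq⟩
  have hI0IZ : I0 N ⊆ IZ N := by
    rw [hiz.1]
    exact Finset.subset_union_left
  have hINIZ : IN N ⊆ IZ N := by
    rw [hiz.1]
    exact Finset.subset_union_right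
  have hIIZ : I ⊆ IZ N := hII0.trans hI0IZ
  have hINp : ∀ q ∈ IN N, q.Prime := fun q hq => hIZp q (hINIZ hq)
  have hdis : Disjoint (IN N) I := (Finset.disjoint_of_subset_left hII0 hiz.2.1).symm
  have hN1 : 1 ≤ N := by omega
  have hG1 := hN₄ N (by omega)
  have hG2 := hN₅ N (by omega)
  have hG4 := hN₆ N (by omega)
  -- the polynomial
  obtain ⟨s, hs, hsx⟩ := hpoly_mul hINp hI hG1 hR
  have hss : ∀ m, s m ≠ 0 → 1 ≤ m ∧ m ≤ KA (ε₂ / 4) N ∧ m.primeFactors ⊆ IZ N := by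
    intro m hm
    obtain ⟨a1, a2, a3⟩ := hs m hm
    exact ⟨a1, a2.trans (hN₃ N (by omega)), a3.trans (Finset.union_subset hINIZ hIIZ)⟩
  have hka : KA (ε₂ / 4) N ≤ KA ε₂ N := sch_ka_mono (by linarith) hN1
  have hSx : ∀ x, ∑ m ∈ Finset.Icc 1 (KA ε₂ N), s m * Um m x = p.eval (Pn N x) * R x := by
    intro x
    have h0 : p.eval (Pn N x) * R x = ∑ m ∈ Finset.Icc 1 (KA (ε₂ / 8) N * X), s m * Um m x := hsx x
    rw [h0]
    symm
    refine Finset.sum_subset (Finset.Icc_subset_Icc_right ((hN₃ N (by omega)).trans hka)) ?_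
    intro m _ hm
    by_cases h0 : s m = 0
    · rw [h0, zero_mul]
    · exact absurd (Finset.mem_Icc.mpr ⟨(hs m h0).1, (hs m h0).2.1⟩) hm
  -- moments in the model
  have hp4 : ∀ P : Measure (ℕ → ℝ), IsST (IN N) P → ∫ x, (p ^ 4).eval (Pn N x) ∂P ≤ M4 := by
    intro P hP
    have h3 := (hN₈ N (by omega) P hP).2
    have h4 := (abs_le.mp h3).2
    rw [hM4]
    linarith
  have hp2 : ∀ P : Measure (ℕ → ℝ), IsST (IN N) P →
      |(∫ x, (p ^ 2).eval (Pn N x) ∂P) - gV| ≤ 2 * η₁ := by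
    intro P hP
    have h3 := (hN₇ N (by omega) P hP).2
    have h4 := (sch_gauss p V).trans hp
    have h5 : (∫ x, (p ^ 2).eval (Pn N x) ∂P) - gV =
        ((∫ x, (p ^ 2).eval (Pn N x) ∂P) - ∫ x, (p ^ 2).eval x ∂(gaussianReal 0 1)) +
        ((∫ x, (p ^ 2).eval x ∂(gaussianReal 0 1)) - gV) := by ring
    rw [h5]
    refine (abs_add_le _ _).trans ?_
    linarith
  refine ⟨s, hss, ?_, ?_, ?_⟩
  · intro P hP
    have hPIN : IsST (IN N) P := st_sub hINIZ hP
    have h3 : ∀ x, (∑ m ∈ Finset.Icc 1 (KA ε₂ N), s m * Um m x) ^ 4 =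
        (p ^ 4).eval (Pn N x) * (R x ^ 2) ^ 2 := by
      intro x
      rw [hSx, Polynomial.eval_pow]
      ring
    simp_rw [h3]
    rw [sch_indep hIZp hINIZ hIIZ hdis hP hG4 hR4, hr4 (IZ N) hIZp hIIZ P hP]
    have h4 : 0 ≤ ∫ x, (p ^ 4).eval (Pn N x) ∂P := by
      refine integral_nonneg (fun x => ?_)
      simp only [Polynomial.eval_pow, Pi.zero_apply]
      positivity
    calc (∫ x, (p ^ 4).eval (Pn N x) ∂P) * r4 ≤ (∫ x, (p ^ 4).eval (Pn N x) ∂P) * |r4| :=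
          mul_le_mul_of_nonneg_left (le_abs_self _) h4
      _ ≤ M4 * |r4| := mul_le_mul_of_nonneg_right (hp4 P hPIN) (abs_nonneg _)
  · obtain ⟨P, hP⟩ := st_exists (IZ N) hIZp
    have hprob := hP.prob
    have hPIN : IsST (IN N) P := st_sub hINIZ hP
    have hPI : IsST I P := st_sub hIIZ hP
    have h3 := st_sq hIZp hP (X := KA ε₂ N) (c := s) (fun m hm =>
      ⟨(hss m hm).1, (hss m hm).2.1.trans hka, (hss m hm).2.2⟩)
    rw [← h3]
    have h4 : ∀ x, (∑ m ∈ Finset.Icc 1 (KA ε₂ N), s m * Um m x) ^ 2 =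
        (p ^ 2).eval (Pn N x) * R x ^ 2 := by
      intro x
      rw [hSx, Polynomial.eval_pow]
      ring
    simp_rw [h4]
    rw [sch_indep hIZp hINIZ hIIZ hdis hP hG2 hR2]
    set m2 : ℝ := ∫ x, (p ^ 2).eval (Pn N x) ∂P with hm2
    set r2 : ℝ := ∫ x, R x ^ 2 ∂P with hr2
    have h5 : |m2 - gV| ≤ 2 * η₁ := hp2 P hPIN
    have h6 : |r2 - C| ≤ τ := by
      have hi1 : Integrable (fun x => R x ^ 2) P := sch_int hIIZ hP hR2
      have hi2 : Integrable (Hd A c) P := sch_int hIIZ hP hHd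
      have hi3 : Integrable (fun x => (R x ^ 2 - Hd A c x) ^ 2) P := sch_int hIIZ hP hD2
      have h7 : ∫ x, Hd A c x ∂P = C :=
        sch_hd_mean c hIZp hA (fun a ha => (hAI a ha).trans hIIZ) hP
      have h8 : r2 - C = ∫ x, (R x ^ 2 - Hd A c x) ∂P := by
        rw [integral_sub hi1 hi2, h7]
      rw [h8]
      refine abs_integral_le_integral_abs.trans ?_
      have h9 : ∫ x, |R x ^ 2 - Hd A c x| ∂P ≤
          ∫ x, (τ / 2 + (R x ^ 2 - Hd A c x) ^ 2 / (2 * τ)) ∂P := by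
        refine integral_mono (hi1.sub hi2).abs ((integrable_const _).add (hi3.div_const _)) ?_
        intro x
        simp only
        have h10 : 0 ≤ (|R x ^ 2 - Hd A c x| - τ) ^ 2 := sq_nonneg _
        have h11 : |R x ^ 2 - Hd A c x| ^ 2 = (R x ^ 2 - Hd A c x) ^ 2 := sq_abs _
        have h12 : 2 * τ * |R x ^ 2 - Hd A c x| ≤ τ ^ 2 + (R x ^ 2 - Hd A c x) ^ 2 := by
          nlinarith [h10, h11]
        have h13 : τ / 2 + (R x ^ 2 - Hd A c x) ^ 2 / (2 * τ) =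
            (τ ^ 2 + (R x ^ 2 - Hd A c x) ^ 2) / (2 * τ) := by
          field_simp
        rw [h13, le_div_iff₀ (by positivity)]
        linarith
      refine h9.trans ?_
      rw [integral_add (integrable_const _) (hi3.div_const _), integral_const, integral_div]
      have h14 : ∫ x, (R x ^ 2 - Hd A c x) ^ 2 ∂P ≤ τ ^ 2 := (hRP P hPI).trans (min_le_right _ _)
      have h15 : (∫ x, (R x ^ 2 - Hd A c x) ^ 2 ∂P) / (2 * τ) ≤ τ / 2 := by
        rw [div_le_iff₀ (by positivity)]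
        nlinarith
      have h16 : P.real Set.univ = 1 := by
        simp
      rw [h16, one_smul]
      linarith
    have hτ1 : τ ≤ 1 := min_le_right _ _
    have hτ4 : τ ≤ ε / 4 := min_le_left _ _
    have h17 : |r2| ≤ C + 1 := by
      have h18 : r2 = (r2 - C) + C := by ring
      rw [h18]
      refine (abs_add_le _ _).trans ?_
      rw [abs_of_nonneg hC0]
      linarith
    have h19 : m2 * r2 - C * gV = (m2 - gV) * r2 + gV * (r2 - C) := by ring
    rw [h19]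
    refine (abs_add_le _ _).trans ?_
    rw [abs_mul, abs_mul, abs_of_nonneg hgV0]
    have h20 : |m2 - gV| * |r2| ≤ 2 * η₁ * (C + 1) :=
      mul_le_mul h5 h17 (abs_nonneg _) (by positivity)
    have h21 : gV * |r2 - C| ≤ 1 * τ := mul_le_mul hgV1 h6 (abs_nonneg _) (by norm_num)
    nlinarith
  · intro ι _ f hf
    obtain ⟨P, hP⟩ := st_exists (IN N) hINp
    obtain ⟨P', hP'⟩ := st_exists I hI
    have h3 := hN₉ N (by omega) f hf (fun q hq => ⟨hINp q hq, (hiz.2.2.1 q (hINIZ hq)).2⟩) hP hG2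
    have h4 := hN₁₀ N (by omega) f hf
      (fun q hq => ⟨hI q hq, (hiz.2.2.1 q (hIIZ hq)).2⟩) hP' hD
    have h5 := hN₁₁ N (by omega) f hf
    have h6 : ∫ x, ((p ^ 2).eval (Pn N x)) ^ 2 ∂P ≤ M4 := by
      have h7 : ∀ x, ((p ^ 2).eval (Pn N x)) ^ 2 = (p ^ 4).eval (Pn N x) := by
        intro x
        rw [Polynomial.eval_pow, Polynomial.eval_pow]
        ring
      simp_rw [h7]
      exact hp4 P hP
    have h8 : ∫ x, (R x ^ 2 - Hd A c x) ^ 2 ∂P' ≤ t * ε / 8 := (hRP P' hP').trans (min_le_left _ _)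
    have hterm : ∀ i, om (f i) * |(∑ m ∈ Finset.Icc 1 (KA ε₂ N), s m * Um m (la (f i))) ^ 2 -
          Hd A c (la (f i)) * iV V (Pn N (la (f i)))| ≤
        (t / 2) * (om (f i) * ((p ^ 2).eval (Pn N (la (f i)))) ^ 2) +
        (1 / (2 * t)) * (om (f i) * (R (la (f i)) ^ 2 - Hd A c (la (f i))) ^ 2) +
        om (f i) * (Hd A c (la (f i)) *
          |p.eval (Pn N (la (f i))) ^ 2 - iV V (Pn N (la (f i)))|) := by
      intro i
      have ho := sch_om (f i)
      rw [hSx]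
      set y := la (f i) with hy
      set a := p.eval (Pn N y) ^ 2 with ha
      set b := R y ^ 2 - Hd A c y with hb
      have hH0 : 0 ≤ Hd A c y := by
        unfold Hd
        exact Finset.sum_nonneg (fun k _ => mul_nonneg (hc k) (by positivity))
      have ha0 : 0 ≤ a := by
        rw [ha]
        positivity
      have h9 : (p.eval (Pn N y) * R y) ^ 2 - Hd A c y * iV V (Pn N y) =
          a * b + Hd A c y * (a - iV V (Pn N y)) := by
        rw [ha, hb]
        ring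
      have h10 : |(p.eval (Pn N y) * R y) ^ 2 - Hd A c y * iV V (Pn N y)| ≤
          a * |b| + Hd A c y * |a - iV V (Pn N y)| := by
        rw [h9]
        refine (abs_add_le _ _).trans ?_
        rw [abs_mul, abs_mul, abs_of_nonneg ha0, abs_of_nonneg hH0]
      have h11 : a * |b| ≤ (t / 2) * a ^ 2 + (1 / (2 * t)) * b ^ 2 := by
        have h12 : 0 ≤ (t * a - |b|) ^ 2 := sq_nonneg _
        have h13 : |b| ^ 2 = b ^ 2 := sq_abs b
        have h14 : (t / 2) * a ^ 2 + (1 / (2 * t)) * b ^ 2 = (t ^ 2 * a ^ 2 + b ^ 2) / (2 * t) := by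
          field_simp
        rw [h14, le_div_iff₀ (by positivity)]
        nlinarith
      have h15 : (p ^ 2).eval (Pn N y) = a := by
        rw [Polynomial.eval_pow]
      rw [h15]
      calc om (f i) * |(p.eval (Pn N y) * R y) ^ 2 - Hd A c y * iV V (Pn N y)| ≤
            om (f i) * (((t / 2) * a ^ 2 + (1 / (2 * t)) * b ^ 2) +
              Hd A c y * |a - iV V (Pn N y)|) :=
            mul_le_mul_of_nonneg_left (by linarith) ho
        _ = _ := by ring
    refine (Finset.sum_le_sum (fun i _ => hterm i)).trans ?_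
    rw [Finset.sum_add_distrib, Finset.sum_add_distrib, ← Finset.mul_sum, ← Finset.mul_sum]
    have h16 : (t / 2) * ∑ i, om (f i) * ((p ^ 2).eval (Pn N (la (f i)))) ^ 2 ≤ ε / 8 := by
      have h17 : ∑ i, om (f i) * ((p ^ 2).eval (Pn N (la (f i)))) ^ 2 ≤ 2 * M4 :=
        h3.trans (by linarith)
      calc (t / 2) * ∑ i, om (f i) * ((p ^ 2).eval (Pn N (la (f i)))) ^ 2 ≤
            (t / 2) * (2 * M4) := mul_le_mul_of_nonneg_left h17 (by positivity)
        _ = ε / 8 := by rw [← htM]; ring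
    have h18 : (1 / (2 * t)) * ∑ i, om (f i) * (R (la (f i)) ^ 2 - Hd A c (la (f i))) ^ 2 ≤
        ε / 8 := by
      have h19 : ∑ i, om (f i) * (R (la (f i)) ^ 2 - Hd A c (la (f i))) ^ 2 ≤ 2 * (t * ε / 8) :=
        h4.trans (by linarith)
      calc (1 / (2 * t)) * ∑ i, om (f i) * (R (la (f i)) ^ 2 - Hd A c (la (f i))) ^ 2 ≤
            (1 / (2 * t)) * (2 * (t * ε / 8)) := mul_le_mul_of_nonneg_left h19 (by positivity)
        _ = ε / 8 := by field_simp
    have h20 : C * (∫ x, |p.eval x ^ 2 - iV V x| ∂(gaussianReal 0 1)) ≤ ε / 8 := by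
      calc C * (∫ x, |p.eval x ^ 2 - iV V x| ∂(gaussianReal 0 1)) ≤ C * η₁ :=
            mul_le_mul_of_nonneg_left hp hC0
        _ ≤ η₁ * (C + 1) := by nlinarith
        _ = ε / 8 := hη₁C
    linarith

theorem s_choice : type_of% @s_choice_pr := @s_choice_pr

end Pool.Agent.KSL
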