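import Pool.Agent.Lib_helper68.KSL.Defs
import Pool.Agent.Lib_helper61.FG.P.AK

/-! KSL block AAB (helper57). -/

set_option autoImplicit false

namespace Pool.Agent.KSL

open Pool.Agent.FG61 (mu phi cc ff AA Lam)
open Finset Filter Topology

/-- the product in Rankin's method -/
noncomputable def aab_kp (σ : ℝ) (K : ℕ) : ℝ :=
  ∏ p ∈ K.primeFactors, (1 - (p : ℝ) ^ (-(1 - σ)))⁻¹

theorem aab_one (ε : ℝ) (hε : 0 < ε) : ∃ C : ℝ, 1 ≤ C ∧ ∀ σ : ℝ, 0 < σ → σ ≤ 1 / 2 →
    ∀ x : ℝ, 0 < x → |AA 1 x - 1| ≤ ε + C * x ^ (-σ) := by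
  have h := Pool.Agent.FG61.aa_lim
  rw [Metric.tendsto_atTop] at h
  obtain ⟨T0, hT0⟩ := h ε hε
  set T : ℝ := max T0 1 with hT
  have hT1 : 1 ≤ T := le_max_right _ _
  have hTT : T0 ≤ T := le_max_left _ _
  have hlogT : 0 ≤ Real.log T := Real.log_nonneg hT1
  have hA : 0 ≤ T * Real.log T := mul_nonneg (by linarith) hlogT
  have hTp : 1 ≤ T ^ (1 / 2 : ℝ) := Real.one_le_rpow hT1 (by norm_num)
  refine ⟨(T * Real.log T + 1) * T ^ (1 / 2 : ℝ), ?_, ?_⟩
  · nlinarith
  intro σ hσ hσ2 x hx
  have hxp : 0 < x ^ (-σ) := Real.rpow_pos_of_pos hx _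
  by_cases h1 : T ≤ x
  · have h2 := hT0 x (hTT.trans h1)
    rw [Real.dist_eq] at h2
    have : 0 ≤ (T * Real.log T + 1) * T ^ (1 / 2 : ℝ) * x ^ (-σ) := by positivity
    linarith
  · push Not at h1
    have h3 : 1 ≤ T ^ (1 / 2 : ℝ) * x ^ (-σ) := by
      rw [Real.rpow_neg hx.le, ← div_eq_mul_inv, one_le_div (Real.rpow_pos_of_pos hx _)]
      calc x ^ σ ≤ T ^ σ := Real.rpow_le_rpow hx.le h1.le hσ.le
        _ ≤ T ^ (1 / 2 : ℝ) := Real.rpow_le_rpow_of_exponent_le hT1 hσ2
    have h4 : |AA 1 x - 1| ≤ T * Real.log T + 1 := by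
      by_cases h5 : x < 1
      · rw [Pool.Agent.FG61.AK_zero 1 x h5]
        norm_num
        exact hA
      · push Not at h5
        have h6 := Pool.Agent.FG61.AK_crude x T h5 h1.le
        calc |AA 1 x - 1| ≤ |AA 1 x| + |(1 : ℝ)| := abs_sub _ _
          _ ≤ _ := by rw [abs_one]; linarith
    calc |AA 1 x - 1| ≤ (T * Real.log T + 1) * 1 := by linarith
      _ ≤ (T * Real.log T + 1) * (T ^ (1 / 2 : ℝ) * x ^ (-σ)) :=
          mul_le_mul_of_nonneg_left h3 (by linarith)
      _ ≤ ε + (T * Real.log T + 1) * T ^ (1 / 2 : ℝ) * x ^ (-σ) := by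
          rw [mul_assoc]; linarith

theorem aab_pt {σ : ℝ} (hσ2 : σ ≤ 1 / 2) {p : ℕ} (hp : p.Prime) :
    (p : ℝ) ^ (-(1 - σ)) < 1 :=
  Real.rpow_lt_one_of_one_lt_of_neg (by exact_mod_cast hp.one_lt) (by linarith)

theorem aab_kp_nonneg {σ : ℝ} (hσ2 : σ ≤ 1 / 2) (K : ℕ) : 0 ≤ aab_kp σ K := by
  unfold aab_kp
  refine Finset.prod_nonneg fun p hp => ?_
  have := aab_pt hσ2 (Nat.prime_of_mem_primeFactors hp)
  apply inv_nonneg.2; linarith

theorem aab_c_eq (K : ℕ) (hK : 1 ≤ K) :
    (K : ℝ) / phi K = ∏ p ∈ K.primeFactors, (1 - (p : ℝ)⁻¹)⁻¹ := by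
  have h2 := Nat.totient_eq_mul_prod_factors K
  have h3 : ((Nat.totient K : ℕ) : ℝ) = K * ∏ p ∈ K.primeFactors, (1 - (p : ℝ)⁻¹) := by
    have : (((Nat.totient K : ℕ) : ℚ) : ℝ) = ((K * ∏ p ∈ K.primeFactors, (1 - (p : ℚ)⁻¹) : ℚ) : ℝ) := by
      rw [h2]
    push_cast at this
    exact this
  unfold phi
  rw [h3, Finset.prod_inv_distrib]
  have hK0 : (K : ℝ) ≠ 0 := by positivity
  field_simp

theorem aab_c_le {σ : ℝ} (hσ : 0 < σ) (hσ2 : σ ≤ 1 / 2) (K : ℕ) (hK : 1 ≤ K) :
    (K : ℝ) / phi K ≤ aab_kp σ K := by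
  rw [aab_c_eq K hK]
  unfold aab_kp
  refine Finset.prod_le_prod ?_ ?_
  · intro p hp
    have h2 : (2 : ℝ) ≤ p := by exact_mod_cast (Nat.prime_of_mem_primeFactors hp).two_le
    have : (p : ℝ)⁻¹ ≤ 1 := inv_le_one_of_one_le₀ (by linarith)
    apply inv_nonneg.2; linarith
  · intro p hp
    have h2 : (2 : ℝ) ≤ p := by exact_mod_cast (Nat.prime_of_mem_primeFactors hp).two_le
    have h3 : (p : ℝ)⁻¹ ≤ (p : ℝ) ^ (-(1 - σ)) := by
      rw [← Real.rpow_neg_one]
      exact Real.rpow_le_rpow_of_exponent_le (by linarith) (by linarith)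
    have h4 := aab_pt hσ2 (Nat.prime_of_mem_primeFactors hp)
    exact inv_anti₀ (by linarith) (by linarith)

theorem aab_hc (K p : ℕ) (hK : 1 ≤ K) (hp : p.Prime) (hpK : ¬ p ∣ K) :
    ((p * K : ℕ) : ℝ) / phi (p * K) =
      (K : ℝ) / phi K + ((p * K : ℕ) : ℝ) / phi (p * K) / p := by
  have hp0 : (0 : ℝ) < p := by exact_mod_cast hp.pos
  have hp2 : (2 : ℝ) ≤ p := by exact_mod_cast hp.two_le
  have hphiK : (0 : ℝ) < phi K := by
    unfold phi; exact_mod_cast Nat.totient_pos.2 hK
  have hphi : phi (p * K) = (p - 1) * phi K := by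
    unfold phi
    rw [Nat.totient_mul_of_prime_of_not_dvd hp hpK]
    push_cast [Nat.cast_sub hp.one_le]
    ring
  rw [hphi]
  have : (p : ℝ) - 1 ≠ 0 := by linarith
  push_cast
  field_simp
  ring

/-- one more prime -/
theorem aab_step (ε C σ : ℝ) (hε : 0 < ε) (hC : 1 ≤ C) (hσ : 0 < σ) (hσ2 : σ ≤ 1 / 2)
    (K p : ℕ) (hK : 1 ≤ K) (hp : p.Prime) (hpK : ¬ p ∣ K)
    (h : ∀ x : ℝ, 0 < x → |AA K x - K / phi K| ≤ ε * (K / phi K) + C * aab_kp σ K * x ^ (-σ)) :
    ∀ n : ℕ, ∀ x : ℝ, 0 < x → x < 2 ^ n →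
      |AA (p * K) x - ((p * K : ℕ) : ℝ) / phi (p * K)| ≤
        ε * (((p * K : ℕ) : ℝ) / phi (p * K)) + C * aab_kp σ (p * K) * x ^ (-σ) := by
  have hp0 : (0 : ℝ) < p := by exact_mod_cast hp.pos
  have hp2 : (2 : ℝ) ≤ p := by exact_mod_cast hp.two_le
  have hc := aab_hc K p hK hp hpK
  have hcnn : 0 ≤ ((p * K : ℕ) : ℝ) / phi (p * K) := by
    unfold phi; positivity
  have hpt := aab_pt hσ2 hp
  have hkap : aab_kp σ (p * K) = aab_kp σ K + (p : ℝ) ^ (-(1 - σ)) * aab_kp σ (p * K) := by
    have h1 : aab_kp σ (p * K) = (1 - (p : ℝ) ^ (-(1 - σ)))⁻¹ * aab_kp σ K := by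
      unfold aab_kp
      have h2 : (p * K).primeFactors = insert p K.primeFactors := by
        rw [Nat.primeFactors_mul hp.ne_zero (by omega), hp.primeFactors]
        rfl
      rw [h2, Finset.prod_insert (by simp [Nat.mem_primeFactors, hpK])]
    have h3 : (1 - (p : ℝ) ^ (-(1 - σ))) ≠ 0 := by linarith
    have h4 : (1 - (p : ℝ) ^ (-(1 - σ))) * aab_kp σ (p * K) = aab_kp σ K := by
      rw [h1, ← mul_assoc, mul_inv_cancel₀ h3, one_mul]
    linarith
  have hkn := aab_kp_nonneg hσ2 (p * K)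
  intro n
  induction n with
  | zero =>
      intro x hx hx1
      rw [pow_zero] at hx1
      rw [Pool.Agent.FG61.AK_zero _ x hx1, zero_sub, abs_neg, abs_of_nonneg hcnn]
      have h1 := aab_c_le hσ hσ2 (p * K) (Nat.mul_pos hp.pos hK)
      have h2 : 1 ≤ x ^ (-σ) :=
        Real.one_le_rpow_of_pos_of_le_one_of_nonpos hx hx1.le (by linarith)
      have h3 : aab_kp σ (p * K) ≤ C * aab_kp σ (p * K) * x ^ (-σ) := by
        have h5 : 1 ≤ C * x ^ (-σ) := by nlinarith
        nlinarith
      have h4 : 0 ≤ ε * (((p * K : ℕ) : ℝ) / phi (p * K)) := mul_nonneg hε.le hcnn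
      linarith
  | succ n ih =>
      intro x hx hxn
      by_cases hx1 : x < 1
      · exact ih x hx (hx1.trans_le (one_le_pow₀ (by norm_num)))
      · push Not at hx1
        have hr := Pool.Agent.FG61.AK_rec K p hp hpK x hx
        have h1 := h x hx
        have h2 := ih (x / p) (by positivity) (by
          rw [div_lt_iff₀ hp0]
          have : (2 : ℝ) ^ (n + 1) = 2 ^ n * 2 := pow_succ _ _
          nlinarith [pow_pos (two_pos : (0 : ℝ) < 2) n])
        have e1 : AA (p * K) x - ((p * K : ℕ) : ℝ) / phi (p * K) =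
            (AA K x - K / phi K) +
              (1 / (p : ℝ)) * (AA (p * K) (x / p) - ((p * K : ℕ) : ℝ) / phi (p * K)) := by
          rw [hr]
          linear_combination (-1 : ℝ) * hc
        have h3 : |AA (p * K) x - ((p * K : ℕ) : ℝ) / phi (p * K)| ≤
            |AA K x - K / phi K| +
              (1 / (p : ℝ)) * |AA (p * K) (x / p) - ((p * K : ℕ) : ℝ) / phi (p * K)| := by
          rw [e1]
          refine (abs_add_le _ _).trans ?_
          rw [abs_mul, abs_of_nonneg (by positivity : (0 : ℝ) ≤ 1 / p)]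
        have e2 : (x / p) ^ (-σ) = x ^ (-σ) * (p : ℝ) ^ σ := by
          rw [Real.div_rpow hx.le hp0.le, Real.rpow_neg hp0.le σ, div_inv_eq_mul]
        have e3 : (1 / (p : ℝ)) * (p : ℝ) ^ σ = (p : ℝ) ^ (-(1 - σ)) := by
          rw [one_div, ← Real.rpow_neg_one, ← Real.rpow_add hp0]
          congr 1; ring
        have h4 : (1 / (p : ℝ)) * |AA (p * K) (x / p) - ((p * K : ℕ) : ℝ) / phi (p * K)| ≤
            ε * (((p * K : ℕ) : ℝ) / phi (p * K) / p) +
              C * ((p : ℝ) ^ (-(1 - σ)) * aab_kp σ (p * K)) * x ^ (-σ) := by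
          calc (1 / (p : ℝ)) * |AA (p * K) (x / p) - ((p * K : ℕ) : ℝ) / phi (p * K)|
              ≤ (1 / (p : ℝ)) * (ε * (((p * K : ℕ) : ℝ) / phi (p * K)) +
                  C * aab_kp σ (p * K) * (x / p) ^ (-σ)) :=
                mul_le_mul_of_nonneg_left h2 (by positivity)
            _ = ε * (((p * K : ℕ) : ℝ) / phi (p * K) / p) +
                C * (((1 / (p : ℝ)) * (p : ℝ) ^ σ) * aab_kp σ (p * K)) *
                  x ^ (-σ) := by rw [e2]; ring
            _ = _ := by rw [e3]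
        have e4 : ε * (((p * K : ℕ) : ℝ) / phi (p * K)) =
            ε * (K / phi K) + ε * (((p * K : ℕ) : ℝ) / phi (p * K) / p) := by
          rw [← mul_add, ← hc]
        have e5 : C * aab_kp σ (p * K) * x ^ (-σ) =
            C * aab_kp σ K * x ^ (-σ) +
              C * ((p : ℝ) ^ (-(1 - σ)) * aab_kp σ (p * K)) * x ^ (-σ) := by
          rw [← add_mul, ← mul_add, ← hkap]
        rw [e4, e5]
        linarith

theorem aab_dvd (p a : ℕ) (hpa : p ∣ a) (x : ℝ) : AA (p * a) x = AA a x := by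
  unfold Pool.Agent.FG61.AA
  refine Finset.sum_congr (Finset.filter_congr fun m _ => ?_) fun _ _ => rfl
  constructor
  · intro h; exact Nat.Coprime.coprime_mul_left_right h
  · intro h; exact Nat.Coprime.mul_right (Nat.Coprime.coprime_dvd_right hpa h) h

theorem aab_dvd2 (p a : ℕ) (hp : p.Prime) (hpa : p ∣ a) :
    ((p * a : ℕ) : ℝ) / phi (p * a) = a / phi a := by
  unfold phi
  rw [Nat.totient_mul_of_prime_of_dvd hp hpa]
  have hp0 : (0 : ℝ) < p := by exact_mod_cast hp.pos
  push_cast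
  rw [mul_div_mul_left _ _ hp0.ne']

theorem aab_dvd3 (p a : ℕ) (hp : p.Prime) (hpa : p ∣ a) (ha : 1 ≤ a) :
    (p * a).primeFactors = a.primeFactors := by
  rw [Nat.primeFactors_mul hp.ne_zero (by omega), hp.primeFactors]
  apply Finset.union_eq_right.2
  intro q hq
  rw [mem_singleton] at hq
  subst hq
  exact Nat.mem_primeFactors.2 ⟨hp, hpa, by omega⟩

/-- Rankin's method -/
theorem aa_rankin_pr {ε : ℝ} (hε : 0 < ε) : ∃ C : ℝ, 0 < C ∧ ∀ K : ℕ, 1 ≤ K → ∀ σ : ℝ, 0 < σ →
    σ ≤ 1 / 2 → ∀ x : ℝ, 0 < x → |AA K x - K / phi K| ≤ ε * (K / phi K) +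
      C * x ^ (-σ) * ∏ p ∈ K.primeFactors, (1 - (p : ℝ) ^ (-(1 - σ)))⁻¹ := by
  obtain ⟨C, hC, h1⟩ := aab_one ε hε
  refine ⟨C, by linarith, ?_⟩
  intro K hK σ hσ hσ2
  have key : ∀ K : ℕ, 1 ≤ K → ∀ x : ℝ, 0 < x →
      |AA K x - K / phi K| ≤ ε * (K / phi K) + C * aab_kp σ K * x ^ (-σ) := by
    intro K
    induction K using induction_on_primes with
    | zero => intro h; omega
    | one =>
        intro _ x hx
        have := h1 σ hσ hσ2 x hx
        simp only [Nat.cast_one, phi, Nat.totient_one, div_one, mul_one, aab_kp,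
          Nat.primeFactors_one, Finset.prod_empty]
        exact this
    | prime_mul p a hp ih =>
        intro hK x hx
        have ha : 1 ≤ a := by
          rcases Nat.eq_zero_or_pos a with h | h
          · subst h; simp at hK
          · exact h
        by_cases hpa : p ∣ a
        · have e3 : aab_kp σ (p * a) = aab_kp σ a := by
            unfold aab_kp
            rw [aab_dvd3 p a hp hpa ha]
          rw [aab_dvd p a hpa, aab_dvd2 p a hp hpa, e3]
          exact ih ha x hx
        · obtain ⟨n, hn⟩ := pow_unbounded_of_one_lt x (one_lt_two : (1 : ℝ) < 2)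
          exact aab_step ε C σ hε hC hσ hσ2 a p ha hp hpa (ih ha) n x hx hn
  intro x hx
  have := key K hK x hx
  unfold aab_kp at this
  calc |AA K x - K / phi K| ≤ _ := this
    _ = _ := by ring

theorem aa_bound_pr : ∃ C : ℝ, 0 < C ∧ ∀ K : ℕ, 1 ≤ K → ∀ x : ℝ,
    |AA K x| ≤ C * (K / phi K) := by
  obtain ⟨C, hC, h1⟩ := aab_one 1 one_pos
  refine ⟨C + 2, by linarith, ?_⟩
  have key : ∀ K : ℕ, 1 ≤ K → ∀ x : ℝ, |AA K x| ≤ (C + 2) * (K / phi K) := by
    intro K
    induction K using induction_on_primes with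
    | zero => intro h; omega
    | one =>
        intro _ x
        simp only [Nat.cast_one, phi, Nat.totient_one, div_one, mul_one]
        by_cases hx1 : x < 1
        · rw [Pool.Agent.FG61.AK_zero _ x hx1, abs_zero]; linarith
        · push Not at hx1
          have h2 := h1 (1 / 2) (by norm_num) le_rfl x (by linarith)
          have h3 : x ^ (-(1 / 2) : ℝ) ≤ 1 :=
            Real.rpow_le_one_of_one_le_of_nonpos hx1 (by norm_num)
          have h4 : |AA 1 x| ≤ |AA 1 x - 1| + |(1 : ℝ)| := by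
            have := abs_add_le (AA 1 x - 1) 1
            simpa using this
          rw [abs_one] at h4
          nlinarith
    | prime_mul p a hp ih =>
        intro hK
        have ha : 1 ≤ a := by
          rcases Nat.eq_zero_or_pos a with h | h
          · subst h; simp at hK
          · exact h
        by_cases hpa : p ∣ a
        · intro x
          rw [aab_dvd p a hpa, aab_dvd2 p a hp hpa]
          exact ih ha x
        · have hp0 : (0 : ℝ) < p := by exact_mod_cast hp.pos
          have hp2 : (2 : ℝ) ≤ p := by exact_mod_cast hp.two_le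
          have hc := aab_hc a p ha hp hpa
          have hcnn : 0 ≤ ((p * a : ℕ) : ℝ) / phi (p * a) := by
            unfold phi; positivity
          have step : ∀ n : ℕ, ∀ x : ℝ, x < 2 ^ n →
              |AA (p * a) x| ≤ (C + 2) * (((p * a : ℕ) : ℝ) / phi (p * a)) := by
            intro n
            induction n with
            | zero =>
                intro x hx1
                rw [pow_zero] at hx1
                rw [Pool.Agent.FG61.AK_zero _ x hx1, abs_zero]
                exact mul_nonneg (by linarith) hcnn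
            | succ n ihn =>
                intro x hxn
                by_cases hx1 : x < 1
                · exact ihn x (hx1.trans_le (one_le_pow₀ (by norm_num)))
                · push Not at hx1
                  have hr := Pool.Agent.FG61.AK_rec a p hp hpa x (by linarith)
                  have h2 := ih ha x
                  have h3 := ihn (x / p) (by
                    rw [div_lt_iff₀ hp0]
                    have : (2 : ℝ) ^ (n + 1) = 2 ^ n * 2 := pow_succ _ _
                    nlinarith [pow_pos (two_pos : (0 : ℝ) < 2) n])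
                  have e1 : AA (p * a) x = AA a x + (1 / (p : ℝ)) * AA (p * a) (x / p) := by
                    rw [hr]; ring
                  have h4 : |AA (p * a) x| ≤ |AA a x| + (1 / (p : ℝ)) * |AA (p * a) (x / p)| := by
                    rw [e1]
                    refine (abs_add_le _ _).trans ?_
                    rw [abs_mul, abs_of_nonneg (by positivity : (0 : ℝ) ≤ 1 / p)]
                  have h5 : (1 / (p : ℝ)) * |AA (p * a) (x / p)| ≤
                      (1 / (p : ℝ)) * ((C + 2) * (((p * a : ℕ) : ℝ) / phi (p * a))) :=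
                    mul_le_mul_of_nonneg_left h3 (by positivity)
                  have e4 : (C + 2) * (((p * a : ℕ) : ℝ) / phi (p * a)) =
                      (C + 2) * (a / phi a) +
                        (1 / (p : ℝ)) * ((C + 2) * (((p * a : ℕ) : ℝ) / phi (p * a))) := by
                    linear_combination (C + 2) * hc
                  rw [e4]
                  linarith
          intro x
          obtain ⟨n, hn⟩ := pow_unbounded_of_one_lt x (one_lt_two : (1 : ℝ) < 2)
          exact step n x hn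
  exact key

theorem aa_bound : type_of% @aa_bound_pr := @aa_bound_pr
theorem aa_rankin : type_of% @aa_rankin_pr := @aa_rankin_pr

end Pool.Agent.KSL
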