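import Pool.Agent.Lib_helper68.KSL.Defs
import Pool.Agent.Lib_helper68.LEV.MRT
import Pool.Agent.Lib_helper68.KSLF.AAB
import Pool.Agent.Lib_helper68.KSLF.SZF

/-! KSL block AAX (helper57). -/

set_option autoImplicit false

namespace Pool.Agent.KSL

open Pool.Agent.LEV Pool.Agent.LVB
open Pool.Agent.FG61 (mu phi cc ff AA Lam)

theorem aax_Pz_pos (z : ℕ) : 0 < Pz z :=
  Finset.prod_pos fun p hp => (Finset.mem_filter.1 hp).2.pos

theorem aax_Pz_primeFactors (z : ℕ) :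
    (Pz z).primeFactors = (Finset.Icc 1 z).filter Nat.Prime := by
  unfold Pz
  exact Nat.primeFactors_prod fun p hp => (Finset.mem_filter.1 hp).2

theorem aax_coprime {z r : ℕ} (h : rough z r) : r.Coprime (Pz z) := by
  rw [Nat.coprime_iff_gcd_eq_one, ← Nat.coprime_iff_gcd_eq_one]
  refine Nat.Coprime.prod_right fun p hp => ?_
  obtain ⟨h1, h2⟩ := Finset.mem_filter.1 hp
  rw [Nat.coprime_comm, h2.coprime_iff_not_dvd]
  intro h3
  have := h p h2 h3
  have := (Finset.mem_Icc.1 h1).2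
  omega

theorem aax_ratio (K : ℕ) (hK : 1 ≤ K) :
    (K : ℝ) / phi K = ∏ p ∈ K.primeFactors, (1 - 1 / (p : ℝ))⁻¹ := by
  have h2 := Nat.totient_eq_mul_prod_factors K
  have h3 : ((Nat.totient K : ℕ) : ℝ) = K * ∏ p ∈ K.primeFactors, (1 - 1 / (p : ℝ)) := by
    have : (((Nat.totient K : ℕ) : ℚ) : ℝ) = ((K * ∏ p ∈ K.primeFactors, (1 - (p : ℚ)⁻¹) : ℚ) : ℝ) := by
      rw [h2]
    push_cast at this
    simpa [one_div] using this
  unfold phi
  rw [h3, Finset.prod_inv_distrib]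
  have hK0 : (K : ℝ) ≠ 0 := by positivity
  field_simp

theorem aax_main {z r : ℕ} (hr : 1 ≤ r) (h : rough z r) :
    ((r * Pz z : ℕ) : ℝ) / phi (r * Pz z) = r / phi r / Vz z := by
  have hc := aax_coprime h
  rw [aax_ratio _ (Nat.mul_pos hr (aax_Pz_pos z)), hc.primeFactors_mul,
    Finset.prod_union hc.disjoint_primeFactors, aax_ratio r hr, aax_Pz_primeFactors]
  unfold Vz
  rw [Finset.prod_inv_distrib, Finset.prod_inv_distrib]
  rfl

theorem aax_factor {t : ℝ} (h0 : 0 ≤ t) (h1 : t ≤ 3 / 4) : (1 - t)⁻¹ ≤ Real.exp (4 * t) := by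
  have h2 : 1 - t ≤ 1 := by linarith
  have h3 : (0 : ℝ) < 1 - t := by linarith
  have h4 : (1 - t)⁻¹ ≤ 1 + 4 * t := by
    rw [inv_le_comm₀ h3 (by linarith), inv_eq_one_div, div_le_iff₀ (by linarith)]
    nlinarith
  have h5 := Real.add_one_le_exp (4 * t)
  linarith

theorem aax_t {σ : ℝ} (hσ2 : σ ≤ 1 / 2) {p : ℕ} (hp : 2 ≤ p) :
    (p : ℝ) ^ (-(1 - σ)) ≤ 3 / 4 := by
  have hp' : (2 : ℝ) ≤ p := by exact_mod_cast hp
  have h1 : (p : ℝ) ^ (-(1 - σ)) ≤ (p : ℝ) ^ (-(1 / 2) : ℝ) :=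
    Real.rpow_le_rpow_of_exponent_le (by linarith) (by linarith)
  have h2 : (p : ℝ) ^ (-(1 / 2) : ℝ) ≤ (2 : ℝ) ^ (-(1 / 2) : ℝ) :=
    Real.rpow_le_rpow_of_nonpos (by norm_num) hp' (by norm_num)
  have h3 : (2 : ℝ) ^ (-(1 / 2) : ℝ) ≤ 3 / 4 := by
    rw [Real.rpow_neg (by norm_num), ← Real.sqrt_eq_rpow]
    rw [inv_le_comm₀ (by positivity) (by norm_num)]
    apply Real.le_sqrt_of_sq_le
    norm_num
  linarith

/-- the small primes -/
theorem aax_small {C : ℝ} (hC : ∀ x : ℝ, 2 ≤ x →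
    |∑ p ∈ (Finset.Icc 1 ⌊x⌋₊).filter Nat.Prime, 1 / (p : ℝ) - Real.log (Real.log x)| ≤ C)
    {z : ℕ} (hz : 8 ≤ z) :
    ∏ p ∈ (Pz z).primeFactors, (1 - (p : ℝ) ^ (-(1 - 1 / Real.log z)))⁻¹ ≤
      Real.exp (12 * (Real.log (Real.log z) + C)) := by
  have hz' : (8 : ℝ) ≤ z := by exact_mod_cast hz
  have hlz : 2 ≤ Real.log z := by
    have h1 : Real.log 8 ≤ Real.log z := Real.log_le_log (by norm_num) hz'
    have h2 : Real.log 8 = 3 * Real.log 2 := by
      rw [show (8 : ℝ) = 2 ^ 3 by norm_num, Real.log_pow]; norm_num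
    have := Real.log_two_gt_d9
    linarith
  have hσ2 : 1 / Real.log z ≤ 1 / 2 := one_div_le_one_div_of_le (by norm_num) hlz
  rw [aax_Pz_primeFactors]
  have h1 : ∀ p ∈ (Finset.Icc 1 z).filter Nat.Prime, (1 - (p : ℝ) ^ (-(1 - 1 / Real.log z)))⁻¹ ≤
      Real.exp (12 * (1 / (p : ℝ))) := by
    intro p hp
    obtain ⟨h1, h2⟩ := Finset.mem_filter.1 hp
    have hp2 : (2 : ℝ) ≤ p := by exact_mod_cast h2.two_le
    have hpz : (p : ℝ) ≤ z := by exact_mod_cast (Finset.mem_Icc.1 h1).2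
    have h3 := aax_t hσ2 h2.two_le
    have h4 := aax_factor (Real.rpow_nonneg (by linarith : (0 : ℝ) ≤ p) _) h3
    have h5 : (p : ℝ) ^ (-(1 - 1 / Real.log z)) ≤ 3 * (1 / (p : ℝ)) := by
      rw [show -(1 - 1 / Real.log z) = 1 / Real.log z + (-1 : ℝ) by ring,
        Real.rpow_add (by linarith), Real.rpow_neg_one, one_div (p : ℝ)]
      apply mul_le_mul_of_nonneg_right _ (by positivity)
      calc (p : ℝ) ^ (1 / Real.log z) ≤ (z : ℝ) ^ (1 / Real.log z) :=
            Real.rpow_le_rpow (by linarith) hpz (by positivity)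
        _ = Real.exp 1 := by
            rw [Real.rpow_def_of_pos (by linarith)]
            congr 1
            field_simp
        _ ≤ 3 := Real.exp_one_lt_three.le
    refine h4.trans (Real.exp_le_exp.2 ?_)
    linarith
  calc _ ≤ ∏ p ∈ (Finset.Icc 1 z).filter Nat.Prime, Real.exp (12 * (1 / (p : ℝ))) := by
        refine Finset.prod_le_prod ?_ h1
        intro p hp
        have := aax_t hσ2 (Finset.mem_filter.1 hp).2.two_le
        apply inv_nonneg.2; linarith
    _ = Real.exp (12 * ∑ p ∈ (Finset.Icc 1 z).filter Nat.Prime, 1 / (p : ℝ)) := by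
        rw [← Real.exp_sum, Finset.mul_sum]
    _ ≤ _ := by
        apply Real.exp_le_exp.2
        have h2 := hC z (by linarith)
        rw [Nat.floor_natCast] at h2
        have := (abs_le.1 h2).2
        linarith

/-- the number of prime factors of a rough number -/
theorem aax_card {z r N : ℕ} (hz : 2 ≤ z) (hr : 1 ≤ r) (h : rough z r) (hN : r ≤ N) :
    (r.primeFactors.card : ℝ) * Real.log z ≤ Real.log N := by
  have hz' : (2 : ℝ) ≤ z := by exact_mod_cast hz
  have h1 : z ^ r.primeFactors.card ≤ r := by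
    calc z ^ r.primeFactors.card = ∏ p ∈ r.primeFactors, z := by
          rw [Finset.prod_const]
      _ ≤ ∏ p ∈ r.primeFactors, p := Finset.prod_le_prod' fun p hp =>
          (h p (Nat.prime_of_mem_primeFactors hp) (Nat.dvd_of_mem_primeFactors hp)).le
      _ ≤ r := Nat.le_of_dvd hr (Nat.prod_primeFactors_dvd r)
  have h2 : ((z : ℝ)) ^ r.primeFactors.card ≤ N := by exact_mod_cast h1.trans hN
  have h3 := Real.log_le_log (by positivity) h2
  rwa [Real.log_pow] at h3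

/-- the large primes -/
theorem aax_large {z r N : ℕ} (hz : 8 ≤ z) (hr : 1 ≤ r) (h : rough z r) (hN : r ≤ N) :
    ∏ p ∈ r.primeFactors, (1 - (p : ℝ) ^ (-(1 - 1 / Real.log z)))⁻¹ ≤
      Real.exp (4 * (Real.log N / Real.log z) * (z : ℝ) ^ (-(1 / 2) : ℝ)) := by
  have hz' : (8 : ℝ) ≤ z := by exact_mod_cast hz
  have hlz : 2 ≤ Real.log z := by
    have h1 : Real.log 8 ≤ Real.log z := Real.log_le_log (by norm_num) hz'
    have h2 : Real.log 8 = 3 * Real.log 2 := by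
      rw [show (8 : ℝ) = 2 ^ 3 by norm_num, Real.log_pow]; norm_num
    have := Real.log_two_gt_d9
    linarith
  have hσ2 : 1 / Real.log z ≤ 1 / 2 := one_div_le_one_div_of_le (by norm_num) hlz
  have h1 : ∀ p ∈ r.primeFactors, (1 - (p : ℝ) ^ (-(1 - 1 / Real.log z)))⁻¹ ≤
      Real.exp (4 * (z : ℝ) ^ (-(1 / 2) : ℝ)) := by
    intro p hp
    have h2 := Nat.prime_of_mem_primeFactors hp
    have hzp : (z : ℝ) ≤ p := by
      exact_mod_cast (h p h2 (Nat.dvd_of_mem_primeFactors hp)).le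
    have hp2 : (2 : ℝ) ≤ p := by exact_mod_cast h2.two_le
    have h3 := aax_t hσ2 h2.two_le
    have h4 := aax_factor (Real.rpow_nonneg (by linarith : (0 : ℝ) ≤ p) _) h3
    have h5 : (p : ℝ) ^ (-(1 - 1 / Real.log z)) ≤ (z : ℝ) ^ (-(1 / 2) : ℝ) := by
      calc (p : ℝ) ^ (-(1 - 1 / Real.log z)) ≤ (p : ℝ) ^ (-(1 / 2) : ℝ) :=
            Real.rpow_le_rpow_of_exponent_le (by linarith) (by linarith)
        _ ≤ _ := Real.rpow_le_rpow_of_nonpos (by linarith) hzp (by norm_num)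
    refine h4.trans (Real.exp_le_exp.2 ?_)
    linarith
  have hcard := aax_card (by omega : 2 ≤ z) hr h hN
  calc _ ≤ ∏ p ∈ r.primeFactors, Real.exp (4 * (z : ℝ) ^ (-(1 / 2) : ℝ)) := by
        refine Finset.prod_le_prod ?_ h1
        intro p hp
        have := aax_t hσ2 (Nat.prime_of_mem_primeFactors hp).two_le
        apply inv_nonneg.2; linarith
    _ = Real.exp (r.primeFactors.card * (4 * (z : ℝ) ^ (-(1 / 2) : ℝ))) := by
        rw [Finset.prod_const, ← Real.exp_nat_mul]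
    _ ≤ _ := by
        apply Real.exp_le_exp.2
        have h2 : (r.primeFactors.card : ℝ) ≤ Real.log N / Real.log z := by
          rw [le_div_iff₀ (by linarith)]; exact hcard
        have h3 : 0 ≤ 4 * (z : ℝ) ^ (-(1 / 2) : ℝ) := by positivity
        calc _ ≤ Real.log N / Real.log z * (4 * (z : ℝ) ^ (-(1 / 2) : ℝ)) :=
              mul_le_mul_of_nonneg_right h2 h3
          _ = _ := by ring

theorem aax_logsq {z : ℝ} (hz : 1 ≤ z) : Real.log z ^ 2 * z ^ (-(1 / 2) : ℝ) ≤ 16 := by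
  have hz0 : 0 < z := by linarith
  have h1 : Real.log z ≤ 4 * z ^ (1 / 4 : ℝ) := by
    have h2 := Real.log_le_sub_one_of_pos (Real.rpow_pos_of_pos hz0 (1 / 4 : ℝ))
    rw [Real.log_rpow hz0] at h2
    linarith
  have h2 : Real.log z ^ 2 ≤ 16 * z ^ (1 / 2 : ℝ) := by
    calc Real.log z ^ 2 ≤ (4 * z ^ (1 / 4 : ℝ)) ^ 2 :=
          pow_le_pow_left₀ (Real.log_nonneg hz) h1 2
      _ = 16 * (z ^ (1 / 4 : ℝ)) ^ 2 := by ring
      _ = 16 * z ^ (1 / 2 : ℝ) := by
          rw [← Real.rpow_natCast, ← Real.rpow_mul hz0.le]; norm_num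
  calc Real.log z ^ 2 * z ^ (-(1 / 2) : ℝ) ≤ 16 * z ^ (1 / 2 : ℝ) * z ^ (-(1 / 2) : ℝ) :=
        mul_le_mul_of_nonneg_right h2 (by positivity)
    _ = 16 := by
        rw [mul_assoc, ← Real.rpow_add hz0]; norm_num

/-- the truncated sums over rough numbers -/
theorem aa_rough_pr {ε ε' : ℝ} (hε : 0 < ε) (hε' : 0 < ε') : ∃ N₀ : ℕ, ∀ N : ℕ, N₀ ≤ N → ∀ r : ℕ,
    Squarefree r → rough (zz N) r → r ≤ N → ∀ x : ℝ, (N : ℝ) ^ ε' ≤ x →
      |AA (r * Pz (zz N)) x - r / phi r / Vz (zz N)| ≤ ε * (r / phi r / Vz (zz N)) := by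
  obtain ⟨C, hC0, hC⟩ := aa_rankin (ε := ε / 2) (by positivity)
  obtain ⟨D, hD⟩ := mertens_two
  set B : ℝ := C * Real.exp (12 * D + 128) with hB
  have hB0 : 0 < B := by positivity
  obtain ⟨ε₀, hε₀, h1, h2, h3⟩ : ∃ ε₀ : ℝ, 0 < ε₀ ∧ ε₀ ≤ 1 / 3 ∧ 13 * ε₀ ≤ ε' ∧ B * ε₀ ≤ ε / 2 := by
    refine ⟨min (1 / 3) (min (ε' / 13) (ε / 2 / B)), by positivity, min_le_left _ _, ?_, ?_⟩
    · have := (min_le_right (1 / 3 : ℝ) _).trans (min_le_left (ε' / 13) (ε / 2 / B))
      linarith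
    · have := (min_le_right (1 / 3 : ℝ) _).trans (min_le_right (ε' / 13) (ε / 2 / B))
      rw [le_div_iff₀ hB0] at this
      linarith
  obtain ⟨N₀, hN₀⟩ := sizes (δ := 1 / 8) (by norm_num) (by norm_num) hε₀
  refine ⟨N₀, fun N hN r hr hrough hrN x hx => ?_⟩
  obtain ⟨a1, a2, a3, a4, a5, a6, a7, a8, a9⟩ := hN₀ N hN
  have hr1 : 1 ≤ r := Nat.one_le_iff_ne_zero.2 hr.ne_zero
  have hN3 : (3 : ℝ) ≤ N := by exact_mod_cast a1
  have hinv : 3 ≤ 1 / ε₀ := by
    rw [le_div_iff₀ hε₀]; linarith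
  have hlz3 : 3 ≤ Real.log (zz N) := hinv.trans a5
  have hzpos : (0 : ℝ) < zz N := by
    have : (2 : ℝ) ≤ zz N := by exact_mod_cast a2
    linarith
  have hz8 : 8 ≤ zz N := by
    have h4 : Real.exp 3 ≤ zz N := by
      rw [← Real.le_log_iff_exp_le hzpos]; exact hlz3
    have h5 : (8 : ℝ) ≤ Real.exp 3 := by
      have h6 := Real.exp_one_gt_d9
      have h7 : Real.exp 3 = Real.exp 1 ^ 3 := by
        rw [← Real.exp_nat_mul]; norm_num
      rw [h7]
      calc (8 : ℝ) = 2 ^ 3 := by norm_num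
        _ ≤ _ := pow_le_pow_left₀ (by norm_num) (by linarith) 3
    exact_mod_cast h5.trans h4
  set L := Real.log (Real.log N) with hL
  set l := Real.log (zz N) with hl
  have hl0 : 0 < l := by linarith
  have hL3 : 1 / ε₀ ≤ L := a8
  have hL0 : 0 < L := by linarith
  have hlogN : 0 < Real.log N := Real.log_pos (by linarith)
  -- `l ≤ log N / L²`
  have hlz : l * L ^ 2 ≤ Real.log N := by
    have h4 : (zz N : ℝ) ≤ zN N := Nat.floor_le (Real.exp_pos _).le
    have h5 := Real.log_le_log hzpos h4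
    rw [zN, Real.log_exp, le_div_iff₀ (by positivity)] at h5
    exact h5
  have hσ : 0 < 1 / l := by positivity
  have hσ2 : 1 / l ≤ 1 / 2 := one_div_le_one_div_of_le (by norm_num) (by linarith)
  have hx0 : 0 < x := lt_of_lt_of_le (Real.rpow_pos_of_pos (by linarith) _) hx
  have hK1 : 1 ≤ r * Pz (zz N) := Nat.mul_pos hr1 (aax_Pz_pos _)
  have hmain := hC (r * Pz (zz N)) hK1 (1 / l) hσ hσ2 x hx0
  rw [aax_main hr1 hrough] at hmain
  have hge1 : 1 ≤ (r : ℝ) / phi r / Vz (zz N) := by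
    rw [← aax_main hr1 hrough]
    unfold phi
    rw [one_le_div (by exact_mod_cast Nat.totient_pos.2 hK1)]
    exact_mod_cast Nat.totient_le _
  -- the product
  have hprod : ∏ p ∈ (r * Pz (zz N)).primeFactors, (1 - (p : ℝ) ^ (-(1 - 1 / l)))⁻¹ ≤
      Real.exp (12 * L + 12 * D + 128) := by
    have hc := aax_coprime hrough
    rw [hc.primeFactors_mul, Finset.prod_union hc.disjoint_primeFactors]
    have h4 := aax_large hz8 hr1 hrough hrN
    have h5 := aax_small hD hz8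
    have h6 : 4 * (Real.log N / l) * (zz N : ℝ) ^ (-(1 / 2) : ℝ) ≤ 128 := by
      have h7 : Real.log N / l ≤ 2 * L ^ 2 := by
        rw [div_le_iff₀ hl0]; exact a6
      have h8 : L ≤ l := a9.trans (by nlinarith)
      have h9 : L ^ 2 ≤ l ^ 2 := pow_le_pow_left₀ hL0.le h8 2
      have h10 := aax_logsq (z := zz N) (by linarith [show (8 : ℝ) ≤ zz N by exact_mod_cast hz8])
      have h11 : (0 : ℝ) ≤ (zz N : ℝ) ^ (-(1 / 2) : ℝ) := by positivity
      calc 4 * (Real.log N / l) * (zz N : ℝ) ^ (-(1 / 2) : ℝ)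
          ≤ 8 * (l ^ 2 * (zz N : ℝ) ^ (-(1 / 2) : ℝ)) := by nlinarith
        _ ≤ 128 := by linarith
    have h7 : Real.log l ≤ L := by
      apply Real.log_le_log hl0
      have : 1 ≤ L ^ 2 := by nlinarith
      nlinarith
    calc _ ≤ Real.exp (4 * (Real.log N / l) * (zz N : ℝ) ^ (-(1 / 2) : ℝ)) *
          Real.exp (12 * (Real.log l + D)) := by
          refine mul_le_mul h4 h5 ?_ (Real.exp_pos _).le
          refine Finset.prod_nonneg fun p hp => ?_
          have := aax_t hσ2 (Nat.prime_of_mem_primeFactors hp).two_le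
          apply inv_nonneg.2; linarith
      _ ≤ _ := by
          rw [← Real.exp_add]
          apply Real.exp_le_exp.2
          linarith
  -- the power of `x`
  have hxs : x ^ (-(1 / l)) ≤ Real.exp (-(13 * L)) := by
    have h4 : x ^ (-(1 / l)) ≤ ((N : ℝ) ^ ε') ^ (-(1 / l)) :=
      Real.rpow_le_rpow_of_nonpos (Real.rpow_pos_of_pos (by linarith) _) hx (by linarith)
    refine h4.trans ?_
    rw [← Real.rpow_mul (by linarith), Real.rpow_def_of_pos (by linarith)]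
    apply Real.exp_le_exp.2
    have h5 : L ^ 2 ≤ Real.log N / l := by
      rw [le_div_iff₀ hl0]; linarith
    have h6 : 13 * L ≤ ε' * L ^ 2 := by
      have h7 : 1 ≤ ε₀ * L := by
        rw [div_le_iff₀ hε₀] at hL3; linarith
      have h8 : 13 * 1 ≤ ε' * L := by nlinarith
      nlinarith
    have h7 : ε' * L ^ 2 ≤ ε' * (Real.log N / l) := mul_le_mul_of_nonneg_left h5 hε'.le
    have h8 : Real.log N * (ε' * -(1 / l)) = -(ε' * (Real.log N / l)) := by ring
    rw [h8]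
    linarith
  have hfin : C * x ^ (-(1 / l)) * ∏ p ∈ (r * Pz (zz N)).primeFactors,
      (1 - (p : ℝ) ^ (-(1 - 1 / l)))⁻¹ ≤ ε / 2 := by
    calc _ ≤ C * Real.exp (-(13 * L)) * Real.exp (12 * L + 12 * D + 128) := by
          refine mul_le_mul (mul_le_mul_of_nonneg_left hxs hC0.le) hprod ?_ (by positivity)
          refine Finset.prod_nonneg fun p hp => ?_
          have := aax_t hσ2 (Nat.prime_of_mem_primeFactors hp).two_le
          apply inv_nonneg.2; linarith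
      _ = B * Real.exp (-L) := by
          rw [hB, mul_assoc, mul_assoc, ← Real.exp_add, ← Real.exp_add]
          congr 2; ring
      _ ≤ B * ε₀ := by
          apply mul_le_mul_of_nonneg_left _ hB0.le
          rw [Real.exp_neg, inv_le_comm₀ (Real.exp_pos _) hε₀, ← one_div]
          have := Real.add_one_le_exp L
          linarith
      _ ≤ ε / 2 := h3
  have : ε / 2 ≤ ε / 2 * (r / phi r / Vz (zz N)) := by nlinarith
  linarith

theorem aa_rough : type_of% @aa_rough_pr := @aa_rough_pr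

end Pool.Agent.KSL
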