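import Pool.Agent.Lib_helper68.KSL.Defs
import Pool.Agent.Lib_helper68.KSLF.AAB
import Pool.Agent.Lib_helper68.KSLF.AAX
import Pool.Agent.Lib_helper68.KSLF.BET
import Pool.Agent.Lib_helper68.KSLF.SZF

/-! KSL, block WRS: the weights of the rough denominators. -/

namespace Pool.Agent.KSL

open Pool.Agent.LEV Pool.Agent.LVB
open Pool.Agent.FG61 (mu phi cc ff AA Lam)
open Filter Topology

/-! ## elementary facts -/

theorem WRS_Pz_pos (z : ℕ) : 0 < Pz z := by
  unfold Pz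
  apply Finset.prod_pos
  intro p hp
  exact (Finset.mem_filter.1 hp).2.pos

theorem WRS_dvd_Pz {z p : ℕ} (hp : p.Prime) : p ∣ Pz z ↔ p ≤ z := by
  unfold Pz
  rw [Prime.dvd_finsetProd_iff hp.prime]
  constructor
  · rintro ⟨q, hq, hpq⟩
    rw [Finset.mem_filter, Finset.mem_Icc] at hq
    rw [(Nat.prime_dvd_prime_iff_eq hp hq.2).1 hpq]
    exact hq.1.2
  · intro h
    exact ⟨p, Finset.mem_filter.2 ⟨Finset.mem_Icc.2 ⟨hp.one_lt.le, h⟩, hp⟩, dvd_rfl⟩

theorem WRS_cop_Pz {z m : ℕ} : m.Coprime (Pz z) ↔ rough z m := by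
  constructor
  · intro h p hp hpm
    by_contra hz
    have h1 : p ∣ Pz z := (WRS_dvd_Pz hp).2 (not_lt.1 hz)
    exact hp.one_lt.ne' (Nat.eq_one_of_dvd_coprimes h hpm h1)
  · intro h
    rw [Nat.coprime_iff_gcd_eq_one]
    by_contra hne
    obtain ⟨p, hp, hpg⟩ := Nat.exists_prime_and_dvd hne
    have h1 := h p hp (hpg.trans (Nat.gcd_dvd_left _ _))
    have h2 := (WRS_dvd_Pz hp).1 (hpg.trans (Nat.gcd_dvd_right _ _))
    omega

theorem WRS_rough_mul {z r m : ℕ} (hr : rough z r) (hm : rough z m) : rough z (r * m) := by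
  intro p hp hpd
  rcases (hp.dvd_mul).1 hpd with h | h
  · exact hr p hp h
  · exact hm p hp h

theorem WRS_Vz_pos (z : ℕ) : 0 < Vz z := by
  unfold Vz
  apply Finset.prod_pos
  intro p hp
  have hp2 : 2 ≤ p := (Finset.mem_filter.1 hp).2.two_le
  have h2 : (2 : ℝ) ≤ p := by exact_mod_cast hp2
  have : 1 / (p : ℝ) ≤ 1 / 2 := one_div_le_one_div_of_le (by norm_num) h2
  linarith

theorem WRS_Vz_le (z : ℕ) : Vz z ≤ 1 := by
  unfold Vz
  apply Finset.prod_le_one
  · intro p hp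
    have hp2 : 2 ≤ p := (Finset.mem_filter.1 hp).2.two_le
    have h2 : (2 : ℝ) ≤ p := by exact_mod_cast hp2
    have : 1 / (p : ℝ) ≤ 1 / 2 := one_div_le_one_div_of_le (by norm_num) h2
    linarith
  · intro p hp
    have : (0 : ℝ) ≤ 1 / (p : ℝ) := by positivity
    linarith

theorem WRS_phi_Pz (z : ℕ) : phi (Pz z) = Pz z * Vz z := by
  have h : ∀ s : Finset ℕ, (∀ p ∈ s, p.Prime) →
      ((Nat.totient (∏ p ∈ s, p) : ℕ) : ℝ) = ((∏ p ∈ s, p : ℕ) : ℝ) *
        ∏ p ∈ s, (1 - 1 / (p : ℝ)) := by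
    classical
    intro s
    induction s using Finset.induction_on with
    | empty => intro _; simp
    | insert q s hq ih =>
      intro hs
      have hqp : q.Prime := hs q (Finset.mem_insert_self _ _)
      have ih' := ih fun p hp => hs p (Finset.mem_insert_of_mem hp)
      rw [Finset.prod_insert hq, Finset.prod_insert hq]
      have hc : Nat.Coprime q (∏ p ∈ s, p) := by
        apply Nat.Coprime.prod_right
        intro p hp
        have hpp := hs p (Finset.mem_insert_of_mem hp)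
        rw [Nat.coprime_primes hqp hpp]
        rintro rfl
        exact hq hp
      rw [Nat.totient_mul hc, Nat.totient_prime hqp]
      push_cast [Nat.cast_sub hqp.one_lt.le]
      rw [ih']
      have hq0 : (q : ℝ) ≠ 0 := by exact_mod_cast hqp.pos.ne'
      push_cast
      field_simp
  have h1 := h ((Finset.Icc 1 z).filter Nat.Prime) fun p hp => (Finset.mem_filter.1 hp).2
  exact h1

theorem WRS_phi_pos {n : ℕ} (hn : 1 ≤ n) : 0 < phi n := by
  have : 0 < Nat.totient n := Nat.totient_pos.2 hn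
  exact_mod_cast this

theorem WRS_phi_le (n : ℕ) : phi n ≤ n := by
  have : Nat.totient n ≤ n := Nat.totient_le n
  exact_mod_cast this

theorem WRS_mu_sq {n : ℕ} (hn : Squarefree n) : mu n * mu n = 1 := by
  have h := ArithmeticFunction.moebius_sq_eq_one_of_squarefree hn
  have h2 : ((ArithmeticFunction.moebius n : ℤ) : ℝ) ^ 2 = 1 := by exact_mod_cast h
  rw [← sq]
  exact h2

theorem WRS_mu_abs (n : ℕ) : |mu n| ≤ 1 := by
  have h := ArithmeticFunction.abs_moebius_le_one (n := n)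
  exact_mod_cast h

theorem WRS_mem_RO {z M r : ℕ} : r ∈ RO z M ↔ 1 ≤ r ∧ r ≤ M ∧ rough z r := by
  simp only [RO, Finset.mem_filter, Finset.mem_Icc, and_assoc]

theorem WRS_mem_PK {M p : ℕ} : p ∈ PK M 2 ↔ M < p ∧ p ≤ 2 * M ∧ p.Prime := by
  unfold PK
  rw [Finset.mem_filter, Finset.mem_Ioc, and_assoc]

theorem WRS_yE_nsq {z M K e : ℕ} (h : ¬ Squarefree e) : yE z M K e = 0 := by
  unfold yE
  have hmu : mu e = 0 := by
    show ((ArithmeticFunction.moebius e : ℤ) : ℝ) = 0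
    rw [ArithmeticFunction.moebius_eq_zero_of_not_squarefree h]
    simp
  rw [hmu]
  simp

theorem WRS_wr_nsq {z M K r : ℕ} (h : ¬ Squarefree r) : wr z M K r = 0 := by
  unfold wr
  apply Finset.sum_eq_zero
  intro m _
  apply WRS_yE_nsq
  intro h2
  exact h (h2.squarefree_of_dvd (Dvd.intro _ rfl))

theorem WRS_yE_big {z M e : ℕ} (h1 : M < e) (h2 : e ∉ PK M 2) : yE z M 2 e = 0 := by
  unfold yE gE
  rw [if_neg (not_le.2 h1), if_neg h2]
  simp

theorem WRS_yE_PK {z M p : ℕ} (hz : z ≤ M) (h : p ∈ PK M 2) :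
    yE z M 2 p = -(be z M 2 / (p * Real.log M)) := by
  obtain ⟨h1, h2, hp⟩ := WRS_mem_PK.1 h
  have hr : rough z p := by
    intro q hq hqp
    rw [(Nat.prime_dvd_prime_iff_eq hq hp).1 hqp]
    omega
  unfold yE gE
  rw [if_pos ⟨hr, hp.one_lt.le⟩, if_neg (not_le.2 h1), if_pos h]
  have hmu : mu p = -1 := by
    show ((ArithmeticFunction.moebius p : ℤ) : ℝ) = -1
    rw [ArithmeticFunction.moebius_apply_prime hp]
    simp
  rw [hmu]
  ring

/-- the terms with `r m ≤ M` -/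
theorem WRS_yE_small {z M r m : ℕ} (hr : rough z r) (hr1 : 1 ≤ r) (hm1 : 1 ≤ m)
    (h : r * m ≤ M) : yE z M 2 (r * m) =
      if m.Coprime (r * Pz z) then
        mu r / (r * Real.log M) * (mu m / m * Real.log ((M : ℝ) / r / m)) else 0 := by
  by_cases hc : m.Coprime (r * Pz z)
  · rw [if_pos hc]
    have hcr : m.Coprime r := Nat.Coprime.coprime_mul_right_right hc
    have hcz : m.Coprime (Pz z) := Nat.Coprime.coprime_mul_left_right hc
    have hrm : rough z (r * m) := WRS_rough_mul hr (WRS_cop_Pz.1 hcz)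
    unfold yE gE
    rw [if_pos ⟨hrm, Nat.mul_pos hr1 hm1⟩, if_pos h]
    have hmu : mu (r * m) = mu r * mu m := by
      show ((ArithmeticFunction.moebius (r * m) : ℤ) : ℝ) = _
      rw [ArithmeticFunction.isMultiplicative_moebius.map_mul_of_coprime hcr.symm]
      push_cast
      rfl
    rw [hmu]
    have hr0 : (r : ℝ) ≠ 0 := by exact_mod_cast (show r ≠ 0 by omega)
    have hm0 : (m : ℝ) ≠ 0 := by exact_mod_cast (show m ≠ 0 by omega)
    push_cast
    rw [div_div]
    by_cases hl : Real.log M = 0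
    · rw [hl]; simp
    field_simp
  · rw [if_neg hc]
    by_cases hcr : m.Coprime r
    · have hcz : ¬ m.Coprime (Pz z) := fun h2 => hc (Nat.Coprime.mul_right hcr h2)
      have hnr : ¬ rough z (r * m) := by
        intro h2
        apply hcz
        rw [WRS_cop_Pz]
        intro p hp hpm
        exact h2 p hp (hpm.mul_left r)
      unfold yE
      rw [if_neg (fun h2 => hnr h2.1)]
    · apply WRS_yE_nsq
      intro h2
      exact hcr (Nat.coprime_of_squarefree_mul h2).symm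

/-- the weights in closed form -/
theorem WRS_wr_eq {z M r : ℕ} (hz : z ≤ M) (hr : r ∈ RO z M) :
    wr z M 2 r = mu r / (r * Real.log M) * AA (r * Pz z) ((M : ℝ) / r) -
      if r = 1 then be z M 2 / Real.log M * ∑ p ∈ PK M 2, 1 / (p : ℝ) else 0 := by
  classical
  obtain ⟨hr1, hrM, hrr⟩ := WRS_mem_RO.1 hr
  unfold wr
  rw [← Finset.sum_filter_add_sum_filter_not _ (fun m => r * m ≤ M), sub_eq_add_neg]
  congr 1
  · have hset : (Finset.Icc 1 (2 * M)).filter (fun m => r * m ≤ M) = Finset.Icc 1 (M / r) := by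
      ext m
      rw [Finset.mem_filter, Finset.mem_Icc, Finset.mem_Icc, Nat.le_div_iff_mul_le (by omega)]
      constructor
      · rintro ⟨⟨h1, h2⟩, h3⟩
        exact ⟨h1, by rw [mul_comm]; exact h3⟩
      · rintro ⟨h1, h2⟩
        have h3 : r * m ≤ M := by rw [mul_comm]; exact h2
        have h4 : m ≤ r * m := Nat.le_mul_of_pos_left m (by omega)
        exact ⟨⟨h1, by omega⟩, h3⟩
    rw [hset]
    unfold AA
    have hfl : ⌊(M : ℝ) / r⌋₊ = M / r := Nat.floor_div_eq_div M r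
    rw [hfl, Finset.mul_sum, Finset.sum_filter]
    apply Finset.sum_congr rfl
    intro m hm
    rw [Finset.mem_Icc, Nat.le_div_iff_mul_le (by omega)] at hm
    exact WRS_yE_small hrr hr1 hm.1 (by rw [mul_comm]; exact hm.2)
  · by_cases h1 : r = 1
    · rw [if_pos h1]
      subst h1
      have hset : ∀ m ∈ (Finset.Icc 1 (2 * M)).filter (fun m => ¬ 1 * m ≤ M),
          m ∉ PK M 2 → yE z M 2 (1 * m) = 0 := by
        intro m hm hmP
        rw [Finset.mem_filter] at hm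
        rw [one_mul]
        exact WRS_yE_big (by omega) hmP
      have hsub : PK M 2 ⊆ (Finset.Icc 1 (2 * M)).filter (fun m => ¬ 1 * m ≤ M) := by
        intro p hp
        obtain ⟨h2, h3, h4⟩ := WRS_mem_PK.1 hp
        rw [Finset.mem_filter, Finset.mem_Icc]
        exact ⟨⟨h4.one_lt.le, h3⟩, by omega⟩
      rw [← Finset.sum_subset hsub hset, Finset.mul_sum, ← Finset.sum_neg_distrib]
      apply Finset.sum_congr rfl
      intro p hp
      rw [one_mul, WRS_yE_PK hz hp]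
      by_cases hl : Real.log M = 0
      · rw [hl]; simp
      have hp0 : (p : ℝ) ≠ 0 := by exact_mod_cast (WRS_mem_PK.1 hp).2.2.pos.ne'
      field_simp
    · rw [if_neg h1, neg_zero]
      apply Finset.sum_eq_zero
      intro m hm
      rw [Finset.mem_filter, Finset.mem_Icc] at hm
      apply WRS_yE_big (by omega)
      intro hP
      obtain ⟨h2, h3, h4⟩ := WRS_mem_PK.1 hP
      rcases (Nat.dvd_prime h4).1 (Dvd.intro m rfl) with h5 | h5
      · exact h1 h5
      · omega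

/-- the weights of the primes in `PK` -/
theorem WRS_wr_PK {z M r : ℕ} (hz : z ≤ M) (hM : 1 ≤ M) (hr : r ∈ PK M 2) :
    r * wr z M 2 r = -(be z M 2 / Real.log M) := by
  classical
  obtain ⟨h1, h2, h3⟩ := WRS_mem_PK.1 hr
  unfold wr
  rw [Finset.sum_eq_single 1]
  · rw [mul_one, WRS_yE_PK hz hr]
    by_cases hl : Real.log M = 0
    · rw [hl]; simp
    have hp0 : (r : ℝ) ≠ 0 := by exact_mod_cast h3.pos.ne'
    field_simp
  · intro m hm hm1
    rw [Finset.mem_Icc] at hm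
    have hm2 : 2 ≤ m := by omega
    have h4 : M < r * m := by nlinarith
    apply WRS_yE_big h4
    intro hP
    obtain ⟨_, _, h7⟩ := WRS_mem_PK.1 hP
    rcases (Nat.dvd_prime h7).1 (Dvd.intro m rfl) with h5 | h5
    · exact h3.one_lt.ne' h5
    · nlinarith
  · intro h
    exfalso
    apply h
    rw [Finset.mem_Icc]
    omega

/-- `φ(r) V_z / r` -/
theorem WRS_key {z M r : ℕ} (hz : z ≤ M) (hM : Real.log M ≠ 0) (hr : r ∈ RO z M)
    (hsq : Squarefree r) :
    phi r * Real.log M * Vz z * (mu r * wr z M 2 r) =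
      phi r * Vz z / r * AA (r * Pz z) ((M : ℝ) / r) -
        (if r = 1 then Vz z * be z M 2 * ∑ p ∈ PK M 2, 1 / (p : ℝ) else 0) := by
  rw [WRS_wr_eq hz hr]
  have hr1 := (WRS_mem_RO.1 hr).1
  have hr0 : (r : ℝ) ≠ 0 := by exact_mod_cast (show r ≠ 0 by omega)
  have h1 := WRS_mu_sq hsq
  by_cases hr2 : r = 1
  · subst hr2
    rw [if_pos rfl, if_pos rfl]
    have h2 : phi 1 = 1 := by
      show ((Nat.totient 1 : ℕ) : ℝ) = 1
      simp
    have h3 : mu 1 = 1 := by
      show ((ArithmeticFunction.moebius 1 : ℤ) : ℝ) = 1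
      simp
    rw [h2, h3]
    field_simp
  · rw [if_neg hr2, if_neg hr2, sub_zero, sub_zero]
    calc phi r * Real.log M * Vz z *
          (mu r * (mu r / (r * Real.log M) * AA (r * Pz z) ((M : ℝ) / r)))
        = (mu r * mu r) * (phi r * Vz z / r * AA (r * Pz z) ((M : ℝ) / r)) := by
          field_simp
      _ = _ := by rw [h1, one_mul]

/-- the term with `r = 1` is small -/
theorem WRS_one_small {V b L s ε : ℝ} (hV0 : 0 ≤ V) (hV : V ≤ 1) (hL : 0 < L)
    (hε : 0 ≤ ε) (hb : |b| ≤ ε * L) (hs0 : 0 ≤ s) (hs : s ≤ 2 / L) : |V * b * s| ≤ 2 * ε := by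
  rw [abs_mul, abs_mul, abs_of_nonneg hV0, abs_of_nonneg hs0]
  calc V * |b| * s ≤ 1 * (ε * L) * (2 / L) := by gcongr
    _ = 2 * ε := by field_simp

theorem wr_asymp_pr {δ : ℝ} (h0 : 0 < δ) (h1 : δ < 1 / 4) {ε : ℝ} (hε : 0 < ε) : ∃ N₀ : ℕ,
    ∀ N : ℕ, N₀ ≤ N → ∀ r ∈ RO (zz N) (MM δ N), Squarefree r →
      (r : ℝ) ≤ MM δ N * (N : ℝ) ^ (-ε) →
      |phi r * Real.log (MM δ N) * Vz (zz N) * (mu r * wr (zz N) (MM δ N) 2 r) - 1| ≤ ε := by
  obtain ⟨N₁, hN₁⟩ := sizes h0 h1 (ε := 1) one_pos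
  obtain ⟨N₂, hN₂⟩ := be_small h0 h1 (ε := ε / 4) (by positivity)
  obtain ⟨N₃, hN₃⟩ := aa_rough (ε := ε / 2) (ε' := ε) (by positivity) hε
  refine ⟨max N₁ (max N₂ N₃), fun N hN r hr hsq hrs => ?_⟩
  obtain ⟨a1, a2, a3, -, a5, -, -, -, -⟩ := hN₁ N ((le_max_left _ _).trans hN)
  obtain ⟨-, b2, b3⟩ := hN₂ N (((le_max_left _ _).trans (le_max_right _ _)).trans hN)
  have c1 := hN₃ N (((le_max_right _ _).trans (le_max_right _ _)).trans hN)
  obtain ⟨hr1, hrM, hrr⟩ := WRS_mem_RO.1 hr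
  have hM3 : 3 ≤ MM δ N := by omega
  have hL : 0 < Real.log (MM δ N) := Real.log_pos (by exact_mod_cast (show 1 < MM δ N by omega))
  have hMN : MM δ N ≤ N := by
    unfold MM
    apply Nat.floor_le_of_le
    have hN1 : (1 : ℝ) ≤ N := by exact_mod_cast (show 1 ≤ N by omega)
    calc (N : ℝ) ^ (1 / 2 - δ) ≤ (N : ℝ) ^ (1 : ℝ) :=
          Real.rpow_le_rpow_of_exponent_le hN1 (by linarith)
      _ = N := Real.rpow_one _
  rw [WRS_key a3.le hL.ne' hr hsq]
  have hr0 : (0 : ℝ) < r := by exact_mod_cast (show 0 < r by omega)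
  have hN0 : (0 : ℝ) < N := by exact_mod_cast (show 0 < N by omega)
  have hx : (N : ℝ) ^ ε ≤ (MM δ N : ℝ) / r := by
    rw [le_div_iff₀ hr0]
    calc (N : ℝ) ^ ε * r ≤ (N : ℝ) ^ ε * (MM δ N * (N : ℝ) ^ (-ε)) := by gcongr
      _ = MM δ N * ((N : ℝ) ^ ε * (N : ℝ) ^ (-ε)) := by ring
      _ = MM δ N := by rw [← Real.rpow_add hN0, add_neg_cancel, Real.rpow_zero, mul_one]
  have hAA := c1 r hsq hrr (hrM.trans hMN) _ hx
  have hphi : 0 < phi r := WRS_phi_pos hr1
  have hV := WRS_Vz_pos (zz N)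
  set x := AA (r * Pz (zz N)) ((MM δ N : ℝ) / r) with hxdef
  have hmain : |phi r * Vz (zz N) / r * x - 1| ≤ ε / 2 := by
    have e1 : phi r * Vz (zz N) / r * x - 1 =
        phi r * Vz (zz N) / r * (x - r / phi r / Vz (zz N)) := by
      field_simp
    rw [e1, abs_mul, abs_of_pos (by positivity)]
    calc phi r * Vz (zz N) / r * |x - r / phi r / Vz (zz N)| ≤
        phi r * Vz (zz N) / r * (ε / 2 * (r / phi r / Vz (zz N))) := by gcongr
      _ = ε / 2 := by field_simp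
  have hone : |(if r = 1 then Vz (zz N) * be (zz N) (MM δ N) 2 *
      ∑ p ∈ PK (MM δ N) 2, 1 / (p : ℝ) else 0 : ℝ)| ≤ ε / 2 := by
    split_ifs
    · have := WRS_one_small hV.le (WRS_Vz_le (zz N)) hL (by positivity) b2
        (Finset.sum_nonneg fun p _ => by positivity) b3
      linarith
    · rw [abs_zero]; positivity
  calc _ = |(phi r * Vz (zz N) / r * x - 1) - (if r = 1 then Vz (zz N) * be (zz N) (MM δ N) 2 *
      ∑ p ∈ PK (MM δ N) 2, 1 / (p : ℝ) else 0 : ℝ)| := by congr 1; ring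
    _ ≤ |phi r * Vz (zz N) / r * x - 1| + |(if r = 1 then Vz (zz N) * be (zz N) (MM δ N) 2 *
      ∑ p ∈ PK (MM δ N) 2, 1 / (p : ℝ) else 0 : ℝ)| := abs_sub _ _
    _ ≤ ε / 2 + ε / 2 := add_le_add hmain hone
    _ = ε := by ring

theorem wr_upper_pr : ∃ C : ℝ, 0 < C ∧ ∀ δ : ℝ, 0 < δ → δ < 1 / 4 → ∃ N₀ : ℕ, ∀ N : ℕ, N₀ ≤ N →
    (∀ r ∈ RO (zz N) (MM δ N),
      |phi r * Real.log (MM δ N) * Vz (zz N) * wr (zz N) (MM δ N) 2 r| ≤ C) ∧
    (∀ r ∈ PK (MM δ N) 2, |r * wr (zz N) (MM δ N) 2 r| ≤ 1) := by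
  obtain ⟨C₁, hC₁, hAA⟩ := aa_bound
  refine ⟨C₁ + 1, by positivity, fun δ h0 h1 => ?_⟩
  obtain ⟨N₁, hN₁⟩ := sizes h0 h1 (ε := 1) one_pos
  obtain ⟨N₂, hN₂⟩ := be_small h0 h1 (ε := 1 / 2) (by norm_num)
  refine ⟨max N₁ N₂, fun N hN => ?_⟩
  obtain ⟨a1, a2, a3, -, a5, -, -, -, -⟩ := hN₁ N ((le_max_left _ _).trans hN)
  obtain ⟨-, b2, b3⟩ := hN₂ N ((le_max_right _ _).trans hN)
  have hM3 : 3 ≤ MM δ N := by omega
  have hL : 0 < Real.log (MM δ N) := Real.log_pos (by exact_mod_cast (show 1 < MM δ N by omega))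
  have hV := WRS_Vz_pos (zz N)
  constructor
  · intro r hr
    obtain ⟨hr1, hrM, hrr⟩ := WRS_mem_RO.1 hr
    by_cases hsq : Squarefree r
    · have hkey := WRS_key a3.le hL.ne' hr hsq
      have hmu := WRS_mu_sq hsq
      have habs : |mu r| = 1 := by
        have h2 : |mu r| * |mu r| = 1 := by rw [← abs_mul, hmu, abs_one]
        nlinarith [abs_nonneg (mu r), WRS_mu_abs r]
      have e1 : |phi r * Real.log (MM δ N) * Vz (zz N) * wr (zz N) (MM δ N) 2 r| =
          |phi r * Real.log (MM δ N) * Vz (zz N) * (mu r * wr (zz N) (MM δ N) 2 r)| := by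
        rw [abs_mul _ (wr _ _ _ _), abs_mul _ (mu r * _), abs_mul (mu r), habs, one_mul]
      rw [e1, hkey]
      have hr0 : (0 : ℝ) < r := by exact_mod_cast (show 0 < r by omega)
      have hphi : 0 < phi r := WRS_phi_pos hr1
      have hcop : Nat.Coprime r (Pz (zz N)) := WRS_cop_Pz.2 hrr
      have hPz := WRS_Pz_pos (zz N)
      have hPz' : (0 : ℝ) < Pz (zz N) := by exact_mod_cast hPz
      have hphi2 : phi (r * Pz (zz N)) = phi r * (Pz (zz N) * Vz (zz N)) := by
        rw [← WRS_phi_Pz]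
        show ((Nat.totient (r * Pz (zz N)) : ℕ) : ℝ) = _
        rw [Nat.totient_mul hcop]
        push_cast
        rfl
      have hA := hAA (r * Pz (zz N)) (Nat.mul_pos hr1 hPz) ((MM δ N : ℝ) / r)
      rw [hphi2] at hA
      have hmain : |phi r * Vz (zz N) / r * AA (r * Pz (zz N)) ((MM δ N : ℝ) / r)| ≤ C₁ := by
        rw [abs_mul, abs_of_pos (by positivity)]
        calc phi r * Vz (zz N) / r * |AA (r * Pz (zz N)) ((MM δ N : ℝ) / r)| ≤
            phi r * Vz (zz N) / r * (C₁ * (((r * Pz (zz N) : ℕ) : ℝ) /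
              (phi r * (Pz (zz N) * Vz (zz N))))) := by gcongr
          _ = C₁ := by
            push_cast
            field_simp
      have hone : |(if r = 1 then Vz (zz N) * be (zz N) (MM δ N) 2 *
          ∑ p ∈ PK (MM δ N) 2, 1 / (p : ℝ) else 0 : ℝ)| ≤ 1 := by
        split_ifs
        · have := WRS_one_small hV.le (WRS_Vz_le (zz N)) hL (by norm_num) b2
            (Finset.sum_nonneg fun p _ => by positivity) b3
          linarith
        · rw [abs_zero]; norm_num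
      exact (abs_sub _ _).trans (add_le_add hmain hone)
    · rw [WRS_wr_nsq hsq, mul_zero, abs_zero]
      positivity
  · intro r hr
    rw [WRS_wr_PK a3.le (by omega) hr, abs_neg, abs_div, abs_of_pos hL, div_le_one hL]
    linarith

theorem wr_asymp : type_of% @wr_asymp_pr := @wr_asymp_pr
theorem wr_upper : type_of% @wr_upper_pr := @wr_upper_pr

end Pool.Agent.KSL
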