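import Pool.Agent.Lib_helper68.KSL.Defs
import Pool.Agent.Lib_helper68.KSLF.BET
import Pool.Agent.Lib_helper68.KSLF.PHI
import Pool.Agent.Lib_helper68.KSLF.RSA
import Pool.Agent.Lib_helper68.KSLF.RSB
import Pool.Agent.Lib_helper68.KSLF.SRO
import Pool.Agent.Lib_helper68.KSLF.SZF
import Pool.Agent.Lib_helper68.KSLF.WRS

/-! KSL, block GDL: the quadratic form `∑ φ(q) w_q²`. -/

namespace Pool.Agent.KSL

open Pool.Agent.LEV Pool.Agent.LVB
open Pool.Agent.FG61 (mu phi cc ff AA Lam)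
open Filter Topology

theorem GDL_Vz_pos (z : ℕ) : 0 < Vz z := by
  unfold Vz
  apply Finset.prod_pos
  intro p hp
  have hp2 : 2 ≤ p := (Finset.mem_filter.1 hp).2.two_le
  have h2 : (2 : ℝ) ≤ p := by exact_mod_cast hp2
  have : 1 / (p : ℝ) ≤ 1 / 2 := one_div_le_one_div_of_le (by norm_num) h2
  linarith

theorem GDL_Vz_le (z : ℕ) : Vz z ≤ 1 := by
  unfold Vz
  apply Finset.prod_le_one
  · intro p hp
    have hp2 : 2 ≤ p := (Finset.mem_filter.1 hp).2.two_le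
    have h2 : (2 : ℝ) ≤ p := by exact_mod_cast hp2
    have : 1 / (p : ℝ) ≤ 1 / 2 := one_div_le_one_div_of_le (by norm_num) h2
    linarith
  · intro p hp
    have : (0 : ℝ) ≤ 1 / (p : ℝ) := by positivity
    linarith

theorem GDL_phi_pos {n : ℕ} (hn : 1 ≤ n) : 0 < phi n := by
  have : 0 < Nat.totient n := Nat.totient_pos.2 hn
  exact_mod_cast this

theorem GDL_phi_nonneg (n : ℕ) : 0 ≤ phi n := Nat.cast_nonneg _

theorem GDL_phi_le (n : ℕ) : phi n ≤ n := by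
  have : Nat.totient n ≤ n := Nat.totient_le n
  exact_mod_cast this

theorem GDL_mu_sq {n : ℕ} (hn : Squarefree n) : mu n ^ 2 = 1 := by
  have h := ArithmeticFunction.moebius_sq_eq_one_of_squarefree hn
  have h2 : ((ArithmeticFunction.moebius n : ℤ) : ℝ) ^ 2 = 1 := by exact_mod_cast h
  exact h2

theorem GDL_mem_RO {z M r : ℕ} : r ∈ RO z M ↔ 1 ≤ r ∧ r ≤ M ∧ rough z r := by
  simp only [RO, Finset.mem_filter, Finset.mem_Icc, and_assoc]

theorem GDL_mem_PK {M p : ℕ} : p ∈ PK M 2 ↔ M < p ∧ p ≤ 2 * M ∧ p.Prime := by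
  unfold PK
  rw [Finset.mem_filter, Finset.mem_Ioc, and_assoc]

theorem GDL_cn_nonneg (z A : ℕ) (a : ℕ → ℝ) : 0 ≤ cn z A a := by
  unfold cn
  apply tsum_nonneg
  intro m
  split_ifs <;> positivity

theorem GDL_coprime {z u r : ℕ} (hu : smooth z u) (hr : rough z r) : Nat.Coprime u r := by
  rw [Nat.coprime_iff_gcd_eq_one]
  by_contra hne
  obtain ⟨p, hp, hpg⟩ := Nat.exists_prime_and_dvd hne
  have h1 := hu.2 p hp (hpg.trans (Nat.gcd_dvd_left _ _))
  have h2 := hr p hp (hpg.trans (Nat.gcd_dvd_right _ _))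
  omega

/-- the quadratic form splits -/
theorem GDL_split {z M A : ℕ} {a : ℕ → ℝ} (ha : ∀ k, a k ≠ 0 → smooth z k ∧ k ≤ A)
    (S : ℕ → Prop) [DecidablePred S] :
    ∑ q ∈ Finset.Icc 1 (QA M 2 A), (if S q then phi q * wA z M 2 A a q ^ 2 else 0) =
      ∑ u ∈ Finset.Icc 1 A, ∑ r ∈ Finset.Icc 1 (2 * M),
        (if S (u * r) then (phi u * al A a u ^ 2) * (phi r * wr z M 2 r ^ 2) else 0) := by
  have h := wa_sum (z := z) (M := M) (K := 2) (A := A) ha
    (fun q => ((if S q then phi q * wA z M 2 A a q else 0 : ℝ) : ℂ))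
  have h2 : ((∑ q ∈ Finset.Icc 1 (QA M 2 A),
      wA z M 2 A a q * (if S q then phi q * wA z M 2 A a q else 0) : ℝ) : ℂ) =
      ((∑ u ∈ Finset.Icc 1 A, ∑ r ∈ Finset.Icc 1 (2 * M), al A a u * wr z M 2 r *
        (if S (u * r) then phi (u * r) * wA z M 2 A a (u * r) else 0) : ℝ) : ℂ) := by
    push_cast
    exact h
  have h3 := Complex.ofReal_injective h2
  have h4 : ∑ q ∈ Finset.Icc 1 (QA M 2 A), (if S q then phi q * wA z M 2 A a q ^ 2 else 0) =
      ∑ q ∈ Finset.Icc 1 (QA M 2 A),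
        wA z M 2 A a q * (if S q then phi q * wA z M 2 A a q else 0) := by
    apply Finset.sum_congr rfl
    intro q _
    split_ifs
    · ring
    · rw [mul_zero]
  rw [h4, h3]
  apply Finset.sum_congr rfl
  intro u _
  apply Finset.sum_congr rfl
  intro r _
  by_cases hS : S (u * r)
  · rw [if_pos hS, if_pos hS]
    by_cases hu : al A a u = 0
    · rw [hu]; ring
    by_cases hr : wr z M 2 r = 0
    · rw [hr]; ring
    obtain ⟨hus, -⟩ := al_supp ha hu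
    obtain ⟨hrr, hr1, -, -⟩ := wr_supp hr
    obtain ⟨e1, e2⟩ := smp_mul hus hrr hr1
    have e3 : wA z M 2 A a (u * r) = al A a u * wr z M 2 r := by
      unfold wA
      rw [e1, e2]
    have e4 : phi (u * r) = phi u * phi r := by
      show ((Nat.totient (u * r) : ℕ) : ℝ) = _
      rw [Nat.totient_mul (GDL_coprime hus hrr)]
      push_cast
      rfl
    rw [e3, e4]
    ring
  · rw [if_neg hS, if_neg hS, mul_zero]

/-- inner sum from below -/
theorem GDL_inner_low {z M : ℕ} {V L κ : ℝ} (hV : V = Vz z) (hL : 0 < L) (hκ : 0 ≤ κ)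
    {x : ℝ} (hx : 1 ≤ x) (hxM : x ≤ 2 * M)
    (h : ∀ r ∈ RO z ⌊x⌋₊, Squarefree r → κ ≤ phi r * L * V * (mu r * wr z M 2 r)) :
    κ ^ 2 / (L ^ 2 * V) * Real.log x ≤
      ∑ r ∈ (Finset.Icc 1 (2 * M)).filter (fun r : ℕ => (r : ℝ) ≤ x), phi r * wr z M 2 r ^ 2 := by
  have hVp : 0 < V := by rw [hV]; exact GDL_Vz_pos z
  have hfl : 1 ≤ ⌊x⌋₊ := Nat.le_floor (by rw [Nat.cast_one]; exact hx)
  have h1 := rsum_low (z := z) hfl
  have h2 : Real.log x ≤ Real.log ((⌊x⌋₊ : ℝ) + 1) :=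
    Real.log_le_log (by linarith) (Nat.lt_floor_add_one x).le
  have hsub : RO z ⌊x⌋₊ ⊆ (Finset.Icc 1 (2 * M)).filter (fun r : ℕ => (r : ℝ) ≤ x) := by
    intro r hr
    obtain ⟨hr1, hrx, -⟩ := GDL_mem_RO.1 hr
    have hrx' : (r : ℝ) ≤ x := (Nat.le_floor_iff (by linarith)).1 hrx
    rw [Finset.mem_filter, Finset.mem_Icc]
    refine ⟨⟨hr1, ?_⟩, hrx'⟩
    have : (r : ℝ) ≤ ((2 * M : ℕ) : ℝ) := by push_cast; linarith
    exact_mod_cast this
  have h3 : ∑ r ∈ RO z ⌊x⌋₊, phi r * wr z M 2 r ^ 2 ≤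
      ∑ r ∈ (Finset.Icc 1 (2 * M)).filter (fun r : ℕ => (r : ℝ) ≤ x), phi r * wr z M 2 r ^ 2 :=
    Finset.sum_le_sum_of_subset_of_nonneg hsub
      fun r _ _ => mul_nonneg (GDL_phi_nonneg r) (sq_nonneg _)
  have h4 : ∑ r ∈ RO z ⌊x⌋₊, κ ^ 2 / (L ^ 2 * V ^ 2) * (mu r ^ 2 / phi r) ≤
      ∑ r ∈ RO z ⌊x⌋₊, phi r * wr z M 2 r ^ 2 := by
    apply Finset.sum_le_sum
    intro r hr
    by_cases hsq : Squarefree r
    · have hr1 := (GDL_mem_RO.1 hr).1
      have hphi := GDL_phi_pos hr1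
      have hk := h r hr hsq
      have hmu := GDL_mu_sq hsq
      have e1 : κ ^ 2 ≤ (phi r * L * V * (mu r * wr z M 2 r)) ^ 2 :=
        pow_le_pow_left₀ hκ hk 2
      have e2 : (phi r * L * V * (mu r * wr z M 2 r)) ^ 2 =
          mu r ^ 2 * (phi r ^ 2 * L ^ 2 * V ^ 2 * wr z M 2 r ^ 2) := by ring
      rw [e2, hmu, one_mul] at e1
      rw [hmu]
      rw [div_mul_div_comm, mul_one, div_le_iff₀ (by positivity)]
      calc κ ^ 2 ≤ phi r ^ 2 * L ^ 2 * V ^ 2 * wr z M 2 r ^ 2 := e1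
        _ = phi r * wr z M 2 r ^ 2 * (L ^ 2 * V ^ 2 * phi r) := by ring
    · have hmu : mu r = 0 := by
        show ((ArithmeticFunction.moebius r : ℤ) : ℝ) = 0
        rw [ArithmeticFunction.moebius_eq_zero_of_not_squarefree hsq]
        simp
      rw [hmu]
      have : 0 ≤ phi r * wr z M 2 r ^ 2 := mul_nonneg (GDL_phi_nonneg r) (sq_nonneg _)
      simpa using this
  rw [← Finset.mul_sum] at h4
  calc κ ^ 2 / (L ^ 2 * V) * Real.log x
      = κ ^ 2 / (L ^ 2 * V ^ 2) * (V * Real.log x) := by field_simp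
    _ ≤ κ ^ 2 / (L ^ 2 * V ^ 2) * (Vz z * Real.log ((⌊x⌋₊ : ℝ) + 1)) := by
        rw [← hV]
        gcongr
    _ ≤ κ ^ 2 / (L ^ 2 * V ^ 2) * ∑ r ∈ RO z ⌊x⌋₊, mu r ^ 2 / phi r := by gcongr
    _ ≤ _ := h4.trans h3

theorem gd_lower_pr {δ : ℝ} (h0 : 0 < δ) (h1 : δ < 1 / 4) {ε : ℝ} (hε : 0 < ε) : ∃ N₀ : ℕ,
    ∀ N : ℕ, N₀ ≤ N → ∀ (A : ℕ), 1 ≤ A → ∀ a : ℕ → ℝ, (∀ k, a k ≠ 0 → smooth (zz N) k ∧ k ≤ A) →
      ∀ D : ℝ, 1 ≤ D → D ≤ MM δ N * (N : ℝ) ^ (-ε) →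
      cn (zz N) A a * ((1 - ε) * Real.log D - Real.log A) / Real.log (MM δ N) ^ 2 ≤
        GD (wA (zz N) (MM δ N) 2 A a) D := by
  obtain ⟨N₁, hN₁⟩ := sizes h0 h1 (ε := 1) one_pos
  have hε1 : 0 < min (ε / 2) 1 := by positivity
  obtain ⟨N₂, hN₂⟩ := wr_asymp h0 h1 (ε := min (ε / 2) (min ε 1)) (by positivity)
  refine ⟨max N₁ N₂, fun N hN A hA a ha D hD hDM => ?_⟩
  obtain ⟨a1, a2, a3, -, a5, -, -, -, -⟩ := hN₁ N ((le_max_left _ _).trans hN)
  have b1 := hN₂ N ((le_max_right _ _).trans hN)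
  have hM3 : 3 ≤ MM δ N := by omega
  have hL : 0 < Real.log (MM δ N) := Real.log_pos (by exact_mod_cast (show 1 < MM δ N by omega))
  have hN1 : (1 : ℝ) ≤ N := by exact_mod_cast (show 1 ≤ N by omega)
  have hM0 : (0 : ℝ) < MM δ N := by exact_mod_cast (show 0 < MM δ N by omega)
  have hcn := GDL_cn_nonneg (zz N) A a
  have hVp := GDL_Vz_pos (zz N)
  -- `GD` is nonnegative
  have hGD0 : 0 ≤ GD (wA (zz N) (MM δ N) 2 A a) D := by
    unfold GD
    exact Finset.sum_nonneg fun q _ => mul_nonneg (GDL_phi_nonneg q) (sq_nonneg _)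
  by_cases hneg : (1 - ε) * Real.log D - Real.log A ≤ 0
  · refine le_trans ?_ hGD0
    apply div_nonpos_of_nonpos_of_nonneg
    · exact mul_nonpos_of_nonneg_of_nonpos hcn hneg
    · positivity
  push Not at hneg
  have hlogD : 0 ≤ Real.log D := Real.log_nonneg hD
  have hA1 : (1 : ℝ) ≤ A := by exact_mod_cast hA
  have hlogA : 0 ≤ Real.log A := Real.log_nonneg hA1
  have hAD : Real.log A < Real.log D := by nlinarith
  have hAD' : (A : ℝ) < D := (Real.log_lt_log_iff (by linarith) (by linarith)).1 hAD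
  set ε₁ : ℝ := min (ε / 2) (min ε 1) with hε₁
  have hε₁a : ε₁ ≤ ε / 2 := min_le_left _ _
  have hε₁b : ε₁ ≤ ε := (min_le_right _ _).trans (min_le_left _ _)
  have hε₁c : ε₁ ≤ 1 := (min_le_right _ _).trans (min_le_right _ _)
  have hε₁0 : 0 < ε₁ := by positivity
  -- the size of `D`
  have hDM2 : D ≤ MM δ N := by
    refine hDM.trans ?_
    have : (N : ℝ) ^ (-ε) ≤ 1 := Real.rpow_le_one_of_one_le_of_nonpos hN1 (by linarith)
    calc (MM δ N : ℝ) * (N : ℝ) ^ (-ε) ≤ MM δ N * 1 := by gcongr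
      _ = MM δ N := mul_one _
  have hDM3 : D ≤ MM δ N * (N : ℝ) ^ (-ε₁) := by
    refine hDM.trans ?_
    have : (N : ℝ) ^ (-ε) ≤ (N : ℝ) ^ (-ε₁) :=
      Real.rpow_le_rpow_of_exponent_le hN1 (by linarith)
    gcongr
  have hQ : ⌊D⌋₊ ≤ QA (MM δ N) 2 A := by
    have h2 : ⌊D⌋₊ ≤ MM δ N := Nat.floor_le_of_le hDM2
    unfold QA
    nlinarith
  -- the splitting
  have hGD : GD (wA (zz N) (MM δ N) 2 A a) D = ∑ q ∈ Finset.Icc 1 (QA (MM δ N) 2 A),
      (if q ≤ ⌊D⌋₊ then phi q * wA (zz N) (MM δ N) 2 A a q ^ 2 else 0) := by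
    unfold GD
    rw [← Finset.sum_filter]
    apply Finset.sum_congr _ fun _ _ => rfl
    ext q
    rw [Finset.mem_filter, Finset.mem_Icc, Finset.mem_Icc]
    omega
  rw [hGD, GDL_split ha]
  have hinner : ∀ u ∈ Finset.Icc 1 A, (1 - ε₁) ^ 2 / (Real.log (MM δ N) ^ 2 * Vz (zz N)) *
      (Real.log D - Real.log A) * (phi u * al A a u ^ 2) ≤
      ∑ r ∈ Finset.Icc 1 (2 * MM δ N), (if u * r ≤ ⌊D⌋₊ then
        (phi u * al A a u ^ 2) * (phi r * wr (zz N) (MM δ N) 2 r ^ 2) else 0) := by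
    intro u hu
    rw [Finset.mem_Icc] at hu
    have hu1 : (1 : ℝ) ≤ u := by exact_mod_cast hu.1
    have hu0 : (0 : ℝ) < u := by linarith
    have huA : (u : ℝ) ≤ A := by exact_mod_cast hu.2
    have hx1 : 1 ≤ D / u := by
      rw [le_div_iff₀ hu0]
      linarith
    have hxD : D / u ≤ D := div_le_self (by linarith) hu1
    have hlow := GDL_inner_low (z := zz N) (M := MM δ N) rfl hL (κ := 1 - ε₁) (by linarith)
      hx1 (by linarith) (by
        intro r hr hsq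
        obtain ⟨hr1, hrx, hrr⟩ := GDL_mem_RO.1 hr
        have hrx' : (r : ℝ) ≤ D / u := (Nat.le_floor_iff (by linarith)).1 hrx
        have hrM : r ≤ MM δ N := by
          have : (r : ℝ) ≤ MM δ N := by linarith
          exact_mod_cast this
        have := b1 r (GDL_mem_RO.2 ⟨hr1, hrM, hrr⟩) hsq (by linarith)
        rw [abs_le] at this
        linarith [this.1])
    have e1 : ∑ r ∈ Finset.Icc 1 (2 * MM δ N), (if u * r ≤ ⌊D⌋₊ then
        (phi u * al A a u ^ 2) * (phi r * wr (zz N) (MM δ N) 2 r ^ 2) else 0) =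
        (phi u * al A a u ^ 2) * ∑ r ∈ (Finset.Icc 1 (2 * MM δ N)).filter
          (fun r : ℕ => (r : ℝ) ≤ D / u), phi r * wr (zz N) (MM δ N) 2 r ^ 2 := by
      rw [Finset.mul_sum, Finset.sum_filter]
      apply Finset.sum_congr rfl
      intro r _
      have hiff : u * r ≤ ⌊D⌋₊ ↔ (r : ℝ) ≤ D / u := by
        rw [Nat.le_floor_iff (by linarith), le_div_iff₀ hu0]
        push_cast
        rw [mul_comm]
      by_cases hc : (r : ℝ) ≤ D / u
      · rw [if_pos (hiff.2 hc), if_pos hc]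
      · rw [if_neg (fun h => hc (hiff.1 h)), if_neg hc]
    rw [e1, mul_comm]
    apply mul_le_mul_of_nonneg_left _ (mul_nonneg (GDL_phi_nonneg u) (sq_nonneg _))
    refine le_trans ?_ hlow
    have e2 : Real.log D - Real.log A ≤ Real.log (D / u) := by
      rw [Real.log_div (by linarith) hu0.ne']
      have := Real.log_le_log hu0 huA
      linarith
    gcongr
  refine le_trans ?_ (Finset.sum_le_sum hinner)
  rw [← Finset.mul_sum, (phi_al ha).2]
  have e3 : (1 - ε₁) ^ 2 / (Real.log (MM δ N) ^ 2 * Vz (zz N)) *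
      (Real.log D - Real.log A) * (Vz (zz N) * cn (zz N) A a) =
      cn (zz N) A a * ((1 - ε₁) ^ 2 * (Real.log D - Real.log A)) / Real.log (MM δ N) ^ 2 := by
    field_simp
  rw [e3]
  have e4 : (1 - ε) * Real.log D - Real.log A ≤ (1 - ε₁) ^ 2 * (Real.log D - Real.log A) := by
    have e5 : 1 - ε ≤ (1 - ε₁) ^ 2 := by nlinarith
    have e6 : (1 - ε₁) ^ 2 ≤ 1 := by nlinarith
    nlinarith
  gcongr

theorem gd_upper_pr : ∃ C : ℝ, 0 < C ∧ ∀ δ : ℝ, 0 < δ → δ < 1 / 4 → ∃ N₀ : ℕ, ∀ N : ℕ, N₀ ≤ N →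
    ∀ (A : ℕ) (a : ℕ → ℝ), (∀ k, a k ≠ 0 → smooth (zz N) k ∧ k ≤ A) →
      ∑ q ∈ Finset.Icc 1 (QA (MM δ N) 2 A), phi q * wA (zz N) (MM δ N) 2 A a q ^ 2 ≤
        C * cn (zz N) A a / Real.log (MM δ N) := by
  classical
  obtain ⟨C₁, hC₁, hwr⟩ := wr_upper
  obtain ⟨C₂, hC₂, hrs⟩ := rsum_up
  obtain ⟨c, C₃, hc, hC₃, hvz⟩ := vz_bounds
  refine ⟨2 * C₁ ^ 2 * C₂ / c + 2, by positivity, fun δ h0 h1 => ?_⟩
  obtain ⟨N₁, hN₁⟩ := sizes h0 h1 (ε := 1) one_pos
  obtain ⟨N₂, hN₂⟩ := hwr δ h0 h1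
  obtain ⟨N₃, hN₃⟩ := be_small h0 h1 (ε := 1) one_pos
  refine ⟨max N₁ (max N₂ N₃), fun N hN A a ha => ?_⟩
  obtain ⟨a1, a2, a3, -, a5, -, -, -, -⟩ := hN₁ N ((le_max_left _ _).trans hN)
  obtain ⟨b1, b2⟩ := hN₂ N (((le_max_left _ _).trans (le_max_right _ _)).trans hN)
  obtain ⟨-, -, c3⟩ := hN₃ N (((le_max_right _ _).trans (le_max_right _ _)).trans hN)
  have hM3 : 3 ≤ MM δ N := by omega
  have hL : 0 < Real.log (MM δ N) := Real.log_pos (by exact_mod_cast (show 1 < MM δ N by omega))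
  have hlz : 0 < Real.log (zz N) := Real.log_pos (by exact_mod_cast (show 1 < zz N by omega))
  have hzL : Real.log (zz N) ≤ Real.log (MM δ N) :=
    Real.log_le_log (by exact_mod_cast (show 0 < zz N by omega)) (by exact_mod_cast a3.le)
  have hcn := GDL_cn_nonneg (zz N) A a
  have hVp := GDL_Vz_pos (zz N)
  have hV1 := GDL_Vz_le (zz N)
  set L := Real.log (MM δ N) with hLdef
  set V := Vz (zz N) with hVdef
  -- the inner sum
  have hin : ∑ r ∈ Finset.Icc 1 (2 * MM δ N), phi r * wr (zz N) (MM δ N) 2 r ^ 2 ≤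
      C₁ ^ 2 / (L ^ 2 * V ^ 2) * ∑ r ∈ RO (zz N) (MM δ N), mu r ^ 2 / phi r +
        ∑ p ∈ PK (MM δ N) 2, 1 / (p : ℝ) := by
    have hdis : Disjoint (RO (zz N) (MM δ N)) (PK (MM δ N) 2) := by
      rw [Finset.disjoint_left]
      intro r hr hr'
      have e1 := (GDL_mem_RO.1 hr).2.1
      have e2 := (GDL_mem_PK.1 hr').1
      omega
    have hsub : RO (zz N) (MM δ N) ∪ PK (MM δ N) 2 ⊆ Finset.Icc 1 (2 * MM δ N) := by
      intro r hr
      rw [Finset.mem_Icc]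
      rcases Finset.mem_union.1 hr with h | h
      · obtain ⟨e1, e2, -⟩ := GDL_mem_RO.1 h
        omega
      · obtain ⟨e1, e2, e3⟩ := GDL_mem_PK.1 h
        omega
    have hzero : ∀ r ∈ Finset.Icc 1 (2 * MM δ N), r ∉ RO (zz N) (MM δ N) ∪ PK (MM δ N) 2 →
        phi r * wr (zz N) (MM δ N) 2 r ^ 2 = 0 := by
      intro r hr hr'
      rw [Finset.mem_union, not_or] at hr'
      rw [Finset.mem_Icc] at hr
      have hw : wr (zz N) (MM δ N) 2 r = 0 := by
        by_contra hne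
        obtain ⟨e1, e2, -, -⟩ := wr_supp hne
        have hrM : MM δ N < r := by
          by_contra hle
          exact hr'.1 (GDL_mem_RO.2 ⟨e2, not_lt.1 hle, e1⟩)
        apply hne
        unfold wr
        apply Finset.sum_eq_zero
        intro m hm
        rw [Finset.mem_Icc] at hm
        have h3 : MM δ N < r * m := lt_of_lt_of_le hrM (Nat.le_mul_of_pos_right r (by omega))
        have h4 : r * m ∉ PK (MM δ N) 2 := by
          intro hP
          obtain ⟨_, hP2, hP3⟩ := GDL_mem_PK.1 hP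
          rcases (Nat.dvd_prime hP3).1 (Dvd.intro m rfl) with h5 | h5
          · omega
          · rw [← h5] at hP
            exact hr'.2 hP
        unfold yE gE
        rw [if_neg (not_le.2 h3), if_neg h4]
        simp
      rw [hw]
      ring
    rw [← Finset.sum_subset hsub hzero, Finset.sum_union hdis]
    apply add_le_add
    · rw [Finset.mul_sum]
      apply Finset.sum_le_sum
      intro r hr
      have hr1 := (GDL_mem_RO.1 hr).1
      have hphi := GDL_phi_pos hr1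
      by_cases hw : wr (zz N) (MM δ N) 2 r = 0
      · rw [hw]
        have : 0 ≤ C₁ ^ 2 / (L ^ 2 * V ^ 2) * (mu r ^ 2 / phi r) := by positivity
        simpa using this
      obtain ⟨-, -, hsq, -⟩ := wr_supp hw
      rw [GDL_mu_sq hsq, div_mul_div_comm, mul_one, le_div_iff₀ (by positivity)]
      have e1 := b1 r hr
      have e2 : (phi r * L * V * wr (zz N) (MM δ N) 2 r) ^ 2 ≤ C₁ ^ 2 := by
        rw [← sq_abs]
        exact pow_le_pow_left₀ (abs_nonneg _) e1 2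
      calc phi r * wr (zz N) (MM δ N) 2 r ^ 2 * (L ^ 2 * V ^ 2 * phi r) =
          (phi r * L * V * wr (zz N) (MM δ N) 2 r) ^ 2 := by ring
        _ ≤ C₁ ^ 2 := e2
    · apply Finset.sum_le_sum
      intro r hr
      obtain ⟨e1, e2, e3⟩ := GDL_mem_PK.1 hr
      have hr0 : (0 : ℝ) < r := by exact_mod_cast e3.pos
      rw [le_div_iff₀ hr0]
      have e4 := b2 r hr
      have e5 : (r * wr (zz N) (MM δ N) 2 r) ^ 2 ≤ 1 := by
        rw [← sq_abs]
        calc |(r : ℝ) * wr (zz N) (MM δ N) 2 r| ^ 2 ≤ 1 ^ 2 := pow_le_pow_left₀ (abs_nonneg _) e4 2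
          _ = 1 := one_pow 2
      calc phi r * wr (zz N) (MM δ N) 2 r ^ 2 * r ≤ r * wr (zz N) (MM δ N) 2 r ^ 2 * r := by
            gcongr
            exact GDL_phi_le r
        _ = (r * wr (zz N) (MM δ N) 2 r) ^ 2 := by ring
        _ ≤ 1 := e5
  -- its size
  have hrs' := hrs (zz N) (MM δ N) a2 (by omega)
  have hVz := (hvz (zz N) a2).1
  have hin2 : ∑ r ∈ Finset.Icc 1 (2 * MM δ N), phi r * wr (zz N) (MM δ N) 2 r ^ 2 ≤
      (2 * C₁ ^ 2 * C₂ / c + 2) / (V * L) := by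
    have e1 : 1 + L / Real.log (zz N) ≤ 2 * L / Real.log (zz N) := by
      rw [two_mul, add_div]
      have : 1 ≤ L / Real.log (zz N) := by
        rw [le_div_iff₀ hlz]
        linarith
      linarith
    have e2 : C₁ ^ 2 / (L ^ 2 * V ^ 2) * ∑ r ∈ RO (zz N) (MM δ N), mu r ^ 2 / phi r ≤
        (2 * C₁ ^ 2 * C₂ / c) / (V * L) := by
      calc C₁ ^ 2 / (L ^ 2 * V ^ 2) * ∑ r ∈ RO (zz N) (MM δ N), mu r ^ 2 / phi r
          ≤ C₁ ^ 2 / (L ^ 2 * V ^ 2) * (C₂ * (1 + L / Real.log (zz N))) := by gcongr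
        _ ≤ C₁ ^ 2 / (L ^ 2 * V ^ 2) * (C₂ * (2 * L / Real.log (zz N))) := by gcongr
        _ = 2 * C₁ ^ 2 * C₂ / (V * L) * ((1 / Real.log (zz N)) / V) := by field_simp
        _ ≤ 2 * C₁ ^ 2 * C₂ / (V * L) * (1 / c) := by
            have e3 : (1 / Real.log (zz N)) / V ≤ 1 / c := by
              rw [div_le_div_iff₀ hVp hc, one_mul, one_div_mul_eq_div]
              exact hVz
            gcongr
        _ = (2 * C₁ ^ 2 * C₂ / c) / (V * L) := by field_simp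
    have e4 : ∑ p ∈ PK (MM δ N) 2, 1 / (p : ℝ) ≤ 2 / (V * L) := by
      refine c3.trans ?_
      apply div_le_div_of_nonneg_left (by norm_num) (by positivity)
      calc V * L ≤ 1 * L := by gcongr
        _ = L := one_mul L
    calc _ ≤ _ := hin
      _ ≤ (2 * C₁ ^ 2 * C₂ / c) / (V * L) + 2 / (V * L) := add_le_add e2 e4
      _ = _ := by rw [← add_div]
  -- the splitting
  have hsp := GDL_split (M := MM δ N) ha (fun _ => True)
  simp only [if_true] at hsp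
  rw [hsp]
  calc ∑ u ∈ Finset.Icc 1 A, ∑ r ∈ Finset.Icc 1 (2 * MM δ N),
        (phi u * al A a u ^ 2) * (phi r * wr (zz N) (MM δ N) 2 r ^ 2)
      = (∑ u ∈ Finset.Icc 1 A, phi u * al A a u ^ 2) *
        ∑ r ∈ Finset.Icc 1 (2 * MM δ N), phi r * wr (zz N) (MM δ N) 2 r ^ 2 := by
        rw [Finset.sum_mul_sum]
    _ = (V * cn (zz N) A a) *
        ∑ r ∈ Finset.Icc 1 (2 * MM δ N), phi r * wr (zz N) (MM δ N) 2 r ^ 2 := by
        rw [(phi_al ha).2]
    _ ≤ (V * cn (zz N) A a) * ((2 * C₁ ^ 2 * C₂ / c + 2) / (V * L)) := by gcongr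
    _ = (2 * C₁ ^ 2 * C₂ / c + 2) * cn (zz N) A a / L := by field_simp

theorem gd_lower : type_of% @gd_lower_pr := @gd_lower_pr
theorem gd_upper : type_of% @gd_upper_pr := @gd_upper_pr

end Pool.Agent.KSL
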