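import Pool.Agent.Lib_helper68.KSL.Defs
import Pool.Agent.Lib_helper68.LEV.GEK
import Pool.Agent.Lib_helper68.LEV.LSB

/-! block BDK -/

namespace Pool.Agent.KSL

open Pool.Agent.LEV Pool.Agent.LVB
open Pool.Agent.FG61 (mu phi cc ff AA Lam)
open Complex MeasureTheory Filter Topology UpperHalfPlane ModularGroup ProbabilityTheory
open scoped MatrixGroups Modular ENNReal ModularForm ComplexConjugate ContDiff

/-- the normalised indicator function of a disc -/
noncomputable def bdk_k (ρ : ℝ) (w : ℂ) : ℝ := if ‖w‖ < ρ then 1 / (Real.pi * ρ ^ 2) else 0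

theorem bdk_k_meas (ρ : ℝ) : Measurable (bdk_k ρ) := by
  unfold bdk_k
  apply Measurable.ite
  · exact measurableSet_lt (by fun_prop) measurable_const
  · exact measurable_const
  · exact measurable_const

theorem bdk_k_nonneg (ρ : ℝ) (w : ℂ) : 0 ≤ bdk_k ρ w := by
  unfold bdk_k
  split_ifs
  · have := Real.pi_pos
    positivity
  · exact le_rfl

theorem bdk_k_le (ρ : ℝ) (w : ℂ) : bdk_k ρ w ≤ 1 / (Real.pi * ρ ^ 2) := by
  unfold bdk_k
  split_ifs
  · exact le_rfl
  · have := Real.pi_pos
    positivity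

theorem bdk_k_supp {ρ : ℝ} {w : ℂ} (h : bdk_k ρ w ≠ 0) : ‖w‖ < ρ := by
  unfold bdk_k at h
  split_ifs at h with h1
  · exact h1
  · exact absurd rfl h

theorem bdk_eval {F : ℂ → ℂ} (hF : DifferentiableOn ℂ F {z : ℂ | 0 < z.im}) {c : ℂ} {ρ : ℝ}
    (hρ : 0 < ρ) (h : ρ < c.im) : ∫ z : ℂ, F z * (bdk_k ρ (z - c) : ℂ) = F c := by
  have hpi := Real.pi_pos
  have h1 : ∀ z : ℂ, F z * (bdk_k ρ (z - c) : ℂ) =
      (Metric.ball c ρ).indicator (fun z => F z * ((1 / (Real.pi * ρ ^ 2) : ℝ) : ℂ)) z := by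
    intro z
    by_cases hz : z ∈ Metric.ball c ρ
    · rw [Set.indicator_of_mem hz]
      rw [Metric.mem_ball, dist_eq_norm] at hz
      unfold bdk_k
      rw [if_pos hz]
    · rw [Set.indicator_of_notMem hz]
      rw [Metric.mem_ball, dist_eq_norm] at hz
      unfold bdk_k
      rw [if_neg hz, Complex.ofReal_zero, mul_zero]
  rw [integral_congr_ae (Eventually.of_forall h1), integral_indicator measurableSet_ball,
    integral_mul_const, GEK_area hρ]
  · push_cast
    have hpi' : (Real.pi : ℂ) ≠ 0 := by exact_mod_cast hpi.ne'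
    have hv' : (ρ : ℂ) ≠ 0 := by exact_mod_cast hρ.ne'
    field_simp
  · apply hF.mono
    intro z hz
    rw [Metric.mem_closedBall, dist_eq_norm] at hz
    have h4 := (Complex.abs_im_le_norm (z - c)).trans hz
    rw [Complex.sub_im] at h4
    have h5 := (abs_le.mp h4).1
    show 0 < z.im
    linarith

/-- averaging a path of point evaluations over discs -/
theorem bdk_gen {Ω : Type} [MeasurableSpace Ω] (μ : Measure Ω) [SFinite μ] {A : Set Ω}
    (hA : MeasurableSet A) (hAf : μ A < ⊤) {h : Ω → ℂ} (hm : Measurable h) {B : ℝ}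
    (hB : ∀ o, ‖h o‖ ≤ B) {c : Ω → ℂ} (hc : Measurable c) {ρ : ℝ} (hρ : 0 < ρ) {S : Set ℂ}
    (hScomp : IsCompact S) (hSpos : S ⊆ {z : ℂ | 0 < z.im})
    (hcS : ∀ o ∈ A, Metric.ball (c o) ρ ⊆ S) (hci : ∀ o ∈ A, ρ < (c o).im) :
    Measurable (fun z : ℂ => ∫ o in A, h o * (bdk_k ρ (z - c o) : ℂ) ∂μ) ∧
    ∀ F : ℂ → ℂ, DifferentiableOn ℂ F {z : ℂ | 0 < z.im} →
      ∫ z : ℂ, F z * (∫ o in A, h o * (bdk_k ρ (z - c o) : ℂ) ∂μ) =
        ∫ o in A, h o * F (c o) ∂μ := by
  have hpi := Real.pi_pos
  have hkm : Measurable (fun p : ℂ × Ω => (bdk_k ρ (p.1 - c p.2) : ℂ)) := by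
    apply Complex.measurable_ofReal.comp
    apply (bdk_k_meas ρ).comp
    exact measurable_fst.sub (hc.comp measurable_snd)
  have hjm : Measurable (fun p : ℂ × Ω => h p.2 * (bdk_k ρ (p.1 - c p.2) : ℂ)) :=
    (hm.comp measurable_snd).mul hkm
  refine ⟨?_, ?_⟩
  · exact (hjm.stronglyMeasurable.integral_prod_right' (ν := μ.restrict A)).measurable
  · intro F hF
    have hSm : MeasurableSet S := hScomp.isClosed.measurableSet
    have hFS : ContinuousOn F S := hF.continuousOn.mono hSpos
    obtain ⟨C, hC⟩ := hScomp.exists_bound_of_continuousOn hFS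
    have hfin : volume S < ⊤ := hScomp.measure_lt_top
    have i1 : IsFiniteMeasure (volume.restrict S) := ⟨by rw [Measure.restrict_apply_univ]; exact hfin⟩
    have i2 : IsFiniteMeasure (μ.restrict A) := ⟨by rw [Measure.restrict_apply_univ]; exact hAf⟩
    have hzero : ∀ z : ℂ, z ∉ S → ∀ o ∈ A, bdk_k ρ (z - c o) = 0 := by
      intro z hz o ho
      by_contra hne
      apply hz
      apply hcS o ho
      rw [Metric.mem_ball, dist_eq_norm]
      exact bdk_k_supp hne
    have h1 : ∫ z : ℂ, F z * (∫ o in A, h o * (bdk_k ρ (z - c o) : ℂ) ∂μ) =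
        ∫ z in S, F z * (∫ o in A, h o * (bdk_k ρ (z - c o) : ℂ) ∂μ) := by
      rw [setIntegral_eq_integral_of_forall_compl_eq_zero]
      intro z hz
      rw [setIntegral_eq_zero_of_forall_eq_zero, mul_zero]
      intro o ho
      rw [hzero z hz o ho, Complex.ofReal_zero, mul_zero]
    have hint : Integrable (Function.uncurry fun (z : ℂ) (o : Ω) =>
        F z * (h o * (bdk_k ρ (z - c o) : ℂ)))
        ((volume.restrict S).prod (μ.restrict A)) := by
      refine Integrable.of_bound ?_ (|C| * (B * (1 / (Real.pi * ρ ^ 2)))) ?_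
      · apply AEStronglyMeasurable.mul
        · have h3 : AEStronglyMeasurable F (volume.restrict S) := hFS.aestronglyMeasurable hSm
          exact h3.comp_fst
        · exact hjm.aestronglyMeasurable
      · have hS1 : ∀ᵐ z ∂(volume.restrict S), z ∈ S := ae_restrict_mem hSm
        have hS2 : ∀ᵐ p ∂((volume.restrict S).prod (μ.restrict A)), p.1 ∈ S :=
          Measure.quasiMeasurePreserving_fst.ae hS1
        filter_upwards [hS2] with p hp
        simp only [Function.uncurry]
        rw [norm_mul, norm_mul, Complex.norm_real, Real.norm_eq_abs, abs_of_nonneg (bdk_k_nonneg _ _)]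
        have hB0 : 0 ≤ B := (norm_nonneg _).trans (hB p.2)
        apply mul_le_mul ((hC _ hp).trans (le_abs_self C)) _ (by
          have := bdk_k_nonneg ρ (p.1 - c p.2)
          positivity) (abs_nonneg _)
        exact mul_le_mul (hB _) (bdk_k_le _ _) (bdk_k_nonneg _ _) hB0
    rw [h1]
    simp_rw [← integral_const_mul]
    rw [integral_integral_swap hint]
    apply setIntegral_congr_fun hA
    intro o ho
    simp only []
    have h3 : ∫ z in S, F z * (h o * (bdk_k ρ (z - c o) : ℂ)) =
        ∫ z : ℂ, F z * (h o * (bdk_k ρ (z - c o) : ℂ)) := by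
      rw [setIntegral_eq_integral_of_forall_compl_eq_zero]
      intro z hz
      rw [hzero z hz o ho, Complex.ofReal_zero, mul_zero, mul_zero]
    have h4 : ∀ z : ℂ, F z * (h o * (bdk_k ρ (z - c o) : ℂ)) =
        h o * (F z * (bdk_k ρ (z - c o) : ℂ)) := fun z => by ring
    rw [h3, integral_congr_ae (Eventually.of_forall h4), integral_const_mul,
      bdk_eval hF hρ (hci o ho)]

theorem bdk_ker_int {T : ℝ} {ρ : ℝ → ℝ} (hρ : Ker T ρ) : Integrable ρ := by
  by_contra h
  have := hρ.int
  rw [integral_undef h] at this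
  exact one_ne_zero this.symm

theorem bdk_ker_bdd {T : ℝ} {ρ : ℝ → ℝ} (hρ : Ker T ρ) : ∃ B : ℝ, ∀ t, |ρ t| ≤ B := by
  obtain ⟨B, hB⟩ := (isCompact_Icc : IsCompact (Set.Icc (-T) T)).exists_bound_of_continuousOn
    hρ.cont.continuousOn
  have hT := hρ.T1
  have hB0 : 0 ≤ B := (norm_nonneg _).trans (hB 0 ⟨by linarith, by linarith⟩)
  refine ⟨B, fun t => ?_⟩
  by_cases ht : T < |t|
  · rw [hρ.supp t ht, abs_zero]
    exact hB0
  · exact hB t (abs_le.mp (not_lt.mp ht))

/-- the signed indicator function of the interval from `0` to `b` -/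
noncomputable def bdk_J (b s : ℝ) : ℝ :=
  (if 0 < s ∧ s ≤ b then 1 else 0) - (if b < s ∧ s ≤ 0 then 1 else 0)

theorem bdk_J_meas (κ : ℝ) : Measurable (fun p : ℝ × ℝ => bdk_J (p.1 * κ) p.2) := by
  unfold bdk_J
  apply Measurable.sub
  · apply Measurable.ite _ measurable_const measurable_const
    exact (measurableSet_lt measurable_const measurable_snd).inter
      (measurableSet_le measurable_snd (by fun_prop))
  · apply Measurable.ite _ measurable_const measurable_const
    exact (measurableSet_lt (by fun_prop) measurable_snd).inter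
      (measurableSet_le measurable_snd measurable_const)

theorem bdk_J_abs (b s : ℝ) : |bdk_J b s| ≤ 1 := by
  unfold bdk_J
  split_ifs with h1 h2 <;> norm_num

theorem bdk_J_int {b R : ℝ} (hb : |b| ≤ R) {G : ℝ → ℂ} (hG : Continuous G) :
    ∫ s in Set.Icc (-R) R, (bdk_J b s : ℂ) * G s = ∫ s in (0 : ℝ)..b, G s := by
  have hbb := abs_le.mp hb
  have hR : 0 ≤ R := (abs_nonneg b).trans hb
  have h1 : ∀ s, (bdk_J b s : ℂ) * G s =
      (Set.Ioc 0 b).indicator G s - (Set.Ioc b 0).indicator G s := by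
    intro s
    unfold bdk_J
    by_cases h1 : 0 < s ∧ s ≤ b
    · have h2 : ¬ (b < s ∧ s ≤ 0) := fun h => by linarith [h.1, h1.2]
      rw [if_pos h1, if_neg h2, Set.indicator_of_mem (show s ∈ Set.Ioc 0 b from h1),
        Set.indicator_of_notMem (show s ∉ Set.Ioc b 0 from h2)]
      push_cast
      ring
    · by_cases h2 : b < s ∧ s ≤ 0
      · rw [if_neg h1, if_pos h2, Set.indicator_of_notMem (show s ∉ Set.Ioc 0 b from h1),
          Set.indicator_of_mem (show s ∈ Set.Ioc b 0 from h2)]
        push_cast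
        ring
      · rw [if_neg h1, if_neg h2, Set.indicator_of_notMem (show s ∉ Set.Ioc 0 b from h1),
          Set.indicator_of_notMem (show s ∉ Set.Ioc b 0 from h2)]
        push_cast
        ring
  have hi : IntegrableOn G (Set.Icc (-R) R) := hG.continuousOn.integrableOn_Icc
  rw [integral_congr_ae (Eventually.of_forall h1), integral_sub (hi.indicator measurableSet_Ioc)
    (hi.indicator measurableSet_Ioc), setIntegral_indicator measurableSet_Ioc,
    setIntegral_indicator measurableSet_Ioc, intervalIntegral]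
  have e1 : Set.Icc (-R) R ∩ Set.Ioc 0 b = Set.Ioc 0 b := by
    apply Set.inter_eq_right.mpr
    intro s hs
    exact ⟨by linarith [hs.1], by linarith [hs.2]⟩
  have e2 : Set.Icc (-R) R ∩ Set.Ioc b 0 = Set.Ioc b 0 := by
    apply Set.inter_eq_right.mpr
    intro s hs
    exact ⟨by linarith [hs.1], by linarith [hs.2]⟩
  rw [e1, e2]

theorem bdf_kernel_pr {T : ℝ} {ρ : ℝ → ℝ} (hρ : Ker T ρ) : ∃ C : ℝ, 0 < C ∧ ∀ (N : ℕ) [Fact N.Prime]
    (q : ℕ), 1 ≤ q → ∀ x : ℝ, ∃ K : ℂ → ℂ, Measurable K ∧ (∀ z, ‖K z‖ ≤ C / rq N q) ∧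
      (∀ z, K z ≠ 0 → |z.re - x| ≤ 3 * T * rq N q ∧ rq N q / 2 ≤ z.im ∧ z.im ≤ 3 * rq N q) ∧
      ∀ f : S2 N, bdf f ρ q x = ∫ z : ℂ, f (UpperHalfPlane.ofComplex z) * K z := by
  have hpi := Real.pi_pos
  have hT := hρ.T1
  refine ⟨8 / Real.pi, by positivity, ?_⟩
  intro N _ q hq x
  have hN : (0 : ℝ) < N := by exact_mod_cast (Fact.out : N.Prime).pos
  have hq0 : (0 : ℝ) < q := by exact_mod_cast hq
  have hr : 0 < rq N q := by
    unfold rq
    have := Real.sqrt_pos.mpr hN
    positivity
  set r : ℝ := rq N q with hrd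
  have hr2 : 0 < r / 2 := by positivity
  have hTr : r ≤ T * r := by nlinarith
  obtain ⟨B, hB⟩ := bdk_ker_bdd hρ
  -- the compact set
  set S : Set ℂ := Set.Icc (x - 3 * T * r) (x + 3 * T * r) ×ℂ Set.Icc (r / 2) (3 * r) with hS
  have hScomp : IsCompact S := isCompact_Icc.reProdIm isCompact_Icc
  have hSpos : S ⊆ {z : ℂ | 0 < z.im} := by
    intro z hz
    rw [hS, Complex.mem_reProdIm] at hz
    have := hz.2.1
    show 0 < z.im
    linarith
  -- the vertical part
  set A1 : Set ℝ := Set.Ioc r (2 * r) with hA1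
  set c1 : ℝ → ℂ := fun v => (x : ℂ) + (v : ℂ) * Complex.I with hc1
  have hc1m : Measurable c1 := by
    rw [hc1]; fun_prop
  have hc1re : ∀ v, (c1 v).re = x := by intro v; simp [hc1]
  have hc1im : ∀ v, (c1 v).im = v := by intro v; simp [hc1]
  have hball : ∀ (c z : ℂ), ‖z - c‖ < r / 2 → |z.re - c.re| < r / 2 ∧ |z.im - c.im| < r / 2 := by
    intro c z hz
    have h1 := Complex.abs_re_le_norm (z - c)
    have h2 := Complex.abs_im_le_norm (z - c)
    rw [Complex.sub_re] at h1
    rw [Complex.sub_im] at h2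
    exact ⟨by linarith, by linarith⟩
  have hcS1 : ∀ v ∈ A1, Metric.ball (c1 v) (r / 2) ⊆ S := by
    intro v hv z hz
    rw [Metric.mem_ball, dist_eq_norm] at hz
    obtain ⟨h1, h2⟩ := hball _ _ hz
    rw [hc1re] at h1
    rw [hc1im] at h2
    have h3 := abs_lt.mp h1
    have h4 := abs_lt.mp h2
    have := hv.1
    have := hv.2
    rw [hS, Complex.mem_reProdIm]
    exact ⟨⟨by linarith, by linarith⟩, ⟨by linarith, by linarith⟩⟩
  obtain ⟨hm1, he1⟩ := bdk_gen (volume : Measure ℝ) (A := A1) measurableSet_Ioc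
    (by rw [Real.volume_Ioc]; exact ENNReal.ofReal_lt_top) (h := fun _ => (1 : ℂ)) measurable_const
    (B := 1) (fun _ => by simp) hc1m hr2 hScomp hSpos hcS1
    (fun v hv => by rw [hc1im]; linarith [hv.1])
  -- the horizontal part
  set A2 : Set (ℝ × ℝ) := Set.Icc (-T) T ×ˢ Set.Icc (-(T * (2 * r))) (T * (2 * r)) with hA2
  set c2 : ℝ × ℝ → ℂ := fun p => ((x + p.2 : ℝ) : ℂ) + ((2 * r : ℝ) : ℂ) * Complex.I with hc2
  have hc2m : Measurable c2 := by
    rw [hc2]; fun_prop
  have hc2re : ∀ v, (c2 v).re = x + v.2 := by intro v; simp [hc2]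
  have hc2im : ∀ v, (c2 v).im = 2 * r := by intro v; simp [hc2]
  have hcS2 : ∀ v ∈ A2, Metric.ball (c2 v) (r / 2) ⊆ S := by
    intro v hv z hz
    rw [Metric.mem_ball, dist_eq_norm] at hz
    obtain ⟨h1, h2⟩ := hball _ _ hz
    rw [hc2re] at h1
    rw [hc2im] at h2
    have h3 := abs_lt.mp h1
    have h4 := abs_lt.mp h2
    have := hv.2.1
    have := hv.2.2
    rw [hS, Complex.mem_reProdIm]
    exact ⟨⟨by linarith, by linarith⟩, ⟨by linarith, by linarith⟩⟩
  set w2 : ℝ × ℝ → ℂ := fun p => ((ρ p.1 * bdk_J (p.1 * (2 * r)) p.2 : ℝ) : ℂ) with hw2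
  have hw2m : Measurable w2 := by
    apply Complex.measurable_ofReal.comp
    exact (hρ.cont.measurable.comp measurable_fst).mul (bdk_J_meas (2 * r))
  have hw2n : ∀ p, ‖w2 p‖ ≤ ρ p.1 := by
    intro p
    rw [hw2]
    simp only []
    rw [Complex.norm_real, Real.norm_eq_abs, abs_mul, abs_of_nonneg (hρ.nonneg _)]
    exact mul_le_of_le_one_right (hρ.nonneg _) (bdk_J_abs _ _)
  have hw2b : ∀ p, ‖w2 p‖ ≤ B := fun p => (hw2n p).trans ((le_abs_self _).trans (hB _))
  obtain ⟨hm2, he2⟩ := bdk_gen (volume : Measure (ℝ × ℝ)) (A := A2)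
    (measurableSet_Icc.prod measurableSet_Icc)
    (by rw [Measure.volume_eq_prod, hA2, Measure.prod_prod, Real.volume_Icc, Real.volume_Icc]
        exact ENNReal.mul_lt_top ENNReal.ofReal_lt_top ENNReal.ofReal_lt_top) hw2m
    hw2b hc2m hr2 hScomp hSpos hcS2 (fun v hv => by rw [hc2im]; linarith)
  set K1 : ℂ → ℂ := fun z => ∫ v in A1, 1 * (bdk_k (r / 2) (z - c1 v) : ℂ) with hK1
  set K2 : ℂ → ℂ := fun z => ∫ p in A2, w2 p * (bdk_k (r / 2) (z - c2 p) : ℂ) with hK2
  have hind : ∀ u : ℝ, Integrable (fun s : ℝ =>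
      (Set.Ioo (u - r / 2) (u + r / 2)).indicator (fun _ => 1 / (Real.pi * (r / 2) ^ 2)) s) ∧
      ∫ s : ℝ, (Set.Ioo (u - r / 2) (u + r / 2)).indicator
        (fun _ => 1 / (Real.pi * (r / 2) ^ 2)) s = 4 / (Real.pi * r) := by
    intro u
    constructor
    · rw [integrable_indicator_iff measurableSet_Ioo]
      exact integrableOn_const (by rw [Real.volume_Ioo]; exact ENNReal.ofReal_ne_top)
        enorm_ne_top
    · rw [integral_indicator measurableSet_Ioo, setIntegral_const, Measure.real, Real.volume_Ioo,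
        ENNReal.toReal_ofReal (by linarith), smul_eq_mul]
      field_simp
      ring
  have hb1 : ∀ z, ‖K1 z‖ ≤ 4 / (Real.pi * r) := by
    intro z
    obtain ⟨hi, he⟩ := hind z.im
    rw [← he, hK1]
    simp only []
    refine (norm_integral_le_of_norm_le hi.integrableOn (Eventually.of_forall fun v => ?_)).trans ?_
    · rw [one_mul, Complex.norm_real, Real.norm_eq_abs, abs_of_nonneg (bdk_k_nonneg _ _)]
      by_cases hz : bdk_k (r / 2) (z - c1 v) = 0
      · rw [hz]
        apply Set.indicator_nonneg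
        intro _ _
        positivity
      · obtain ⟨h1, h2⟩ := hball _ _ (bdk_k_supp hz)
        rw [hc1im] at h2
        have h3 := abs_lt.mp h2
        rw [Set.indicator_of_mem (show v ∈ Set.Ioo (z.im - r / 2) (z.im + r / 2) from
          ⟨by linarith, by linarith⟩)]
        exact bdk_k_le _ _
    · apply setIntegral_le_integral hi
      exact Eventually.of_forall fun v => Set.indicator_nonneg (fun _ _ => by positivity) _
  have hb2 : ∀ z, ‖K2 z‖ ≤ 4 / (Real.pi * r) := by
    intro z
    obtain ⟨hi, he⟩ := hind (z.re - x)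
    have hi2 := (bdk_ker_int hρ).mul_prod hi
    have he2 := integral_prod_mul (μ := (volume : Measure ℝ)) (ν := (volume : Measure ℝ)) ρ
      (fun s : ℝ => (Set.Ioo (z.re - x - r / 2) (z.re - x + r / 2)).indicator
        (fun _ => 1 / (Real.pi * (r / 2) ^ 2)) s)
    rw [hρ.int, one_mul, he] at he2
    rw [← he2, hK2]
    simp only []
    rw [← Measure.volume_eq_prod] at hi2 ⊢
    refine (norm_integral_le_of_norm_le hi2.integrableOn (Eventually.of_forall fun v => ?_)).trans ?_
    · have hkn : ‖((bdk_k (r / 2) (z - c2 v) : ℝ) : ℂ)‖ = bdk_k (r / 2) (z - c2 v) := by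
        rw [Complex.norm_real, Real.norm_eq_abs, abs_of_nonneg (bdk_k_nonneg _ _)]
      rw [norm_mul, hkn]
      apply mul_le_mul (hw2n v) _ (bdk_k_nonneg _ _) (hρ.nonneg _)
      by_cases hz : bdk_k (r / 2) (z - c2 v) = 0
      · rw [hz]
        apply Set.indicator_nonneg
        intro _ _
        positivity
      · obtain ⟨h1, h2⟩ := hball _ _ (bdk_k_supp hz)
        rw [hc2re] at h1
        have h3 := abs_lt.mp h1
        rw [Set.indicator_of_mem (show v.2 ∈ Set.Ioo (z.re - x - r / 2) (z.re - x + r / 2) from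
          ⟨by linarith, by linarith⟩)]
        exact bdk_k_le _ _
    · apply setIntegral_le_integral hi2
      exact Eventually.of_forall fun v => mul_nonneg (hρ.nonneg _)
        (Set.indicator_nonneg (fun _ _ => by positivity) _)
  have hz1 : ∀ z, z ∉ S → K1 z = 0 := by
    intro z hz
    rw [hK1]
    simp only []
    apply setIntegral_eq_zero_of_forall_eq_zero
    intro v hv
    by_contra hne
    apply hz
    apply hcS1 v hv
    rw [Metric.mem_ball, dist_eq_norm]
    apply bdk_k_supp
    intro h0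
    rw [h0, Complex.ofReal_zero, mul_zero] at hne
    exact hne rfl
  have hz2 : ∀ z, z ∉ S → K2 z = 0 := by
    intro z hz
    rw [hK2]
    simp only []
    apply setIntegral_eq_zero_of_forall_eq_zero
    intro v hv
    by_contra hne
    apply hz
    apply hcS2 v hv
    rw [Metric.mem_ball, dist_eq_norm]
    apply bdk_k_supp
    intro h0
    rw [h0, Complex.ofReal_zero, mul_zero] at hne
    exact hne rfl
  have hbd : ∀ {L : ℂ → ℂ}, Measurable L → (∀ z, ‖L z‖ ≤ 4 / (Real.pi * r)) →
      (∀ z, z ∉ S → L z = 0) → ∀ f : S2 N,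
      Integrable (fun z : ℂ => f (UpperHalfPlane.ofComplex z) * L z) := by
    intro L hLm hLb hLz f
    have hSm : MeasurableSet S := hScomp.isClosed.measurableSet
    have hFS : ContinuousOn (fun z : ℂ => f (UpperHalfPlane.ofComplex z)) S :=
      (LSB_cont f).mono hSpos
    obtain ⟨C, hC⟩ := hScomp.exists_bound_of_continuousOn hFS
    have h1 : IntegrableOn (fun z : ℂ => f (UpperHalfPlane.ofComplex z) * L z) S := by
      refine IntegrableOn.of_bound hScomp.measure_lt_top ?_ (|C| * (4 / (Real.pi * r))) ?_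
      · exact (hFS.aestronglyMeasurable hSm).mul hLm.aestronglyMeasurable
      · refine (ae_restrict_iff' hSm).mpr (Eventually.of_forall fun z hz => ?_)
        rw [norm_mul]
        exact mul_le_mul ((hC z hz).trans (le_abs_self C)) (hLb z) (norm_nonneg _) (abs_nonneg _)
    refine (integrableOn_iff_integrable_of_support_subset ?_).mp h1
    intro z hz
    by_contra hne
    apply hz
    simp only []
    rw [hLz z hne, mul_zero]
  refine ⟨fun z => K1 z - Complex.I * K2 z, hm1.sub (measurable_const.mul hm2), ?_, ?_, ?_⟩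
  · intro z
    refine (norm_sub_le _ _).trans ?_
    rw [norm_mul, Complex.norm_I, one_mul]
    have h3 : 8 / Real.pi / r = 4 / (Real.pi * r) + 4 / (Real.pi * r) := by
      field_simp
      norm_num
    rw [h3]
    exact add_le_add (hb1 z) (hb2 z)
  · intro z hz
    have hzS : z ∈ S := by
      by_contra hne
      apply hz
      simp only []
      rw [hz1 z hne, hz2 z hne, mul_zero, sub_zero]
    rw [hS, Complex.mem_reProdIm] at hzS
    exact ⟨abs_le.mpr ⟨by linarith [hzS.1.1], by linarith [hzS.1.2]⟩, hzS.2.1, hzS.2.2⟩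
  · intro f
    have hF : DifferentiableOn ℂ (fun z : ℂ => f (UpperHalfPlane.ofComplex z)) {z : ℂ | 0 < z.im} := by
      have h := fam_hol f OnePoint.infty
      rw [fam_inf] at h
      exact h
    have e1 := he1 _ hF
    have e2 := he2 _ hF
    have e3 : ∫ z : ℂ, f (UpperHalfPlane.ofComplex z) * (K1 z - Complex.I * K2 z) =
        (∫ z : ℂ, f (UpperHalfPlane.ofComplex z) * K1 z) -
          Complex.I * ∫ z : ℂ, f (UpperHalfPlane.ofComplex z) * K2 z := by
      rw [← integral_const_mul, ← integral_sub (hbd hm1 hb1 hz1 f)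
        ((hbd hm2 hb2 hz2 f).const_mul _)]
      apply integral_congr_ae
      refine Eventually.of_forall fun z => ?_
      simp only []
      ring
    rw [e3, hK1, hK2]
    simp only []
    rw [e1, e2]
    unfold bdf
    congr 1
    · rw [intervalIntegral.integral_of_le (by linarith)]
      apply setIntegral_congr_fun measurableSet_Ioc
      intro v hv
      simp only [one_mul]
      rfl
    · congr 1
      set G : ℝ → ℂ := fun s => ev f (x + s) (2 * r) with hG
      have hGc : Continuous G := by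
        have h1 : ContinuousOn (fun z : ℂ => f (UpperHalfPlane.ofComplex z)) {z : ℂ | 0 < z.im} :=
          LSB_cont f
        have h2 : Continuous (fun s : ℝ => ((x + s : ℝ) : ℂ) + ((2 * r : ℝ) : ℂ) * Complex.I) := by
          fun_prop
        refine h1.comp_continuous h2 (fun s => ?_)
        simp only [Set.mem_ofPred_eq]
        have : (((x + s : ℝ) : ℂ) + ((2 * r : ℝ) : ℂ) * Complex.I).im = 2 * r := by simp
        rw [this]
        linarith
      have e4 : ∀ p : ℝ × ℝ, w2 p * f (UpperHalfPlane.ofComplex (c2 p)) =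
          (ρ p.1 : ℂ) * ((bdk_J (p.1 * (2 * r)) p.2 : ℂ) * G p.2) := by
        intro p
        rw [hw2, hc2, hG]
        simp only []
        unfold ev
        push_cast
        ring
      have hi : IntegrableOn (fun p : ℝ × ℝ => (ρ p.1 : ℂ) * ((bdk_J (p.1 * (2 * r)) p.2 : ℂ) * G p.2))
          (Set.Icc (-T) T ×ˢ Set.Icc (-(T * (2 * r))) (T * (2 * r))) (volume.prod volume) := by
        obtain ⟨C, hC⟩ := (isCompact_Icc : IsCompact (Set.Icc (-(T * (2 * r))) (T * (2 * r))))
          |>.exists_bound_of_continuousOn hGc.continuousOn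
        refine IntegrableOn.of_bound ?_ ?_ (B * |C|) ?_
        · rw [Measure.prod_prod, Real.volume_Icc, Real.volume_Icc]
          exact ENNReal.mul_lt_top ENNReal.ofReal_lt_top ENNReal.ofReal_lt_top
        · apply Measurable.aestronglyMeasurable
          apply (Complex.measurable_ofReal.comp (hρ.cont.measurable.comp measurable_fst)).mul
          exact (Complex.measurable_ofReal.comp (bdk_J_meas (2 * r))).mul
            (hGc.measurable.comp measurable_snd)
        · refine (ae_restrict_iff' (measurableSet_Icc.prod measurableSet_Icc)).mpr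
            (Eventually.of_forall fun p hp => ?_)
          rw [norm_mul, norm_mul, Complex.norm_real, Complex.norm_real, Real.norm_eq_abs,
            Real.norm_eq_abs]
          have hB0 : 0 ≤ B := (abs_nonneg _).trans (hB 0)
          apply mul_le_mul (hB _) _ (by positivity) hB0
          have h1 := (hC _ hp.2).trans (le_abs_self C)
          have h2 := bdk_J_abs (p.1 * (2 * r)) p.2
          calc |bdk_J (p.1 * (2 * r)) p.2| * ‖G p.2‖ ≤ 1 * |C| :=
                mul_le_mul h2 h1 (norm_nonneg _) zero_le_one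
            _ = |C| := one_mul _
      rw [setIntegral_congr_fun (measurableSet_Icc.prod measurableSet_Icc) (fun p _ => e4 p),
        Measure.volume_eq_prod, setIntegral_prod _ hi]
      have e5 : ∀ t ∈ Set.Icc (-T) T, ∫ s in Set.Icc (-(T * (2 * r))) (T * (2 * r)),
          (ρ t : ℂ) * ((bdk_J (t * (2 * r)) s : ℂ) * G s) =
          (ρ t : ℂ) * ∫ s in (0 : ℝ)..(t * (2 * r)), G s := by
        intro t ht
        rw [integral_const_mul, bdk_J_int _ hGc]
        rw [abs_mul, abs_of_pos (by linarith : 0 < 2 * r)]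
        exact mul_le_mul_of_nonneg_right (abs_le.mpr ht) (by linarith)
      rw [setIntegral_congr_fun measurableSet_Icc e5]
      rw [setIntegral_eq_integral_of_forall_compl_eq_zero]
      intro t ht
      rw [hρ.supp t, Complex.ofReal_zero, zero_mul]
      by_contra hne
      apply ht
      exact abs_le.mp (not_lt.mp hne)

theorem bdf_kernel : type_of% @bdf_kernel_pr := @bdf_kernel_pr

end Pool.Agent.KSL
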