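import Pool.Agent.Lib_helper68.KSL.Defs
import Pool.Agent.Lib_helper68.LEV.LSB
import Pool.Agent.Lib_helper68.LEV.LSC
import Pool.Agent.Lib_helper68.LEV.PET
import Pool.Agent.Lib_helper68.KSLF.BDK

/-! Block BDB: the boundary functional is small (cites bdf_kernel). -/

namespace Pool.Agent.KSL

open Pool.Agent.LEV Pool.Agent.LVB
open Pool.Agent.FG61 (mu phi cc ff AA Lam)
open Complex MeasureTheory Filter Topology UpperHalfPlane ModularGroup ProbabilityTheory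
open scoped MatrixGroups Modular ENNReal ModularForm ComplexConjugate ContDiff

/-- the support of the kernel -/
def bdbS (T r x : ℝ) : Set ℂ := {z : ℂ | |z.re - x| ≤ 3 * T * r ∧ r / 2 ≤ z.im ∧ z.im ≤ 3 * r}

theorem bdbS_meas (T r x : ℝ) : MeasurableSet (bdbS T r x) := by
  have h1 : MeasurableSet {z : ℂ | |z.re - x| ≤ 3 * T * r} := by
    apply (isClosed_le _ continuous_const).measurableSet
    fun_prop
  have h2 : MeasurableSet {z : ℂ | r / 2 ≤ z.im} :=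
    measurableSet_le measurable_const Complex.measurable_im
  have h3 : MeasurableSet {z : ℂ | z.im ≤ 3 * r} :=
    measurableSet_le Complex.measurable_im measurable_const
  exact h1.inter (h2.inter h3)

theorem bdb_cs (G K : ℂ → ℂ) {S : Set ℂ} (hS : MeasurableSet S)
    (hG : AEStronglyMeasurable (S.indicator G) volume) (hK : Measurable K)
    (hs : ∀ z, K z ≠ 0 → z ∈ S) {A : ℝ≥0∞} (hA : ∫⁻ z in S, ‖K z‖ₑ ^ 2 ≤ A) :
    ‖∫ z : ℂ, G z * K z‖ₑ ^ 2 ≤ (∫⁻ z in S, ‖G z‖ₑ ^ 2) * A := by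
  have h1 : ‖∫ z : ℂ, G z * K z‖ₑ ≤ ∫⁻ z, ‖S.indicator G z‖ₑ * ‖K z‖ₑ := by
    refine (enorm_integral_le_lintegral_enorm _).trans (le_of_eq (lintegral_congr (fun z => ?_)))
    rw [enorm_mul]
    by_cases hz : z ∈ S
    · rw [Set.indicator_of_mem hz]
    · have : K z = 0 := by
        by_contra h
        exact hz (hs z h)
      rw [this, enorm_zero, mul_zero, mul_zero]
  have h2 := ENNReal.lintegral_mul_le_Lp_mul_Lq (volume : Measure ℂ) Real.HolderConjugate.two_two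
    (f := fun z => ‖S.indicator G z‖ₑ) (g := fun z => ‖K z‖ₑ) hG.enorm hK.enorm.aemeasurable
  have h3 : ∫⁻ z, ‖S.indicator G z‖ₑ ^ 2 = ∫⁻ z in S, ‖G z‖ₑ ^ 2 := by
    rw [← lintegral_indicator hS]
    apply lintegral_congr
    intro z
    by_cases hz : z ∈ S
    · rw [Set.indicator_of_mem hz, Set.indicator_of_mem hz]
    · rw [Set.indicator_of_notMem hz, Set.indicator_of_notMem hz]
      simp
  have h4 : ∫⁻ z, ‖K z‖ₑ ^ 2 = ∫⁻ z in S, ‖K z‖ₑ ^ 2 := by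
    rw [← lintegral_indicator hS]
    apply lintegral_congr
    intro z
    by_cases hz : z ∈ S
    · rw [Set.indicator_of_mem hz]
    · rw [Set.indicator_of_notMem hz]
      have : K z = 0 := by
        by_contra h
        exact hz (hs z h)
      rw [this]
      simp
  calc ‖∫ z : ℂ, G z * K z‖ₑ ^ 2
      ≤ ((∫⁻ z, ‖S.indicator G z‖ₑ ^ (2 : ℝ)) ^ (1 / (2 : ℝ)) *
          (∫⁻ z, ‖K z‖ₑ ^ (2 : ℝ)) ^ (1 / (2 : ℝ))) ^ 2 := by
        exact pow_le_pow_left' (h1.trans h2) 2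
    _ = (∫⁻ z, ‖S.indicator G z‖ₑ ^ 2) * ∫⁻ z, ‖K z‖ₑ ^ 2 := by
        rw [mul_pow, ← ENNReal.rpow_natCast, ← ENNReal.rpow_natCast, ← ENNReal.rpow_mul,
          ← ENNReal.rpow_mul]
        norm_num
    _ ≤ _ := by
        rw [h3, h4]
        exact mul_le_mul_right hA _

theorem bdb_vol {T r x : ℝ} (hT : 1 ≤ T) (hr : 0 < r) :
    volume (bdbS T r x) ≤ ENNReal.ofReal (((3 * T + 3) * r) ^ 2 * Real.pi) := by
  have h1 : bdbS T r x ⊆ Metric.closedBall (x : ℂ) ((3 * T + 3) * r) := by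
    intro z hz
    obtain ⟨h1, h2, h3⟩ := hz
    rw [mem_closedBall_iff_norm]
    have h4 := Complex.norm_le_abs_re_add_abs_im (z - (x : ℂ))
    rw [Complex.sub_re, Complex.sub_im, Complex.ofReal_re, Complex.ofReal_im, sub_zero] at h4
    have h5 : |z.im| ≤ 3 * r := by
      rw [abs_le]
      constructor <;> linarith
    nlinarith
  refine (measure_mono h1).trans (le_of_eq ?_)
  have h2 : (ENNReal.ofReal (((3 * T + 3) * r) ^ 2 * Real.pi)) =
      ENNReal.ofReal ((3 * T + 3) * r) ^ 2 * (NNReal.pi : ℝ≥0∞) := by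
    rw [ENNReal.ofReal_mul (by positivity), ENNReal.ofReal_pow (by positivity), ← NNReal.coe_real_pi,
      ENNReal.ofReal_coe_nnreal]
  rw [Complex.volume_closedBall, h2]

theorem bdb_one {N : ℕ} [Fact N.Prime] (g : S2 N) {T r x C : ℝ} (hT : 1 ≤ T) (hr : 0 < r)
    (hC : 0 < C) (K : ℂ → ℂ) (hK : Measurable K) (hb : ∀ z, ‖K z‖ ≤ C / r)
    (hs : ∀ z, K z ≠ 0 → z ∈ bdbS T r x) :
    ‖∫ z : ℂ, g (UpperHalfPlane.ofComplex z) * K z‖ₑ ^ 2 ≤
      (∫⁻ z in bdbS T r x, ‖g (UpperHalfPlane.ofComplex z)‖ₑ ^ 2) *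
        ENNReal.ofReal ((C * (3 * T + 3)) ^ 2 * Real.pi) := by
  apply bdb_cs _ K (bdbS_meas T r x) _ hK hs
  · calc ∫⁻ z in bdbS T r x, ‖K z‖ₑ ^ 2
        ≤ ∫⁻ _ in bdbS T r x, ENNReal.ofReal ((C / r) ^ 2) := by
          apply lintegral_mono
          intro z
          simp only
          rw [← ofReal_norm, ← ENNReal.ofReal_pow (norm_nonneg _)]
          apply ENNReal.ofReal_le_ofReal
          exact pow_le_pow_left₀ (norm_nonneg _) (hb z) 2
      _ = ENNReal.ofReal ((C / r) ^ 2) * volume (bdbS T r x) := by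
          rw [lintegral_const, Measure.restrict_apply_univ]
      _ ≤ ENNReal.ofReal ((C / r) ^ 2) * ENNReal.ofReal (((3 * T + 3) * r) ^ 2 * Real.pi) :=
          mul_le_mul_right (bdb_vol hT hr) _
      _ = _ := by
          rw [← ENNReal.ofReal_mul (by positivity)]
          congr 1
          field_simp
  · rw [aestronglyMeasurable_indicator_iff (bdbS_meas T r x)]
    refine ((LSB_cont g).mono ?_).aestronglyMeasurable (bdbS_meas T r x)
    intro z hz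
    have := hz.2.1
    simp only [Set.mem_ofPred_eq]
    linarith

theorem bdb_ne {q j q' j' : ℕ} (hq : 1 ≤ q) (hq' : 1 ≤ q') (hj : q.Coprime j)
    (hj' : q'.Coprime j') (h : j * q' = j' * q) : q = q' ∧ j = j' := by
  have h1 : q ∣ q' := by
    apply hj.dvd_of_dvd_mul_left
    rw [h]
    exact dvd_mul_left _ _
  have h2 : q' ∣ q := by
    apply hj'.dvd_of_dvd_mul_left
    rw [← h]
    exact dvd_mul_left _ _
  have h3 : q = q' := Nat.dvd_antisymm h1 h2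
  subst h3
  exact ⟨rfl, Nat.eq_of_mul_eq_mul_right hq h⟩

theorem bdb_rq {N Q q : ℕ} {T : ℝ} (hT : 1 ≤ T) (hQ1 : 1 ≤ Q) (hQ : 100 * T * Q ≤ Real.sqrt N)
    (hq : 1 ≤ q) : 0 < rq N q ∧ 3 * T * rq N q ≤ 3 / (100 * (q * Q)) := by
  have hq0 : (0 : ℝ) < q := by exact_mod_cast hq
  have hQ0 : (0 : ℝ) < Q := by exact_mod_cast hQ1
  have hN : 0 < Real.sqrt N := lt_of_lt_of_le (by positivity) hQ
  refine ⟨by unfold rq; positivity, ?_⟩
  unfold rq
  have h1 : T * (1 / ((q : ℝ) * Real.sqrt N)) ≤ 1 / (100 * (q * Q)) := by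
    rw [mul_one_div, div_le_div_iff₀ (by positivity) (by positivity), one_mul]
    have := mul_le_mul_of_nonneg_left hQ hq0.le
    linarith
  calc 3 * T * (1 / ((q : ℝ) * Real.sqrt N)) = 3 * (T * (1 / ((q : ℝ) * Real.sqrt N))) := by ring
    _ ≤ 3 * (1 / (100 * (q * Q))) := by linarith
    _ = _ := by ring

theorem bdb_disj {N Q q j q' j' : ℕ} {T : ℝ} (hT : 1 ≤ T) (hQ1 : 1 ≤ Q)
    (hQ : 100 * T * Q ≤ Real.sqrt N) (hq : 1 ≤ q) (hqQ : q ≤ Q) (hq' : 1 ≤ q') (hqQ' : q' ≤ Q)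
    (hj : q.Coprime j) (hj' : q'.Coprime j') (hne : ¬ (q = q' ∧ j = j')) :
    Disjoint (bdbS T (rq N q) ((j : ℝ) / q)) (bdbS T (rq N q') ((j' : ℝ) / q')) := by
  rw [Set.disjoint_left]
  intro z hz hz'
  have hq0 : (0 : ℝ) < q := by exact_mod_cast hq
  have hq0' : (0 : ℝ) < q' := by exact_mod_cast hq'
  have hQ0 : (0 : ℝ) < Q := by exact_mod_cast hQ1
  have h1 : |(j : ℝ) / q - (j' : ℝ) / q'| ≤ 3 / (100 * (q * Q)) + 3 / (100 * (q' * Q)) := by
    have e : (j : ℝ) / q - (j' : ℝ) / q' = (z.re - (j' : ℝ) / q') - (z.re - (j : ℝ) / q) := by ring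
    rw [e]
    refine (abs_sub _ _).trans ?_
    have := (bdb_rq hT hQ1 hQ hq).2
    have := (bdb_rq hT hQ1 hQ hq').2
    linarith [hz.1, hz'.1]
  have h2 : (3 : ℝ) / (100 * (q * Q)) + 3 / (100 * (q' * Q)) < 1 / (q * q') := by
    have e : (3 : ℝ) / (100 * (q * Q)) + 3 / (100 * (q' * Q)) =
        (3 * (q + q') / (100 * Q)) * (1 / (q * q')) := by
      field_simp
      ring
    rw [e]
    have h3 : 3 * ((q : ℝ) + q') / (100 * Q) < 1 := by
      rw [div_lt_one (by positivity)]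
      have : (q : ℝ) ≤ Q := by exact_mod_cast hqQ
      have : (q' : ℝ) ≤ Q := by exact_mod_cast hqQ'
      linarith
    have h4 : (0 : ℝ) < 1 / (q * q') := by positivity
    nlinarith
  have h3 : (1 : ℝ) / (q * q') ≤ |(j : ℝ) / q - (j' : ℝ) / q'| := by
    have h4 : ((j : ℤ) * q' - j' * q) ≠ 0 := by
      intro h
      apply hne
      apply bdb_ne hq hq' hj hj'
      have : (j : ℤ) * q' = j' * q := by linarith
      exact_mod_cast this
    have h5 : (1 : ℝ) ≤ |(j : ℝ) * q' - j' * q| := by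
      have := Int.one_le_abs h4
      exact_mod_cast this
    have e : (j : ℝ) / q - (j' : ℝ) / q' = ((j : ℝ) * q' - j' * q) / (q * q') := by
      field_simp
    rw [e, abs_div, abs_of_pos (show (0 : ℝ) < q * q' by positivity)]
    gcongr
  linarith

theorem bdb_sub {N Q q j : ℕ} {T : ℝ} (hT : 1 ≤ T) (hQ1 : 1 ≤ Q)
    (hQ : 100 * T * Q ≤ Real.sqrt N) (hq : 1 ≤ q) (hqQ : q ≤ Q) (hj : j ∈ RR q) :
    bdbS T (rq N q) ((j : ℝ) / q) ⊆ LSB_st (-(3 / (100 * (Q : ℝ)))) (2 * Q * Real.sqrt N) := by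
  intro z hz
  have hq0 : (0 : ℝ) < q := by exact_mod_cast hq
  have hq1 : (1 : ℝ) ≤ q := by exact_mod_cast hq
  have hQ0 : (0 : ℝ) < Q := by exact_mod_cast hQ1
  have hqQ' : (q : ℝ) ≤ Q := by exact_mod_cast hqQ
  have hN : 0 < Real.sqrt N := lt_of_lt_of_le (by positivity) hQ
  obtain ⟨h1, h2, h3⟩ := hz
  have h4 := (bdb_rq hT hQ1 hQ hq).2
  have h5 := abs_le.mp (h1.trans h4)
  have h6 : (3 : ℝ) / (100 * (q * Q)) ≤ 3 / (100 * Q) := by
    apply div_le_div_of_nonneg_left (by norm_num) (by positivity)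
    nlinarith
  have h7 : (0 : ℝ) ≤ (j : ℝ) / q := by positivity
  refine ⟨by linarith [h5.1], ?_, ?_⟩
  · have hjq : j + 1 ≤ q := by
      have := (Finset.mem_filter.mp hj).1
      exact Finset.mem_range.mp this
    have hjq' : (j : ℝ) + 1 ≤ q := by exact_mod_cast hjq
    have h8 : (j : ℝ) / q ≤ 1 - 1 / q := by
      rw [div_le_iff₀ hq0, sub_mul, one_mul, one_div, inv_mul_cancel₀ hq0.ne']
      linarith
    have h9 : (3 : ℝ) / (100 * (q * Q)) + 3 / (100 * Q) < 1 / q := by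
      have e : (3 : ℝ) / (100 * (q * Q)) + 3 / (100 * Q) = (3 * (1 + q) / (100 * Q)) * (1 / q) := by
        field_simp
      rw [e]
      have h3 : 3 * (1 + (q : ℝ)) / (100 * Q) < 1 := by
        rw [div_lt_one (by positivity)]
        have : (1 : ℝ) ≤ Q := by exact_mod_cast hQ1
        linarith
      have h4 : (0 : ℝ) < 1 / q := by positivity
      nlinarith
    linarith [h5.2]
  · refine le_trans ?_ h2
    unfold rq
    rw [div_div, one_div_le_one_div (by positivity) (by positivity)]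
    nlinarith

theorem bdb_card (q : ℕ) : ((RR q).card : ℝ) = phi q := by
  unfold RR phi
  rw [Nat.totient_eq_card_coprime]

/-- the boundary functional is small -/
theorem bd_bound_pr {T : ℝ} {ρ : ℝ → ℝ} (hρ : Ker T ρ) : ∃ C : ℝ, 0 < C ∧ ∀ (N : ℕ) [Fact N.Prime]
    (g : S2 N) (Q : ℕ), 1 ≤ Q → 100 * T * Q ≤ Real.sqrt N → ∀ w : ℕ → ℝ,
      ‖∑ q ∈ Finset.Icc 1 Q, (w q : ℂ) * ∑ j ∈ RR q, bdf g ρ q ((j : ℝ) / q)‖ ≤
        C * Real.sqrt (∑ q ∈ Finset.Icc 1 Q, phi q * w q ^ 2) * Real.sqrt (nr g) := by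
  obtain ⟨C, hC, hker⟩ := bdf_kernel hρ
  have hT := hρ.T1
  set A : ℝ := (C * (3 * T + 3)) ^ 2 * Real.pi with hA
  have hA0 : 0 < A := by
    have := Real.pi_pos
    positivity
  refine ⟨Real.sqrt (2 * A), by positivity, fun N _ g Q hQ1 hQ w => ?_⟩
  have hQ0 : (0 : ℝ) < Q := by exact_mod_cast hQ1
  have hN : 0 < Real.sqrt N := lt_of_lt_of_le (by positivity) hQ
  have hnr : 0 ≤ nr g := LSC_nr_nonneg g
  set P : Finset (Σ _ : ℕ, ℕ) := (Finset.Icc 1 Q).sigma RR with hP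
  have hPm : ∀ p ∈ P, 1 ≤ p.1 ∧ p.1 ≤ Q ∧ p.2 ∈ RR p.1 := by
    intro p hp
    rw [hP, Finset.mem_sigma, Finset.mem_Icc] at hp
    exact ⟨hp.1.1, hp.1.2, hp.2⟩
  set S : (Σ _ : ℕ, ℕ) → Set ℂ := fun p => bdbS T (rq N p.1) ((p.2 : ℝ) / p.1) with hS
  set b : (Σ _ : ℕ, ℕ) → ℂ := fun p => bdf g ρ p.1 ((p.2 : ℝ) / p.1) with hb
  set I : (Σ _ : ℕ, ℕ) → ℝ≥0∞ := fun p => ∫⁻ z in S p, ‖g (UpperHalfPlane.ofComplex z)‖ₑ ^ 2 with hI
  have h1 : ∀ p ∈ P, ‖b p‖ₑ ^ 2 ≤ I p * ENNReal.ofReal A := by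
    intro p hp
    obtain ⟨hp1, hp2, hp3⟩ := hPm p hp
    obtain ⟨K, hK, hKb, hKs, hKe⟩ := hker N p.1 hp1 ((p.2 : ℝ) / p.1)
    rw [hb]
    simp only
    rw [hKe g]
    exact bdb_one g hT (bdb_rq hT hQ1 hQ hp1).1 hC K hK hKb hKs
  have h2 : ∑ p ∈ P, I p ≤ ENNReal.ofReal (2 * nr g) := by
    have hd : (P : Set (Σ _ : ℕ, ℕ)).PairwiseDisjoint S := by
      intro p hp p' hp' hne
      obtain ⟨hp1, hp2, hp3⟩ := hPm p hp
      obtain ⟨hp1', hp2', hp3'⟩ := hPm p' hp'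
      apply bdb_disj hT hQ1 hQ hp1 hp2 hp1' hp2' (Finset.mem_filter.mp hp3).2
        (Finset.mem_filter.mp hp3').2
      rintro ⟨e1, e2⟩
      apply hne
      obtain ⟨a, b⟩ := p
      obtain ⟨a', b'⟩ := p'
      simp only at e1 e2
      subst e1
      subst e2
      rfl
    rw [hI]
    simp only
    rw [← lintegral_biUnion_finset hd (fun p _ => bdbS_meas _ _ _)]
    have hsub : (⋃ p ∈ P, S p) ⊆ LSB_st (-(3 / (100 * (Q : ℝ)))) (2 * Q * Real.sqrt N) := by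
      intro z hz
      simp only [Set.mem_iUnion] at hz
      obtain ⟨p, hp, hz⟩ := hz
      obtain ⟨hp1, hp2, hp3⟩ := hPm p hp
      exact bdb_sub hT hQ1 hQ hp1 hp2 hp3 hz
    refine (lintegral_mono_set hsub).trans ?_
    refine (LSB_strip g (by positivity) _).trans ?_
    apply ENNReal.ofReal_le_ofReal
    have hNN : Real.sqrt N * Real.sqrt N = N := Real.mul_self_sqrt (Nat.cast_nonneg _)
    have hN0 : (0 : ℝ) < N := by
      rw [← hNN]
      positivity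
    have h3 : 4 * (2 * Q * Real.sqrt N) / N ≤ 1 := by
      rw [div_le_one hN0]
      have h4 : 8 * (Q : ℝ) ≤ Real.sqrt N := by nlinarith
      nlinarith
    nlinarith
  have h3 : ∑ p ∈ P, ‖b p‖ ^ 2 ≤ 2 * A * nr g := by
    have h4 : ∑ p ∈ P, ‖b p‖ₑ ^ 2 ≤ ENNReal.ofReal (2 * A * nr g) := by
      calc ∑ p ∈ P, ‖b p‖ₑ ^ 2 ≤ ∑ p ∈ P, I p * ENNReal.ofReal A := Finset.sum_le_sum h1
        _ = (∑ p ∈ P, I p) * ENNReal.ofReal A := by rw [Finset.sum_mul]
        _ ≤ ENNReal.ofReal (2 * nr g) * ENNReal.ofReal A := mul_le_mul_left h2 _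
        _ = _ := by
            rw [← ENNReal.ofReal_mul (by positivity)]
            congr 1
            ring
    have h5 : ∑ p ∈ P, ‖b p‖ₑ ^ 2 = ENNReal.ofReal (∑ p ∈ P, ‖b p‖ ^ 2) := by
      rw [ENNReal.ofReal_sum_of_nonneg (fun p _ => by positivity)]
      refine Finset.sum_congr rfl fun p _ => ?_
      rw [← ofReal_norm, ENNReal.ofReal_pow (norm_nonneg _)]
    rw [h5, ENNReal.ofReal_le_ofReal_iff (by positivity)] at h4
    exact h4
  have h4 : ∑ p ∈ P, |w p.1| ^ 2 = ∑ q ∈ Finset.Icc 1 Q, phi q * w q ^ 2 := by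
    rw [hP, Finset.sum_sigma]
    refine Finset.sum_congr rfl fun q _ => ?_
    simp only [sq_abs, Finset.sum_const, nsmul_eq_mul]
    rw [bdb_card]
  have h5 : ‖∑ q ∈ Finset.Icc 1 Q, (w q : ℂ) * ∑ j ∈ RR q, bdf g ρ q ((j : ℝ) / q)‖ ≤
      ∑ p ∈ P, |w p.1| * ‖b p‖ := by
    have e : ∑ q ∈ Finset.Icc 1 Q, (w q : ℂ) * ∑ j ∈ RR q, bdf g ρ q ((j : ℝ) / q) =
        ∑ p ∈ P, (w p.1 : ℂ) * b p := by
      rw [hP, Finset.sum_sigma]
      refine Finset.sum_congr rfl fun q _ => ?_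
      rw [Finset.mul_sum]
    rw [e]
    refine (norm_sum_le _ _).trans (Finset.sum_le_sum fun p _ => ?_)
    rw [norm_mul, Complex.norm_real, Real.norm_eq_abs]
  refine h5.trans ?_
  have h6 := Finset.sum_mul_sq_le_sq_mul_sq P (fun p => |w p.1|) (fun p => ‖b p‖)
  have h7 : (∑ p ∈ P, |w p.1| * ‖b p‖) ^ 2 ≤
      (∑ q ∈ Finset.Icc 1 Q, phi q * w q ^ 2) * (2 * A * nr g) := by
    refine h6.trans ?_
    rw [h4]
    apply mul_le_mul_of_nonneg_left h3
    exact Finset.sum_nonneg fun q _ => by positivity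
  have h8 : Real.sqrt (2 * A) * Real.sqrt (∑ q ∈ Finset.Icc 1 Q, phi q * w q ^ 2) * Real.sqrt (nr g) =
      Real.sqrt ((∑ q ∈ Finset.Icc 1 Q, phi q * w q ^ 2) * (2 * A * nr g)) := by
    rw [← Real.sqrt_mul (by positivity), ← Real.sqrt_mul (by positivity)]
    congr 1
    ring
  rw [h8]
  exact Real.le_sqrt_of_sq_le h7

theorem bd_bound : type_of% @bd_bound_pr := @bd_bound_pr

end Pool.Agent.KSL
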