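import Pool.Agent.Lib_helper68.KSL.Defs
import Pool.Agent.Lib_helper68.LEV.LSB
import Pool.Agent.Lib_helper68.LEV.GID

/-! KSL, block BLR. -/

namespace Pool.Agent.KSL

open Pool.Agent.LEV Pool.Agent.LVB
open Complex MeasureTheory Filter Topology UpperHalfPlane ModularGroup ProbabilityTheory
open scoped MatrixGroups Modular ENNReal ModularForm ComplexConjugate ContDiff

section
variable {N : ℕ} [Fact N.Prime]

/-- the integrand -/
noncomputable def BLR_G (f : S2 N) (ρ : ℝ → ℝ) (a : ℝ) (z : ℂ) : ℂ :=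
  f (UpperHalfPlane.ofComplex z) * (((z.im⁻¹ * ρ ((z.re - a) / z.im) : ℝ) : ℂ) *
    (1 - (((z.re - a) / z.im : ℝ) : ℂ) * Complex.I))

theorem BLR_cont {T : ℝ} {ρ : ℝ → ℝ} (hρ : Ker T ρ) (f : S2 N) (a : ℝ) :
    ContinuousOn (BLR_G f ρ a) {z : ℂ | 0 < z.im} := by
  unfold BLR_G
  have h0 : ContinuousOn (fun z : ℂ => (z.re - a) / z.im) {z : ℂ | 0 < z.im} := by
    apply ContinuousOn.div (by fun_prop) (by fun_prop)
    intro z hz
    exact (ne_of_gt hz)
  have h1 : ContinuousOn (fun z : ℂ => ρ ((z.re - a) / z.im)) {z : ℂ | 0 < z.im} :=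
    hρ.cont.comp_continuousOn h0
  have h2 : ContinuousOn (fun z : ℂ => z.im⁻¹) {z : ℂ | 0 < z.im} := by
    apply ContinuousOn.inv₀ (by fun_prop)
    intro z hz
    exact (ne_of_gt hz)
  apply (LSB_cont f).mul
  apply ContinuousOn.mul
  · exact Complex.continuous_ofReal.comp_continuousOn (h2.mul h1)
  · apply ContinuousOn.sub continuousOn_const
    apply ContinuousOn.mul _ continuousOn_const
    exact Complex.continuous_ofReal.comp_continuousOn h0

theorem BLR_meas (r R : ℝ) : MeasurableSet {z : ℂ | r < z.im ∧ z.im < R} :=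
  (measurableSet_lt measurable_const Complex.measurable_im).inter
    (measurableSet_lt Complex.measurable_im measurable_const)

theorem BLR_int {T : ℝ} {ρ : ℝ → ℝ} (hρ : Ker T ρ) (f : S2 N) (a : ℝ) {r R : ℝ} (hr : 0 < r) :
    IntegrableOn (BLR_G f ρ a) {z : ℂ | r < z.im ∧ z.im < R} := by
  set K : Set ℂ := Set.Icc (a - T * R) (a + T * R) ×ℂ Set.Icc r R with hK
  have hKc : IsCompact K := isCompact_Icc.reProdIm isCompact_Icc
  have h1 : IntegrableOn (BLR_G f ρ a) K := by
    apply ContinuousOn.integrableOn_compact hKc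
    apply (BLR_cont hρ f a).mono
    intro z hz
    exact lt_of_lt_of_le hr hz.2.1
  rw [← integrable_indicator_iff (BLR_meas r R)]
  have h2 : Integrable (K.indicator (BLR_G f ρ a)) :=
    (integrable_indicator_iff hKc.isClosed.measurableSet).mpr h1
  have h3 := h2.indicator (BLR_meas r R)
  refine h3.congr (Filter.Eventually.of_forall fun z => ?_)
  by_cases hz : z ∈ {z : ℂ | r < z.im ∧ z.im < R}
  · rw [Set.indicator_of_mem hz, Set.indicator_of_mem hz]
    by_cases hzK : z ∈ K
    · rw [Set.indicator_of_mem hzK]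
    · rw [Set.indicator_of_notMem hzK]
      have hz0 : 0 < z.im := hr.trans hz.1
      have hT : T < |(z.re - a) / z.im| := by
        rw [abs_div, abs_of_pos hz0, lt_div_iff₀ hz0]
        by_contra h
        push Not at h
        apply hzK
        have h5 : |z.re - a| ≤ T * R := by
          refine h.trans (mul_le_mul_of_nonneg_left hz.2.le ?_)
          linarith [hρ.T1]
        have h6 := abs_le.mp h5
        exact ⟨⟨by linarith [h6.1], by linarith [h6.2]⟩, ⟨hz.1.le, hz.2.le⟩⟩
      have h7 := hρ.supp _ hT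
      unfold BLR_G
      rw [h7]
      simp
  · rw [Set.indicator_of_notMem hz, Set.indicator_of_notMem hz]

theorem BLR_one {T : ℝ} {ρ : ℝ → ℝ} (hρ : Ker T ρ) (f : S2 N) (a : ℝ) {r R : ℝ} (hr : 0 < r)
    (hrR : r ≤ R) :
    (∫ y in r..R, ∫ t : ℝ, (ρ t : ℂ) * (1 - (t : ℂ) * Complex.I) * ev f (a + t * y) y) =
      ∫ z in {z : ℂ | r < z.im ∧ z.im < R}, BLR_G f ρ a z := by
  have e0 : ∀ p : ℝ × ℝ, {z : ℂ | r < z.im ∧ z.im < R}.indicator (BLR_G f ρ a)
      (Complex.measurableEquivRealProd.symm p) =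
      (Set.univ ×ˢ Set.Ioo r R : Set (ℝ × ℝ)).indicator
        (fun p : ℝ × ℝ => BLR_G f ρ a (p.1 + p.2 * Complex.I)) p := by
    intro p
    have e1 : Complex.measurableEquivRealProd.symm p = (p.1 : ℂ) + p.2 * Complex.I := by
      apply Complex.ext <;> simp [Complex.measurableEquivRealProd]
    have e2 : ((p.1 : ℂ) + p.2 * Complex.I).im = p.2 := by simp
    rw [e1]
    by_cases hp : r < p.2 ∧ p.2 < R
    · rw [Set.indicator_of_mem, Set.indicator_of_mem]
      · exact ⟨Set.mem_univ _, hp⟩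
      · show r < _ ∧ _ < R
        rw [e2]
        exact hp
    · rw [Set.indicator_of_notMem, Set.indicator_of_notMem]
      · exact fun h => hp h.2
      · intro h
        have : r < ((p.1 : ℂ) + p.2 * Complex.I).im ∧ ((p.1 : ℂ) + p.2 * Complex.I).im < R := h
        rw [e2] at this
        exact hp this
  have hmeas : MeasurableSet (Set.univ ×ˢ Set.Ioo r R : Set (ℝ × ℝ)) :=
    MeasurableSet.univ.prod measurableSet_Ioo
  have hint2 : Integrable (fun p : ℝ × ℝ => BLR_G f ρ a (p.1 + p.2 * Complex.I))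
      ((volume.restrict (Set.univ : Set ℝ)).prod (volume.restrict (Set.Ioo r R))) := by
    have h2 : Integrable ({z : ℂ | r < z.im ∧ z.im < R}.indicator (BLR_G f ρ a)) :=
      (integrable_indicator_iff (BLR_meas r R)).mpr (BLR_int hρ f a hr)
    have h3 : Integrable (fun p : ℝ × ℝ =>
        {z : ℂ | r < z.im ∧ z.im < R}.indicator (BLR_G f ρ a)
          (Complex.measurableEquivRealProd.symm p)) :=
      (Complex.volume_preserving_equiv_real_prod.symm.integrable_comp_emb
        (Complex.measurableEquivRealProd.symm.measurableEmbedding)).mpr h2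
    simp_rw [e0] at h3
    rw [Measure.prod_restrict, ← Measure.volume_eq_prod]
    exact (integrable_indicator_iff hmeas).mp h3
  rw [← integral_indicator (BLR_meas r R),
    ← (Complex.volume_preserving_equiv_real_prod.symm).integral_comp']
  simp_rw [e0]
  rw [integral_indicator hmeas, Measure.volume_eq_prod, ← Measure.prod_restrict,
    integral_prod_symm _ hint2, intervalIntegral.integral_of_le hrR,
    integral_Ioc_eq_integral_Ioo]
  apply setIntegral_congr_fun measurableSet_Ioo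
  intro y hy
  have hy0 : 0 < y := hr.trans hy.1
  simp only [Measure.restrict_univ]
  set g : ℝ → ℂ := fun t => (ρ t : ℂ) * (1 - (t : ℂ) * Complex.I) * ev f (a + t * y) y with hg
  have h1 : ∀ x : ℝ, BLR_G f ρ a ((x : ℂ) + (y : ℂ) * Complex.I) = (y⁻¹ : ℝ) • g ((x - a) / y) := by
    intro x
    have e1 : ((x : ℂ) + (y : ℂ) * Complex.I).im = y := by simp
    have e2 : ((x : ℂ) + (y : ℂ) * Complex.I).re = x := by simp
    unfold BLR_G
    rw [e1, e2, hg]
    have e3 : a + (x - a) / y * y = x := by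
      field_simp
      ring
    simp only [e3]
    unfold ev
    rw [Complex.real_smul]
    push_cast
    ring
  simp_rw [h1]
  rw [integral_smul, integral_sub_right_eq_self (μ := volume) (fun x => g (x / y)) a,
    Measure.integral_comp_div, smul_smul, abs_of_pos hy0, inv_mul_cancel₀ hy0.ne', one_smul]

theorem bulk_eq_pr {T : ℝ} {ρ : ℝ → ℝ} (hρ : Ker T ρ) (f : S2 N) (Q : ℕ) (w : ℕ → ℝ) :
    ∑ q ∈ Finset.Icc 1 Q, (w q : ℂ) * ∑ j ∈ RR q,
      (∫ y in (2 * rq N q)..(2 / Real.sqrt N), ∫ t : ℝ,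
        (ρ t : ℂ) * (1 - (t : ℂ) * Complex.I) * ev f ((j : ℝ) / q + t * y) y) =
    ∫ z in {z : ℂ | 0 < z.im ∧ z.im < 2 / Real.sqrt N},
      f (UpperHalfPlane.ofComplex z) * ph N Q w ρ z.re z.im := by
  have hN : (0 : ℝ) < N := by exact_mod_cast (Fact.out : N.Prime).pos
  have hs : 0 < Real.sqrt N := Real.sqrt_pos.mpr hN
  set R := 2 / Real.sqrt N with hR
  have hq : ∀ q ∈ Finset.Icc 1 Q, 0 < 2 * rq N q ∧ 2 * rq N q ≤ R := by
    intro q hq
    have h1 : (1 : ℝ) ≤ q := by exact_mod_cast (Finset.mem_Icc.mp hq).1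
    unfold rq
    refine ⟨by positivity, ?_⟩
    rw [hR, mul_one_div]
    apply div_le_div_of_nonneg_left (by norm_num) hs
    nlinarith
  have hm : MeasurableSet {z : ℂ | 0 < z.im ∧ z.im < R} := BLR_meas 0 R
  -- one term
  have hterm : ∀ q ∈ Finset.Icc 1 Q, ∀ a : ℝ,
      (∫ y in (2 * rq N q)..R, ∫ t : ℝ,
        (ρ t : ℂ) * (1 - (t : ℂ) * Complex.I) * ev f (a + t * y) y) =
      ∫ z in {z : ℂ | 0 < z.im ∧ z.im < R},
        ({z : ℂ | 2 * rq N q < z.im ∧ z.im < R}.indicator (BLR_G f ρ a)) z := by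
    intro q hq' a
    rw [BLR_one hρ f a (hq q hq').1 (hq q hq').2, setIntegral_indicator (BLR_meas _ _)]
    congr 2
    ext z
    constructor
    · intro h
      exact ⟨⟨(hq q hq').1.trans h.1, h.2⟩, h⟩
    · intro h
      exact h.2
  have hint : ∀ q ∈ Finset.Icc 1 Q, ∀ a : ℝ,
      IntegrableOn ({z : ℂ | 2 * rq N q < z.im ∧ z.im < R}.indicator (BLR_G f ρ a))
        {z : ℂ | 0 < z.im ∧ z.im < R} := by
    intro q hq' a
    exact ((integrable_indicator_iff (BLR_meas _ _)).mpr
      (BLR_int hρ f a (hq q hq').1)).integrableOn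
  have e1 : ∑ q ∈ Finset.Icc 1 Q, (w q : ℂ) * ∑ j ∈ RR q,
      (∫ y in (2 * rq N q)..R, ∫ t : ℝ,
        (ρ t : ℂ) * (1 - (t : ℂ) * Complex.I) * ev f ((j : ℝ) / q + t * y) y) =
      ∫ z in {z : ℂ | 0 < z.im ∧ z.im < R}, ∑ q ∈ Finset.Icc 1 Q, (w q : ℂ) * ∑ j ∈ RR q,
        ({z : ℂ | 2 * rq N q < z.im ∧ z.im < R}.indicator (BLR_G f ρ ((j : ℝ) / q))) z := by
    rw [integral_finset_sum]
    · apply Finset.sum_congr rfl
      intro q hq'
      rw [integral_const_mul, integral_finset_sum]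
      · congr 1
        apply Finset.sum_congr rfl
        intro j _
        exact hterm q hq' _
      · intro j _
        exact hint q hq' _
    · intro q hq'
      apply Integrable.const_mul
      apply integrable_finset_sum
      intro j _
      exact hint q hq' _
  rw [e1]
  apply setIntegral_congr_fun hm
  intro z hz
  simp only
  unfold ph
  rw [Finset.mul_sum, Finset.sum_filter]
  apply Finset.sum_congr rfl
  intro q _
  by_cases h : 2 * rq N q < z.im
  · rw [if_pos h, Finset.mul_sum, Finset.mul_sum, Finset.mul_sum]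
    apply Finset.sum_congr rfl
    intro j _
    rw [Set.indicator_of_mem (show z ∈ {z : ℂ | 2 * rq N q < z.im ∧ z.im < R} from ⟨h, hz.2⟩)]
    unfold BLR_G
    ring
  · rw [if_neg h, Finset.sum_eq_zero, mul_zero]
    intro j _
    rw [Set.indicator_of_notMem]
    exact fun h' => h h'.1

end

theorem bulk_eq : type_of% @bulk_eq_pr := @bulk_eq_pr

end Pool.Agent.KSL
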