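import Pool.Agent.Lib_helper68.KSL.Defs
import Pool.Agent.Lib_helper68.LEV.GEL
import Pool.Agent.Lib_helper68.LEV.GIH
import Pool.Agent.Lib_helper68.LEV.LSB

/-! Block REP: a vertical half line deformed to rays. -/

namespace Pool.Agent.KSL

open Pool.Agent.LEV Pool.Agent.LVB
open Pool.Agent.FG61 (mu phi cc ff AA Lam)
open Complex MeasureTheory Filter Topology UpperHalfPlane ModularGroup ProbabilityTheory
open scoped MatrixGroups Modular ENNReal ModularForm ComplexConjugate ContDiff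

section
variable {N : ℕ} [Fact N.Prime]

/-- a primitive -/
noncomputable def rep_P (f : S2 N) (z : ℂ) : ℂ :=
  ∑' n : ℕ, co f n / (2 * Real.pi * n) * cexp (2 * Real.pi * Complex.I * n * z)

theorem rep_psi (f : S2 N) (x : ℝ) {y : ℝ} (hy : 0 < y) :
    Psi f x y = rep_P f ((x : ℂ) + (y : ℂ) * Complex.I) := by
  unfold Psi rep_P
  rw [← (GEL_int f x hy).tsum_eq]
  refine tsum_congr fun n => ?_
  have h1 : cexp (2 * Real.pi * Complex.I * n * ((x : ℂ) + (y : ℂ) * Complex.I)) =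
      ((Real.exp (-2 * Real.pi * n * y) : ℝ) : ℂ) * GEL_e n x := by
    rw [GEL_e, Complex.ofReal_exp, ← Complex.exp_add]
    congr 1
    push_cast
    linear_combination (2 * Real.pi * n * y : ℂ) * Complex.I_mul_I
  rw [h1]
  push_cast
  ring

theorem rep_deriv (f : S2 N) {z : ℂ} (hz : 0 < z.im) :
    HasDerivAt (rep_P f) (Complex.I * f (UpperHalfPlane.ofComplex z)) z := by
  obtain ⟨C, hC⟩ := co_bound f
  have hC0 : (0 : ℝ) ≤ C := by
    have := (norm_nonneg _).trans (hC 1)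
    simpa using this
  set c : ℝ := z.im / 2 with hc
  have hc0 : 0 < c := by positivity
  have hpi := Real.pi_pos
  have ht : IsOpen {w : ℂ | c < w.im} := isOpen_lt continuous_const Complex.continuous_im
  have hconv : Convex ℝ {w : ℂ | c < w.im} := convex_halfSpace_im_gt c
  have hu : Summable fun n : ℕ => C * ((n : ℝ) ^ 1 * Real.exp (-2 * Real.pi * c) ^ n) := by
    have h : ‖Real.exp (-2 * Real.pi * c)‖ < 1 := by
      rw [Real.norm_eq_abs, abs_of_pos (Real.exp_pos _), Real.exp_lt_one_iff]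
      have := mul_pos hpi hc0
      linarith
    exact (summable_pow_mul_geometric_of_norm_lt_one (R := ℝ) 1 h).mul_left C
  have hbound : ∀ (n : ℕ) (w : ℂ), c < w.im →
      ‖Complex.I * (co f n * cexp (2 * Real.pi * Complex.I * n * w))‖ ≤
        C * ((n : ℝ) ^ 1 * Real.exp (-2 * Real.pi * c) ^ n) := by
    intro n w hw
    rw [norm_mul, Complex.norm_I, one_mul, norm_mul, Complex.norm_exp, pow_one, ← mul_assoc]
    have h2 : (2 * Real.pi * Complex.I * n * w).re = -(2 * Real.pi * n * w.im) := by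
      have : (2 * Real.pi * Complex.I * n * w) = ((2 * Real.pi * n : ℝ) : ℂ) * (Complex.I * w) := by
        push_cast
        ring
      rw [this, Complex.re_ofReal_mul, Complex.I_mul_re]
      ring
    rw [h2, ← Real.exp_nat_mul]
    refine mul_le_mul (hC n) ?_ (Real.exp_pos _).le (by positivity)
    apply Real.exp_le_exp.mpr
    have h3 : 2 * Real.pi * (n : ℝ) * c ≤ 2 * Real.pi * n * w.im :=
      mul_le_mul_of_nonneg_left hw.le (by positivity)
    linarith
  have h1 := hasDerivAt_tsum_of_isPreconnected (𝕜 := ℂ) (t := {w : ℂ | c < w.im})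
    (g := fun (n : ℕ) (w : ℂ) => co f n / (2 * Real.pi * n) * cexp (2 * Real.pi * Complex.I * n * w))
    (g' := fun (n : ℕ) (w : ℂ) => Complex.I * (co f n * cexp (2 * Real.pi * Complex.I * n * w)))
    (y := z) (y₀ := z) hu ht hconv.isPreconnected ?_ hbound ?_ ?_ ?_
  · have h2 : ∑' n : ℕ, Complex.I * (co f n * cexp (2 * Real.pi * Complex.I * n * z)) =
        Complex.I * f (UpperHalfPlane.ofComplex z) := by
      rw [tsum_mul_left]
      congr 1
      have h3 := qex f ⟨z, hz⟩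
      rw [UpperHalfPlane.ofComplex_apply_of_im_pos hz, ← h3.tsum_eq]
    rw [h2] at h1
    exact h1
  · intro n w _
    rcases Nat.eq_zero_or_pos n with rfl | hn
    · simp only [co_zero, zero_div, zero_mul, mul_zero]
      exact hasDerivAt_const w 0
    · have hne : (Real.pi : ℂ) ≠ 0 := by exact_mod_cast hpi.ne'
      have hne2 : (n : ℂ) ≠ 0 := by exact_mod_cast hn.ne'
      have h4 : HasDerivAt (fun w : ℂ => cexp (2 * Real.pi * Complex.I * n * w))
          (cexp (2 * Real.pi * Complex.I * n * w) * (2 * Real.pi * Complex.I * n)) w := by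
        have h5 : HasDerivAt (fun w : ℂ => 2 * Real.pi * Complex.I * n * w)
            (2 * Real.pi * Complex.I * n) w := by
          simpa using (hasDerivAt_id w).const_mul (2 * Real.pi * Complex.I * n)
        exact h5.cexp
      have h6 := h4.const_mul (co f n / (2 * Real.pi * n))
      refine h6.congr_deriv ?_
      field_simp
  · show c < z.im
    rw [hc]
    linarith
  · have h7 : Summable fun n : ℕ => ‖co f n / (2 * Real.pi * n) *
        cexp (2 * Real.pi * Complex.I * n * z)‖ := by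
      refine Summable.of_nonneg_of_le (fun n => norm_nonneg _) (fun n => ?_) hu
      have h8 := hbound n z (by show c < z.im; rw [hc]; linarith)
      refine le_trans ?_ h8
      rw [norm_mul, norm_mul Complex.I, Complex.norm_I, one_mul, norm_mul (co f n)]
      refine mul_le_mul_of_nonneg_right ?_ (norm_nonneg _)
      rcases Nat.eq_zero_or_pos n with rfl | hn
      · simp
      · rw [norm_div]
        refine div_le_self (norm_nonneg _) ?_
        have h9 : ‖(2 * Real.pi * n : ℂ)‖ = 2 * Real.pi * n := by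
          have : (2 * Real.pi * n : ℂ) = ((2 * Real.pi * n : ℝ) : ℂ) := by push_cast; ring
          rw [this, Complex.norm_real, Real.norm_eq_abs, abs_of_nonneg (by positivity)]
        rw [h9]
        have h10 : (1 : ℝ) ≤ n := by exact_mod_cast hn
        have h11 : (3 : ℝ) < Real.pi := Real.pi_gt_three
        nlinarith
    exact h7.of_norm
  · show c < z.im
    rw [hc]
    linarith

theorem rep_contOn (f : S2 N) : ContinuousOn (rep_P f) {z : ℂ | 0 < z.im} := fun z hz =>
  (rep_deriv f hz).continuousAt.continuousWithinAt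

/-- the horizontal segment -/
theorem rep_hor (f : S2 N) (x : ℝ) {y : ℝ} (hy : 0 < y) (a : ℝ) :
    Complex.I * ∫ s in (0 : ℝ)..a, ev f (x + s) y =
      rep_P f (((x + a : ℝ) : ℂ) + (y : ℂ) * Complex.I) - rep_P f ((x : ℂ) + (y : ℂ) * Complex.I) := by
  have hd : ∀ s : ℝ, HasDerivAt (fun s : ℝ => rep_P f (((x + s : ℝ) : ℂ) + (y : ℂ) * Complex.I))
      (Complex.I * ev f (x + s) y) s := by
    intro s
    have h1 : 0 < (((x + s : ℝ) : ℂ) + (y : ℂ) * Complex.I).im := by simpa using hy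
    have h2 : HasDerivAt (fun s : ℝ => ((x + s : ℝ) : ℂ) + (y : ℂ) * Complex.I) 1 s := by
      have h3 : HasDerivAt (fun s : ℝ => ((s : ℝ) : ℂ)) 1 s := Complex.ofRealCLM.hasDerivAt
      have h4 := (h3.const_add (x : ℂ)).add_const ((y : ℂ) * Complex.I)
      have h6 : (fun s : ℝ => ((x + s : ℝ) : ℂ) + (y : ℂ) * Complex.I) =
          fun s : ℝ => (x : ℂ) + (s : ℂ) + (y : ℂ) * Complex.I := by
        funext s
        push_cast
        ring
      rw [h6]
      exact h4
    have h5 := (rep_deriv f h1).comp s h2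
    rw [mul_one] at h5
    exact h5
  have hcont : Continuous fun s : ℝ => ev f (x + s) y := by
    have h1 := LSB_cont f
    have h2 : Continuous fun s : ℝ => ((x + s : ℝ) : ℂ) + (y : ℂ) * Complex.I := by fun_prop
    exact h1.comp_continuous h2 (fun s => by simpa using hy)
  have h := intervalIntegral.integral_eq_sub_of_hasDerivAt (a := (0 : ℝ)) (b := a)
    (fun s _ => hd s) ((continuous_const.mul hcont).intervalIntegrable _ _)
  rw [intervalIntegral.integral_const_mul] at h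
  rw [h, add_zero]

/-- the ray -/
theorem rep_ray (f : S2 N) (x t : ℝ) {y₁ y₂ : ℝ} (h1 : 0 < y₁) (h12 : y₁ ≤ y₂) :
    ∫ y in y₁..y₂, (1 - (t : ℂ) * Complex.I) * ev f (x + t * y) y =
      rep_P f (((x + t * y₁ : ℝ) : ℂ) + (y₁ : ℂ) * Complex.I) -
        rep_P f (((x + t * y₂ : ℝ) : ℂ) + (y₂ : ℂ) * Complex.I) := by
  have hd : ∀ y ∈ Set.uIcc y₁ y₂, HasDerivAt
      (fun y : ℝ => - rep_P f (((x + t * y : ℝ) : ℂ) + (y : ℂ) * Complex.I))
      ((1 - (t : ℂ) * Complex.I) * ev f (x + t * y) y) y := by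
    intro y hy
    rw [Set.uIcc_of_le h12] at hy
    have hy0 : 0 < y := lt_of_lt_of_le h1 hy.1
    have h2 : 0 < (((x + t * y : ℝ) : ℂ) + (y : ℂ) * Complex.I).im := by simpa using hy0
    have h3 : HasDerivAt (fun y : ℝ => ((x + t * y : ℝ) : ℂ) + (y : ℂ) * Complex.I)
        ((t : ℂ) + Complex.I) y := by
      have h3 : HasDerivAt (fun s : ℝ => ((s : ℝ) : ℂ)) 1 y := Complex.ofRealCLM.hasDerivAt
      have h4 : HasDerivAt (fun s : ℝ => ((x : ℂ) + (t : ℂ) * (s : ℂ)) + (s : ℂ) * Complex.I)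
          ((t : ℂ) * 1 + 1 * Complex.I) y :=
        ((h3.const_mul (t : ℂ)).const_add (x : ℂ)).add (h3.mul_const Complex.I)
      have h6 : (fun y : ℝ => ((x + t * y : ℝ) : ℂ) + (y : ℂ) * Complex.I) =
          fun s : ℝ => ((x : ℂ) + (t : ℂ) * (s : ℂ)) + (s : ℂ) * Complex.I := by
        funext s
        push_cast
        ring
      rw [h6]
      refine h4.congr_deriv ?_
      ring
    have h50 : HasDerivAt (fun y : ℝ => rep_P f (((x + t * y : ℝ) : ℂ) + (y : ℂ) * Complex.I))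
      (Complex.I * f (UpperHalfPlane.ofComplex (((x + t * y : ℝ) : ℂ) + (y : ℂ) * Complex.I)) *
        ((t : ℂ) + Complex.I)) y := by
      have h51 := (rep_deriv f h2).comp y h3
      exact h51
    have h5 : HasDerivAt (fun y : ℝ => - rep_P f (((x + t * y : ℝ) : ℂ) + (y : ℂ) * Complex.I))
      (-(Complex.I * f (UpperHalfPlane.ofComplex (((x + t * y : ℝ) : ℂ) + (y : ℂ) * Complex.I)) *
        ((t : ℂ) + Complex.I))) y := h50.neg
    refine h5.congr_deriv ?_
    symm
    show (1 - (t : ℂ) * Complex.I) * ev f (x + t * y) y =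
      -(Complex.I * f (UpperHalfPlane.ofComplex (((x + t * y : ℝ) : ℂ) + (y : ℂ) * Complex.I)) *
        ((t : ℂ) + Complex.I))
    unfold ev
    linear_combination f (UpperHalfPlane.ofComplex (((x + t * y : ℝ) : ℂ) + (y : ℂ) * Complex.I)) *
      Complex.I_mul_I
  have hcont : ContinuousOn (fun y : ℝ => (1 - (t : ℂ) * Complex.I) * ev f (x + t * y) y)
      (Set.uIcc y₁ y₂) := by
    refine continuousOn_const.mul ?_
    have h2 : Continuous fun y : ℝ => ((x + t * y : ℝ) : ℂ) + (y : ℂ) * Complex.I := by fun_prop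
    refine (LSB_cont f).comp h2.continuousOn ?_
    intro y hy
    rw [Set.uIcc_of_le h12] at hy
    have hy0 : 0 < y := lt_of_lt_of_le h1 hy.1
    show 0 < (((x + t * y : ℝ) : ℂ) + (y : ℂ) * Complex.I).im
    simpa using hy0
  have h := intervalIntegral.integral_eq_sub_of_hasDerivAt hd hcont.intervalIntegrable
  rw [h]
  ring

/-- a vertical half line deformed to rays of all slopes -/
theorem ray_rep_pr {T : ℝ} {ρ : ℝ → ℝ} (hρ : Ker T ρ) (f : S2 N) (x : ℝ) {y₁ y₂ : ℝ} (h1 : 0 < y₁)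
    (h12 : y₁ ≤ y₂) :
    Psi f x y₁ =
      (∫ y in y₁..y₂, ∫ t : ℝ, (ρ t : ℂ) * (1 - (t : ℂ) * Complex.I) * ev f (x + t * y) y) +
      (∫ t : ℝ, (ρ t : ℂ) * Psi f (x + t * y₂) y₂) -
      Complex.I * ∫ t : ℝ, (ρ t : ℂ) * ∫ s in (0 : ℝ)..(t * y₁), ev f (x + s) y₁ := by
  have h2 : 0 < y₂ := lt_of_lt_of_le h1 h12
  have hcs : HasCompactSupport (fun t : ℝ => (ρ t : ℂ)) := by
    refine HasCompactSupport.intro (isCompact_Icc (a := -T) (b := T)) fun t ht => ?_
    have : T < |t| := by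
      by_contra hcon
      exact ht (abs_le.mp (not_lt.mp hcon))
    rw [hρ.supp t this, Complex.ofReal_zero]
  have hρc : Continuous fun t : ℝ => (ρ t : ℂ) := Complex.continuous_ofReal.comp hρ.cont
  have hPc : ∀ y : ℝ, 0 < y → Continuous fun t : ℝ =>
      rep_P f (((x + t * y : ℝ) : ℂ) + (y : ℂ) * Complex.I) := by
    intro y hy
    have h3 : Continuous fun t : ℝ => ((x + t * y : ℝ) : ℂ) + (y : ℂ) * Complex.I := by fun_prop
    exact (rep_contOn f).comp_continuous h3 (fun s => by simpa using hy)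
  have hint : ∀ y : ℝ, 0 < y → Integrable fun t : ℝ =>
      (ρ t : ℂ) * rep_P f (((x + t * y : ℝ) : ℂ) + (y : ℂ) * Complex.I) := by
    intro y hy
    exact (hρc.mul (hPc y hy)).integrable_of_hasCompactSupport hcs.mul_right
  have hint0 : Integrable fun t : ℝ => (ρ t : ℂ) * rep_P f ((x : ℂ) + (y₁ : ℂ) * Complex.I) :=
    (hρc.mul continuous_const).integrable_of_hasCompactSupport hcs.mul_right
  have hρi : ∫ t : ℝ, (ρ t : ℂ) = 1 := by
    have h4 : ∫ t : ℝ, (ρ t : ℂ) = ((∫ t : ℝ, ρ t : ℝ) : ℂ) := integral_ofReal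
    rw [h4, hρ.int, Complex.ofReal_one]
  -- the three terms
  have e1 : Complex.I * ∫ t : ℝ, (ρ t : ℂ) * ∫ s in (0 : ℝ)..(t * y₁), ev f (x + s) y₁ =
      (∫ t : ℝ, (ρ t : ℂ) * rep_P f (((x + t * y₁ : ℝ) : ℂ) + (y₁ : ℂ) * Complex.I)) -
        rep_P f ((x : ℂ) + (y₁ : ℂ) * Complex.I) := by
    rw [← integral_const_mul]
    have h5 : ∀ t : ℝ, Complex.I * ((ρ t : ℂ) * ∫ s in (0 : ℝ)..(t * y₁), ev f (x + s) y₁) =
        (ρ t : ℂ) * rep_P f (((x + t * y₁ : ℝ) : ℂ) + (y₁ : ℂ) * Complex.I) -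
          (ρ t : ℂ) * rep_P f ((x : ℂ) + (y₁ : ℂ) * Complex.I) := by
      intro t
      rw [mul_left_comm, rep_hor f x h1, mul_sub]
    simp only [h5]
    rw [integral_sub (hint y₁ h1) hint0, integral_mul_const, hρi, one_mul]
  have e2 : ∫ t : ℝ, (ρ t : ℂ) * Psi f (x + t * y₂) y₂ =
      ∫ t : ℝ, (ρ t : ℂ) * rep_P f (((x + t * y₂ : ℝ) : ℂ) + (y₂ : ℂ) * Complex.I) := by
    refine integral_congr_ae (ae_of_all _ fun t => ?_)
    show (ρ t : ℂ) * Psi f (x + t * y₂) y₂ = _
    rw [rep_psi f _ h2]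
  have e3 : ∫ y in y₁..y₂, ∫ t : ℝ, (ρ t : ℂ) * (1 - (t : ℂ) * Complex.I) * ev f (x + t * y) y =
      (∫ t : ℝ, (ρ t : ℂ) * rep_P f (((x + t * y₁ : ℝ) : ℂ) + (y₁ : ℂ) * Complex.I)) -
        ∫ t : ℝ, (ρ t : ℂ) * rep_P f (((x + t * y₂ : ℝ) : ℂ) + (y₂ : ℂ) * Complex.I) := by
    rw [intervalIntegral.integral_of_le h12]
    have hI : Integrable (fun p : ℝ × ℝ => (ρ p.2 : ℂ) * (1 - (p.2 : ℂ) * Complex.I) *
        ev f (x + p.2 * p.1) p.1) ((volume.restrict (Set.Ioc y₁ y₂)).prod volume) := by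
      have hcomp : IsCompact (Set.Icc y₁ y₂ ×ˢ Set.Icc (-T) T) := isCompact_Icc.prod isCompact_Icc
      have hco : ContinuousOn (fun p : ℝ × ℝ => (ρ p.2 : ℂ) * (1 - (p.2 : ℂ) * Complex.I) *
          ev f (x + p.2 * p.1) p.1) (Set.Icc y₁ y₂ ×ˢ Set.Icc (-T) T) := by
        refine ContinuousOn.mul (Continuous.continuousOn ?_) ?_
        · exact (hρc.comp continuous_snd).mul (by fun_prop)
        have h6 : Continuous fun p : ℝ × ℝ => ((x + p.2 * p.1 : ℝ) : ℂ) + (p.1 : ℂ) * Complex.I := by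
          fun_prop
        refine (LSB_cont f).comp h6.continuousOn ?_
        intro p hp
        have hp1 : 0 < p.1 := lt_of_lt_of_le h1 hp.1.1
        show 0 < (((x + p.2 * p.1 : ℝ) : ℂ) + (p.1 : ℂ) * Complex.I).im
        simpa using hp1
      have hio : IntegrableOn (fun p : ℝ × ℝ => (ρ p.2 : ℂ) * (1 - (p.2 : ℂ) * Complex.I) *
          ev f (x + p.2 * p.1) p.1) (Set.Icc y₁ y₂ ×ˢ Set.Icc (-T) T) :=
        hco.integrableOn_compact hcomp
      have hio2 : IntegrableOn (fun p : ℝ × ℝ => (ρ p.2 : ℂ) * (1 - (p.2 : ℂ) * Complex.I) *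
          ev f (x + p.2 * p.1) p.1) (Set.Ioc y₁ y₂ ×ˢ Set.univ) := by
        have h7 : Set.Ioc y₁ y₂ ×ˢ (Set.univ : Set ℝ) =
            (Set.Ioc y₁ y₂ ×ˢ Set.Icc (-T) T) ∪ (Set.Ioc y₁ y₂ ×ˢ (Set.Icc (-T) T)ᶜ) := by
          rw [← Set.prod_union, Set.union_compl_self]
        rw [h7]
        refine IntegrableOn.union (hio.mono_set (Set.prod_mono Set.Ioc_subset_Icc_self subset_rfl)) ?_
        have h0 : IntegrableOn (fun _ : ℝ × ℝ => (0 : ℂ)) (Set.Ioc y₁ y₂ ×ˢ (Set.Icc (-T) T)ᶜ) :=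
          integrableOn_zero
        refine h0.congr_fun ?_ (measurableSet_Ioc.prod measurableSet_Icc.compl)
        intro p hp
        have h8 : T < |p.2| := by
          by_contra hcon
          exact hp.2 (abs_le.mp (not_lt.mp hcon))
        show (0 : ℂ) = (ρ p.2 : ℂ) * (1 - (p.2 : ℂ) * Complex.I) * ev f (x + p.2 * p.1) p.1
        rw [hρ.supp _ h8, Complex.ofReal_zero, zero_mul, zero_mul]
      rw [IntegrableOn, Measure.volume_eq_prod, ← Measure.prod_restrict, Measure.restrict_univ] at hio2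
      exact hio2
    rw [integral_integral_swap hI]
    rw [← integral_sub (hint y₁ h1) (hint y₂ h2)]
    refine integral_congr_ae (ae_of_all _ fun t => ?_)
    show ∫ y in Set.Ioc y₁ y₂, (ρ t : ℂ) * (1 - (t : ℂ) * Complex.I) * ev f (x + t * y) y = _
    rw [← intervalIntegral.integral_of_le h12]
    have h9 : ∀ y : ℝ, (ρ t : ℂ) * (1 - (t : ℂ) * Complex.I) * ev f (x + t * y) y =
        (ρ t : ℂ) * ((1 - (t : ℂ) * Complex.I) * ev f (x + t * y) y) := fun y => by ring
    simp only [h9]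
    rw [intervalIntegral.integral_const_mul, rep_ray f x t h1 h12, mul_sub]
  rw [e1, e2, e3, rep_psi f x h1]
  ring

end

theorem ray_rep : type_of% @ray_rep_pr := @ray_rep_pr

end Pool.Agent.KSL
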