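import Pool.Agent.Lib_helper68.KSL.Defs
import Pool.Agent.Lib_helper68.LEV.GID
import Pool.Agent.Lib_helper68.KSLF.BLR
import Pool.Agent.Lib_helper68.KSLF.HIR
import Pool.Agent.Lib_helper68.KSLF.REP

/-!
# KSL, block LSP
-/

set_option autoImplicit false

namespace Pool.Agent.KSL

open Pool.Agent.LEV Pool.Agent.LVB
open Pool.Agent.FG61 (mu phi cc ff AA Lam)
open Complex MeasureTheory Filter Topology UpperHalfPlane ModularGroup ProbabilityTheory
open scoped MatrixGroups Modular ENNReal ModularForm ComplexConjugate ContDiff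

section
variable {N : ℕ} [Fact N.Prime]

theorem lsp_rq (q : ℕ) (hq : 1 ≤ q) : 0 < rq N q ∧ 2 * rq N q ≤ 2 / Real.sqrt N := by
  have hN : (0 : ℝ) < N := by exact_mod_cast (Fact.out : N.Prime).pos
  have hs : 0 < Real.sqrt N := Real.sqrt_pos.2 hN
  have hq' : (1 : ℝ) ≤ q := by exact_mod_cast hq
  have hq0 : (0 : ℝ) < q := by linarith
  constructor
  · unfold rq
    positivity
  · unfold rq
    have h1 : 1 / ((q : ℝ) * Real.sqrt N) ≤ 1 / Real.sqrt N := by
      apply one_div_le_one_div_of_le hs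
      nlinarith
    have h2 : 2 / Real.sqrt N = 2 * (1 / Real.sqrt N) := by ring
    rw [h2]
    linarith

theorem lsp_one {T : ℝ} {ρ : ℝ → ℝ} (hρ : Ker T ρ) (g : S2 N) {q : ℕ} (hq : 1 ≤ q) (x : ℝ) :
    ∫ v in Set.Ioi (rq N q), ev g x v =
      (∫ y in (2 * rq N q)..(2 / Real.sqrt N), ∫ t : ℝ,
        (ρ t : ℂ) * (1 - (t : ℂ) * Complex.I) * ev g (x + t * y) y) +
      (∫ t : ℝ, (ρ t : ℂ) * Psi g (x + t * (2 / Real.sqrt N)) (2 / Real.sqrt N)) +
      bdf g ρ q x := by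
  obtain ⟨h0, h1⟩ := lsp_rq (N := N) q hq
  have h2 : 0 < 2 * rq N q := by positivity
  have h3 := ray_rep hρ g x h2 h1
  have h4 : (∫ v in (rq N q)..(2 * rq N q), ev g x v) + ∫ v in Set.Ioi (2 * rq N q), ev g x v =
      ∫ v in Set.Ioi (rq N q), ev g x v :=
    intervalIntegral.integral_interval_add_Ioi (GID_int g x h0) (GID_int g x h2)
  have h5 : (∫ v in Set.Ioi (2 * rq N q), ev g x v) = Psi g x (2 * rq N q) := rfl
  rw [← h4, h5, h3]
  unfold bdf
  ring

theorem lw_split_pr {T : ℝ} {ρ : ℝ → ℝ} (hρ : Ker T ρ) (g : S2 N) (Q : ℕ) (w : ℕ → ℝ) :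
    lw g Q w =
      (∫ z in {z : ℂ | 0 < z.im ∧ z.im < 2 / Real.sqrt N},
        g (UpperHalfPlane.ofComplex z) * ph N Q w ρ z.re z.im) +
      (∑' n : ℕ, co g n / (2 * Real.pi * n) *
        ((Real.exp (-2 * Real.pi * n * (2 / Real.sqrt N)) * sgm ρ (n * (2 / Real.sqrt N)) *
          WW Q w n : ℝ) : ℂ)) +
      ∑ q ∈ Finset.Icc 1 Q, (w q : ℂ) * ∑ j ∈ RR q, bdf g ρ q ((j : ℝ) / q) := by
  have hN : (0 : ℝ) < N := by exact_mod_cast (Fact.out : N.Prime).pos
  have hy : 0 < 2 / Real.sqrt N := by positivity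
  rw [← bulk_eq hρ g Q w, ← high_eq hρ g Q w hy, ← Finset.sum_add_distrib,
    ← Finset.sum_add_distrib]
  unfold lw
  refine Finset.sum_congr rfl fun q hq => ?_
  rw [← mul_add, ← mul_add, ← Finset.sum_add_distrib, ← Finset.sum_add_distrib]
  congr 1
  refine Finset.sum_congr rfl fun j _ => ?_
  exact lsp_one hρ g (Finset.mem_Icc.1 hq).1 _

theorem lw_linear_pr (Q : ℕ) (w : ℕ → ℝ) : ∃ l : S2 N →ₗ[ℂ] ℂ, ∀ f : S2 N, l f = lw f Q w := by
  refine ⟨{ toFun := fun f => lw f Q w, map_add' := ?_, map_smul' := ?_ }, fun f => rfl⟩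
  · intro f g
    unfold lw
    rw [← Finset.sum_add_distrib]
    refine Finset.sum_congr rfl fun q hq => ?_
    rw [← mul_add, ← Finset.sum_add_distrib]
    congr 1
    refine Finset.sum_congr rfl fun j _ => ?_
    obtain ⟨h0, -⟩ := lsp_rq (N := N) q (Finset.mem_Icc.1 hq).1
    rw [← integral_add (GID_int f _ h0) (GID_int g _ h0)]
    rfl
  · intro c f
    unfold lw
    rw [RingHom.id_apply, smul_eq_mul, Finset.mul_sum]
    refine Finset.sum_congr rfl fun q hq => ?_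
    rw [mul_left_comm]
    congr 1
    rw [Finset.mul_sum]
    refine Finset.sum_congr rfl fun j _ => ?_
    rw [← integral_const_mul]
    rfl

end


theorem lw_split : type_of% @lw_split_pr := @lw_split_pr
theorem lw_linear : type_of% @lw_linear_pr := @lw_linear_pr

end Pool.Agent.KSL
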