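import Pool.Agent.Lib_helper68.KSL.Defs
import Pool.Agent.Lib_helper68.LEV.GTD

/-! KSL, block FRD: the Ford domain of `Γ₀(N)⁺`. -/

namespace Pool.Agent.KSL

open Pool.Agent.LEV Pool.Agent.LVB
open Complex MeasureTheory Filter Topology UpperHalfPlane ModularGroup ProbabilityTheory
open scoped MatrixGroups Modular ENNReal ModularForm ComplexConjugate ContDiff

theorem frd_im {A : Matrix (Fin 2) (Fin 2) ℤ} {u v : ℍ} (h : GTD_Mob A u v) :
    v.im * ‖((A 1 0 : ℤ) : ℂ) * (u : ℂ) + ((A 1 1 : ℤ) : ℂ)‖ ^ 2 = (A.det : ℝ) * u.im := by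
  unfold GTD_Mob at h
  rw [Matrix.det_fin_two]
  have hre := congrArg Complex.re h
  have him := congrArg Complex.im h
  simp only [Complex.add_im, Complex.mul_im, Complex.intCast_re, Complex.intCast_im, Complex.add_re,
    Complex.mul_re, zero_mul, add_zero, sub_zero] at hre him
  rw [← Complex.normSq_eq_norm_sq, Complex.normSq_apply]
  simp only [Complex.add_im, Complex.mul_im, Complex.intCast_re, Complex.intCast_im, Complex.add_re,
    Complex.mul_re, zero_mul, add_zero, sub_zero]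
  have e1 : v.im = (v : ℂ).im := rfl
  have e2 : u.im = (u : ℂ).im := rfl
  rw [e1, e2]
  push_cast
  linear_combination (-((A 1 0 : ℤ) : ℝ) * (u : ℂ).im) * hre +
    (((A 1 0 : ℤ) : ℝ) * (u : ℂ).re + ((A 1 1 : ℤ) : ℝ)) * him

section
variable {N : ℕ} [Fact N.Prime]

/-- the group elements fixing infinity -/
theorem frd_C1 {A : Set ℍ} {α : ℝ} (h : ∀ z ∈ A, α ≤ z.re ∧ z.re < α + 1 ∧ Ford N z)
    (g : SL(2, ℤ)) {l : ZMod N}
    (hl : (GTD_red N (g : Matrix (Fin 2) (Fin 2) ℤ)).mulVec (GTD_vec (OnePoint.infty : PX N)) =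
      l • GTD_vec (OnePoint.infty : PX N)) {z₁ z₂ : ℍ} (h1 : z₁ ∈ A) (h2 : z₂ ∈ A)
    (h3 : GTD_Mob (g : Matrix (Fin 2) (Fin 2) ℤ) z₁ z₂) : g = 1 ∨ g = -1 := by
  have hdet := g.det_coe
  rw [Matrix.det_fin_two] at hdet
  have hc : (N : ℤ) ∣ (g : Matrix (Fin 2) (Fin 2) ℤ) 1 0 := by
    rw [← ZMod.intCast_zmod_eq_zero_iff_dvd]
    rw [GTD_mulVec, GTD_vec_inf] at hl
    have := congrFun hl 1
    simpa using this
  set a := (g : Matrix (Fin 2) (Fin 2) ℤ) 0 0 with ha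
  set b := (g : Matrix (Fin 2) (Fin 2) ℤ) 0 1 with hb
  set c := (g : Matrix (Fin 2) (Fin 2) ℤ) 1 0 with hcdef
  set d := (g : Matrix (Fin 2) (Fin 2) ℤ) 1 1 with hd
  have hgdet : ((g : Matrix (Fin 2) (Fin 2) ℤ).det : ℝ) = 1 := by
    rw [g.det_coe]; simp
  by_cases hc0 : c = 0
  · -- translations
    rw [hc0, mul_zero, sub_zero] at hdet
    have hm := h3
    unfold GTD_Mob at hm
    rw [← ha, ← hb, ← hcdef, ← hd, hc0] at hm
    have key : ∀ e : ℤ, (e = 1 ∨ e = -1) → a = e → d = e → b = 0 := by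
      intro e he hae hde
      rw [hae, hde] at hm
      have hre := congrArg Complex.re hm
      simp only [Complex.add_im, Complex.mul_im, Complex.intCast_re, Complex.intCast_im,
        Complex.add_re, Complex.mul_re, zero_mul, mul_zero, add_zero, sub_zero, Int.cast_zero,
        Complex.ofReal_zero, zero_add] at hre
      have e1 : z₁.re = (z₁ : ℂ).re := rfl
      have e2 : z₂.re = (z₂ : ℂ).re := rfl
      obtain ⟨p1, p2, -⟩ := h z₁ h1
      obtain ⟨p3, p4, -⟩ := h z₂ h2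
      rw [e1] at p1 p2
      rw [e2] at p3 p4
      rcases he with he | he
      · rw [he] at hre
        push_cast at hre
        have h5 : (b : ℝ) < 1 := by linarith
        have h6 : (-1 : ℝ) < b := by linarith
        have h7 : b < 1 := by exact_mod_cast h5
        have h8 : -1 < b := by exact_mod_cast h6
        omega
      · rw [he] at hre
        push_cast at hre
        have h5 : (b : ℝ) < 1 := by linarith
        have h6 : (-1 : ℝ) < b := by linarith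
        have h7 : b < 1 := by exact_mod_cast h5
        have h8 : -1 < b := by exact_mod_cast h6
        omega
    rcases Int.mul_eq_one_iff_eq_one_or_neg_one.mp hdet with ⟨p, q⟩ | ⟨p, q⟩
    · left
      have hb0 := key 1 (Or.inl rfl) p q
      ext i j
      fin_cases i <;> fin_cases j
      · change a = 1; exact p
      · change b = 0; exact hb0
      · change c = 0; exact hc0
      · change d = 1; exact q
    · right
      have hb0 := key (-1) (Or.inr rfl) p q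
      ext i j
      fin_cases i <;> fin_cases j
      · change a = -1; exact p
      · change b = -0; rw [hb0, neg_zero]
      · change c = -0; rw [hc0, neg_zero]
      · change d = -1; exact q
  · exfalso
    have h4 := frd_im h3
    have h5 := frd_im (GTD_Mob_adj h3)
    rw [hgdet, one_mul] at h4
    rw [GTD_adj_det, hgdet, one_mul] at h5
    rw [Matrix.adjugate_fin_two] at h5
    simp only [Matrix.of_apply, Matrix.cons_val', Matrix.cons_val_zero, Matrix.cons_val_one,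
      Matrix.cons_val_fin_one] at h5
    rw [← ha, ← hcdef] at h5
    rw [← hcdef, ← hd] at h4
    have f1 := (h z₁ h1).2.2.2 c d hc0 hc
    have f2 := (h z₂ h2).2.2.2 (-c) a (neg_ne_zero.mpr hc0) ((dvd_neg).mpr hc)
    have q1 := z₁.im_pos
    have q2 := z₂.im_pos
    have f3 : z₂.im < z₁.im := by
      calc z₂.im = z₂.im * 1 := (mul_one _).symm
        _ < z₂.im * ‖(c : ℂ) * (z₁ : ℂ) + (d : ℂ)‖ ^ 2 := mul_lt_mul_of_pos_left f1 q2
        _ = z₁.im := h4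
    have f4 : z₁.im < z₂.im := by
      calc z₁.im = z₁.im * 1 := (mul_one _).symm
        _ < z₁.im * ‖((-c : ℤ) : ℂ) * (z₂ : ℂ) + (a : ℂ)‖ ^ 2 := mul_lt_mul_of_pos_left f2 q1
        _ = z₂.im := h5
    linarith

/-- the Fricke type elements -/
theorem frd_C2 {A : Set ℍ} {α : ℝ} (h : ∀ z ∈ A, α ≤ z.re ∧ z.re < α + 1 ∧ Ford N z)
    (B : Matrix (Fin 2) (Fin 2) ℤ)
    (hB : B.det = N) (hk : (GTD_red N B).mulVec (GTD_vec (OnePoint.infty : PX N)) = 0)
    (him : ∀ x : Fin 2 → ZMod N, ∃ m : ZMod N, (GTD_red N B).mulVec x =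
      m • GTD_vec (OnePoint.infty : PX N))
    {z₁ z₂ : ℍ} (h1 : z₁ ∈ A) (h2 : z₂ ∈ A)
    (h3 : GTD_Mob B z₁ z₂) : False := by
  have hN0 : (N : ℤ) ≠ 0 := by exact_mod_cast (Fact.out : N.Prime).ne_zero
  have hNp : (0 : ℝ) < N := by exact_mod_cast (Fact.out : N.Prime).pos
  rw [GTD_mulVec, GTD_vec_inf] at hk
  have k0 := congrFun hk 0
  have k1 := congrFun hk 1
  obtain ⟨m, hm⟩ := him ![0, 1]
  rw [GTD_mulVec, GTD_vec_inf] at hm
  have k2 := congrFun hm 1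
  simp only [Matrix.cons_val_zero, Matrix.cons_val_one, Matrix.cons_val_fin_one, mul_one,
    mul_zero, add_zero, zero_add, Pi.smul_apply, smul_eq_mul, Pi.zero_apply] at k0 k1 k2
  rw [ZMod.intCast_zmod_eq_zero_iff_dvd] at k0 k1 k2
  obtain ⟨a, ha⟩ := k0
  obtain ⟨c, hc⟩ := k1
  obtain ⟨d, hd⟩ := k2
  have hdet := hB
  rw [Matrix.det_fin_two, ha, hc, hd] at hdet
  have hc0 : c ≠ 0 := by
    rintro rfl
    have h4 : (N : ℤ) * (a * d) = 1 := by
      apply mul_left_cancel₀ hN0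
      linear_combination hdet
    have h5 : (N : ℤ) ∣ 1 := ⟨_, h4.symm⟩
    have h6 := Int.natAbs_dvd_natAbs.mpr h5
    simp only [Int.natAbs_natCast, Int.natAbs_one, Nat.dvd_one] at h6
    exact (Fact.out : N.Prime).one_lt.ne' h6
  have h4 := frd_im h3
  have h5 := frd_im (GTD_Mob_adj h3)
  rw [GTD_adj_det] at h5
  rw [hB] at h4 h5
  rw [Matrix.adjugate_fin_two] at h5
  simp only [Matrix.of_apply, Matrix.cons_val', Matrix.cons_val_zero, Matrix.cons_val_one,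
    Matrix.cons_val_fin_one] at h5
  rw [hc, hd] at h4
  rw [hc, ha] at h5
  have e1 : (((N : ℤ) * c : ℤ) : ℂ) * (z₁ : ℂ) + (((N : ℤ) * d : ℤ) : ℂ) =
      (N : ℂ) * ((c : ℂ) * (z₁ : ℂ) + (d : ℂ)) := by push_cast; ring
  have e2 : ((-((N : ℤ) * c) : ℤ) : ℂ) * (z₂ : ℂ) + (((N : ℤ) * a : ℤ) : ℂ) =
      (N : ℂ) * (((-c : ℤ) : ℂ) * (z₂ : ℂ) + (a : ℂ)) := by push_cast; ring
  rw [e1, norm_mul, Complex.norm_natCast, mul_pow] at h4
  rw [e2, norm_mul, Complex.norm_natCast, mul_pow] at h5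
  have f1 := (h z₁ h1).2.2.1 c d hc0
  have f2 := (h z₂ h2).2.2.1 (-c) a (neg_ne_zero.mpr hc0)
  have q1 := z₁.im_pos
  have q2 := z₂.im_pos
  set X : ℝ := ‖(c : ℂ) * (z₁ : ℂ) + (d : ℂ)‖ ^ 2 with hX
  set Y : ℝ := ‖((-c : ℤ) : ℂ) * (z₂ : ℂ) + (a : ℂ)‖ ^ 2 with hY
  push_cast at h4 h5
  have g1 : z₂.im * (N * X) = z₁.im := by
    apply mul_left_cancel₀ hNp.ne'
    linear_combination h4
  have g2 : z₁.im * (N * Y) = z₂.im := by
    apply mul_left_cancel₀ hNp.ne'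
    linear_combination h5
  have f3 : z₂.im < z₁.im := by
    calc z₂.im = z₂.im * 1 := (mul_one _).symm
      _ < z₂.im * (N * X) := mul_lt_mul_of_pos_left f1 q2
      _ = z₁.im := g1
  have f4 : z₁.im < z₂.im := by
    calc z₁.im = z₁.im * 1 := (mul_one _).symm
      _ < z₁.im * (N * Y) := mul_lt_mul_of_pos_left f2 q1
      _ = z₂.im := g2
  linarith

theorem frd_FF {S : Set ℍ} {α : ℝ} (h : ∀ z ∈ S, α ≤ z.re ∧ z.re < α + 1 ∧ Ford N z)
    {q₀ q₁ : PX N} {z₀ : ℍ} {γ δ : SL(2, ℤ)} {A : Matrix (Fin 2) (Fin 2) ℤ} (hA : A.det = N)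
    (hk : (GTD_red N A).mulVec (GTD_vec (OnePoint.infty : PX N)) = 0)
    (hk' : (GTD_red N A.adjugate).mulVec (GTD_vec q₁) = 0)
    (h1 : pa γ q₀ = q₁) {z₁ : ℍ} (h2 : z₁ ∈ S)
    (h3 : GTD_Mob A.adjugate (γ • z₀) z₁)
    (h4 : pa δ q₀ = q₁) {z₂ : ℍ} (h5 : z₂ ∈ S)
    (h6 : GTD_Mob A.adjugate (δ • z₀) z₂) :
    δ = γ ∨ δ = -γ := by
  have hN0 : (N : ℤ) ≠ 0 := by exact_mod_cast (Fact.out : N.Prime).ne_zero
  have hNp : (0 : ℤ) < N := by exact_mod_cast (Fact.out : N.Prime).pos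
  set r : SL(2, ℤ) := δ * γ⁻¹ with hr
  have hrγ : (r : Matrix (Fin 2) (Fin 2) ℤ) * (γ : Matrix (Fin 2) (Fin 2) ℤ) =
      (δ : Matrix (Fin 2) (Fin 2) ℤ) := by
    rw [← Matrix.SpecialLinearGroup.coe_mul, hr, inv_mul_cancel_right]
  obtain ⟨l, hl⟩ := GTD_rel h1 h4
  set C : Matrix (Fin 2) (Fin 2) ℤ := A.adjugate * ((r : Matrix (Fin 2) (Fin 2) ℤ) * A)
    with hC
  have hC0 : ∀ y : Fin 2 → ZMod N, (GTD_red N C).mulVec y = 0 := by
    intro y
    rw [hC, map_mul, map_mul, ← Matrix.mulVec_mulVec, ← Matrix.mulVec_mulVec]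
    have hB : (A.adjugate).det = N := by rw [GTD_adj_det, hA]
    obtain ⟨m, hm⟩ := GTD_K hB hk' (y := (GTD_red N A).mulVec y) (GTD_red_det' hA y)
    rw [hm, Matrix.mulVec_smul, hl, Matrix.mulVec_smul, Matrix.mulVec_smul, hk', smul_zero,
      smul_zero]
  obtain ⟨g, hg⟩ := GTD_div hC0
  have hgdet : g.det = 1 := by
    have h7 : C.det = (N : ℤ) * N := by
      rw [hC, Matrix.det_mul, Matrix.det_mul, GTD_adj_det, hA,
        Matrix.SpecialLinearGroup.det_coe, one_mul]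
    rw [hg, Matrix.det_smul, Fintype.card_fin, pow_two] at h7
    have h8 : ((N : ℤ) * N) * g.det = ((N : ℤ) * N) * 1 := by rw [h7, mul_one]
    exact mul_left_cancel₀ (mul_ne_zero hN0 hN0) h8
  set G : SL(2, ℤ) := ⟨g, hgdet⟩ with hG
  have hGc : (G : Matrix (Fin 2) (Fin 2) ℤ) = g := rfl
  have hgB : g * (A.adjugate * (γ : Matrix (Fin 2) (Fin 2) ℤ)) =
      A.adjugate * (δ : Matrix (Fin 2) (Fin 2) ℤ) := by
    have h7 : (N : ℤ) • (g * (A.adjugate * (γ : Matrix (Fin 2) (Fin 2) ℤ))) =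
        (N : ℤ) • (A.adjugate * (δ : Matrix (Fin 2) (Fin 2) ℤ)) := by
      rw [← Matrix.smul_mul, ← hg, hC]
      calc A.adjugate * ((r : Matrix (Fin 2) (Fin 2) ℤ) * A) *
            (A.adjugate * (γ : Matrix (Fin 2) (Fin 2) ℤ))
          = A.adjugate * ((r : Matrix (Fin 2) (Fin 2) ℤ) * ((A * A.adjugate) *
            (γ : Matrix (Fin 2) (Fin 2) ℤ))) := by
            simp only [Matrix.mul_assoc]
        _ = (N : ℤ) • (A.adjugate * ((r : Matrix (Fin 2) (Fin 2) ℤ) *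
            (γ : Matrix (Fin 2) (Fin 2) ℤ))) := by
            rw [Matrix.mul_adjugate, hA, Matrix.smul_mul, Matrix.one_mul, Matrix.mul_smul,
              Matrix.mul_smul]
        _ = _ := by rw [hrγ]
    ext i j
    have h8 := congrFun (congrFun h7 i) j
    rw [Matrix.smul_apply, Matrix.smul_apply, smul_eq_mul, smul_eq_mul] at h8
    exact mul_left_cancel₀ hN0 h8
  have hvec : ∃ m : ZMod N, (GTD_red N (G : Matrix (Fin 2) (Fin 2) ℤ)).mulVec
      (GTD_vec (OnePoint.infty : PX N)) = m • GTD_vec (OnePoint.infty : PX N) := by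
    have hex : ∃ x : Fin 2 → ZMod N, (GTD_red N A.adjugate).mulVec x ≠ 0 := by
      by_contra hcon
      push Not at hcon
      obtain ⟨g', hg'⟩ := GTD_div hcon
      have h7 : (A.adjugate).det = N := by rw [GTD_adj_det, hA]
      rw [hg', Matrix.det_smul, Fintype.card_fin, pow_two] at h7
      have h8 : (N : ℤ) * g'.det = 1 := by
        apply mul_left_cancel₀ hN0
        linear_combination h7
      have h9 : (N : ℤ) ∣ 1 := ⟨_, h8.symm⟩
      have h10 := Int.natAbs_dvd_natAbs.mpr h9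
      simp only [Int.natAbs_natCast, Int.natAbs_one, Nat.dvd_one] at h10
      exact (Fact.out : N.Prime).one_lt.ne' h10
    obtain ⟨x, hx⟩ := hex
    obtain ⟨m, hm⟩ := GTD_K hA hk (GTD_red_det hA x)
    have hm0 : m ≠ 0 := by
      rintro rfl
      rw [zero_smul] at hm
      exact hx hm
    have hγγ : (γ : Matrix (Fin 2) (Fin 2) ℤ) * ((γ⁻¹ : SL(2, ℤ)) : Matrix (Fin 2) (Fin 2) ℤ) = 1 := by
      rw [← Matrix.SpecialLinearGroup.coe_mul, mul_inv_cancel, Matrix.SpecialLinearGroup.coe_one]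
    have h7 : GTD_vec (OnePoint.infty : PX N) = m⁻¹ • (GTD_red N (A.adjugate *
        (γ : Matrix (Fin 2) (Fin 2) ℤ))).mulVec ((GTD_red N
          ((γ⁻¹ : SL(2, ℤ)) : Matrix (Fin 2) (Fin 2) ℤ)).mulVec x) := by
      rw [Matrix.mulVec_mulVec, ← map_mul, Matrix.mul_assoc, hγγ, Matrix.mul_one, hm, smul_smul,
        inv_mul_cancel₀ hm0, one_smul]
    obtain ⟨m', hm'⟩ := GTD_K hA hk (GTD_red_det hA
      ((GTD_red N (δ : Matrix (Fin 2) (Fin 2) ℤ)).mulVec ((GTD_red N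
          ((γ⁻¹ : SL(2, ℤ)) : Matrix (Fin 2) (Fin 2) ℤ)).mulVec x)))
    refine ⟨m⁻¹ * m', ?_⟩
    conv_lhs => rw [h7]
    rw [Matrix.mulVec_smul, hGc, Matrix.mulVec_mulVec _ (GTD_red N g), ← map_mul, hgB, map_mul,
      ← Matrix.mulVec_mulVec, hm', smul_smul]
  obtain ⟨m, hm⟩ := hvec
  have hpt : GTD_Mob (G : Matrix (Fin 2) (Fin 2) ℤ) z₁ z₂ := by
    have h7 : GTD_Mob (A.adjugate * (γ : Matrix (Fin 2) (Fin 2) ℤ)) z₀ z₁ :=
      GTD_Mob_comp (GTD_SL_Mob γ z₀) h3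
    have h8 : GTD_Mob (A.adjugate * (δ : Matrix (Fin 2) (Fin 2) ℤ)) z₀ z₂ :=
      GTD_Mob_comp (GTD_SL_Mob δ z₀) h6
    have h9 : GTD_Mob (g * (A.adjugate * (γ : Matrix (Fin 2) (Fin 2) ℤ))) z₀ (G • z₁) :=
      GTD_Mob_comp h7 (GTD_SL_Mob G z₁)
    rw [hgB] at h9
    have h10 : z₂ = G • z₁ := GTD_Mob_unique (by
      rw [Matrix.det_mul, GTD_adj_det, hA, Matrix.SpecialLinearGroup.det_coe, mul_one]
      exact hNp) h8 h9
    rw [h10]
    exact GTD_SL_Mob G z₁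
  have h12 := frd_C1 h G hm h2 h5 hpt
  have key : ∀ e : ℤ, (G : Matrix (Fin 2) (Fin 2) ℤ) = e • (1 : Matrix (Fin 2) (Fin 2) ℤ) →
      (δ : Matrix (Fin 2) (Fin 2) ℤ) = e • (γ : Matrix (Fin 2) (Fin 2) ℤ) := by
    intro e he
    rw [hGc] at he
    rw [he, Matrix.smul_mul, Matrix.one_mul] at hgB
    have h7 : A * (e • (A.adjugate * (γ : Matrix (Fin 2) (Fin 2) ℤ))) =
        A * (A.adjugate * (δ : Matrix (Fin 2) (Fin 2) ℤ)) := by rw [hgB]
    rw [Matrix.mul_smul, ← Matrix.mul_assoc, ← Matrix.mul_assoc, Matrix.mul_adjugate, hA,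
      Matrix.smul_mul, Matrix.one_mul, Matrix.smul_mul, Matrix.one_mul] at h7
    ext i j
    have h8 := congrFun (congrFun h7 i) j
    simp only [Matrix.smul_apply, smul_eq_mul] at h8 ⊢
    apply mul_left_cancel₀ hN0
    linear_combination -h8
  rcases h12 with h12 | h12
  · left
    have h7 := key 1 (by rw [h12, Matrix.SpecialLinearGroup.coe_one, one_smul])
    rw [one_smul] at h7
    exact Subtype.ext h7
  · right
    have h7 := key (-1) (by rw [h12]; simp)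
    apply Subtype.ext
    refine h7.trans ?_
    rw [_root_.neg_smul, one_smul]
    exact (Matrix.SpecialLinearGroup.coe_neg γ).symm

/-- points of the Ford domain of `Γ₀(N)⁺` in a strip of width one are inequivalent -/
theorem ford_two_pr {W : S2 N →ₗ[ℂ] S2 N} (hW : IsFricke W) {g : S2 N} (hg : W g = -g) {A : Set ℍ}
    (hA : MeasurableSet A) {α : ℝ}
    (h : ∀ z ∈ A, α ≤ z.re ∧ z.re < α + 1 ∧ Ford N z) :
    2 * ∫⁻ z in A, ‖g z‖ₑ ^ 2 * ENNReal.ofReal (z.im ^ 2) ≤ ENNReal.ofReal (nr g) := by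
  classical
  have hNp : (0 : ℤ) < N := by exact_mod_cast (Fact.out : N.Prime).pos
  obtain ⟨Q', a, b, c, d, hdet, hk, hk', hval⟩ := fricke_point hW g (Or.inr hg)
    (OnePoint.infty : PX N)
  let M : Matrix (Fin 2) (Fin 2) ℤ := !![a, b; c, d]
  have hMdet : M.det = N := by
    rw [Matrix.det_fin_two_of]
    exact hdet
  have hMpos : 0 < M.det := by rw [hMdet]; exact hNp
  have hMk : (GTD_red N M).mulVec (GTD_vec (OnePoint.infty : PX N)) = 0 := GTD_kerq.mpr hk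
  have hMk' : (GTD_red N M.adjugate).mulVec (GTD_vec Q') = 0 := by
    apply GTD_kerq.mpr
    have h2 := hk'
    rw [Matrix.adjugate_fin_two_of]
    exact h2
  have hMval : ∀ (z z' : ℍ), GTD_Mob M z z' →
      ‖fam g (OnePoint.infty : PX N) z‖ ^ 2 * z.im ^ 2 = ‖fam g Q' z'‖ ^ 2 * z'.im ^ 2 :=
    fun z z' h => hval z z' h
  let qq : Bool → PX N := fun κ => if κ then OnePoint.infty else Q'
  let SS : Bool → Set ℍ := fun κ => if κ then A else {z : ℍ | (GTD_gl M hMpos)⁻¹ • z ∈ A}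
  have hfr : MeasurableSet (SS false) ∧
      ∫⁻ z in A, GTD_h g (OnePoint.infty : PX N) z =
        ∫⁻ z in SS false, GTD_h g (qq false) z :=
    GTD_fr g hMpos hMval hA
  have hSS : ∀ κ, MeasurableSet (SS κ) := by
    intro κ
    cases κ with
    | false => exact hfr.1
    | true => exact hA
  have hint : ∀ κ, ∫⁻ z in SS κ, GTD_h g (qq κ) z =
      ∫⁻ z in A, GTD_h g (OnePoint.infty : PX N) z := by
    intro κ
    cases κ with
    | false => exact hfr.2.symm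
    | true => rfl
  let P : PX N → ℍ → Bool → Unit → SL(2, ℤ) → Prop := fun q₀ z κ _ γ =>
    pa γ q₀ = qq κ ∧ γ • z ∈ SS κ
  have hfalse : ∀ (q₀ : PX N) (z : ℍ) (γ : SL(2, ℤ)),
      P q₀ z false () γ → pa γ q₀ = Q' ∧ ∃ z₁, z₁ ∈ A ∧
        GTD_Mob M.adjugate (γ • z) z₁ := by
    rintro q₀ z γ ⟨hp1, hp2⟩
    refine ⟨hp1, _, hp2, ?_⟩
    have h2 := GTD_gl_Mob M hMpos ((GTD_gl M hMpos)⁻¹ • (γ • z))
    rw [smul_inv_smul] at h2
    exact GTD_Mob_adj h2
  have hTF : ∀ (q₀ : PX N) (z₀ : ℍ) (γ δ : SL(2, ℤ)), P q₀ z₀ true () γ → P q₀ z₀ false () δ →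
      False := by
    rintro q₀ z₀ γ δ ⟨hp1, hp2⟩ hp'
    obtain ⟨h3, z₂, h4, h5⟩ := hfalse q₀ z₀ δ hp'
    obtain ⟨l, hl⟩ := GTD_rel hp1 h3
    refine frd_C2 h (M.adjugate * ((δ * γ⁻¹ : SL(2, ℤ)) : Matrix (Fin 2) (Fin 2) ℤ))
      ?_ ?_ ?_ hp2 h4 (GTD_Mob_comp (GTD_relz γ δ z₀) h5)
    · rw [Matrix.det_mul, GTD_adj_det, hMdet, Matrix.SpecialLinearGroup.det_coe, mul_one]
    · have hl' : (GTD_red N ((δ * γ⁻¹ : SL(2, ℤ)) : Matrix (Fin 2) (Fin 2) ℤ)).mulVec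
        (GTD_vec (OnePoint.infty : PX N)) = l • GTD_vec Q' := hl
      rw [map_mul, ← Matrix.mulVec_mulVec, hl', Matrix.mulVec_smul, hMk', smul_zero]
    · intro x
      rw [map_mul, ← Matrix.mulVec_mulVec]
      exact GTD_K hMdet hMk (GTD_red_det hMdet _)
  have hcomb : ∀ (q₀ : PX N) (z : ℍ), ∑ κ : Bool, ∑ x ∈ ({()} : Finset Unit), ∑' γ : SL(2, ℤ),
      (if P q₀ z κ x γ then (1 : ℝ≥0∞) else 0) ≤ 2 := by
    intro q₀ z
    refine GTD_comb {()} (P q₀ z) ?_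
    intro κ x γ κ' y δ _ _ hp hp'
    cases κ with
    | true =>
      cases κ' with
      | true =>
        refine ⟨rfl, rfl, ?_⟩
        obtain ⟨l, hl⟩ := GTD_rel hp.1 hp'.1
        exact GTD_pm1 (frd_C1 h (δ * γ⁻¹) hl hp.2 hp'.2 (GTD_relz γ δ z))
      | false => exact (hTF q₀ z γ δ hp hp').elim
    | false =>
      cases κ' with
      | true => exact (hTF q₀ z δ γ hp' hp).elim
      | false =>
        obtain ⟨h2, z₁, h3, h4⟩ := hfalse q₀ z γ hp
        obtain ⟨h5, z₂, h6, h7⟩ := hfalse q₀ z δ hp'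
        exact ⟨rfl, rfl, frd_FF h hMdet hMk hMk' h2 h3 h4 h5 h6 h7⟩
  have hms : ∀ g : SL(2, ℤ), Measurable (fun z : ℍ => g • z) := fun g => (GL2.RSA_mp g).measurable
  have hmeas : ∀ (q₀ : PX N) κ, Measurable (fun z : ℍ => GTD_h g q₀ z *
      ∑' γ : SL(2, ℤ), (if P q₀ z κ () γ then (1 : ℝ≥0∞) else 0)) := by
    intro q₀ κ
    refine (GTD_h_meas g q₀).mul (Measurable.tsum fun γ => ?_)
    by_cases hq : pa γ q₀ = qq κ
    · simp only [P, hq, true_and]
      exact Measurable.ite ((hms γ) (hSS κ)) measurable_const measurable_const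
    · simp only [P, hq, false_and, if_false]
      exact measurable_const
  have hen : en (fam g) = ∑ q₀ : PX N, ∫⁻ z in 𝒟ᵒ, GTD_h g q₀ z := rfl
  have h4 : ∑ κ : Bool, 2 * ∫⁻ z in A, GTD_h g (OnePoint.infty : PX N) z ≤
      2 * en (fam g) := by
    calc ∑ κ : Bool, 2 * ∫⁻ z in A, GTD_h g (OnePoint.infty : PX N) z
        = ∑ κ : Bool, ∑ q₀ : PX N, ∫⁻ z in 𝒟ᵒ, GTD_h g q₀ z *
          ∑' γ : SL(2, ℤ), (if P q₀ z κ () γ then (1 : ℝ≥0∞) else 0) := by
          refine Finset.sum_congr rfl fun κ _ => ?_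
          rw [← hint κ, GTD_unf g _ (hSS κ)]
      _ = ∑ q₀ : PX N, ∑ κ : Bool, ∫⁻ z in 𝒟ᵒ, GTD_h g q₀ z *
          ∑' γ : SL(2, ℤ), (if P q₀ z κ () γ then (1 : ℝ≥0∞) else 0) := by
          rw [Finset.sum_comm]
      _ = ∑ q₀ : PX N, ∫⁻ z in 𝒟ᵒ, GTD_h g q₀ z * ∑ κ : Bool,
          ∑' γ : SL(2, ℤ), (if P q₀ z κ () γ then (1 : ℝ≥0∞) else 0) := by
          refine Finset.sum_congr rfl fun q₀ _ => ?_
          simp_rw [Finset.mul_sum]
          rw [lintegral_finsetSum _ (fun κ _ => hmeas q₀ κ)]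
      _ ≤ ∑ q₀ : PX N, ∫⁻ z in 𝒟ᵒ, GTD_h g q₀ z * 2 := by
          refine Finset.sum_le_sum fun q₀ _ => lintegral_mono fun z => ?_
          have h8 := hcomb q₀ z
          simp only [Finset.sum_singleton] at h8
          exact mul_le_mul_right h8 _
      _ = 2 * en (fam g) := by
          rw [hen, Finset.mul_sum]
          refine Finset.sum_congr rfl fun q₀ _ => ?_
          rw [lintegral_mul_const _ (GTD_h_meas g q₀), mul_comm]
  have h5 : 2 * ∫⁻ z in A, GTD_h g (OnePoint.infty : PX N) z ≤ en (fam g) := by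
    rw [Fintype.sum_bool, ← two_mul] at h4
    exact (ENNReal.mul_le_mul_iff_right two_ne_zero ENNReal.ofNat_ne_top).mp h4
  rw [nr_en]
  refine le_trans (le_of_eq ?_) h5
  congr 1
  refine lintegral_congr fun z => ?_
  unfold GTD_h
  rw [fam_inf]

end

theorem ford_two : type_of% @ford_two_pr := @ford_two_pr

end Pool.Agent.KSL
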