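import Pool.Agent.Lib_helper68.KSL.Defs
import Pool.Agent.Lib_helper68.LEV.LSB
import Pool.Agent.Lib_helper68.KSLF.FRD

/-! KSL, block MHF. -/

namespace Pool.Agent.KSL

open Pool.Agent.LEV Pool.Agent.LVB
open Pool.Agent.FG61 (mu phi cc ff AA Lam)
open Complex MeasureTheory Filter Topology UpperHalfPlane ModularGroup ProbabilityTheory
open scoped MatrixGroups Modular ENNReal ModularForm ComplexConjugate ContDiff

section
variable {N : ℕ} [Fact N.Prime]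

omit [Fact N.Prime] in
theorem mhf_conv (g : S2 N) {E : Set ℂ} (hE : MeasurableSet E) (hpos : ∀ z ∈ E, 0 < z.im) :
    ∫⁻ z in (UpperHalfPlane.coe ⁻¹' E : Set ℍ), ‖g z‖ₑ ^ 2 * ENNReal.ofReal (z.im ^ 2) =
      ∫⁻ z in E, ‖g (UpperHalfPlane.ofComplex z)‖ₑ ^ 2 := by
  have hmH : MeasurableSet (UpperHalfPlane.coe ⁻¹' E : Set ℍ) :=
    measurableEmbedding_coe.measurable hE
  set H : ℂ → ℝ≥0∞ := E.indicator (fun z => ‖g (UpperHalfPlane.ofComplex z)‖ₑ ^ 2 *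
    ENNReal.ofReal (z.im ^ 2)) with hH
  have h1 : ∫⁻ z in (UpperHalfPlane.coe ⁻¹' E : Set ℍ),
      ‖g z‖ₑ ^ 2 * ENNReal.ofReal (z.im ^ 2) = ∫⁻ w : ℍ, H (w : ℂ) := by
    rw [← lintegral_indicator hmH]
    apply lintegral_congr
    intro w
    by_cases hw : (w : ℂ) ∈ E
    · have hw' : w ∈ (UpperHalfPlane.coe ⁻¹' E : Set ℍ) := hw
      rw [Set.indicator_of_mem hw', hH, Set.indicator_of_mem hw, UpperHalfPlane.ofComplex_apply]
      rfl
    · have hw' : w ∉ (UpperHalfPlane.coe ⁻¹' E : Set ℍ) := hw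
      rw [Set.indicator_of_notMem hw', hH, Set.indicator_of_notMem hw]
  rw [h1, Pool.Agent.GL2.RSA_lint H, ← lintegral_indicator hE,
    ← lintegral_indicator (isOpen_lt continuous_const Complex.continuous_im).measurableSet]
  apply lintegral_congr
  intro z
  by_cases hz : z ∈ E
  · have hp : 0 < z.im := hpos z hz
    have hz' : z ∈ {z : ℂ | 0 < z.im} := hp
    rw [Set.indicator_of_mem hz, Set.indicator_of_mem hz', hH, Set.indicator_of_mem hz, mul_assoc,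
      ← ENNReal.ofReal_mul (by positivity)]
    have : z.im ^ 2 * (1 / z.im ^ 2) = 1 := by field_simp
    rw [this, ENNReal.ofReal_one, mul_one]
  · rw [Set.indicator_of_notMem hz]
    by_cases hz' : z ∈ {z : ℂ | 0 < z.im}
    · rw [Set.indicator_of_mem hz', hH, Set.indicator_of_notMem hz, zero_mul]
    · rw [Set.indicator_of_notMem hz']

theorem mhf_shift (g : S2 N) {R : ℝ} (hR : 0 < R) (α : ℝ) :
    ∫⁻ z in LSB_st α R, ‖g (UpperHalfPlane.ofComplex z)‖ₑ ^ 2 =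
      ∫⁻ z in LSB_st 0 R, ‖g (UpperHalfPlane.ofComplex z)‖ₑ ^ 2 := by
  have hmT : MeasurableSet {z : ℂ | 1 / R ≤ z.im} :=
    measurableSet_le measurable_const Complex.measurable_im
  have key : ∀ β : ℝ, ∫⁻ z in LSB_st β R, ‖g (UpperHalfPlane.ofComplex z)‖ₑ ^ 2 =
      ∫⁻ z in LSB_vs β, {z : ℂ | 1 / R ≤ z.im}.indicator
        (fun z => ‖g (UpperHalfPlane.ofComplex z)‖ₑ ^ 2) z := by
    intro β
    rw [setLIntegral_indicator hmT]
    congr 2
    ext z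
    simp only [LSB_st, LSB_vs, Set.mem_inter_iff, Set.mem_ofPred_eq]
    tauto
  rw [key α, LSB_shift _ _ α, ← key 0]
  intro z m
  by_cases hz : 1 / R ≤ z.im
  · have hpos : 0 < z.im := lt_of_lt_of_le (by positivity) hz
    have him : ((m : ℂ) + z).im = z.im := by simp
    have hz1 : ((m : ℂ) + z) ∈ {z : ℂ | 1 / R ≤ z.im} := by
      simp only [Set.mem_ofPred_eq, him]; exact hz
    have hz2 : z ∈ {z : ℂ | 1 / R ≤ z.im} := hz
    rw [Set.indicator_of_mem hz1, Set.indicator_of_mem hz2,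
      UpperHalfPlane.ofComplex_apply_of_im_pos hpos,
      UpperHalfPlane.ofComplex_apply_of_im_pos (him ▸ hpos : 0 < ((m : ℂ) + z).im)]
    rw [LSB_per g ⟨z, hpos⟩ ⟨(m : ℂ) + z, him ▸ hpos⟩ m rfl]
  · have him : ((m : ℂ) + z).im = z.im := by simp
    have hz1 : ((m : ℂ) + z) ∉ {z : ℂ | 1 / R ≤ z.im} := by
      simp only [Set.mem_ofPred_eq, him]; exact hz
    have hz2 : z ∉ {z : ℂ | 1 / R ≤ z.im} := hz
    rw [Set.indicator_of_notMem hz1, Set.indicator_of_notMem hz2]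

theorem mhf_strip (g : S2 N) {R : ℝ} (hR : 0 < R) (α : ℝ) :
    ∫⁻ z in (UpperHalfPlane.coe ⁻¹' LSB_st α R : Set ℍ),
        ‖g z‖ₑ ^ 2 * ENNReal.ofReal (z.im ^ 2) =
      ENNReal.ofReal (∑' n : ℕ, ‖co g n‖ ^ 2 / (4 * Real.pi * n) *
        Real.exp (-4 * Real.pi * n * (1 / R))) := by
  rw [mhf_conv g (LSB_st_meas α R) (LSB_st_sub hR), mhf_shift g hR α,
    ← mhf_conv g (LSB_st_meas 0 R) (LSB_st_sub hR), ← (strip_sum g (by positivity : 0 < 1 / R)).2]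
  congr 2
  ext z
  simp only [Set.mem_ofPred_eq, Set.mem_preimage, LSB_st, zero_add]
  rfl

theorem mhf_norm (c d : ℤ) (z : ℂ) : ((c : ℝ) * z.im) ^ 2 ≤ ‖(c : ℂ) * z + (d : ℂ)‖ ^ 2 := by
  have h1 : ((c : ℂ) * z + (d : ℂ)).im = (c : ℝ) * z.im := by simp
  have h2 := Complex.abs_im_le_norm ((c : ℂ) * z + (d : ℂ))
  rw [h1] at h2
  rw [← sq_abs]
  exact pow_le_pow_left₀ (abs_nonneg _) h2 2

theorem mhf_ford {z : ℍ} (hz : 2 / Real.sqrt N ≤ z.im) : Ford N z := by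
  have hN1 : (1 : ℝ) ≤ N := by exact_mod_cast (Fact.out : N.Prime).one_lt.le
  have hN0 : (0 : ℝ) < N := by linarith
  have hs : 0 < Real.sqrt N := Real.sqrt_pos.2 hN0
  have h4 : 4 ≤ (N : ℝ) * z.im ^ 2 := by
    have h1 : (2 / Real.sqrt N) ^ 2 ≤ z.im ^ 2 := pow_le_pow_left₀ (by positivity) hz 2
    rw [div_pow, Real.sq_sqrt hN0.le] at h1
    have h2 := mul_le_mul_of_nonneg_left h1 hN0.le
    have h3 : (N : ℝ) * (2 ^ 2 / N) = 4 := by field_simp; norm_num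
    linarith
  have hc1 : ∀ c : ℤ, c ≠ 0 → (1 : ℝ) ≤ (c : ℝ) ^ 2 := by
    intro c hc
    have h : 1 ≤ c ^ 2 := by
      have := Int.one_le_abs hc
      nlinarith [sq_abs c]
    exact_mod_cast h
  constructor
  · intro c d hc
    have h1 := mhf_norm c d z
    have h2 : (N : ℝ) * z.im ^ 2 ≤ (N : ℝ) * ((c : ℝ) * z.im) ^ 2 := by
      rw [mul_pow]
      apply mul_le_mul_of_nonneg_left _ hN0.le
      have := mul_le_mul_of_nonneg_right (hc1 c hc) (sq_nonneg z.im)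
      linarith
    have h3 := mul_le_mul_of_nonneg_left h1 hN0.le
    have e : ((z : ℂ)).im = z.im := rfl
    rw [e] at h3
    linarith
  · intro c d hc hdvd
    obtain ⟨k, rfl⟩ := hdvd
    have hk : k ≠ 0 := fun h => hc (by rw [h, mul_zero])
    have h1 := mhf_norm ((N : ℤ) * k) d z
    have e : ((z : ℂ)).im = z.im := rfl
    rw [e] at h1
    have h2 : (4 : ℝ) ≤ ((((N : ℤ) * k : ℤ) : ℝ) * z.im) ^ 2 := by
      push_cast
      have h5 : (((N : ℝ) * k) * z.im) ^ 2 = (N * ((k : ℝ) ^ 2)) * (N * z.im ^ 2) := by ring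
      rw [h5]
      have h6 : (1 : ℝ) ≤ N * (k : ℝ) ^ 2 := by
        have := hc1 k hk
        nlinarith
      nlinarith
    linarith

theorem mhf_sq (x : ℂ) : ‖x‖ₑ ^ 2 = ENNReal.ofReal (‖x‖ ^ 2) := by
  rw [← ofReal_norm, ENNReal.ofReal_pow (norm_nonneg _)]

theorem main_half_pr {W : S2 N →ₗ[ℂ] S2 N} (hW : IsFricke W) {g : S2 N} (hg : W g = -g) {B : Set ℂ}
    (hB : MeasurableSet B) {α : ℝ}
    (h : ∀ z ∈ B, α ≤ z.re ∧ z.re < α + 1 ∧ 0 < z.im ∧ z.im < 2 / Real.sqrt N ∧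
      Ford N (UpperHalfPlane.ofComplex z)) :
    IntegrableOn (fun z : ℂ => ‖g (UpperHalfPlane.ofComplex z)‖ ^ 2) B ∧
    2 * ((∫ z in B, ‖g (UpperHalfPlane.ofComplex z)‖ ^ 2) +
      ∑' n : ℕ, ‖co g n‖ ^ 2 / (4 * Real.pi * n) *
        Real.exp (-4 * Real.pi * n * (2 / Real.sqrt N))) ≤ nr g := by
  have hN0 : (0 : ℝ) < N := by exact_mod_cast (Fact.out : N.Prime).pos
  have hs : 0 < Real.sqrt N := Real.sqrt_pos.2 hN0
  set R : ℝ := Real.sqrt N / 2 with hRdef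
  have hR : 0 < R := by positivity
  have hR1 : 1 / R = 2 / Real.sqrt N := by rw [hRdef, one_div_div]
  have hposB : ∀ z ∈ B, 0 < z.im := fun z hz => (h z hz).2.2.1
  set A1 : Set ℍ := UpperHalfPlane.coe ⁻¹' B with hA1
  set A2 : Set ℍ := UpperHalfPlane.coe ⁻¹' LSB_st α R with hA2
  have hm1 : MeasurableSet A1 := measurableEmbedding_coe.measurable hB
  have hm2 : MeasurableSet A2 := measurableEmbedding_coe.measurable (LSB_st_meas α R)
  have hdisj : Disjoint A1 A2 := by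
    rw [Set.disjoint_left]
    intro z hz1 hz2
    have h1 := (h (z : ℂ) hz1).2.2.2.1
    have h2 : 1 / R ≤ (z : ℂ).im := hz2.2.2
    rw [hR1] at h2
    exact absurd h1 (not_lt.2 h2)
  have hford : ∀ z ∈ A1 ∪ A2, α ≤ z.re ∧ z.re < α + 1 ∧ Ford N z := by
    rintro z (hz | hz)
    · obtain ⟨h1, h2, _, _, h5⟩ := h (z : ℂ) hz
      rw [UpperHalfPlane.ofComplex_apply] at h5
      exact ⟨h1, h2, h5⟩
    · have h3 : 1 / R ≤ (z : ℂ).im := hz.2.2
      rw [hR1] at h3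
      exact ⟨hz.1, hz.2.1, mhf_ford h3⟩
  have hmain := ford_two hW hg (hm1.union hm2) hford
  rw [lintegral_union hm2 hdisj, hA1, hA2, mhf_conv g hB hposB, mhf_strip g hR α, hR1] at hmain
  have hS0 : 0 ≤ ∑' n : ℕ, ‖co g n‖ ^ 2 / (4 * Real.pi * n) *
      Real.exp (-4 * Real.pi * n * (2 / Real.sqrt N)) := tsum_nonneg fun n => by positivity
  have hfin : ∫⁻ z in B, ‖g (UpperHalfPlane.ofComplex z)‖ₑ ^ 2 ≠ (⊤ : ℝ≥0∞) := by
    intro htop
    rw [htop, top_add, ENNReal.mul_top (by norm_num), top_le_iff] at hmain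
    exact ENNReal.ofReal_ne_top hmain
  have hmeas : AEStronglyMeasurable (fun z : ℂ => ‖g (UpperHalfPlane.ofComplex z)‖ ^ 2)
      (volume.restrict B) := by
    have hc : ContinuousOn (fun z : ℂ => ‖g (UpperHalfPlane.ofComplex z)‖ ^ 2) B :=
      (((LSB_cont g).mono hposB).norm.pow 2)
    exact hc.aestronglyMeasurable hB
  have hint : IntegrableOn (fun z : ℂ => ‖g (UpperHalfPlane.ofComplex z)‖ ^ 2) B := by
    refine ⟨hmeas, ?_⟩
    rw [hasFiniteIntegral_iff_ofReal (Eventually.of_forall fun z => by positivity)]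
    refine lt_of_le_of_ne le_top ?_
    simp only [← mhf_sq]
    exact hfin
  refine ⟨hint, ?_⟩
  have hI0 : 0 ≤ ∫ z in B, ‖g (UpperHalfPlane.ofComplex z)‖ ^ 2 :=
    integral_nonneg fun z => by positivity
  have hI : ENNReal.ofReal (∫ z in B, ‖g (UpperHalfPlane.ofComplex z)‖ ^ 2) =
      ∫⁻ z in B, ‖g (UpperHalfPlane.ofComplex z)‖ₑ ^ 2 := by
    rw [ofReal_integral_eq_lintegral_ofReal hint (Eventually.of_forall fun z => by positivity)]
    simp only [← mhf_sq]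
  rw [← hI, ← ENNReal.ofReal_add hI0 hS0, ← ENNReal.ofReal_ofNat 2,
    ← ENNReal.ofReal_mul (by norm_num), ENNReal.ofReal_le_ofReal_iff (LSC_nr_nonneg g)] at hmain
  exact hmain

end

theorem main_half : type_of% @main_half_pr := @main_half_pr

end Pool.Agent.KSL
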