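import Pool.Agent.Lib_helper68.KSL.Defs

/-! KSL block WDG: the wedges over the fractions lie in the Ford domain. -/

set_option autoImplicit false

namespace Pool.Agent.KSL

open Pool.Agent.LEV Pool.Agent.LVB
open Pool.Agent.FG61 (mu phi cc ff AA Lam)
open Complex MeasureTheory Filter Topology UpperHalfPlane ModularGroup ProbabilityTheory
open scoped MatrixGroups Modular ENNReal ModularForm ComplexConjugate ContDiff

theorem WDG_norm (c d : ℤ) (z : ℂ) :
    ‖(c : ℂ) * z + (d : ℂ)‖ ^ 2 = ((c : ℝ) * z.re + d) ^ 2 + ((c : ℝ) * z.im) ^ 2 := by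
  rw [← Complex.normSq_eq_norm_sq, Complex.normSq_apply]
  simp
  ring

/-- the wedges over the fractions lie in the Ford domain -/
theorem wedge_ford_pr {N : ℕ} [Fact N.Prime] {Q : ℕ} {T : ℝ} (hT : 1 ≤ T)
    (hQ : 100 * T * Q ≤ Real.sqrt N) {q j : ℕ}
    (hq : 1 ≤ q) (hqQ : q ≤ Q) (hj : j ∈ RR q) {z : ℂ} (h1 : |z.re - (j : ℝ) / q| ≤ T * z.im)
    (h2 : 2 * rq N q < z.im) (h3 : z.im < 2 / Real.sqrt N) :
    -(1 / (2 * (Q : ℝ))) ≤ z.re ∧ z.re < -(1 / (2 * (Q : ℝ))) + 1 ∧
      Ford N (UpperHalfPlane.ofComplex z) := by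
  have hN : N.Prime := Fact.out
  have hN0 : (0 : ℝ) < N := by exact_mod_cast hN.pos
  have hs : 0 < Real.sqrt N := Real.sqrt_pos.mpr hN0
  have hss : Real.sqrt N ^ 2 = N := Real.sq_sqrt hN0.le
  set s := Real.sqrt N with hsdef
  have hq1 : (1 : ℝ) ≤ q := by exact_mod_cast hq
  have hqQ' : (q : ℝ) ≤ Q := by exact_mod_cast hqQ
  have hQ1 : (1 : ℝ) ≤ Q := hq1.trans hqQ'
  unfold rq at h2
  rw [← hsdef] at h2
  -- `q ≥ 2`
  have hq2 : 2 ≤ q := by
    by_contra hcon
    have : q = 1 := by omega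
    subst this
    have e : 2 * (1 / (((1 : ℕ) : ℝ) * s)) = 2 / s := by
      push_cast
      rw [one_mul]
      ring
    rw [e] at h2
    linarith
  have hy : 0 < z.im := lt_trans (by positivity) h2
  rw [RR, Finset.mem_filter, Finset.mem_range] at hj
  obtain ⟨hjq, hjc⟩ := hj
  have hj1 : 1 ≤ j := by
    rcases Nat.eq_zero_or_pos j with h | h
    · subst h
      rw [Nat.coprime_zero_right] at hjc
      omega
    · exact h
  have hj1' : (1 : ℝ) ≤ j := by exact_mod_cast hj1
  have hjq' : (j : ℝ) + 1 ≤ q := by exact_mod_cast hjq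
  have hq0 : (0 : ℝ) < q := by linarith
  have hQ0 : (0 : ℝ) < Q := by linarith
  have hT0 : 0 < T := by linarith
  obtain ⟨ha, hb⟩ := abs_le.mp h1
  -- `T y ≤ 1 / (50 Q)`
  have hTy : T * z.im ≤ 1 / (50 * (Q : ℝ)) := by
    have h4 : T * z.im ≤ T * (2 / s) := mul_le_mul_of_nonneg_left h3.le hT0.le
    refine h4.trans ?_
    rw [show T * (2 / s) = (2 * T) / s by ring, div_le_div_iff₀ hs (by positivity)]
    nlinarith
  have hjq0 : 0 ≤ (j : ℝ) / q := by positivity
  have hjq3 : (j : ℝ) / q ≤ 1 - 1 / Q := by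
    have h5 : (j : ℝ) / q ≤ 1 - 1 / q := by
      rw [le_sub_iff_add_le, ← add_div, div_le_one hq0]
      exact hjq'
    have h6 : (1 : ℝ) / Q ≤ 1 / q := one_div_le_one_div_of_le hq0 hqQ'
    linarith
  have e50 : (1 : ℝ) / (50 * (Q : ℝ)) = (1 / 50) * (1 / Q) := by
    field_simp
  have e2 : (1 : ℝ) / (2 * (Q : ℝ)) = (1 / 2) * (1 / Q) := by
    field_simp
  have hQi : 0 < 1 / (Q : ℝ) := by positivity
  rw [e50] at hTy
  refine ⟨?_, ?_, ?_⟩
  · rw [e2]
    linarith
  · rw [e2]
    linarith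
  have hco : ((UpperHalfPlane.ofComplex z : ℍ) : ℂ) = z := UpperHalfPlane.ofComplex_apply_of_im_pos hy ▸ rfl
  -- lower bound for the height
  have hyl : 2 < q * s * z.im := by
    have : 2 * (1 / (q * s)) = 2 / (q * s) := by ring
    rw [this, div_lt_iff₀ (by positivity)] at h2
    linarith
  have hNQ : 100 * T * q ≤ s := le_trans (by
    have : 0 ≤ 100 * T := by positivity
    exact mul_le_mul_of_nonneg_left hqQ' this) hQ
  refine ⟨fun c d hc => ?_, fun c d hc hNc => ?_⟩
  · rw [hco, WDG_norm, ← hss]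
    have hc1 : (1 : ℝ) ≤ |(c : ℝ)| := by
      exact_mod_cast Int.one_le_abs hc
    by_cases h0 : c * (j : ℤ) + d * (q : ℤ) = 0
    · -- `q ∣ c`
      have hdvd : (q : ℤ) ∣ c := by
        have h7 : (q : ℤ) ∣ c * (j : ℤ) := ⟨-d, by linarith⟩
        have h8 : IsCoprime (q : ℤ) (j : ℤ) := by
          rw [Nat.isCoprime_iff_coprime]
          exact hjc
        exact h8.dvd_of_dvd_mul_right h7
      have hcq : (q : ℝ) ≤ |(c : ℝ)| := by
        have h9 : (q : ℤ) ≤ |c| := Int.le_of_dvd (abs_pos.mpr hc) ((dvd_abs _ _).mpr hdvd)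
        exact_mod_cast h9
      have h10 : 2 < s * (|(c : ℝ)| * z.im) := by
        calc (2 : ℝ) < q * s * z.im := hyl
          _ = s * (q * z.im) := by ring
          _ ≤ s * (|(c : ℝ)| * z.im) := by
            apply mul_le_mul_of_nonneg_left _ hs.le
            exact mul_le_mul_of_nonneg_right hcq hy.le
      have h11 : ((c : ℝ) * z.im) ^ 2 = (|(c : ℝ)| * z.im) ^ 2 := by
        rw [mul_pow, mul_pow, sq_abs]
      rw [h11]
      have h12 : 4 < (s * (|(c : ℝ)| * z.im)) ^ 2 := by nlinarith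
      nlinarith [sq_nonneg (s * ((c : ℝ) * z.re + d))]
    · have h13 : 1 ≤ |(c : ℝ) * j + d * q| := by
        have : (1 : ℤ) ≤ |c * (j : ℤ) + d * (q : ℤ)| := Int.one_le_abs h0
        exact_mod_cast this
      by_cases h14 : 2 * q * T * (|(c : ℝ)| * z.im) ≤ 1
      · -- the real part is large
        have h15 : 1 ≤ 2 * q * |(c : ℝ) * z.re + d| := by
          have h16 : (q : ℝ) * ((c : ℝ) * z.re + d) = ((c : ℝ) * j + d * q) + q * (c * (z.re - j / q)) := by
            field_simp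
            ring
          have h17 : |(q : ℝ) * ((c : ℝ) * z.re + d)| ≥ |(c : ℝ) * j + d * q| - |q * (c * (z.re - j / q))| := by
            rw [h16]
            have := abs_sub_abs_le_abs_sub ((c : ℝ) * j + d * q) (-(q * (c * (z.re - j / q))))
            rw [abs_neg, sub_neg_eq_add] at this
            exact this
          have h18 : |(q : ℝ) * (c * (z.re - j / q))| ≤ 1 / 2 := by
            rw [abs_mul, abs_mul, abs_of_pos hq0]
            have : |(c : ℝ)| * |z.re - j / q| ≤ |(c : ℝ)| * (T * z.im) :=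
              mul_le_mul_of_nonneg_left h1 (abs_nonneg _)
            have h19 : (q : ℝ) * (|(c : ℝ)| * |z.re - j / q|) ≤ q * (|(c : ℝ)| * (T * z.im)) :=
              mul_le_mul_of_nonneg_left this hq0.le
            linarith
          rw [abs_mul, abs_of_pos hq0] at h17
          linarith
        have h20 : 1 ≤ (2 * q * |(c : ℝ) * z.re + d|) ^ 2 := one_le_pow₀ h15
        have h21 : (2 * q * |(c : ℝ) * z.re + d|) ^ 2 = 4 * q ^ 2 * ((c : ℝ) * z.re + d) ^ 2 := by
          rw [mul_pow, mul_pow, sq_abs]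
          norm_num
        rw [h21] at h20
        have h22 : 10000 * (q : ℝ) ^ 2 ≤ s ^ 2 := by
          have h23 : 100 * (q : ℝ) ≤ s := by
            refine le_trans ?_ hNQ
            nlinarith
          nlinarith
        have h24 : (1 : ℝ) * 4 < s ^ 2 * ((c : ℝ) * z.re + d) ^ 2 * 4 := by
          have h25 : 10000 * (q : ℝ) ^ 2 * ((c : ℝ) * z.re + d) ^ 2 ≤ s ^ 2 * ((c : ℝ) * z.re + d) ^ 2 :=
            mul_le_mul_of_nonneg_right h22 (sq_nonneg _)
          nlinarith
        have h26 : 0 ≤ s ^ 2 * ((c : ℝ) * z.im) ^ 2 := by positivity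
        nlinarith
      · -- the imaginary part is large
        push Not at h14
        have h27 : 1 < s * (|(c : ℝ)| * z.im) := by
          have h28 : 0 < |(c : ℝ)| * z.im := by positivity
          have h29 : 2 * q * T ≤ s := by
            have : 0 ≤ T * q := by positivity
            linarith
          have := mul_le_mul_of_nonneg_right h29 h28.le
          linarith
        have h30 : 1 < (s * (|(c : ℝ)| * z.im)) ^ 2 := by nlinarith
        have h11 : ((c : ℝ) * z.im) ^ 2 = (|(c : ℝ)| * z.im) ^ 2 := by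
          rw [mul_pow, mul_pow, sq_abs]
        rw [h11]
        nlinarith [sq_nonneg (s * ((c : ℝ) * z.re + d))]
  · rw [hco, WDG_norm]
    have hcN : (N : ℝ) ≤ |(c : ℝ)| := by
      have h9 : (N : ℤ) ≤ |c| := Int.le_of_dvd (abs_pos.mpr hc) ((dvd_abs _ _).mpr hNc)
      exact_mod_cast h9
    have h31 : s ^ 2 * z.im ≤ |(c : ℝ)| * z.im := by
      rw [hss]
      exact mul_le_mul_of_nonneg_right hcN hy.le
    have h32 : 1 < s ^ 2 * z.im := by
      have h33 : 2 * s < q * (s ^ 2 * z.im) := by nlinarith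
      have h34 : 200 * (T * q) < q * (s ^ 2 * z.im) := by nlinarith
      have h35 : (q : ℝ) * (200 * T) < q * (s ^ 2 * z.im) := by linarith
      have := lt_of_mul_lt_mul_left h35 hq0.le
      linarith
    have h36 : 1 < |(c : ℝ)| * z.im := lt_of_lt_of_le h32 h31
    have h11 : ((c : ℝ) * z.im) ^ 2 = (|(c : ℝ)| * z.im) ^ 2 := by
      rw [mul_pow, mul_pow, sq_abs]
    rw [h11]
    nlinarith [sq_nonneg ((c : ℝ) * z.re + d)]

theorem wedge_ford : type_of% @wedge_ford_pr := @wedge_ford_pr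

end Pool.Agent.KSL
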