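import Pool.Agent.Lib_helper68.KSL.Defs
import Pool.Agent.Lib_helper68.LEV.LSB
import Pool.Agent.Lib_helper68.KSLF.MHF
import Pool.Agent.Lib_helper68.KSLF.WDG

/-! KSL, block MBD. -/

namespace Pool.Agent.KSL

open Pool.Agent.LEV Pool.Agent.LVB
open Pool.Agent.FG61 (mu phi cc ff AA Lam)
open Complex MeasureTheory Filter Topology UpperHalfPlane ModularGroup ProbabilityTheory
open scoped MatrixGroups Modular ENNReal ModularForm ComplexConjugate ContDiff

/-- optimisation of the parameter -/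
theorem mbd_opt {X a b : ℝ} (ha : 0 ≤ a) (hb : 0 ≤ b)
    (h : ∀ l : ℝ, 0 < l → X ≤ (l * a + b / l) / 2) : X ≤ Real.sqrt a * Real.sqrt b := by
  have key : ∀ ε : ℝ, 0 < ε → X ≤ Real.sqrt (a + ε) * Real.sqrt (b + ε) := by
    intro ε hε
    have h1 : 0 < Real.sqrt (a + ε) := Real.sqrt_pos.2 (by linarith)
    have h2 : 0 < Real.sqrt (b + ε) := Real.sqrt_pos.2 (by linarith)
    have e1 : Real.sqrt (a + ε) ^ 2 = a + ε := Real.sq_sqrt (by linarith)
    have e2 : Real.sqrt (b + ε) ^ 2 = b + ε := Real.sq_sqrt (by linarith)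
    set p := Real.sqrt (a + ε) with hp
    set q := Real.sqrt (b + ε) with hq
    have h3 := h (q / p) (by positivity)
    have h4 : q / p * a ≤ q / p * p ^ 2 := by
      apply mul_le_mul_of_nonneg_left _ (by positivity)
      linarith
    have h5 : b / (q / p) ≤ q ^ 2 / (q / p) := by
      apply div_le_div_of_nonneg_right _ (by positivity)
      linarith
    have h6 : q / p * p ^ 2 = p * q := by field_simp
    have h7 : q ^ 2 / (q / p) = p * q := by field_simp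
    linarith
  have ht : Tendsto (fun ε : ℝ => Real.sqrt (a + ε) * Real.sqrt (b + ε)) (𝓝[>] 0)
      (𝓝 (Real.sqrt a * Real.sqrt b)) := by
    have hc : Continuous (fun ε : ℝ => Real.sqrt (a + ε) * Real.sqrt (b + ε)) := by fun_prop
    have := hc.tendsto 0
    simp only [add_zero] at this
    exact this.mono_left nhdsWithin_le_nhds
  exact ge_of_tendsto ht (eventually_nhdsWithin_of_forall fun ε hε => key ε hε)

theorem mbd_ph (N Q : ℕ) (w : ℕ → ℝ) (ρ : ℝ → ℝ) (x y : ℝ) :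
    ph N Q w ρ x y = ∑ q ∈ Finset.Icc 1 Q, if 2 * rq N q < y then (w q : ℂ) *
    ∑ j ∈ RR q, ((y⁻¹ * ρ ((x - (j : ℝ) / q) / y) : ℝ) : ℂ) *
      (1 - (((x - (j : ℝ) / q) / y : ℝ) : ℂ) * Complex.I) else 0 := by
  unfold ph
  rw [Finset.sum_filter]

theorem mbd_meas (N Q : ℕ) (w : ℕ → ℝ) {ρ : ℝ → ℝ} (hρ : Continuous ρ) :
    Measurable (fun p : ℝ × ℝ => ph N Q w ρ p.1 p.2) := by
  simp only [mbd_ph]
  refine Finset.measurable_sum _ fun q _ => ?_
  refine Measurable.ite (measurableSet_lt measurable_const measurable_snd) ?_ measurable_const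
  refine Measurable.const_mul (Finset.measurable_sum _ fun j _ => ?_) _
  have h1 : Measurable (fun p : ℝ × ℝ => (p.1 - (j : ℝ) / q) / p.2) := by fun_prop
  have h2 : Measurable (fun p : ℝ × ℝ => ρ ((p.1 - (j : ℝ) / q) / p.2)) := hρ.measurable.comp h1
  have h3 : Measurable (fun p : ℝ × ℝ => p.2⁻¹) := by fun_prop
  exact (Complex.measurable_ofReal.comp (h3.mul h2)).mul
    (measurable_const.sub ((Complex.measurable_ofReal.comp h1).mul_const _))

theorem mbd_supp {T : ℝ} {ρ : ℝ → ℝ} (hρ : Ker T ρ) {N Q : ℕ} {w : ℕ → ℝ} {x y : ℝ} (hy : 0 < y)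
    (h : ph N Q w ρ x y ≠ 0) : ∃ q j : ℕ, 1 ≤ q ∧ q ≤ Q ∧ j ∈ RR q ∧ 2 * rq N q < y ∧
      |x - (j : ℝ) / q| ≤ T * y := by
  unfold ph at h
  obtain ⟨q, hq, h1⟩ := Finset.exists_ne_zero_of_sum_ne_zero h
  obtain ⟨j, hj, h2⟩ := Finset.exists_ne_zero_of_sum_ne_zero (right_ne_zero_of_mul h1)
  rw [Finset.mem_filter, Finset.mem_Icc] at hq
  refine ⟨q, j, hq.1.1, hq.1.2, hj, hq.2, ?_⟩
  have h3 := left_ne_zero_of_mul h2
  by_contra hc
  rw [not_le] at hc
  apply h3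
  rw [hρ.supp _ ?_, mul_zero, Complex.ofReal_zero]
  rw [abs_div, abs_of_pos hy, lt_div_iff₀ hy]
  exact hc

theorem mbd_rho_bdd {T : ℝ} {ρ : ℝ → ℝ} (hρ : Ker T ρ) : ∃ R0 : ℝ, 0 ≤ R0 ∧ ∀ t : ℝ,
    ρ t * ‖(1 - (t : ℂ) * Complex.I)‖ ≤ R0 := by
  have hc : Continuous (fun t : ℝ => ρ t * ‖(1 - (t : ℂ) * Complex.I)‖) := by
    have := hρ.cont
    fun_prop
  obtain ⟨C, hC⟩ := (isCompact_Icc (a := -T) (b := T)).exists_bound_of_continuousOn hc.continuousOn
  refine ⟨max C 0, le_max_right _ _, fun t => ?_⟩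
  by_cases ht : t ∈ Set.Icc (-T) T
  · exact (le_abs_self _).trans ((hC t ht).trans (le_max_left _ _))
  · have : T < |t| := by
      by_contra hcon
      exact ht (abs_le.1 (not_lt.1 hcon))
    rw [hρ.supp t this, zero_mul]
    exact le_max_right _ _

theorem mbd_bdd {T : ℝ} {ρ : ℝ → ℝ} (hρ : Ker T ρ) (N Q : ℕ) (hN : 1 ≤ N) (w : ℕ → ℝ) :
    ∃ M : ℝ, 0 ≤ M ∧ ∀ x y : ℝ, 0 < y → ‖ph N Q w ρ x y‖ ≤ M := by
  obtain ⟨R0, hR0, hR⟩ := mbd_rho_bdd hρ
  have hN0 : (0 : ℝ) < N := by exact_mod_cast hN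
  have hs : 0 < Real.sqrt N := Real.sqrt_pos.2 hN0
  refine ⟨∑ q ∈ Finset.Icc 1 Q, |w q| * ∑ j ∈ RR q, (q * Real.sqrt N / 2) * R0, ?_, ?_⟩
  · exact Finset.sum_nonneg fun q _ => mul_nonneg (abs_nonneg _)
      (Finset.sum_nonneg fun j _ => by positivity)
  intro x y hy
  rw [mbd_ph]
  refine (norm_sum_le _ _).trans (Finset.sum_le_sum fun q hq => ?_)
  have hq1 : (1 : ℝ) ≤ q := by exact_mod_cast (Finset.mem_Icc.1 hq).1
  split_ifs with hif
  · rw [norm_mul, Complex.norm_real, Real.norm_eq_abs]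
    apply mul_le_mul_of_nonneg_left _ (abs_nonneg _)
    refine (norm_sum_le _ _).trans (Finset.sum_le_sum fun j _ => ?_)
    set t : ℝ := (x - (j : ℝ) / q) / y with ht
    rw [norm_mul, Complex.norm_real, Real.norm_eq_abs, abs_mul, abs_of_pos (inv_pos.2 hy),
      abs_of_nonneg (hρ.nonneg t), mul_assoc]
    apply mul_le_mul _ (hR t) (mul_nonneg (hρ.nonneg t) (norm_nonneg _)) (by positivity)
    rw [inv_le_comm₀ hy (by positivity)]
    refine le_trans (le_of_eq ?_) hif.le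
    unfold rq
    field_simp
  · rw [norm_zero]
    exact mul_nonneg (abs_nonneg _) (Finset.sum_nonneg fun j _ => by positivity)

theorem mbd_WW (Q : ℕ) (w : ℕ → ℝ) : ∃ M : ℝ, 0 ≤ M ∧ ∀ n, |WW Q w n| ≤ M := by
  refine ⟨∑ q ∈ Finset.Icc 1 Q, |w q| * ∑ d ∈ q.divisors, (d : ℝ), ?_, fun n => ?_⟩
  · exact Finset.sum_nonneg fun q _ => mul_nonneg (abs_nonneg _)
      (Finset.sum_nonneg fun j _ => by positivity)
  unfold WW
  refine (Finset.abs_sum_le_sum_abs _ _).trans (Finset.sum_le_sum fun q hq => ?_)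
  rw [abs_mul]
  apply mul_le_mul_of_nonneg_left _ (abs_nonneg _)
  unfold cc
  refine (Finset.abs_sum_le_sum_abs _ _).trans ?_
  have hq0 : q ≠ 0 := by have := (Finset.mem_Icc.1 hq).1; omega
  refine (Finset.sum_le_sum (g := fun d : ℕ => (d : ℝ)) fun d _ => ?_).trans
    (Finset.sum_le_sum_of_subset_of_nonneg (Nat.divisors_subset_of_dvd hq0 (Nat.gcd_dvd_left q n))
      fun d _ _ => Nat.cast_nonneg d)
  rw [abs_mul, Nat.abs_cast]
  have hmu : |mu (q / d)| ≤ 1 := by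
    have := ArithmeticFunction.abs_moebius_le_one (n := q / d)
    show |((ArithmeticFunction.moebius (q / d) : ℤ) : ℝ)| ≤ 1
    exact_mod_cast this
  calc (d : ℝ) * |mu (q / d)| ≤ d * 1 := mul_le_mul_of_nonneg_left hmu (Nat.cast_nonneg _)
    _ = d := mul_one _

theorem mbd_B_summable {T : ℝ} {ρ : ℝ → ℝ} (hρ : Ker T ρ) (N Q : ℕ) (hN : 1 ≤ N) (w : ℕ → ℝ) :
    Summable (fun n : ℕ => WW Q w n ^ 2 * sgm ρ (n * (2 / Real.sqrt N)) ^ 2 / (Real.pi * n)) := by
  obtain ⟨C, hC⟩ := hρ.dec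
  obtain ⟨M, hM0, hM⟩ := mbd_WW Q w
  have hN0 : (0 : ℝ) < N := by exact_mod_cast hN
  have hs : 0 < Real.sqrt N := Real.sqrt_pos.2 hN0
  have hpi := Real.pi_pos
  set ys : ℝ := 2 / Real.sqrt N with hys
  have hys0 : 0 < ys := by positivity
  have hsum : Summable (fun n : ℕ => (M ^ 2 * (C / ys) ^ 2 / Real.pi) * (1 / (n : ℝ) ^ 3)) :=
    (Real.summable_one_div_nat_pow.2 (by norm_num)).mul_left _
  refine Summable.of_nonneg_of_le (fun n => by positivity) (fun n => ?_) hsum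
  rcases Nat.eq_zero_or_pos n with hn | hn
  · subst hn; simp
  · have hn0 : (0 : ℝ) < n := by exact_mod_cast hn
    have h1 : WW Q w n ^ 2 ≤ M ^ 2 := by
      rw [← sq_abs]; exact pow_le_pow_left₀ (abs_nonneg _) (hM n) 2
    have h2 : sgm ρ (n * ys) ^ 2 ≤ (C / (n * ys)) ^ 2 := by
      rw [← sq_abs]; exact pow_le_pow_left₀ (abs_nonneg _) (hC _ (by positivity)) 2
    calc WW Q w n ^ 2 * sgm ρ (n * ys) ^ 2 / (Real.pi * n)
        ≤ M ^ 2 * (C / (n * ys)) ^ 2 / (Real.pi * n) := by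
          apply div_le_div_of_nonneg_right _ (by positivity)
          exact mul_le_mul h1 h2 (sq_nonneg _) (sq_nonneg _)
      _ = (M ^ 2 * (C / ys) ^ 2 / Real.pi) * (1 / (n : ℝ) ^ 3) := by
          field_simp

/-- Fubini -/
theorem mbd_fub {F : ℝ → ℝ → ℝ} {Y : ℝ} (hF : Integrable (fun p : ℝ × ℝ =>
      (Set.Ioo 0 Y).indicator (fun y => F p.1 y) p.2)) :
    ∫ z in {z : ℂ | 0 < z.im ∧ z.im < Y}, F z.re z.im = ∫ y in Set.Ioo 0 Y, ∫ x : ℝ, F x y := by
  have hmS : MeasurableSet {z : ℂ | 0 < z.im ∧ z.im < Y} :=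
    (measurableSet_lt measurable_const Complex.measurable_im).inter
      (measurableSet_lt Complex.measurable_im measurable_const)
  rw [← integral_indicator hmS, ← integral_indicator measurableSet_Ioo]
  have h1 := (Complex.volume_preserving_equiv_real_prod.symm).integral_comp'
    (g := {z : ℂ | 0 < z.im ∧ z.im < Y}.indicator (fun z => F z.re z.im))
  rw [← h1]
  have e : (fun p : ℝ × ℝ => {z : ℂ | 0 < z.im ∧ z.im < Y}.indicator (fun z => F z.re z.im)
      (Complex.measurableEquivRealProd.symm p)) = fun p : ℝ × ℝ =>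
      (Set.Ioo 0 Y).indicator (fun y => F p.1 y) p.2 := by
    funext p
    obtain ⟨x, y⟩ := p
    have e : Complex.measurableEquivRealProd.symm (x, y) = (⟨x, y⟩ : ℂ) := rfl
    rw [e]
    by_cases hy : y ∈ Set.Ioo 0 Y
    · rw [Set.indicator_of_mem (by exact hy), Set.indicator_of_mem hy]
    · rw [Set.indicator_of_notMem (by exact hy), Set.indicator_of_notMem hy]
  rw [e, Measure.volume_eq_prod, integral_prod_symm _ (by rw [← Measure.volume_eq_prod]; exact hF)]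
  congr 1
  funext y
  by_cases hy : y ∈ Set.Ioo 0 Y
  · simp only [Set.indicator_of_mem hy]
  · simp only [Set.indicator_of_notMem hy, integral_zero]

section
variable {N : ℕ} [Fact N.Prime]

omit [Fact N.Prime] in
theorem mbd_comp {f : ℝ → ℝ → ℂ} (hf : Measurable (fun p : ℝ × ℝ => f p.1 p.2))
    (h0 : Measurable (fun z : ℂ => (z.re, z.im))) : Measurable (fun z : ℂ => f z.re z.im) :=
  hf.comp h0

/-- the set where the kernel does not vanish -/
def mbd_set (N Q : ℕ) (w : ℕ → ℝ) (ρ : ℝ → ℝ) : Set ℂ :=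
  {z : ℂ | 0 < z.im ∧ z.im < 2 / Real.sqrt N} ∩ (fun z : ℂ => ph N Q w ρ z.re z.im) ⁻¹' {0}ᶜ

theorem mbd_set_meas (N Q : ℕ) (w : ℕ → ℝ) {ρ : ℝ → ℝ} (hρ : Continuous ρ) :
    MeasurableSet (mbd_set N Q w ρ) := by
  have hmS : MeasurableSet {z : ℂ | 0 < z.im ∧ z.im < 2 / Real.sqrt N} :=
    (measurableSet_lt measurable_const Complex.measurable_im).inter
      (measurableSet_lt Complex.measurable_im measurable_const)
  have h0 : Measurable (fun z : ℂ => (z.re, z.im)) :=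
    Complex.measurable_re.prodMk Complex.measurable_im
  have hP : Measurable (fun z : ℂ => ph N Q w ρ z.re z.im) := mbd_comp (mbd_meas N Q w hρ) h0
  exact MeasurableSet.inter hmS (hP (measurableSet_singleton (0 : ℂ)).compl)

theorem mbd_set_prop {T : ℝ} {ρ : ℝ → ℝ} (hρ : Ker T ρ) {Q : ℕ}
    (hQ : 100 * T * Q ≤ Real.sqrt N) (w : ℕ → ℝ) : ∀ z ∈ mbd_set N Q w ρ,
      -(1 / (2 * (Q : ℝ))) ≤ z.re ∧ z.re < -(1 / (2 * (Q : ℝ))) + 1 ∧ 0 < z.im ∧
      z.im < 2 / Real.sqrt N ∧ Ford N (UpperHalfPlane.ofComplex z) := by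
  rintro z ⟨⟨h1, h2⟩, h3⟩
  obtain ⟨q, j, hq, hqQ, hj, h4, h5⟩ := mbd_supp hρ h1 h3
  obtain ⟨h6, h7, h8⟩ := wedge_ford (N := N) hρ.T1 hQ hq hqQ hj h5 h4 h2
  exact ⟨h6, h7, h1, h2, h8⟩

theorem mbd_P_int {T : ℝ} {ρ : ℝ → ℝ} (hρ : Ker T ρ) {Q : ℕ} (hQ1 : 1 ≤ Q)
    (hQ : 100 * T * Q ≤ Real.sqrt N) (w : ℕ → ℝ) :
    Integrable (fun p : ℝ × ℝ => (Set.Ioo 0 (2 / Real.sqrt N)).indicator
      (fun y => ‖ph N Q w ρ p.1 y‖ ^ 2) p.2) := by
  have hN1 : 1 ≤ N := (Fact.out : N.Prime).one_lt.le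
  obtain ⟨M, hM0, hM⟩ := mbd_bdd hρ N Q hN1 w
  have hQ0 : (1 : ℝ) ≤ Q := by exact_mod_cast hQ1
  set K : Set (ℝ × ℝ) := Set.Icc (-1) 1 ×ˢ Set.Icc 0 (2 / Real.sqrt N) with hK
  have hKm : MeasurableSet K := measurableSet_Icc.prod measurableSet_Icc
  have hKf : volume K ≠ (⊤ : ℝ≥0∞) := (isCompact_Icc.prod isCompact_Icc).measure_lt_top.ne
  have hmeas : Measurable (fun p : ℝ × ℝ => (Set.Ioo 0 (2 / Real.sqrt N)).indicator
      (fun y => ‖ph N Q w ρ p.1 y‖ ^ 2) p.2) := by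
    have e : (fun p : ℝ × ℝ => (Set.Ioo 0 (2 / Real.sqrt N)).indicator
      (fun y => ‖ph N Q w ρ p.1 y‖ ^ 2) p.2) =
      (Prod.snd ⁻¹' (Set.Ioo 0 (2 / Real.sqrt N)) : Set (ℝ × ℝ)).indicator
        (fun p => ‖ph N Q w ρ p.1 p.2‖ ^ 2) := by
      funext p
      by_cases hp : p.2 ∈ Set.Ioo 0 (2 / Real.sqrt N)
      · rw [Set.indicator_of_mem hp, Set.indicator_of_mem (by exact hp)]
      · rw [Set.indicator_of_notMem hp, Set.indicator_of_notMem (by exact hp)]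
    rw [e]
    exact ((mbd_meas N Q w hρ.cont).norm.pow_const 2).indicator
      (measurable_snd measurableSet_Ioo)
  have hdom : Integrable (K.indicator (fun _ : ℝ × ℝ => M ^ 2)) :=
    (integrable_indicator_iff hKm).2 (integrableOn_const hKf)
  refine hdom.mono' hmeas.aestronglyMeasurable (Eventually.of_forall fun p => ?_)
  by_cases hp : p.2 ∈ Set.Ioo 0 (2 / Real.sqrt N)
  · rw [Set.indicator_of_mem hp]
    by_cases hne : ph N Q w ρ p.1 p.2 = 0
    · rw [hne]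
      simp only [norm_zero, ne_eq, OfNat.ofNat_ne_zero, not_false_eq_true, zero_pow]
      exact Set.indicator_nonneg (fun _ _ => sq_nonneg _) _
    · have hz : (⟨p.1, p.2⟩ : ℂ) ∈ mbd_set N Q w ρ := ⟨hp, hne⟩
      obtain ⟨h1, h2, h3, h4, _⟩ := mbd_set_prop hρ hQ w _ hz
      have h5 : 1 / (2 * (Q : ℝ)) ≤ 1 / 2 := by
        apply one_div_le_one_div_of_le (by norm_num); linarith
      have h6 : 0 ≤ 1 / (2 * (Q : ℝ)) := by positivity
      have hpK : p ∈ K := by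
        refine ⟨⟨?_, ?_⟩, ⟨h3.le, h4.le⟩⟩
        · simp only at h1; linarith
        · simp only at h2; linarith
      rw [Set.indicator_of_mem hpK, norm_pow, norm_norm]
      exact pow_le_pow_left₀ (norm_nonneg _) (hM _ _ hp.1) 2
  · rw [Set.indicator_of_notMem hp, norm_zero]
    exact Set.indicator_nonneg (fun _ _ => sq_nonneg _) _

theorem mbd_term (c : ℂ) {n : ℕ} {e s l y : ℝ} (hl : 0 < l) (he : e = Real.exp (-2 * Real.pi * n * y)) :
    ‖c / (2 * Real.pi * n) * ((e * s : ℝ) : ℂ)‖ ≤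
      (l * (‖c‖ ^ 2 / (4 * Real.pi * n) * Real.exp (-4 * Real.pi * n * y)) +
        (s ^ 2 / (Real.pi * n)) / l) / 2 := by
  have hpi := Real.pi_pos
  have he2 : Real.exp (-4 * Real.pi * n * y) = e ^ 2 := by
    rw [he, ← Real.exp_nat_mul]
    congr 1
    push_cast
    ring
  rcases Nat.eq_zero_or_pos n with hn | hn
  · subst hn
    simp
  · have hn0 : (0 : ℝ) < n := by exact_mod_cast hn
    have he0 : 0 < e := by rw [he]; exact Real.exp_pos _
    have e1 : ‖c / (2 * Real.pi * n) * ((e * s : ℝ) : ℂ)‖ = ‖c‖ / (2 * Real.pi * n) * (e * |s|) := by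
      rw [norm_mul, norm_div, Complex.norm_real, Real.norm_eq_abs, abs_mul, abs_of_pos he0]
      congr 2
      rw [norm_mul, norm_mul, Complex.norm_natCast, Complex.norm_real, Real.norm_eq_abs,
        abs_of_pos hpi, Complex.norm_ofNat]
    rw [e1, he2]
    have h2 : 0 ≤ (l * ‖c‖ * e / 2 - |s|) ^ 2 / l := by positivity
    have h3 : (l * ‖c‖ * e / 2 - |s|) ^ 2 / l = l * ‖c‖ ^ 2 * e ^ 2 / 4 - ‖c‖ * (e * |s|) + s ^ 2 / l := by
      rw [← sq_abs s]
      field_simp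
      ring
    rw [h3] at h2
    have h4 : ‖c‖ / (2 * Real.pi * n) * (e * |s|) = (‖c‖ * (e * |s|)) / (2 * Real.pi * n) := by ring
    have h5 : (l * (‖c‖ ^ 2 / (4 * Real.pi * n) * e ^ 2) + (s ^ 2 / (Real.pi * n)) / l) / 2 =
        (l * ‖c‖ ^ 2 * e ^ 2 / 4 + s ^ 2 / l) / (2 * Real.pi * n) := by
      field_simp
    rw [h4, h5]
    apply div_le_div_of_nonneg_right _ (by positivity)
    linarith

theorem main_bound_pr {W : S2 N →ₗ[ℂ] S2 N} (hW : IsFricke W) {g : S2 N} (hg : W g = -g) {T : ℝ}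
    {ρ : ℝ → ℝ} (hρ : Ker T ρ) {Q : ℕ} (hQ1 : 1 ≤ Q) (hQ : 100 * T * Q ≤ Real.sqrt N)
    (w : ℕ → ℝ) :
    ‖(∫ z in {z : ℂ | 0 < z.im ∧ z.im < 2 / Real.sqrt N},
        g (UpperHalfPlane.ofComplex z) * ph N Q w ρ z.re z.im) +
      (∑' n : ℕ, co g n / (2 * Real.pi * n) *
        ((Real.exp (-2 * Real.pi * n * (2 / Real.sqrt N)) * sgm ρ (n * (2 / Real.sqrt N)) *
          WW Q w n : ℝ) : ℂ))‖ ≤
      Real.sqrt ((HS N Q w ρ + BS N Q w ρ) / 2) * Real.sqrt (nr g) := by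
  have hN1 : 1 ≤ N := (Fact.out : N.Prime).one_lt.le
  have hN0 : (0 : ℝ) < N := by exact_mod_cast hN1
  have hs : 0 < Real.sqrt N := Real.sqrt_pos.2 hN0
  have hQ0 : (1 : ℝ) ≤ Q := by exact_mod_cast hQ1
  have hys : 0 < 2 / Real.sqrt N := by positivity
  set B := mbd_set N Q w ρ with hBdef
  have hBm : MeasurableSet B := mbd_set_meas N Q w hρ.cont
  have hBp := mbd_set_prop hρ hQ w
  obtain ⟨hgint, hmain⟩ := main_half hW hg hBm hBp
  have hSm : MeasurableSet {z : ℂ | 0 < z.im ∧ z.im < 2 / Real.sqrt N} :=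
    (measurableSet_lt measurable_const Complex.measurable_im).inter
      (measurableSet_lt Complex.measurable_im measurable_const)
  have hBS : B ⊆ {z : ℂ | 0 < z.im ∧ z.im < 2 / Real.sqrt N} := fun z hz => hz.1
  have hzero : ∀ z ∈ {z : ℂ | 0 < z.im ∧ z.im < 2 / Real.sqrt N} \ B,
      ph N Q w ρ z.re z.im = 0 := by
    rintro z ⟨h1, h2⟩
    by_contra hne
    exact h2 ⟨h1, hne⟩
  -- the norm of the kernel
  have hb1 : ∫ z in B, ‖ph N Q w ρ z.re z.im‖ ^ 2 = BS N Q w ρ := by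
    rw [BS, ← mbd_fub (F := fun x y => ‖ph N Q w ρ x y‖ ^ 2) (mbd_P_int hρ hQ1 hQ w)]
    exact (setIntegral_eq_of_subset_of_forall_sdiff_eq_zero hSm hBS fun z hz => by
      rw [hzero z hz]; simp).symm
  have hPint : IntegrableOn (fun z : ℂ => ‖ph N Q w ρ z.re z.im‖ ^ 2) B := by
    obtain ⟨M, hM0, hM⟩ := mbd_bdd hρ N Q hN1 w
    have h0 : Measurable (fun z : ℂ => (z.re, z.im)) :=
      Complex.measurable_re.prodMk Complex.measurable_im
    have hP : Measurable (fun z : ℂ => ph N Q w ρ z.re z.im) :=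
      mbd_comp (mbd_meas N Q w hρ.cont) h0
    refine Measure.integrableOn_of_bounded (M := M ^ 2) ?_
      (hP.norm.pow_const 2).aestronglyMeasurable ?_
    · have hK : IsCompact (Set.Icc (-1 : ℝ) 1 ×ℂ Set.Icc (0 : ℝ) (2 / Real.sqrt N)) :=
        isCompact_Icc.reProdIm isCompact_Icc
      refine ne_of_lt (lt_of_le_of_lt (measure_mono ?_) hK.measure_lt_top)
      intro z hz
      obtain ⟨h1, h2, h3, h4, _⟩ := hBp z hz
      have h5 : 1 / (2 * (Q : ℝ)) ≤ 1 / 2 := by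
        apply one_div_le_one_div_of_le (by norm_num); linarith
      have h6 : 0 ≤ 1 / (2 * (Q : ℝ)) := by positivity
      exact ⟨⟨by linarith, by linarith⟩, ⟨h3.le, h4.le⟩⟩
    · refine (ae_restrict_iff' hBm).2 (Eventually.of_forall fun z hz => ?_)
      rw [norm_pow, norm_norm]
      exact pow_le_pow_left₀ (norm_nonneg _) (hM _ _ (hBp z hz).2.2.1) 2
  -- the first term
  have hI : ∀ l : ℝ, 0 < l → ‖∫ z in {z : ℂ | 0 < z.im ∧ z.im < 2 / Real.sqrt N},
        g (UpperHalfPlane.ofComplex z) * ph N Q w ρ z.re z.im‖ ≤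
      (l * (∫ z in B, ‖g (UpperHalfPlane.ofComplex z)‖ ^ 2) + BS N Q w ρ / l) / 2 := by
    intro l hl
    rw [setIntegral_eq_of_subset_of_forall_sdiff_eq_zero hSm hBS fun z hz => by
      rw [hzero z hz, mul_zero]]
    have hb : Integrable (fun z : ℂ => (l * ‖g (UpperHalfPlane.ofComplex z)‖ ^ 2 +
        ‖ph N Q w ρ z.re z.im‖ ^ 2 / l) / 2) (volume.restrict B) :=
      ((hgint.const_mul l).add (hPint.div_const l)).div_const 2
    refine (norm_integral_le_of_norm_le hb (Eventually.of_forall fun z => ?_)).trans (le_of_eq ?_)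
    · rw [norm_mul]
      set u := ‖g (UpperHalfPlane.ofComplex z)‖
      set v := ‖ph N Q w ρ z.re z.im‖
      have h1 : 0 ≤ (l * u - v) ^ 2 / l := by positivity
      have h2 : (l * u - v) ^ 2 / l = l * u ^ 2 - 2 * (u * v) + v ^ 2 / l := by
        field_simp
        ring
      rw [h2] at h1
      linarith
    · rw [integral_div, integral_add (hgint.const_mul l) (hPint.div_const l), integral_const_mul,
        integral_div, hb1]
  -- the second term
  have hA := (strip_sum g hys).1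
  have hB2 := mbd_B_summable hρ N Q hN1 w
  have hJ : ∀ l : ℝ, 0 < l → ‖∑' n : ℕ, co g n / (2 * Real.pi * n) *
        ((Real.exp (-2 * Real.pi * n * (2 / Real.sqrt N)) * sgm ρ (n * (2 / Real.sqrt N)) *
          WW Q w n : ℝ) : ℂ)‖ ≤
      (l * (∑' n : ℕ, ‖co g n‖ ^ 2 / (4 * Real.pi * n) *
        Real.exp (-4 * Real.pi * n * (2 / Real.sqrt N))) + HS N Q w ρ / l) / 2 := by
    intro l hl
    refine tsum_of_norm_bounded (((hA.hasSum.mul_left l).add (hB2.hasSum.div_const l)).div_const 2)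
      fun n => ?_
    have h := mbd_term (co g n) (n := n) (e := Real.exp (-2 * Real.pi * n * (2 / Real.sqrt N)))
      (s := sgm ρ (n * (2 / Real.sqrt N)) * WW Q w n) (l := l) (y := 2 / Real.sqrt N) hl rfl
    rw [← mul_assoc] at h
    refine h.trans (le_of_eq ?_)
    rw [mul_pow]
    ring
  have hopt := mbd_opt (X := ‖(∫ z in {z : ℂ | 0 < z.im ∧ z.im < 2 / Real.sqrt N},
        g (UpperHalfPlane.ofComplex z) * ph N Q w ρ z.re z.im) +
      (∑' n : ℕ, co g n / (2 * Real.pi * n) *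
        ((Real.exp (-2 * Real.pi * n * (2 / Real.sqrt N)) * sgm ρ (n * (2 / Real.sqrt N)) *
          WW Q w n : ℝ) : ℂ))‖)
    (a := (∫ z in B, ‖g (UpperHalfPlane.ofComplex z)‖ ^ 2) +
      ∑' n : ℕ, ‖co g n‖ ^ 2 / (4 * Real.pi * n) *
        Real.exp (-4 * Real.pi * n * (2 / Real.sqrt N)))
    (b := BS N Q w ρ + HS N Q w ρ) ?_ ?_ ?_
  · refine hopt.trans ?_
    have hb0 : 0 ≤ BS N Q w ρ + HS N Q w ρ := by
      refine add_nonneg ?_ (tsum_nonneg fun n => by positivity)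
      rw [← hb1]
      exact integral_nonneg fun z => by positivity
    rw [← Real.sqrt_mul' _ hb0, ← Real.sqrt_mul (by linarith)]
    apply Real.sqrt_le_sqrt
    have h1 : ((∫ z in B, ‖g (UpperHalfPlane.ofComplex z)‖ ^ 2) +
      ∑' n : ℕ, ‖co g n‖ ^ 2 / (4 * Real.pi * n) *
        Real.exp (-4 * Real.pi * n * (2 / Real.sqrt N))) ≤ nr g / 2 := by linarith
    have h2 := mul_le_mul_of_nonneg_right h1 hb0
    linarith
  · exact add_nonneg (integral_nonneg fun z => by positivity) (tsum_nonneg fun n => by positivity)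
  · refine add_nonneg ?_ (tsum_nonneg fun n => by positivity)
    rw [← hb1]
    exact integral_nonneg fun z => by positivity
  · intro l hl
    refine (norm_add_le _ _).trans ((add_le_add (hI l hl) (hJ l hl)).trans (le_of_eq ?_))
    ring

end

theorem main_bound : type_of% @main_bound_pr := @main_bound_pr

end Pool.Agent.KSL
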