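import Pool.Agent.Lib_helper68.KSL.Defs
import Pool.Agent.Lib_helper68.KSLF.GDL
import Pool.Agent.Lib_helper68.KSLF.SZF

/-! KSL, block BGB -/

namespace Pool.Agent.KSL

open Pool.Agent.LEV Pool.Agent.LVB
open Pool.Agent.FG61 (mu phi cc ff AA Lam)
open Complex MeasureTheory Filter Topology UpperHalfPlane ModularGroup ProbabilityTheory
open scoped MatrixGroups Modular ENNReal ModularForm ComplexConjugate ContDiff

theorem BGB_gd_mono (w : ℕ → ℝ) : Monotone (GD w) := by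
  intro D D' h
  unfold GD
  apply Finset.sum_le_sum_of_subset_of_nonneg
  · exact Finset.Icc_subset_Icc_right (Nat.floor_mono h)
  · intro q _ _
    have : 0 ≤ phi q := by
      unfold phi
      positivity
    positivity

theorem BGB_cn_nonneg (z A : ℕ) (a : ℕ → ℝ) : 0 ≤ cn z A a := by
  unfold cn
  apply tsum_nonneg
  intro m
  split_ifs
  · positivity
  · exact le_rfl

/-- the explicit integral -/
theorem BGB_calc {a b : ℝ} (ha : 0 < a) (hab : a ≤ b) (α β : ℝ) :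
    IntegrableOn (fun y : ℝ => (α - β * (Real.log b - Real.log y)) / y) (Set.Ioo a b) ∧
    ∫ y in Set.Ioo a b, (α - β * (Real.log b - Real.log y)) / y =
      α * (Real.log b - Real.log a) - β * (Real.log b - Real.log a) ^ 2 / 2 := by
  have hc : ContinuousOn (fun y : ℝ => (α - β * (Real.log b - Real.log y)) / y) (Set.Icc a b) := by
    intro y hy
    have hy0 : y ≠ 0 := (ha.trans_le hy.1).ne'
    have h1 : ContinuousAt Real.log y := Real.continuousAt_log hy0
    have h2 : ContinuousAt (fun y : ℝ => (α - β * (Real.log b - Real.log y)) / y) y :=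
      (continuousAt_const.sub (continuousAt_const.mul (continuousAt_const.sub h1))).div
        continuousAt_id hy0
    exact h2.continuousWithinAt
  have hi : IntegrableOn (fun y : ℝ => (α - β * (Real.log b - Real.log y)) / y) (Set.Icc a b) :=
    hc.integrableOn_Icc
  refine ⟨hi.mono_set Set.Ioo_subset_Icc_self, ?_⟩
  rw [← integral_Ioc_eq_integral_Ioo, ← intervalIntegral.integral_of_le hab]
  have hd : ∀ y ∈ Set.uIcc a b, HasDerivAt
      (fun y : ℝ => α * Real.log y + β * (Real.log b - Real.log y) ^ 2 / 2)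
      ((α - β * (Real.log b - Real.log y)) / y) y := by
    intro y hy
    rw [Set.uIcc_of_le hab] at hy
    have hy0 : y ≠ 0 := (ha.trans_le hy.1).ne'
    have h1 : HasDerivAt Real.log y⁻¹ y := Real.hasDerivAt_log hy0
    have h2 : HasDerivAt (fun y : ℝ => Real.log b - Real.log y) (0 - y⁻¹) y :=
      (hasDerivAt_const y _).sub h1
    have h3 := (h1.const_mul α).add (((h2.pow 2).const_mul β).div_const 2)
    refine h3.congr_deriv ?_
    field_simp
    ring
  rw [intervalIntegral.integral_eq_sub_of_hasDerivAt hd]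
  · ring
  · rw [intervalIntegrable_iff_integrableOn_Icc_of_le hab]
    exact hi

/-- the pointwise estimate: arithmetic part -/
theorem BGB_arith {c L θ A t D' G : ℝ} (hc : 0 ≤ c) (hL : 0 < L) (hθ : 0 < θ) (hθ1 : θ ≤ 1 / 40)
    (hA : A ≤ 5 * θ * L) (ht : t ≤ L * (1 + 6 * θ)) (hD : t - 11 * θ * L ≤ D')
    (hG : c * ((1 - θ) * D' - A) / L ^ 2 ≤ G) :
    max ((1 + θ) * c / L - G) 0 ≤ c * (1 + 17 * θ) / L - c * (1 - θ) / L ^ 2 * t := by
  have hcL : 0 ≤ c / L ^ 2 := by positivity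
  have e1 : (1 + θ) * c / L = c / L ^ 2 * ((1 + θ) * L) := by
    field_simp
  have e2 : c * (1 + 17 * θ) / L - c * (1 - θ) / L ^ 2 * t =
      c / L ^ 2 * ((1 + 17 * θ) * L - (1 - θ) * t) := by
    field_simp
  have e3 : c * ((1 - θ) * D' - A) / L ^ 2 = c / L ^ 2 * ((1 - θ) * D' - A) := by
    field_simp
  rw [e2]
  apply max_le
  · have h1 : (1 + θ) * c / L - G ≤ c / L ^ 2 * ((1 + θ) * L - ((1 - θ) * D' - A)) := by
      rw [mul_sub (c / L ^ 2), ← e1, ← e3]
      linarith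
    refine h1.trans (mul_le_mul_of_nonneg_left ?_ hcL)
    have h2 : (1 - θ) * (t - 11 * θ * L) ≤ (1 - θ) * D' :=
      mul_le_mul_of_nonneg_left hD (by linarith)
    nlinarith [mul_pos hθ hL, mul_pos (mul_pos hθ hθ) hL]
  · apply mul_nonneg hcL
    have h2 : (1 - θ) * t ≤ (1 - θ) * (L * (1 + 6 * θ)) :=
      mul_le_mul_of_nonneg_left ht (by linarith)
    nlinarith [mul_pos hθ hL, mul_pos (mul_pos hθ hθ) hL]

/-- the main term of the sum over all heights -/
theorem b_int_pr {δ : ℝ} (h0 : 0 < δ) (h1 : δ < 1 / 4) {ε : ℝ} (hε : 0 < ε) (C₀ : ℝ) :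
    ∃ ε' ε₁ : ℝ, 0 < ε' ∧ 0 < ε₁ ∧ ∀ ε₂ : ℝ, 0 < ε₂ → ε₂ ≤ ε₁ → ∃ N₀ : ℕ, ∀ N : ℕ, N₀ ≤ N →
    ∀ a : ℕ → ℝ, Sht (zz N) (KA ε₂ N) a → cn (zz N) (KA ε₂ N) a ≤ C₀ →
      IntegrableOn (fun y : ℝ =>
        max ((1 + ε') * cn (zz N) (KA ε₂ N) a / Real.log (MM δ N) -
          GD (ww δ ε₂ N a) (2 / (y * Real.sqrt N))) 0 / y)
        (Set.Ioo (2 / (QQ δ ε₂ N * Real.sqrt N)) (2 / Real.sqrt N)) ∧
      ∫ y in Set.Ioo (2 / (QQ δ ε₂ N * Real.sqrt N)) (2 / Real.sqrt N),
        max ((1 + ε') * cn (zz N) (KA ε₂ N) a / Real.log (MM δ N) -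
          GD (ww δ ε₂ N a) (2 / (y * Real.sqrt N))) 0 / y ≤
        cn (zz N) (KA ε₂ N) a / 2 + ε := by
  obtain ⟨θ, hθ, hθ1, hθ2⟩ : ∃ θ : ℝ, 0 < θ ∧ θ ≤ 1 / 40 ∧ 40 * θ * (|C₀| + 1) ≤ ε := by
    have hc : 0 < |C₀| + 1 := by positivity
    refine ⟨min 1 (ε / (|C₀| + 1)) / 40, by positivity, ?_, ?_⟩
    · have := min_le_left 1 (ε / (|C₀| + 1))
      linarith
    · have h2 := min_le_right 1 (ε / (|C₀| + 1))
      calc 40 * (min 1 (ε / (|C₀| + 1)) / 40) * (|C₀| + 1) =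
          min 1 (ε / (|C₀| + 1)) * (|C₀| + 1) := by ring
        _ ≤ ε / (|C₀| + 1) * (|C₀| + 1) := mul_le_mul_of_nonneg_right h2 hc.le
        _ = ε := by field_simp
  refine ⟨θ, θ, hθ, hθ, fun ε₂ h2 h2' => ?_⟩
  obtain ⟨N₁, hN₁⟩ := sizes h0 h1 hθ
  obtain ⟨N₂, hN₂⟩ := gd_lower h0 h1 hθ
  obtain ⟨N₃, hN₃⟩ := eventually_atTop.1
    ((Real.tendsto_log_atTop.comp tendsto_natCast_atTop_atTop).eventually_ge_atTop (5 / θ))
  refine ⟨max N₁ (max N₂ N₃), fun N hN a ha hcn => ?_⟩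
  have hN1 : N₁ ≤ N := (le_max_left _ _).trans hN
  have hN2 : N₂ ≤ N := (le_max_left _ _).trans ((le_max_right _ _).trans hN)
  have hN3 : N₃ ≤ N := (le_max_right _ _).trans ((le_max_right _ _).trans hN)
  obtain ⟨n3, z2, zM, -, -, -, hM, -, -⟩ := hN₁ N hN1
  have hlN : 5 / θ ≤ Real.log N := hN₃ N hN3
  obtain ⟨A1, -, A3⟩ := ka_size h2 (show 1 ≤ N by omega)
  have hgd := hN₂ N hN2 (KA ε₂ N) A1 a ha.sup
  have hc0 := BGB_cn_nonneg (zz N) (KA ε₂ N) a
  have hww : ∀ D, GD (wA (zz N) (MM δ N) 2 (KA ε₂ N) a) D = GD (ww δ ε₂ N a) D := fun D => rfl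
  simp only [hww] at hgd
  have hmono := BGB_gd_mono (ww δ ε₂ N a)
  set c := cn (zz N) (KA ε₂ N) a with hcdef
  set L := Real.log (MM δ N) with hLdef
  set G := GD (ww δ ε₂ N a) with hG
  have hN0 : (0 : ℝ) < N := by
    have : 0 < N := by omega
    exact_mod_cast this
  have hMpos : (0 : ℝ) < MM δ N := by
    have : 0 < MM δ N := by omega
    exact_mod_cast this
  have hA1 : (1 : ℝ) ≤ KA ε₂ N := by exact_mod_cast A1
  have hlN200 : 200 ≤ Real.log N := by
    refine le_trans ?_ hlN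
    rw [le_div_iff₀ hθ]
    linarith
  have hLN : Real.log N ≤ 5 * L := by
    have := (abs_le.1 hM).1
    nlinarith
  have hL : 0 < L := by linarith
  have hθL : 1 ≤ θ * L := by
    have : 5 ≤ θ * Real.log N := by
      rw [div_le_iff₀ hθ] at hlN
      linarith
    nlinarith
  have hlA : Real.log (KA ε₂ N) ≤ 5 * θ * L := by
    calc Real.log (KA ε₂ N) ≤ ε₂ * Real.log N := A3
      _ ≤ θ * Real.log N := mul_le_mul_of_nonneg_right h2' (by linarith)
      _ ≤ θ * (5 * L) := mul_le_mul_of_nonneg_left hLN hθ.le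
      _ = 5 * θ * L := by ring
  have hlA0 : 0 ≤ Real.log (KA ε₂ N) := Real.log_nonneg hA1
  have hl2 : Real.log 2 ≤ 1 := by
    have := Real.log_two_lt_d9
    linarith
  have hl20 : 0 ≤ Real.log 2 := Real.log_nonneg (by norm_num)
  have hQdef : (QQ δ ε₂ N : ℝ) = 2 * MM δ N * KA ε₂ N := by
    unfold QQ QA
    push_cast
    ring
  have hQpos : (0 : ℝ) < QQ δ ε₂ N := by
    rw [hQdef]
    positivity
  have hlQ : Real.log (QQ δ ε₂ N) = Real.log 2 + L + Real.log (KA ε₂ N) := by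
    rw [hQdef, Real.log_mul (by positivity) (by positivity), Real.log_mul (by norm_num)
      hMpos.ne']
  have hsq : 0 < Real.sqrt N := Real.sqrt_pos.2 hN0
  set b := 2 / Real.sqrt N with hb
  have hb0 : 0 < b := by positivity
  have ha' : 2 / ((QQ δ ε₂ N : ℝ) * Real.sqrt N) = b / QQ δ ε₂ N := by
    rw [hb]
    field_simp
  rw [ha']
  have ha0 : 0 < b / QQ δ ε₂ N := by positivity
  have hQ1 : (1 : ℝ) ≤ QQ δ ε₂ N := by
    have : 1 ≤ QQ δ ε₂ N := by
      have := (show (0 : ℝ) < QQ δ ε₂ N from hQpos)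
      exact_mod_cast this
    exact_mod_cast this
  have hab : b / QQ δ ε₂ N ≤ b := div_le_self hb0.le hQ1
  have hlab : Real.log b - Real.log (b / QQ δ ε₂ N) = Real.log (QQ δ ε₂ N) := by
    rw [Real.log_div hb0.ne' hQpos.ne']
    ring
  -- the pointwise bound
  have hpt : ∀ y ∈ Set.Ioo (b / QQ δ ε₂ N) b,
      max ((1 + θ) * c / L - G (2 / (y * Real.sqrt N))) 0 / y ≤
        (c * (1 + 17 * θ) / L - c * (1 - θ) / L ^ 2 * (Real.log b - Real.log y)) / y := by
    intro y hy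
    have hy0 : 0 < y := ha0.trans hy.1
    have hD : 2 / (y * Real.sqrt N) = b / y := by
      rw [hb]
      field_simp
    rw [hD]
    refine div_le_div_of_nonneg_right ?_ hy0.le
    have hlt : Real.log b - Real.log y = Real.log (b / y) := (Real.log_div hb0.ne' hy0.ne').symm
    rw [hlt]
    have hD1 : 1 ≤ b / y := by
      rw [le_div_iff₀ hy0]
      linarith [hy.2]
    have hDQ : b / y ≤ QQ δ ε₂ N := by
      rw [div_le_iff₀ hy0]
      have := hy.1.le
      rw [div_le_iff₀ hQpos] at this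
      linarith
    have htQ : Real.log (b / y) ≤ Real.log 2 + L + Real.log (KA ε₂ N) := by
      rw [← hlQ]
      exact Real.log_le_log (by linarith) hDQ
    have hNp : 0 < (N : ℝ) ^ (-θ) := Real.rpow_pos_of_pos hN0 _
    have hlD1 : Real.log (MM δ N * (N : ℝ) ^ (-θ)) = L - θ * Real.log N := by
      rw [Real.log_mul hMpos.ne' hNp.ne', Real.log_rpow hN0]
      ring
    obtain ⟨D', hD'1, hD'2, hD'3, hD'4⟩ : ∃ D' : ℝ, 1 ≤ D' ∧ D' ≤ MM δ N * (N : ℝ) ^ (-θ) ∧
        G D' ≤ G (b / y) ∧ Real.log (b / y) - 11 * θ * L ≤ Real.log D' := by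
      by_cases hcase : b / y ≤ MM δ N * (N : ℝ) ^ (-θ)
      · exact ⟨b / y, hD1, hcase, le_rfl, by nlinarith⟩
      · push Not at hcase
        refine ⟨MM δ N * (N : ℝ) ^ (-θ), ?_, le_rfl, hmono hcase.le, ?_⟩
        · rw [← Real.log_nonneg_iff (by positivity), hlD1]
          nlinarith
        · rw [hlD1]
          nlinarith
    exact BGB_arith hc0 hL hθ hθ1 hlA (by nlinarith) hD'4 ((hgd D' hD'1 hD'2).trans hD'3)
  obtain ⟨I1, I2⟩ := BGB_calc ha0 hab (c * (1 + 17 * θ) / L) (c * (1 - θ) / L ^ 2)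
  have hmeas : Measurable (fun y : ℝ =>
      max ((1 + θ) * c / L - G (2 / (y * Real.sqrt N))) 0 / y) := by
    have hGm : Measurable G := hmono.measurable
    have : Measurable (fun y : ℝ => G (2 / (y * Real.sqrt N))) :=
      hGm.comp (measurable_const.div (measurable_id.mul_const _))
    exact ((measurable_const.sub this).max measurable_const).div measurable_id
  have hint : IntegrableOn (fun y : ℝ =>
      max ((1 + θ) * c / L - G (2 / (y * Real.sqrt N))) 0 / y) (Set.Ioo (b / QQ δ ε₂ N) b) := by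
    refine Integrable.mono' I1 hmeas.aestronglyMeasurable ?_
    refine (ae_restrict_iff' measurableSet_Ioo).2 (Eventually.of_forall fun y hy => ?_)
    have hy0 : 0 < y := ha0.trans hy.1
    rw [Real.norm_of_nonneg (div_nonneg (le_max_right _ _) hy0.le)]
    exact hpt y hy
  refine ⟨hint, ?_⟩
  refine (setIntegral_mono_on hint I1 measurableSet_Ioo hpt).trans ?_
  rw [I2, hlab, hlQ]
  set ρ := Real.log 2 + L + Real.log (KA ε₂ N) with hρ
  have hρ1 : L ≤ ρ := by linarith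
  have hρ2 : ρ ≤ L * (1 + 6 * θ) := by nlinarith
  have hcC : c * (40 * θ) ≤ ε := by
    refine le_trans ?_ hθ2
    rw [mul_comm]
    refine mul_le_mul_of_nonneg_left ?_ (by positivity)
    have := le_abs_self C₀
    linarith
  have e1 : c * (1 + 17 * θ) / L * ρ ≤ c * ((1 + 17 * θ) * (1 + 6 * θ)) := by
    have : ρ / L ≤ 1 + 6 * θ := by
      rw [div_le_iff₀ hL]
      linarith
    calc c * (1 + 17 * θ) / L * ρ = c * ((1 + 17 * θ) * (ρ / L)) := by ring
      _ ≤ c * ((1 + 17 * θ) * (1 + 6 * θ)) := by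
        refine mul_le_mul_of_nonneg_left (mul_le_mul_of_nonneg_left this (by positivity)) hc0
  have e2 : c * ((1 - θ) / 2) ≤ c * (1 - θ) / L ^ 2 * ρ ^ 2 / 2 := by
    have h3 : 1 ≤ ρ ^ 2 / L ^ 2 := by
      rw [le_div_iff₀ (by positivity), one_mul]
      exact pow_le_pow_left₀ hL.le hρ1 2
    calc c * ((1 - θ) / 2) = c * ((1 - θ) / 2) * 1 := by ring
      _ ≤ c * ((1 - θ) / 2) * (ρ ^ 2 / L ^ 2) :=
        mul_le_mul_of_nonneg_left h3 (mul_nonneg hc0 (by linarith))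
      _ = c * (1 - θ) / L ^ 2 * ρ ^ 2 / 2 := by ring
  have e3 : c * ((1 + 17 * θ) * (1 + 6 * θ)) - c * ((1 - θ) / 2) ≤ c / 2 + c * (40 * θ) := by
    have : (1 + 17 * θ) * (1 + 6 * θ) - (1 - θ) / 2 ≤ 1 / 2 + 40 * θ := by nlinarith
    calc c * ((1 + 17 * θ) * (1 + 6 * θ)) - c * ((1 - θ) / 2) =
        c * ((1 + 17 * θ) * (1 + 6 * θ) - (1 - θ) / 2) := by ring
      _ ≤ c * (1 / 2 + 40 * θ) := mul_le_mul_of_nonneg_left this hc0
      _ = c / 2 + c * (40 * θ) := by ring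
  linarith

theorem b_int : type_of% @b_int_pr := @b_int_pr

end Pool.Agent.KSL
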