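import Pool.Agent.Lib_helper68.KSL.Defs

/-! KSL block ABL: partial summation against a decreasing function. -/

set_option autoImplicit false

namespace Pool.Agent.KSL

open Pool.Agent.LEV Pool.Agent.LVB
open Pool.Agent.FG61 (mu phi cc ff AA Lam)
open Complex MeasureTheory Filter Topology UpperHalfPlane ModularGroup ProbabilityTheory
open scoped MatrixGroups Modular ENNReal ModularForm ComplexConjugate ContDiff

/-- Abel summation -/
theorem ABL_parts (b u : ℕ → ℝ) (M : ℕ) :
    ∑ n ∈ Finset.range M, b n * u n = b M * ∑ n ∈ Finset.range M, u n +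
      ∑ n ∈ Finset.range M, (b n - b (n + 1)) * ∑ k ∈ Finset.range (n + 1), u k := by
  induction M with
  | zero => simp
  | succ M ih =>
    rw [Finset.sum_range_succ, ih, Finset.sum_range_succ (fun n => (b n - b (n + 1)) * _),
      Finset.sum_range_succ u]
    ring

theorem ABL_low {b u : ℕ → ℝ} (hb : ∀ n, 0 ≤ b n) (hanti : ∀ n, b (n + 1) ≤ b n) {c : ℝ}
    (h : ∀ X : ℕ, -c ≤ ∑ n ∈ Finset.range X, u n) (M : ℕ) :
    -c * b 0 ≤ ∑ n ∈ Finset.range M, b n * u n := by
  rw [ABL_parts]
  have h1 : b M * (-c) ≤ b M * ∑ n ∈ Finset.range M, u n := mul_le_mul_of_nonneg_left (h M) (hb M)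
  have h2 : ∑ n ∈ Finset.range M, (b n - b (n + 1)) * (-c) ≤
      ∑ n ∈ Finset.range M, (b n - b (n + 1)) * ∑ k ∈ Finset.range (n + 1), u k := by
    apply Finset.sum_le_sum
    intro n _
    exact mul_le_mul_of_nonneg_left (h (n + 1)) (sub_nonneg.mpr (hanti n))
  have h3 : ∑ n ∈ Finset.range M, (b n - b (n + 1)) * (-c) = (b 0 - b M) * (-c) := by
    rw [← Finset.sum_mul, Finset.sum_range_sub']
  linarith

theorem ABL_int {g : ℝ → ℝ} {G : ℝ} (hg : Kg g G) {y : ℝ} (hy : 0 < y) (M : ℕ) :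
    ∑ n ∈ Finset.range M, g ((n + 1) * y) * y ≤ ∫ u in Set.Ioc (0 : ℝ) (M * y), g u := by
  have hii : ∀ a b : ℝ, 0 ≤ a → a ≤ b → IntervalIntegrable g volume a b := by
    intro a b ha hab
    rw [intervalIntegrable_iff_integrableOn_Ioc_of_le hab]
    exact hg.int.mono_set (fun t ht => lt_of_le_of_lt ha ht.1)
  induction M with
  | zero => simp
  | succ M ih =>
    rw [Finset.sum_range_succ]
    have h0 : (0 : ℝ) ≤ M * y := by positivity
    have h1 : (M : ℝ) * y ≤ ((M + 1 : ℕ) : ℝ) * y := by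
      push_cast
      nlinarith
    rw [← intervalIntegral.integral_of_le h0] at ih
    rw [← intervalIntegral.integral_of_le (h0.trans h1),
      ← intervalIntegral.integral_add_adjacent_intervals (hii 0 _ le_rfl h0) (hii _ _ h0 h1)]
    apply add_le_add ih
    have h2 : ∫ _t in (M * y : ℝ)..(((M + 1 : ℕ) : ℝ) * y), g ((M + 1) * y) =
        g ((M + 1) * y) * y := by
      rw [intervalIntegral.integral_const, smul_eq_mul]
      push_cast
      ring
    rw [← h2]
    apply intervalIntegral.integral_mono_on_of_le_Ioo h1 (by simp) (hii _ _ h0 h1)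
    intro t ht
    have ht0 : 0 < t := lt_of_le_of_lt h0 ht.1
    refine hg.anti ht0 ?_ ?_
    · show 0 < ((M : ℝ) + 1) * y
      positivity
    · have := ht.2
      push_cast at this
      exact this.le

/-- partial summation against a decreasing function -/
theorem abel_anti_pr {g : ℝ → ℝ} {G : ℝ} (hg : Kg g G) {y : ℝ} (hy : 0 < y) {a e : ℕ → ℝ}
    (ha : ∀ n, 0 ≤ a n) (he : ∀ n, 0 ≤ e n) {B c : ℝ} (hB : 0 ≤ B) (hc : 0 ≤ c)
    (h : ∀ X : ℕ, ∑ n ∈ Finset.range X, a n ≤ B * X + ∑ n ∈ Finset.range X, e n + c)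
    (hs : Summable (fun n : ℕ => g ((n + 1) * y) * e n)) :
    Summable (fun n : ℕ => g ((n + 1) * y) * a n) ∧
    ∑' n : ℕ, g ((n + 1) * y) * a n ≤ B / y * (∫ u in Set.Ioi (0 : ℝ), g u) +
      ∑' n : ℕ, g ((n + 1) * y) * e n + c * g y := by
  have hpos : ∀ n : ℕ, 0 < ((n : ℝ) + 1) * y := fun n => by positivity
  have hb : ∀ n : ℕ, 0 ≤ g ((n + 1) * y) := fun n => hg.nonneg _
  have hanti : ∀ n : ℕ, g (((n + 1 : ℕ) + 1) * y) ≤ g ((n + 1) * y) := by
    intro n
    refine hg.anti (hpos n) (hpos (n + 1)) ?_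
    push_cast
    nlinarith
  have key : ∀ M : ℕ, ∑ n ∈ Finset.range M, g ((n + 1) * y) * a n ≤
      B / y * (∫ u in Set.Ioi (0 : ℝ), g u) + ∑' n : ℕ, g ((n + 1) * y) * e n + c * g y := by
    intro M
    have h1 := ABL_low (b := fun n : ℕ => g ((n + 1) * y)) (u := fun n => B + e n - a n) (c := c)
      hb hanti (by
        intro X
        have := h X
        simp only [Finset.sum_sub_distrib, Finset.sum_add_distrib, Finset.sum_const,
          Finset.card_range, nsmul_eq_mul]
        linarith) M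
    have h2 : ∑ n ∈ Finset.range M, g ((n + 1) * y) * (B + e n - a n) =
        B / y * (∑ n ∈ Finset.range M, g ((n + 1) * y) * y) +
          ∑ n ∈ Finset.range M, g ((n + 1) * y) * e n -
          ∑ n ∈ Finset.range M, g ((n + 1) * y) * a n := by
      rw [Finset.mul_sum, ← Finset.sum_add_distrib, ← Finset.sum_sub_distrib]
      apply Finset.sum_congr rfl
      intro n _
      field_simp
    have h3 : ∑ n ∈ Finset.range M, g ((n + 1) * y) * y ≤ ∫ u in Set.Ioi (0 : ℝ), g u := by
      refine (ABL_int hg hy M).trans ?_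
      apply setIntegral_mono_set hg.int
      · exact Filter.Eventually.of_forall hg.nonneg
      · exact (Set.Ioc_subset_Ioi_self).eventuallyLE
    have h4 : ∑ n ∈ Finset.range M, g ((n + 1) * y) * e n ≤ ∑' n : ℕ, g ((n + 1) * y) * e n :=
      hs.sum_le_tsum _ (fun n _ => mul_nonneg (hb n) (he n))
    have h5 : B / y * (∑ n ∈ Finset.range M, g ((n + 1) * y) * y) ≤
        B / y * (∫ u in Set.Ioi (0 : ℝ), g u) :=
      mul_le_mul_of_nonneg_left h3 (by positivity)
    have h6 : g (((0 : ℕ) + 1 : ℝ) * y) = g y := by simp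

    rw [h6, h2] at h1
    linarith
  have hsum : Summable (fun n : ℕ => g ((n + 1) * y) * a n) :=
    summable_of_sum_range_le (fun n => mul_nonneg (hb n) (ha n)) key
  exact ⟨hsum, hsum.tsum_le_of_sum_range_le key⟩

theorem abel_anti : type_of% @abel_anti_pr := @abel_anti_pr

end Pool.Agent.KSL
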