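import Pool.Agent.Lib_helper68.KSL.Defs
import Pool.Agent.Lib_helper61.FG.P.CD

/-! KSL block DIA: the diagonal terms of the tail sums. -/

set_option autoImplicit false

namespace Pool.Agent.KSL

open Pool.Agent.LEV Pool.Agent.LVB
open Pool.Agent.FG61 (mu phi cc ff AA Lam)
open Complex MeasureTheory Filter Topology UpperHalfPlane ModularGroup ProbabilityTheory
open scoped MatrixGroups Modular ENNReal ModularForm ComplexConjugate ContDiff

theorem DIA_mu (m : ℕ) : ∑ s ∈ m.divisors, mu (m / s) = if m = 1 then 1 else 0 := by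
  rw [Nat.sum_div_divisors m (fun s => mu s)]
  have h : ((ArithmeticFunction.zeta : ArithmeticFunction ℤ) * ArithmeticFunction.moebius) m =
      if m = 1 then 1 else 0 := by
    rw [ArithmeticFunction.coe_zeta_mul_moebius, ArithmeticFunction.one_apply]
  rw [ArithmeticFunction.coe_zeta_mul_apply] at h
  unfold mu
  rw [← Int.cast_sum, h]
  split_ifs <;> simp

theorem DIA_main (q r : ℕ) (hq : 1 ≤ q) (hr : 1 ≤ r) :
    ∑ t ∈ q.divisors, (if r ∣ t then mu (q / t) else 0) = if q = r then 1 else 0 := by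
  by_cases hrq : r ∣ q
  · obtain ⟨m, rfl⟩ := hrq
    have hm : 1 ≤ m := by
      rcases Nat.eq_zero_or_pos m with h | h
      · subst h; simp at hq
      · exact h
    have h1 : (r * m).divisors.filter (fun t => r ∣ t) = m.divisors.image (fun s => r * s) := by
      ext t
      simp only [Finset.mem_filter, Nat.mem_divisors, Finset.mem_image]
      constructor
      · rintro ⟨⟨h2, h3⟩, s, rfl⟩
        refine ⟨s, ⟨Nat.dvd_of_mul_dvd_mul_left (by omega) h2, by omega⟩, rfl⟩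
      · rintro ⟨s, ⟨h2, h3⟩, rfl⟩
        exact ⟨⟨mul_dvd_mul_left r h2, by positivity⟩, dvd_mul_right r s⟩
    rw [← Finset.sum_filter, h1, Finset.sum_image (fun a _ b _ h => Nat.eq_of_mul_eq_mul_left (by omega) h)]
    have h2 : ∀ s ∈ m.divisors, mu (r * m / (r * s)) = mu (m / s) := by
      intro s _
      rw [Nat.mul_div_mul_left _ _ (by omega)]
    rw [Finset.sum_congr rfl h2, DIA_mu m]
    have h3 : (m = 1) ↔ (r * m = r) := by
      constructor
      · rintro rfl; simp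
      · intro h
        have : r * m = r * 1 := by rw [h, mul_one]
        exact Nat.eq_of_mul_eq_mul_left (by omega) this
    by_cases h4 : m = 1
    · rw [if_pos h4, if_pos (h3.mp h4)]
    · rw [if_neg h4, if_neg (fun h => h4 (h3.mpr h))]
  · rw [if_neg (fun h : q = r => hrq (by rw [h]))]
    apply Finset.sum_eq_zero
    intro t ht
    rw [if_neg]
    intro h
    exact hrq (h.trans (Nat.dvd_of_mem_divisors ht))

theorem DIA_corr (X q r : ℕ) (hq : 1 ≤ q) (hr : 1 ≤ r) :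
    |∑ n ∈ Finset.Icc 1 X, cc q n * cc r n - (if q = r then (X : ℝ) * phi r else 0)| ≤
      (∑ t ∈ q.divisors, (t : ℝ)) * ∑ t ∈ r.divisors, (t : ℝ) := by
  have h1 : ∑ n ∈ Finset.Icc 1 X, cc q n * cc r n = ∑ t ∈ q.divisors, (t : ℝ) * mu (q / t) *
      ∑ n ∈ (Finset.Icc 1 X).filter (fun n => t ∣ n), cc r n := by
    have h2 : ∀ n ∈ Finset.Icc 1 X, cc q n * cc r n =
        ∑ t ∈ q.divisors, if t ∣ n then (t : ℝ) * mu (q / t) * cc r n else 0 := by
      intro n _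
      rw [Pool.Agent.FG61.CD_cc q n hq, Finset.sum_mul]
      apply Finset.sum_congr rfl
      intro t _
      split_ifs <;> simp
    rw [Finset.sum_congr rfl h2, Finset.sum_comm]
    apply Finset.sum_congr rfl
    intro t _
    rw [Finset.mul_sum, Finset.sum_filter]
  have h3 : (if q = r then (X : ℝ) * phi r else 0) = ∑ t ∈ q.divisors, (t : ℝ) * mu (q / t) *
      (if r ∣ t then (X : ℝ) / t * phi r else 0) := by
    have h4 : ∀ t ∈ q.divisors, (t : ℝ) * mu (q / t) * (if r ∣ t then (X : ℝ) / t * phi r else 0) =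
        (X : ℝ) * phi r * (if r ∣ t then mu (q / t) else 0) := by
      intro t ht
      have ht0 : (t : ℝ) ≠ 0 := by exact_mod_cast (Nat.pos_of_mem_divisors ht).ne'
      split_ifs
      · field_simp
      · simp
    rw [Finset.sum_congr rfl h4, ← Finset.mul_sum, DIA_main q r hq hr]
    split_ifs <;> simp
  rw [h1, h3, ← Finset.sum_sub_distrib, Finset.sum_mul]
  refine (Finset.abs_sum_le_sum_abs _ _).trans (Finset.sum_le_sum fun t ht => ?_)
  have ht1 : 0 < t := Nat.pos_of_mem_divisors ht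
  rw [← mul_sub, abs_mul, abs_mul]
  have h7 : |mu (q / t)| ≤ 1 := by
    have := ArithmeticFunction.abs_moebius_le_one (n := q / t)
    unfold mu
    exact_mod_cast this
  have h12 : |(t : ℝ)| = t := abs_of_nonneg (Nat.cast_nonneg t)
  rw [h12]
  have h13 : (t : ℝ) * |mu (q / t)| ≤ t := by
    calc (t : ℝ) * |mu (q / t)| ≤ t * 1 := mul_le_mul_of_nonneg_left h7 (Nat.cast_nonneg t)
      _ = t := mul_one _
  exact mul_le_mul h13 (Pool.Agent.FG61.cc_count X t r ht1 hr) (abs_nonneg _) (Nat.cast_nonneg t)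

/-- two combinations of Ramanujan sums -/
theorem DIA_two (X : ℕ) (A B : Finset ℕ) (hA : ∀ q ∈ A, 1 ≤ q) (hB : ∀ q ∈ B, 1 ≤ q)
    (hBA : B ⊆ A) (w : ℕ → ℝ) :
    |∑ n ∈ Finset.Icc 1 X, (∑ q ∈ A, w q * cc q n) * (∑ r ∈ B, w r * cc r n) -
      X * ∑ r ∈ B, phi r * w r ^ 2| ≤
      (∑ q ∈ A, |w q| * ∑ d ∈ q.divisors, (d : ℝ)) *
        ∑ r ∈ B, |w r| * ∑ d ∈ r.divisors, (d : ℝ) := by
  have h1 : ∑ n ∈ Finset.Icc 1 X, (∑ q ∈ A, w q * cc q n) * (∑ r ∈ B, w r * cc r n) =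
      ∑ r ∈ B, ∑ q ∈ A, w q * w r * ∑ n ∈ Finset.Icc 1 X, cc q n * cc r n := by
    have h2 : ∀ n ∈ Finset.Icc 1 X, (∑ q ∈ A, w q * cc q n) * (∑ r ∈ B, w r * cc r n) =
        ∑ r ∈ B, ∑ q ∈ A, w q * w r * (cc q n * cc r n) := by
      intro n _
      rw [Finset.sum_mul_sum, Finset.sum_comm]
      apply Finset.sum_congr rfl
      intro r _
      apply Finset.sum_congr rfl
      intro q _
      ring
    rw [Finset.sum_congr rfl h2, Finset.sum_comm]
    apply Finset.sum_congr rfl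
    intro r _
    rw [Finset.sum_comm]
    apply Finset.sum_congr rfl
    intro q _
    rw [Finset.mul_sum]
  have h3 : (X : ℝ) * ∑ r ∈ B, phi r * w r ^ 2 =
      ∑ r ∈ B, ∑ q ∈ A, w q * w r * (if q = r then (X : ℝ) * phi r else 0) := by
    rw [Finset.mul_sum]
    apply Finset.sum_congr rfl
    intro r hr
    have h4 : ∀ q ∈ A, w q * w r * (if q = r then (X : ℝ) * phi r else 0) =
        if q = r then w r * w r * ((X : ℝ) * phi r) else 0 := by
      intro q _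
      by_cases h : q = r
      · subst h; simp
      · simp [h]
    rw [Finset.sum_congr rfl h4, Finset.sum_ite_eq' A r (fun _ => w r * w r * ((X : ℝ) * phi r)),
      if_pos (hBA hr)]
    ring
  rw [h1, h3, ← Finset.sum_sub_distrib]
  have h5 : (∑ q ∈ A, |w q| * ∑ d ∈ q.divisors, (d : ℝ)) *
        ∑ r ∈ B, |w r| * ∑ d ∈ r.divisors, (d : ℝ) =
      ∑ r ∈ B, ∑ q ∈ A, |w q| * |w r| * ((∑ d ∈ q.divisors, (d : ℝ)) * ∑ d ∈ r.divisors, (d : ℝ)) := by
    rw [Finset.sum_mul_sum, Finset.sum_comm]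
    apply Finset.sum_congr rfl
    intro r _
    apply Finset.sum_congr rfl
    intro q _
    ring
  rw [h5]
  refine (Finset.abs_sum_le_sum_abs _ _).trans (Finset.sum_le_sum fun r hr => ?_)
  rw [← Finset.sum_sub_distrib]
  refine (Finset.abs_sum_le_sum_abs _ _).trans (Finset.sum_le_sum fun q hq => ?_)
  rw [← mul_sub, abs_mul, abs_mul]
  exact mul_le_mul_of_nonneg_left (DIA_corr X q r (hA q hq) (hB r hr)) (by positivity)

theorem tt_diag_pr (Q : ℕ) (w : ℕ → ℝ) (D : ℝ) (hD : ⌊D⌋₊ ≤ Q) (X : ℕ) :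
    |∑ n ∈ Finset.Icc 1 X, TT Q w D n ^ 2 - ∑ n ∈ Finset.Icc 1 X, WW Q w n ^ 2 + X * GD w D| ≤
      3 * (∑ q ∈ Finset.Icc 1 Q, |w q| * ∑ d ∈ q.divisors, (d : ℝ)) *
        ∑ q ∈ Finset.Icc 1 ⌊D⌋₊, |w q| * ∑ d ∈ q.divisors, (d : ℝ) := by
  set P : ℕ → ℝ := fun n => ∑ q ∈ Finset.Icc 1 ⌊D⌋₊, w q * cc q n with hP
  have hsub : Finset.Icc 1 ⌊D⌋₊ ⊆ Finset.Icc 1 Q := Finset.Icc_subset_Icc_right hD
  have hTT : ∀ n, TT Q w D n = WW Q w n - P n := by
    intro n
    have h1 : (Finset.Icc 1 Q).filter (fun q : ℕ => ¬ (D < q)) = Finset.Icc 1 ⌊D⌋₊ := by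
      ext q
      simp only [Finset.mem_filter, Finset.mem_Icc, not_lt]
      constructor
      · rintro ⟨⟨h2, _⟩, h4⟩
        exact ⟨h2, Nat.le_floor h4⟩
      · rintro ⟨h2, h3⟩
        refine ⟨⟨h2, h3.trans hD⟩, ?_⟩
        exact (Nat.le_floor_iff' (by omega)).mp h3
    have h2 := Finset.sum_filter_add_sum_filter_not (Finset.Icc 1 Q) (fun q : ℕ => D < q)
      (fun q => w q * cc q n)
    rw [h1] at h2
    unfold TT WW
    rw [hP]
    linarith
  have hA : ∀ q ∈ Finset.Icc 1 Q, 1 ≤ q := fun q hq => (Finset.mem_Icc.mp hq).1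
  have hB : ∀ q ∈ Finset.Icc 1 ⌊D⌋₊, 1 ≤ q := fun q hq => (Finset.mem_Icc.mp hq).1
  have e1 := DIA_two X _ _ hA hB hsub w
  have e2 := DIA_two X _ _ hB hB (Finset.Subset.refl _) w
  have h3 : ∑ n ∈ Finset.Icc 1 X, TT Q w D n ^ 2 - ∑ n ∈ Finset.Icc 1 X, WW Q w n ^ 2 + X * GD w D =
      -2 * (∑ n ∈ Finset.Icc 1 X, WW Q w n * P n - X * GD w D) +
        (∑ n ∈ Finset.Icc 1 X, P n * P n - X * GD w D) := by
    have h4 : ∑ n ∈ Finset.Icc 1 X, TT Q w D n ^ 2 = ∑ n ∈ Finset.Icc 1 X, WW Q w n ^ 2 -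
        2 * ∑ n ∈ Finset.Icc 1 X, WW Q w n * P n + ∑ n ∈ Finset.Icc 1 X, P n * P n := by
      rw [Finset.mul_sum, ← Finset.sum_sub_distrib, ← Finset.sum_add_distrib]
      apply Finset.sum_congr rfl
      intro n _
      rw [hTT]
      ring
    rw [h4]
    ring
  set SA := ∑ q ∈ Finset.Icc 1 Q, |w q| * ∑ d ∈ q.divisors, (d : ℝ) with hSA
  set SB := ∑ q ∈ Finset.Icc 1 ⌊D⌋₊, |w q| * ∑ d ∈ q.divisors, (d : ℝ) with hSB
  have hSB0 : 0 ≤ SB := Finset.sum_nonneg fun q _ => by positivity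
  have hSBA : SB ≤ SA := Finset.sum_le_sum_of_subset_of_nonneg hsub (fun q _ _ => by positivity)
  have h5 : |∑ n ∈ Finset.Icc 1 X, WW Q w n * P n - X * GD w D| ≤ SA * SB := e1
  have h6 : |∑ n ∈ Finset.Icc 1 X, P n * P n - X * GD w D| ≤ SB * SB := e2
  rw [h3]
  have h7 := abs_le.mp h5
  have h8 := abs_le.mp h6
  have h9 : SB * SB ≤ SA * SB := mul_le_mul_of_nonneg_right hSBA hSB0
  rw [abs_le]
  constructor <;> nlinarith

theorem tt_diag : type_of% @tt_diag_pr := @tt_diag_pr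

end Pool.Agent.KSL
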