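import Pool.Agent.Lib_helper68.KSL.Defs
import Pool.Agent.Lib_helper68.KSLF.BET
import Pool.Agent.Lib_helper68.KSLF.FSQ
import Pool.Agent.Lib_helper68.KSLF.PHI
import Pool.Agent.Lib_helper68.KSLF.SRO
import Pool.Agent.Lib_helper68.KSLF.WWF

/-! KSL block WRQ : the mean square of the rough factor. -/

namespace Pool.Agent.KSL

open Pool.Agent.LEV Pool.Agent.LVB
open Pool.Agent.FG61 (mu phi cc ff AA Lam)
open Complex MeasureTheory Filter Topology UpperHalfPlane ModularGroup ProbabilityTheory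
open scoped MatrixGroups Modular ENNReal ModularForm ComplexConjugate ContDiff

theorem wrq_len {δ : ℝ} (h1 : δ < 1 / 4) (B : ℝ) : ∃ N₀ : ℕ, ∀ N : ℕ, N₀ ≤ N →
    2 ≤ MM δ N ∧ B ≤ Real.log (MM δ N) := by
  have h2 : Tendsto (fun N : ℕ => (N : ℝ) ^ (1 / 2 - δ)) atTop atTop :=
    (tendsto_rpow_atTop (by linarith)).comp tendsto_natCast_atTop_atTop
  have h3 : Tendsto (fun N : ℕ => MM δ N) atTop atTop := tendsto_nat_floor_atTop.comp h2
  have h4 : Tendsto (fun N : ℕ => Real.log (MM δ N)) atTop atTop :=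
    Real.tendsto_log_atTop.comp (tendsto_natCast_atTop_atTop.comp h3)
  have h5 := (h3.eventually_ge_atTop 2).and (h4.eventually_ge_atTop B)
  exact eventually_atTop.1 h5

theorem wrq_dvd (Y d : ℕ) :
    (((Finset.Icc 1 Y).filter (fun n => d ∣ n)).card : ℝ) ≤ (Y : ℝ) / d := by
  have h1 : (Finset.Icc 1 Y).filter (fun n => d ∣ n) = (Finset.Ioc 0 Y).filter (fun n => d ∣ n) := rfl
  rw [h1, Nat.Ioc_filter_dvd_card_eq_div]
  exact Nat.cast_div_le

theorem wrq_cnt (PS : Finset ℕ) (hp : ∀ p ∈ PS, p.Prime) (Y : ℕ) :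
    ∑ n ∈ Finset.Icc 1 Y, ((PS.filter (fun p => p ∣ n)).card : ℝ) ^ 2 ≤
      Y * ((∑ p ∈ PS, 1 / (p : ℝ)) + (∑ p ∈ PS, 1 / (p : ℝ)) ^ 2) := by
  have h1 : ∀ n : ℕ, ((PS.filter (fun p => p ∣ n)).card : ℝ) ^ 2 =
      ∑ p ∈ PS, ∑ q ∈ PS, (if p ∣ n ∧ q ∣ n then (1 : ℝ) else 0) := by
    intro n
    have h2 : ((PS.filter (fun p => p ∣ n)).card : ℝ) = ∑ p ∈ PS, (if p ∣ n then (1 : ℝ) else 0) := by
      rw [← Finset.sum_filter, Finset.sum_const, nsmul_eq_mul, mul_one]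
    rw [h2, sq, Finset.sum_mul_sum]
    refine Finset.sum_congr rfl fun p _ => Finset.sum_congr rfl fun q _ => ?_
    by_cases hpn : p ∣ n <;> by_cases hqn : q ∣ n <;> simp [hpn, hqn]
  have h3 : ∑ n ∈ Finset.Icc 1 Y, ((PS.filter (fun p => p ∣ n)).card : ℝ) ^ 2 =
      ∑ p ∈ PS, ∑ q ∈ PS, (((Finset.Icc 1 Y).filter (fun n => p ∣ n ∧ q ∣ n)).card : ℝ) := by
    rw [Finset.sum_congr rfl fun n _ => h1 n, Finset.sum_comm]
    refine Finset.sum_congr rfl fun p _ => ?_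
    rw [Finset.sum_comm]
    refine Finset.sum_congr rfl fun q _ => ?_
    rw [← Finset.sum_filter, Finset.sum_const, nsmul_eq_mul, mul_one]
  have hY : (0 : ℝ) ≤ Y := Nat.cast_nonneg _
  have h4 : ∀ p ∈ PS, ∀ q ∈ PS,
      (((Finset.Icc 1 Y).filter (fun n => p ∣ n ∧ q ∣ n)).card : ℝ) ≤
        (if p = q then (Y : ℝ) * (1 / (p : ℝ)) else 0) + Y * ((1 / (p : ℝ)) * (1 / (q : ℝ))) := by
    intro p hpm q hqm
    by_cases hpq : p = q
    · subst hpq
      rw [if_pos rfl]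
      have h5 : (Finset.Icc 1 Y).filter (fun n => p ∣ n ∧ p ∣ n) =
          (Finset.Icc 1 Y).filter (fun n => p ∣ n) := by
        refine Finset.filter_congr fun n _ => ?_
        exact and_self_iff
      rw [h5]
      have h6 := wrq_dvd Y p
      have h7 : (0 : ℝ) ≤ Y * ((1 / (p : ℝ)) * (1 / (p : ℝ))) := by positivity
      have h8 : (Y : ℝ) * (1 / (p : ℝ)) = Y / p := by ring
      rw [h8]
      linarith
    · rw [if_neg hpq, zero_add]
      have hc : Nat.Coprime p q := (Nat.coprime_primes (hp p hpm) (hp q hqm)).2 hpq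
      have h5 : (Finset.Icc 1 Y).filter (fun n => p ∣ n ∧ q ∣ n) =
          (Finset.Icc 1 Y).filter (fun n => p * q ∣ n) := by
        refine Finset.filter_congr fun n _ => ?_
        constructor
        · rintro ⟨ha, hb⟩; exact hc.mul_dvd_of_dvd_of_dvd ha hb
        · intro h; exact ⟨(Dvd.intro _ rfl).trans h, (Dvd.intro_left _ rfl).trans h⟩
      rw [h5]
      have h6 := wrq_dvd Y (p * q)
      have h8 : (Y : ℝ) / ((p * q : ℕ) : ℝ) = Y * ((1 / (p : ℝ)) * (1 / (q : ℝ))) := by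
        push_cast
        rw [one_div, one_div, ← mul_inv, div_eq_mul_inv]
      rw [← h8]
      exact h6
  rw [h3]
  refine (Finset.sum_le_sum fun p hpm => Finset.sum_le_sum fun q hqm => h4 p hpm q hqm).trans ?_
  have h9 : ∑ p ∈ PS, ∑ q ∈ PS,
      ((if p = q then (Y : ℝ) * (1 / (p : ℝ)) else 0) + Y * ((1 / (p : ℝ)) * (1 / (q : ℝ)))) =
      Y * ((∑ p ∈ PS, 1 / (p : ℝ)) + (∑ p ∈ PS, 1 / (p : ℝ)) ^ 2) := by
    have h10 : ∀ p ∈ PS, ∑ q ∈ PS,
        ((if p = q then (Y : ℝ) * (1 / (p : ℝ)) else 0) + Y * ((1 / (p : ℝ)) * (1 / (q : ℝ)))) =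
        Y * (1 / (p : ℝ)) + Y * ((1 / (p : ℝ)) * ∑ q ∈ PS, 1 / (q : ℝ)) := by
      intro p hpm
      rw [Finset.sum_add_distrib, Finset.sum_ite_eq, if_pos hpm, ← Finset.mul_sum, ← Finset.mul_sum]
    rw [Finset.sum_congr rfl h10, Finset.sum_add_distrib, ← Finset.mul_sum, ← Finset.mul_sum,
      ← Finset.sum_mul]
    ring
  rw [h9]

theorem wrq_sqle {κ : ℝ} (hκ : 0 < κ) (x y : ℝ) :
    (x - y) ^ 2 ≤ (1 + κ) * x ^ 2 + (1 + 1 / κ) * y ^ 2 := by
  have h1 : (1 + κ) * x ^ 2 + (1 + 1 / κ) * y ^ 2 - (x - y) ^ 2 = (κ * x + y) ^ 2 / κ := by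
    field_simp
    ring
  have h2 : 0 ≤ (κ * x + y) ^ 2 / κ := by positivity
  linarith

open Classical in
/-- the mean square of the rough factor -/
theorem wr_sq_pr {δ : ℝ} (h0 : 0 < δ) (h1 : δ < 1 / 4) {ε : ℝ} (hε : 0 < ε) : ∃ N₀ : ℕ,
    ∀ N : ℕ, N₀ ≤ N → ∀ Y : ℕ,
      ∑ r ∈ (Finset.Icc 2 Y).filter (fun r => rough (zz N) r), Wr (zz N) (MM δ N) 2 r ^ 2 ≤
        Y * (Real.log (min (Y : ℝ) (MM δ N)) + ε * Real.log (MM δ N)) /
          Real.log (MM δ N) ^ 2 := by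
  set κ : ℝ := min 1 (ε / 9) with hκd
  have hκ0 : 0 < κ := lt_min one_pos (by positivity)
  have hκ1 : κ ≤ 1 := min_le_left _ _
  have hκε : κ ≤ ε / 9 := min_le_right _ _
  obtain ⟨C, hC0, hC⟩ := ff_sq hκ0
  have hK0 : 0 < 1 + 1 / κ := by positivity
  set κ' : ℝ := Real.sqrt (ε / (18 * (1 + 1 / κ))) with hκ'd
  have hκ'0 : 0 < κ' := Real.sqrt_pos.mpr (by positivity)
  have hκ's : κ' ^ 2 = ε / (18 * (1 + 1 / κ)) := Real.sq_sqrt (by positivity)
  have hκ'e : 6 * (1 + 1 / κ) * κ' ^ 2 = ε / 3 := by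
    rw [hκ's]; field_simp; ring
  obtain ⟨N₁, hN₁⟩ := be_small h0 h1 hκ'0
  obtain ⟨N₂, hN₂⟩ := wrq_len h1 (max 1 (6 * C / ε))
  refine ⟨max N₁ N₂, fun N hN Y => ?_⟩
  obtain ⟨hPKn, hbe, hs⟩ := hN₁ N ((le_max_left _ _).trans hN)
  obtain ⟨hM2, hLB⟩ := hN₂ N ((le_max_right _ _).trans hN)
  set M := MM δ N with hM
  set L := Real.log M with hL
  have hL1 : 1 ≤ L := (le_max_left _ _).trans hLB
  have hLC : 6 * C / ε ≤ L := (le_max_right _ _).trans hLB
  have hL0 : 0 < L := by linarith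
  have hM1 : (1 : ℝ) ≤ M := by exact_mod_cast (by omega : 1 ≤ M)
  set b := be (zz N) M 2 with hb
  rcases Nat.eq_zero_or_pos Y with hY | hY
  · subst hY
    simp
  have hY1 : (1 : ℝ) ≤ Y := by exact_mod_cast hY
  set s := ∑ p ∈ PK M 2, 1 / (p : ℝ) with hsd
  have hs0 : 0 ≤ s := Finset.sum_nonneg fun p _ => by positivity
  have hlog : Real.log (min (Y : ℝ) M) ≤ L := by
    refine Real.log_le_log (lt_min (by linarith) (by linarith)) (min_le_right _ _)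
  have hlog0 : 0 ≤ Real.log (min (Y : ℝ) M) := Real.log_nonneg (le_min hY1 hM1)
  -- pointwise
  have hpt : ∀ r ∈ (Finset.Icc 2 Y).filter (fun r => rough (zz N) r),
      Wr (zz N) M 2 r ^ 2 * L ^ 2 ≤ (1 + κ) * ff M r ^ 2 +
        (1 + 1 / κ) * (b ^ 2 * (((PK M 2).filter (fun p => p ∣ r)).card : ℝ) ^ 2) := by
    intro r hr
    rw [Finset.mem_filter, Finset.mem_Icc] at hr
    have h2 := wr_ff (z := zz N) (M := M) (K := 2) (n := r) (by omega) hr.2
    have h3 : Wr (zz N) M 2 r ^ 2 * L ^ 2 =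
        (ff M r - b * (((PK M 2).filter (fun p => p ∣ r)).card : ℝ)) ^ 2 := by
      rw [← h2]; ring
    rw [h3, ← mul_pow]
    exact wrq_sqle hκ0 _ _
  have hsub : (Finset.Icc 2 Y).filter (fun r => rough (zz N) r) ⊆ Finset.Icc 2 Y :=
    Finset.filter_subset _ _
  have hsub2 : (Finset.Icc 2 Y).filter (fun r => rough (zz N) r) ⊆ Finset.Icc 1 Y :=
    hsub.trans (Finset.Icc_subset_Icc_left (by norm_num))
  have hff : ∑ r ∈ (Finset.Icc 2 Y).filter (fun r => rough (zz N) r), ff M r ^ 2 ≤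
      (1 + κ) * Y * Real.log (min (Y : ℝ) M) + C * Y :=
    (Finset.sum_le_sum_of_subset_of_nonneg hsub fun _ _ _ => sq_nonneg _).trans (hC M Y hM1)
  have hPKp : ∀ p ∈ PK M 2, p.Prime := fun p hp => (Finset.mem_filter.1 hp).2
  have hcnt : ∑ r ∈ (Finset.Icc 2 Y).filter (fun r => rough (zz N) r),
      (((PK M 2).filter (fun p => p ∣ r)).card : ℝ) ^ 2 ≤ Y * (s + s ^ 2) :=
    (Finset.sum_le_sum_of_subset_of_nonneg hsub2 fun _ _ _ => sq_nonneg _).trans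
      (wrq_cnt (PK M 2) hPKp Y)
  have hb2 : b ^ 2 ≤ κ' ^ 2 * L ^ 2 := by
    rw [← mul_pow, ← sq_abs b]
    exact pow_le_pow_left₀ (abs_nonneg _) hbe 2
  have hss : L ^ 2 * (s + s ^ 2) ≤ 6 * L := by
    have h2 : s * L ≤ 2 := by
      rw [le_div_iff₀ hL0] at hs; exact hs
    have h3 : 0 ≤ s * L := mul_nonneg hs0 hL0.le
    nlinarith [h2, h3, hL1]
  have hsum : (∑ r ∈ (Finset.Icc 2 Y).filter (fun r => rough (zz N) r), Wr (zz N) M 2 r ^ 2) * L ^ 2 ≤
      (1 + κ) * ((1 + κ) * Y * Real.log (min (Y : ℝ) M) + C * Y) +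
        (1 + 1 / κ) * (b ^ 2 * (Y * (s + s ^ 2))) := by
    rw [Finset.sum_mul]
    refine (Finset.sum_le_sum hpt).trans ?_
    rw [Finset.sum_add_distrib, ← Finset.mul_sum, ← Finset.mul_sum, ← Finset.mul_sum]
    refine add_le_add (mul_le_mul_of_nonneg_left hff (by linarith)) ?_
    refine mul_le_mul_of_nonneg_left ?_ hK0.le
    exact mul_le_mul_of_nonneg_left hcnt (sq_nonneg _)
  rw [le_div_iff₀ (by positivity)]
  refine hsum.trans ?_
  have hA : (1 + 1 / κ) * (b ^ 2 * (Y * (s + s ^ 2))) ≤ Y * (ε / 3 * L) := by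
    have h2 : b ^ 2 * (s + s ^ 2) ≤ κ' ^ 2 * (6 * L) := by
      calc b ^ 2 * (s + s ^ 2) ≤ (κ' ^ 2 * L ^ 2) * (s + s ^ 2) :=
            mul_le_mul_of_nonneg_right hb2 (by positivity)
        _ = κ' ^ 2 * (L ^ 2 * (s + s ^ 2)) := by ring
        _ ≤ κ' ^ 2 * (6 * L) := mul_le_mul_of_nonneg_left hss (sq_nonneg _)
    calc (1 + 1 / κ) * (b ^ 2 * (Y * (s + s ^ 2))) = (1 + 1 / κ) * Y * (b ^ 2 * (s + s ^ 2)) := by ring
      _ ≤ (1 + 1 / κ) * Y * (κ' ^ 2 * (6 * L)) :=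
          mul_le_mul_of_nonneg_left h2 (by positivity)
      _ = Y * ((6 * (1 + 1 / κ) * κ' ^ 2) * L) := by ring
      _ = Y * (ε / 3 * L) := by rw [hκ'e]
  have hB : (1 + κ) * ((1 + κ) * Y * Real.log (min (Y : ℝ) M) + C * Y) ≤
      Y * (Real.log (min (Y : ℝ) M) + 2 * ε / 3 * L) := by
    have h2 : (1 + κ) ^ 2 * Real.log (min (Y : ℝ) M) ≤
        Real.log (min (Y : ℝ) M) + ε / 3 * L := by
      have h3 : (1 + κ) ^ 2 ≤ 1 + ε / 3 := by nlinarith
      have h4 : ε / 3 * Real.log (min (Y : ℝ) M) ≤ ε / 3 * L :=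
        mul_le_mul_of_nonneg_left hlog (by positivity)
      have h5 := mul_le_mul_of_nonneg_right h3 hlog0
      nlinarith
    have h6 : (1 + κ) * C ≤ ε / 3 * L := by
      have h7 : 6 * C ≤ L * ε := by rwa [div_le_iff₀ hε] at hLC
      nlinarith
    have h8 : (1 + κ) ^ 2 * Real.log (min (Y : ℝ) M) + (1 + κ) * C ≤
        Real.log (min (Y : ℝ) M) + 2 * ε / 3 * L := by linarith
    have h9 := mul_le_mul_of_nonneg_left h8 (by linarith : (0 : ℝ) ≤ Y)
    calc (1 + κ) * ((1 + κ) * Y * Real.log (min (Y : ℝ) M) + C * Y) =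
          Y * ((1 + κ) ^ 2 * Real.log (min (Y : ℝ) M) + (1 + κ) * C) := by ring
      _ ≤ _ := h9
  calc (1 + κ) * ((1 + κ) * Y * Real.log (min (Y : ℝ) M) + C * Y) +
        (1 + 1 / κ) * (b ^ 2 * (Y * (s + s ^ 2))) ≤
        Y * (Real.log (min (Y : ℝ) M) + 2 * ε / 3 * L) + Y * (ε / 3 * L) := add_le_add hB hA
    _ = Y * (Real.log (min (Y : ℝ) M) + ε * L) := by ring

open Classical in
/-- the mean square of the Fourier coefficients -/
theorem ww_sq_pr {δ : ℝ} (h0 : 0 < δ) (h1 : δ < 1 / 4) {ε : ℝ} (hε : 0 < ε) : ∃ N₀ : ℕ,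
    ∀ N : ℕ, N₀ ≤ N → ∀ (A : ℕ) (a : ℕ → ℝ), (∀ k, a k ≠ 0 → smooth (zz N) k ∧ k ≤ A) →
      ∀ X : ℕ, ∑ n ∈ Finset.Icc 1 X, WW (QA (MM δ N) 2 A) (wA (zz N) (MM δ N) 2 A a) n ^ 2 ≤
        ∑ m ∈ (Finset.Icc 1 X).filter (fun m => smooth (zz N) m), Ph A a m ^ 2 +
          (1 + ε) * X * cn (zz N) A a / Real.log (MM δ N) := by
  obtain ⟨N₁, hN₁⟩ := wr_sq_pr h0 h1 hε
  obtain ⟨N₂, hN₂⟩ := wrq_len h1 1
  refine ⟨max N₁ N₂, fun N hN A a ha X => ?_⟩
  have hsq := hN₁ N ((le_max_left _ _).trans hN)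
  obtain ⟨hM2, hL1⟩ := hN₂ N ((le_max_right _ _).trans hN)
  set M := MM δ N with hM
  set L := Real.log M with hL
  set z := zz N with hz
  have hL0 : 0 < L := by linarith
  have hM1 : (1 : ℝ) ≤ M := by exact_mod_cast (by omega : 1 ≤ M)
  -- pointwise factorisation
  have hpt : ∀ n ∈ Finset.Icc 1 X, WW (QA M 2 A) (wA z M 2 A a) n ^ 2 =
      Ph A a (smp z n) ^ 2 * Wr z M 2 (rop z n) ^ 2 := by
    intro n hn
    have hn1 : 1 ≤ n := (Finset.mem_Icc.1 hn).1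
    rw [ww_factor ha (by norm_num) hn1, ph_smp ha hn1, wr_rop z M 2 hn1, mul_pow]
  rw [Finset.sum_congr rfl hpt]
  set S := (Finset.Icc 1 X).filter (fun m => smooth z m) with hS
  have hmaps : ∀ n ∈ Finset.Icc 1 X, smp z n ∈ S := by
    intro n hn
    have hn1 : 1 ≤ n := (Finset.mem_Icc.1 hn).1
    obtain ⟨e1, _, e3, _, e5⟩ := smp_rop (z := z) hn1
    rw [hS, Finset.mem_filter, Finset.mem_Icc]
    refine ⟨⟨Nat.one_le_iff_ne_zero.mpr e3.1, ?_⟩, e3⟩
    calc smp z n ≤ smp z n * rop z n := Nat.le_mul_of_pos_right _ e5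
      _ = n := e1
      _ ≤ X := (Finset.mem_Icc.1 hn).2
  rw [← Finset.sum_fiberwise_of_maps_to hmaps]
  -- each fibre
  have hfib : ∀ m ∈ S, ∑ n ∈ (Finset.Icc 1 X).filter (fun n => smp z n = m),
      Ph A a (smp z n) ^ 2 * Wr z M 2 (rop z n) ^ 2 ≤
      Ph A a m ^ 2 + (1 + ε) * X / L * (Ph A a m ^ 2 / m) := by
    intro m hm
    rw [hS, Finset.mem_filter, Finset.mem_Icc] at hm
    have hm0 : (0 : ℝ) < m := by exact_mod_cast hm.1.1
    have e1 : ∑ n ∈ (Finset.Icc 1 X).filter (fun n => smp z n = m),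
        Ph A a (smp z n) ^ 2 * Wr z M 2 (rop z n) ^ 2 =
        Ph A a m ^ 2 * ∑ n ∈ (Finset.Icc 1 X).filter (fun n => smp z n = m), Wr z M 2 (rop z n) ^ 2 := by
      rw [Finset.mul_sum]
      refine Finset.sum_congr rfl fun n hn => ?_
      rw [(Finset.mem_filter.1 hn).2]
    have hinj : Set.InjOn (rop z) (((Finset.Icc 1 X).filter (fun n => smp z n = m) : Finset ℕ) : Set ℕ) := by
      intro n hn n' hn' h
      rw [Finset.mem_coe, Finset.mem_filter, Finset.mem_Icc] at hn hn'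
      rw [← (smp_rop (z := z) hn.1.1).1, ← (smp_rop (z := z) hn'.1.1).1, h, hn.2, hn'.2]
    have e2 : ∑ n ∈ (Finset.Icc 1 X).filter (fun n => smp z n = m), Wr z M 2 (rop z n) ^ 2 =
        ∑ r ∈ ((Finset.Icc 1 X).filter (fun n => smp z n = m)).image (rop z), Wr z M 2 r ^ 2 :=
      (Finset.sum_image (f := fun r => Wr z M 2 r ^ 2) hinj).symm
    have hsub : ((Finset.Icc 1 X).filter (fun n => smp z n = m)).image (rop z) ⊆
        insert 1 ((Finset.Icc 2 (X / m)).filter (fun r => rough z r)) := by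
      intro r hr
      rw [Finset.mem_image] at hr
      obtain ⟨n, hn, hnr⟩ := hr
      rw [Finset.mem_filter, Finset.mem_Icc] at hn
      obtain ⟨f1, _, _, f4, f5⟩ := smp_rop (z := z) hn.1.1
      rw [hnr] at f1 f4 f5
      rw [hn.2] at f1
      rw [Finset.mem_insert, Finset.mem_filter, Finset.mem_Icc]
      rcases Nat.eq_or_lt_of_le f5 with h | h
      · exact Or.inl h.symm
      · refine Or.inr ⟨⟨h, ?_⟩, f4⟩
        rw [Nat.le_div_iff_mul_le hm.1.1, mul_comm]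
        calc m * r = n := f1
          _ ≤ X := hn.1.2
    have e3 : ∑ r ∈ ((Finset.Icc 1 X).filter (fun n => smp z n = m)).image (rop z), Wr z M 2 r ^ 2 ≤
        1 + ∑ r ∈ (Finset.Icc 2 (X / m)).filter (fun r => rough z r), Wr z M 2 r ^ 2 := by
      refine (Finset.sum_le_sum_of_subset_of_nonneg hsub fun _ _ _ => sq_nonneg _).trans ?_
      rw [Finset.sum_insert (by simp), wr_one hM2]
      norm_num
    have e4 : ∑ r ∈ (Finset.Icc 2 (X / m)).filter (fun r => rough z r), Wr z M 2 r ^ 2 ≤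
        (1 + ε) * X / L / m := by
      refine (hsq (X / m)).trans ?_
      have hY0 : (0 : ℝ) ≤ ((X / m : ℕ) : ℝ) := Nat.cast_nonneg _
      have hYle : ((X / m : ℕ) : ℝ) ≤ (X : ℝ) / m := Nat.cast_div_le
      have hlog : Real.log (min ((X / m : ℕ) : ℝ) M) ≤ L := by
        have hXm : 1 ≤ X / m := (Nat.one_le_div_iff hm.1.1).mpr hm.1.2
        have hXm' : (1 : ℝ) ≤ ((X / m : ℕ) : ℝ) := by exact_mod_cast hXm
        exact Real.log_le_log (lt_min (by linarith) (by linarith)) (min_le_right _ _)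
      rw [div_le_iff₀ (by positivity)]
      calc ((X / m : ℕ) : ℝ) * (Real.log (min ((X / m : ℕ) : ℝ) M) + ε * L) ≤
            ((X / m : ℕ) : ℝ) * (L + ε * L) :=
            mul_le_mul_of_nonneg_left (by linarith) hY0
        _ ≤ ((X : ℝ) / m) * (L + ε * L) :=
            mul_le_mul_of_nonneg_right hYle (by positivity)
        _ = (1 + ε) * X / L / m * L ^ 2 := by field_simp
    have hP0 : 0 ≤ Ph A a m ^ 2 := sq_nonneg _
    rw [e1, e2]
    calc Ph A a m ^ 2 * ∑ r ∈ ((Finset.Icc 1 X).filter (fun n => smp z n = m)).image (rop z),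
          Wr z M 2 r ^ 2 ≤ Ph A a m ^ 2 * (1 + (1 + ε) * X / L / m) :=
          mul_le_mul_of_nonneg_left (e3.trans (by linarith)) hP0
      _ = _ := by ring
  refine (Finset.sum_le_sum hfib).trans ?_
  rw [Finset.sum_add_distrib, ← Finset.mul_sum]
  have hcn : ∑ m ∈ S, Ph A a m ^ 2 / m ≤ cn z A a := by
    have hsm := (phi_al (z := z) ha).1
    have e1 : ∑ m ∈ S, Ph A a m ^ 2 / m = ∑ m ∈ S, (if smooth z m then Ph A a m ^ 2 / m else 0) := by
      refine Finset.sum_congr rfl fun m hm => ?_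
      rw [if_pos (Finset.mem_filter.1 hm).2]
    rw [e1]
    unfold cn
    refine hsm.sum_le_tsum S fun m _ => ?_
    split_ifs
    · positivity
    · exact le_refl _
  have hfin : (1 + ε) * X / L * ∑ m ∈ S, Ph A a m ^ 2 / m ≤ (1 + ε) * X * cn z A a / L := by
    calc (1 + ε) * X / L * ∑ m ∈ S, Ph A a m ^ 2 / m ≤ (1 + ε) * X / L * cn z A a :=
          mul_le_mul_of_nonneg_left hcn (by positivity)
      _ = _ := by ring
  linarith

theorem wr_sq : type_of% @wr_sq_pr := @wr_sq_pr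
theorem ww_sq : type_of% @ww_sq_pr := @ww_sq_pr

end Pool.Agent.KSL
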