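import Pool.Agent.Lib_helper68.KSL.Defs
import Pool.Agent.Lib_helper68.KSLF.ABL
import Pool.Agent.Lib_helper68.KSLF.BET
import Pool.Agent.Lib_helper68.KSLF.DIA
import Pool.Agent.Lib_helper68.KSLF.PHI
import Pool.Agent.Lib_helper68.KSLF.SZF
import Pool.Agent.Lib_helper68.KSLF.WBD
import Pool.Agent.Lib_helper68.KSLF.WRQ
import Pool.Agent.Lib_helper68.KSLF.WWF

/-! KSL block BPT: bulk_point, tt_zero -/

namespace Pool.Agent.KSL

open Pool.Agent.LEV Pool.Agent.LVB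
open Pool.Agent.FG61 (mu phi cc ff AA Lam)
open Complex MeasureTheory Filter Topology UpperHalfPlane ModularGroup ProbabilityTheory
open scoped MatrixGroups Modular ENNReal ModularForm ComplexConjugate ContDiff

theorem BPT_kg {g : ℝ → ℝ} {G : ℝ} (hg : Kg g G) {u : ℝ} (hu : 0 < u) :
    u * g u ≤ ∫ v in Set.Ioi (0 : ℝ), g v := by
  have h1 : IntegrableOn g (Set.Ioc 0 u) := hg.int.mono_set Set.Ioc_subset_Ioi_self
  have h2 : ∫ v in Set.Ioc 0 u, g u ≤ ∫ v in Set.Ioc 0 u, g v := by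
    refine setIntegral_mono_on (integrableOn_const (by simp)) h1 measurableSet_Ioc ?_
    intro v hv
    exact hg.anti hv.1 hu hv.2
  have h3 : ∫ v in Set.Ioc 0 u, g u = u * g u := by
    rw [setIntegral_const]
    simp [hu.le]
  have h4 : ∫ v in Set.Ioc 0 u, g v ≤ ∫ v in Set.Ioi (0 : ℝ), g v :=
    setIntegral_mono_set hg.int (Filter.Eventually.of_forall fun v => hg.nonneg v)
      (Filter.Eventually.of_forall fun v hv => Set.Ioc_subset_Ioi_self hv)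
  linarith

theorem BPT_int0 {g : ℝ → ℝ} {G : ℝ} (hg : Kg g G) : 0 ≤ ∫ v in Set.Ioi (0 : ℝ), g v :=
  setIntegral_nonneg measurableSet_Ioi fun v _ => hg.nonneg v

open Classical in
theorem BPT_summ {z A : ℕ} {a : ℕ → ℝ} (ha : ∀ k, a k ≠ 0 → smooth z k ∧ k ≤ A) {g : ℝ → ℝ}
    {G : ℝ} (hg : Kg g G) {y : ℝ} (hy : 0 < y) :
    Summable (fun n : ℕ => if smooth z n then g (n * y) * Ph A a n ^ 2 else 0) := by
  obtain ⟨hs, -⟩ := phi_al (z := z) (A := A) (a := a) ha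
  refine Summable.of_nonneg_of_le (fun n => ?_) (fun n => ?_)
    (hs.mul_left ((∫ v in Set.Ioi (0 : ℝ), g v) / y))
  · split_ifs
    · exact mul_nonneg (hg.nonneg _) (sq_nonneg _)
    · exact le_rfl
  · by_cases hn : smooth z n
    · rw [if_pos hn, if_pos hn]
      have hn0 : (0 : ℝ) < n := by exact_mod_cast Nat.pos_of_ne_zero hn.1
      have h1 := BPT_kg hg (u := n * y) (by positivity)
      have h2 : g (n * y) ≤ (∫ v in Set.Ioi (0 : ℝ), g v) / y * (1 / n) := by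
        rw [div_mul_div_comm, mul_one, le_div_iff₀ (by positivity)]
        calc g (n * y) * (y * n) = n * y * g (n * y) := by ring
          _ ≤ _ := h1
      calc g (n * y) * Ph A a n ^ 2 ≤ ((∫ v in Set.Ioi (0 : ℝ), g v) / y * (1 / n)) * Ph A a n ^ 2 :=
            mul_le_mul_of_nonneg_right h2 (sq_nonneg _)
        _ = _ := by ring
    · rw [if_neg hn, if_neg hn, mul_zero]

theorem BPT_icc (X : ℕ) (F : ℕ → ℝ) :
    ∑ r ∈ Finset.Icc 1 X, F r = ∑ i ∈ Finset.range X, F (i + 1) := by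
  have : Finset.Icc 1 X = Finset.Ico 1 (X + 1) := by ext n; simp
  rw [this, Finset.sum_Ico_eq_sum_range]
  simp only [Nat.add_sub_cancel]
  exact Finset.sum_congr rfl fun i _ => by rw [add_comm 1 i]

theorem BPT_Q {δ ε₂ : ℝ} {N : ℕ} (hN : 4 ≤ N) (h3 : ε₂ ≤ δ) :
    (QQ δ ε₂ N : ℝ) ≤ 2 * (N : ℝ) ^ (1 / 2 - δ + ε₂) ∧ QQ δ ε₂ N ≤ N := by
  have hN0 : (0 : ℝ) < N := by exact_mod_cast (by omega : 0 < N)
  have hN1 : (1 : ℝ) ≤ N := by exact_mod_cast (by omega : 1 ≤ N)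
  have hQ : (QQ δ ε₂ N : ℝ) ≤ 2 * (N : ℝ) ^ (1 / 2 - δ + ε₂) := by
    unfold QQ QA
    push_cast
    rw [Real.rpow_add hN0, ← mul_assoc]
    have g1 : (MM δ N : ℝ) ≤ (N : ℝ) ^ (1 / 2 - δ) := Nat.floor_le (by positivity)
    have g2 : (KA ε₂ N : ℝ) ≤ (N : ℝ) ^ ε₂ := Nat.floor_le (by positivity)
    exact mul_le_mul (by linarith) g2 (Nat.cast_nonneg _) (by positivity)
  refine ⟨hQ, ?_⟩
  have h4 : (N : ℝ) ^ (1 / 2 - δ + ε₂) ≤ (N : ℝ) ^ (1 / 2 : ℝ) :=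
    Real.rpow_le_rpow_of_exponent_le hN1 (by linarith)
  have h5 : (2 : ℝ) ≤ (N : ℝ) ^ (1 / 2 : ℝ) := by
    rw [← Real.sqrt_eq_rpow]
    exact Real.le_sqrt_of_sq_le (by norm_num; exact_mod_cast hN)
  have h6 : (QQ δ ε₂ N : ℝ) ≤ N := by
    calc (QQ δ ε₂ N : ℝ) ≤ 2 * (N : ℝ) ^ (1 / 2 : ℝ) := hQ.trans (by linarith)
      _ ≤ (N : ℝ) ^ (1 / 2 : ℝ) * (N : ℝ) ^ (1 / 2 : ℝ) :=
          mul_le_mul_of_nonneg_right h5 (by positivity)
      _ = N := by rw [← Real.rpow_add hN0]; norm_num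
  exact_mod_cast h6

theorem BPT_tt0 {Q : ℕ} {w : ℕ → ℝ} {D : ℝ} (hD : (Q : ℝ) ≤ D) (n : ℕ) : TT Q w D n = 0 := by
  unfold TT
  refine Finset.sum_eq_zero fun q hq => ?_
  exfalso
  rw [Finset.mem_filter, Finset.mem_Icc] at hq
  have : (q : ℝ) ≤ Q := by exact_mod_cast hq.1.2
  linarith [hq.2]

theorem BPT_pow {c : ℝ} (hc : 0 < c) (B : ℝ) : ∃ N₀ : ℕ, ∀ N : ℕ, N₀ ≤ N → B ≤ (N : ℝ) ^ c := by
  have h := (tendsto_rpow_atTop hc).comp tendsto_natCast_atTop_atTop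
  have h2 := h.eventually (eventually_ge_atTop B)
  obtain ⟨N₀, hN₀⟩ := eventually_atTop.1 h2
  exact ⟨N₀, fun N hN => hN₀ N hN⟩

open Classical in
theorem bulk_point_pr {δ : ℝ} (h0 : 0 < δ) (h1 : δ < 1 / 4) {ε : ℝ} (hε : 0 < ε) {g : ℝ → ℝ}
    {G : ℝ} (hg : Kg g G) {ε₂ : ℝ} (h2 : 0 < ε₂) (h3 : ε₂ ≤ δ / 40) : ∃ N₀ : ℕ, ∀ N : ℕ,
    N₀ ≤ N → ∀ a : ℕ → ℝ, Sht (zz N) (KA ε₂ N) a → ∀ y : ℝ, 0 < y → y < 2 / Real.sqrt N →
      Summable (fun n : ℕ => if smooth (zz N) n then g (n * y) * Ph (KA ε₂ N) a n ^ 2 else 0) ∧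
      Summable (fun n : ℕ => g ((n + 1) * y) *
        TT (QQ δ ε₂ N) (ww δ ε₂ N a) (2 / (y * Real.sqrt N)) (n + 1) ^ 2) ∧
      ∑' n : ℕ, g ((n + 1) * y) *
        TT (QQ δ ε₂ N) (ww δ ε₂ N a) (2 / (y * Real.sqrt N)) (n + 1) ^ 2 ≤
      max ((1 + ε) * cn (zz N) (KA ε₂ N) a / Real.log (MM δ N) -
          GD (ww δ ε₂ N a) (2 / (y * Real.sqrt N))) 0 / y * (∫ u in Set.Ioi (0 : ℝ), g u) +
        (∑' n : ℕ, if smooth (zz N) n then g (n * y) * Ph (KA ε₂ N) a n ^ 2 else 0) +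
        (N : ℝ) ^ (1 / 2 - δ / 2) * (2 / (y * Real.sqrt N)) := by
  obtain ⟨N₁, hN₁⟩ := ww_sq h0 h1 hε
  obtain ⟨N₂, hN₂⟩ := ww_bound h0 h1 h2
  obtain ⟨N₃, hN₃⟩ := BPT_pow (c := 9 * δ / 40) (by positivity) (6 * G)
  refine ⟨max (max N₁ N₂) (max N₃ 4), fun N hN a hSh y hy hy2 => ?_⟩
  have hw1 := hN₁ N (by omega)
  have hw2 := hN₂ N (by omega) a hSh
  have hw3 := hN₃ N (by omega)
  have hN4 : 4 ≤ N := by omega
  have hN0 : (0 : ℝ) < N := by exact_mod_cast (by omega : 0 < N)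
  have hN1 : (1 : ℝ) ≤ N := by exact_mod_cast (by omega : 1 ≤ N)
  have hsN : 0 < Real.sqrt N := Real.sqrt_pos.2 hN0
  obtain ⟨hQ1, hQ2⟩ := BPT_Q (δ := δ) (ε₂ := ε₂) hN4 (by linarith)
  set z := zz N with hz
  set A := KA ε₂ N with hA
  set Q := QQ δ ε₂ N with hQ
  set w := ww δ ε₂ N a with hw
  set D := 2 / (y * Real.sqrt N) with hD
  have hD1 : 1 < D := by
    rw [hD, lt_div_iff₀ (by positivity), one_mul]
    rwa [lt_div_iff₀ hsN] at hy2
  have hI0 := BPT_int0 hg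
  have hG0 : 0 ≤ G := (hg.nonneg 0).trans (hg.bdd 0)
  have hsm := BPT_summ (z := z) (A := A) (a := a) hSh.sup hg hy
  have hsm0 : 0 ≤ ∑' n : ℕ, if smooth z n then g (n * y) * Ph A a n ^ 2 else 0 := by
    refine tsum_nonneg fun n => ?_
    split_ifs
    · exact mul_nonneg (hg.nonneg _) (sq_nonneg _)
    · exact le_rfl
  have hND : 0 ≤ (N : ℝ) ^ (1 / 2 - δ / 2) * D := by positivity
  refine ⟨hsm, ?_⟩
  by_cases hDQ : Q < ⌊D⌋₊
  · have hDQ' : (Q : ℝ) ≤ D :=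
      (by exact_mod_cast hDQ.le : (Q : ℝ) ≤ (⌊D⌋₊ : ℝ)).trans (Nat.floor_le (by linarith))
    have e1 : (fun n : ℕ => g ((n + 1) * y) * TT Q w D (n + 1) ^ 2) = fun _ => 0 := by
      funext n
      rw [BPT_tt0 hDQ']; ring
    rw [e1]
    refine ⟨summable_zero, ?_⟩
    rw [tsum_zero]
    have : 0 ≤ max ((1 + ε) * cn z A a / Real.log (MM δ N) - GD w D) 0 / y *
        (∫ u in Set.Ioi (0 : ℝ), g u) :=
      mul_nonneg (div_nonneg (le_max_right _ _) hy.le) hI0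
    linarith
  · have hDQ' : ⌊D⌋₊ ≤ Q := not_lt.1 hDQ
    set B := max ((1 + ε) * cn z A a / Real.log (MM δ N) - GD w D) 0 with hB
    set c := 3 * ((N : ℝ) ^ (5 * ε₂) * Q) * ((N : ℝ) ^ (5 * ε₂) * D) with hc
    have hc0 : 0 ≤ c := by positivity
    set e : ℕ → ℝ := fun n => if smooth z (n + 1) then Ph A a (n + 1) ^ 2 else 0 with he
    have hS1 : ∑ q ∈ Finset.Icc 1 Q, |w q| * ∑ d ∈ q.divisors, (d : ℝ) ≤
        (N : ℝ) ^ (5 * ε₂) * Q := hw2.2 Q hQ2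
    have hS2 : ∑ q ∈ Finset.Icc 1 ⌊D⌋₊, |w q| * ∑ d ∈ q.divisors, (d : ℝ) ≤
        (N : ℝ) ^ (5 * ε₂) * D :=
      (hw2.2 ⌊D⌋₊ (hDQ'.trans hQ2)).trans (mul_le_mul_of_nonneg_left
        (Nat.floor_le (by linarith)) (by positivity))
    have hS20 : 0 ≤ ∑ q ∈ Finset.Icc 1 ⌊D⌋₊, |w q| * ∑ d ∈ q.divisors, (d : ℝ) :=
      Finset.sum_nonneg fun q _ => mul_nonneg (abs_nonneg _)
        (Finset.sum_nonneg fun d _ => Nat.cast_nonneg _)
    have hmain : ∀ X : ℕ, ∑ n ∈ Finset.range X, TT Q w D (n + 1) ^ 2 ≤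
        B * X + ∑ n ∈ Finset.range X, e n + c := by
      intro X
      rw [← BPT_icc X (fun n => TT Q w D n ^ 2)]
      have hd := (abs_le.1 (tt_diag Q w D hDQ' X)).2
      have hs := hw1 A a hSh.sup X
      have e2 : ∑ m ∈ (Finset.Icc 1 X).filter (fun m => smooth z m), Ph A a m ^ 2 =
          ∑ n ∈ Finset.range X, e n := by
        rw [Finset.sum_filter, BPT_icc]
      rw [e2] at hs
      have hs' : ∑ n ∈ Finset.Icc 1 X, WW Q w n ^ 2 ≤ ∑ n ∈ Finset.range X, e n +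
          (1 + ε) * X * cn z A a / Real.log (MM δ N) := hs
      have hprod : 3 * (∑ q ∈ Finset.Icc 1 Q, |w q| * ∑ d ∈ q.divisors, (d : ℝ)) *
          ∑ q ∈ Finset.Icc 1 ⌊D⌋₊, |w q| * ∑ d ∈ q.divisors, (d : ℝ) ≤ c := by
        rw [hc]
        refine mul_le_mul (mul_le_mul_of_nonneg_left hS1 (by norm_num)) hS2 hS20 (by positivity)
      have hBX : X * ((1 + ε) * cn z A a / Real.log (MM δ N) - GD w D) ≤ B * X := by
        rw [mul_comm]
        exact mul_le_mul_of_nonneg_right (le_max_left _ _) (Nat.cast_nonneg _)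
      have e3 : (X : ℝ) * ((1 + ε) * cn z A a / Real.log (MM δ N) - GD w D) =
        (1 + ε) * X * cn z A a / Real.log (MM δ N) - X * GD w D := by ring
      linarith
    have hes : (fun n : ℕ => g ((n + 1) * y) * e n) = fun n : ℕ =>
        (fun n : ℕ => if smooth z n then g (n * y) * Ph A a n ^ 2 else 0) (n + 1) := by
      funext n
      simp only [he]
      split_ifs
      · push_cast; rfl
      · ring
    have hs1 : Summable (fun n : ℕ => g ((n + 1) * y) * e n) := by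
      rw [hes]
      exact (summable_nat_add_iff 1).2 hsm
    have hab := abel_anti hg hy (a := fun n => TT Q w D (n + 1) ^ 2) (e := e)
      (fun n => sq_nonneg _) (fun n => by simp only [he]; split_ifs <;> positivity)
      (B := B) (c := c) (le_max_right _ _) hc0 hmain hs1
    refine ⟨hab.1, hab.2.trans ?_⟩
    have e4 : ∑' n : ℕ, g ((n + 1) * y) * e n ≤
        ∑' n : ℕ, if smooth z n then g (n * y) * Ph A a n ^ 2 else 0 := by
      rw [hes, hsm.tsum_eq_zero_add]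
      have : (0 : ℝ) ≤ if smooth z 0 then g ((0 : ℕ) * y) * Ph A a 0 ^ 2 else 0 := by
        split_ifs
        · exact mul_nonneg (hg.nonneg _) (sq_nonneg _)
        · exact le_rfl
      linarith
    have e5 : c * g y ≤ (N : ℝ) ^ (1 / 2 - δ / 2) * D := by
      calc c * g y ≤ c * G := mul_le_mul_of_nonneg_left (hg.bdd y) hc0
        _ = 3 * G * ((N : ℝ) ^ (5 * ε₂) * (N : ℝ) ^ (5 * ε₂)) * Q * D := by rw [hc]; ring
        _ ≤ 3 * G * ((N : ℝ) ^ (5 * ε₂) * (N : ℝ) ^ (5 * ε₂)) *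
            (2 * (N : ℝ) ^ (1 / 2 - δ + ε₂)) * D := by
            refine mul_le_mul_of_nonneg_right (mul_le_mul_of_nonneg_left hQ1 (by positivity))
              (by linarith)
        _ = 6 * G * (N : ℝ) ^ (1 / 2 - δ + 11 * ε₂) * D := by
            have : (N : ℝ) ^ (5 * ε₂) * (N : ℝ) ^ (5 * ε₂) * (N : ℝ) ^ (1 / 2 - δ + ε₂) =
                (N : ℝ) ^ (1 / 2 - δ + 11 * ε₂) := by
              rw [← Real.rpow_add hN0, ← Real.rpow_add hN0]; congr 1; ring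
            rw [← this]; ring
        _ ≤ (N : ℝ) ^ (9 * δ / 40) * (N : ℝ) ^ (1 / 2 - δ + 11 * ε₂) * D := by
            refine mul_le_mul_of_nonneg_right (mul_le_mul_of_nonneg_right hw3 (by positivity))
              (by linarith)
        _ = (N : ℝ) ^ (9 * δ / 40 + (1 / 2 - δ + 11 * ε₂)) * D := by
            rw [Real.rpow_add hN0 (9 * δ / 40)]
        _ ≤ (N : ℝ) ^ (1 / 2 - δ / 2) * D := by
            refine mul_le_mul_of_nonneg_right (Real.rpow_le_rpow_of_exponent_le hN1 (by linarith))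
              (by linarith)
    linarith

theorem BPT_cc0 {q : ℕ} (hq : 1 ≤ q) : cc q 0 = phi q := by
  unfold FG61.cc
  rw [Nat.gcd_zero_right]
  have h := ArithmeticFunction.sum_eq_iff_sum_mul_moebius_eq (R := ℝ)
    (f := fun n => ((Nat.totient n : ℕ) : ℝ)) (g := fun n => (n : ℝ))
  have h1 := h.1 (fun n hn => by
    have := Nat.sum_totient n
    exact_mod_cast this)
  have h2 := h1 q hq
  change _ = ((Nat.totient q : ℕ) : ℝ)
  rw [← h2, Nat.sum_divisorsAntidiagonal' (f := fun x y => ((ArithmeticFunction.moebius x : ℤ) : ℝ) * (y : ℝ))]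
  refine Finset.sum_congr rfl fun d _ => ?_
  rw [mul_comm]

theorem tt_zero_pr {δ : ℝ} (h0 : 0 < δ) (h1 : δ < 1 / 4) {ε₂ : ℝ} (h2 : 0 < ε₂)
    (h3 : ε₂ ≤ δ / 40) : ∃ N₀ : ℕ, ∀ N : ℕ, N₀ ≤ N → ∀ a : ℕ → ℝ, Sht (zz N) (KA ε₂ N) a →
      ∀ D : ℝ, 1 ≤ D → |TT (QQ δ ε₂ N) (ww δ ε₂ N a) D 0| ≤ (N : ℝ) ^ (4 * ε₂) * D ∧
        ∀ n : ℕ, (QQ δ ε₂ N : ℝ) ≤ D → TT (QQ δ ε₂ N) (ww δ ε₂ N a) D n = 0 := by
  obtain ⟨N₁, hN₁⟩ := be_small h0 h1 (ε := 1) one_pos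
  obtain ⟨N₂, hN₂⟩ := ww_bound h0 h1 h2
  obtain ⟨N₃, hN₃⟩ := sizes h0 h1 (ε := 1) one_pos
  refine ⟨max (max N₁ N₂) (max N₃ 4), fun N hN a hSh D hD => ?_⟩
  obtain ⟨hPK, -, -⟩ := hN₁ N (by omega)
  obtain ⟨hw2, -⟩ := hN₂ N (by omega) a hSh
  obtain ⟨s1, s2, s3, -⟩ := hN₃ N (by omega)
  refine ⟨?_, fun n hn => BPT_tt0 hn n⟩
  have hz0 : WW (QQ δ ε₂ N) (ww δ ε₂ N a) 0 = 0 := by
    have := ww_zero (K := 2) hSh.sup s3.le hPK
    exact this
  have hsplit : TT (QQ δ ε₂ N) (ww δ ε₂ N a) D 0 =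
      - ∑ q ∈ (Finset.Icc 1 (QQ δ ε₂ N)).filter (fun q : ℕ => ¬ D < q),
        ww δ ε₂ N a q * cc q 0 := by
    have := Finset.sum_filter_add_sum_filter_not (Finset.Icc 1 (QQ δ ε₂ N))
      (fun q : ℕ => D < q) (fun q => ww δ ε₂ N a q * cc q 0)
    unfold WW at hz0
    unfold TT
    rw [hz0] at this
    linarith
  rw [hsplit, abs_neg]
  calc |∑ q ∈ (Finset.Icc 1 (QQ δ ε₂ N)).filter (fun q : ℕ => ¬ D < q),
        ww δ ε₂ N a q * cc q 0| ≤ ∑ q ∈ (Finset.Icc 1 (QQ δ ε₂ N)).filter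
          (fun q : ℕ => ¬ D < q), |ww δ ε₂ N a q * cc q 0| := Finset.abs_sum_le_sum_abs _ _
    _ ≤ ∑ q ∈ (Finset.Icc 1 (QQ δ ε₂ N)).filter (fun q : ℕ => ¬ D < q), (N : ℝ) ^ (4 * ε₂) := by
        refine Finset.sum_le_sum fun q hq => ?_
        rw [Finset.mem_filter, Finset.mem_Icc] at hq
        have hq0 : (0 : ℝ) < q := by exact_mod_cast hq.1.1
        rw [BPT_cc0 hq.1.1, abs_mul, abs_of_nonneg (a := phi q) (Nat.cast_nonneg _)]
        have hphi : phi q ≤ q := by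
          have := Nat.totient_le q
          exact_mod_cast this
        calc |ww δ ε₂ N a q| * phi q ≤ (N : ℝ) ^ (4 * ε₂) / q * q :=
              mul_le_mul (hw2 q hq.1.1) hphi (Nat.cast_nonneg _) (by positivity)
          _ = _ := by field_simp
    _ = ((Finset.Icc 1 (QQ δ ε₂ N)).filter (fun q : ℕ => ¬ D < q)).card *
        (N : ℝ) ^ (4 * ε₂) := by rw [Finset.sum_const, nsmul_eq_mul]
    _ ≤ D * (N : ℝ) ^ (4 * ε₂) := by
        refine mul_le_mul_of_nonneg_right ?_ (by positivity)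
        have hcard : ((Finset.Icc 1 (QQ δ ε₂ N)).filter (fun q : ℕ => ¬ D < q)).card ≤ ⌊D⌋₊ := by
          have hc : (Finset.Icc 1 ⌊D⌋₊).card = ⌊D⌋₊ := by simp
          rw [← hc]
          refine Finset.card_le_card fun q hq => ?_
          rw [Finset.mem_filter, Finset.mem_Icc] at hq
          rw [Finset.mem_Icc]
          exact ⟨hq.1.1, Nat.le_floor (not_lt.1 hq.2)⟩
        calc _ ≤ (⌊D⌋₊ : ℝ) := by exact_mod_cast hcard
          _ ≤ D := Nat.floor_le (by linarith)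
    _ = _ := mul_comm _ _

theorem bulk_point : type_of% @bulk_point_pr := @bulk_point_pr
theorem tt_zero : type_of% @tt_zero_pr := @tt_zero_pr

end Pool.Agent.KSL
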