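import Pool.Agent.Lib_helper68.KSL.Defs
import Pool.Agent.Lib_helper68.KSLF.BGB
import Pool.Agent.Lib_helper68.KSLF.BPT
import Pool.Agent.Lib_helper68.KSLF.PHI

/-! KSL, block BGI: the sum over all heights. -/

set_option linter.unusedVariables false

namespace Pool.Agent.KSL

open Pool.Agent.LEV Pool.Agent.LVB
open Pool.Agent.FG61 (mu phi cc ff AA Lam)
open Complex MeasureTheory Filter Topology UpperHalfPlane ModularGroup ProbabilityTheory
open scoped MatrixGroups Modular ENNReal ModularForm ComplexConjugate ContDiff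

lemma bgi_tsum {μ : Measure ℝ} {p : ℕ → ℝ → ℝ} (hp : ∀ n, Integrable (p n) μ)
    (h0 : ∀ n, ∀ᵐ y ∂μ, 0 ≤ p n y) (hs : ∀ᵐ y ∂μ, Summable (fun n => p n y)) {B : ℝ}
    (hB0 : 0 ≤ B) (hB : ∀ K, ∑ n ∈ Finset.range K, ∫ y, p n y ∂μ ≤ B) :
    Integrable (fun y => ∑' n, p n y) μ ∧ ∫ y, ∑' n, p n y ∂μ ≤ B := by
  have h0' : ∀ᵐ y ∂μ, ∀ n, 0 ≤ p n y := ae_all_iff.2 h0
  have hm : AEStronglyMeasurable (fun y => ∑' n, p n y) μ := by
    refine aestronglyMeasurable_of_tendsto_ae atTop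
      (f := fun K y => ∑ n ∈ Finset.range K, p n y) (fun K => ?_) ?_
    · exact Finset.aestronglyMeasurable_fun_sum _ fun n _ => (hp n).1
    · filter_upwards [hs] with y hy
      exact hy.hasSum.tendsto_sum_nat
  have hnn : 0 ≤ᵐ[μ] fun y => ∑' n, p n y := by
    filter_upwards [h0'] with y hy
    exact tsum_nonneg hy
  have hl : ∫⁻ y, ENNReal.ofReal (∑' n, p n y) ∂μ ≤ ENNReal.ofReal B := by
    calc ∫⁻ y, ENNReal.ofReal (∑' n, p n y) ∂μ = ∫⁻ y, ∑' n, ENNReal.ofReal (p n y) ∂μ := by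
          apply lintegral_congr_ae
          filter_upwards [h0', hs] with y h1 h2
          exact ENNReal.ofReal_tsum_of_nonneg h1 h2
      _ = ∑' n, ∫⁻ y, ENNReal.ofReal (p n y) ∂μ :=
          lintegral_tsum fun n => (hp n).1.aemeasurable.ennreal_ofReal
      _ = ∑' n, ENNReal.ofReal (∫ y, p n y ∂μ) := by
          congr
          ext n
          rw [ofReal_integral_eq_lintegral_ofReal (hp n) (h0 n)]
      _ ≤ ENNReal.ofReal B := by
          apply ENNReal.tsum_le_of_sum_range_le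
          intro K
          rw [← ENNReal.ofReal_sum_of_nonneg fun n _ => integral_nonneg_of_ae (h0 n)]
          exact ENNReal.ofReal_le_ofReal (hB K)
  refine ⟨⟨hm, ?_⟩, ?_⟩
  · rw [hasFiniteIntegral_iff_ofReal hnn]
    exact hl.trans_lt ENNReal.ofReal_lt_top
  · rw [integral_eq_lintegral_of_nonneg_ae hnn hm]
    exact ENNReal.toReal_le_of_le_ofReal hB0 hl

lemma bgi_g_int {g : ℝ → ℝ} {G : ℝ} (hg : Kg g G) {c : ℝ} (hc : 0 < c) :
    IntegrableOn (fun y => g (c * y)) (Set.Ioi 0) ∧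
      ∫ y in Set.Ioi (0 : ℝ), g (c * y) = c⁻¹ * ∫ u in Set.Ioi (0 : ℝ), g u := by
  constructor
  · rw [integrableOn_Ioi_comp_mul_left_iff g 0 hc, mul_zero]
    exact hg.int
  · rw [integral_comp_mul_left_Ioi g 0 hc, mul_zero, smul_eq_mul]

lemma bgi_sub {y0 y1 : ℝ} (h0 : 0 ≤ y0) : Set.Ioo y0 y1 ⊆ Set.Ioi (0 : ℝ) := fun y hy =>
  h0.trans_lt hy.1

lemma bgi_g_bound {g : ℝ → ℝ} {G : ℝ} (hg : Kg g G) {y0 y1 : ℝ} (h0 : 0 ≤ y0) (h1 : y0 ≤ y1)
    {n : ℕ} (hn : 1 ≤ n) :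
    IntegrableOn (fun y => g (n * y)) (Set.Ioo y0 y1) ∧
    ∫ y in Set.Ioo y0 y1, g (n * y) ≤ (1 / n) * (∫ u in Set.Ioi (0 : ℝ), g u) ∧
    ∫ y in Set.Ioo y0 y1, g (n * y) ≤ G * y1 := by
  have hn0 : (0 : ℝ) < n := by exact_mod_cast hn
  obtain ⟨h2, h3⟩ := bgi_g_int hg hn0
  have h4 : IntegrableOn (fun y => g (n * y)) (Set.Ioo y0 y1) := h2.mono_set (bgi_sub h0)
  refine ⟨h4, ?_, ?_⟩
  · rw [one_div, ← h3]
    apply setIntegral_mono_set h2
    · exact Filter.Eventually.of_forall fun y => hg.nonneg _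
    · exact (bgi_sub h0).eventuallyLE
  · have h5 : ∫ y in Set.Ioo y0 y1, g (n * y) ≤ ∫ y in Set.Ioo y0 y1, G := by
      apply setIntegral_mono_on h4 _ measurableSet_Ioo
      · intro y _
        exact hg.bdd _
      · exact integrableOn_const (by simp) (by simp)
    refine h5.trans ?_
    rw [setIntegral_const, smul_eq_mul]
    have h6 : volume.real (Set.Ioo y0 y1) = y1 - y0 := by
      rw [Real.volume_real_Ioo_of_le h1]
    rw [h6]
    have hG : 0 ≤ G := (hg.nonneg 1).trans (hg.bdd 1)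
    nlinarith

open Classical in
/-- the integral of the smooth part -/
lemma bgi_smooth {g : ℝ → ℝ} {G : ℝ} (hg : Kg g G) {z A : ℕ} {a s : ℕ → ℝ}
    (ha : ∀ k, a k ≠ 0 → smooth z k ∧ k ≤ A) (hs : ∀ m, s m ≠ 0 → m ≤ A)
    {y0 y1 : ℝ} (h0 : 0 ≤ y0) (h1 : y0 ≤ y1)
    (hsum : ∀ y ∈ Set.Ioo y0 y1,
      Summable (fun n : ℕ => if smooth z n then g (n * y) * Ph A a n ^ 2 else 0)) :
    IntegrableOn (fun y => ∑' n : ℕ, if smooth z n then g (n * y) * Ph A a n ^ 2 else 0)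
      (Set.Ioo y0 y1) ∧
    ∫ y in Set.Ioo y0 y1, ∑' n : ℕ, (if smooth z n then g (n * y) * Ph A a n ^ 2 else 0) ≤
      cn z A a * (A * (G * y1)) + cd z A a s * ∫ u in Set.Ioi (0 : ℝ), g u := by
  set Ig := ∫ u in Set.Ioi (0 : ℝ), g u with hIg
  have hIg0 : 0 ≤ Ig := setIntegral_nonneg measurableSet_Ioi fun u _ => hg.nonneg u
  have hG : 0 ≤ G := (hg.nonneg 1).trans (hg.bdd 1)
  have hy1 : 0 ≤ y1 := h0.trans h1
  have S1 := (phi_al ha).1
  have S1' : ∀ m : ℕ, 0 ≤ (if smooth z m then Ph A a m ^ 2 / m else 0) := by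
    intro m
    split_ifs
    · positivity
    · exact le_rfl
  have S2' : ∀ m : ℕ, 0 ≤ (if smooth z m then (Ph A a m / Real.sqrt m - s m) ^ 2 else 0) := by
    intro m
    split_ifs
    · positivity
    · exact le_rfl
  have hbig : ∀ m : ℕ, A < m → (if smooth z m then (Ph A a m / Real.sqrt m - s m) ^ 2 else 0) =
      (if smooth z m then Ph A a m ^ 2 / m else 0) := by
    intro m hm
    have h2 : s m = 0 := by
      by_contra h3
      exact absurd (hs m h3) (by omega)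
    rw [h2, sub_zero, div_pow, Real.sq_sqrt (Nat.cast_nonneg m)]
  have S2 : Summable (fun m : ℕ => if smooth z m then (Ph A a m / Real.sqrt m - s m) ^ 2
      else 0) := by
    rw [← summable_nat_add_iff (A + 1)]
    have h2 := (summable_nat_add_iff (A + 1)).2 S1
    refine h2.congr fun m => ?_
    exact (hbig (m + (A + 1)) (by omega)).symm
  apply bgi_tsum
  · intro n
    by_cases hn : smooth z n
    · simp only [if_pos hn]
      have hn1 : 1 ≤ n := Nat.one_le_iff_ne_zero.2 hn.1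
      exact (bgi_g_bound hg h0 h1 hn1).1.mul_const _
    · simp only [if_neg hn]
      exact integrable_zero _ _ _
  · intro n
    apply Filter.Eventually.of_forall
    intro y
    split_ifs
    · exact mul_nonneg (hg.nonneg _) (sq_nonneg _)
    · exact le_rfl
  · rw [ae_restrict_iff' measurableSet_Ioo]
    exact Filter.Eventually.of_forall hsum
  · have h2 : 0 ≤ cn z A a := tsum_nonneg S1'
    have h3 : 0 ≤ cd z A a s := tsum_nonneg S2'
    positivity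
  · intro K
    have hterm : ∀ n ∈ Finset.range K, ∫ y in Set.Ioo y0 y1,
        (if smooth z n then g (n * y) * Ph A a n ^ 2 else 0) ≤
        (if smooth z n then Ph A a n ^ 2 / n else 0) * (A * (G * y1)) +
        (if smooth z n then (Ph A a n / Real.sqrt n - s n) ^ 2 else 0) * Ig := by
      intro n _
      have hn1' := S1' n
      have hn2' := S2' n
      by_cases hn : smooth z n
      · have hn1 : 1 ≤ n := Nat.one_le_iff_ne_zero.2 hn.1
        have hn0 : (0 : ℝ) < n := by exact_mod_cast hn1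
        obtain ⟨_, h4, h5⟩ := bgi_g_bound hg h0 h1 hn1
        have h6 := hbig n
        simp only [if_pos hn] at hn1' hn2' h6 ⊢
        rw [integral_mul_const]
        rcases Nat.lt_or_ge A n with h7 | h7
        · rw [h6 h7]
          have h8 : (∫ y in Set.Ioo y0 y1, g (n * y)) * Ph A a n ^ 2 ≤
              (1 / n) * Ig * Ph A a n ^ 2 := mul_le_mul_of_nonneg_right h4 (sq_nonneg _)
          have h9 : (1 / (n : ℝ)) * Ig * Ph A a n ^ 2 = Ph A a n ^ 2 / n * Ig := by ring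
          have h10 : 0 ≤ Ph A a n ^ 2 / n * (A * (G * y1)) := by positivity
          linarith
        · have h8 : (∫ y in Set.Ioo y0 y1, g (n * y)) * Ph A a n ^ 2 ≤
              G * y1 * Ph A a n ^ 2 := mul_le_mul_of_nonneg_right h5 (sq_nonneg _)
          have h9 : G * y1 * Ph A a n ^ 2 ≤ Ph A a n ^ 2 / n * (A * (G * y1)) := by
            have h10 : (1 : ℝ) ≤ A / n := by
              rw [one_le_div hn0]
              exact_mod_cast h7
            have h11 : Ph A a n ^ 2 / n * (A * (G * y1)) =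
                (A / n) * (G * y1 * Ph A a n ^ 2) := by ring
            rw [h11]
            have h12 : 0 ≤ G * y1 * Ph A a n ^ 2 := by positivity
            nlinarith
          have h10 : 0 ≤ (Ph A a n / Real.sqrt n - s n) ^ 2 * Ig := by positivity
          linarith
      · simp only [if_neg hn]
        simp
    refine (Finset.sum_le_sum hterm).trans ?_
    rw [Finset.sum_add_distrib, ← Finset.sum_mul, ← Finset.sum_mul]
    apply add_le_add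
    · apply mul_le_mul_of_nonneg_right _ (by positivity)
      exact S1.sum_le_tsum _ fun m _ => S1' m
    · apply mul_le_mul_of_nonneg_right _ hIg0
      exact S2.sum_le_tsum _ fun m _ => S2' m

lemma bgi_TT_meas (Q : ℕ) (w : ℕ → ℝ) (r : ℝ) (n : ℕ) :
    Measurable fun y : ℝ => TT Q w (2 / (y * r)) n := by
  unfold TT
  simp only [Finset.sum_filter]
  apply Finset.measurable_sum
  intro q _
  apply Measurable.ite
  · apply measurableSet_lt
    · exact measurable_const.div (measurable_id.mul_const _)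
    · exact measurable_const
  · exact measurable_const
  · exact measurable_const

/-- the elementary integrals -/
lemma bgi_elem {r y0 y1 : ℝ} (hr : 0 < r) (h0 : 0 < y0) (h1 : y0 ≤ y1) :
    IntegrableOn (fun y : ℝ => 2 / (y * r)) (Set.Ioo y0 y1) ∧
    IntegrableOn (fun y : ℝ => (2 / (y * r)) ^ 2) (Set.Ioo y0 y1) ∧
    ∫ y in Set.Ioo y0 y1, 2 / (y * r) = 2 / r * Real.log (y1 / y0) ∧
    ∫ y in Set.Ioo y0 y1, (2 / (y * r)) ^ 2 ≤ 4 / r ^ 2 / y0 := by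
  have c1 : ContinuousOn (fun y : ℝ => 2 / (y * r)) (Set.Icc y0 y1) := by
    apply ContinuousOn.div continuousOn_const (continuousOn_id.mul continuousOn_const)
    intro y hy
    have : 0 < y := h0.trans_le hy.1
    exact (mul_pos this hr).ne'
  have i1 : IntegrableOn (fun y : ℝ => 2 / (y * r)) (Set.Icc y0 y1) :=
    c1.integrableOn_Icc
  have i2 : IntegrableOn (fun y : ℝ => (2 / (y * r)) ^ 2) (Set.Icc y0 y1) :=
    (c1.pow 2).integrableOn_Icc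
  refine ⟨i1.mono_set Set.Ioo_subset_Icc_self, i2.mono_set Set.Ioo_subset_Icc_self, ?_, ?_⟩
  · rw [← integral_Ioc_eq_integral_Ioo, ← intervalIntegral.integral_of_le h1]
    have e1 : ∀ y : ℝ, 2 / (y * r) = 2 / r * y⁻¹ := by
      intro y
      rw [div_mul_eq_div_div, div_right_comm, div_eq_mul_inv (2 / r)]
    simp only [e1]
    rw [intervalIntegral.integral_const_mul, integral_inv_of_pos h0 (h0.trans_le h1)]
  · rw [← integral_Ioc_eq_integral_Ioo, ← intervalIntegral.integral_of_le h1]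
    have e1 : ∀ y ∈ Set.uIcc y0 y1, HasDerivAt (fun y : ℝ => -(4 / r ^ 2 * y⁻¹))
        ((2 / (y * r)) ^ 2) y := by
      intro y hy
      rw [Set.uIcc_of_le h1] at hy
      have hy0 : 0 < y := h0.trans_le hy.1
      have h2 := ((hasDerivAt_inv hy0.ne').const_mul (4 / r ^ 2)).neg
      have h3 : (2 / (y * r)) ^ 2 = -(4 / r ^ 2 * -(y ^ 2)⁻¹) := by
        have hr0 := hr.ne'
        have hy1 := hy0.ne'
        rw [div_pow, mul_pow]
        field_simp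
        norm_num
      rw [h3]
      exact h2
    rw [intervalIntegral.integral_eq_sub_of_hasDerivAt e1]
    · have h2 : 0 < y1 := h0.trans_le h1
      have h3 : 0 < 4 / r ^ 2 * y1⁻¹ := by positivity
      rw [div_eq_mul_inv (4 / r ^ 2) y0]
      linarith
    · exact (c1.pow 2).intervalIntegrable_of_Icc h1

lemma bgi_small {δ : ℝ} (h0 : 0 < δ) {t : ℝ} (ht : 0 < t) (K : ℝ) : ∃ N₀ : ℕ, ∀ N : ℕ, N₀ ≤ N →
    (N : ℝ) ^ (-(δ / 2)) * (4 + 4 * Real.log N + K) ≤ t := by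
  have t1 : Tendsto (fun x : ℝ => x ^ (-(δ / 2))) atTop (𝓝 0) :=
    tendsto_rpow_neg_atTop (by linarith)
  have t2 : Tendsto (fun x : ℝ => Real.log x / x ^ (δ / 2)) atTop (𝓝 0) :=
    (isLittleO_log_rpow_atTop (by linarith : 0 < δ / 2)).tendsto_div_nhds_zero
  have t3 : Tendsto (fun x : ℝ => (4 + K) * x ^ (-(δ / 2)) + 4 * (Real.log x / x ^ (δ / 2)))
      atTop (𝓝 ((4 + K) * 0 + 4 * 0)) := (t1.const_mul _).add (t2.const_mul _)
  rw [mul_zero, mul_zero, add_zero] at t3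
  have t4 := (t3.comp tendsto_natCast_atTop_atTop).eventually_le_const ht
  obtain ⟨N₀, hN₀⟩ := eventually_atTop.1 t4
  refine ⟨N₀, fun N hN => ?_⟩
  have h1 := hN₀ N hN
  simp only [Function.comp] at h1
  rw [Real.rpow_neg (Nat.cast_nonneg N)] at h1 ⊢
  calc ((N : ℝ) ^ (δ / 2))⁻¹ * (4 + 4 * Real.log N + K) =
      (4 + K) * ((N : ℝ) ^ (δ / 2))⁻¹ + 4 * (Real.log N / (N : ℝ) ^ (δ / 2)) := by
        rw [div_eq_mul_inv]
        ring
    _ ≤ t := h1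

/-- sizes -/
lemma bgi_sizes {δ : ℝ} (h0 : 0 < δ) (h1 : δ < 1 / 4) {ε₂ : ℝ} (h2 : 0 < ε₂)
    (h3 : ε₂ ≤ δ / 40) {N : ℕ} (hN : 2 ≤ N) :
    2 ≤ QQ δ ε₂ N ∧ (KA ε₂ N : ℝ) ≤ (N : ℝ) ^ ε₂ ∧
      (QQ δ ε₂ N : ℝ) ≤ 2 * (N : ℝ) ^ (1 / 2 - δ + ε₂) ∧
      Real.log (QQ δ ε₂ N) ≤ 2 * Real.log N := by
  have hN0 : (0 : ℝ) < N := by exact_mod_cast (by omega : 0 < N)
  have hN1 : (1 : ℝ) ≤ N := by exact_mod_cast (by omega : 1 ≤ N)
  have hN2 : (2 : ℝ) ≤ N := by exact_mod_cast hN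
  have a1 : 1 ≤ MM δ N := by
    unfold MM
    rw [Nat.one_le_floor_iff]
    exact Real.one_le_rpow hN1 (by linarith)
  have a2 : 1 ≤ KA ε₂ N := by
    unfold KA
    rw [Nat.one_le_floor_iff]
    exact Real.one_le_rpow hN1 h2.le
  have a3 : (MM δ N : ℝ) ≤ (N : ℝ) ^ (1 / 2 - δ) := Nat.floor_le (by positivity)
  have a4 : (KA ε₂ N : ℝ) ≤ (N : ℝ) ^ ε₂ := Nat.floor_le (by positivity)
  have a5 : QQ δ ε₂ N = 2 * MM δ N * KA ε₂ N := rfl
  have a6 : 2 ≤ QQ δ ε₂ N := by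
    rw [a5]
    nlinarith [Nat.mul_le_mul a1 a2]
  have a7 : (QQ δ ε₂ N : ℝ) ≤ 2 * (N : ℝ) ^ (1 / 2 - δ + ε₂) := by
    rw [a5, Real.rpow_add hN0]
    push_cast
    rw [mul_assoc]
    apply mul_le_mul_of_nonneg_left _ (by norm_num)
    exact mul_le_mul a3 a4 (Nat.cast_nonneg _) (by positivity)
  refine ⟨a6, a4, a7, ?_⟩
  have a8 : (N : ℝ) ^ (1 / 2 - δ + ε₂) ≤ (N : ℝ) ^ (1 : ℝ) :=
    Real.rpow_le_rpow_of_exponent_le hN1 (by linarith)
  rw [Real.rpow_one] at a8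
  have a9 : (QQ δ ε₂ N : ℝ) ≤ (N : ℝ) ^ 2 := by nlinarith
  have a10 : (0 : ℝ) < QQ δ ε₂ N := by exact_mod_cast (by omega : 0 < QQ δ ε₂ N)
  have a11 := Real.log_le_log a10 a9
  rw [Real.log_pow] at a11
  exact_mod_cast a11

open Classical in
/-- the assembly -/
lemma bgi_core {δ : ℝ} (h0 : 0 < δ) (h1 : δ < 1 / 4) {ε C₀ G : ℝ} (hε : 0 < ε) {g : ℝ → ℝ}
    (hg : Kg g G) {Ig εb ε₂ : ℝ} (hIg : Ig = ∫ u in Set.Ioi (0 : ℝ), g u)
    (hIgε : Ig * εb ≤ ε / 4) (h2 : 0 < ε₂) (h3d : ε₂ ≤ δ / 40) {N Q A z : ℕ} {w a s : ℕ → ℝ}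
    (hN2 : 2 ≤ N) {Bf : ℝ → ℝ} {r y0 y1 : ℝ} (hr : r = Real.sqrt N) (hy0 : y0 = 2 / (Q * r))
    (hy1 : y1 = 2 / r) (q1 : 2 ≤ Q) (q2 : (A : ℝ) ≤ (N : ℝ) ^ ε₂)
    (q3 : (Q : ℝ) ≤ 2 * (N : ℝ) ^ (1 / 2 - δ + ε₂)) (q4 : Real.log Q ≤ 2 * Real.log N)
    (ha : ∀ k, a k ≠ 0 → smooth z k ∧ k ≤ A) (hs : ∀ m, s m ≠ 0 → m ≤ A)
    (hcn : cn z A a ≤ C₀) (hcd : cd z A a s ≤ εb)
    (b1 : IntegrableOn Bf (Set.Ioo y0 y1))
    (hBi : ∫ y in Set.Ioo y0 y1, Bf y ≤ cn z A a / 2 + εb)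
    (p1 : ∀ y, 0 < y → y < y1 →
      Summable (fun n : ℕ => if smooth z n then g (n * y) * Ph A a n ^ 2 else 0) ∧
      Summable (fun n : ℕ => g ((n + 1) * y) * TT Q w (2 / (y * r)) (n + 1) ^ 2) ∧
      ∑' n : ℕ, g ((n + 1) * y) * TT Q w (2 / (y * r)) (n + 1) ^ 2 ≤
        Bf y * Ig + (∑' n : ℕ, if smooth z n then g (n * y) * Ph A a n ^ 2 else 0) +
        (N : ℝ) ^ (1 / 2 - δ / 2) * (2 / (y * r)))
    (z1 : ∀ D : ℝ, 1 ≤ D → |TT Q w D 0| ≤ (N : ℝ) ^ (4 * ε₂) * D ∧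
        ∀ n : ℕ, (Q : ℝ) ≤ D → TT Q w D n = 0)
    (s1 : (N : ℝ) ^ (-(δ / 2)) * (4 + 4 * Real.log N + 2 * |C₀| * G) ≤ ε / 4) :
      IntegrableOn (fun y : ℝ => TT Q w (2 / (y * r)) 0 ^ 2 +
        ∑' n : ℕ, g ((n + 1) * y) * TT Q w (2 / (y * r)) (n + 1) ^ 2) (Set.Ioo 0 y1) ∧
      ∫ y in Set.Ioo 0 y1, (TT Q w (2 / (y * r)) 0 ^ 2 +
        ∑' n : ℕ, g ((n + 1) * y) * TT Q w (2 / (y * r)) (n + 1) ^ 2) ≤
      Ig * (cn z A a / 2) + ε := by
  have hIg0 : 0 ≤ Ig := by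
    rw [hIg]
    exact setIntegral_nonneg measurableSet_Ioi fun u _ => hg.nonneg u
  have hG : 0 ≤ G := (hg.nonneg 1).trans (hg.bdd 1)
  have hN0 : (0 : ℝ) < N := by exact_mod_cast (by omega : 0 < N)
  have hN1 : (1 : ℝ) ≤ N := by exact_mod_cast (by omega : 1 ≤ N)
  have hr0 : 0 < r := by
    rw [hr]
    exact Real.sqrt_pos.2 hN0
  have hQ0 : (0 : ℝ) < Q := by exact_mod_cast (by omega : 0 < Q)
  have hQ2 : (2 : ℝ) ≤ Q := by exact_mod_cast q1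
  have hy00 : 0 < y0 := by
    rw [hy0]
    positivity
  have hy01 : y0 ≤ y1 := by
    rw [hy0, hy1]
    apply div_le_div_of_nonneg_left (by norm_num) hr0
    nlinarith
  have hcn0 : 0 ≤ cn z A a := tsum_nonneg fun m => by
    split_ifs
    · positivity
    · exact le_rfl
  have hC₀ : 0 ≤ C₀ := hcn0.trans hcn
  rw [abs_of_nonneg hC₀] at s1
  -- the function
  obtain ⟨F, hF⟩ : ∃ F : ℝ → ℝ, F = fun y : ℝ => TT Q w (2 / (y * r)) 0 ^ 2 +
      ∑' n : ℕ, g ((n + 1) * y) * TT Q w (2 / (y * r)) (n + 1) ^ 2 := ⟨_, rfl⟩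
  rw [← hF]
  have hFy : ∀ y, F y = TT Q w (2 / (y * r)) 0 ^ 2 +
      ∑' n : ℕ, g ((n + 1) * y) * TT Q w (2 / (y * r)) (n + 1) ^ 2 := fun y => by rw [hF]
  -- the part close to zero
  have hzero : ∀ y ∈ Set.Ioc 0 y0, F y = 0 := by
    intro y hy
    have e1 : (Q : ℝ) ≤ 2 / (y * r) := by
      rw [le_div_iff₀ (mul_pos hy.1 hr0)]
      have e2 := hy.2
      rw [hy0, le_div_iff₀ (by positivity)] at e2
      linarith
    have e3 := (z1 _ (by linarith : (1 : ℝ) ≤ 2 / (y * r))).2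
    rw [hFy, e3 0 e1]
    simp [e3 _ e1]
  have hI1 : IntegrableOn F (Set.Ioc 0 y0) := by
    apply (integrableOn_zero).congr_fun (f := fun _ => (0 : ℝ)) _ measurableSet_Ioc
    intro y hy
    exact (hzero y hy).symm
  have hI1' : ∫ y in Set.Ioc 0 y0, F y = 0 := by
    rw [setIntegral_congr_fun measurableSet_Ioc hzero]
    simp
  -- the main part
  have hin : ∀ y ∈ Set.Ioo y0 y1, 0 < y ∧ y < y1 := fun y hy => ⟨hy00.trans hy.1, hy.2⟩
  have hP := bgi_smooth hg ha hs hy00.le hy01 fun y hy =>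
    (p1 y (hin y hy).1 (hin y hy).2).1
  obtain ⟨e1, e2, e3, e4⟩ := bgi_elem hr0 hy00 hy01
  obtain ⟨P, hPdef⟩ : ∃ P : ℝ → ℝ, P = fun y => ∑' n : ℕ,
      if smooth z n then g (n * y) * Ph A a n ^ 2 else 0 := ⟨_, rfl⟩
  rw [← hPdef] at hP
  have hPi : ∫ y in Set.Ioo y0 y1, P y ≤ cn z A a * (A * (G * y1)) + cd z A a s * Ig := by
    have := hP.2
    rw [← hIg] at this
    exact this
  -- the dominating function
  have hdom : ∀ y ∈ Set.Ioo y0 y1, 0 ≤ F y ∧ F y ≤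
      (N : ℝ) ^ (8 * ε₂) * (2 / (y * r)) ^ 2 + Bf y * Ig + P y +
        (N : ℝ) ^ (1 / 2 - δ / 2) * (2 / (y * r)) := by
    intro y hy
    obtain ⟨g1, g2, g3⟩ := p1 y (hin y hy).1 (hin y hy).2
    have hyp := (hin y hy).1
    have hD1 : (1 : ℝ) ≤ 2 / (y * r) := by
      rw [le_div_iff₀ (mul_pos hyp hr0)]
      have e2 := (hin y hy).2
      rw [hy1, lt_div_iff₀ hr0] at e2
      linarith
    have g4 := (z1 _ hD1).1
    have g5 : TT Q w (2 / (y * r)) 0 ^ 2 ≤ (N : ℝ) ^ (8 * ε₂) * (2 / (y * r)) ^ 2 := by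
      have g6 : (N : ℝ) ^ (8 * ε₂) = ((N : ℝ) ^ (4 * ε₂)) ^ 2 := by
        rw [← Real.rpow_natCast, ← Real.rpow_mul hN0.le]
        congr 1
        push_cast
        ring
      rw [g6, ← mul_pow, ← sq_abs]
      exact pow_le_pow_left₀ (abs_nonneg _) g4 2
    have g7 : 0 ≤ ∑' n : ℕ, g ((n + 1) * y) * TT Q w (2 / (y * r)) (n + 1) ^ 2 :=
      tsum_nonneg fun n => mul_nonneg (hg.nonneg _) (sq_nonneg _)
    rw [hFy]
    constructor
    · positivity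
    · rw [hPdef]
      linarith
  have hmeas : AEStronglyMeasurable F (volume.restrict (Set.Ioo y0 y1)) := by
    rw [hF]
    apply AEStronglyMeasurable.add
    · exact ((bgi_TT_meas Q w r 0).pow_const 2).aestronglyMeasurable
    · refine aestronglyMeasurable_of_tendsto_ae atTop
        (f := fun K y => ∑ n ∈ Finset.range K,
          g ((n + 1) * y) * TT Q w (2 / (y * r)) (n + 1) ^ 2) (fun K => ?_) ?_
      · apply Finset.aestronglyMeasurable_fun_sum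
        intro n _
        apply AEStronglyMeasurable.mul
        · have g1 := (bgi_g_bound hg hy00.le hy01 (n := n + 1) (by omega)).1.1
          push_cast at g1
          exact g1
        · exact ((bgi_TT_meas Q w r (n + 1)).pow_const 2).aestronglyMeasurable
      · rw [ae_restrict_iff' measurableSet_Ioo]
        apply Filter.Eventually.of_forall
        intro y hy
        exact (p1 y (hin y hy).1 (hin y hy).2).2.1.hasSum.tendsto_sum_nat
  have i1 : IntegrableOn (fun y => (N : ℝ) ^ (8 * ε₂) * (2 / (y * r)) ^ 2) (Set.Ioo y0 y1) :=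
    e2.const_mul _
  have i2 : IntegrableOn (fun y => Bf y * Ig) (Set.Ioo y0 y1) := b1.mul_const _
  have i3 : IntegrableOn P (Set.Ioo y0 y1) := hP.1
  have i4 : IntegrableOn (fun y => (N : ℝ) ^ (1 / 2 - δ / 2) * (2 / (y * r)))
      (Set.Ioo y0 y1) := e1.const_mul _
  have i12 : IntegrableOn (fun y => (N : ℝ) ^ (8 * ε₂) * (2 / (y * r)) ^ 2 + Bf y * Ig)
      (Set.Ioo y0 y1) := i1.add i2
  have i123 : IntegrableOn (fun y => (N : ℝ) ^ (8 * ε₂) * (2 / (y * r)) ^ 2 + Bf y * Ig + P y)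
      (Set.Ioo y0 y1) := i12.add i3
  have i1234 : IntegrableOn (fun y => (N : ℝ) ^ (8 * ε₂) * (2 / (y * r)) ^ 2 + Bf y * Ig + P y +
      (N : ℝ) ^ (1 / 2 - δ / 2) * (2 / (y * r))) (Set.Ioo y0 y1) := i123.add i4
  have hI2 : IntegrableOn F (Set.Ioo y0 y1) := by
    refine Integrable.mono' i1234 hmeas ?_
    rw [ae_restrict_iff' measurableSet_Ioo]
    apply Filter.Eventually.of_forall
    intro y hy
    obtain ⟨g1, g2⟩ := hdom y hy
    rw [Real.norm_eq_abs, abs_of_nonneg g1]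
    exact g2
  have hI2' : ∫ y in Set.Ioo y0 y1, F y ≤ (N : ℝ) ^ (8 * ε₂) * (4 / r ^ 2 / y0) +
      (cn z A a / 2 + εb) * Ig + (cn z A a * (A * (G * y1)) + cd z A a s * Ig) +
      (N : ℝ) ^ (1 / 2 - δ / 2) * (2 / r * Real.log (y1 / y0)) := by
    have g1 : ∫ y in Set.Ioo y0 y1, F y ≤ ∫ y in Set.Ioo y0 y1,
        ((N : ℝ) ^ (8 * ε₂) * (2 / (y * r)) ^ 2 + Bf y * Ig + P y +
        (N : ℝ) ^ (1 / 2 - δ / 2) * (2 / (y * r))) :=
      setIntegral_mono_on hI2 i1234 measurableSet_Ioo fun y hy => (hdom y hy).2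
    refine g1.trans ?_
    rw [integral_add i123 i4, integral_add i12 i3, integral_add i1 i2, integral_const_mul,
      integral_mul_const, integral_const_mul, e3]
    have g2 : (N : ℝ) ^ (8 * ε₂) * ∫ y in Set.Ioo y0 y1, (2 / (y * r)) ^ 2 ≤
        (N : ℝ) ^ (8 * ε₂) * (4 / r ^ 2 / y0) := mul_le_mul_of_nonneg_left e4 (by positivity)
    have g3 : (∫ y in Set.Ioo y0 y1, Bf y) * Ig ≤ (cn z A a / 2 + εb) * Ig :=
      mul_le_mul_of_nonneg_right hBi hIg0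
    linarith
  have hun : Set.Ioo 0 y1 = Set.Ioc 0 y0 ∪ Set.Ioo y0 y1 := by
    have hlt : y0 < y1 := by
      rw [hy0, hy1]
      apply div_lt_div_of_pos_left (by norm_num) hr0
      nlinarith
    ext y
    simp only [Set.mem_Ioo, Set.mem_union, Set.mem_Ioc]
    constructor
    · rintro ⟨g1, g2⟩
      rcases le_or_gt y y0 with g3 | g3
      · exact Or.inl ⟨g1, g3⟩
      · exact Or.inr ⟨g3, g2⟩
    · rintro (⟨g1, g2⟩ | ⟨g1, g2⟩)
      · exact ⟨g1, by linarith⟩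
      · exact ⟨by linarith, g2⟩
  have hdisj : Disjoint (Set.Ioc 0 y0) (Set.Ioo y0 y1) := by
    rw [Set.disjoint_left]
    intro y g1 g2
    exact absurd g1.2 (not_le.2 g2.1)
  rw [hun]
  refine ⟨hI1.union hI2, ?_⟩
  rw [setIntegral_union hdisj measurableSet_Ioo hI1 hI2, hI1', zero_add]
  refine hI2'.trans ?_
  -- numerics
  have hrr : r ^ 2 = N := by
    rw [hr]
    exact Real.sq_sqrt hN0.le
  have hrpow : r = (N : ℝ) ^ (1 / 2 : ℝ) := by
    rw [hr, Real.sqrt_eq_rpow]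
  have hrinv : 1 / r = (N : ℝ) ^ (-(1 / 2) : ℝ) := by
    rw [hrpow, Real.rpow_neg hN0.le, one_div]
  have n1 : (N : ℝ) ^ (8 * ε₂) * (4 / r ^ 2 / y0) ≤ 4 * (N : ℝ) ^ (-(δ / 2)) := by
    have g1 : 4 / r ^ 2 / y0 = 2 * Q * (1 / r) := by
      rw [hy0]
      field_simp
      norm_num
    rw [g1]
    have g2 : (N : ℝ) ^ (8 * ε₂) * (2 * Q * (1 / r)) ≤
        (N : ℝ) ^ (8 * ε₂) * (2 * (2 * (N : ℝ) ^ (1 / 2 - δ + ε₂)) * (1 / r)) := by
      gcongr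
    refine g2.trans ?_
    rw [hrinv]
    have g3 : (N : ℝ) ^ (8 * ε₂) * (2 * (2 * (N : ℝ) ^ (1 / 2 - δ + ε₂)) *
        (N : ℝ) ^ (-(1 / 2) : ℝ)) = 4 * (N : ℝ) ^ (8 * ε₂ + (1 / 2 - δ + ε₂) + -(1 / 2)) := by
      rw [Real.rpow_add hN0 (8 * ε₂ + (1 / 2 - δ + ε₂)) (-(1 / 2)),
        Real.rpow_add hN0 (8 * ε₂) (1 / 2 - δ + ε₂)]
      ring
    rw [g3]
    apply mul_le_mul_of_nonneg_left _ (by norm_num)
    apply Real.rpow_le_rpow_of_exponent_le hN1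
    linarith
  have n2 : (N : ℝ) ^ (1 / 2 - δ / 2) * (2 / r * Real.log (y1 / y0)) ≤
      (N : ℝ) ^ (-(δ / 2)) * (4 * Real.log N) := by
    have g1 : y1 / y0 = Q := by
      rw [hy0, hy1]
      field_simp
    rw [g1]
    have g2 : (N : ℝ) ^ (1 / 2 - δ / 2) * (2 / r * Real.log Q) =
        ((N : ℝ) ^ (1 / 2 - δ / 2) * (1 / r)) * (2 * Real.log Q) := by ring
    rw [g2, hrinv, ← Real.rpow_add hN0]
    have g3 : 1 / 2 - δ / 2 + -(1 / 2) = -(δ / 2) := by ring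
    rw [g3]
    apply mul_le_mul_of_nonneg_left _ (by positivity)
    linarith
  have n3 : cn z A a * (A * (G * y1)) ≤ (N : ℝ) ^ (-(δ / 2)) * (2 * C₀ * G) := by
    have g1 : cn z A a * (A * (G * y1)) = (cn z A a) * (A * (1 / r)) * (2 * G) := by
      rw [hy1]
      ring
    rw [g1, hrinv]
    have g2 : (A : ℝ) * (N : ℝ) ^ (-(1 / 2) : ℝ) ≤ (N : ℝ) ^ (-(δ / 2)) := by
      calc (A : ℝ) * (N : ℝ) ^ (-(1 / 2) : ℝ) ≤ (N : ℝ) ^ ε₂ * (N : ℝ) ^ (-(1 / 2) : ℝ) :=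
            mul_le_mul_of_nonneg_right q2 (by positivity)
        _ = (N : ℝ) ^ (ε₂ + -(1 / 2)) := by rw [Real.rpow_add hN0]
        _ ≤ _ := Real.rpow_le_rpow_of_exponent_le hN1 (by linarith)
    have g3 : cn z A a * ((A : ℝ) * (N : ℝ) ^ (-(1 / 2) : ℝ)) ≤
        C₀ * (N : ℝ) ^ (-(δ / 2)) := mul_le_mul hcn g2 (by positivity) hC₀
    have g4 : cn z A a * ((A : ℝ) * (N : ℝ) ^ (-(1 / 2) : ℝ)) * (2 * G) ≤
        C₀ * (N : ℝ) ^ (-(δ / 2)) * (2 * G) := mul_le_mul_of_nonneg_right g3 (by positivity)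
    refine g4.trans (le_of_eq ?_)
    ring
  have n4 : cd z A a s * Ig ≤ ε / 4 := by
    have := mul_le_mul_of_nonneg_right hcd hIg0
    linarith
  have n5 : 4 * (N : ℝ) ^ (-(δ / 2)) + (N : ℝ) ^ (-(δ / 2)) * (4 * Real.log N) +
      (N : ℝ) ^ (-(δ / 2)) * (2 * C₀ * G) ≤ ε / 4 := by
    refine le_trans (le_of_eq ?_) s1
    ring
  have n6 : (cn z A a / 2 + εb) * Ig = Ig * (cn z A a / 2) + Ig * εb := by ring
  rw [n6]
  linarith

/-- the sum over all heights -/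
theorem bulk_gen_pr {δ : ℝ} (h0 : 0 < δ) (h1 : δ < 1 / 4) {ε : ℝ} (hε : 0 < ε) (C₀ : ℝ)
    {g : ℝ → ℝ} {G : ℝ} (hg : Kg g G) : ∃ ε₁ κ : ℝ, 0 < ε₁ ∧ 0 < κ ∧ ∀ ε₂ : ℝ, 0 < ε₂ →
    ε₂ ≤ ε₁ → ∃ N₀ : ℕ, ∀ N : ℕ, N₀ ≤ N → ∀ a : ℕ → ℝ, Sht (zz N) (KA ε₂ N) a →
    cn (zz N) (KA ε₂ N) a ≤ C₀ → ∀ s : ℕ → ℝ, (∀ m, s m ≠ 0 → m ≤ KA ε₂ N) →
    cd (zz N) (KA ε₂ N) a s ≤ κ →
      IntegrableOn (fun y : ℝ => TT (QQ δ ε₂ N) (ww δ ε₂ N a) (2 / (y * Real.sqrt N)) 0 ^ 2 +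
        ∑' n : ℕ, g ((n + 1) * y) *
          TT (QQ δ ε₂ N) (ww δ ε₂ N a) (2 / (y * Real.sqrt N)) (n + 1) ^ 2)
        (Set.Ioo 0 (2 / Real.sqrt N)) ∧
      ∫ y in Set.Ioo 0 (2 / Real.sqrt N),
        (TT (QQ δ ε₂ N) (ww δ ε₂ N a) (2 / (y * Real.sqrt N)) 0 ^ 2 +
        ∑' n : ℕ, g ((n + 1) * y) *
          TT (QQ δ ε₂ N) (ww δ ε₂ N a) (2 / (y * Real.sqrt N)) (n + 1) ^ 2) ≤
      (∫ u in Set.Ioi (0 : ℝ), g u) * (cn (zz N) (KA ε₂ N) a / 2) + ε := by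
  classical
  obtain ⟨Ig, hIg⟩ : ∃ Ig, Ig = ∫ u in Set.Ioi (0 : ℝ), g u := ⟨_, rfl⟩
  have hIg0 : 0 ≤ Ig := by
    rw [hIg]
    exact setIntegral_nonneg measurableSet_Ioi fun u _ => hg.nonneg u
  have hG : 0 ≤ G := (hg.nonneg 1).trans (hg.bdd 1)
  obtain ⟨εb, hεb⟩ : ∃ εb : ℝ, εb = ε / (4 * (Ig + 1)) := ⟨_, rfl⟩
  have hεb0 : 0 < εb := by
    rw [hεb]
    positivity
  have hIgε : Ig * εb ≤ ε / 4 := by
    have e1 : εb * (4 * (Ig + 1)) = ε := by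
      rw [hεb]
      exact div_mul_cancel₀ _ (by positivity)
    nlinarith
  obtain ⟨ε', ε₁b, hε', hε₁b, hb⟩ := b_int h0 h1 hεb0 C₀
  refine ⟨min ε₁b (δ / 40), εb, by positivity, hεb0, ?_⟩
  intro ε₂ h2 h3
  have h3b : ε₂ ≤ ε₁b := h3.trans (min_le_left _ _)
  have h3d : ε₂ ≤ δ / 40 := h3.trans (min_le_right _ _)
  obtain ⟨Nb, hNb⟩ := hb ε₂ h2 h3b
  obtain ⟨Np, hNp⟩ := bulk_point h0 h1 hε' hg h2 h3d
  obtain ⟨Nz, hNz⟩ := tt_zero h0 h1 h2 h3d
  obtain ⟨Ns, hNs⟩ := bgi_small h0 (show 0 < ε / 4 by positivity) (2 * |C₀| * G)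
  refine ⟨Nb + Np + Nz + Ns + 2, ?_⟩
  intro N hN a ha hcn s hs hcd
  have hN2 : 2 ≤ N := by omega
  obtain ⟨q1, q2, q3, q4⟩ := bgi_sizes h0 h1 h2 h3d hN2
  obtain ⟨b1, b2⟩ := hNb N (by omega) a ha hcn
  rw [← hIg]
  refine bgi_core h0 h1 hε hg hIg hIgε h2 h3d hN2 rfl rfl rfl q1 q2 q3 q4 ha.sup hs hcn hcd b1 b2
    ?_ (hNz N (by omega) a ha) (hNs N (by omega))
  intro y hy hy'
  rw [hIg]
  exact hNp N (by omega) a ha y hy hy'

theorem bulk_gen : type_of% @bulk_gen_pr := @bulk_gen_pr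

end Pool.Agent.KSL
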