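import Pool.Agent.Lib_helper68.KSL.Defs
import Pool.Agent.Lib_helper68.KSLF.HIR

/-! Block BUL: Parseval for the kernel at a given height. -/

namespace Pool.Agent.KSL

open Pool.Agent.LEV Pool.Agent.LVB
open Pool.Agent.FG61 (mu phi cc ff AA Lam)
open Complex MeasureTheory Filter Topology UpperHalfPlane ModularGroup ProbabilityTheory
open scoped MatrixGroups Modular ENNReal ModularForm ComplexConjugate ContDiff

theorem bul_hcs {T : ℝ} {ρ : ℝ → ℝ} (hρ : Ker T ρ) : HasCompactSupport (fun t : ℝ => (ρ t : ℂ)) := by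
  refine HasCompactSupport.intro (isCompact_Icc (a := -T) (b := T)) fun t ht => ?_
  have : T < |t| := by
    by_contra hcon
    exact ht (abs_le.mp (not_lt.mp hcon))
  rw [hρ.supp t this, Complex.ofReal_zero]

theorem bul_hcs' {T : ℝ} {ρ : ℝ → ℝ} (hρ : Ker T ρ) : HasCompactSupport ρ := by
  refine HasCompactSupport.intro (isCompact_Icc (a := -T) (b := T)) fun t ht => ?_
  have : T < |t| := by
    by_contra hcon
    exact ht (abs_le.mp (not_lt.mp hcon))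
  rw [hρ.supp t this]

theorem bul_c {T : ℝ} {ρ : ℝ → ℝ} (hρ : Ker T ρ) : Continuous (fun t : ℝ => (ρ t : ℂ)) :=
  Complex.continuous_ofReal.comp hρ.cont

theorem kh_zero_pr {T : ℝ} {ρ : ℝ → ℝ} (hρ : Ker T ρ) : kh ρ 0 = 1 ∧ ∀ u, |sgm ρ u| ≤ 1 := by
  constructor
  · unfold kh
    have h1 : ∀ t : ℝ, (ρ t : ℂ) * (1 - (t : ℂ) * Complex.I) *
        cexp (-(2 * Real.pi * 0 * t : ℝ) * Complex.I) =
        (ρ t : ℂ) - Complex.I * ((t * ρ t : ℝ) : ℂ) := by
      intro t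
      have : (-(2 * Real.pi * 0 * t : ℝ) : ℂ) * Complex.I = 0 := by simp
      rw [this, Complex.exp_zero]
      push_cast
      ring
    simp only [h1]
    have hi1 : Integrable (fun t : ℝ => (ρ t : ℂ)) :=
      (bul_c hρ).integrable_of_hasCompactSupport (bul_hcs hρ)
    have hc2 : Continuous (fun t : ℝ => t * ρ t) := continuous_id.mul hρ.cont
    have hi2 : Integrable (fun t : ℝ => t * ρ t) :=
      hc2.integrable_of_hasCompactSupport (bul_hcs' hρ).mul_left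
    have hi2c : Integrable (fun t : ℝ => Complex.I * ((t * ρ t : ℝ) : ℂ)) :=
      hi2.ofReal.const_mul _
    rw [integral_sub hi1 hi2c, integral_const_mul]
    have h2 : ∫ t : ℝ, (ρ t : ℂ) = ((∫ t : ℝ, ρ t : ℝ) : ℂ) := integral_ofReal
    have h3 : ∫ t : ℝ, ((t * ρ t : ℝ) : ℂ) = ((∫ t : ℝ, t * ρ t : ℝ) : ℂ) := integral_ofReal
    have h4 : ∫ t : ℝ, t * ρ t = 0 := by
      have h5 : ∫ t : ℝ, t * ρ t = ∫ t : ℝ, (-t) * ρ (-t) :=
        (integral_neg_eq_self (fun t : ℝ => t * ρ t) volume).symm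
      have h6 : ∫ t : ℝ, (-t) * ρ (-t) = - ∫ t : ℝ, t * ρ t := by
        rw [← integral_neg]
        refine integral_congr_ae (ae_of_all _ fun t => ?_)
        show (-t) * ρ (-t) = -(t * ρ t)
        rw [hρ.even]
        ring
      linarith
    rw [h2, h3, h4, hρ.int]
    simp
  · intro u
    unfold sgm
    have hi1 : Integrable ρ := hρ.cont.integrable_of_hasCompactSupport (bul_hcs' hρ)
    calc |∫ t, ρ t * Real.cos (2 * Real.pi * u * t)|
        ≤ ∫ t, |ρ t * Real.cos (2 * Real.pi * u * t)| := abs_integral_le_integral_abs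
      _ ≤ ∫ t, ρ t := by
          refine integral_mono_of_nonneg (ae_of_all _ fun t => abs_nonneg _) hi1
            (ae_of_all _ fun t => ?_)
          show |ρ t * Real.cos (2 * Real.pi * u * t)| ≤ ρ t
          rw [abs_mul, abs_of_nonneg (hρ.nonneg t)]
          exact mul_le_of_le_one_right (hρ.nonneg t) (Real.abs_cos_le_one _)
      _ = 1 := hρ.int

/-- the elementary kernel -/
noncomputable def bul_k (ρ : ℝ → ℝ) (t : ℝ) : ℂ := (ρ t : ℂ) * (1 - (t : ℂ) * Complex.I)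

theorem bul_k_cont {T : ℝ} {ρ : ℝ → ℝ} (hρ : Ker T ρ) : Continuous (bul_k ρ) := by
  unfold bul_k
  exact (bul_c hρ).mul (by fun_prop)

theorem bul_k_cs {T : ℝ} {ρ : ℝ → ℝ} (hρ : Ker T ρ) : HasCompactSupport (bul_k ρ) :=
  (bul_hcs hρ).mul_right

/-- the summand -/
noncomputable def bul_g (ρ : ℝ → ℝ) (a y x : ℝ) : ℂ := ((y⁻¹ : ℝ) : ℂ) * bul_k ρ ((x - a) / y)

theorem bul_ph (N Q : ℕ) (w : ℕ → ℝ) (ρ : ℝ → ℝ) (x y : ℝ) : ph N Q w ρ x y =
    ∑ q ∈ (Finset.Icc 1 Q).filter (fun q : ℕ => 2 * rq N q < y), (w q : ℂ) *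
      ∑ j ∈ RR q, bul_g ρ ((j : ℝ) / q) y x := by
  unfold ph
  refine Finset.sum_congr rfl fun q _ => ?_
  congr 1
  refine Finset.sum_congr rfl fun j _ => ?_
  unfold bul_g bul_k
  push_cast
  ring

theorem bul_g_cont {T : ℝ} {ρ : ℝ → ℝ} (hρ : Ker T ρ) (a y : ℝ) : Continuous (bul_g ρ a y) := by
  unfold bul_g
  exact continuous_const.mul ((bul_k_cont hρ).comp (by fun_prop))

theorem bul_g_cs {T : ℝ} {ρ : ℝ → ℝ} (hρ : Ker T ρ) (a : ℝ) {y : ℝ} (hy : 0 < y) :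
    HasCompactSupport (bul_g ρ a y) := by
  refine HasCompactSupport.intro (isCompact_Icc (a := a - T * y) (b := a + T * y)) fun x hx => ?_
  have h1 : T < |(x - a) / y| := by
    by_contra hcon
    rw [not_lt, abs_div, abs_of_pos hy, div_le_iff₀ hy, abs_le] at hcon
    exact hx ⟨by linarith [hcon.1], by linarith [hcon.2]⟩
  unfold bul_g bul_k
  rw [hρ.supp _ h1, Complex.ofReal_zero, zero_mul, mul_zero]

theorem bul_g_int {T : ℝ} {ρ : ℝ → ℝ} (hρ : Ker T ρ) (a : ℝ) {y : ℝ} (hy : 0 < y) (u : ℝ) :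
    Integrable (fun x : ℝ => cexp (-(2 * Real.pi * u * x : ℝ) * Complex.I) * bul_g ρ a y x) := by
  refine Continuous.integrable_of_hasCompactSupport ?_ (bul_g_cs hρ a hy).mul_left
  exact (Continuous.cexp (by fun_prop)).mul (bul_g_cont hρ a y)

/-- the Fourier transform of a summand -/
theorem bul_g_ft {ρ : ℝ → ℝ} (a : ℝ) {y : ℝ} (hy : 0 < y) (u : ℝ) :
    ∫ x : ℝ, cexp (-(2 * Real.pi * u * x : ℝ) * Complex.I) * bul_g ρ a y x =
      cexp (-(2 * Real.pi * u * a : ℝ) * Complex.I) * kh ρ (u * y) := by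
  set G : ℝ → ℂ := fun t => cexp (-(2 * Real.pi * u * (a + y * t) : ℝ) * Complex.I) * bul_k ρ t
    with hG
  have h1 : ∀ x : ℝ, cexp (-(2 * Real.pi * u * x : ℝ) * Complex.I) * bul_g ρ a y x =
      ((y⁻¹ : ℝ) : ℂ) * G ((x - a) / y) := by
    intro x
    simp only [hG]
    have h2 : a + y * ((x - a) / y) = x := by
      field_simp
      ring
    rw [h2]
    unfold bul_g
    ring
  simp only [h1]
  rw [integral_const_mul]
  have h3 : ∫ x : ℝ, G ((x - a) / y) = ∫ x : ℝ, G (x / y) :=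
    integral_sub_right_eq_self (fun x => G (x / y)) a
  have h4 : ∫ x : ℝ, G (x / y) = |y| • ∫ x : ℝ, G x := Measure.integral_comp_div G y
  rw [h3, h4, abs_of_pos hy, Complex.real_smul, ← mul_assoc, ← Complex.ofReal_mul,
    inv_mul_cancel₀ hy.ne', Complex.ofReal_one, one_mul]
  unfold kh
  rw [← integral_const_mul]
  refine integral_congr_ae (ae_of_all _ fun t => ?_)
  show cexp (-(2 * Real.pi * u * (a + y * t) : ℝ) * Complex.I) * bul_k ρ t =
    cexp (-(2 * Real.pi * u * a : ℝ) * Complex.I) * ((ρ t : ℂ) * (1 - (t : ℂ) * Complex.I) *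
      cexp (-(2 * Real.pi * (u * y) * t : ℝ) * Complex.I))
  have h5 : cexp (-(2 * Real.pi * u * (a + y * t) : ℝ) * Complex.I) =
      cexp (-(2 * Real.pi * u * a : ℝ) * Complex.I) *
        cexp (-(2 * Real.pi * (u * y) * t : ℝ) * Complex.I) := by
    rw [← Complex.exp_add]
    congr 1
    push_cast
    ring
  rw [h5]
  unfold bul_k
  ring

/-- the filter -/
theorem bul_filter {N Q : ℕ} (hN : 1 ≤ N) {y : ℝ} (hy : 0 < y) :
    (Finset.Icc 1 Q).filter (fun q : ℕ => 2 * rq N q < y) =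
      (Finset.Icc 1 Q).filter (fun q : ℕ => 2 / (y * Real.sqrt N) < q) := by
  refine Finset.filter_congr fun q hq => ?_
  have hq1 : (1 : ℝ) ≤ q := by exact_mod_cast (Finset.mem_Icc.mp hq).1
  have hs : 0 < Real.sqrt N := Real.sqrt_pos.mpr (by exact_mod_cast hN)
  unfold rq
  rw [mul_one_div, div_lt_iff₀ (by positivity), div_lt_iff₀ (by positivity)]
  constructor
  · intro h
    linarith [h, mul_comm y ((q : ℝ) * Real.sqrt N), mul_assoc (q : ℝ) (Real.sqrt N) y,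
      mul_comm y (Real.sqrt N), mul_left_comm (q : ℝ) y (Real.sqrt N)]
  · intro h
    linarith [h, mul_comm y ((q : ℝ) * Real.sqrt N), mul_assoc (q : ℝ) (Real.sqrt N) y,
      mul_comm y (Real.sqrt N), mul_left_comm (q : ℝ) y (Real.sqrt N)]

/-- the sum of the additive characters -/
theorem bul_char (q : ℕ) (hq : 1 ≤ q) (n : ℤ) :
    ∑ j ∈ RR q, cexp (-(2 * Real.pi * n * ((j : ℝ) / q) : ℝ) * Complex.I) =
      ((cc q n.natAbs : ℝ) : ℂ) := by
  have h := ram_sum q n.natAbs hq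
  rcases Int.natAbs_eq n with hn | hn
  · -- `n = |n|`
    have h2 := congrArg conj h
    rw [Complex.conj_ofReal, map_sum] at h2
    rw [← h2]
    refine Finset.sum_congr rfl fun j _ => ?_
    rw [← Complex.exp_conj]
    congr 1
    have hc : (n : ℝ) = (n.natAbs : ℝ) := by
      have : ((n : ℤ) : ℝ) = ((n.natAbs : ℤ) : ℝ) := by rw [← hn]
      simpa using this
    rw [hc]
    simp only [map_mul, Complex.conj_I, Complex.conj_ofReal, map_natCast, Complex.conj_ofNat]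
    push_cast
    ring
  · rw [← h]
    refine Finset.sum_congr rfl fun j _ => ?_
    congr 1
    have hc : (n : ℝ) = -(n.natAbs : ℝ) := by
      have : ((n : ℤ) : ℝ) = ((-(n.natAbs : ℤ) : ℤ) : ℝ) := by rw [← hn]
      simpa using this
    rw [hc]
    push_cast
    ring

/-- the Fourier transform of the kernel -/
theorem bul_ft {T : ℝ} {ρ : ℝ → ℝ} (hρ : Ker T ρ) {N Q : ℕ} (hN : 1 ≤ N) (w : ℕ → ℝ) {y : ℝ}
    (hy : 0 < y) (n : ℤ) :
    ∫ x : ℝ, cexp (-(2 * Real.pi * n * x : ℝ) * Complex.I) * ph N Q w ρ x y =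
      kh ρ (n * y) * ((TT Q w (2 / (y * Real.sqrt N)) n.natAbs : ℝ) : ℂ) := by
  have h1 : ∀ x : ℝ, cexp (-(2 * Real.pi * n * x : ℝ) * Complex.I) * ph N Q w ρ x y =
      ∑ q ∈ (Finset.Icc 1 Q).filter (fun q : ℕ => 2 * rq N q < y), ∑ j ∈ RR q,
        (w q : ℂ) * (cexp (-(2 * Real.pi * n * x : ℝ) * Complex.I) *
          bul_g ρ ((j : ℝ) / q) y x) := by
    intro x
    rw [bul_ph, Finset.mul_sum]
    refine Finset.sum_congr rfl fun q _ => ?_
    rw [mul_left_comm, Finset.mul_sum, Finset.mul_sum]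
  simp only [h1]
  rw [integral_finsetSum _ (fun q _ => integrable_finsetSum _ fun j _ =>
    (bul_g_int hρ _ hy n).const_mul _)]
  have h2 : ∀ q ∈ (Finset.Icc 1 Q).filter (fun q : ℕ => 2 * rq N q < y),
      ∫ x : ℝ, ∑ j ∈ RR q, (w q : ℂ) * (cexp (-(2 * Real.pi * n * x : ℝ) * Complex.I) *
          bul_g ρ ((j : ℝ) / q) y x) =
        kh ρ (n * y) * ((w q * cc q n.natAbs : ℝ) : ℂ) := by
    intro q hq
    have hq1 := (Finset.mem_Icc.mp (Finset.mem_filter.mp hq).1).1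
    rw [integral_finsetSum _ fun j _ => (bul_g_int hρ _ hy n).const_mul _]
    simp only [integral_const_mul]
    rw [← Finset.mul_sum]
    simp only [bul_g_ft _ hy]
    rw [← Finset.sum_mul, bul_char q hq1 n]
    push_cast
    ring
  rw [Finset.sum_congr rfl h2, ← Finset.mul_sum, bul_filter hN hy]
  unfold TT
  push_cast
  rfl

/-- the support -/
theorem bul_supp {T : ℝ} {ρ : ℝ → ℝ} (hρ : Ker T ρ) {N Q : ℕ} (hN : 1 ≤ N) (hQ1 : 1 ≤ Q)
    (hQ : 100 * T * Q ≤ Real.sqrt N) (w : ℕ → ℝ) {y : ℝ} (hy : 0 < y) (hy2 : y < 2 / Real.sqrt N)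
    {x : ℝ} (hx : ph N Q w ρ x y ≠ 0) : 0 < x ∧ x < 1 := by
  by_contra hcon
  apply hx
  rw [bul_ph]
  refine Finset.sum_eq_zero fun q hq => ?_
  rw [Finset.sum_eq_zero, mul_zero]
  intro j hj
  obtain ⟨hq, hq3⟩ := Finset.mem_filter.mp hq
  obtain ⟨hq1, hqQ⟩ := Finset.mem_Icc.mp hq
  have hs : 0 < Real.sqrt N := Real.sqrt_pos.mpr (by exact_mod_cast hN)
  have hT := hρ.T1
  have hqr : (1 : ℝ) ≤ q := by exact_mod_cast hq1
  have hqQr : (q : ℝ) ≤ Q := by exact_mod_cast hqQ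
  obtain ⟨hjq, hcop⟩ := Finset.mem_filter.mp hj
  rw [Finset.mem_range] at hjq
  have hq2 : 2 ≤ q := by
    by_contra h
    have hq' : q = 1 := by omega
    subst hq'
    unfold rq at hq3
    rw [Nat.cast_one, one_mul, mul_one_div] at hq3
    linarith
  have hj1 : 1 ≤ j := by
    rcases Nat.eq_zero_or_pos j with rfl | h
    · rw [Nat.coprime_zero_right] at hcop
      omega
    · exact h
  by_contra hne
  have h1 : |(x - (j : ℝ) / q) / y| ≤ T := by
    by_contra h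
    rw [not_le] at h
    apply hne
    unfold bul_g bul_k
    rw [hρ.supp _ h, Complex.ofReal_zero, zero_mul, mul_zero]
  rw [abs_div, abs_of_pos hy, div_le_iff₀ hy, abs_le] at h1
  have h2 : T * y < 1 / q := by
    have h3 : y * Real.sqrt N < 2 := by
      rw [lt_div_iff₀ hs] at hy2
      exact hy2
    have h4 : T * y * (100 * Q) < 2 := by
      calc T * y * (100 * Q) = y * (100 * T * Q) := by ring
        _ ≤ y * Real.sqrt N := mul_le_mul_of_nonneg_left hQ hy.le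
        _ < 2 := h3
    rw [lt_div_iff₀ (by linarith)]
    have h5 : T * y * q ≤ T * y * Q := mul_le_mul_of_nonneg_left hqQr (by positivity)
    nlinarith
  have hqpos : (0 : ℝ) < q := by linarith
  have hj1r : (1 : ℝ) ≤ j := by exact_mod_cast hj1
  have hjqr : (j : ℝ) + 1 ≤ q := by exact_mod_cast hjq
  have h6 : 1 / (q : ℝ) ≤ (j : ℝ) / q := div_le_div_of_nonneg_right hj1r hqpos.le
  have h7 : (j : ℝ) / q ≤ 1 - 1 / q := by
    rw [div_le_iff₀ hqpos, sub_mul, one_div_mul_cancel hqpos.ne']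
    linarith
  exact hcon ⟨by linarith [h1.1], by linarith [h1.2]⟩

theorem bul_cont {T : ℝ} {ρ : ℝ → ℝ} (hρ : Ker T ρ) (N Q : ℕ) (w : ℕ → ℝ) (y : ℝ) :
    Continuous (fun x : ℝ => ph N Q w ρ x y) := by
  simp only [bul_ph]
  refine continuous_finsetSum _ fun q _ => continuous_const.mul ?_
  exact continuous_finsetSum _ fun j _ => bul_g_cont hρ _ y

/-- the norm of the kernel at a given height -/
theorem ph_parseval_pr {T : ℝ} {ρ : ℝ → ℝ} (hρ : Ker T ρ) {N Q : ℕ} (hN : 1 ≤ N) (hQ1 : 1 ≤ Q)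
    (hQ : 100 * T * Q ≤ Real.sqrt N) (w : ℕ → ℝ) {y : ℝ} (hy : 0 < y) (hy2 : y < 2 / Real.sqrt N) :
    Summable (fun n : ℕ => (‖kh ρ ((n + 1) * y)‖ ^ 2 + ‖kh ρ (-((n + 1) * y))‖ ^ 2) *
      TT Q w (2 / (y * Real.sqrt N)) (n + 1) ^ 2) ∧
    Integrable (fun x : ℝ => ‖ph N Q w ρ x y‖ ^ 2) ∧
    ∫ x : ℝ, ‖ph N Q w ρ x y‖ ^ 2 = TT Q w (2 / (y * Real.sqrt N)) 0 ^ 2 +
      ∑' n : ℕ, (‖kh ρ ((n + 1) * y)‖ ^ 2 + ‖kh ρ (-((n + 1) * y))‖ ^ 2) *
        TT Q w (2 / (y * Real.sqrt N)) (n + 1) ^ 2 := by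
  set D : ℝ := 2 / (y * Real.sqrt N) with hD
  have hcont := bul_cont hρ N Q w y
  have hout : ∀ x : ℝ, x ∉ Set.Ioo (0 : ℝ) 1 → ph N Q w ρ x y = 0 := by
    intro x hx
    by_contra h
    exact hx (bul_supp hρ hN hQ1 hQ w hy hy2 h)
  have hcs : HasCompactSupport (fun x : ℝ => ph N Q w ρ x y) :=
    HasCompactSupport.intro (isCompact_Icc (a := (0 : ℝ)) (b := 1)) fun x hx =>
      hout x fun h => hx (Set.Ioo_subset_Icc_self h)
  have hint : Integrable (fun x : ℝ => ‖ph N Q w ρ x y‖ ^ 2) := by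
    refine Continuous.integrable_of_hasCompactSupport (hcont.norm.pow 2) ?_
    refine HasCompactSupport.intro (isCompact_Icc (a := (0 : ℝ)) (b := 1)) fun x hx => ?_
    rw [hout x fun h => hx (Set.Ioo_subset_Icc_self h)]
    simp
  have h01 : (0 : ℝ) < 1 := one_pos
  have hmem : MemLp (fun x : ℝ => ph N Q w ρ x y) 2 (volume.restrict (Set.Ioc (0 : ℝ) 1)) :=
    (hcont.memLp_of_hasCompactSupport hcs).restrict _
  have hP := hasSum_sq_fourierCoeffOn h01 hmem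
  have hcoef : ∀ n : ℤ, fourierCoeffOn h01 (fun x : ℝ => ph N Q w ρ x y) n =
      kh ρ (n * y) * ((TT Q w D n.natAbs : ℝ) : ℂ) := by
    intro n
    rw [fourierCoeffOn_eq_integral, ← bul_ft hρ hN w hy n]
    rw [intervalIntegral.integral_of_le h01.le]
    have h1 : ∫ x in Set.Ioc (0 : ℝ) 1, fourier (-n) (x : AddCircle (1 - 0 : ℝ)) •
        ph N Q w ρ x y = ∫ x : ℝ, cexp (-(2 * Real.pi * n * x : ℝ) * Complex.I) *
          ph N Q w ρ x y := by
      rw [← integral_indicator measurableSet_Ioc]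
      refine integral_congr_ae (ae_of_all _ fun x => ?_)
      show (Set.Ioc (0 : ℝ) 1).indicator (fun x : ℝ => fourier (-n) (x : AddCircle (1 - 0 : ℝ)) •
        ph N Q w ρ x y) x = cexp (-(2 * Real.pi * n * x : ℝ) * Complex.I) * ph N Q w ρ x y
      by_cases hx : x ∈ Set.Ioc (0 : ℝ) 1
      · rw [Set.indicator_of_mem hx, fourier_coe_apply, smul_eq_mul]
        congr 2
        push_cast
        ring
      · rw [Set.indicator_of_notMem hx, hout x fun h => hx (Set.Ioo_subset_Ioc_self h), mul_zero]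
    rw [h1]
    simp
  simp only [hcoef] at hP
  have hval : (1 - 0 : ℝ)⁻¹ • ∫ x in (0 : ℝ)..1, ‖ph N Q w ρ x y‖ ^ 2 =
      ∫ x : ℝ, ‖ph N Q w ρ x y‖ ^ 2 := by
    rw [sub_zero, inv_one, one_smul, intervalIntegral.integral_of_le h01.le,
      ← integral_indicator measurableSet_Ioc]
    refine integral_congr_ae (ae_of_all _ fun x => ?_)
    show (Set.Ioc (0 : ℝ) 1).indicator (fun x : ℝ => ‖ph N Q w ρ x y‖ ^ 2) x =
      ‖ph N Q w ρ x y‖ ^ 2
    by_cases hx : x ∈ Set.Ioc (0 : ℝ) 1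
    · rw [Set.indicator_of_mem hx]
    · rw [Set.indicator_of_notMem hx, hout x fun h => hx (Set.Ioo_subset_Ioc_self h)]
      simp
  rw [hval] at hP
  have h2 := hP.nat_add_neg
  have h3 := (hasSum_nat_add_iff' 1).mpr h2
  have h4 : ∀ n : ℕ, ‖kh ρ ((((n + 1 : ℕ) : ℤ) : ℝ) * y) *
        ((TT Q w D (((n + 1 : ℕ) : ℤ)).natAbs : ℝ) : ℂ)‖ ^ 2 +
      ‖kh ρ (((-((n + 1 : ℕ) : ℤ) : ℤ) : ℝ) * y) *
        ((TT Q w D (-((n + 1 : ℕ) : ℤ)).natAbs : ℝ) : ℂ)‖ ^ 2 =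
      (‖kh ρ ((n + 1) * y)‖ ^ 2 + ‖kh ρ (-((n + 1) * y))‖ ^ 2) * TT Q w D (n + 1) ^ 2 := by
    intro n
    have e1 : (((n + 1 : ℕ) : ℤ)).natAbs = n + 1 := Int.natAbs_natCast _
    have e2 : (-((n + 1 : ℕ) : ℤ)).natAbs = n + 1 := by rw [Int.natAbs_neg, e1]
    have e3 : ((((n + 1 : ℕ) : ℤ) : ℝ) * y) = (n + 1) * y := by push_cast; ring
    have e4 : (((-((n + 1 : ℕ) : ℤ) : ℤ) : ℝ) * y) = -((n + 1) * y) := by push_cast; ring
    rw [e1, e2, e3, e4, norm_mul, norm_mul, mul_pow, mul_pow, Complex.norm_real, Real.norm_eq_abs,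
      sq_abs]
    ring
  have h5 : HasSum (fun n : ℕ => (‖kh ρ ((n + 1) * y)‖ ^ 2 + ‖kh ρ (-((n + 1) * y))‖ ^ 2) *
      TT Q w D (n + 1) ^ 2) ((∫ x : ℝ, ‖ph N Q w ρ x y‖ ^ 2) - TT Q w D 0 ^ 2) := by
    have h6 := h3
    simp only [h4] at h6
    have e5 : ‖kh ρ (((0 : ℤ) : ℝ) * y) * ((TT Q w D (0 : ℤ).natAbs : ℝ) : ℂ)‖ ^ 2 =
        TT Q w D 0 ^ 2 := by
      rw [Int.cast_zero, zero_mul, (kh_zero_pr hρ).1, one_mul, Int.natAbs_zero, Complex.norm_real,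
        Real.norm_eq_abs, sq_abs]
    have e6 : ∑ i ∈ Finset.range 1,
        (‖kh ρ ((((i : ℕ) : ℤ) : ℝ) * y) * ((TT Q w D ((i : ℕ) : ℤ).natAbs : ℝ) : ℂ)‖ ^ 2 +
          ‖kh ρ (((-((i : ℕ) : ℤ) : ℤ) : ℝ) * y) *
            ((TT Q w D (-((i : ℕ) : ℤ)).natAbs : ℝ) : ℂ)‖ ^ 2) = 2 * TT Q w D 0 ^ 2 := by
      rw [Finset.sum_range_one, Nat.cast_zero, neg_zero, e5]
      ring
    rw [e5, e6] at h6
    have e7 : (∫ x : ℝ, ‖ph N Q w ρ x y‖ ^ 2) + TT Q w D 0 ^ 2 - 2 * TT Q w D 0 ^ 2 =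
        (∫ x : ℝ, ‖ph N Q w ρ x y‖ ^ 2) - TT Q w D 0 ^ 2 := by ring
    rw [e7] at h6
    exact h6
  refine ⟨h5.summable, hint, ?_⟩
  rw [h5.tsum_eq]
  ring

theorem kh_zero : type_of% @kh_zero_pr := @kh_zero_pr
theorem ph_parseval : type_of% @ph_parseval_pr := @ph_parseval_pr

end Pool.Agent.KSL
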