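import Pool.Agent.Lib_helper68.KSL.Defs
import Pool.Agent.Lib_helper68.KSLF.PHI
import Pool.Agent.Lib_helper68.KSLF.SRO
import Pool.Agent.Lib_helper68.KSLF.SZF
import Pool.Agent.Lib_helper68.KSLF.WRQ
import Pool.Agent.Lib_helper68.KSLF.WWF

/-! KSL block HGN: high_gen -/

namespace Pool.Agent.KSL

open Pool.Agent.LEV Pool.Agent.LVB
open Pool.Agent.FG61 (mu phi cc ff AA Lam)
open Complex MeasureTheory Filter Topology UpperHalfPlane ModularGroup ProbabilityTheory
open scoped MatrixGroups Modular ENNReal ModularForm ComplexConjugate ContDiff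

/-- finite Abel summation against an antitone weight -/
theorem HGN_abel {a B G : ℕ → ℝ} (hG : ∀ r, 1 ≤ r → G (r + 1) ≤ G r)
    (hS : ∀ X, ∑ r ∈ Finset.range X, a (r + 1) ≤ B X) (hG0 : ∀ r, 0 ≤ G r) (X : ℕ) :
    ∑ r ∈ Finset.range X, a (r + 1) * G (r + 1) ≤
      B 0 * G 1 + ∑ r ∈ Finset.range X, (B (r + 1) - B r) * G (r + 1) := by
  have key : ∀ X : ℕ, ∑ r ∈ Finset.range X, a (r + 1) * G (r + 1) ≤
      B 0 * G 1 + ∑ r ∈ Finset.range X, (B (r + 1) - B r) * G (r + 1) -
        (B X - ∑ r ∈ Finset.range X, a (r + 1)) * G (X + 1) := by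
    intro X
    induction X with
    | zero => simp
    | succ X ih =>
      rw [Finset.sum_range_succ, Finset.sum_range_succ (f := fun r => (B (r + 1) - B r) * G (r + 1))]
      have h1 := hS (X + 1)
      rw [Finset.sum_range_succ] at h1
      have h2 := hG (X + 1) (Nat.le_add_left 1 X)
      rw [Finset.sum_range_succ (f := fun r => a (r + 1))]
      have h3 : 0 ≤ (B (X + 1) - (∑ r ∈ Finset.range X, a (r + 1) + a (X + 1))) *
          (G (X + 1) - G (X + 1 + 1)) :=
        mul_nonneg (by linarith) (by linarith)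
      nlinarith [h3, ih]
  have h := key X
  have h4 : 0 ≤ (B X - ∑ r ∈ Finset.range X, a (r + 1)) * G (X + 1) :=
    mul_nonneg (by linarith [hS X]) (hG0 _)
  linarith

theorem HGN_logstep {M : ℕ} (hM : 1 ≤ M) : 1 / ((M : ℝ) + 1) ≤ Real.log (M + 1) - Real.log M ∧
    Real.log (M + 1) - Real.log M ≤ 1 := by
  have hM0 : (0 : ℝ) < M := by exact_mod_cast hM
  have hM1 : (1 : ℝ) ≤ M := by exact_mod_cast hM
  constructor
  · have h := Real.log_le_sub_one_of_pos (x := (M : ℝ) / (M + 1)) (by positivity)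
    rw [Real.log_div (by positivity) (by positivity)] at h
    have h2 : (M : ℝ) / (M + 1) - 1 = - (1 / (M + 1)) := by field_simp; ring
    linarith
  · have h := Real.log_le_sub_one_of_pos (x := ((M : ℝ) + 1) / M) (by positivity)
    rw [Real.log_div (by positivity) (by positivity)] at h
    have h2 : ((M : ℝ) + 1) / M - 1 = 1 / M := by field_simp; ring
    have h3 : 1 / (M : ℝ) ≤ 1 := by rw [div_le_one hM0]; exact hM1
    linarith

theorem HGN_logsum {M : ℕ} (hM : 1 ≤ M) :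
    ∑ r ∈ Finset.range M, Real.log (r + 1) / (r + 1) ≤
      Real.log M ^ 2 / 2 + Real.log M := by
  induction M, hM using Nat.le_induction with
  | base => simp
  | succ M hM ih =>
    rw [Finset.sum_range_succ]
    obtain ⟨h1, h2⟩ := HGN_logstep hM
    have hx : 0 ≤ Real.log M := Real.log_natCast_nonneg M
    have h3 : Real.log (M + 1) / ((M : ℝ) + 1) ≤
        Real.log (M + 1) * (Real.log (M + 1) - Real.log M) := by
      rw [div_eq_mul_one_div]
      refine mul_le_mul_of_nonneg_left h1 ?_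
      have : (0 : ℝ) ≤ M := Nat.cast_nonneg _
      exact Real.log_nonneg (by linarith)
    have h0 : 0 ≤ 1 / ((M : ℝ) + 1) := by positivity
    push_cast
    nlinarith [mul_nonneg (le_trans h0 h1) (sub_nonneg.2 h2)]

theorem HGN_harm {M : ℕ} (hM : 1 ≤ M) :
    ∑ r ∈ Finset.range M, 1 / ((r : ℝ) + 1) ≤ 1 + Real.log M := by
  induction M, hM using Nat.le_induction with
  | base => simp
  | succ M hM ih =>
    rw [Finset.sum_range_succ]
    obtain ⟨h1, h2⟩ := HGN_logstep hM
    push_cast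
    linarith

theorem HGN_harm2 {M R : ℕ} (hM : 1 ≤ M) (hR : M ≤ R) :
    ∑ r ∈ Finset.Ico M R, 1 / ((r : ℝ) + 1) ≤ Real.log R - Real.log M := by
  induction R, hR using Nat.le_induction with
  | base => simp
  | succ R hR ih =>
    rw [Finset.sum_Ico_succ_top hR]
    obtain ⟨h1, h2⟩ := HGN_logstep (hM.trans hR)
    push_cast
    linarith

theorem HGN_cub {R X : ℕ} (hR : 1 ≤ R) (hX : R ≤ X) :
    ∑ r ∈ Finset.Ico R X, 1 / ((r : ℝ) + 1) ^ 3 ≤ 1 / (2 * (R : ℝ) ^ 2) - 1 / (2 * (X : ℝ) ^ 2) := by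
  induction X, hX using Nat.le_induction with
  | base => simp
  | succ X hX ih =>
    rw [Finset.sum_Ico_succ_top hX]
    have hX0 : (0 : ℝ) < X := by exact_mod_cast (lt_of_lt_of_le Nat.zero_lt_one (hR.trans hX))
    have h : 1 / ((X : ℝ) + 1) ^ 3 ≤ 1 / (2 * (X : ℝ) ^ 2) - 1 / (2 * ((X : ℝ) + 1) ^ 2) := by
      rw [div_sub_div _ _ (by positivity) (by positivity), div_le_div_iff₀ (by positivity) (by positivity)]
      have : 0 ≤ (X : ℝ) ^ 3 * (3 * X + 1) := by positivity
      nlinarith [pow_pos hX0 2, pow_pos hX0 3, pow_pos hX0 4, pow_pos hX0 5, this]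
    push_cast
    linarith

theorem HGN_gsum {M R X : ℕ} (hM : 1 ≤ M) (hMR : M ≤ R) {K et : ℝ} (het : 0 ≤ et) (hK0 : 0 ≤ K)
    (hK : K ≤ 4 * (R : ℝ) ^ 2) :
    ∑ r ∈ Finset.range X, (Real.log (min ((r : ℝ) + 1) M) + 1 + et * Real.log M) *
        min (1 / ((r : ℝ) + 1)) (K / ((r : ℝ) + 1) ^ 3) ≤
      Real.log M ^ 2 / 2 + Real.log M + (1 + et * Real.log M) * (1 + Real.log M) +
        (Real.log M + 1 + et * Real.log M) * (Real.log R - Real.log M + 2) := by
  set L := Real.log M with hL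
  have hL0 : 0 ≤ L := Real.log_natCast_nonneg M
  have hM0 : (0 : ℝ) < M := by exact_mod_cast hM
  have hM1 : (1 : ℝ) ≤ M := by exact_mod_cast hM
  have hR1 : (1 : ℝ) ≤ R := by exact_mod_cast (hM.trans hMR)
  have hetL : 0 ≤ et * L := mul_nonneg het hL0
  have hlog0 : ∀ r : ℕ, 0 ≤ Real.log (min ((r : ℝ) + 1) M) := fun r => by
    have : (0 : ℝ) ≤ r := Nat.cast_nonneg _
    exact Real.log_nonneg (le_min (by linarith) hM1)
  have hterm0 : ∀ r : ℕ, 0 ≤ (Real.log (min ((r : ℝ) + 1) M) + 1 + et * L) *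
        min (1 / ((r : ℝ) + 1)) (K / ((r : ℝ) + 1) ^ 3) := fun r => by
    refine mul_nonneg (by linarith [hlog0 r]) (le_min (by positivity) (by positivity))
  have h1 : ∑ r ∈ Finset.range X, (Real.log (min ((r : ℝ) + 1) M) + 1 + et * L) *
        min (1 / ((r : ℝ) + 1)) (K / ((r : ℝ) + 1) ^ 3) ≤
      ∑ r ∈ Finset.range (max X R), (Real.log (min ((r : ℝ) + 1) M) + 1 + et * L) *
        min (1 / ((r : ℝ) + 1)) (K / ((r : ℝ) + 1) ^ 3) := by
    refine Finset.sum_le_sum_of_subset_of_nonneg ?_ (fun r _ _ => hterm0 r)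
    exact Finset.range_mono (le_max_left _ _)
  have hsplit : ∑ r ∈ Finset.range (max X R), (Real.log (min ((r : ℝ) + 1) M) + 1 + et * L) *
        min (1 / ((r : ℝ) + 1)) (K / ((r : ℝ) + 1) ^ 3) =
      ∑ r ∈ Finset.range M, (Real.log (min ((r : ℝ) + 1) M) + 1 + et * L) *
        min (1 / ((r : ℝ) + 1)) (K / ((r : ℝ) + 1) ^ 3) +
      ∑ r ∈ Finset.Ico M R, (Real.log (min ((r : ℝ) + 1) M) + 1 + et * L) *
        min (1 / ((r : ℝ) + 1)) (K / ((r : ℝ) + 1) ^ 3) +
      ∑ r ∈ Finset.Ico R (max X R), (Real.log (min ((r : ℝ) + 1) M) + 1 + et * L) *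
        min (1 / ((r : ℝ) + 1)) (K / ((r : ℝ) + 1) ^ 3) := by
    rw [Finset.range_eq_Ico, Finset.range_eq_Ico, Finset.sum_Ico_consecutive _ (Nat.zero_le _) hMR,
      Finset.sum_Ico_consecutive _ (Nat.zero_le _) (le_max_right _ _)]
  have hA : ∑ r ∈ Finset.range M, (Real.log (min ((r : ℝ) + 1) M) + 1 + et * L) *
        min (1 / ((r : ℝ) + 1)) (K / ((r : ℝ) + 1) ^ 3) ≤
      L ^ 2 / 2 + L + (1 + et * L) * (1 + L) := by
    calc _ ≤ ∑ r ∈ Finset.range M, (Real.log (r + 1) / (r + 1) +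
          (1 + et * L) * (1 / ((r : ℝ) + 1))) := by
          refine Finset.sum_le_sum fun r _ => ?_
          have hr : (0 : ℝ) ≤ r := Nat.cast_nonneg _
          have h2 : Real.log (min ((r : ℝ) + 1) M) ≤ Real.log (r + 1) :=
            Real.log_le_log (lt_min (by linarith) hM0) (min_le_left _ _)
          calc _ ≤ (Real.log (r + 1) + 1 + et * L) * (1 / ((r : ℝ) + 1)) := by
                refine mul_le_mul (by linarith) (min_le_left _ _)
                  (le_min (by positivity) (by positivity)) ?_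
                linarith [hlog0 r]
            _ = _ := by ring
      _ = ∑ r ∈ Finset.range M, Real.log (r + 1) / (r + 1) +
          (1 + et * L) * ∑ r ∈ Finset.range M, 1 / ((r : ℝ) + 1) := by
          rw [Finset.sum_add_distrib, Finset.mul_sum]
      _ ≤ (L ^ 2 / 2 + L) + (1 + et * L) * (1 + L) :=
          add_le_add (HGN_logsum hM) (mul_le_mul_of_nonneg_left (HGN_harm hM) (by linarith))
  have hB : ∑ r ∈ Finset.Ico M R, (Real.log (min ((r : ℝ) + 1) M) + 1 + et * L) *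
        min (1 / ((r : ℝ) + 1)) (K / ((r : ℝ) + 1) ^ 3) ≤
      (L + 1 + et * L) * (Real.log R - L) := by
    calc _ ≤ ∑ r ∈ Finset.Ico M R, (L + 1 + et * L) * (1 / ((r : ℝ) + 1)) := by
          refine Finset.sum_le_sum fun r _ => ?_
          have hr : (0 : ℝ) ≤ r := Nat.cast_nonneg _
          have h2 : Real.log (min ((r : ℝ) + 1) M) ≤ L :=
            Real.log_le_log (lt_min (by linarith) hM0) (min_le_right _ _)
          refine mul_le_mul (by linarith) (min_le_left _ _)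
            (le_min (by positivity) (by positivity)) (by linarith)
      _ = (L + 1 + et * L) * ∑ r ∈ Finset.Ico M R, 1 / ((r : ℝ) + 1) := by rw [Finset.mul_sum]
      _ ≤ _ := mul_le_mul_of_nonneg_left (HGN_harm2 hM hMR) (by linarith)
  have hC : ∑ r ∈ Finset.Ico R (max X R), (Real.log (min ((r : ℝ) + 1) M) + 1 + et * L) *
        min (1 / ((r : ℝ) + 1)) (K / ((r : ℝ) + 1) ^ 3) ≤
      (L + 1 + et * L) * 2 := by
    calc _ ≤ ∑ r ∈ Finset.Ico R (max X R), (L + 1 + et * L) * (K * (1 / ((r : ℝ) + 1) ^ 3)) := by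
          refine Finset.sum_le_sum fun r _ => ?_
          have hr : (0 : ℝ) ≤ r := Nat.cast_nonneg _
          have h2 : Real.log (min ((r : ℝ) + 1) M) ≤ L :=
            Real.log_le_log (lt_min (by linarith) hM0) (min_le_right _ _)
          refine mul_le_mul (by linarith) ((min_le_right _ _).trans (le_of_eq (by ring)))
            (le_min (by positivity) (by positivity)) (by linarith)
      _ = (L + 1 + et * L) * (K * ∑ r ∈ Finset.Ico R (max X R), 1 / ((r : ℝ) + 1) ^ 3) := by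
          rw [← Finset.mul_sum, ← Finset.mul_sum]
      _ ≤ _ := by
          refine mul_le_mul_of_nonneg_left ?_ (by linarith)
          have h3 := HGN_cub (hM.trans hMR) (le_max_right X R)
          have h4 : ∑ r ∈ Finset.Ico R (max X R), 1 / ((r : ℝ) + 1) ^ 3 ≤ 1 / (2 * (R : ℝ) ^ 2) :=
            h3.trans (by have : 0 ≤ 1 / (2 * ((max X R : ℕ) : ℝ) ^ 2) := by positivity
                         linarith)
          calc _ ≤ 4 * (R : ℝ) ^ 2 * (1 / (2 * (R : ℝ) ^ 2)) := by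
                refine mul_le_mul hK h4 (Finset.sum_nonneg fun r _ => by positivity) (by positivity)
            _ = 2 := by field_simp; norm_num
  have e : (L + 1 + et * L) * (Real.log R - L + 2) =
    (L + 1 + et * L) * (Real.log R - L) + (L + 1 + et * L) * 2 := by ring
  linarith

theorem HGN_Bincr {M : ℕ} (hM : 1 ≤ M) {et : ℝ} (hL : 0 < Real.log M) (r : ℕ) :
    (((r + 1 : ℕ) : ℝ) * (Real.log (min ((r + 1 : ℕ) : ℝ) M) + et * Real.log M) /
        Real.log M ^ 2) - (r : ℝ) * (Real.log (min (r : ℝ) M) + et * Real.log M) /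
        Real.log M ^ 2 ≤
      (Real.log (min ((r : ℝ) + 1) M) + 1 + et * Real.log M) / Real.log M ^ 2 := by
  rw [← sub_div]
  refine div_le_div_of_nonneg_right ?_ (by positivity)
  have hM0 : (0 : ℝ) < M := by exact_mod_cast hM
  push_cast
  rcases Nat.lt_or_ge r M with h | h
  · have h1 : ((r : ℝ) + 1) ≤ M := by exact_mod_cast h
    have h2 : (r : ℝ) ≤ M := by linarith
    rw [min_eq_left h1, min_eq_left h2]
    rcases Nat.eq_zero_or_pos r with h0 | h0
    · subst h0; simp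
    · obtain ⟨h3, h4⟩ := HGN_logstep h0
      have hr0 : (0 : ℝ) < r := by exact_mod_cast h0
      have h5 : (r : ℝ) * (Real.log (r + 1) - Real.log r) ≤ 1 := by
        have h6 := Real.log_le_sub_one_of_pos (x := ((r : ℝ) + 1) / r) (by positivity)
        rw [Real.log_div (by positivity) (by positivity)] at h6
        have h7 : ((r : ℝ) + 1) / r - 1 = 1 / r := by field_simp; ring
        rw [h7] at h6
        calc (r : ℝ) * (Real.log (r + 1) - Real.log r) ≤ r * (1 / r) :=
              mul_le_mul_of_nonneg_left h6 hr0.le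
          _ = 1 := by field_simp
      nlinarith [h5]
  · have h1 : (M : ℝ) ≤ r := by exact_mod_cast h
    have h2 : (M : ℝ) ≤ (r : ℝ) + 1 := by linarith
    rw [min_eq_right h1, min_eq_right h2]
    nlinarith [hL]

theorem HGN_Ganti {K : ℝ} (hK0 : 0 ≤ K) {r : ℕ} (hr : 1 ≤ r) :
    min (1 / ((r + 1 : ℕ) : ℝ)) (K / ((r + 1 : ℕ) : ℝ) ^ 3) ≤
      min (1 / (r : ℝ)) (K / (r : ℝ) ^ 3) := by
  have hr0 : (0 : ℝ) < r := by exact_mod_cast hr
  have h1 : (r : ℝ) ≤ ((r + 1 : ℕ) : ℝ) := by push_cast; linarith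
  refine min_le_min ?_ ?_
  · exact one_div_le_one_div_of_le hr0 h1
  · exact div_le_div_of_nonneg_left hK0 (by positivity) (pow_le_pow_left₀ hr0.le h1 3)

open Classical in
theorem HGN_icc (X : ℕ) (F : ℕ → ℝ) (p : ℕ → Prop) :
    ∑ r ∈ (Finset.Icc 1 X).filter p, F r =
      ∑ i ∈ Finset.range X, if p (i + 1) then F (i + 1) else 0 := by
  rw [Finset.sum_filter]
  have : Finset.Icc 1 X = Finset.Ico 1 (X + 1) := by ext n; simp
  rw [this, Finset.sum_Ico_eq_sum_range]
  simp only [Nat.add_sub_cancel]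
  refine Finset.sum_congr rfl fun i _ => ?_
  rw [add_comm 1 i]

open Classical in
theorem HGN_filt (Y z : ℕ) (F : ℕ → ℝ) :
    ∑ r ∈ (Finset.Icc 2 Y).filter (fun r => rough z r), F r =
      ∑ i ∈ Finset.range Y, if rough z (i + 1) ∧ 2 ≤ i + 1 then F (i + 1) else 0 := by
  refine Eq.trans ?_ ((HGN_icc Y F (fun r => rough z r ∧ 2 ≤ r)).trans
    (Finset.sum_congr rfl fun _ _ => by congr))
  refine Finset.sum_congr ?_ fun _ _ => rfl
  ext n
  simp only [Finset.mem_filter, Finset.mem_Icc]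
  constructor
  · rintro ⟨⟨h1, h2⟩, h3⟩; exact ⟨⟨by omega, h2⟩, h3, h1⟩
  · rintro ⟨⟨h1, h2⟩, h3, h4⟩; exact ⟨⟨h4, h2⟩, h3⟩

open Classical in
theorem HGN_inner {z M R X m : ℕ} (hM : 2 ≤ M) (hMR : M ≤ R) {K et : ℝ} (het : 0 ≤ et)
    (hK0 : 0 ≤ K) (hK : K ≤ 4 * (R : ℝ) ^ 2)
    (hsq : ∀ Y : ℕ, ∑ r ∈ (Finset.Icc 2 Y).filter (fun r => rough z r), Wr z M 2 r ^ 2 ≤
        Y * (Real.log (min (Y : ℝ) M) + et * Real.log M) / Real.log M ^ 2)
    {h : ℕ → ℝ} (hh : ∀ n, 0 ≤ h n ∧ h n ≤ 1 ∧ h n * n ^ 2 ≤ K) (hm : 1 ≤ m) :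
    ∑ r ∈ (Finset.Icc 1 X).filter (fun r => rough z r), Wr z M 2 r ^ 2 * h (m * r) / r ≤
      1 + (Real.log M ^ 2 / 2 + Real.log M + (1 + et * Real.log M) * (1 + Real.log M) +
        (Real.log M + 1 + et * Real.log M) * (Real.log R - Real.log M + 2)) /
          Real.log M ^ 2 := by
  have hL : 0 < Real.log M := Real.log_pos (by exact_mod_cast hM)
  set a : ℕ → ℝ := fun r => if rough z r ∧ 2 ≤ r then Wr z M 2 r ^ 2 else 0 with ha
  set B : ℕ → ℝ := fun Y => (Y : ℝ) * (Real.log (min (Y : ℝ) M) + et * Real.log M) /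
    Real.log M ^ 2 with hB
  set G : ℕ → ℝ := fun r => min (1 / (r : ℝ)) (K / (r : ℝ) ^ 3) with hG
  have hS : ∀ Y, ∑ r ∈ Finset.range Y, a (r + 1) ≤ B Y := by
    intro Y
    refine le_trans (le_of_eq ?_) (hsq Y)
    rw [← HGN_filt Y z (fun r => Wr z M 2 r ^ 2)]
  have hG0 : ∀ r, 0 ≤ G r := fun r => le_min (by positivity) (by positivity)
  have hab := HGN_abel (a := a) (B := B) (G := G) (fun r hr => HGN_Ganti hK0 hr) hS hG0 X
  have hB0 : B 0 = 0 := by simp [hB]
  rw [hB0, zero_mul, zero_add] at hab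
  have h2 : ∑ r ∈ Finset.range X, (B (r + 1) - B r) * G (r + 1) ≤
      (Real.log M ^ 2 / 2 + Real.log M + (1 + et * Real.log M) * (1 + Real.log M) +
        (Real.log M + 1 + et * Real.log M) * (Real.log R - Real.log M + 2)) /
          Real.log M ^ 2 := by
    calc _ ≤ ∑ r ∈ Finset.range X, ((Real.log (min ((r : ℝ) + 1) M) + 1 + et * Real.log M) *
          min (1 / ((r : ℝ) + 1)) (K / ((r : ℝ) + 1) ^ 3)) / Real.log M ^ 2 := by
          refine Finset.sum_le_sum fun r _ => ?_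
          have h3 := HGN_Bincr (M := M) (by omega) (et := et) hL r
          calc _ ≤ (Real.log (min ((r : ℝ) + 1) M) + 1 + et * Real.log M) / Real.log M ^ 2 *
                G (r + 1) := mul_le_mul_of_nonneg_right h3 (hG0 _)
            _ = _ := by simp only [hG]; push_cast; ring
      _ = (∑ r ∈ Finset.range X, (Real.log (min ((r : ℝ) + 1) M) + 1 + et * Real.log M) *
          min (1 / ((r : ℝ) + 1)) (K / ((r : ℝ) + 1) ^ 3)) / Real.log M ^ 2 := by
          rw [Finset.sum_div]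
      _ ≤ _ := div_le_div_of_nonneg_right (HGN_gsum (by omega) hMR het hK0 hK) (by positivity)
  have h3 : ∑ r ∈ (Finset.Icc 1 X).filter (fun r => rough z r), Wr z M 2 r ^ 2 * h (m * r) / r ≤
      1 + ∑ r ∈ Finset.range X, a (r + 1) * G (r + 1) := by
    rw [HGN_icc]
    have h4 : ∀ i : ℕ, (if rough z (i + 1) then
        Wr z M 2 (i + 1) ^ 2 * h (m * (i + 1)) / ((i + 1 : ℕ) : ℝ) else 0) ≤
        (if i = 0 then 1 else 0) + a (i + 1) * G (i + 1) := by
      intro i
      by_cases hi : i = 0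
      · subst hi
        have h5 : a (0 + 1) = 0 := by simp [ha]
        rw [h5]
        simp only [if_true, zero_mul, add_zero, zero_add, mul_one]
        split_ifs with h6
        · rw [wr_one hM]
          simp only [one_pow, one_mul, Nat.cast_one, div_one]
          exact (hh m).2.1
        · norm_num
      · simp only [hi, if_false, zero_add]
        by_cases h6 : rough z (i + 1)
        · have h7 : a (i + 1) = Wr z M 2 (i + 1) ^ 2 := by
            simp only [ha]; rw [if_pos ⟨h6, by omega⟩]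
          rw [if_pos h6, h7, mul_div_assoc]
          refine mul_le_mul_of_nonneg_left ?_ (sq_nonneg _)
          obtain ⟨g1, g2, g3⟩ := hh (m * (i + 1))
          have hi0 : (0 : ℝ) < ((i + 1 : ℕ) : ℝ) := by positivity
          refine le_min (div_le_div_of_nonneg_right g2 hi0.le) ?_
          rw [div_le_div_iff₀ hi0 (by positivity)]
          have hm1 : (1 : ℝ) ≤ m := by exact_mod_cast hm
          have g4 : h (m * (i + 1)) * ((i + 1 : ℕ) : ℝ) ^ 2 ≤ K := by
            refine le_trans ?_ g3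
            refine mul_le_mul_of_nonneg_left ?_ g1
            refine pow_le_pow_left₀ hi0.le ?_ 2
            push_cast
            have : (0 : ℝ) ≤ i := Nat.cast_nonneg _
            nlinarith
          calc h (m * (i + 1)) * ((i + 1 : ℕ) : ℝ) ^ 3
              = (h (m * (i + 1)) * ((i + 1 : ℕ) : ℝ) ^ 2) * ((i + 1 : ℕ) : ℝ) := by ring
            _ ≤ K * ((i + 1 : ℕ) : ℝ) := mul_le_mul_of_nonneg_right g4 hi0.le
        · rw [if_neg h6]
          refine mul_nonneg ?_ (hG0 _)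
          simp only [ha]; split_ifs <;> positivity
    calc _ ≤ ∑ i ∈ Finset.range X, ((if i = 0 then (1 : ℝ) else 0) + a (i + 1) * G (i + 1)) :=
          Finset.sum_le_sum fun i _ => h4 i
      _ = ∑ i ∈ Finset.range X, (if i = 0 then (1 : ℝ) else 0) +
          ∑ i ∈ Finset.range X, a (i + 1) * G (i + 1) := Finset.sum_add_distrib
      _ ≤ _ := by
          refine add_le_add ?_ le_rfl
          rw [Finset.sum_ite_eq']
          split_ifs <;> norm_num
  linarith

theorem HGN_num {δ et L lN c lR : ℝ} (h0 : 0 < δ) (h1 : δ < 1 / 4) (he0 : 0 < et)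
    (he1 : et ≤ 1) (hL : 1 / et ≤ L) (hc : 0 ≤ c) (hlN : |L - (1 / 2 - δ) * lN| ≤ et)
    (hR : lR ≤ lN / 2 + c) (hR0 : L ≤ lR) :
    1 + (L ^ 2 / 2 + L + (1 + et * L) * (1 + L) + (L + 1 + et * L) * (lR - L + 2)) / L ^ 2 ≤
      1 / 2 + 1 / (1 - 2 * δ) + (3 * c + 19) * et := by
  have hL0 : 0 < L := lt_of_lt_of_le (by positivity) hL
  set t := 1 / L with ht
  have ht0 : 0 < t := by positivity
  have hte : t ≤ et := by
    rw [ht, div_le_iff₀ hL0]
    rw [div_le_iff₀ he0] at hL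
    linarith
  have htL : t * L = 1 := by rw [ht]; field_simp
  have e1 : (L ^ 2 / 2 + L + (1 + et * L) * (1 + L) + (L + 1 + et * L) * (lR - L + 2)) / L ^ 2 =
      1 / 2 + t + (t + et) * (t + 1) + (1 + t + et) * ((lR - L + 2) * t) := by
    rw [ht]; field_simp
  rw [e1]
  have hd : (0 : ℝ) < 1 - 2 * δ := by linarith
  have hd2 : 1 / (1 - 2 * δ) ≤ 2 := by
    rw [div_le_iff₀ hd]; linarith
  have hlN2 : lN / 2 ≤ (L + et) / (1 - 2 * δ) := by
    rw [le_div_iff₀ hd]
    have := (abs_le.1 hlN).1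
    linarith
  have hq : (lR - L + 2) * t ≤ 1 / (1 - 2 * δ) - 1 + (c + 4) * et := by
    have g1 : lR - L + 2 ≤ (L + et) / (1 - 2 * δ) + c - L + 2 := by linarith
    calc (lR - L + 2) * t ≤ ((L + et) / (1 - 2 * δ) + c - L + 2) * t :=
          mul_le_mul_of_nonneg_right g1 ht0.le
      _ = 1 / (1 - 2 * δ) * (t * L) - t * L + (et * (1 / (1 - 2 * δ)) + c + 2) * t := by ring
      _ = 1 / (1 - 2 * δ) - 1 + (et * (1 / (1 - 2 * δ)) + c + 2) * t := by rw [htL]; ring
      _ ≤ 1 / (1 - 2 * δ) - 1 + (c + 4) * et := by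
          have g2 : et * (1 / (1 - 2 * δ)) ≤ 2 := by
            calc et * (1 / (1 - 2 * δ)) ≤ 1 * 2 :=
                  mul_le_mul he1 hd2 (by positivity) (by norm_num)
              _ = 2 := by norm_num
          have g3 : (et * (1 / (1 - 2 * δ)) + c + 2) * t ≤ (c + 4) * et :=
            mul_le_mul (by linarith) hte ht0.le (by linarith)
          linarith
  have hq0 : 0 ≤ (lR - L + 2) * t := mul_nonneg (by linarith) ht0.le
  set q := (lR - L + 2) * t with hqd
  have hq5 : q ≤ c + 5 := by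
    have : (c + 4) * et ≤ c + 4 := by nlinarith
    linarith
  have g4 : (t + et) * (t + 1) ≤ (2 * et) * 2 :=
    mul_le_mul (by linarith) (by linarith) (by linarith) (by linarith)
  have g5 : (t + et) * q ≤ (2 * et) * (c + 5) :=
    mul_le_mul (by linarith) hq5 hq0 (by linarith)
  nlinarith [g4, g5, hq, hte]

open Classical in
theorem HGN_split {z X : ℕ} {F : ℕ → ℕ → ℝ} (hF : ∀ m r, 0 ≤ F m r) :
    ∑ n ∈ Finset.Icc 1 X, F (smp z n) (rop z n) ≤
      ∑ m ∈ (Finset.Icc 1 X).filter (fun m => smooth z m),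
        ∑ r ∈ (Finset.Icc 1 X).filter (fun r => rough z r), F m r := by
  rw [← Finset.sum_product']
  have hinj : Set.InjOn (fun n => (smp z n, rop z n)) (Finset.Icc 1 X : Finset ℕ) := by
    intro n hn n' hn' he
    rw [Finset.coe_Icc, Set.mem_Icc] at hn hn'
    simp only [Prod.mk.injEq] at he
    rw [← (smp_rop (z := z) hn.1).1, ← (smp_rop (z := z) hn'.1).1, he.1, he.2]
  rw [← Finset.sum_image (f := fun p : ℕ × ℕ => F p.1 p.2) hinj]
  refine Finset.sum_le_sum_of_subset_of_nonneg ?_ fun p _ _ => hF _ _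
  intro p hp
  rw [Finset.mem_image] at hp
  obtain ⟨n, hn, rfl⟩ := hp
  rw [Finset.mem_Icc] at hn
  obtain ⟨g1, g2, g3, g4, g5⟩ := smp_rop (z := z) hn.1
  have g6 : 1 ≤ smp z n := by
    rcases Nat.eq_zero_or_pos (smp z n) with h | h
    · rw [h, zero_mul] at g1; omega
    · exact h
  simp only [Finset.mem_product, Finset.mem_filter, Finset.mem_Icc]
  refine ⟨⟨⟨g6, ?_⟩, g3⟩, ⟨⟨g5, ?_⟩, g4⟩⟩
  · calc smp z n ≤ smp z n * rop z n := Nat.le_mul_of_pos_right _ g5
      _ = n := g1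
      _ ≤ X := hn.2
  · calc rop z n ≤ smp z n * rop z n := Nat.le_mul_of_pos_left _ g6
      _ = n := g1
      _ ≤ X := hn.2

open Classical in
theorem high_gen_pr {δ : ℝ} (h0 : 0 < δ) (h1 : δ < 1 / 4) {ε : ℝ} (hε : 0 < ε) (C₀ C₁ : ℝ) :
    ∃ N₀ : ℕ, ∀ N : ℕ, N₀ ≤ N → ∀ (A : ℕ) (a : ℕ → ℝ),
      (∀ k, a k ≠ 0 → smooth (zz N) k ∧ k ≤ A) → cn (zz N) A a ≤ C₀ →
      ∀ h : ℕ → ℝ, (∀ n, 0 ≤ h n ∧ h n ≤ 1 ∧ h n * n ^ 2 ≤ C₁ * N) →
        Summable (fun n : ℕ =>
          WW (QA (MM δ N) 2 A) (wA (zz N) (MM δ N) 2 A a) n ^ 2 * h n / n) ∧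
        ∑' n : ℕ, WW (QA (MM δ N) 2 A) (wA (zz N) (MM δ N) 2 A a) n ^ 2 * h n / n ≤
          (1 / 2 + 1 / (1 - 2 * δ)) * cn (zz N) A a + ε := by
  set C := max C₁ 1 with hC
  have hC1 : 1 ≤ C := le_max_right _ _
  set c := Real.log C / 2 with hc
  have hc0 : 0 ≤ c := by rw [hc]; exact div_nonneg (Real.log_nonneg hC1) (by norm_num)
  set E := 3 * c + 19 with hE
  have hE0 : 0 < E := by positivity
  set et := min 1 (ε / (E * (|C₀| + 1))) with het
  have het0 : 0 < et := lt_min one_pos (by positivity)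
  have het1 : et ≤ 1 := min_le_left _ _
  have hetE : E * et * |C₀| ≤ ε := by
    have g : et ≤ ε / (E * (|C₀| + 1)) := min_le_right _ _
    rw [le_div_iff₀ (by positivity)] at g
    nlinarith [mul_pos hE0 het0, abs_nonneg C₀]
  obtain ⟨N₁, hN₁⟩ := wr_sq h0 h1 het0
  obtain ⟨N₂, hN₂⟩ := sizes h0 h1 het0
  refine ⟨max N₁ N₂, fun N hN A a ha hcn h hh => ?_⟩
  obtain ⟨s1, s2, s3, s4, s5, s6, s7, s8, s9⟩ := hN₂ N (le_trans (le_max_right _ _) hN)
  have hsq := hN₁ N (le_trans (le_max_left _ _) hN)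
  set z := zz N with hz
  set M := MM δ N with hMM
  have hM2 : 2 ≤ M := by omega
  have hN0 : (0 : ℝ) < N := by exact_mod_cast (by omega : 0 < N)
  have hN1 : (1 : ℝ) ≤ N := by exact_mod_cast (by omega : 1 ≤ N)
  have hM1 : (1 : ℝ) ≤ M := by exact_mod_cast (by omega : 1 ≤ M)
  set K := C * N with hK
  have hK0 : 0 ≤ K := by positivity
  have hKN : (N : ℝ) ≤ K := by rw [hK]; nlinarith
  set R := ⌊Real.sqrt K⌋₊ with hR
  have hMR : M ≤ R := by
    rw [hMM, hR]
    unfold MM
    refine Nat.floor_le_floor ?_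
    calc (N : ℝ) ^ (1 / 2 - δ) ≤ (N : ℝ) ^ (1 / 2 : ℝ) :=
          Real.rpow_le_rpow_of_exponent_le hN1 (by linarith)
      _ = Real.sqrt N := by rw [Real.sqrt_eq_rpow]
      _ ≤ Real.sqrt K := Real.sqrt_le_sqrt hKN
  have hR1 : (1 : ℝ) ≤ R := by exact_mod_cast (by omega : 1 ≤ R)
  have hKR : K ≤ 4 * (R : ℝ) ^ 2 := by
    have g : Real.sqrt K ≤ 2 * R := by
      have := Nat.lt_floor_add_one (Real.sqrt K)
      rw [← hR] at this
      linarith
    calc K = Real.sqrt K ^ 2 := (Real.sq_sqrt hK0).symm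
      _ ≤ (2 * R) ^ 2 := pow_le_pow_left₀ (Real.sqrt_nonneg _) g 2
      _ = 4 * (R : ℝ) ^ 2 := by ring
  have hlR : Real.log R ≤ Real.log N / 2 + c := by
    calc Real.log R ≤ Real.log (Real.sqrt K) :=
          Real.log_le_log (by linarith) (Nat.floor_le (Real.sqrt_nonneg _))
      _ = Real.log K / 2 := Real.log_sqrt hK0
      _ = Real.log N / 2 + c := by
          rw [hK, Real.log_mul (by positivity) (by positivity), hc]; ring
  have hlMR : Real.log M ≤ Real.log R := Real.log_le_log (by linarith) (by exact_mod_cast hMR)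
  have hLet : 1 / et ≤ Real.log M := by
    refine s5.trans (Real.log_le_log (by exact_mod_cast (by omega : 0 < z)) ?_)
    exact_mod_cast s3.le
  set κ := 1 + (Real.log M ^ 2 / 2 + Real.log M + (1 + et * Real.log M) * (1 + Real.log M) +
        (Real.log M + 1 + et * Real.log M) * (Real.log R - Real.log M + 2)) /
          Real.log M ^ 2 with hκ
  have hκ1 : κ ≤ 1 / 2 + 1 / (1 - 2 * δ) + E * et :=
    HGN_num h0 h1 het0 het1 hLet hc0 s7 hlR hlMR
  have hL0 : 0 < Real.log M := lt_of_lt_of_le (by positivity) hLet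
  have hκ0 : 0 ≤ κ := by
    have : 0 ≤ (Real.log M + 1 + et * Real.log M) * (Real.log R - Real.log M + 2) :=
      mul_nonneg (by positivity) (by linarith)
    positivity
  obtain ⟨hsum, -⟩ := phi_al (z := z) (A := A) (a := a) ha
  have hcn0 : 0 ≤ cn z A a := by
    unfold cn
    exact tsum_nonneg fun m => by split_ifs <;> positivity
  have hh' : ∀ n, 0 ≤ h n ∧ h n ≤ 1 ∧ h n * n ^ 2 ≤ K := fun n => by
    obtain ⟨g1, g2, g3⟩ := hh n
    refine ⟨g1, g2, g3.trans ?_⟩
    rw [hK]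
    exact mul_le_mul_of_nonneg_right (le_max_left _ _) hN0.le
  set T : ℕ → ℝ := fun n => WW (QA M 2 A) (wA z M 2 A a) n ^ 2 * h n / n with hT
  have hT0 : ∀ n, 0 ≤ T n := fun n =>
    div_nonneg (mul_nonneg (sq_nonneg _) (hh n).1) (Nat.cast_nonneg _)
  have hWW : ∀ n, 1 ≤ n → WW (QA M 2 A) (wA z M 2 A a) n = Ph A a n * Wr z M 2 n := by
    intro n hn
    first
      | exact ww_factor ha (by norm_num) hn
      | exact ww_factor ha hn
  have hfin : ∀ X : ℕ, ∑ n ∈ Finset.Icc 1 X, T n ≤ κ * cn z A a := by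
    intro X
    have e1 : ∀ n ∈ Finset.Icc 1 X, T n = (fun m r : ℕ => Ph A a m ^ 2 / m *
        (Wr z M 2 r ^ 2 * h (m * r) / r)) (smp z n) (rop z n) := by
      intro n hn
      rw [Finset.mem_Icc] at hn
      simp only [hT]
      rw [hWW n hn.1, ph_smp ha hn.1, wr_rop z M 2 hn.1]
      have g1 := (smp_rop (z := z) hn.1).1
      have g2 : (n : ℝ) = (smp z n : ℝ) * (rop z n : ℝ) := by rw [← Nat.cast_mul, g1]
      rw [g1, g2]
      rw [div_mul_div_comm]
      congr 1
      ring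
    rw [Finset.sum_congr rfl e1]
    calc _ ≤ ∑ m ∈ (Finset.Icc 1 X).filter (fun m => smooth z m),
        ∑ r ∈ (Finset.Icc 1 X).filter (fun r => rough z r), Ph A a m ^ 2 / m *
        (Wr z M 2 r ^ 2 * h (m * r) / r) := by
          refine HGN_split (F := fun m r : ℕ => Ph A a m ^ 2 / m *
            (Wr z M 2 r ^ 2 * h (m * r) / r)) fun m r => ?_
          have := (hh (m * r)).1
          positivity
      _ ≤ ∑ m ∈ (Finset.Icc 1 X).filter (fun m => smooth z m), Ph A a m ^ 2 / m * κ := by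
          refine Finset.sum_le_sum fun m hm => ?_
          rw [Finset.mem_filter, Finset.mem_Icc] at hm
          rw [← Finset.mul_sum]
          refine mul_le_mul_of_nonneg_left ?_ (by positivity)
          exact HGN_inner hM2 hMR het0.le hK0 hKR hsq hh' hm.1.1
      _ = κ * ∑ m ∈ Finset.Icc 1 X, (if smooth z m then Ph A a m ^ 2 / m else 0) := by
          rw [← Finset.sum_mul, Finset.sum_filter, mul_comm]
      _ ≤ κ * cn z A a := by
          refine mul_le_mul_of_nonneg_left ?_ hκ0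
          unfold cn
          exact hsum.sum_le_tsum _ fun m _ => by split_ifs <;> positivity
  have hfin2 : ∀ X : ℕ, ∑ n ∈ Finset.range X, T n ≤ κ * cn z A a := by
    intro X
    refine le_trans ?_ (hfin X)
    have e2 : ∑ n ∈ (Finset.range X).filter (fun n => 1 ≤ n), T n = ∑ n ∈ Finset.range X, T n := by
      refine Finset.sum_filter_of_ne fun n _ hn => ?_
      rcases Nat.eq_zero_or_pos n with g | g
      · subst g; simp [hT] at hn
      · exact g
    rw [← e2]
    refine Finset.sum_le_sum_of_subset_of_nonneg ?_ fun n _ _ => hT0 n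
    intro n hn
    rw [Finset.mem_filter, Finset.mem_range] at hn
    rw [Finset.mem_Icc]; omega
  refine ⟨summable_of_sum_range_le hT0 hfin2, ?_⟩
  refine (Real.tsum_le_of_sum_range_le hT0 hfin2).trans ?_
  calc κ * cn z A a ≤ (1 / 2 + 1 / (1 - 2 * δ) + E * et) * cn z A a :=
        mul_le_mul_of_nonneg_right hκ1 hcn0
    _ = (1 / 2 + 1 / (1 - 2 * δ)) * cn z A a + E * et * cn z A a := by ring
    _ ≤ _ := by
        have g : E * et * cn z A a ≤ E * et * |C₀| :=
          mul_le_mul_of_nonneg_left (hcn.trans (le_abs_self _)) (by positivity)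
        linarith

theorem high_gen : type_of% @high_gen_pr := @high_gen_pr

end Pool.Agent.KSL
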