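import Pool.Agent.Lib_helper68.KSL.Defs
import Pool.Agent.Lib_helper68.KSLF.BGI
import Pool.Agent.Lib_helper68.KSLF.BPT
import Pool.Agent.Lib_helper68.KSLF.BUL
import Pool.Agent.Lib_helper68.KSLF.HGN
import Pool.Agent.Lib_helper68.KSLF.SZF

/-! KSL block HBS: hs_bound, bs_bound -/

namespace Pool.Agent.KSL

open Pool.Agent.LEV Pool.Agent.LVB
open Pool.Agent.FG61 (mu phi cc ff AA Lam)
open Complex MeasureTheory Filter Topology UpperHalfPlane ModularGroup ProbabilityTheory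
open scoped MatrixGroups Modular ENNReal ModularForm ComplexConjugate ContDiff

theorem hs_bound_pr {T : ℝ} {ρ : ℝ → ℝ} (hρ : Ker T ρ) {δ : ℝ} (h0 : 0 < δ) (h1 : δ < 1 / 4)
    {ε : ℝ} (hε : 0 < ε) (C₀ : ℝ) : ∃ N₀ : ℕ, ∀ N : ℕ, N₀ ≤ N → ∀ (A : ℕ) (a : ℕ → ℝ),
      (∀ k, a k ≠ 0 → smooth (zz N) k ∧ k ≤ A) → cn (zz N) A a ≤ C₀ →
      HS N (QA (MM δ N) 2 A) (wA (zz N) (MM δ N) 2 A a) ρ ≤
        1 / Real.pi * ((1 / 2 + 1 / (1 - 2 * δ)) * cn (zz N) A a) + ε := by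
  obtain ⟨C, hC⟩ := hρ.dec
  obtain ⟨N₀, hN₀⟩ := high_gen h0 h1 (mul_pos Real.pi_pos hε) C₀ (C ^ 2)
  refine ⟨max N₀ 1, fun N hN A a ha hcn => ?_⟩
  have hN0 : (0 : ℝ) < N := by exact_mod_cast (by omega : 0 < N)
  have hsN : 0 < Real.sqrt N := Real.sqrt_pos.2 hN0
  have hss : Real.sqrt N ^ 2 = N := Real.sq_sqrt hN0.le
  set h : ℕ → ℝ := fun n => sgm ρ (n * (2 / Real.sqrt N)) ^ 2 with hh
  have hh1 : ∀ n, 0 ≤ h n ∧ h n ≤ 1 ∧ h n * n ^ 2 ≤ C ^ 2 * N := by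
    intro n
    have g1 := (kh_zero hρ).2 (n * (2 / Real.sqrt N))
    refine ⟨sq_nonneg _, ?_, ?_⟩
    · simp only [hh]
      rw [← sq_abs]
      exact pow_le_one₀ (abs_nonneg _) g1
    · rcases Nat.eq_zero_or_pos n with hn | hn
      · subst hn
        simp only [Nat.cast_zero, ne_eq, OfNat.ofNat_ne_zero, not_false_eq_true, zero_pow, mul_zero]
        positivity
      · have hn0 : (0 : ℝ) < n := by exact_mod_cast hn
        have g2 := hC (n * (2 / Real.sqrt N)) (by positivity)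
        have g3 : |sgm ρ (n * (2 / Real.sqrt N))| * n ≤ C * (Real.sqrt N / 2) := by
          calc |sgm ρ (n * (2 / Real.sqrt N))| * n ≤ C / (n * (2 / Real.sqrt N)) * n :=
                mul_le_mul_of_nonneg_right g2 hn0.le
            _ = C * (Real.sqrt N / 2) := by field_simp
        simp only [hh]
        calc sgm ρ (n * (2 / Real.sqrt N)) ^ 2 * n ^ 2
            = (|sgm ρ (n * (2 / Real.sqrt N))| * n) ^ 2 := by rw [mul_pow, sq_abs]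
          _ ≤ (C * (Real.sqrt N / 2)) ^ 2 := pow_le_pow_left₀ (by positivity) g3 2
          _ = C ^ 2 * N / 4 := by rw [mul_pow, div_pow, hss]; ring
          _ ≤ C ^ 2 * N := by
              have : 0 ≤ C ^ 2 * N := by positivity
              linarith
  obtain ⟨hs, ht⟩ := hN₀ N (by omega) A a ha hcn h hh1
  unfold HS
  have e1 : ∀ n : ℕ, WW (QA (MM δ N) 2 A) (wA (zz N) (MM δ N) 2 A a) n ^ 2 *
      sgm ρ (n * (2 / Real.sqrt N)) ^ 2 / (Real.pi * n) = 1 / Real.pi *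
      (WW (QA (MM δ N) 2 A) (wA (zz N) (MM δ N) 2 A a) n ^ 2 * h n / n) := by
    intro n
    simp only [hh]
    rw [div_mul_div_comm, one_mul]
  simp only [e1]
  rw [tsum_mul_left]
  calc _ ≤ 1 / Real.pi * ((1 / 2 + 1 / (1 - 2 * δ)) * cn (zz N) A a + Real.pi * ε) :=
        mul_le_mul_of_nonneg_left ht (by positivity)
    _ = _ := by field_simp

theorem bs_bound_pr {T : ℝ} {ρ : ℝ → ℝ} (hρ : Ker T ρ) {g : ℝ → ℝ} {G : ℝ} (hg : Kg g G)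
    (hd : ∀ u, 0 < u → ‖kh ρ u‖ ^ 2 + ‖kh ρ (-u)‖ ^ 2 ≤ g u) {δ : ℝ} (h0 : 0 < δ)
    (h1 : δ < 1 / 4) {ε : ℝ} (hε : 0 < ε) (C₀ : ℝ) : ∃ ε₁ κ : ℝ, 0 < ε₁ ∧ 0 < κ ∧
    ∀ ε₂ : ℝ, 0 < ε₂ → ε₂ ≤ ε₁ → ∃ N₀ : ℕ, ∀ N : ℕ, N₀ ≤ N → ∀ a : ℕ → ℝ,
    Sht (zz N) (KA ε₂ N) a → cn (zz N) (KA ε₂ N) a ≤ C₀ → ∀ s : ℕ → ℝ,
    (∀ m, s m ≠ 0 → m ≤ KA ε₂ N) → cd (zz N) (KA ε₂ N) a s ≤ κ →
      BS N (QQ δ ε₂ N) (ww δ ε₂ N a) ρ ≤
        (∫ u in Set.Ioi (0 : ℝ), g u) * (cn (zz N) (KA ε₂ N) a / 2) + ε := by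
  obtain ⟨ε₁, κ, hε₁, hκ, hb⟩ := bulk_gen h0 h1 hε C₀ hg
  refine ⟨min ε₁ (δ / 40), κ, lt_min hε₁ (by positivity), hκ, fun ε₂ h2 h3 => ?_⟩
  have h4 : ε₂ ≤ δ / 40 := h3.trans (min_le_right _ _)
  obtain ⟨N₁, hN₁⟩ := hb ε₂ h2 (h3.trans (min_le_left _ _))
  obtain ⟨N₂, hN₂⟩ := bulk_point h0 h1 (ε := 1) one_pos hg h2 h4
  obtain ⟨N₃, hN₃⟩ := sizes h0 h1 (ε := 1) one_pos
  obtain ⟨N₄, hN₄⟩ := BPT_pow (c := 39 * δ / 40) (by positivity) (200 * T)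
  refine ⟨max (max N₁ N₂) (max (max N₃ N₄) 4), fun N hN a hSh hcn s hs hcd => ?_⟩
  obtain ⟨hi, hle⟩ := hN₁ N (by omega) a hSh hcn s hs hcd
  have hpt := hN₂ N (by omega) a hSh
  obtain ⟨s1, s2, s3, -⟩ := hN₃ N (by omega)
  have hTN := hN₄ N (by omega)
  have hN4 : 4 ≤ N := by omega
  have hN0 : (0 : ℝ) < N := by exact_mod_cast (by omega : 0 < N)
  have hN1 : (1 : ℝ) ≤ N := by exact_mod_cast (by omega : 1 ≤ N)
  have hQ1 : 1 ≤ QQ δ ε₂ N := by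
    have g1 := (ka_size h2 (N := N) (by omega)).1
    have g2 : 1 ≤ MM δ N := by omega
    unfold QQ QA
    calc 1 ≤ 1 * 1 * 1 := by norm_num
      _ ≤ 2 * MM δ N * KA ε₂ N := by
        exact Nat.mul_le_mul (Nat.mul_le_mul (by norm_num) g2) g1
  have hQT : 100 * T * QQ δ ε₂ N ≤ Real.sqrt N := by
    have hT0 : 0 ≤ T := le_trans zero_le_one hρ.T1
    obtain ⟨g1, -⟩ := BPT_Q (δ := δ) (ε₂ := ε₂) hN4 (by linarith)
    calc 100 * T * QQ δ ε₂ N ≤ 100 * T * (2 * (N : ℝ) ^ (1 / 2 - δ + ε₂)) :=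
          mul_le_mul_of_nonneg_left g1 (by positivity)
      _ = 200 * T * (N : ℝ) ^ (1 / 2 - δ + ε₂) := by ring
      _ ≤ (N : ℝ) ^ (39 * δ / 40) * (N : ℝ) ^ (1 / 2 - δ + ε₂) :=
          mul_le_mul_of_nonneg_right hTN (by positivity)
      _ = (N : ℝ) ^ (39 * δ / 40 + (1 / 2 - δ + ε₂)) := by rw [Real.rpow_add hN0 (39 * δ / 40)]
      _ ≤ (N : ℝ) ^ (1 / 2 : ℝ) := Real.rpow_le_rpow_of_exponent_le hN1 (by linarith)
      _ = Real.sqrt N := by rw [Real.sqrt_eq_rpow]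
  refine le_trans ?_ hle
  unfold BS
  refine integral_mono_of_nonneg ?_ hi ?_
  · exact Filter.Eventually.of_forall fun y => integral_nonneg fun x => sq_nonneg _
  · rw [Filter.EventuallyLE, ae_restrict_iff' measurableSet_Ioo]
    refine Filter.Eventually.of_forall fun y hy => ?_
    obtain ⟨p1, p2, p3⟩ := ph_parseval hρ (by omega : 1 ≤ N) hQ1 hQT (ww δ ε₂ N a) hy.1 hy.2
    obtain ⟨q1, q2, -⟩ := hpt y hy.1 hy.2
    change ∫ x : ℝ, ‖ph N (QQ δ ε₂ N) (ww δ ε₂ N a) ρ x y‖ ^ 2 ≤ _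
    rw [p3]
    refine add_le_add le_rfl (p1.tsum_le_tsum (fun n => ?_) q2)
    have hn : (0 : ℝ) < ((n : ℝ) + 1) * y := mul_pos (by positivity) hy.1
    exact mul_le_mul_of_nonneg_right (hd _ hn) (sq_nonneg _)

theorem hs_bound : type_of% @hs_bound_pr := @hs_bound_pr
theorem bs_bound : type_of% @bs_bound_pr := @bs_bound_pr

end Pool.Agent.KSL
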