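import Pool.Agent.Lib_helper68.KSL.Defs
import Pool.Agent.Lib_helper90.PNT.Fejer

namespace Pool.Agent.KSL

open Complex MeasureTheory Filter Topology
open scoped FourierTransform

noncomputable def kex_tri (T t : ℝ) : ℝ := max (1 - |t| / T) 0

noncomputable def kex_K (T v : ℝ) : ℝ := Pool.Agent.Lib_helper90.PNT.fej T (2 * Real.pi * v)

lemma kex_tri_cont (T : ℝ) : Continuous (kex_tri T) := by unfold kex_tri; fun_prop

lemma kex_tri_nonneg (T t : ℝ) : 0 ≤ kex_tri T t := le_max_right _ _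

lemma kex_tri_le {T : ℝ} (hT : 0 < T) (t : ℝ) : kex_tri T t ≤ 1 :=
  max_le (by have : 0 ≤ |t| / T := by positivity
             linarith) zero_le_one

lemma kex_tri_supp {T : ℝ} (hT : 0 < T) {t : ℝ} (h : T ≤ |t|) : kex_tri T t = 0 :=
  max_eq_right (by rw [sub_nonpos, le_div_iff₀ hT]; linarith)

lemma kex_tri_neg (T t : ℝ) : kex_tri T (-t) = kex_tri T t := by
  unfold kex_tri; rw [abs_neg]

lemma kex_tri_int {T : ℝ} (hT : 0 < T) : Integrable (kex_tri T) := by
  refine (kex_tri_cont T).integrable_of_hasCompactSupport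
    (HasCompactSupport.intro (isCompact_Icc (a := -T) (b := T)) (fun t ht => ?_))
  apply kex_tri_supp hT
  rw [Set.mem_Icc, not_and_or] at ht
  rcases ht with h | h
  · push Not at h; rw [le_abs]; right; linarith
  · push Not at h; rw [le_abs]; left; linarith

lemma kex_ft {T : ℝ} (hT : 0 < T) (v : ℝ) :
    ∫ t : ℝ, (kex_tri T t : ℂ) * cexp (-(2 * Real.pi * v * t : ℝ) * I) = (kex_K T v : ℂ) := by
  have hsub : Function.support (fun t : ℝ => (kex_tri T t : ℂ) *
      cexp (-(2 * Real.pi * v * t : ℝ) * I)) ⊆ Set.Ioc (-T) T := by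
    intro t ht
    rw [Function.mem_support] at ht
    by_contra hcon
    apply ht
    have : T ≤ |t| := by
      rw [Set.mem_Ioc, not_and_or] at hcon
      rcases hcon with h | h
      · push Not at h; rw [le_abs]; right; linarith
      · push Not at h; rw [le_abs]; left; linarith
    rw [kex_tri_supp hT this]; simp
  rw [← intervalIntegral.integral_eq_integral_of_support_subset hsub]
  have h := Lib_helper90.PNT.integral_tri hT (-(2 * Real.pi * v))
  rw [Lib_helper90.PNT.fej_neg] at h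
  unfold kex_K
  rw [← h]
  apply intervalIntegral.integral_congr
  intro t ht
  rw [Set.uIcc_of_le (by linarith)] at ht
  have h1 : |t| ≤ T := abs_le.2 ht
  have h2 : kex_tri T t = 1 - |t| / T :=
    max_eq_left (by rw [sub_nonneg, div_le_one hT]; exact h1)
  simp only [h2]
  congr 2
  push_cast
  ring

lemma kex_K_nonneg {T : ℝ} (hT : 0 < T) (v : ℝ) : 0 ≤ kex_K T v :=
  Lib_helper90.PNT.fej_nonneg hT _

lemma kex_K_int {T : ℝ} (hT : 0 < T) : Integrable (kex_K T) := by
  have h := (Lib_helper90.PNT.integrable_fej hT).comp_mul_left' (R := 2 * Real.pi)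
    (by positivity)
  exact h

lemma kex_K_le {T : ℝ} (hT : 0 < T) {v : ℝ} (hv : v ≠ 0) :
    kex_K T v ≤ 1 / (Real.pi ^ 2 * T * v ^ 2) := by
  have hpi := Real.pi_pos
  have h : (2 * Real.pi * v) ≠ 0 := by positivity
  have := Lib_helper90.PNT.fej_le' hT h
  unfold kex_K
  refine this.trans (le_of_eq ?_)
  field_simp
  ring

lemma kex_mass {T : ℝ} (hT : 0 < T) : ∫ v, kex_K T v = 1 := by
  set f : ℝ → ℂ := fun t => (kex_tri T t : ℂ) with hf
  have hF : 𝓕 f = fun w => (kex_K T w : ℂ) := by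
    funext w
    rw [Real.fourier_real_eq_integral_exp_smul, ← kex_ft hT w]
    apply integral_congr_ae
    filter_upwards with t
    rw [smul_eq_mul, mul_comm]
    congr 2
    push_cast
    ring
  have hcont : Continuous f := continuous_ofReal.comp (kex_tri_cont T)
  have hint : Integrable f := (kex_tri_int hT).ofReal
  have hint2 : Integrable (𝓕 f) := by
    rw [hF]; exact (kex_K_int hT).ofReal
  have h := congrFun (hcont.fourierInv_fourier_eq hint hint2) 0
  rw [Real.fourierInv_eq', hF] at h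
  have h2 : ∫ v : ℝ, cexp (((2 * Real.pi * inner ℝ v (0 : ℝ) : ℝ) : ℂ) * I) • ((kex_K T v : ℂ)) =
      ((∫ v, kex_K T v : ℝ) : ℂ) := by
    rw [← integral_complex_ofReal]
    apply integral_congr_ae
    filter_upwards with v
    simp
  rw [h2] at h
  have h3 : f 0 = 1 := by
    simp [hf, kex_tri]
  rw [h3] at h
  exact_mod_cast h

/-- the weight -/
noncomputable def kex_rho (c T t : ℝ) : ℝ := c * kex_tri T t / (Real.pi * (1 + t ^ 2))

/-- the (real) Fourier transform -/
noncomputable def kex_k (c T u : ℝ) : ℝ :=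
  2 * c * ∫ s in Set.Ioi (0 : ℝ), Real.exp (-(2 * Real.pi * s)) * kex_K T (u + s)

lemma kex_exp_int : IntegrableOn (fun s : ℝ => Real.exp (-(2 * Real.pi * s))) (Set.Ioi 0) := by
  have h := integrableOn_exp_mul_Ioi (a := -(2 * Real.pi)) (by have := Real.pi_pos; linarith) 0
  refine h.congr_fun (fun s _ => ?_) measurableSet_Ioi
  simp only
  congr 1
  ring

lemma kex_exp_val : ∫ s in Set.Ioi (0 : ℝ), Real.exp (-(2 * Real.pi * s)) = 1 / (2 * Real.pi) := by
  have h := integral_exp_mul_Ioi (a := -(2 * Real.pi)) (by have := Real.pi_pos; linarith) 0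
  have h2 : ∫ s in Set.Ioi (0 : ℝ), Real.exp (-(2 * Real.pi * s)) =
      ∫ s in Set.Ioi (0 : ℝ), Real.exp (-(2 * Real.pi) * s) := by
    congr 1
    funext s
    congr 1
    ring
  rw [h2, h]
  simp

lemma kex_rep {c T : ℝ} (hT : 0 < T) (u : ℝ) : kh (kex_rho c T) u = (kex_k c T u : ℂ) := by
  have hpi := Real.pi_pos
  -- the Laplace representation
  have hlap : ∀ t : ℝ, ∫ s in Set.Ioi (0 : ℝ), (2 * c * kex_tri T t : ℂ) *
      (cexp (-(2 * Real.pi * s : ℝ)) * cexp (-(2 * Real.pi * (u + s) * t : ℝ) * I)) =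
      (kex_rho c T t : ℂ) * (1 - (t : ℂ) * I) * cexp (-(2 * Real.pi * u * t : ℝ) * I) := by
    intro t
    have h1 : ∀ s : ℝ, (2 * c * kex_tri T t : ℂ) *
        (cexp (-(2 * Real.pi * s : ℝ)) * cexp (-(2 * Real.pi * (u + s) * t : ℝ) * I)) =
        (2 * c * kex_tri T t : ℂ) * cexp (-(2 * Real.pi * u * t : ℝ) * I) *
        cexp ((-(2 * Real.pi) * (1 + t * I)) * s) := by
      intro s
      rw [mul_assoc (2 * c * kex_tri T t : ℂ), ← Complex.exp_add, ← Complex.exp_add]
      congr 2
      push_cast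
      ring
    simp_rw [h1]
    rw [integral_const_mul, integral_exp_mul_complex_Ioi (by simp; positivity)]
    have hne : (1 + (t : ℂ) * I) ≠ 0 := by
      intro h
      have := congrArg Complex.re h
      simp at this
    have hne2 : (1 + (t : ℂ) ^ 2) ≠ 0 := by
      have h : (0 : ℝ) < 1 + t ^ 2 := by positivity
      exact_mod_cast h.ne'
    have hpic : (Real.pi : ℂ) ≠ 0 := by exact_mod_cast hpi.ne'
    unfold kex_rho
    push_cast
    simp only [mul_zero, Complex.exp_zero]
    have h3 : (1 + (t : ℂ) ^ 2) = (1 + t * I) * (1 - t * I) := by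
      ring_nf
      rw [I_sq]
      ring
    have hne3 : (1 - (t : ℂ) * I) ≠ 0 := by
      intro h
      have := congrArg Complex.re h
      simp at this
    rw [h3]
    field_simp
  unfold kh
  simp_rw [← hlap]
  rw [integral_integral_swap]
  · unfold kex_k
    rw [ofReal_mul, ← integral_complex_ofReal, ← integral_const_mul]
    apply integral_congr_ae
    filter_upwards with s
    have h2 : ∀ t : ℝ, (2 * c * kex_tri T t : ℂ) *
        (cexp (-(2 * Real.pi * s : ℝ)) * cexp (-(2 * Real.pi * (u + s) * t : ℝ) * I)) =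
        (2 * c * cexp (-(2 * Real.pi * s : ℝ)) : ℂ) *
        ((kex_tri T t : ℂ) * cexp (-(2 * Real.pi * (u + s) * t : ℝ) * I)) := by
      intro t; ring
    simp_rw [h2]
    rw [integral_const_mul, kex_ft hT]
    push_cast
    ring
  · have hmaj : Integrable (fun p : ℝ × ℝ => (|2 * c| * kex_tri T p.1) *
        Real.exp (-(2 * Real.pi * p.2))) (volume.prod (volume.restrict (Set.Ioi 0))) :=
      Integrable.mul_prod ((kex_tri_int hT).const_mul _) kex_exp_int
    refine hmaj.mono' ?_ ?_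
    · apply Continuous.aestronglyMeasurable
      have := kex_tri_cont T
      simp only [Function.uncurry_def]
      fun_prop
    · filter_upwards with p
      simp only [Function.uncurry]
      rw [norm_mul, norm_mul (cexp _), Complex.norm_exp, Complex.norm_exp]
      have h4 : (-(2 * Real.pi * p.2 : ℝ) : ℂ).re = -(2 * Real.pi * p.2) := by
        rw [← ofReal_neg, ofReal_re]
      have h5 : (-((2 * Real.pi * (u + p.2) * p.1 : ℝ) : ℂ) * I).re = 0 := by
        rw [← ofReal_neg, re_ofReal_mul, I_re, mul_zero]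
      rw [h4, h5, Real.exp_zero, mul_one]
      have h6 : ‖(2 * c * kex_tri T p.1 : ℂ)‖ = |2 * c| * kex_tri T p.1 := by
        have : (2 * c * kex_tri T p.1 : ℂ) = ((2 * c * kex_tri T p.1 : ℝ) : ℂ) := by push_cast; ring
        rw [this, norm_real, Real.norm_eq_abs, abs_mul, abs_of_nonneg (kex_tri_nonneg T p.1)]
      rw [h6]

lemma kex_sh_int {T : ℝ} (hT : 0 < T) (u : ℝ) : Integrable (fun s => kex_K T (u + s)) :=
  (kex_K_int hT).comp_add_left u

lemma kex_sh_mass {T : ℝ} (hT : 0 < T) (u : ℝ) : ∫ s, kex_K T (u + s) = 1 := by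
  rw [integral_add_left_eq_self (μ := volume) (fun s => kex_K T s) u]
  exact kex_mass hT

lemma kex_sh_half {T : ℝ} (hT : 0 < T) (u : ℝ) : ∫ s in Set.Ioi (0 : ℝ), kex_K T (u + s) ≤ 1 := by
  rw [← kex_sh_mass hT u]
  exact setIntegral_le_integral (kex_sh_int hT u) (Eventually.of_forall fun s => kex_K_nonneg hT _)

lemma kex_int {T : ℝ} (hT : 0 < T) (u : ℝ) :
    IntegrableOn (fun s : ℝ => Real.exp (-(2 * Real.pi * s)) * kex_K T (u + s)) (Set.Ioi 0) := by
  refine Integrable.mono' (kex_sh_int hT u).integrableOn ?_ ?_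
  · apply AEStronglyMeasurable.mul
    · exact (by fun_prop : Continuous fun s : ℝ => Real.exp (-(2 * Real.pi * s))).aestronglyMeasurable
    · exact (kex_sh_int hT u).aestronglyMeasurable.restrict
  · rw [ae_restrict_iff' measurableSet_Ioi]
    filter_upwards with s hs
    have hs0 : 0 < s := hs
    have hpi := Real.pi_pos
    rw [Real.norm_eq_abs, abs_mul, Real.abs_exp, abs_of_nonneg (kex_K_nonneg hT _)]
    have : Real.exp (-(2 * Real.pi * s)) ≤ 1 := Real.exp_le_one_iff.2 (by
      have : 0 < 2 * Real.pi * s := by positivity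
      linarith)
    exact mul_le_of_le_one_left (kex_K_nonneg hT _) this

lemma kex_k_nonneg {c T : ℝ} (hc : 0 ≤ c) (hT : 0 < T) (u : ℝ) : 0 ≤ kex_k c T u := by
  unfold kex_k
  have : 0 ≤ ∫ s in Set.Ioi (0 : ℝ), Real.exp (-(2 * Real.pi * s)) * kex_K T (u + s) :=
    setIntegral_nonneg measurableSet_Ioi fun s _ =>
      mul_nonneg (Real.exp_pos _).le (kex_K_nonneg hT _)
  positivity

lemma kex_k_le_of {c T : ℝ} (hc : 0 ≤ c) (hT : 0 < T) (u : ℝ) {B : ℝ → ℝ} {M : ℝ}
    (hB : IntegrableOn B (Set.Ioi 0))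
    (h : ∀ s : ℝ, 0 < s → Real.exp (-(2 * Real.pi * s)) * kex_K T (u + s) ≤ B s)
    (hM : ∫ s in Set.Ioi (0 : ℝ), B s ≤ M) : kex_k c T u ≤ 2 * c * M := by
  unfold kex_k
  apply mul_le_mul_of_nonneg_left _ (by positivity)
  exact (setIntegral_mono_on (kex_int hT u) hB measurableSet_Ioi fun s hs => h s hs).trans hM

lemma kex_k_le_one {c T : ℝ} (hc : 0 ≤ c) (hT : 0 < T) (u : ℝ) : kex_k c T u ≤ 2 * c := by
  have := kex_k_le_of hc hT u (B := fun s => kex_K T (u + s)) (M := 1)
    (kex_sh_int hT u).integrableOn ?_ (kex_sh_half hT u)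
  · linarith
  · intro s hs
    have hpi := Real.pi_pos
    have : Real.exp (-(2 * Real.pi * s)) ≤ 1 := Real.exp_le_one_iff.2 (by
      have : 0 < 2 * Real.pi * s := by positivity
      linarith)
    exact mul_le_of_le_one_left (kex_K_nonneg hT _) this

lemma kex_k_pos {c T : ℝ} (hc : 0 ≤ c) (hT : 0 < T) {u : ℝ} (hu : 0 < u) :
    kex_k c T u ≤ 2 * c * (1 / (T * u ^ 2)) := by
  have hpi := Real.pi_pos
  have hpi3 := Real.pi_gt_three
  apply kex_k_le_of hc hT u
    (B := fun s => (1 / (Real.pi ^ 2 * T * u ^ 2)) * Real.exp (-(2 * Real.pi * s)))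
  · exact kex_exp_int.const_mul _
  · intro s hs
    rw [mul_comm]
    apply mul_le_mul_of_nonneg_right _ (Real.exp_pos _).le
    refine (kex_K_le hT (by positivity)).trans ?_
    apply one_div_le_one_div_of_le (by positivity)
    have : u ^ 2 ≤ (u + s) ^ 2 := by nlinarith
    exact mul_le_mul_of_nonneg_left this (by positivity)
  · rw [integral_const_mul, kex_exp_val, div_mul_div_comm, one_mul]
    apply one_div_le_one_div_of_le (by positivity)
    have : T * u ^ 2 ≤ (T * u ^ 2) * (Real.pi ^ 2 * (2 * Real.pi)) := by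
      apply le_mul_of_one_le_right (by positivity)
      nlinarith [sq_nonneg (Real.pi)]
    linarith

lemma kex_add3 {f g h : ℝ → ℝ} {μ : Measure ℝ} (hf : Integrable f μ) (hg : Integrable g μ)
    (hh : Integrable h μ) : ∫ s, (f s + g s + h s) ∂μ = ∫ s, f s ∂μ + ∫ s, g s ∂μ + ∫ s, h s ∂μ := by
  have h1 := integral_add (hf.add hg) hh
  simp only [Pi.add_apply] at h1
  rw [h1, integral_add hf hg]

lemma kex_k_neg {c x : ℝ} (hc : 0 ≤ c) (hx : 0 < x) (hx1 : x ≤ 1) {u : ℝ} (hu : 0 < u) :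
    kex_k c (x ^ 4)⁻¹ (-u) ≤ 2 * c * (Real.exp (2 * Real.pi * x) * Real.exp (-(2 * Real.pi * u)) +
      x ^ 2 * Real.exp (-(Real.pi * u)) + x ^ 4 / u ^ 2) := by
  have hpi := Real.pi_pos
  have hpi3 := Real.pi_gt_three
  have hT : 0 < (x ^ 4)⁻¹ := by positivity
  have hinv : Integrable (fun s : ℝ => (1 + (s - u) ^ 2)⁻¹) := integrable_inv_one_add_sq.comp_sub_right u
  have hinvM : ∫ s in Set.Ioi (0 : ℝ), (1 + (s - u) ^ 2)⁻¹ ≤ Real.pi := by
    have h1 : ∫ s : ℝ, (1 + (s - u) ^ 2)⁻¹ = Real.pi := by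
      rw [integral_sub_right_eq_self (μ := volume) (fun s : ℝ => (1 + s ^ 2)⁻¹) u]
      exact integral_univ_inv_one_add_sq
    rw [← h1]
    exact setIntegral_le_integral hinv (Eventually.of_forall fun s => by positivity)
  apply kex_k_le_of hc hT (-u)
    (B := fun s => Real.exp (2 * Real.pi * x) * Real.exp (-(2 * Real.pi * u)) * kex_K (x ^ 4)⁻¹ (-u + s)
      + Real.exp (-(Real.pi * u)) * ((1 + (x ^ 2)⁻¹) * x ^ 4 / Real.pi ^ 2) * (1 + (s - u) ^ 2)⁻¹
      + 4 * x ^ 4 / (Real.pi ^ 2 * u ^ 2) * Real.exp (-(2 * Real.pi * s)))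
  · exact (((kex_sh_int hT (-u)).integrableOn.const_mul _).add (hinv.integrableOn.const_mul _)).add
      (kex_exp_int.const_mul _)
  · intro s hs
    have hK0 := kex_K_nonneg hT (-u + s)
    have e1 : 0 < Real.exp (-(2 * Real.pi * s)) := Real.exp_pos _
    have p1 : 0 ≤ Real.exp (2 * Real.pi * x) * Real.exp (-(2 * Real.pi * u)) *
      kex_K (x ^ 4)⁻¹ (-u + s) := by positivity
    have p2 : 0 ≤ Real.exp (-(Real.pi * u)) * ((1 + (x ^ 2)⁻¹) * x ^ 4 / Real.pi ^ 2) *
      (1 + (s - u) ^ 2)⁻¹ := by positivity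
    have p3 : 0 ≤ 4 * x ^ 4 / (Real.pi ^ 2 * u ^ 2) * Real.exp (-(2 * Real.pi * s)) := by positivity
    by_cases h1 : |s - u| < x
    · have h2 : Real.exp (-(2 * Real.pi * s)) ≤
          Real.exp (2 * Real.pi * x) * Real.exp (-(2 * Real.pi * u)) := by
        rw [← Real.exp_add]
        apply Real.exp_le_exp.2
        have := (abs_lt.1 h1).1
        nlinarith
      have h3 := mul_le_mul_of_nonneg_right h2 hK0
      linarith
    · push Not at h1
      have hne : -u + s ≠ 0 := by
        intro h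
        have : s - u = 0 := by linarith
        rw [this, abs_zero] at h1
        linarith
      have hsq : x ^ 2 ≤ (s - u) ^ 2 := by
        rw [← sq_abs (s - u)]
        exact pow_le_pow_left₀ hx.le h1 2
      have hsq' : 0 < (s - u) ^ 2 := lt_of_lt_of_le (by positivity) hsq
      have hKle := kex_K_le hT hne
      have hsu : (-u + s) ^ 2 = (s - u) ^ 2 := by ring
      rw [hsu] at hKle
      by_cases h4 : u / 2 ≤ s
      · have h5 : Real.exp (-(2 * Real.pi * s)) ≤ Real.exp (-(Real.pi * u)) := by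
          apply Real.exp_le_exp.2
          nlinarith
        have h6 : kex_K (x ^ 4)⁻¹ (-u + s) ≤ ((1 + (x ^ 2)⁻¹) * x ^ 4 / Real.pi ^ 2) *
            (1 + (s - u) ^ 2)⁻¹ := by
          refine hKle.trans ?_
          have h7 : 1 / (Real.pi ^ 2 * (x ^ 4)⁻¹ * (s - u) ^ 2) =
              (x ^ 4 / Real.pi ^ 2) * ((s - u) ^ 2)⁻¹ := by
            field_simp
          have h8 : ((s - u) ^ 2)⁻¹ ≤ (1 + (x ^ 2)⁻¹) * (1 + (s - u) ^ 2)⁻¹ := by
            rw [← div_eq_mul_inv, le_div_iff₀ (by positivity), mul_add, mul_one,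
              inv_mul_cancel₀ hsq'.ne', add_comm]
            have := inv_anti₀ (by positivity) hsq
            linarith
          rw [h7]
          calc (x ^ 4 / Real.pi ^ 2) * ((s - u) ^ 2)⁻¹ ≤
              (x ^ 4 / Real.pi ^ 2) * ((1 + (x ^ 2)⁻¹) * (1 + (s - u) ^ 2)⁻¹) :=
                mul_le_mul_of_nonneg_left h8 (by positivity)
            _ = _ := by ring
        have h9 := mul_le_mul h5 h6 hK0 (Real.exp_pos _).le
        rw [← mul_assoc] at h9
        linarith
      · push Not at h4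
        have h5 : u ^ 2 / 4 ≤ (s - u) ^ 2 := by nlinarith
        have h6 : kex_K (x ^ 4)⁻¹ (-u + s) ≤ 4 * x ^ 4 / (Real.pi ^ 2 * u ^ 2) := by
          refine hKle.trans ?_
          have h7 : 4 * x ^ 4 / (Real.pi ^ 2 * u ^ 2) =
              1 / (Real.pi ^ 2 * (x ^ 4)⁻¹ * (u ^ 2 / 4)) := by
            field_simp
          rw [h7]
          apply one_div_le_one_div_of_le (by positivity)
          exact mul_le_mul_of_nonneg_left h5 (by positivity)
        have h8 := mul_le_mul_of_nonneg_left h6 e1.le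
        linarith
  · rw [kex_add3 ((kex_sh_int hT (-u)).integrableOn.const_mul _)
      (hinv.integrableOn.const_mul _) (kex_exp_int.const_mul _), integral_const_mul,
      integral_const_mul, integral_const_mul, kex_exp_val]
    have q1 : Real.exp (2 * Real.pi * x) * Real.exp (-(2 * Real.pi * u)) *
        ∫ s in Set.Ioi (0 : ℝ), kex_K (x ^ 4)⁻¹ (-u + s) ≤
        Real.exp (2 * Real.pi * x) * Real.exp (-(2 * Real.pi * u)) :=
      mul_le_of_le_one_right (by positivity) (kex_sh_half hT (-u))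
    have q2 : Real.exp (-(Real.pi * u)) * ((1 + (x ^ 2)⁻¹) * x ^ 4 / Real.pi ^ 2) *
        ∫ s in Set.Ioi (0 : ℝ), (1 + (s - u) ^ 2)⁻¹ ≤ x ^ 2 * Real.exp (-(Real.pi * u)) := by
      have r1 : ((1 + (x ^ 2)⁻¹) * x ^ 4 / Real.pi ^ 2) *
        ∫ s in Set.Ioi (0 : ℝ), (1 + (s - u) ^ 2)⁻¹ ≤ x ^ 2 := by
        calc ((1 + (x ^ 2)⁻¹) * x ^ 4 / Real.pi ^ 2) *
            ∫ s in Set.Ioi (0 : ℝ), (1 + (s - u) ^ 2)⁻¹ ≤
            ((1 + (x ^ 2)⁻¹) * x ^ 4 / Real.pi ^ 2) * Real.pi :=
              mul_le_mul_of_nonneg_left hinvM (by positivity)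
          _ = (x ^ 4 + x ^ 2) / Real.pi := by
              field_simp
          _ ≤ x ^ 2 := by
              rw [div_le_iff₀ hpi]
              have : x ^ 4 ≤ x ^ 2 := pow_le_pow_of_le_one hx.le hx1 (by norm_num)
              nlinarith [sq_nonneg x]
      rw [mul_assoc, mul_comm (x ^ 2)]
      exact mul_le_mul_of_nonneg_left r1 (Real.exp_pos _).le
    have q3 : 4 * x ^ 4 / (Real.pi ^ 2 * u ^ 2) * (1 / (2 * Real.pi)) ≤ x ^ 4 / u ^ 2 := by
      rw [div_mul_div_comm, mul_one, div_le_div_iff₀ (by positivity) (by positivity)]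
      have : (4 : ℝ) ≤ Real.pi ^ 2 * (2 * Real.pi) := by nlinarith [sq_nonneg Real.pi]
      have h9 : 0 ≤ x ^ 4 * u ^ 2 := by positivity
      nlinarith
    linarith

/-- the mass of the truncated weight -/
noncomputable def kex_m (x : ℝ) : ℝ := ∫ t : ℝ, kex_tri (x ^ 4)⁻¹ t / (Real.pi * (1 + t ^ 2))

lemma kex_m_tendsto : Tendsto kex_m (𝓝[>] 0) (𝓝 1) := by
  have hpi := Real.pi_pos
  have h1 : ∫ t : ℝ, 1 / (Real.pi * (1 + t ^ 2)) = 1 := by
    have : (fun t : ℝ => 1 / (Real.pi * (1 + t ^ 2))) = fun t => Real.pi⁻¹ * (1 + t ^ 2)⁻¹ := by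
      funext t
      rw [one_div, mul_inv]
    rw [this, integral_const_mul, integral_univ_inv_one_add_sq, inv_mul_cancel₀ hpi.ne']
  have h2 : Tendsto kex_m (𝓝[>] 0) (𝓝 (∫ t : ℝ, 1 / (Real.pi * (1 + t ^ 2)))) := by
    unfold kex_m
    apply tendsto_integral_filter_of_dominated_convergence
      (fun t : ℝ => Real.pi⁻¹ * (1 + t ^ 2)⁻¹)
    · filter_upwards with x
      apply Continuous.aestronglyMeasurable
      have := kex_tri_cont (x ^ 4)⁻¹
      exact this.div (by fun_prop) (fun t => by positivity)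
    · filter_upwards [self_mem_nhdsWithin] with x hx
      filter_upwards with t
      have hx0 : 0 < x := hx
      have hT : 0 < (x ^ 4)⁻¹ := by positivity
      have a1 := kex_tri_nonneg (x ^ 4)⁻¹ t
      have a2 := kex_tri_le hT t
      rw [Real.norm_eq_abs, abs_of_nonneg (by positivity), div_eq_mul_inv, mul_inv]
      exact mul_le_of_le_one_left (by positivity) a2
    · exact integrable_inv_one_add_sq.const_mul _
    · filter_upwards with t
      have hc : Continuous fun x : ℝ => max (1 - |t| * x ^ 4) 0 / (Real.pi * (1 + t ^ 2)) := by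
        fun_prop
      have h3 := (hc.tendsto 0).mono_left (nhdsWithin_le_nhds (s := Set.Ioi 0))
      simp only [ne_eq, OfNat.ofNat_ne_zero, not_false_eq_true, zero_pow, mul_zero, sub_zero,
        zero_le_one, sup_of_le_left] at h3
      refine h3.congr fun x => ?_
      unfold kex_tri
      rw [div_inv_eq_mul]
  rwa [h1] at h2

/-- the majorant -/
noncomputable def kex_g (c x u : ℝ) : ℝ :=
  if u ≤ x then 4 * c ^ 2 * 11 else 4 * c ^ 2 * (Real.exp (4 * Real.pi * x) *
    Real.exp (-(4 * Real.pi) * u) + 5 * (x ^ 2 * Real.exp (-Real.pi * u) + x ^ 4 * (u ^ 2)⁻¹))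

lemma kex_inv_sq {x : ℝ} (hx : 0 < x) : IntegrableOn (fun u : ℝ => (u ^ 2)⁻¹) (Set.Ioi x) ∧
    ∫ u in Set.Ioi x, (u ^ 2)⁻¹ = x⁻¹ := by
  have h : Set.EqOn (fun u : ℝ => u ^ (-2 : ℝ)) (fun u : ℝ => (u ^ 2)⁻¹) (Set.Ioi x) := by
    intro u hu
    have hu0 : 0 < u := hx.trans hu
    simp only
    rw [Real.rpow_neg hu0.le, Real.rpow_two]
  constructor
  · exact (integrableOn_Ioi_rpow_of_lt (by norm_num : (-2 : ℝ) < -1) hx).congr_fun h
      measurableSet_Ioi
  · rw [← setIntegral_congr_fun measurableSet_Ioi h,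
      integral_Ioi_rpow_of_lt (by norm_num : (-2 : ℝ) < -1) hx]
    have : (-2 : ℝ) + 1 = -1 := by norm_num
    rw [this, Real.rpow_neg_one]
    ring

lemma kex_g_tail {c x : ℝ} (hx : 0 < x) :
    IntegrableOn (kex_g c x) (Set.Ioi x) ∧ ∫ u in Set.Ioi x, kex_g c x u ≤
      c ^ 2 / Real.pi + 20 * c ^ 2 * (x ^ 2 + x ^ 3) := by
  have hpi := Real.pi_pos
  have hpi3 := Real.pi_gt_three
  have i1 := integrableOn_exp_mul_Ioi (a := -(4 * Real.pi)) (by linarith) x
  have i2 := integrableOn_exp_mul_Ioi (a := -Real.pi) (by linarith) x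
  obtain ⟨i3, v3⟩ := kex_inv_sq hx
  have v1 := integral_exp_mul_Ioi (a := -(4 * Real.pi)) (by linarith) x
  have v2 := integral_exp_mul_Ioi (a := -Real.pi) (by linarith) x
  have h : Set.EqOn (kex_g c x) (fun u => 4 * c ^ 2 * Real.exp (4 * Real.pi * x) *
      Real.exp (-(4 * Real.pi) * u) + 20 * c ^ 2 * x ^ 2 * Real.exp (-Real.pi * u) +
      20 * c ^ 2 * x ^ 4 * (u ^ 2)⁻¹) (Set.Ioi x) := by
    intro u hu
    unfold kex_g
    rw [if_neg (not_le.2 hu)]
    ring
  constructor
  · exact IntegrableOn.congr_fun (((i1.const_mul _).add (i2.const_mul _)).add (i3.const_mul _))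
      h.symm measurableSet_Ioi
  · rw [setIntegral_congr_fun measurableSet_Ioi h, kex_add3 (i1.const_mul _) (i2.const_mul _)
      (i3.const_mul _), integral_const_mul, integral_const_mul, integral_const_mul, v1, v2, v3]
    have e1 : Real.exp (4 * Real.pi * x) * Real.exp (-(4 * Real.pi) * x) = 1 := by
      rw [← Real.exp_add]; simp
    have t1 : 4 * c ^ 2 * Real.exp (4 * Real.pi * x) *
        (-Real.exp (-(4 * Real.pi) * x) / -(4 * Real.pi)) = c ^ 2 / Real.pi := by
      rw [neg_div_neg_eq, mul_div_assoc', mul_assoc, e1]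
      field_simp
    have t2 : 20 * c ^ 2 * x ^ 2 * (-Real.exp (-Real.pi * x) / -Real.pi) ≤ 20 * c ^ 2 * x ^ 2 := by
      rw [neg_div_neg_eq]
      apply mul_le_of_le_one_right (by positivity)
      rw [div_le_one hpi]
      have : Real.exp (-Real.pi * x) ≤ 1 := Real.exp_le_one_iff.2 (by nlinarith)
      linarith
    have t3 : 20 * c ^ 2 * x ^ 4 * x⁻¹ = 20 * c ^ 2 * x ^ 3 := by
      field_simp
    rw [t1, t3]
    linarith

lemma kex_g_head {c x : ℝ} (hx : 0 < x) :
    IntegrableOn (kex_g c x) (Set.Ioc 0 x) ∧ ∫ u in Set.Ioc 0 x, kex_g c x u = 44 * c ^ 2 * x := by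
  have h : Set.EqOn (kex_g c x) (fun _ => 4 * c ^ 2 * 11) (Set.Ioc 0 x) := by
    intro u hu
    unfold kex_g
    rw [if_pos hu.2]
  constructor
  · exact (integrableOn_const (by simp)).congr_fun h.symm measurableSet_Ioc
  · rw [setIntegral_congr_fun measurableSet_Ioc h, setIntegral_const]
    simp [hx.le]
    ring

theorem kernel_exists_pr {ε : ℝ} (hε : 0 < ε) : ∃ (T : ℝ) (ρ g : ℝ → ℝ) (G : ℝ), Ker T ρ ∧ Kg g G ∧
    (∀ u, 0 < u → ‖kh ρ u‖ ^ 2 + ‖kh ρ (-u)‖ ^ 2 ≤ g u) ∧
    ∫ u in Set.Ioi (0 : ℝ), g u ≤ 1 / Real.pi + ε := by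
  have hpi := Real.pi_pos
  have hpi3 := Real.pi_gt_three
  -- choice of x
  have hx0 : Tendsto (fun x : ℝ => x) (𝓝[>] 0) (𝓝 0) := tendsto_id.mono_left nhdsWithin_le_nhds
  have hlim : Tendsto (fun x : ℝ => (kex_m x)⁻¹ ^ 2 / Real.pi + 44 * (kex_m x)⁻¹ ^ 2 * x +
      20 * (kex_m x)⁻¹ ^ 2 * (x ^ 2 + x ^ 3)) (𝓝[>] 0) (𝓝 ((1 : ℝ)⁻¹ ^ 2 / Real.pi +
        44 * (1 : ℝ)⁻¹ ^ 2 * 0 + 20 * (1 : ℝ)⁻¹ ^ 2 * (0 ^ 2 + 0 ^ 3))) := by
    have hm := (kex_m_tendsto.inv₀ one_ne_zero).pow 2
    exact ((hm.div_const _).add ((hm.const_mul 44).mul hx0)).add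
      ((hm.const_mul 20).mul ((hx0.pow 2).add (hx0.pow 3)))
  have hval : (1 : ℝ)⁻¹ ^ 2 / Real.pi + 44 * (1 : ℝ)⁻¹ ^ 2 * 0 +
      20 * (1 : ℝ)⁻¹ ^ 2 * (0 ^ 2 + 0 ^ 3) = 1 / Real.pi := by norm_num
  rw [hval] at hlim
  have ev1 : ∀ᶠ x in 𝓝[>] (0 : ℝ), (kex_m x)⁻¹ ^ 2 / Real.pi + 44 * (kex_m x)⁻¹ ^ 2 * x +
      20 * (kex_m x)⁻¹ ^ 2 * (x ^ 2 + x ^ 3) < 1 / Real.pi + ε :=
    hlim.eventually_lt_const (by linarith)
  have ev2 : ∀ᶠ x in 𝓝[>] (0 : ℝ), 0 < kex_m x :=
    kex_m_tendsto.eventually_const_lt one_pos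
  have ev3 : ∀ᶠ x in 𝓝[>] (0 : ℝ), x ∈ Set.Ioo (0 : ℝ) 1 := Ioo_mem_nhdsGT one_pos
  obtain ⟨x, hF, hm, hx, hx1⟩ := (ev1.and (ev2.and ev3)).exists
  set c := (kex_m x)⁻¹ with hc
  have hc0 : 0 < c := inv_pos.2 hm
  set T := (x ^ 4)⁻¹ with hTd
  have hT : 0 < T := by positivity
  have hT1 : 1 ≤ T := (one_le_inv₀ (by positivity)).2 (pow_le_one₀ hx.le hx1.le)
  have hdiv : ∀ u : ℝ, 0 < u → 1 / (T * u ^ 2) = x ^ 4 / u ^ 2 := by
    intro u hu
    rw [hTd]
    field_simp
  -- bounds
  have hk1 : ∀ u, 0 < u → kex_k c T u ≤ 2 * c * (x ^ 4 / u ^ 2) := fun u hu => by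
    rw [← hdiv u hu]; exact kex_k_pos hc0.le hT hu
  have hk2 : ∀ u, 0 < u → kex_k c T (-u) ≤ 2 * c * (Real.exp (2 * Real.pi * x) *
      Real.exp (-(2 * Real.pi * u)) + x ^ 2 * Real.exp (-(Real.pi * u)) + x ^ 4 / u ^ 2) :=
    fun u hu => kex_k_neg hc0.le hx hx1.le hu
  have hx4 : x ^ 4 ≤ x ^ 2 := pow_le_pow_of_le_one hx.le hx1.le (by norm_num)
  have hx2 : x ^ 2 ≤ 1 := pow_le_one₀ hx.le hx1.le
  refine ⟨T, kex_rho c T, kex_g c x, 4 * c ^ 2 * 11, ?_, ?_, ?_, ?_⟩
  · refine ⟨hT1, ?_, ?_, ?_, ?_, ?_, ?_⟩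
    · unfold kex_rho
      have := kex_tri_cont T
      exact (continuous_const.mul this).div (by fun_prop) (fun t => by positivity)
    · intro t
      have := kex_tri_nonneg T t
      unfold kex_rho
      positivity
    · intro t
      unfold kex_rho
      rw [kex_tri_neg, neg_sq]
    · intro t ht
      unfold kex_rho
      rw [kex_tri_supp hT ht.le, mul_zero, zero_div]
    · have : ∫ t, kex_rho c T t = c * kex_m x := by
        unfold kex_m
        rw [← integral_const_mul]
        apply integral_congr_ae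
        filter_upwards with t
        unfold kex_rho
        ring
      rw [this, hc, inv_mul_cancel₀ hm.ne']
    · refine ⟨2 * c * (Real.exp (2 * Real.pi) + 4), fun u hu => ?_⟩
      -- sgm is the real part of the mean
      have hsgm : sgm (kex_rho c T) u = (kex_k c T u + kex_k c T (-u)) / 2 := by
        have hcontρ : Continuous (kex_rho c T) := by
          unfold kex_rho
          have := kex_tri_cont T
          exact (continuous_const.mul this).div (by fun_prop) (fun t => by positivity)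
        have hcsρ : HasCompactSupport (kex_rho c T) := by
          refine HasCompactSupport.intro (isCompact_Icc (a := -T) (b := T)) (fun t ht => ?_)
          have : T ≤ |t| := by
            rw [Set.mem_Icc, not_and_or] at ht
            rcases ht with h | h
            · push Not at h; rw [le_abs]; right; linarith
            · push Not at h; rw [le_abs]; left; linarith
          unfold kex_rho
          rw [kex_tri_supp hT this, mul_zero, zero_div]
        have hint : ∀ w : ℝ, Integrable (fun t : ℝ => (kex_rho c T t : ℂ) * (1 - (t : ℂ) * I) *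
            cexp (-(2 * Real.pi * w * t : ℝ) * I)) := by
          intro w
          apply Continuous.integrable_of_hasCompactSupport
          · fun_prop
          · have : HasCompactSupport (fun t : ℝ => (kex_rho c T t : ℂ)) :=
              hcsρ.comp_left (g := fun y : ℝ => (y : ℂ)) (by simp)
            exact (this.mul_right).mul_right
        have h1 : ((kex_k c T u + kex_k c T (-u) : ℝ) : ℂ) =
            ∫ t : ℝ, ((kex_rho c T t : ℂ) * (1 - (t : ℂ) * I) *
              cexp (-(2 * Real.pi * u * t : ℝ) * I) + (kex_rho c T t : ℂ) * (1 - (t : ℂ) * I) *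
              cexp (-(2 * Real.pi * (-u) * t : ℝ) * I)) := by
          rw [integral_add (hint u) (hint (-u)), ofReal_add, ← kex_rep hT u, ← kex_rep hT (-u)]
          rfl
        have h2 := congrArg Complex.re h1
        rw [ofReal_re] at h2
        have h3 : (∫ t : ℝ, ((kex_rho c T t : ℂ) * (1 - (t : ℂ) * I) *
              cexp (-(2 * Real.pi * u * t : ℝ) * I) + (kex_rho c T t : ℂ) * (1 - (t : ℂ) * I) *
              cexp (-(2 * Real.pi * (-u) * t : ℝ) * I))).re =
            ∫ t : ℝ, 2 * (kex_rho c T t * Real.cos (2 * Real.pi * u * t)) := by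
          have h4 := integral_re ((hint u).add (hint (-u)))
          simp only [Pi.add_apply, RCLike.re_to_complex] at h4
          rw [← h4]
          apply integral_congr_ae
          filter_upwards with t
          have h5 : cexp (-(2 * Real.pi * u * t : ℝ) * I) =
              (Real.cos (2 * Real.pi * u * t) : ℂ) - (Real.sin (2 * Real.pi * u * t) : ℂ) * I := by
            rw [← ofReal_neg, exp_ofReal_mul_I, Real.cos_neg, Real.sin_neg]
            push_cast
            ring
          have h6 : cexp (-(2 * Real.pi * (-u) * t : ℝ) * I) =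
              (Real.cos (2 * Real.pi * u * t) : ℂ) + (Real.sin (2 * Real.pi * u * t) : ℂ) * I := by
            have : -(2 * Real.pi * (-u) * t) = 2 * Real.pi * u * t := by ring
            rw [← ofReal_neg, this, exp_ofReal_mul_I]
          rw [h5, h6]
          have h7 : (kex_rho c T t : ℂ) * (1 - (t : ℂ) * I) *
              ((Real.cos (2 * Real.pi * u * t) : ℂ) - (Real.sin (2 * Real.pi * u * t) : ℂ) * I) +
              (kex_rho c T t : ℂ) * (1 - (t : ℂ) * I) *
              ((Real.cos (2 * Real.pi * u * t) : ℂ) + (Real.sin (2 * Real.pi * u * t) : ℂ) * I) =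
              ((2 * (kex_rho c T t * Real.cos (2 * Real.pi * u * t)) : ℝ) : ℂ) +
              ((-(2 * t * (kex_rho c T t * Real.cos (2 * Real.pi * u * t))) : ℝ) : ℂ) * I := by
            push_cast
            ring
          rw [h7, add_re, ofReal_re, re_ofReal_mul, I_re, mul_zero, add_zero]
        rw [h3, integral_const_mul] at h2
        unfold sgm
        linarith
      rw [hsgm]
      have n1 := kex_k_nonneg hc0.le hT u
      have n2 := kex_k_nonneg hc0.le hT (-u)
      rw [abs_of_nonneg (by positivity)]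
      have hE : 0 < Real.exp (2 * Real.pi) := Real.exp_pos _
      have hE1 : Real.exp (2 * Real.pi * x) ≤ Real.exp (2 * Real.pi) :=
        Real.exp_le_exp.2 (by nlinarith)
      by_cases hu1 : u ≤ 1
      · have b1 := kex_k_le_one hc0.le hT u
        have b2 := kex_k_le_one hc0.le hT (-u)
        rw [le_div_iff₀ hu]
        have : (kex_k c T u + kex_k c T (-u)) / 2 ≤ 2 * c := by linarith
        calc (kex_k c T u + kex_k c T (-u)) / 2 * u ≤ 2 * c * 1 :=
              mul_le_mul this hu1 hu.le (by positivity)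
          _ ≤ 2 * c * (Real.exp (2 * Real.pi) + 4) :=
              mul_le_mul_of_nonneg_left (by linarith) (by positivity)
      · push Not at hu1
        have b1 := hk1 u hu
        have b2 := hk2 u hu
        have w1 : x ^ 4 / u ^ 2 ≤ 1 / u := by
          rw [div_le_div_iff₀ (by positivity) hu]
          have : x ^ 4 ≤ 1 := hx4.trans hx2
          nlinarith
        have w2 : Real.exp (-(2 * Real.pi * u)) ≤ 1 / u := by
          rw [Real.exp_neg, ← one_div]
          apply one_div_le_one_div_of_le hu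
          have := Real.add_one_le_exp (2 * Real.pi * u)
          nlinarith
        have w3 : Real.exp (-(Real.pi * u)) ≤ 1 / u := by
          rw [Real.exp_neg, ← one_div]
          apply one_div_le_one_div_of_le hu
          have := Real.add_one_le_exp (Real.pi * u)
          nlinarith
        have w4 : Real.exp (2 * Real.pi * x) * Real.exp (-(2 * Real.pi * u)) ≤
            Real.exp (2 * Real.pi) * (1 / u) := mul_le_mul hE1 w2 (Real.exp_pos _).le hE.le
        have w5 : x ^ 2 * Real.exp (-(Real.pi * u)) ≤ 1 * (1 / u) :=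
          mul_le_mul hx2 w3 (Real.exp_pos _).le zero_le_one
        have w6 : kex_k c T u ≤ 2 * c * (1 / u) :=
          b1.trans (mul_le_mul_of_nonneg_left w1 (by positivity))
        have w7 : kex_k c T (-u) ≤ 2 * c * (Real.exp (2 * Real.pi) * (1 / u) + 1 * (1 / u) + 1 / u) :=
          b2.trans (mul_le_mul_of_nonneg_left (by linarith) (by positivity))
        have w8 : 2 * c * (Real.exp (2 * Real.pi) + 4) / u =
          2 * c * (Real.exp (2 * Real.pi) * (1 / u) + 4 * (1 / u)) := by ring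
        rw [w8]
        have w9 : 0 < 1 / u := by positivity
        have w10 : 0 ≤ 2 * c * (1 / u) := by positivity
        have w11 : 0 ≤ 2 * c * (Real.exp (2 * Real.pi) * (1 / u)) := by positivity
        nlinarith
  · -- the majorant
    have hgle : ∀ u, x < u → Real.exp (4 * Real.pi * x) *
        Real.exp (-(4 * Real.pi) * u) + 5 * (x ^ 2 * Real.exp (-Real.pi * u) + x ^ 4 * (u ^ 2)⁻¹) ≤ 11 := by
      intro u hu
      have hu0 : 0 < u := hx.trans hu
      have a1 : Real.exp (4 * Real.pi * x) * Real.exp (-(4 * Real.pi) * u) ≤ 1 := by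
        rw [← Real.exp_add]
        exact Real.exp_le_one_iff.2 (by nlinarith)
      have a2 : Real.exp (-Real.pi * u) ≤ 1 := Real.exp_le_one_iff.2 (by nlinarith)
      have a3 : x ^ 4 * (u ^ 2)⁻¹ ≤ 1 := by
        rw [← div_eq_mul_inv, div_le_one (by positivity)]
        have : x ^ 2 ≤ u ^ 2 := pow_le_pow_left₀ hx.le hu.le 2
        linarith
      have a4 : x ^ 2 * Real.exp (-Real.pi * u) ≤ 1 := mul_le_one₀ hx2 (Real.exp_pos _).le a2
      linarith
    have hbdd : ∀ u, kex_g c x u ≤ 4 * c ^ 2 * 11 := by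
      intro u
      unfold kex_g
      split_ifs with h
      · exact le_rfl
      · exact mul_le_mul_of_nonneg_left (hgle u (not_le.1 h)) (by positivity)
    refine ⟨?_, ?_, hbdd, ?_⟩
    · intro u hu v hv huv
      have hu0 : 0 < u := hu
      by_cases h1 : u ≤ x
      · have : kex_g c x u = 4 * c ^ 2 * 11 := by unfold kex_g; rw [if_pos h1]
        rw [this]
        exact hbdd v
      · have h2 : ¬ v ≤ x := fun h => h1 (huv.trans h)
        unfold kex_g
        rw [if_neg h1, if_neg h2]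
        apply mul_le_mul_of_nonneg_left _ (by positivity)
        have a1 : Real.exp (-(4 * Real.pi) * v) ≤ Real.exp (-(4 * Real.pi) * u) :=
          Real.exp_le_exp.2 (by nlinarith)
        have a2 : Real.exp (-Real.pi * v) ≤ Real.exp (-Real.pi * u) :=
          Real.exp_le_exp.2 (by nlinarith)
        have a3 : (v ^ 2)⁻¹ ≤ (u ^ 2)⁻¹ :=
          inv_anti₀ (by positivity) (pow_le_pow_left₀ hu0.le huv 2)
        have a4 := mul_le_mul_of_nonneg_left a1 (Real.exp_pos (4 * Real.pi * x)).le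
        have a5 := mul_le_mul_of_nonneg_left a2 (sq_nonneg x)
        have a6 := mul_le_mul_of_nonneg_left a3 (by positivity : 0 ≤ x ^ 4)
        linarith
    · intro u
      unfold kex_g
      split_ifs <;> positivity
    · rw [← Set.Ioc_union_Ioi_eq_Ioi hx.le]
      exact (kex_g_head hx).1.union (kex_g_tail hx).1
  · intro u hu
    rw [kex_rep hT, kex_rep hT, norm_real, norm_real, Real.norm_eq_abs, Real.norm_eq_abs, sq_abs,
      sq_abs]
    have n1 := kex_k_nonneg hc0.le hT u
    have n2 := kex_k_nonneg hc0.le hT (-u)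
    unfold kex_g
    split_ifs with h
    · have b1 := kex_k_le_one hc0.le hT u
      have b2 := kex_k_le_one hc0.le hT (-u)
      have s1 : kex_k c T u ^ 2 ≤ (2 * c) ^ 2 := pow_le_pow_left₀ n1 b1 2
      have s2 : kex_k c T (-u) ^ 2 ≤ (2 * c) ^ 2 := pow_le_pow_left₀ n2 b2 2
      nlinarith [sq_nonneg c]
    · push Not at h
      have b1 := hk1 u hu
      have b2 := hk2 u hu
      set A := Real.exp (2 * Real.pi * x) * Real.exp (-(2 * Real.pi * u)) with hA
      set B1 := x ^ 2 * Real.exp (-(Real.pi * u)) with hB1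
      set C := x ^ 4 / u ^ 2 with hC
      have hA0 : 0 ≤ A := by positivity
      have hB0 : 0 ≤ B1 := by positivity
      have hC0 : 0 ≤ C := by positivity
      have hA1 : A ≤ 1 := by
        rw [hA, ← Real.exp_add]
        exact Real.exp_le_one_iff.2 (by nlinarith)
      have hB1' : B1 ≤ 1 :=
        mul_le_one₀ hx2 (Real.exp_pos _).le (Real.exp_le_one_iff.2 (by nlinarith))
      have hC1 : C ≤ 1 := by
        rw [hC, div_le_one (by positivity)]
        have : x ^ 2 ≤ u ^ 2 := pow_le_pow_left₀ hx.le h.le 2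
        linarith
      have s1 : kex_k c T u ^ 2 ≤ (2 * c * C) ^ 2 := pow_le_pow_left₀ n1 b1 2
      have s2 : kex_k c T (-u) ^ 2 ≤ (2 * c * (A + B1 + C)) ^ 2 := pow_le_pow_left₀ n2 b2 2
      have e1 : Real.exp (4 * Real.pi * x) * Real.exp (-(4 * Real.pi) * u) = A ^ 2 := by
        rw [hA, mul_pow, ← Real.exp_nat_mul, ← Real.exp_nat_mul]
        congr 1 <;> congr 1 <;> push_cast <;> ring
      have e2 : x ^ 2 * Real.exp (-Real.pi * u) = B1 := by rw [hB1, neg_mul]
      have e3 : x ^ 4 * (u ^ 2)⁻¹ = C := by rw [hC, div_eq_mul_inv]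
      rw [e1, e2, e3]
      have key : C ^ 2 + (A + B1 + C) ^ 2 ≤ A ^ 2 + 5 * (B1 + C) := by
        have k1 : (B1 + C) * (2 * A + (B1 + C)) ≤ (B1 + C) * 4 :=
          mul_le_mul_of_nonneg_left (by linarith) (by linarith)
        have k2 : C * C ≤ C * 1 := mul_le_mul_of_nonneg_left hC1 hC0
        nlinarith
      have hc2 : 0 ≤ 4 * c ^ 2 := by positivity
      have := mul_le_mul_of_nonneg_left key hc2
      nlinarith
  · rw [← Set.Ioc_union_Ioi_eq_Ioi hx.le, setIntegral_union (Set.Ioc_disjoint_Ioi le_rfl)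
      measurableSet_Ioi (kex_g_head hx).1 (kex_g_tail hx).1, (kex_g_head hx).2]
    have := (kex_g_tail (c := c) hx).2
    linarith

theorem kernel_exists : type_of% @kernel_exists_pr := @kernel_exists_pr

end Pool.Agent.KSL
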