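import Pool.Agent.Lib_helper68.KSL.Defs
import Pool.Agent.Lib_helper68.KSLF.GDL
import Pool.Agent.Lib_helper68.KSLF.GTH
import Pool.Agent.Lib_helper68.KSLF.HBS
import Pool.Agent.Lib_helper68.KSLF.KEX
import Pool.Agent.Lib_helper68.KSLF.SZF

/-!
# KSL block SEC (MP_cc4f83_nt): the second moment of the mollified central values
-/

namespace Pool.Agent.KSL

open Pool.Agent.LEV Pool.Agent.LVB
open Pool.Agent.FG61 (mu phi cc ff AA Lam)
open Complex MeasureTheory Filter Topology UpperHalfPlane ModularGroup ProbabilityTheory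
open scoped MatrixGroups Modular ENNReal ModularForm ComplexConjugate ContDiff

theorem sec_cn_nonneg (z A : ℕ) (a : ℕ → ℝ) : 0 ≤ cn z A a := by
  unfold cn
  refine tsum_nonneg fun m => ?_
  split_ifs
  · positivity
  · exact le_rfl

theorem sec_q {δ : ℝ} (h0 : 0 < δ) (h1 : δ < 1 / 4) {T : ℝ} (hT : 1 ≤ T) {ε₂ : ℝ}
    (h2 : 0 < ε₂) (h3 : ε₂ ≤ δ / 2) : ∃ N₀ : ℕ, ∀ N : ℕ, N₀ ≤ N →
      1 ≤ QQ δ ε₂ N ∧ 100 * T * QQ δ ε₂ N ≤ Real.sqrt N := by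
  obtain ⟨N₁, hN₁⟩ := sizes h0 h1 (ε := 1) one_pos
  have ht : Tendsto (fun N : ℕ => (N : ℝ) ^ (δ / 2)) atTop atTop :=
    (tendsto_rpow_atTop (by positivity)).comp tendsto_natCast_atTop_atTop
  obtain ⟨N₂, hN₂⟩ := Filter.eventually_atTop.1 (ht.eventually_ge_atTop (200 * T))
  refine ⟨max N₁ (max N₂ 1), fun N hN => ?_⟩
  have a1 := hN₁ N ((le_max_left _ _).trans hN)
  have a2 : 200 * T ≤ (N : ℝ) ^ (δ / 2) := hN₂ N ((le_max_left _ _).trans ((le_max_right _ _).trans hN))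
  have a3 : 1 ≤ N := (le_max_right _ _).trans ((le_max_right _ _).trans hN)
  obtain ⟨k1, k2, _⟩ := ka_size h2 a3
  have hN0 : (0 : ℝ) < N := by exact_mod_cast a3
  have hN1 : (1 : ℝ) ≤ N := by exact_mod_cast a3
  have hM : 0 < MM δ N := by
    have := a1.2.2.1
    omega
  constructor
  · unfold QQ QA
    have : 0 < 2 * MM δ N * KA ε₂ N := by positivity
    omega
  · have e1 : (MM δ N : ℝ) ≤ (N : ℝ) ^ (1 / 2 - δ) := by
      unfold MM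
      exact Nat.floor_le (by positivity)
    have e2 : (KA ε₂ N : ℝ) ≤ (N : ℝ) ^ (δ / 2) :=
      k2.trans (Real.rpow_le_rpow_of_exponent_le hN1 h3)
    have e3 : (QQ δ ε₂ N : ℝ) = 2 * MM δ N * KA ε₂ N := by
      unfold QQ QA
      push_cast
      ring
    rw [e3]
    have e4 : (MM δ N : ℝ) * KA ε₂ N ≤ (N : ℝ) ^ (1 / 2 - δ) * (N : ℝ) ^ (δ / 2) :=
      mul_le_mul e1 e2 (by positivity) (by positivity)
    have e5 : (N : ℝ) ^ (1 / 2 - δ) * (N : ℝ) ^ (δ / 2) = (N : ℝ) ^ (1 / 2 - δ / 2) := by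
      rw [← Real.rpow_add hN0]
      congr 1
      ring
    have e6 : (N : ℝ) ^ (δ / 2) * (N : ℝ) ^ (1 / 2 - δ / 2) = Real.sqrt N := by
      rw [← Real.rpow_add hN0, Real.sqrt_eq_rpow]
      congr 1
      ring
    calc 100 * T * (2 * MM δ N * KA ε₂ N) = 200 * T * ((MM δ N : ℝ) * KA ε₂ N) := by ring
      _ ≤ 200 * T * (N : ℝ) ^ (1 / 2 - δ / 2) := by
          refine mul_le_mul_of_nonneg_left (e4.trans e5.le) (by positivity)
      _ ≤ (N : ℝ) ^ (δ / 2) * (N : ℝ) ^ (1 / 2 - δ / 2) :=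
          mul_le_mul_of_nonneg_right a2 (by positivity)
      _ = _ := e6

/-- the final inequality -/
theorem sec_fin {S B A Am e0 m ε : ℝ} (hS : S ≤ A) (hA0 : 0 ≤ A) (hAm : A ≤ Am) (hB0 : 0 ≤ B)
    (hBe : B ≤ e0) (he1 : e0 ≤ 1) (h1 : 4 * Real.pi * A ≤ m + ε / 2)
    (h2 : 4 * Real.pi * ((2 * Real.sqrt Am + 1) * e0) ≤ ε / 2) :
    4 * Real.pi * (Real.sqrt S + B) ^ 2 ≤ m + ε := by
  have hpi := Real.pi_pos
  have hsA : Real.sqrt S ≤ Real.sqrt A := Real.sqrt_le_sqrt hS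
  have hS0 : 0 ≤ Real.sqrt S := Real.sqrt_nonneg _
  have e1 : (Real.sqrt S + B) ^ 2 ≤ (Real.sqrt A + B) ^ 2 :=
    pow_le_pow_left₀ (by positivity) (add_le_add hsA le_rfl) 2
  have f1 : Real.sqrt A ^ 2 = A := Real.sq_sqrt hA0
  have f2 : Real.sqrt A ≤ Real.sqrt Am := Real.sqrt_le_sqrt hAm
  have f4 : Real.sqrt A * B ≤ Real.sqrt Am * e0 := mul_le_mul f2 hBe hB0 (by positivity)
  have f5 : B ^ 2 ≤ e0 := by nlinarith
  have e2 : (Real.sqrt A + B) ^ 2 ≤ A + (2 * Real.sqrt Am + 1) * e0 := by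
    calc (Real.sqrt A + B) ^ 2 = Real.sqrt A ^ 2 + 2 * (Real.sqrt A * B) + B ^ 2 := by ring
      _ ≤ A + 2 * (Real.sqrt Am * e0) + e0 := by rw [f1]; linarith
      _ = _ := by ring
  calc 4 * Real.pi * (Real.sqrt S + B) ^ 2
      ≤ 4 * Real.pi * (A + (2 * Real.sqrt Am + 1) * e0) :=
        mul_le_mul_of_nonneg_left (e1.trans e2) (by positivity)
    _ = 4 * Real.pi * A + 4 * Real.pi * ((2 * Real.sqrt Am + 1) * e0) := by ring
    _ ≤ _ := by linarith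

theorem sec_A {δ c K C₀ ε' ε : ℝ} (h1 : δ < 1 / 4) (hc0 : 0 ≤ c) (hcC : c ≤ C₀)
    (hK : K = 1 + max C₀ 0) (he0 : 0 < ε') (he1 : ε' ≤ 1)
    (he2 : 4 * Real.pi * ε' * K ≤ ε / 2) {A : ℝ}
    (hA : A = (1 / Real.pi * ((1 + 1 / (1 - 2 * δ)) * c)) / 2 + ε' * (1 + c / 4)) :
    0 ≤ A ∧ A ≤ 4 * K ∧ 4 * Real.pi * A ≤ 2 * (1 + 1 / (1 - 2 * δ)) * c + ε / 2 := by
  have hpi := Real.pi_pos
  have h2δ : 1 / 2 < 1 - 2 * δ := by linarith
  have hinv : 1 / (1 - 2 * δ) ≤ 2 := by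
    rw [div_le_iff₀ (by linarith)]
    linarith
  have hinv0 : 0 < 1 / (1 - 2 * δ) := by
    apply div_pos one_pos
    linarith
  have f2 := le_max_left C₀ 0
  have f3 := le_max_right C₀ 0
  have hcK : c ≤ K := by rw [hK]; linarith
  have f1 : 1 + c / 4 ≤ K := by rw [hK]; linarith
  have hK0 : 0 < K := by rw [hK]; linarith
  refine ⟨?_, ?_, ?_⟩
  · rw [hA]
    positivity
  · have e1 : 1 / Real.pi ≤ 1 := by
      rw [div_le_one hpi]
      linarith [Real.pi_gt_three]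
    have e2 : (1 / Real.pi * ((1 + 1 / (1 - 2 * δ)) * c)) / 2 ≤ (1 * ((1 + 2) * K)) / 2 := by
      gcongr
    have e3 : ε' * (1 + c / 4) ≤ 1 * K := by gcongr
    rw [hA]
    linarith
  · have e3 : 4 * Real.pi * (ε' * (1 + c / 4)) ≤ ε / 2 := by
      calc 4 * Real.pi * (ε' * (1 + c / 4)) ≤ 4 * Real.pi * (ε' * K) := by gcongr
        _ = 4 * Real.pi * ε' * K := by ring
        _ ≤ _ := he2
    calc 4 * Real.pi * A = 2 * (1 + 1 / (1 - 2 * δ)) * c + 4 * Real.pi * (ε' * (1 + c / 4)) := by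
          rw [hA]
          have : 4 * Real.pi * (1 / Real.pi * ((1 + 1 / (1 - 2 * δ)) * c) / 2 + ε' * (1 + c / 4))
              = (Real.pi * (1 / Real.pi)) * (2 * (1 + 1 / (1 - 2 * δ)) * c)
                + 4 * Real.pi * (ε' * (1 + c / 4)) := by ring
          rw [this, mul_one_div_cancel hpi.ne', one_mul]
      _ ≤ _ := by linarith

/-- the second moment of the mollified central values -/
theorem second_moment_pr {δ : ℝ} (h0 : 0 < δ) (h1 : δ < 1 / 4) {ε : ℝ} (hε : 0 < ε) (C₀ : ℝ) :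
    ∃ ε₁ κ : ℝ, 0 < ε₁ ∧ 0 < κ ∧ ∀ ε₂ : ℝ, 0 < ε₂ → ε₂ ≤ ε₁ → ∃ N₀ : ℕ, ∀ (N : ℕ)
    [Fact N.Prime], N₀ ≤ N → ∀ {ι : Type} [Fintype ι] (f : ι → S2 N), Function.Injective f →
    (∀ i, IsNew (f i)) → (∀ i, co (f i) N = 1) → ∀ a : ℕ → ℝ, Sht (zz N) (KA ε₂ N) a →
    cn (zz N) (KA ε₂ N) a ≤ C₀ → ∀ s : ℕ → ℝ, (∀ m, s m ≠ 0 → m ≤ KA ε₂ N) →
    cd (zz N) (KA ε₂ N) a s ≤ κ →
      ∑ i, om (f i) * ‖4 * Real.pi * lw (f i) (QQ δ ε₂ N) (ww δ ε₂ N a)‖ ^ 2 ≤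
        2 * (1 + 1 / (1 - 2 * δ)) * cn (zz N) (KA ε₂ N) a + ε := by
  have hpi := Real.pi_pos
  set K : ℝ := 1 + max C₀ 0 with hK
  have hK1 : 1 ≤ K := by
    rw [hK]
    have := le_max_right C₀ 0
    linarith
  have hK0 : 0 < K := by linarith
  set ε' : ℝ := min 1 (ε / (8 * Real.pi * K)) with hε'
  have hε'0 : 0 < ε' := lt_min one_pos (by positivity)
  have hε'1 : ε' ≤ 1 := min_le_left _ _
  have hε'2 : 4 * Real.pi * ε' * K ≤ ε / 2 := by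
    have h2 : ε' ≤ ε / (8 * Real.pi * K) := min_le_right _ _
    calc 4 * Real.pi * ε' * K ≤ 4 * Real.pi * (ε / (8 * Real.pi * K)) * K := by gcongr
      _ = ε / 2 := by
          field_simp
          ring
  obtain ⟨T, ρ, g, G, hρ, hg, hd, hint⟩ := kernel_exists hε'0
  obtain ⟨C, hC, hfam⟩ := fam_bound hρ
  obtain ⟨C₂, hC₂, hgd⟩ := gd_upper
  obtain ⟨N₁, hhs⟩ := hs_bound hρ h0 h1 hε'0 C₀
  obtain ⟨ε₁, κ, hε₁, hκ, hbs⟩ := bs_bound hρ hg hd h0 h1 hε'0 C₀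
  obtain ⟨N₂, hN₂⟩ := hgd δ h0 h1
  -- the bound for the main part
  set Am : ℝ := 4 * K with hAm
  have hAm0 : 0 < Am := by positivity
  set e0 : ℝ := min 1 (ε / (8 * Real.pi * (2 * Real.sqrt Am + 1))) with he
  have he0 : 0 < e0 := lt_min one_pos (by positivity)
  have he1 : e0 ≤ 1 := min_le_left _ _
  have he2 : 4 * Real.pi * ((2 * Real.sqrt Am + 1) * e0) ≤ ε / 2 := by
    have h2 : e0 ≤ ε / (8 * Real.pi * (2 * Real.sqrt Am + 1)) := min_le_right _ _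
    calc 4 * Real.pi * ((2 * Real.sqrt Am + 1) * e0)
        ≤ 4 * Real.pi * ((2 * Real.sqrt Am + 1) * (ε / (8 * Real.pi * (2 * Real.sqrt Am + 1)))) := by
          gcongr
      _ = ε / 2 := by
          field_simp
          ring
  set D : ℝ := C ^ 2 * (C₂ * K) with hD
  have hD0 : 0 < D := by positivity
  obtain ⟨N₃, hN₃⟩ := sizes h0 h1 (ε := e0 ^ 2 / D) (by positivity)
  refine ⟨min ε₁ (δ / 2), κ, lt_min hε₁ (by positivity), hκ, fun ε₂ h2 h3 => ?_⟩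
  obtain ⟨N₄, hN₄⟩ := hbs ε₂ h2 (h3.trans (min_le_left _ _))
  obtain ⟨N₅, hN₅⟩ := sec_q h0 h1 hρ.T1 h2 (h3.trans (min_le_right _ _))
  refine ⟨max N₁ (max N₂ (max N₃ (max N₄ N₅))), ?_⟩
  intro N _ hN ι _ f hinj hnew hco a ha hcn s hs hcd
  have b1 : N₁ ≤ N := (le_max_left _ _).trans hN
  have hN' := (le_max_right _ _).trans hN
  have b2 : N₂ ≤ N := (le_max_left _ _).trans hN'
  have hN'' := (le_max_right _ _).trans hN'
  have b3 : N₃ ≤ N := (le_max_left _ _).trans hN''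
  have hN''' := (le_max_right _ _).trans hN''
  have b4 : N₄ ≤ N := (le_max_left _ _).trans hN'''
  have b5 : N₅ ≤ N := (le_max_right _ _).trans hN'''
  obtain ⟨q1, q2⟩ := hN₅ N b5
  set c : ℝ := cn (zz N) (KA ε₂ N) a with hc
  have hc0 : 0 ≤ c := sec_cn_nonneg _ _ _
  have hcK : c ≤ K := by
    have := le_max_left C₀ 0
    rw [hK]
    linarith
  have hHS : HS N (QQ δ ε₂ N) (ww δ ε₂ N a) ρ ≤
      1 / Real.pi * ((1 / 2 + 1 / (1 - 2 * δ)) * c) + ε' := hhs N b1 (KA ε₂ N) a ha.sup hcn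
  have hBS : BS N (QQ δ ε₂ N) (ww δ ε₂ N a) ρ ≤
      (∫ u in Set.Ioi (0 : ℝ), g u) * (c / 2) + ε' := hN₄ N b4 a ha hcn s hs hcd
  have hBS2 : BS N (QQ δ ε₂ N) (ww δ ε₂ N a) ρ ≤ (1 / Real.pi + ε') * (c / 2) + ε' := by
    refine hBS.trans (add_le_add ?_ le_rfl)
    exact mul_le_mul_of_nonneg_right hint (by positivity)
  have hGD : ∑ q ∈ Finset.Icc 1 (QQ δ ε₂ N), phi q * ww δ ε₂ N a q ^ 2 ≤
      C₂ * c / Real.log (MM δ N) := hN₂ N b2 (KA ε₂ N) a ha.sup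
  obtain ⟨_, z2, zM, _, zl, _⟩ := hN₃ N b3
  have hz0 : (0 : ℝ) < zz N := by
    have : 0 < zz N := by omega
    exact_mod_cast this
  have hlM : D / e0 ^ 2 ≤ Real.log (MM δ N) := by
    have e1 : Real.log (zz N) ≤ Real.log (MM δ N) := Real.log_le_log hz0 (by exact_mod_cast zM.le)
    have e2 : 1 / (e0 ^ 2 / D) = D / e0 ^ 2 := by rw [one_div_div]
    rw [e2] at zl
    exact zl.trans e1
  have hlM0 : 0 < Real.log (MM δ N) := lt_of_lt_of_le (by positivity) hlM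
  -- the two parts
  set B : ℝ := C * Real.sqrt (∑ q ∈ Finset.Icc 1 (QQ δ ε₂ N), phi q * ww δ ε₂ N a q ^ 2) with hB
  have hB0 : 0 ≤ B := by positivity
  have hBe : B ≤ e0 := by
    have e1 : ∑ q ∈ Finset.Icc 1 (QQ δ ε₂ N), phi q * ww δ ε₂ N a q ^ 2 ≤ (e0 / C) ^ 2 := by
      refine hGD.trans ?_
      rw [div_le_iff₀ hlM0]
      have e2 : C₂ * c ≤ C₂ * K := mul_le_mul_of_nonneg_left hcK hC₂.le
      have e3 : C₂ * K = (e0 / C) ^ 2 * (D / e0 ^ 2) := by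
        rw [hD]
        field_simp
      calc C₂ * c ≤ C₂ * K := e2
        _ = (e0 / C) ^ 2 * (D / e0 ^ 2) := e3
        _ ≤ (e0 / C) ^ 2 * Real.log (MM δ N) := mul_le_mul_of_nonneg_left hlM (by positivity)
    have e4 : Real.sqrt (∑ q ∈ Finset.Icc 1 (QQ δ ε₂ N), phi q * ww δ ε₂ N a q ^ 2) ≤ e0 / C :=
      Real.sqrt_le_iff.2 ⟨by positivity, e1⟩
    calc B ≤ C * (e0 / C) := mul_le_mul_of_nonneg_left e4 hC.le
      _ = e0 := by field_simp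
  set A : ℝ := (1 / Real.pi * ((1 + 1 / (1 - 2 * δ)) * c)) / 2 + ε' * (1 + c / 4) with hA
  obtain ⟨hA0, hAAm, hAeps⟩ := sec_A h1 hc0 hcn hK hε'0 hε'1 hε'2 hA
  have hAle : (HS N (QQ δ ε₂ N) (ww δ ε₂ N a) ρ + BS N (QQ δ ε₂ N) (ww δ ε₂ N a) ρ) / 2 ≤ A := by
    have e1 := add_le_add hHS hBS2
    have e2 : 1 / Real.pi * ((1 / 2 + 1 / (1 - 2 * δ)) * c) + ε' + ((1 / Real.pi + ε') * (c / 2) + ε')
        = 2 * A := by
      rw [hA]
      ring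
    linarith
  exact (hfam N f hinj hnew hco (QQ δ ε₂ N) q1 q2 (ww δ ε₂ N a)).trans
    (sec_fin hAle hA0 hAAm hB0 hBe he1 hAeps he2)

theorem second_moment : type_of% @second_moment_pr := @second_moment_pr

end Pool.Agent.KSL
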