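import Pool.Agent.Lib_helper68.KSL.Defs
import Pool.Agent.Lib_helper41.LVBF.BLE
import Pool.Agent.Lib_helper41.LVBF.PSD
import Pool.Agent.Lib_helper68.LEV.MRT
import Pool.Agent.Lib_helper41.LVBF.EXT

/-! Block BSX: the sixth moment of the mollified Euler product. -/

set_option autoImplicit false

namespace Pool.Agent.KSL

open Pool.Agent.LEV Pool.Agent.LVB
open Complex MeasureTheory Filter Topology UpperHalfPlane ModularGroup ProbabilityTheory
open scoped MatrixGroups Modular ENNReal ModularForm ComplexConjugate ContDiff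

/-- the sixth power of the Euler factor -/
theorem BSX_er6 {h x : ℝ} (h0 : 0 < h) (h1 : h ≤ 1 / 300) (hx : |x| ≤ 2) :
    0 < 1 - x * h + h ^ 2 ∧ ((1 - x * h + h ^ 2)⁻¹) ^ 6 ≤
      Real.exp (6 * (x * h - h ^ 2) + 3 * (x * h - h ^ 2) ^ 2 + 12 * |x * h - h ^ 2| ^ 3) := by
  set w := x * h - h ^ 2 with hw
  have hxh : |x * h| ≤ 2 * h := by
    rw [abs_mul, abs_of_pos h0]
    exact mul_le_mul_of_nonneg_right hx h0.le
  have hw3 : |w| ≤ 3 * h := by
    have : |w| ≤ |x * h| + |h ^ 2| := abs_sub _ _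
    rw [abs_of_nonneg (sq_nonneg h)] at this
    have h2 : h ^ 2 ≤ h := by nlinarith
    linarith
  have hw1 : |w| ≤ 1 / 100 := by linarith
  have hw1' := abs_le.1 hw1
  have he : 1 - x * h + h ^ 2 = 1 - w := by rw [hw]; ring
  have hpos : 0 < 1 - w := by linarith
  rw [he]
  refine ⟨hpos, ?_⟩
  have hlog := Real.abs_log_sub_add_sum_range_le (x := w) (by linarith) 2
  rw [Finset.sum_range_succ, Finset.sum_range_succ, Finset.sum_range_zero] at hlog
  have h3 : |w| ^ 3 / (1 - |w|) ≤ 2 * |w| ^ 3 := by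
    rw [div_le_iff₀ (by linarith)]
    have : 0 ≤ |w| ^ 3 := by positivity
    nlinarith
  have h4 : -Real.log (1 - w) ≤ w + w ^ 2 / 2 + 2 * |w| ^ 3 := by
    have h5 := (abs_le.1 (hlog.trans h3)).1
    norm_num at h5
    linarith
  have h6 : ((1 - w)⁻¹) ^ 6 = Real.exp (6 * (-Real.log (1 - w))) := by
    rw [show (6 : ℝ) = ((6 : ℕ) : ℝ) by norm_num, Real.exp_nat_mul, Real.exp_neg,
      Real.exp_log hpos]
  rw [h6]
  apply Real.exp_le_exp.2
  linarith

theorem BSX_exp {D : ℝ} (hD : |D| ≤ 1) : Real.exp D ≤ 1 + D + D ^ 2 := by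
  have := Real.abs_exp_sub_one_sub_id_le hD
  have := (abs_le.1 this).2
  linarith

/-- the sharp local estimate -/
theorem BSX_loc1 {h x : ℝ} (h0 : 0 < h) (h1 : h ≤ 1 / 300) (hx : |x| ≤ 2) :
    ((1 - x * h + h ^ 2)⁻¹) ^ 6 * Real.exp (-(6 * (x * h)) + 3 * h ^ 2) ≤
      1 + 0 * x + 3 * h ^ 2 * (x ^ 2 - 1) + 1000 * h ^ 3 := by
  obtain ⟨_, h2⟩ := BSX_er6 h0 h1 hx
  have hx' := abs_le.1 hx
  have hx2 : x ^ 2 ≤ 4 := by nlinarith
  have hx0 : 0 ≤ x ^ 2 := sq_nonneg x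
  have hh2 : 0 < h ^ 2 := by positivity
  have hh3 : 0 < h ^ 3 := by positivity
  have hw3 : |x * h - h ^ 2| ≤ 3 * h := by
    have h3 : |x * h - h ^ 2| ≤ |x * h| + |h ^ 2| := abs_sub _ _
    rw [abs_of_nonneg (sq_nonneg h), abs_mul, abs_of_pos h0] at h3
    have h4 : h ^ 2 ≤ h := by nlinarith
    have h5 : |x| * h ≤ 2 * h := mul_le_mul_of_nonneg_right hx h0.le
    linarith
  have hw33 : |x * h - h ^ 2| ^ 3 ≤ 27 * h ^ 3 := by
    calc |x * h - h ^ 2| ^ 3 ≤ (3 * h) ^ 3 := pow_le_pow_left₀ (abs_nonneg _) hw3 3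
      _ = 27 * h ^ 3 := by ring
  have hmain : 6 * (x * h - h ^ 2) + 3 * (x * h - h ^ 2) ^ 2 + 12 * |x * h - h ^ 2| ^ 3 +
      (-(6 * (x * h)) + 3 * h ^ 2) ≤ 3 * h ^ 2 * (x ^ 2 - 1) + 339 * h ^ 3 := by
    have e1 : 3 * (x * h - h ^ 2) ^ 2 = 3 * x ^ 2 * h ^ 2 - 6 * x * h ^ 3 + 3 * h ^ 4 := by ring
    have e2 : -(6 * x * h ^ 3) ≤ 12 * h ^ 3 := by nlinarith
    have e3 : 3 * h ^ 4 ≤ 3 * h ^ 3 := by
      have : h ^ 4 = h * h ^ 3 := by ring
      rw [this]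
      nlinarith
    rw [e1]
    linarith
  set D := 3 * h ^ 2 * (x ^ 2 - 1) + 339 * h ^ 3 with hD
  have hD1 : |D| ≤ 20 * h ^ 2 := by
    have e1 : |3 * h ^ 2 * (x ^ 2 - 1)| ≤ 9 * h ^ 2 := by
      rw [abs_mul, abs_of_pos (by positivity : 0 < 3 * h ^ 2)]
      have : |x ^ 2 - 1| ≤ 3 := by
        rw [abs_le]
        constructor <;> linarith
      nlinarith
    have e2 : |339 * h ^ 3| ≤ 2 * h ^ 2 := by
      rw [abs_of_pos (by positivity)]
      have : h ^ 3 = h * h ^ 2 := by ring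
      rw [this]
      nlinarith
    have := abs_add_le (3 * h ^ 2 * (x ^ 2 - 1)) (339 * h ^ 3)
    linarith
  have hh : h ^ 2 ≤ 1 / 90000 := by
    have : h ^ 2 ≤ (1 / 300) ^ 2 := pow_le_pow_left₀ h0.le h1 2
    linarith
  have hD2 : |D| ≤ 1 := by linarith
  have hDsq : D ^ 2 ≤ 2 * h ^ 3 := by
    rw [← sq_abs]
    calc |D| ^ 2 ≤ (20 * h ^ 2) ^ 2 := pow_le_pow_left₀ (abs_nonneg _) hD1 2
      _ = 400 * h * h ^ 3 := by ring
      _ ≤ 2 * h ^ 3 := by
          apply mul_le_mul_of_nonneg_right _ hh3.le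
          linarith
  calc ((1 - x * h + h ^ 2)⁻¹) ^ 6 * Real.exp (-(6 * (x * h)) + 3 * h ^ 2)
      ≤ Real.exp (6 * (x * h - h ^ 2) + 3 * (x * h - h ^ 2) ^ 2 + 12 * |x * h - h ^ 2| ^ 3) *
          Real.exp (-(6 * (x * h)) + 3 * h ^ 2) :=
        mul_le_mul_of_nonneg_right h2 (Real.exp_pos _).le
    _ = Real.exp (6 * (x * h - h ^ 2) + 3 * (x * h - h ^ 2) ^ 2 + 12 * |x * h - h ^ 2| ^ 3 +
          (-(6 * (x * h)) + 3 * h ^ 2)) := by rw [← Real.exp_add]
    _ ≤ Real.exp D := Real.exp_le_exp.2 hmain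
    _ ≤ 1 + D + D ^ 2 := BSX_exp hD2
    _ ≤ 1 + 0 * x + 3 * h ^ 2 * (x ^ 2 - 1) + 1000 * h ^ 3 := by
        rw [hD] at hDsq ⊢
        linarith

/-- the crude local estimate -/
theorem BSX_loc2 {h x τ : ℝ} (h0 : 0 < h) (h1 : h ≤ 1 / 300) (hx : |x| ≤ 2) (hτ : |τ| = 134) :
    ((1 - x * h + h ^ 2)⁻¹) ^ 6 * Real.exp (τ * (x * h)) ≤
      1 + (6 + τ) * h * x + 0 * (x ^ 2 - 1) + 80000 * h ^ 2 := by
  obtain ⟨_, h2⟩ := BSX_er6 h0 h1 hx
  have hx' := abs_le.1 hx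
  have hh2 : 0 < h ^ 2 := by positivity
  have hh3 : 0 < h ^ 3 := by positivity
  have hw3 : |x * h - h ^ 2| ≤ 3 * h := by
    have h3 : |x * h - h ^ 2| ≤ |x * h| + |h ^ 2| := abs_sub _ _
    rw [abs_of_nonneg (sq_nonneg h), abs_mul, abs_of_pos h0] at h3
    have h4 : h ^ 2 ≤ h := by nlinarith
    have h5 : |x| * h ≤ 2 * h := mul_le_mul_of_nonneg_right hx h0.le
    linarith
  have hw33 : |x * h - h ^ 2| ^ 3 ≤ 27 * h ^ 3 := by
    calc |x * h - h ^ 2| ^ 3 ≤ (3 * h) ^ 3 := pow_le_pow_left₀ (abs_nonneg _) hw3 3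
      _ = 27 * h ^ 3 := by ring
  have hw32 : (x * h - h ^ 2) ^ 2 ≤ 9 * h ^ 2 := by
    rw [← sq_abs]
    calc |x * h - h ^ 2| ^ 2 ≤ (3 * h) ^ 2 := pow_le_pow_left₀ (abs_nonneg _) hw3 2
      _ = 9 * h ^ 2 := by ring
  have h33 : h ^ 3 ≤ h ^ 2 / 300 := by
    have : h ^ 3 = h * h ^ 2 := by ring
    rw [this]
    nlinarith
  have hmain : 6 * (x * h - h ^ 2) + 3 * (x * h - h ^ 2) ^ 2 + 12 * |x * h - h ^ 2| ^ 3 +
      τ * (x * h) ≤ (6 + τ) * h * x + 60 * h ^ 2 := by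
    linarith
  set D := (6 + τ) * h * x + 60 * h ^ 2 with hD
  have hD1 : |D| ≤ 281 * h := by
    have e1 : |(6 + τ) * h * x| ≤ 280 * h := by
      rw [abs_mul, abs_mul, abs_of_pos h0]
      have e2 : |6 + τ| ≤ 140 := by
        have := abs_add_le (6 : ℝ) τ
        rw [hτ, abs_of_pos (by norm_num : (0:ℝ) < 6)] at this
        linarith
      calc |6 + τ| * h * |x| ≤ 140 * h * 2 := by gcongr
        _ = 280 * h := by ring
    have e2 : |60 * h ^ 2| ≤ h := by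
      rw [abs_of_pos (by positivity)]
      nlinarith
    have := abs_add_le ((6 + τ) * h * x) (60 * h ^ 2)
    linarith
  have hD2 : |D| ≤ 1 := by linarith
  have hDsq : D ^ 2 ≤ 79000 * h ^ 2 := by
    rw [← sq_abs]
    calc |D| ^ 2 ≤ (281 * h) ^ 2 := pow_le_pow_left₀ (abs_nonneg _) hD1 2
      _ = 78961 * h ^ 2 := by ring
      _ ≤ 79000 * h ^ 2 := by linarith
  calc ((1 - x * h + h ^ 2)⁻¹) ^ 6 * Real.exp (τ * (x * h))
      ≤ Real.exp (6 * (x * h - h ^ 2) + 3 * (x * h - h ^ 2) ^ 2 + 12 * |x * h - h ^ 2| ^ 3) *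
          Real.exp (τ * (x * h)) :=
        mul_le_mul_of_nonneg_right h2 (Real.exp_pos _).le
    _ = Real.exp (6 * (x * h - h ^ 2) + 3 * (x * h - h ^ 2) ^ 2 + 12 * |x * h - h ^ 2| ^ 3 +
          τ * (x * h)) := by rw [← Real.exp_add]
    _ ≤ Real.exp D := Real.exp_le_exp.2 hmain
    _ ≤ 1 + D + D ^ 2 := BSX_exp hD2
    _ ≤ 1 + (6 + τ) * h * x + 0 * (x ^ 2 - 1) + 80000 * h ^ 2 := by
        rw [hD] at hDsq ⊢
        linarith

/-- expectation of a local factor -/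
theorem BSX_local {I : Finset ℕ} {P : Measure (ℕ → ℝ)} (hP : IsST I P) {p : ℕ} (hp : p ∈ I)
    {F : ℝ → ℝ} (hF : Measurable F) (h0 : ∀ y, |y| ≤ 2 → 0 ≤ F y) {a b c : ℝ}
    (h : ∀ y, |y| ≤ 2 → F y ≤ 1 + a * y + b * (y ^ 2 - 1) + c) :
    0 ≤ ∫ x, F (x p) ∂P ∧ ∫ x, F (x p) ∂P ≤ 1 + c := by
  have := hP.prob
  have hbd : ∀ᵐ x ∂P, |x p| ≤ 2 := by
    filter_upwards [hP.bdd] with x hx
    exact hx p hp
  have i1 : Integrable (fun x : ℕ → ℝ => x p) P := by
    refine Integrable.of_bound (measurable_pi_apply p).aestronglyMeasurable 2 ?_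
    filter_upwards [hbd] with x hx
    exact hx
  have i2 : Integrable (fun x : ℕ → ℝ => x p ^ 2) P := by
    refine Integrable.of_bound ((measurable_pi_apply p).pow_const 2).aestronglyMeasurable 4 ?_
    filter_upwards [hbd] with x hx
    rw [norm_pow]
    calc ‖x p‖ ^ 2 ≤ 2 ^ 2 := pow_le_pow_left₀ (norm_nonneg _) hx 2
      _ = 4 := by norm_num
  have m1 : ∫ x : ℕ → ℝ, x p ∂P = 0 := by
    have := hP.mom p hp 1
    simpa [Uu] using this
  have m2 : ∫ x : ℕ → ℝ, x p ^ 2 ∂P = 1 := by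
    have h2 := hP.mom p hp 2
    have h3 : ∀ x : ℕ → ℝ, Uu (x p) 2 = x p ^ 2 - 1 := by
      intro x
      show x p * Uu (x p) 1 - Uu (x p) 0 = _
      show x p * x p - 1 = _
      ring
    simp_rw [h3] at h2
    rw [integral_sub i2 (integrable_const _)] at h2
    simp at h2
    linarith
  have iR : Integrable (fun x : ℕ → ℝ => 1 + a * x p + b * (x p ^ 2 - 1) + c) P :=
    (((integrable_const _).add (i1.const_mul a)).add ((i2.sub (integrable_const _)).const_mul b)).add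
      (integrable_const _)
  have mR : ∫ x : ℕ → ℝ, (1 + a * x p + b * (x p ^ 2 - 1) + c) ∂P = 1 + c := by
    have e : ∀ x : ℕ → ℝ, 1 + a * x p + b * (x p ^ 2 - 1) + c =
        (a * x p + b * x p ^ 2) + (1 - b + c) := by
      intro x
      ring
    simp_rw [e]
    have i3 : Integrable (fun x : ℕ → ℝ => a * x p + b * x p ^ 2) P :=
      (i1.const_mul a).add (i2.const_mul b)
    rw [integral_add i3 (integrable_const _),
      integral_add (i1.const_mul a) (i2.const_mul b), integral_const_mul, integral_const_mul,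
      m1, m2]
    simp
    ring
  have iF : Integrable (fun x : ℕ → ℝ => F (x p)) P := by
    refine Integrable.of_bound (hF.comp (measurable_pi_apply p)).aestronglyMeasurable
      (1 + |a| * 2 + |b| * 3 + |c|) ?_
    filter_upwards [hbd] with x hx
    rw [Real.norm_eq_abs, abs_of_nonneg (h0 _ hx)]
    refine (h _ hx).trans ?_
    have e1 : a * x p ≤ |a| * 2 := by
      calc a * x p ≤ |a * x p| := le_abs_self _
        _ = |a| * |x p| := abs_mul _ _
        _ ≤ |a| * 2 := mul_le_mul_of_nonneg_left hx (abs_nonneg _)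
    have e2 : b * (x p ^ 2 - 1) ≤ |b| * 3 := by
      have e3 : |x p ^ 2 - 1| ≤ 3 := by
        have hx' := abs_le.1 hx
        have e4 : x p ^ 2 ≤ 4 := by nlinarith
        have e5 : 0 ≤ x p ^ 2 := sq_nonneg _
        rw [abs_le]
        constructor <;> linarith
      calc b * (x p ^ 2 - 1) ≤ |b * (x p ^ 2 - 1)| := le_abs_self _
        _ = |b| * |x p ^ 2 - 1| := abs_mul _ _
        _ ≤ |b| * 3 := mul_le_mul_of_nonneg_left e3 (abs_nonneg _)
    have e3 := le_abs_self c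
    linarith
  constructor
  · apply integral_nonneg_of_ae
    filter_upwards [hbd] with x hx
    exact h0 _ hx
  · rw [← mR]
    apply integral_mono_ae iF iR
    filter_upwards [hbd] with x hx
    exact h _ hx

/-- truncated exponential -/
theorem BSX_ex (K : ℕ) (s : ℝ) : ex K (-s) ^ 6 ≤ 64 * Real.exp (-(6 * s)) +
    Real.exp (-(16 * K)) * (Real.exp (134 * s) + Real.exp (-(134 * s))) := by
  have hp : 0 < ex K (-s) := ex_pos K (-s)
  rcases le_or_gt |s| ((K : ℝ) / 8) with h | h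
  · have h1 : ex K (-s) ≤ 2 * Real.exp (-s) := by
      have h2 := (abs_le.1 (ex_near K (-s))).2
      have h3 : Real.exp (-(2 * K + 1)) * Real.exp (Real.exp 1 * |-s|) ≤ Real.exp (-s) := by
        rw [← Real.exp_add, abs_neg]
        apply Real.exp_le_exp.2
        have h4 := Real.exp_one_lt_d9
        have h5 : Real.exp 1 * |s| ≤ 3 * (K / 8) := by
          apply mul_le_mul (by linarith) h (abs_nonneg _) (by norm_num)
        have h6 := (abs_le.1 h).2
        have h7 : (0 : ℝ) ≤ K := Nat.cast_nonneg K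
        linarith
      linarith
    have h2 : ex K (-s) ^ 6 ≤ (2 * Real.exp (-s)) ^ 6 := pow_le_pow_left₀ hp.le h1 6
    have h3 : (2 * Real.exp (-s)) ^ 6 = 64 * Real.exp (-(6 * s)) := by
      rw [mul_pow, ← Real.exp_nat_mul]
      norm_num
    rw [h3] at h2
    have h4 : 0 ≤ Real.exp (-(16 * K)) * (Real.exp (134 * s) + Real.exp (-(134 * s))) := by
      positivity
    linarith
  · have h1 : ex K (-s) ≤ Real.exp |s| := by
      have := ex_le K (-s)
      rwa [abs_neg] at this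
    have h2 : ex K (-s) ^ 6 ≤ Real.exp |s| ^ 6 := pow_le_pow_left₀ hp.le h1 6
    have h3 : Real.exp |s| ^ 6 ≤ Real.exp (-(16 * K)) * Real.exp (134 * |s|) := by
      rw [← Real.exp_nat_mul, ← Real.exp_add]
      apply Real.exp_le_exp.2
      push_cast
      linarith
    have h4 : Real.exp (134 * |s|) ≤ Real.exp (134 * s) + Real.exp (-(134 * s)) := by
      rcases abs_cases s with ⟨h5, _⟩ | ⟨h5, _⟩
      · rw [h5]
        have := Real.exp_pos (-(134 * s))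
        linarith
      · rw [h5, mul_neg]
        have := Real.exp_pos (134 * s)
        linarith
    have h5 : Real.exp (-(16 * K)) * Real.exp (134 * |s|) ≤
        Real.exp (-(16 * K)) * (Real.exp (134 * s) + Real.exp (-(134 * s))) :=
      mul_le_mul_of_nonneg_left h4 (Real.exp_pos _).le
    have h6 : 0 < 64 * Real.exp (-(6 * s)) := by positivity
    linarith

theorem BSX_er_meas (p : ℕ) : Measurable (er p) := by
  unfold er
  fun_prop

theorem BSX_er_eq {p : ℕ} (hp : 1 ≤ p) (x : ℝ) :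
    er p x = (1 - x * (1 / Real.sqrt p) + (1 / Real.sqrt p) ^ 2)⁻¹ := by
  unfold er
  have h1 : (0 : ℝ) < p := by exact_mod_cast hp
  have h2 : (1 / Real.sqrt p) ^ 2 = 1 / p := by
    rw [div_pow, Real.sq_sqrt h1.le, one_pow]
  rw [h2, mul_one_div]

/-- bound of a local factor -/
theorem BSX_bd {F : ℝ → ℝ} {a b c : ℝ}
    (h : ∀ y, |y| ≤ 2 → F y ≤ 1 + a * y + b * (y ^ 2 - 1) + c) {y : ℝ} (hy : |y| ≤ 2) :
    F y ≤ 1 + |a| * 2 + |b| * 3 + |c| := by
  refine (h _ hy).trans ?_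
  have e1 : a * y ≤ |a| * 2 := by
    calc a * y ≤ |a * y| := le_abs_self _
      _ = |a| * |y| := abs_mul _ _
      _ ≤ |a| * 2 := mul_le_mul_of_nonneg_left hy (abs_nonneg _)
  have e2 : b * (y ^ 2 - 1) ≤ |b| * 3 := by
    have e3 : |y ^ 2 - 1| ≤ 3 := by
      have hx' := abs_le.1 hy
      have e4 : y ^ 2 ≤ 4 := by nlinarith
      have e5 : 0 ≤ y ^ 2 := sq_nonneg _
      rw [abs_le]
      constructor <;> linarith
    calc b * (y ^ 2 - 1) ≤ |b * (y ^ 2 - 1)| := le_abs_self _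
      _ = |b| * |y ^ 2 - 1| := abs_mul _ _
      _ ≤ |b| * 3 := mul_le_mul_of_nonneg_left e3 (abs_nonneg _)
  have e3 := le_abs_self c
  linarith

/-- expectation of a product of local factors -/
theorem BSX_prod {I : Finset ℕ} {P : Measure (ℕ → ℝ)} (hP : IsST I P) {F : ℕ → ℝ → ℝ}
    (hF : ∀ p, Measurable (F p)) (h0 : ∀ p ∈ I, ∀ y, |y| ≤ 2 → 0 ≤ F p y) {a b c : ℕ → ℝ}
    (h : ∀ p ∈ I, ∀ y, |y| ≤ 2 → F p y ≤ 1 + a p * y + b p * (y ^ 2 - 1) + c p) :
    Integrable (fun x => ∏ p ∈ I, F p (x p)) P ∧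
    ∫ x, ∏ p ∈ I, F p (x p) ∂P ≤ Real.exp (∑ p ∈ I, c p) := by
  have := hP.prob
  constructor
  · refine Integrable.of_bound (Finset.measurable_fun_prod _ (fun p _ =>
      (hF p).comp (measurable_pi_apply p))).aestronglyMeasurable
      (∏ p ∈ I, (1 + |a p| * 2 + |b p| * 3 + |c p|)) ?_
    filter_upwards [hP.bdd] with x hx
    rw [Real.norm_eq_abs, abs_of_nonneg (Finset.prod_nonneg fun p hp => h0 p hp _ (hx p hp))]
    exact Finset.prod_le_prod (fun p hp => h0 p hp _ (hx p hp))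
      (fun p hp => BSX_bd (h p hp) (hx p hp))
  · rw [BLE_prod hP F hF, Real.exp_sum]
    refine Finset.prod_le_prod (fun p hp => (BSX_local hP hp (hF p) (h0 p hp) (h p hp)).1)
      (fun p hp => ?_)
    refine (BSX_local hP hp (hF p) (h0 p hp) (h p hp)).2.trans ?_
    have := Real.add_one_le_exp (c p)
    linarith

theorem BSX_cube {p : ℕ} (hp : 1 ≤ p) : (1 / Real.sqrt p) ^ 3 = (p : ℝ) ^ (-(3 / 2) : ℝ) := by
  have h1 : (0 : ℝ) < p := by exact_mod_cast hp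
  rw [Real.sqrt_eq_rpow, one_div, ← Real.rpow_neg h1.le, ← Real.rpow_natCast, ← Real.rpow_mul h1.le]
  norm_num

/-- the main estimate, for a set of large primes -/
theorem BSX_main {I : Finset ℕ} (hI : ∀ p ∈ I, 90000 ≤ p) {P : Measure (ℕ → ℝ)} (hP : IsST I P)
    (K : ℕ) (h32 : ∑ p ∈ I, (p : ℝ) ^ (-(3 / 2) : ℝ) ≤ 1) (hK : 80003 * HB I ≤ 16 * K) :
    Integrable (fun x => ((∏ p ∈ I, er p (x p)) * mb1 I K x) ^ 6) P ∧
    ∫ x, ((∏ p ∈ I, er p (x p)) * mb1 I K x) ^ 6 ∂P ≤ 64 * Real.exp 1000 + 2 := by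
  have := hP.prob
  have hh : ∀ p ∈ I, 0 < 1 / Real.sqrt p ∧ 1 / Real.sqrt p ≤ 1 / 300 := by
    intro p hp
    have h1 : (90000 : ℝ) ≤ p := by exact_mod_cast hI p hp
    have h2 : (300 : ℝ) ≤ Real.sqrt p := by
      apply Real.le_sqrt_of_sq_le
      norm_num
      exact hI p hp
    exact ⟨by positivity, one_div_le_one_div_of_le (by norm_num) h2⟩
  have hp1 : ∀ p ∈ I, 1 ≤ p := fun p hp => (by norm_num : 1 ≤ 90000).trans (hI p hp)
  have hsq : ∀ p ∈ I, (1 / Real.sqrt p) ^ 2 = 1 / p := by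
    intro p hp
    have h1 : (0 : ℝ) < p := by exact_mod_cast hp1 p hp
    rw [div_pow, Real.sq_sqrt h1.le, one_pow]
  -- the three products
  let F1 : ℕ → ℝ → ℝ := fun p y =>
    er p y ^ 6 * Real.exp (-(6 * (y * (1 / Real.sqrt p))) + 3 * (1 / Real.sqrt p) ^ 2)
  let F2 : ℝ → ℕ → ℝ → ℝ := fun τ p y => er p y ^ 6 * Real.exp (τ * (y * (1 / Real.sqrt p)))
  have hF1 : ∀ p, Measurable (F1 p) := fun p =>
    ((BSX_er_meas p).pow_const 6).mul (by fun_prop)
  have hF2 : ∀ τ p, Measurable (F2 τ p) := fun τ p =>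
    ((BSX_er_meas p).pow_const 6).mul (by fun_prop)
  have her0 : ∀ p ∈ I, ∀ y, |y| ≤ 2 → 0 ≤ er p y := by
    intro p hp y hy
    rw [BSX_er_eq (hp1 p hp)]
    exact (inv_pos.2 (BSX_er6 (hh p hp).1 (hh p hp).2 hy).1).le
  obtain ⟨i1, j1⟩ := BSX_prod hP hF1 (a := fun _ => 0) (b := fun p => 3 * (1 / Real.sqrt p) ^ 2)
    (c := fun p => 1000 * (1 / Real.sqrt p) ^ 3)
    (fun p hp y hy => mul_nonneg (pow_nonneg (her0 p hp y hy) 6) (Real.exp_pos _).le)
    (fun p hp y hy => by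
      show er p y ^ 6 * _ ≤ _
      rw [BSX_er_eq (hp1 p hp)]
      exact BSX_loc1 (hh p hp).1 (hh p hp).2 hy)
  have key2 : ∀ τ : ℝ, |τ| = 134 → Integrable (fun x => ∏ p ∈ I, F2 τ p (x p)) P ∧
      ∫ x, ∏ p ∈ I, F2 τ p (x p) ∂P ≤
        Real.exp (∑ p ∈ I, 80000 * (1 / Real.sqrt p) ^ 2) := by
    intro τ hτ
    exact BSX_prod hP (hF2 τ) (a := fun p => (6 + τ) * (1 / Real.sqrt p)) (b := fun _ => 0)
      (c := fun p => 80000 * (1 / Real.sqrt p) ^ 2)
      (fun p hp y hy => mul_nonneg (pow_nonneg (her0 p hp y hy) 6) (Real.exp_pos _).le)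
      (fun p hp y hy => by
        show er p y ^ 6 * _ ≤ _
        rw [BSX_er_eq (hp1 p hp)]
        exact BSX_loc2 (hh p hp).1 (hh p hp).2 hy hτ)
  obtain ⟨i2, j2⟩ := key2 134 (abs_of_pos (by norm_num))
  obtain ⟨i3, j3⟩ := key2 (-134) (by rw [abs_neg, abs_of_pos (by norm_num)])
  have s1 : ∑ p ∈ I, 1000 * (1 / Real.sqrt p) ^ 3 ≤ 1000 := by
    rw [← Finset.mul_sum]
    have : ∑ p ∈ I, (1 / Real.sqrt p) ^ 3 = ∑ p ∈ I, (p : ℝ) ^ (-(3 / 2) : ℝ) :=
      Finset.sum_congr rfl fun p hp => BSX_cube (hp1 p hp)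
    rw [this]
    linarith
  have s2 : ∑ p ∈ I, 80000 * (1 / Real.sqrt p) ^ 2 = 80000 * HB I := by
    rw [← Finset.mul_sum]
    unfold HB
    congr 1
    exact Finset.sum_congr rfl hsq
  -- the products in terms of `PB`
  have hPB : ∀ x : ℕ → ℝ, ∑ p ∈ I, x p * (1 / Real.sqrt p) = PB I x := by
    intro x
    unfold PB
    exact Finset.sum_congr rfl fun p _ => by rw [mul_one_div]
  have e1 : ∀ x : ℕ → ℝ, ∏ p ∈ I, F1 p (x p) =
      (∏ p ∈ I, er p (x p)) ^ 6 * Real.exp (-(6 * PB I x) + 3 * HB I) := by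
    intro x
    show ∏ p ∈ I, (er p (x p) ^ 6 * Real.exp (-(6 * (x p * (1 / Real.sqrt p))) +
      3 * (1 / Real.sqrt p) ^ 2)) = _
    rw [Finset.prod_mul_distrib, Finset.prod_pow, ← Real.exp_sum, Finset.sum_add_distrib,
      Finset.sum_neg_distrib, ← Finset.mul_sum, ← Finset.mul_sum, hPB]
    have : ∑ p ∈ I, (1 / Real.sqrt p) ^ 2 = HB I := by
      unfold HB
      exact Finset.sum_congr rfl hsq
    rw [this]
  have e2 : ∀ (τ : ℝ) (x : ℕ → ℝ), ∏ p ∈ I, F2 τ p (x p) =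
      (∏ p ∈ I, er p (x p)) ^ 6 * Real.exp (τ * PB I x) := by
    intro τ x
    show ∏ p ∈ I, (er p (x p) ^ 6 * Real.exp (τ * (x p * (1 / Real.sqrt p)))) = _
    rw [Finset.prod_mul_distrib, Finset.prod_pow, ← Real.exp_sum, ← Finset.mul_sum, hPB]
  let G : (ℕ → ℝ) → ℝ := fun x => 64 * (∏ p ∈ I, F1 p (x p)) +
    Real.exp (3 * HB I - 16 * K) * (∏ p ∈ I, F2 134 p (x p) + ∏ p ∈ I, F2 (-134) p (x p))
  have iG : Integrable G P := (i1.const_mul _).add ((i2.add i3).const_mul _)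
  have hle : ∀ x : ℕ → ℝ, ((∏ p ∈ I, er p (x p)) * mb1 I K x) ^ 6 ≤ G x := by
    intro x
    show _ ≤ 64 * (∏ p ∈ I, F1 p (x p)) +
      Real.exp (3 * HB I - 16 * K) * (∏ p ∈ I, F2 134 p (x p) + ∏ p ∈ I, F2 (-134) p (x p))
    rw [e1, e2, e2]
    unfold mb1
    have h1 := BSX_ex K (PB I x)
    have h2 : 0 ≤ (∏ p ∈ I, er p (x p)) ^ 6 := by positivity
    have h3 : ((∏ p ∈ I, er p (x p)) * (Real.exp (HB I / 2) * ex K (-PB I x))) ^ 6 =
        (∏ p ∈ I, er p (x p)) ^ 6 * Real.exp (3 * HB I) * ex K (-PB I x) ^ 6 := by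
      rw [mul_pow, mul_pow, ← Real.exp_nat_mul]
      have : ((6 : ℕ) : ℝ) * (HB I / 2) = 3 * HB I := by push_cast; ring
      rw [this]
      ring
    rw [h3]
    have h4 : (∏ p ∈ I, er p (x p)) ^ 6 * Real.exp (3 * HB I) * ex K (-PB I x) ^ 6 ≤
        (∏ p ∈ I, er p (x p)) ^ 6 * Real.exp (3 * HB I) * (64 * Real.exp (-(6 * PB I x)) +
          Real.exp (-(16 * K)) * (Real.exp (134 * PB I x) + Real.exp (-(134 * PB I x)))) :=
      mul_le_mul_of_nonneg_left h1 (by positivity)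
    refine h4.trans (le_of_eq ?_)
    rw [Real.exp_add, Real.exp_sub, Real.exp_neg (16 * (K : ℝ)), neg_mul]
    field_simp
  have hmeas : Measurable (fun x : ℕ → ℝ => ((∏ p ∈ I, er p (x p)) * mb1 I K x) ^ 6) := by
    refine Measurable.pow_const (Measurable.mul ?_ ?_) 6
    · exact Finset.measurable_fun_prod _ (fun p _ =>
        (BSX_er_meas p).comp (measurable_pi_apply p))
    · unfold mb1
      exact ((BLE_ex_cont K).measurable.comp (BLE_PB_meas I).neg).const_mul _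
  have hint : Integrable (fun x => ((∏ p ∈ I, er p (x p)) * mb1 I K x) ^ 6) P := by
    refine iG.mono' hmeas.aestronglyMeasurable ?_
    filter_upwards with x
    rw [Real.norm_eq_abs, abs_of_nonneg (by positivity)]
    exact hle x
  refine ⟨hint, ?_⟩
  calc ∫ x, ((∏ p ∈ I, er p (x p)) * mb1 I K x) ^ 6 ∂P ≤ ∫ x, G x ∂P :=
        integral_mono hint iG hle
    _ = 64 * ∫ x, ∏ p ∈ I, F1 p (x p) ∂P + Real.exp (3 * HB I - 16 * K) *
          (∫ x, ∏ p ∈ I, F2 134 p (x p) ∂P + ∫ x, ∏ p ∈ I, F2 (-134) p (x p) ∂P) := by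
        have i23 : Integrable (fun x => ∏ p ∈ I, F2 134 p (x p) + ∏ p ∈ I, F2 (-134) p (x p)) P :=
          i2.add i3
        show ∫ x, (64 * (∏ p ∈ I, F1 p (x p)) + Real.exp (3 * HB I - 16 * K) *
          (∏ p ∈ I, F2 134 p (x p) + ∏ p ∈ I, F2 (-134) p (x p))) ∂P = _
        rw [integral_add (i1.const_mul _) (i23.const_mul _), integral_const_mul,
          integral_const_mul, integral_add i2 i3]
    _ ≤ 64 * Real.exp 1000 + Real.exp (3 * HB I - 16 * K) *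
          (Real.exp (80000 * HB I) + Real.exp (80000 * HB I)) := by
        rw [s2] at j2 j3
        have j1' := j1.trans (Real.exp_le_exp.2 s1)
        have := Real.exp_pos (3 * HB I - 16 * K)
        gcongr
    _ = 64 * Real.exp 1000 + 2 * Real.exp (80003 * HB I - 16 * K) := by
        rw [← two_mul, ← mul_assoc, mul_comm (Real.exp _) 2, mul_assoc, ← Real.exp_add]
        congr 3
        ring
    _ ≤ 64 * Real.exp 1000 + 2 := by
        have : Real.exp (80003 * HB I - 16 * K) ≤ 1 := by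
          rw [← Real.exp_zero]
          apply Real.exp_le_exp.2
          linarith
        linarith

/-- sixth moments -/
theorem yz_six_pr : ∃ A : ℕ, ∀ A₁ : ℕ, A ≤ A₁ → ∃ (C : ℝ) (N₀ : ℕ), ∀ N : ℕ, N₀ ≤ N →
    ∀ P : Measure (ℕ → ℝ), IsST (IN N) P →
      Integrable (fun x => Yz A₁ N x ^ 6) P ∧ ∫ x, Yz A₁ N x ^ 6 ∂P ≤ C := by
  obtain ⟨Cm, hCm⟩ := mertens_two
  obtain ⟨z₀, hz₀⟩ := p32_sum (δ := 1) one_pos
  have hll : Tendsto (fun N : ℕ => Real.log (Real.log N)) atTop atTop :=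
    Real.tendsto_log_atTop.comp (Real.tendsto_log_atTop.comp tendsto_natCast_atTop_atTop)
  obtain ⟨N₁, hN₁⟩ := eventually_atTop.1 (((hll.eventually_ge_atTop (z₀ : ℝ)).and
    (hll.eventually_ge_atTop 90000)).and ((hll.eventually_ge_atTop Cm).and
      (eventually_ge_atTop 3)))
  refine ⟨11000, fun A₁ hA₁ => ⟨64 * Real.exp 1000 + 2, N₁, fun N hN P hP => ?_⟩⟩
  obtain ⟨⟨h1, h2⟩, h3, h4⟩ := hN₁ N hN
  have hN0 : (0 : ℝ) < N := by
    have : 0 < N := by omega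
    exact_mod_cast this
  have hN1 : (1 : ℝ) ≤ N := by
    have : 1 ≤ N := by omega
    exact_mod_cast this
  have hlogN : 0 ≤ Real.log N := Real.log_nonneg hN1
  have hmem : ∀ p ∈ IN N, p.Prime ∧ Real.log (Real.log N) < p ∧ 1 ≤ p ∧ p ≤ N := by
    intro p hp
    unfold IN at hp
    rw [Finset.mem_filter, Finset.mem_Icc] at hp
    refine ⟨hp.2.1, hp.2.2, hp.1.1, ?_⟩
    have hz : zN N ≤ N := by
      unfold zN
      calc Real.exp (Real.log N / Real.log (Real.log N) ^ 2) ≤ Real.exp (Real.log N) := by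
            apply Real.exp_le_exp.2
            apply div_le_self hlogN
            nlinarith
        _ = N := Real.exp_log hN0
    have h5 : (p : ℝ) ≤ zN N := (Nat.le_floor_iff (Real.exp_pos _).le).1 hp.1.2
    exact_mod_cast h5.trans hz
  have hHB : HB (IN N) ≤ Real.log (Real.log N) + Cm := by
    have h5 := (abs_le.1 (hCm N (by
      have : 2 ≤ N := by omega
      exact_mod_cast this))).2
    rw [Nat.floor_natCast] at h5
    have h6 : HB (IN N) ≤ ∑ p ∈ (Finset.Icc 1 N).filter Nat.Prime, 1 / (p : ℝ) := by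
      unfold HB
      apply Finset.sum_le_sum_of_subset_of_nonneg
      · intro p hp
        obtain ⟨a1, _, a3, a4⟩ := hmem p hp
        rw [Finset.mem_filter, Finset.mem_Icc]
        exact ⟨⟨a3, a4⟩, a1⟩
      · intro p _ _
        positivity
    linarith
  refine BSX_main (I := IN N) ?_ hP (A₁ * ⌈Real.log (Real.log N)⌉₊) ?_ ?_
  · intro p hp
    have h5 : (90000 : ℝ) < p := lt_of_le_of_lt h2 (hmem p hp).2.1
    exact_mod_cast h5.le
  · refine hz₀ _ fun p hp => ?_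
    have h5 : (z₀ : ℝ) < p := lt_of_le_of_lt h1 (hmem p hp).2.1
    exact_mod_cast h5
  · push_cast
    have h5 := Nat.le_ceil (Real.log (Real.log N))
    have h6 : (11000 : ℝ) ≤ A₁ := by exact_mod_cast hA₁
    have h7 : 11000 * Real.log (Real.log N) ≤ (A₁ : ℝ) * (⌈Real.log (Real.log N)⌉₊ : ℝ) :=
      mul_le_mul h6 h5 (by linarith) (by positivity)
    linarith

theorem yz_six : type_of% @yz_six_pr := @yz_six_pr

end Pool.Agent.KSL
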