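import Pool.Agent.Lib_helper68.KSL.Defs
import Pool.Agent.Lib_helper41.LVBF.ELM
import Pool.Agent.Lib_helper41.LVBF.STO
import Pool.Agent.Lib_helper41.LVBF.ELF

/-! KSL, block ERP: er_el, er_pos, er_meas, um_meas, er_um -/

set_option autoImplicit false

namespace Pool.Agent.KSL

open Pool.Agent.LEV Pool.Agent.LVB
open Pool.Agent.FG61 (mu phi cc ff AA Lam)
open Complex MeasureTheory Filter Topology UpperHalfPlane ModularGroup ProbabilityTheory
open scoped MatrixGroups Modular ENNReal ModularForm ComplexConjugate ContDiff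

theorem er_el_pr (p : ℕ) (x : ℝ) : (er p x : ℂ) = el p 1 x := by
  unfold er el
  push_cast
  ring

theorem er_pos_pr {p : ℕ} (hp : p.Prime) {x : ℝ} (hx : |x| ≤ 2) :
    0 < 1 - x / Real.sqrt p + 1 / p ∧ 0 < er p x ∧ er p x ≤ 12 := by
  have hp2 : (2 : ℝ) ≤ p := by exact_mod_cast hp.two_le
  set r := Real.sqrt p with hr
  have hr2 : r ^ 2 = p := Real.sq_sqrt (by linarith)
  have hr0 : 0 < r := Real.sqrt_pos.2 (by linarith)
  have hr1 : 1.4142 < r := by nlinarith
  have hx2 : x ≤ 2 := (abs_le.1 hx).2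
  set u := 1 / r with hu
  have hu0 : 0 < u := by positivity
  have hu1 : u ≤ 0.7072 := by
    rw [hu, div_le_iff₀ hr0]
    nlinarith
  have e1 : x / r = x * u := by rw [hu]; ring
  have e2 : (1 : ℝ) / p = u ^ 2 := by rw [hu, ← hr2]; field_simp
  have h1 : 1 / 12 ≤ 1 - x / r + 1 / p := by
    rw [e1, e2]
    nlinarith
  have h2 : 0 < 1 - x / r + 1 / p := by linarith
  refine ⟨h2, ?_, ?_⟩
  · unfold er
    positivity
  · unfold er
    rw [inv_le_comm₀ h2 (by norm_num)]
    linarith

theorem er_meas_pr (p : ℕ) : Measurable (er p) := by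
  unfold er
  fun_prop

theorem um_meas_pr (m : ℕ) : Measurable (Um m) := by
  unfold Um
  exact Finset.measurable_fun_prod _ fun p _ =>
    (EQS_ucont _).measurable.comp (measurable_pi_apply p)

section
variable {I : Finset ℕ} {P : Measure (ℕ → ℝ)}

lemma ERP_uc (hP : IsST I P) {p : ℕ} (hp : p ∈ I) (hpp : p.Prime) (c : ℕ) :
    ∫ x, er p (x p) * Uu (x p) c ∂P = (1 / Real.sqrt p) ^ c := by
  have := hP.prob
  have hg : AEStronglyMeasurable (fun x : ℕ → ℝ => ((Uu (x p) c : ℝ) : ℂ)) P :=
    (ELM_meas p c).aestronglyMeasurable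
  have hC : ∀ᵐ x ∂P, ‖((Uu (x p) c : ℝ) : ℂ)‖ ≤ (c : ℝ) + 1 := by
    filter_upwards [hP.bdd] with x hx
    rw [Complex.norm_real]
    exact uu_le (hx p hp) c
  have h1 := ELM_series hP hp hpp (a := 1) (by simp) hg hC
  have h2 : ∀ k : ℕ, ∫ x, ((Uu (x p) k : ℝ) : ℂ) * ((Uu (x p) c : ℝ) : ℂ) ∂P =
      if k = c then 1 else 0 := by
    intro k
    have h3 : ∫ x, ((Uu (x p) k : ℝ) : ℂ) * ((Uu (x p) c : ℝ) : ℂ) ∂P =
        ((∫ x, Uu (x p) k * Uu (x p) c ∂P : ℝ) : ℂ) := by
      rw [← integral_complex_ofReal]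
      simp only [Complex.ofReal_mul]
    rw [h3, STO_one hP hp k c]
    split_ifs <;> simp
  simp only [h2, mul_ite, mul_one, mul_zero] at h1
  have h4 : HasSum (fun k : ℕ => if k = c then (1 / (Real.sqrt p : ℂ)) ^ k else 0)
      ((1 / (Real.sqrt p : ℂ)) ^ c) := by
    have := hasSum_ite_eq c ((1 / (Real.sqrt p : ℂ)) ^ c)
    convert this using 2 with k
    by_cases hk : k = c
    · rw [if_pos hk, if_pos hk, hk]
    · rw [if_neg hk, if_neg hk]
  have h5 := h1.unique h4
  have h6 : ∫ x, el p 1 (x p) * ((Uu (x p) c : ℝ) : ℂ) ∂P =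
      ((∫ x, er p (x p) * Uu (x p) c ∂P : ℝ) : ℂ) := by
    rw [← integral_complex_ofReal]
    congr 1
    funext x
    rw [Complex.ofReal_mul, er_el_pr]
  rw [h6] at h5
  have h7 : (((1 / Real.sqrt p) ^ c : ℝ) : ℂ) = (1 / (Real.sqrt p : ℂ)) ^ c := by push_cast; rfl
  rw [← h7] at h5
  exact_mod_cast h5

lemma ERP_bd (hP : IsST I P) {p : ℕ} (hp : p ∈ I) (hpp : p.Prime) {φ : ℝ → ℝ}
    (hφ : Continuous φ) : Integrable (fun x : ℕ → ℝ => er p (x p) * φ (x p)) P := by
  have := hP.prob
  obtain ⟨C, hC⟩ := (isCompact_Icc (a := (-2 : ℝ)) (b := 2)).exists_bound_of_continuousOn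
    hφ.continuousOn
  refine Integrable.of_bound (C := 12 * C) (((er_meas_pr p).comp (measurable_pi_apply p)).mul
    (hφ.measurable.comp (measurable_pi_apply p))).aestronglyMeasurable ?_
  filter_upwards [hP.bdd] with x hx
  obtain ⟨-, h1, h2⟩ := er_pos_pr hpp (hx p hp)
  rw [norm_mul, Real.norm_of_nonneg h1.le]
  exact mul_le_mul h2 (hC _ (abs_le.mp (hx p hp))) (norm_nonneg _) (by norm_num)

lemma ERP_loc (hP : IsST I P) {p : ℕ} (hp : p ∈ I) (hpp : p.Prime) (a : ℕ) : ∀ b : ℕ,
    ∫ x, er p (x p) * (Uu (x p) a * Uu (x p) b) ∂P =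
      (1 / Real.sqrt p) ^ (a + b) * ∑ i ∈ Finset.range (min a b + 1), (p : ℝ) ^ i := by
  have hp0 : (0 : ℝ) < p := by exact_mod_cast hpp.pos
  have hs : (1 / Real.sqrt p) ^ 2 * p = 1 := by
    rw [div_pow, Real.sq_sqrt hp0.le]
    field_simp
  induction a with
  | zero =>
    intro b
    have : ∀ x : ℕ → ℝ, Uu (x p) 0 = 1 := fun _ => rfl
    simp only [this, one_mul, Nat.zero_min, zero_add, Finset.sum_range_one, pow_zero, mul_one]
    exact ERP_uc hP hp hpp b
  | succ a ih =>
    intro b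
    rcases b with _ | b
    · have : ∀ x : ℕ → ℝ, Uu (x p) 0 = 1 := fun _ => rfl
      simp only [this, mul_one, Nat.min_zero, zero_add, Finset.sum_range_one, pow_zero, add_zero]
      exact ERP_uc hP hp hpp (a + 1)
    · simp_rw [EQS_uu, mul_add]
      rw [integral_add (ERP_bd hP hp hpp (φ := fun y => Uu y a * Uu y b)
        ((EQS_ucont a).mul (EQS_ucont b))) (ERP_bd hP hp hpp (EQS_ucont _)), ih b,
        ERP_uc hP hp hpp (a + b + 2)]
      have e1 : min (a + 1) (b + 1) + 1 = (min a b + 1) + 1 := by omega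
      have e2 : a + 1 + (b + 1) = a + b + 2 := by omega
      have e4 : ∑ i ∈ Finset.range (min a b + 1 + 1), (p : ℝ) ^ i =
          ∑ i ∈ Finset.range (min a b + 1), (p : ℝ) ^ (i + 1) + 1 := by
        rw [Finset.sum_range_succ', pow_zero]
      rw [e1, e2, e4]
      have e3 : ∑ i ∈ Finset.range (min a b + 1), (p : ℝ) ^ (i + 1) =
          p * ∑ i ∈ Finset.range (min a b + 1), (p : ℝ) ^ i := by
        rw [Finset.mul_sum]
        exact Finset.sum_congr rfl fun i _ => by ring
      rw [e3, pow_add _ (a + b) 2]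
      linear_combination (-((1 / Real.sqrt p) ^ (a + b)) *
        ∑ i ∈ Finset.range (min a b + 1), (p : ℝ) ^ i) * hs

end

lemma ERP_sqrt {I : Finset ℕ} {n : ℕ} (hn : 1 ≤ n) (h : n.primeFactors ⊆ I) :
    ∏ p ∈ I, Real.sqrt p ^ n.factorization p = Real.sqrt n := by
  have h1 : (∏ p ∈ I, Real.sqrt p ^ n.factorization p) ^ 2 = n := by
    rw [← Finset.prod_pow]
    have h2 : ∀ p ∈ I, (Real.sqrt p ^ n.factorization p) ^ 2 = (p : ℝ) ^ n.factorization p := by
      intro p _
      rw [← pow_mul, mul_comm, pow_mul, Real.sq_sqrt (Nat.cast_nonneg p)]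
    rw [Finset.prod_congr rfl h2, ← Finset.prod_subset h]
    · have h3 := Nat.prod_factorization_pow_eq_self (n := n) (by omega)
      rw [Finsupp.prod, Nat.support_factorization] at h3
      exact_mod_cast congrArg (fun n : ℕ => (n : ℝ)) h3
    · intro p _ hp
      have : n.factorization p = 0 := by
        rw [← Finsupp.notMem_support_iff, Nat.support_factorization]
        exact hp
      rw [this, pow_zero]
  rw [← h1, Real.sqrt_sq (Finset.prod_nonneg fun p _ => by positivity)]

lemma ERP_div {I : Finset ℕ} {k m : ℕ} (hk : 1 ≤ k) (hm : 1 ≤ m) (hkI : k.primeFactors ⊆ I) :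
    ∏ p ∈ I, ∑ i ∈ Finset.range (min (k.factorization p) (m.factorization p) + 1), (p : ℝ) ^ i =
      ∑ d ∈ (Nat.gcd k m).divisors, (d : ℝ) := by
  have hg : Nat.gcd k m ≠ 0 := by
    intro h
    have := Nat.eq_zero_of_gcd_eq_zero_left h
    omega
  have h1 := Nat.sum_divisors hg
  have h2 : ∑ d ∈ (Nat.gcd k m).divisors, (d : ℝ) =
      ∏ p ∈ (Nat.gcd k m).primeFactors,
        ∑ i ∈ Finset.range ((Nat.gcd k m).factorization p + 1), (p : ℝ) ^ i := by
    have h4 := congrArg (fun n : ℕ => (n : ℝ)) h1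
    simp only [Nat.cast_sum, Nat.cast_prod, Nat.cast_pow] at h4
    exact h4
  have h3 : (Nat.gcd k m).primeFactors ⊆ I :=
    (Nat.primeFactors_mono (Nat.gcd_dvd_left k m) (by omega)).trans hkI
  rw [h2, Finset.prod_subset h3]
  · refine Finset.prod_congr rfl fun p _ => ?_
    rw [Nat.factorization_gcd (by omega) (by omega)]
    rfl
  · intro p _ hp
    have : (Nat.gcd k m).factorization p = 0 := by
      rw [← Finsupp.notMem_support_iff, Nat.support_factorization]
      exact hp
    rw [this]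
    simp

/-- the Euler product over the small primes and the Fourier coefficients of the small factor -/
theorem er_um_pr {I : Finset ℕ} (hI : ∀ p ∈ I, p.Prime) {P : Measure (ℕ → ℝ)} (hP : IsST I P)
    {k m : ℕ} (hk : 1 ≤ k) (hm : 1 ≤ m) (hkI : k.primeFactors ⊆ I) (hmI : m.primeFactors ⊆ I) :
    Integrable (fun x => (∏ p ∈ I, er p (x p)) * Um k x * Um m x) P ∧
    ∫ x, (∏ p ∈ I, er p (x p)) * Um k x * Um m x ∂P =
      (∑ d ∈ (Nat.gcd k m).divisors, (d : ℝ)) / Real.sqrt (k * m) := by
  have := hP.prob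
  constructor
  · have h1 := (STO_int hP hkI hmI).norm
    refine (h1.const_mul (12 ^ I.card)).mono' ?_ ?_
    · refine AEStronglyMeasurable.mul (AEStronglyMeasurable.mul ?_ ?_) ?_
      · exact (Finset.measurable_fun_prod _ fun p _ =>
          (er_meas_pr p).comp (measurable_pi_apply p)).aestronglyMeasurable
      · exact (um_meas_pr k).aestronglyMeasurable
      · exact (um_meas_pr m).aestronglyMeasurable
    · filter_upwards [hP.bdd] with x hx
      rw [mul_assoc, norm_mul]
      refine mul_le_mul_of_nonneg_right ?_ (norm_nonneg _)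
      rw [norm_prod, ← Finset.prod_const]
      refine Finset.prod_le_prod (fun p _ => norm_nonneg _) fun p hp => ?_
      obtain ⟨-, h2, h3⟩ := er_pos_pr (hI p hp) (hx p hp)
      rw [Real.norm_of_nonneg h2.le]
      exact h3
  · have h1 : ∀ x : ℕ → ℝ, (∏ p ∈ I, er p (x p)) * Um k x * Um m x = ∏ p : I,
        (fun y : ℝ => er p y * (Uu y (k.factorization p) * Uu y (m.factorization p))) (x p) := by
      intro x
      rw [STO_um_sub hkI, STO_um_sub hmI, mul_assoc, ← Finset.prod_mul_distrib,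
        ← Finset.prod_mul_distrib,
        Finset.prod_coe_sort I (fun p => er p (x p) * (Uu (x p) (k.factorization p) *
          Uu (x p) (m.factorization p)))]
    simp_rw [h1]
    rw [hP.ind.integral_fun_prod_comp (f := fun p : I => fun y : ℝ =>
        er p y * (Uu y (k.factorization p) * Uu y (m.factorization p)))
      (fun p => (measurable_pi_apply (p : ℕ)).aemeasurable)
      (fun p => ((er_meas_pr p).mul ((EQS_ucont _).mul
        (EQS_ucont _)).measurable).aestronglyMeasurable)]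
    rw [Finset.prod_congr rfl fun (p : I) _ =>
      ERP_loc hP p.2 (hI p p.2) (k.factorization p) (m.factorization p)]
    rw [Finset.prod_coe_sort I (fun p => (1 / Real.sqrt p) ^
      (k.factorization p + m.factorization p) *
        ∑ i ∈ Finset.range (min (k.factorization p) (m.factorization p) + 1), (p : ℝ) ^ i),
      Finset.prod_mul_distrib, ERP_div hk hm hkI]
    have h2 : ∏ p ∈ I, (1 / Real.sqrt p) ^ (k.factorization p + m.factorization p) =
        1 / Real.sqrt (k * m) := by
      have h3 : ∀ p ∈ I, (1 / Real.sqrt p) ^ (k.factorization p + m.factorization p) =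
          1 / (Real.sqrt p ^ k.factorization p * Real.sqrt p ^ m.factorization p) := by
        intro p _
        rw [div_pow, one_pow, pow_add]
      rw [Finset.prod_congr rfl h3, Finset.prod_div_distrib, Finset.prod_const_one,
        Finset.prod_mul_distrib, ERP_sqrt hk hkI, ERP_sqrt hm hmI,
        Real.sqrt_mul (Nat.cast_nonneg k)]
    rw [h2]
    ring

theorem er_el : type_of% @er_el_pr := @er_el_pr
theorem er_pos : type_of% @er_pos_pr := @er_pos_pr
theorem er_meas : type_of% @er_meas_pr := @er_meas_pr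
theorem um_meas : type_of% @um_meas_pr := @um_meas_pr
theorem er_um : type_of% @er_um_pr := @er_um_pr

end Pool.Agent.KSL
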