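import Pool.Agent.Lib_helper68.KSL.Defs
import Pool.Agent.Lib_helper41.LVBF.BLE
import Pool.Agent.Lib_helper68.KSLF.BSX
import Pool.Agent.Lib_helper68.KSLF.ERP
import Pool.Agent.Lib_helper68.KSLF.HBI

/-! Block BLF: the mollified Euler product is close to one. -/

namespace Pool.Agent.KSL

open Pool.Agent.LEV Pool.Agent.LVB
open Pool.Agent.FG61 (mu phi cc ff AA Lam)
open Complex MeasureTheory Filter Topology UpperHalfPlane ModularGroup ProbabilityTheory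
open scoped MatrixGroups Modular ENNReal ModularForm ComplexConjugate ContDiff

theorem blf_meas (A₁ N : ℕ) : Measurable (Yz A₁ N) := by
  unfold Yz
  refine Measurable.mul ?_ ?_
  · exact Finset.measurable_fun_prod _ fun p _ => (er_meas p).comp (measurable_pi_apply p)
  · unfold mb1
    have h1 : ∀ K : ℕ, Continuous (fun t : ℝ => ex K t) := by
      intro K
      unfold ex
      fun_prop
    have h2 : Measurable (PB (IN N)) := by
      unfold PB
      exact Finset.measurable_fun_sum _ (fun p _ => (measurable_pi_apply p).div_const _)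
    exact measurable_const.mul ((h1 _).measurable.comp h2.neg)

theorem blf_prime (N : ℕ) : ∀ p ∈ IN N, p.Prime := by
  intro p hp
  unfold IN at hp
  exact (Finset.mem_filter.1 hp).2.1

theorem blf_loglog (B : ℝ) : ∃ N₀ : ℕ, ∀ N : ℕ, N₀ ≤ N → B ≤ Real.log (Real.log N) := by
  have h := (Real.tendsto_log_atTop.comp Real.tendsto_log_atTop).comp
    (tendsto_natCast_atTop_atTop (R := ℝ))
  obtain ⟨N₀, hN₀⟩ := (h.eventually (eventually_ge_atTop B)).exists_forall_of_atTop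
  exact ⟨N₀, fun N hN => hN₀ N hN⟩

theorem blf_tail {κ : ℝ} (hk : 0 < κ) : ∃ N₀ : ℕ, ∀ N : ℕ, N₀ ≤ N →
    ∑ p ∈ IN N, (p : ℝ) ^ (-(3 / 2) : ℝ) ≤ κ := by
  have hs : Summable (fun n : ℕ => (n : ℝ) ^ (-(3 / 2) : ℝ)) :=
    Real.summable_nat_rpow.2 (by norm_num)
  obtain ⟨s, hs'⟩ := summable_iff_vanishing_norm.1 hs κ hk
  obtain ⟨N₀, hN₀⟩ := blf_loglog ((s.sup id : ℕ) : ℝ)
  refine ⟨N₀, fun N hN => ?_⟩
  have h1 := hs' (IN N) (by
    rw [Finset.disjoint_left]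
    intro p hp hps
    unfold IN at hp
    have h2 := (Finset.mem_filter.1 hp).2.2
    have h3 : p ≤ s.sup id := Finset.le_sup (f := id) hps
    have h4 : (p : ℝ) ≤ ((s.sup id : ℕ) : ℝ) := by exact_mod_cast h3
    have h5 := hN₀ N hN
    linarith)
  exact (le_abs_self _).trans h1.le

theorem blf_exp {x : ℝ} (h0 : 0 ≤ x) (h1 : x ≤ 1 / 2) : Real.exp x ≤ 1 + 2 * x := by
  refine (Real.exp_bound_div_one_sub_of_interval h0 (by linarith)).trans ?_
  rw [div_le_iff₀ (by linarith)]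
  nlinarith

/-- the mean square -/
theorem blf_sq : ∃ A : ℕ, ∀ A₁ : ℕ, A ≤ A₁ → ∀ ε : ℝ, 0 < ε → ∃ N₀ : ℕ, ∀ N : ℕ, N₀ ≤ N →
    ∀ P : Measure (ℕ → ℝ), IsST (IN N) P → Integrable (fun x => Yz A₁ N x) P →
      Integrable (fun x => Yz A₁ N x ^ 2) P → ∫ x, (Yz A₁ N x - 1) ^ 2 ∂P ≤ ε := by
  obtain ⟨C, hC1, hC⟩ := block_est
  refine ⟨⌈C⌉₊, fun A₁ hA₁ ε hε => ?_⟩
  set κ : ℝ := min (1 / 10) (ε / 18) with hk
  have hk0 : 0 < κ := lt_min (by norm_num) (by positivity)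
  have hk1 : κ ≤ 1 / 10 := min_le_left _ _
  have hk2 : 18 * κ ≤ ε := by
    have : κ ≤ ε / 18 := min_le_right _ _
    linarith
  obtain ⟨N₁, hN₁⟩ := blf_tail (κ := κ / C) (by positivity)
  obtain ⟨N₂, hN₂⟩ := blf_loglog (max 1 (-Real.log κ))
  obtain ⟨N₃, hN₃⟩ := hb_in (ε := 1) one_pos
  refine ⟨max N₁ (max N₂ N₃), fun N hN P hP hi1 hi2 => ?_⟩
  have hN1 := hN₁ N ((le_max_left _ _).trans hN)
  have hN2 := hN₂ N ((le_max_left _ _).trans ((le_max_right _ _).trans hN))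
  have hN3 := (hN₃ N ((le_max_right _ _).trans ((le_max_right _ _).trans hN))).1
  have := hP.prob
  set K : ℕ := A₁ * ⌈Real.log (Real.log N)⌉₊ with hK
  have hL1 : 1 ≤ Real.log (Real.log N) := (le_max_left _ _).trans hN2
  have hL2 : -Real.log κ ≤ Real.log (Real.log N) := (le_max_right _ _).trans hN2
  have hCA : C ≤ A₁ := (Nat.le_ceil C).trans (by exact_mod_cast hA₁)
  have hKL : C * Real.log (Real.log N) ≤ K := by
    rw [hK]
    push_cast
    exact mul_le_mul hCA (Nat.le_ceil _) (by linarith) (by linarith)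
  have hKH : C * HB (IN N) ≤ K := (mul_le_mul_of_nonneg_left hN3 (by linarith)).trans hKL
  have hKe : Real.exp (-(K : ℝ)) ≤ κ := by
    have h1 : Real.log (Real.log N) ≤ K := by nlinarith
    calc Real.exp (-(K : ℝ)) ≤ Real.exp (Real.log κ) := Real.exp_le_exp.2 (by linarith)
      _ = κ := Real.exp_log hk0
  have hτ : C * ∑ p ∈ IN N, (p : ℝ) ^ (-(3 / 2) : ℝ) ≤ κ := by
    rw [le_div_iff₀ (by linarith)] at hN1
    linarith
  have hτ0 : 0 ≤ C * ∑ p ∈ IN N, (p : ℝ) ^ (-(3 / 2) : ℝ) := by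
    apply mul_nonneg (by linarith)
    exact Finset.sum_nonneg fun p _ => by positivity
  obtain ⟨h1, h2⟩ := hC (IN N) (blf_prime N) P hP (fun _ => 1) (fun p _ => by simp) K hKH
  simp only [sub_self, norm_zero, zero_div, Finset.sum_const_zero, zero_add, mul_zero] at h1 h2
  set τ := C * ∑ p ∈ IN N, (p : ℝ) ^ (-(3 / 2) : ℝ) with hτd
  have hprod : ∀ x : ℕ → ℝ, ∏ p ∈ IN N, el p 1 (x p) = ((∏ p ∈ IN N, er p (x p) : ℝ) : ℂ) := by
    intro x
    push_cast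
    exact Finset.prod_congr rfl fun p _ => (er_el p (x p)).symm
  have e1 : ∀ x : ℕ → ℝ, (mb1 (IN N) K x : ℂ) * ∏ p ∈ IN N, el p 1 (x p) =
      ((Yz A₁ N x : ℝ) : ℂ) := by
    intro x
    rw [hprod]
    unfold Yz
    push_cast
    ring
  have e2 : ∀ x : ℕ → ℝ, mb1 (IN N) K x ^ 2 * ‖∏ p ∈ IN N, el p 1 (x p)‖ ^ 2 =
      Yz A₁ N x ^ 2 := by
    intro x
    rw [hprod, Complex.norm_real, Real.norm_eq_abs, sq_abs]
    unfold Yz
    ring
  simp_rw [e1] at h1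
  simp_rw [e2] at h2
  rw [integral_complex_ofReal] at h1
  have h3 : |(∫ x, Yz A₁ N x ∂P) - 1| ≤ Real.exp τ - 1 + 2 * Real.exp (-K) := by
    have : ((∫ x, Yz A₁ N x ∂P : ℝ) : ℂ) - 1 = (((∫ x, Yz A₁ N x ∂P) - 1 : ℝ) : ℂ) := by
      push_cast
      rfl
    rw [this, Complex.norm_real, Real.norm_eq_abs] at h1
    exact h1
  have h4 : ∫ x, (Yz A₁ N x - 1) ^ 2 ∂P = (∫ x, Yz A₁ N x ^ 2 ∂P) - 2 * (∫ x, Yz A₁ N x ∂P) + 1 := by
    have e3 : ∀ x : ℕ → ℝ, (Yz A₁ N x - 1) ^ 2 = Yz A₁ N x ^ 2 - 2 * Yz A₁ N x + 1 := by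
      intro x
      ring
    simp_rw [e3]
    have hi3 : Integrable (fun x => Yz A₁ N x ^ 2 - 2 * Yz A₁ N x) P := hi2.sub (hi1.const_mul 2)
    rw [integral_add hi3 (integrable_const 1),
      integral_sub hi2 (hi1.const_mul 2), integral_const_mul, integral_const]
    simp
  rw [h4]
  have h5 := (abs_le.1 h3).1
  have h6 := blf_exp hτ0 (by linarith)
  have hKe0 : 0 < Real.exp (-(K : ℝ)) := Real.exp_pos _
  have h7 := blf_exp (x := τ + 4 * Real.exp (-(K : ℝ))) (by linarith) (by linarith)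
  linarith

/-- the mollified Euler product is close to one -/
theorem yz_four_pr : ∃ A : ℕ, ∀ A₁ : ℕ, A ≤ A₁ → ∀ ε : ℝ, 0 < ε → ∃ N₀ : ℕ, ∀ N : ℕ, N₀ ≤ N →
    ∀ P : Measure (ℕ → ℝ), IsST (IN N) P →
      Integrable (fun x => (Yz A₁ N x - 1) ^ 4) P ∧ ∫ x, (Yz A₁ N x - 1) ^ 4 ∂P ≤ ε := by
  obtain ⟨A, hA⟩ := yz_six
  obtain ⟨A', hA'⟩ := blf_sq
  refine ⟨max A A', fun A₁ hA₁ ε hε => ?_⟩
  obtain ⟨C, N₁, hC⟩ := hA A₁ ((le_max_left _ _).trans hA₁)
  set D : ℝ := 32 * (max C 0 + 1) with hD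
  have hD0 : 0 < D := by
    have := le_max_right C 0
    rw [hD]
    linarith
  set l : ℝ := D / ε with hl
  have hl0 : 0 < l := div_pos hD0 hε
  obtain ⟨N₂, hN₂⟩ := hA' A₁ ((le_max_right _ _).trans hA₁) (ε / l) (by positivity)
  refine ⟨max N₁ N₂, fun N hN P hP => ?_⟩
  obtain ⟨h6, h6'⟩ := hC N ((le_max_left _ _).trans hN) P hP
  have := hP.prob
  have hm := blf_meas A₁ N
  have hdom : ∀ {F : (ℕ → ℝ) → ℝ}, Measurable F → (∀ x, |F x| ≤ 32 * (1 + Yz A₁ N x ^ 6)) →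
      Integrable F P := by
    intro F hF hb
    refine Integrable.mono' (((integrable_const (1 : ℝ)).add h6).const_mul 32)
      hF.aestronglyMeasurable (ae_of_all _ fun x => ?_)
    exact hb x
  have hi1 : Integrable (fun x => Yz A₁ N x) P := hdom hm fun x => by
    have e1 : |Yz A₁ N x| ≤ 1 + Yz A₁ N x ^ 6 := by
      have e2 : Yz A₁ N x ^ 6 = |Yz A₁ N x| ^ 6 := by
        rw [← abs_pow, abs_of_nonneg (by positivity)]
      rw [e2]
      rcases le_total (|Yz A₁ N x|) 1 with h | h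
      · have : 0 ≤ |Yz A₁ N x| ^ 6 := by positivity
        linarith
      · have : |Yz A₁ N x| ≤ |Yz A₁ N x| ^ 6 := le_self_pow₀ h (by norm_num)
        linarith
    have e3 : 0 ≤ Yz A₁ N x ^ 6 := by positivity
    linarith
  have hi2 : Integrable (fun x => Yz A₁ N x ^ 2) P := hdom (hm.pow_const 2) fun x => by
    rw [abs_of_nonneg (sq_nonneg _)]
    have e2 : Yz A₁ N x ^ 6 = (Yz A₁ N x ^ 2) ^ 3 := by ring
    rw [e2]
    set u := Yz A₁ N x ^ 2
    have hu : 0 ≤ u := sq_nonneg _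
    rcases le_total u 1 with h | h
    · have : 0 ≤ u ^ 3 := by positivity
      linarith
    · have : u ≤ u ^ 3 := le_self_pow₀ h (by norm_num)
      linarith
  have h7 := hN₂ N ((le_max_right _ _).trans hN) P hP hi1 hi2
  have hpt6 : ∀ t : ℝ, (t - 1) ^ 6 ≤ 32 * (1 + t ^ 6) := by
    intro t
    nlinarith [sq_nonneg (t + 1), sq_nonneg (t ^ 2 + t), sq_nonneg (t ^ 3 + 1), sq_nonneg (t ^ 3 + t ^ 2),
      sq_nonneg (t ^ 2 + 1), sq_nonneg (t ^ 2 - 1), sq_nonneg (t ^ 3 + t), sq_nonneg (t ^ 2 + t + 1),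
      sq_nonneg (t ^ 3 - t), sq_nonneg (t ^ 2 - t), sq_nonneg (t ^ 3 - 1), sq_nonneg (t * (t + 1) ^ 2),
      sq_nonneg ((t + 1) ^ 2), sq_nonneg ((t + 1) ^ 3), sq_nonneg (t ^ 2 * (t + 1))]
  have hi6 : Integrable (fun x => (Yz A₁ N x - 1) ^ 6) P :=
    hdom ((hm.sub_const 1).pow_const 6) fun x => by
      rw [abs_of_nonneg (by positivity)]
      exact hpt6 _
  have hi22 : Integrable (fun x => (Yz A₁ N x - 1) ^ 2) P := by
    have e3 : ∀ x : ℕ → ℝ, (Yz A₁ N x - 1) ^ 2 = Yz A₁ N x ^ 2 - 2 * Yz A₁ N x + 1 := by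
      intro x
      ring
    simp_rw [e3]
    exact (hi2.sub (hi1.const_mul 2)).add (integrable_const 1)
  have hpt : ∀ t : ℝ, t ^ 4 ≤ l / 2 * t ^ 2 + 1 / (2 * l) * t ^ 6 := by
    intro t
    have e4 : l / 2 * t ^ 2 + 1 / (2 * l) * t ^ 6 - t ^ 4 = (l * t - t ^ 3) ^ 2 / (2 * l) := by
      field_simp
      ring
    have e5 : 0 ≤ (l * t - t ^ 3) ^ 2 / (2 * l) := by positivity
    linarith
  have hi4 : Integrable (fun x => (Yz A₁ N x - 1) ^ 4) P := by
    refine Integrable.mono' ((hi22.const_mul (l / 2)).add (hi6.const_mul (1 / (2 * l))))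
      ((hm.sub_const 1).pow_const 4).aestronglyMeasurable (ae_of_all _ fun x => ?_)
    rw [Real.norm_eq_abs, abs_of_nonneg (by positivity)]
    exact hpt _
  refine ⟨hi4, ?_⟩
  have h8 : ∫ x, (Yz A₁ N x - 1) ^ 6 ∂P ≤ D := by
    calc ∫ x, (Yz A₁ N x - 1) ^ 6 ∂P ≤ ∫ x, 32 * (1 + Yz A₁ N x ^ 6) ∂P :=
          integral_mono hi6 (((integrable_const (1 : ℝ)).add h6).const_mul 32) fun x => hpt6 _
      _ = 32 * (1 + ∫ x, Yz A₁ N x ^ 6 ∂P) := by
          rw [integral_const_mul, integral_add (integrable_const 1) h6, integral_const]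
          simp
      _ ≤ D := by
          have := le_max_left C 0
          rw [hD]
          linarith
  calc ∫ x, (Yz A₁ N x - 1) ^ 4 ∂P
      ≤ ∫ x, (l / 2 * (Yz A₁ N x - 1) ^ 2 + 1 / (2 * l) * (Yz A₁ N x - 1) ^ 6) ∂P :=
        integral_mono hi4 ((hi22.const_mul (l / 2)).add (hi6.const_mul (1 / (2 * l))))
          fun x => hpt _
    _ = l / 2 * (∫ x, (Yz A₁ N x - 1) ^ 2 ∂P) + 1 / (2 * l) * ∫ x, (Yz A₁ N x - 1) ^ 6 ∂P := by
        rw [integral_add (hi22.const_mul (l / 2)) (hi6.const_mul (1 / (2 * l))),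
          integral_const_mul, integral_const_mul]
    _ ≤ l / 2 * (ε / l) + 1 / (2 * l) * D := by
        apply add_le_add
        · exact mul_le_mul_of_nonneg_left h7 (by positivity)
        · exact mul_le_mul_of_nonneg_left h8 (by positivity)
    _ = ε := by
        rw [hl]
        field_simp
        ring

theorem yz_four : type_of% @yz_four_pr := @yz_four_pr

end Pool.Agent.KSL
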