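import Pool.Agent.Lib_helper68.KSL.Defs
import Pool.Agent.Lib_helper41.LVBF.ELF
import Pool.Agent.Lib_helper41.LVBF.ELM
import Pool.Agent.Lib_helper41.LVBF.HPM
import Pool.Agent.Lib_helper41.LVBF.STO
import Pool.Agent.Lib_helper68.KSLF.BLF
import Pool.Agent.Lib_helper68.KSLF.BZP
import Pool.Agent.Lib_helper68.KSLF.ERP

/-! KSL block SPM. -/

namespace Pool.Agent.KSL

open Pool.Agent.LEV Pool.Agent.LVB
open Pool.Agent.FG61 (mu phi cc ff AA Lam)
open Complex MeasureTheory Filter Topology UpperHalfPlane ModularGroup ProbabilityTheory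
open scoped MatrixGroups Modular ENNReal ModularForm ComplexConjugate ContDiff

/-! ### bounded functions -/

lemma spm_um_bd {I : Finset ℕ} {m : ℕ} (hm : m.primeFactors ⊆ I) {x : ℕ → ℝ}
    (hx : ∀ p ∈ I, |x p| ≤ 2) : |Um m x| ≤ ∏ p ∈ m.primeFactors, ((m.factorization p : ℝ) + 1) := by
  unfold Um
  rw [Finset.abs_prod]
  exact Finset.prod_le_prod (fun _ _ => abs_nonneg _) (fun p hp => uu_le (hx p (hm hp)) _)

lemma spm_poly_meas (X : ℕ) (c : ℕ → ℝ) : Measurable (fun x => ∑ m ∈ Finset.Icc 1 X, c m * Um m x) :=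
  Finset.measurable_sum _ (fun m _ => (um_meas m).const_mul _)

lemma spm_poly_bd {I : Finset ℕ} {P : Measure (ℕ → ℝ)} (hP : IsST I P) (X : ℕ) {c : ℕ → ℝ}
    (hc : ∀ m, c m ≠ 0 → m.primeFactors ⊆ I) :
    ∃ B : ℝ, 0 ≤ B ∧ ∀ᵐ x ∂P, |∑ m ∈ Finset.Icc 1 X, c m * Um m x| ≤ B := by
  refine ⟨∑ m ∈ Finset.Icc 1 X, |c m| * ∏ p ∈ m.primeFactors, ((m.factorization p : ℝ) + 1),
    Finset.sum_nonneg (fun m _ => mul_nonneg (abs_nonneg _)
      (Finset.prod_nonneg (fun p _ => by positivity))), ?_⟩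
  filter_upwards [hP.bdd] with x hx
  refine (Finset.abs_sum_le_sum_abs _ _).trans (Finset.sum_le_sum (fun m _ => ?_))
  rw [abs_mul]
  by_cases h : c m = 0
  · rw [h]; simp
  · exact mul_le_mul_of_nonneg_left (spm_um_bd (hc m h) hx) (abs_nonneg _)

lemma spm_mul_int {P : Measure (ℕ → ℝ)} {F G : (ℕ → ℝ) → ℝ} (hF : Integrable F P)
    (hG : Measurable G) {B : ℝ} (hB : ∀ᵐ x ∂P, |G x| ≤ B) : Integrable (fun x => F x * G x) P := by
  refine hF.mul_bdd (c := B) hG.aestronglyMeasurable ?_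
  filter_upwards [hB] with x hx
  rwa [Real.norm_eq_abs]

lemma spm_int_bdd {P : Measure (ℕ → ℝ)} [IsFiniteMeasure P] {G : (ℕ → ℝ) → ℝ} (hG : Measurable G)
    {B : ℝ} (hB : ∀ᵐ x ∂P, |G x| ≤ B) : Integrable G P := by
  refine Integrable.of_bound hG.aestronglyMeasurable B ?_
  filter_upwards [hB] with x hx
  rwa [Real.norm_eq_abs]

/-! ### orthonormality and Bessel -/

lemma spm_um_sum (X : ℕ) {m : ℕ} (h1 : 1 ≤ m) (hX : m ≤ X) (x : ℕ → ℝ) :
    ∑ k ∈ Finset.Icc 1 X, (if k = m then (1 : ℝ) else 0) * Um k x = Um m x := by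
  rw [Finset.sum_eq_single m]
  · simp
  · intro k _ hk; simp [hk]
  · intro h; exact absurd (Finset.mem_Icc.mpr ⟨h1, hX⟩) h

lemma spm_orth {I : Finset ℕ} (hI : ∀ p ∈ I, p.Prime) {P : Measure (ℕ → ℝ)} (hP : IsST I P)
    {X : ℕ} {c : ℕ → ℝ} (hc : ∀ m, c m ≠ 0 → 1 ≤ m ∧ m ≤ X ∧ m.primeFactors ⊆ I) {m : ℕ}
    (h1 : 1 ≤ m) (hmI : m.primeFactors ⊆ I) :
    ∫ x, (∑ k ∈ Finset.Icc 1 X, c k * Um k x) * Um m x ∂P = c m := by
  classical
  have := hP.prob
  set X' := max X m with hX'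
  have hcs : ∀ x, ∑ k ∈ Finset.Icc 1 X, c k * Um k x = ∑ k ∈ Finset.Icc 1 X', c k * Um k x := by
    intro x
    apply Finset.sum_subset (Finset.Icc_subset_Icc le_rfl (le_max_left _ _))
    intro k _ hk2
    have : c k = 0 := by
      by_contra h
      exact hk2 (Finset.mem_Icc.mpr ⟨(hc k h).1, (hc k h).2.1⟩)
    rw [this, zero_mul]
  have hc' : ∀ k, c k ≠ 0 → 1 ≤ k ∧ k ≤ X' ∧ k.primeFactors ⊆ I := fun k hk =>
    ⟨(hc k hk).1, (hc k hk).2.1.trans (le_max_left _ _), (hc k hk).2.2⟩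
  set d : ℕ → ℝ := fun k => if k = m then 1 else 0 with hd
  have hd' : ∀ k, d k ≠ 0 → 1 ≤ k ∧ k ≤ X' ∧ k.primeFactors ⊆ I := by
    intro k hk
    have : k = m := by
      by_contra h
      exact hk (by simp [hd, h])
    subst this
    exact ⟨h1, le_max_right _ _, hmI⟩
  have hcd : ∀ k, c k + d k ≠ 0 → 1 ≤ k ∧ k ≤ X' ∧ k.primeFactors ⊆ I := by
    intro k hk
    by_cases h : c k = 0
    · exact hd' k (by rwa [h, zero_add] at hk)
    · exact hc' k h
  have e1 := st_sq hI hP hc'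
  have e2 := st_sq hI hP hd'
  have e3 := st_sq hI hP (c := fun k => c k + d k) hcd
  obtain ⟨B₁, hB₁0, hB₁⟩ := spm_poly_bd hP X' (c := c) (fun k hk => (hc' k hk).2.2)
  obtain ⟨B₂, hB₂0, hB₂⟩ := spm_poly_bd hP X' (c := d) (fun k hk => (hd' k hk).2.2)
  set F : (ℕ → ℝ) → ℝ := fun x => ∑ k ∈ Finset.Icc 1 X', c k * Um k x with hF
  set G : (ℕ → ℝ) → ℝ := fun x => ∑ k ∈ Finset.Icc 1 X', d k * Um k x with hG
  have hFi : Integrable F P := spm_int_bdd (spm_poly_meas X' c) hB₁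
  have hGi : Integrable G P := spm_int_bdd (spm_poly_meas X' d) hB₂
  have i1 : Integrable (fun x => F x * F x) P := spm_mul_int hFi (spm_poly_meas X' c) hB₁
  have i2 : Integrable (fun x => G x * G x) P := spm_mul_int hGi (spm_poly_meas X' d) hB₂
  have i3 : Integrable (fun x => F x * G x) P := spm_mul_int hFi (spm_poly_meas X' d) hB₂
  have hsum : ∫ x, (∑ k ∈ Finset.Icc 1 X', (c k + d k) * Um k x) ^ 2 ∂P =
      ∫ x, F x * F x ∂P + 2 * ∫ x, F x * G x ∂P + ∫ x, G x * G x ∂P := by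
    have h5 : ∀ x, (∑ k ∈ Finset.Icc 1 X', (c k + d k) * Um k x) ^ 2 =
        (F x * F x + 2 * (F x * G x)) + G x * G x := by
      intro x
      have : ∑ k ∈ Finset.Icc 1 X', (c k + d k) * Um k x = F x + G x := by
        rw [hF, hG]
        simp only
        rw [← Finset.sum_add_distrib]
        exact Finset.sum_congr rfl (fun k _ => by ring)
      rw [this]; ring
    have i4 : Integrable (fun x => F x * F x + 2 * (F x * G x)) P := i1.add (i3.const_mul 2)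
    have i5 : Integrable (fun x => 2 * (F x * G x)) P := i3.const_mul 2
    rw [integral_congr_ae (Eventually.of_forall h5), integral_add i4 i2,
      integral_add i1 i5, integral_const_mul]
  have hFF : ∫ x, F x * F x ∂P = ∑ k ∈ Finset.Icc 1 X', c k ^ 2 := by
    rw [← e1]; exact integral_congr_ae (Eventually.of_forall (fun x => by simp only [hF]; ring))
  have hGG : ∫ x, G x * G x ∂P = ∑ k ∈ Finset.Icc 1 X', d k ^ 2 := by
    rw [← e2]; exact integral_congr_ae (Eventually.of_forall (fun x => by simp only [hG]; ring))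
  rw [e3, hFF, hGG] at hsum
  have h6 : ∑ k ∈ Finset.Icc 1 X', (c k + d k) ^ 2 = ∑ k ∈ Finset.Icc 1 X', c k ^ 2 +
      2 * ∑ k ∈ Finset.Icc 1 X', c k * d k + ∑ k ∈ Finset.Icc 1 X', d k ^ 2 := by
    rw [Finset.mul_sum, ← Finset.sum_add_distrib, ← Finset.sum_add_distrib]
    exact Finset.sum_congr rfl (fun k _ => by ring)
  have h7 : ∑ k ∈ Finset.Icc 1 X', c k * d k = c m := by
    rw [Finset.sum_eq_single m]
    · simp [hd]
    · intro k _ hk; simp [hd, hk]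
    · intro h; exact absurd (Finset.mem_Icc.mpr ⟨h1, le_max_right _ _⟩) h
  have h8 : ∫ x, F x * G x ∂P = c m := by
    rw [h6, h7] at hsum; linarith
  rw [← h8]
  refine integral_congr_ae (Eventually.of_forall (fun x => ?_))
  simp only
  rw [hcs x, hG]
  simp only
  rw [spm_um_sum X' h1 (le_max_right _ _)]

lemma spm_bessel {I : Finset ℕ} (hI : ∀ p ∈ I, p.Prime) {P : Measure (ℕ → ℝ)} (hP : IsST I P)
    {G : (ℕ → ℝ) → ℝ} (hG : Integrable G P) (hG2 : Integrable (fun x => G x ^ 2) P)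
    (T : Finset ℕ) (hT : ∀ m ∈ T, 1 ≤ m ∧ m.primeFactors ⊆ I) :
    ∑ m ∈ T, (∫ x, G x * Um m x ∂P) ^ 2 ≤ ∫ x, G x ^ 2 ∂P := by
  classical
  have := hP.prob
  set X := T.sup id with hX
  set c : ℕ → ℝ := fun m => if m ∈ T then ∫ x, G x * Um m x ∂P else 0 with hc
  have hc' : ∀ m, c m ≠ 0 → 1 ≤ m ∧ m ≤ X ∧ m.primeFactors ⊆ I := by
    intro m hm
    have hmT : m ∈ T := by
      by_contra h
      exact hm (by simp [hc, h])
    exact ⟨(hT m hmT).1, Finset.le_sup (f := id) hmT, (hT m hmT).2⟩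
  obtain ⟨B, hB0, hB⟩ := spm_poly_bd hP X (c := c) (fun k hk => (hc' k hk).2.2)
  set F : (ℕ → ℝ) → ℝ := fun x => ∑ k ∈ Finset.Icc 1 X, c k * Um k x with hF
  have hFi : Integrable F P := spm_int_bdd (spm_poly_meas X c) hB
  have i1 : Integrable (fun x => F x * F x) P := spm_mul_int hFi (spm_poly_meas X c) hB
  have i3 : Integrable (fun x => G x * F x) P := spm_mul_int hG (spm_poly_meas X c) hB
  have hUi : ∀ m, m.primeFactors ⊆ I → Integrable (fun x => G x * Um m x) P := by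
    intro m hm
    refine spm_mul_int hG (um_meas m) (B := ∏ p ∈ m.primeFactors, ((m.factorization p : ℝ) + 1)) ?_
    filter_upwards [hP.bdd] with x hx
    exact spm_um_bd hm hx
  have hsub : ∀ m ∈ T, m ∈ Finset.Icc 1 X := fun m hm =>
    Finset.mem_Icc.mpr ⟨(hT m hm).1, Finset.le_sup (f := id) hm⟩
  have h1 : ∫ x, F x * F x ∂P = ∑ k ∈ Finset.Icc 1 X, c k ^ 2 := by
    rw [← st_sq hI hP hc']; exact integral_congr_ae (Eventually.of_forall (fun x => by simp only [hF]; ring))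
  have h2 : ∫ x, G x * F x ∂P = ∑ k ∈ Finset.Icc 1 X, c k ^ 2 := by
    have h3 : ∀ x, G x * F x = ∑ k ∈ Finset.Icc 1 X, c k * (G x * Um k x) := by
      intro x
      rw [hF]
      simp only
      rw [Finset.mul_sum]
      exact Finset.sum_congr rfl (fun k _ => by ring)
    rw [integral_congr_ae (Eventually.of_forall h3), integral_finsetSum]
    · refine Finset.sum_congr rfl (fun k _ => ?_)
      rw [integral_const_mul]
      by_cases hk : k ∈ T
      · have : c k = ∫ x, G x * Um k x ∂P := by simp [hc, hk]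
        rw [← this]; ring
      · have : c k = 0 := by simp [hc, hk]
        rw [this]; ring
    · intro k _
      by_cases hk : c k = 0
      · simp only [hk, zero_mul]; exact integrable_zero _ _ _
      · exact (hUi k (hc' k hk).2.2).const_mul _
  have h4 : 0 ≤ ∫ x, (G x - F x) ^ 2 ∂P := integral_nonneg (fun x => sq_nonneg _)
  have h5 : ∫ x, (G x - F x) ^ 2 ∂P = ∫ x, G x ^ 2 ∂P - 2 * ∫ x, G x * F x ∂P + ∫ x, F x * F x ∂P := by
    have h6 : ∀ x, (G x - F x) ^ 2 = (G x ^ 2 - 2 * (G x * F x)) + F x * F x := fun x => by ring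
    have i5 : Integrable (fun x => 2 * (G x * F x)) P := i3.const_mul 2
    have i4 : Integrable (fun x => G x ^ 2 - 2 * (G x * F x)) P := hG2.sub i5
    rw [integral_congr_ae (Eventually.of_forall h6), integral_add i4 i1,
      integral_sub hG2 i5, integral_const_mul]
  rw [h5, h1, h2] at h4
  have h7 : ∑ m ∈ T, (∫ x, G x * Um m x ∂P) ^ 2 = ∑ k ∈ Finset.Icc 1 X, c k ^ 2 := by
    have h8 : ∀ m ∈ T, (∫ x, G x * Um m x ∂P) ^ 2 = c m ^ 2 := by
      intro m hm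
      have : c m = ∫ x, G x * Um m x ∂P := by simp [hc, hm]
      rw [this]
    rw [Finset.sum_congr rfl h8]
    apply Finset.sum_subset (fun m hm => hsub m hm)
    intro k _ hk
    have : c k = 0 := by simp [hc, hk]
    rw [this]; ring
  rw [h7]
  linarith

/-! ### measurability -/

lemma spm_mb1_meas (I : Finset ℕ) (K : ℕ) : Measurable (mb1 I K) := by
  unfold mb1 ex PB
  refine Measurable.const_mul ?_ _
  refine Finset.measurable_sum _ (fun k _ => ?_)
  refine Measurable.div_const ?_ _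
  refine Measurable.pow_const ?_ _
  refine Measurable.neg ?_
  exact Finset.measurable_sum _ (fun p _ => (measurable_pi_apply p).div_const _)

lemma spm_yz_meas (A₁ N : ℕ) : Measurable (Yz A₁ N) := by
  unfold Yz
  refine Measurable.mul ?_ (spm_mb1_meas _ _)
  exact Finset.measurable_prod _ (fun p _ => (er_meas p).comp (measurable_pi_apply p))

/-! ### the core estimate -/

lemma spm_core {N A₁ A : ℕ} {s a : ℕ → ℝ} {P : Measure (ℕ → ℝ)} (hP : IsST (IZ N) P)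
    (hpr : ∀ p ∈ IZ N, p.Prime)
    (hsm : ∀ m, smooth (zz N) m ↔ 1 ≤ m ∧ m.primeFactors ⊆ IZ N)
    (hsp : ∀ x : ℕ → ℝ, (∀ p ∈ IZ N, |x p| ≤ 2) →
      (∏ p ∈ IZ N, er p (x p)) * Bz A₁ N x = Yz A₁ N x)
    (hs : ∀ m, s m ≠ 0 → 1 ≤ m ∧ m ≤ A ∧ m.primeFactors ⊆ IZ N)
    (ha : ∀ m, a m ≠ 0 → 1 ≤ m ∧ m ≤ A ∧ m.primeFactors ⊆ IZ N)
    (hab : ∀ x, ∑ k ∈ Finset.Icc 1 A, a k * Um k x =
      Bz A₁ N x * ∑ m ∈ Finset.Icc 1 A, s m * Um m x)
    (hY4 : Integrable (fun x => (Yz A₁ N x - 1) ^ 4) P) {κ : ℝ}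
    (hκ : ∫ x, ((Yz A₁ N x - 1) * ∑ m ∈ Finset.Icc 1 A, s m * Um m x) ^ 2 ∂P ≤ κ) :
    cd (zz N) A a s ≤ κ ∧
      Real.sqrt (cn (zz N) A a) ≤ Real.sqrt (∑ m ∈ Finset.Icc 1 A, s m ^ 2) + Real.sqrt κ := by
  classical
  have := hP.prob
  set S : (ℕ → ℝ) → ℝ := fun x => ∑ m ∈ Finset.Icc 1 A, s m * Um m x with hS
  obtain ⟨B, hB0, hB⟩ := spm_poly_bd hP A (c := s) (fun k hk => (hs k hk).2.2)
  have hSm : Measurable S := spm_poly_meas A s
  have hYm : Measurable (fun x => Yz A₁ N x - 1) := (spm_yz_meas A₁ N).sub_const 1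
  have hY1 : Integrable (fun x => Yz A₁ N x - 1) P := by
    refine Integrable.mono' ((integrable_const (1 : ℝ)).add hY4) hYm.aestronglyMeasurable
      (Eventually.of_forall (fun x => ?_))
    simp only [Pi.add_apply, Real.norm_eq_abs]
    have h1 : (Yz A₁ N x - 1) ^ 4 = |Yz A₁ N x - 1| ^ 4 := by
      rw [pow_abs, abs_of_nonneg (by positivity)]
    rw [h1]
    have h2 := abs_nonneg (Yz A₁ N x - 1)
    generalize |Yz A₁ N x - 1| = u at *
    nlinarith [sq_nonneg (u ^ 2 - 1), sq_nonneg (u - 1), sq_nonneg u]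
  have hY2 : Integrable (fun x => (Yz A₁ N x - 1) ^ 2) P := by
    refine Integrable.mono' ((integrable_const (1 : ℝ)).add hY4) (hYm.pow_const 2).aestronglyMeasurable
      (Eventually.of_forall (fun x => ?_))
    simp only [Pi.add_apply, Real.norm_eq_abs]
    rw [abs_of_nonneg (sq_nonneg _)]
    nlinarith [sq_nonneg ((Yz A₁ N x - 1) ^ 2 - 1), sq_nonneg (Yz A₁ N x - 1)]
  have hG : Integrable (fun x => (Yz A₁ N x - 1) * S x) P := spm_mul_int hY1 hSm hB
  have hG2 : Integrable (fun x => ((Yz A₁ N x - 1) * S x) ^ 2) P := by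
    have h1 := spm_mul_int hY2 (hSm.pow_const 2) (B := B ^ 2) (by
      filter_upwards [hB] with x hx
      rw [abs_of_nonneg (sq_nonneg _)]
      exact sq_le_sq' (by linarith [neg_abs_le (S x)]) ((le_abs_self _).trans hx))
    refine h1.congr (Eventually.of_forall (fun x => ?_))
    simp only
    ring
  -- the coefficients
  have hcoef : ∀ m, smooth (zz N) m → Ph A a m / Real.sqrt m - s m =
      ∫ x, (Yz A₁ N x - 1) * S x * Um m x ∂P := by
    intro m hm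
    obtain ⟨hm1, hmI⟩ := (hsm m).mp hm
    have hUb : ∀ᵐ x ∂P, |Um m x| ≤ ∏ p ∈ m.primeFactors, ((m.factorization p : ℝ) + 1) := by
      filter_upwards [hP.bdd] with x hx
      exact spm_um_bd hmI hx
    have h1 : ∫ x, S x * Um m x ∂P = s m := spm_orth hpr hP hs hm1 hmI
    have hSU : Integrable (fun x => S x * Um m x) P :=
      spm_mul_int (spm_int_bdd hSm hB) (um_meas m) hUb
    have hGU : Integrable (fun x => (Yz A₁ N x - 1) * S x * Um m x) P :=
      spm_mul_int hG (um_meas m) hUb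
    have h2 : ∫ x, Yz A₁ N x * S x * Um m x ∂P =
        ∫ x, (Yz A₁ N x - 1) * S x * Um m x ∂P + ∫ x, S x * Um m x ∂P := by
      rw [← integral_add hGU hSU]
      exact integral_congr_ae (Eventually.of_forall (fun x => by simp only; ring))
    have h3 : ∫ x, Yz A₁ N x * S x * Um m x ∂P = Ph A a m / Real.sqrt m := by
      have h4 : ∀ᵐ x ∂P, Yz A₁ N x * S x * Um m x =
          ∑ k ∈ Finset.Icc 1 A, a k * ((∏ p ∈ IZ N, er p (x p)) * Um k x * Um m x) := by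
        filter_upwards [hP.bdd] with x hx
        have h5 : Yz A₁ N x * S x = (∏ p ∈ IZ N, er p (x p)) * ∑ k ∈ Finset.Icc 1 A, a k * Um k x := by
          rw [hab x, ← hsp x hx, mul_assoc]
        rw [h5, Finset.mul_sum, Finset.sum_mul]
        exact Finset.sum_congr rfl (fun k _ => by ring)
      rw [integral_congr_ae h4, integral_finsetSum]
      · unfold Ph
        rw [Finset.sum_div]
        refine Finset.sum_congr rfl (fun k hk => ?_)
        rw [integral_const_mul]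
        by_cases hak : a k = 0
        · rw [hak]; simp
        · rw [(er_um hpr hP (Finset.mem_Icc.mp hk).1 hm1 (ha k hak).2.2 hmI).2,
            Real.sqrt_mul (Nat.cast_nonneg k)]
          have hk0 : 0 < Real.sqrt k := Real.sqrt_pos.mpr (by exact_mod_cast (Finset.mem_Icc.mp hk).1)
          have hm0 : 0 < Real.sqrt m := Real.sqrt_pos.mpr (by exact_mod_cast hm1)
          field_simp
      · intro k hk
        by_cases hak : a k = 0
        · simp only [hak, zero_mul]; exact integrable_zero _ _ _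
        · exact ((er_um hpr hP (Finset.mem_Icc.mp hk).1 hm1 (ha k hak).2.2 hmI).1).const_mul _
    rw [h3, h1] at h2
    linarith
  have hbes : ∀ T : Finset ℕ, ∑ m ∈ T.filter (fun m => smooth (zz N) m),
      (Ph A a m / Real.sqrt m - s m) ^ 2 ≤ κ := by
    intro T
    have h1 := spm_bessel hpr hP hG hG2 (T.filter (fun m => smooth (zz N) m))
      (fun m hm => (hsm m).mp (Finset.mem_filter.mp hm).2)
    refine le_trans (le_of_eq ?_) (h1.trans hκ)
    refine Finset.sum_congr rfl (fun m hm => ?_)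
    rw [hcoef m (Finset.mem_filter.mp hm).2]
  have hκ0 : 0 ≤ κ := by
    have := hbes ∅
    simpa using this
  constructor
  · unfold cd
    refine Real.tsum_le_of_sum_le (fun m => ?_) (fun T => ?_)
    · split_ifs
      · exact sq_nonneg _
      · exact le_refl _
    · rw [← Finset.sum_filter]
      exact hbes T
  · have hcn : cn (zz N) A a ≤ (Real.sqrt (∑ m ∈ Finset.Icc 1 A, s m ^ 2) + Real.sqrt κ) ^ 2 := by
      unfold cn
      refine Real.tsum_le_of_sum_le (fun m => ?_) (fun T => ?_)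
      · split_ifs
        · positivity
        · exact le_refl _
      · rw [← Finset.sum_filter]
        set T' := T.filter (fun m => smooth (zz N) m) with hT'
        have h1 : ∀ m ∈ T', Ph A a m ^ 2 / m =
            s m ^ 2 + 2 * (s m * (Ph A a m / Real.sqrt m - s m)) +
              (Ph A a m / Real.sqrt m - s m) ^ 2 := by
          intro m hm
          have hm1 := ((hsm m).mp (Finset.mem_filter.mp hm).2).1
          have hm0 : (0 : ℝ) ≤ m := Nat.cast_nonneg m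
          have h2 : Ph A a m ^ 2 / m = (Ph A a m / Real.sqrt m) ^ 2 := by
            rw [div_pow, Real.sq_sqrt hm0]
          rw [h2]; ring
        rw [Finset.sum_congr rfl h1, Finset.sum_add_distrib, Finset.sum_add_distrib, ← Finset.mul_sum]
        have h3 : ∑ m ∈ T', s m ^ 2 ≤ ∑ m ∈ Finset.Icc 1 A, s m ^ 2 := by
          have h4 : ∑ m ∈ T', s m ^ 2 = ∑ m ∈ T'.filter (fun m => s m ≠ 0), s m ^ 2 := by
            symm
            apply Finset.sum_filter_of_ne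
            intro m _ hm h0
            exact hm (by rw [h0]; ring)
          rw [h4]
          refine Finset.sum_le_sum_of_subset_of_nonneg ?_ (fun _ _ _ => sq_nonneg _)
          intro m hm
          obtain ⟨h5, h6, _⟩ := hs m (Finset.mem_filter.mp hm).2
          exact Finset.mem_Icc.mpr ⟨h5, h6⟩
        have h5 : ∑ m ∈ T', (Ph A a m / Real.sqrt m - s m) ^ 2 ≤ κ := hbes T
        have h6 : ∑ m ∈ T', s m * (Ph A a m / Real.sqrt m - s m) ≤
            Real.sqrt (∑ m ∈ Finset.Icc 1 A, s m ^ 2) * Real.sqrt κ := by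
          refine (Real.sum_mul_le_sqrt_mul_sqrt T' s (fun m => Ph A a m / Real.sqrt m - s m)).trans ?_
          exact mul_le_mul (Real.sqrt_le_sqrt h3) (Real.sqrt_le_sqrt h5) (Real.sqrt_nonneg _)
            (Real.sqrt_nonneg _)
        have h7 : 0 ≤ ∑ m ∈ Finset.Icc 1 A, s m ^ 2 := Finset.sum_nonneg (fun _ _ => sq_nonneg _)
        have h8 := Real.sq_sqrt h7
        have h9 := Real.sq_sqrt hκ0
        nlinarith
    have h10 := Real.sqrt_le_sqrt hcn
    rwa [Real.sqrt_sq (add_nonneg (Real.sqrt_nonneg _) (Real.sqrt_nonneg _))] at h10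

/-! ### sizes -/

lemma spm_grow (C D : ℝ) {ε₂ : ℝ} (h2 : 0 < ε₂) : ∃ N₀ : ℕ, ∀ N : ℕ, N₀ ≤ N → 1 ≤ N ∧
    2 * (Real.log N ^ C + D) ≤ (N : ℝ) ^ (3 * ε₂ / 2) ∧ 2 ≤ (N : ℝ) ^ ε₂ := by
  have h3 : 0 < 3 * ε₂ / 2 := by positivity
  have e1 : ∀ᶠ x : ℝ in atTop, Real.log x ^ C ≤ 1 / 4 * x ^ (3 * ε₂ / 2) := by
    have h := (isLittleO_log_rpow_rpow_atTop C h3).bound (by norm_num : (0 : ℝ) < 1 / 4)
    filter_upwards [h, eventually_ge_atTop 1] with x hx hx1
    have h4 : 0 ≤ Real.log x ^ C := Real.rpow_nonneg (Real.log_nonneg hx1) _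
    have h5 : 0 ≤ x ^ (3 * ε₂ / 2) := Real.rpow_nonneg (by linarith) _
    rwa [Real.norm_of_nonneg h4, Real.norm_of_nonneg h5] at hx
  have e2 : ∀ᶠ x : ℝ in atTop, 4 * D ≤ x ^ (3 * ε₂ / 2) :=
    (tendsto_rpow_atTop h3).eventually_ge_atTop _
  have e3 : ∀ᶠ x : ℝ in atTop, 2 ≤ x ^ ε₂ := (tendsto_rpow_atTop h2).eventually_ge_atTop _
  have e4 := (tendsto_natCast_atTop_atTop (R := ℝ)).eventually (e1.and (e2.and (e3.and (eventually_ge_atTop 1))))
  obtain ⟨N₀, hN₀⟩ := eventually_atTop.mp e4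
  refine ⟨N₀, fun N hN => ?_⟩
  obtain ⟨h1, h4, h5, h6⟩ := hN₀ N hN
  refine ⟨by exact_mod_cast h6, by linarith, h5⟩

theorem sp_mult_pr : ∃ A₁ : ℕ, 1 ≤ A₁ ∧ ∀ ε₂ ε C₄ : ℝ, 0 < ε₂ → 0 < ε → ∃ N₀ : ℕ, ∀ N : ℕ, N₀ ≤ N →
    ∀ s : ℕ → ℝ, (∀ m, s m ≠ 0 → 1 ≤ m ∧ m ≤ KA (ε₂ / 4) N ∧ m.primeFactors ⊆ IZ N) →
    ∀ P : Measure (ℕ → ℝ), IsST (IZ N) P →
    ∫ x, (∑ m ∈ Finset.Icc 1 (KA ε₂ N), s m * Um m x) ^ 4 ∂P ≤ C₄ →
    ∃ a : ℕ → ℝ, Sht (zz N) (KA ε₂ N) a ∧
      (∀ x, ∑ k ∈ Finset.Icc 1 (KA ε₂ N), a k * Um k x =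
        Bz A₁ N x * ∑ m ∈ Finset.Icc 1 (KA ε₂ N), s m * Um m x) ∧
      cd (zz N) (KA ε₂ N) a s ≤ ε ∧
      Real.sqrt (cn (zz N) (KA ε₂ N) a) ≤
        Real.sqrt (∑ m ∈ Finset.Icc 1 (KA ε₂ N), s m ^ 2) + Real.sqrt ε := by
  classical
  obtain ⟨A, hA⟩ := yz_four
  refine ⟨max A 1, le_max_right _ _, fun ε₂ ε C₄ hε₂ hε => ?_⟩
  set A₁ := max A 1 with hA₁
  set C' : ℝ := |C₄| + 1 with hC'
  have hC'0 : 0 < C' := by positivity
  set t : ℝ := C' / ε with ht
  have ht0 : 0 < t := by positivity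
  obtain ⟨N₁, hN₁⟩ := hA A₁ (le_max_left _ _) (ε / t) (by positivity)
  obtain ⟨N₂, hN₂⟩ := iz_split
  obtain ⟨N₃, hN₃⟩ := bz_hpoly A₁ (ε₂ := ε₂ / 4) (by positivity)
  obtain ⟨C, N₄, hN₄⟩ := bz_four A₁
  obtain ⟨N₅, hN₅⟩ := spm_grow C C' hε₂
  refine ⟨max N₁ (max N₂ (max N₃ (max N₄ N₅))), fun N hN s hs P hP hC4 => ?_⟩
  simp only [max_le_iff] at hN
  obtain ⟨hn1, hn2, hn3, hn4, hn5⟩ := hN
  have := hP.prob
  obtain ⟨hz, _, hpr', hsm, hsp⟩ := hN₂ N hn2
  have hpr : ∀ p ∈ IZ N, p.Prime := fun p hp => (hpr' p hp).1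
  obtain ⟨hY4, hYε⟩ := hN₁ N hn1 P (st_sub (by rw [hz]; exact Finset.subset_union_right) hP)
  obtain ⟨hB4, hBC⟩ := hN₄ N hn4 P hP
  obtain ⟨hNpos, hgrow, hgrow2⟩ := hN₅ N hn5
  have hN1 : (1 : ℝ) ≤ N := by exact_mod_cast hNpos
  have hN0 : (0 : ℝ) < N := by linarith
  -- sizes
  set Y := KA (ε₂ / 4) N with hY
  have hYle : (Y : ℝ) ≤ (N : ℝ) ^ (ε₂ / 4) := Nat.floor_le (by positivity)
  have hYY : ((Y * Y : ℕ) : ℝ) ≤ (N : ℝ) ^ (ε₂ / 2) := by
    push_cast
    calc (Y : ℝ) * Y ≤ (N : ℝ) ^ (ε₂ / 4) * (N : ℝ) ^ (ε₂ / 4) :=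
          mul_le_mul hYle hYle (Nat.cast_nonneg _) (by positivity)
      _ = (N : ℝ) ^ (ε₂ / 2) := by rw [← Real.rpow_add hN0]; congr 1; ring
  have hYA : Y * Y ≤ KA ε₂ N := by
    unfold KA
    rw [Nat.le_floor_iff (by positivity)]
    refine hYY.trans (Real.rpow_le_rpow_of_exponent_le hN1 (by linarith))
  have hYA' : Y ≤ KA ε₂ N := by
    unfold KA
    rw [Nat.le_floor_iff (by positivity)]
    refine hYle.trans (Real.rpow_le_rpow_of_exponent_le hN1 (by linarith))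
  set AA' := KA ε₂ N with hAA
  -- the coefficients
  have hSY : ∀ x, ∑ m ∈ Finset.Icc 1 AA', s m * Um m x = ∑ m ∈ Finset.Icc 1 Y, s m * Um m x := by
    intro x
    symm
    apply Finset.sum_subset (Finset.Icc_subset_Icc le_rfl hYA')
    intro k _ hk2
    have : s k = 0 := by
      by_contra h
      exact hk2 (Finset.mem_Icc.mpr ⟨(hs k h).1, (hs k h).2.1⟩)
    rw [this, zero_mul]
  have hSH : HPoly (IZ N) Y (fun x => ∑ m ∈ Finset.Icc 1 AA', s m * Um m x) :=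
    ⟨s, hs, hSY⟩
  obtain ⟨a, ha, hax⟩ := hpoly_mul hpr hpr (hN₃ N hn3) hSH
  rw [Finset.union_self] at ha
  have hYeq : ⌊(N : ℝ) ^ (ε₂ / 4)⌋₊ = Y := rfl
  rw [hYeq] at ha hax
  simp only at hax
  have haA : ∀ m, a m ≠ 0 → 1 ≤ m ∧ m ≤ AA' ∧ m.primeFactors ⊆ IZ N := fun m hm =>
    ⟨(ha m hm).1, (ha m hm).2.1.trans hYA, (ha m hm).2.2⟩
  have hsA : ∀ m, s m ≠ 0 → 1 ≤ m ∧ m ≤ AA' ∧ m.primeFactors ⊆ IZ N := fun m hm =>
    ⟨(hs m hm).1, (hs m hm).2.1.trans hYA', (hs m hm).2.2⟩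
  have hab : ∀ x, ∑ k ∈ Finset.Icc 1 AA', a k * Um k x =
      Bz A₁ N x * ∑ m ∈ Finset.Icc 1 AA', s m * Um m x := by
    intro x
    rw [hax x]
    symm
    apply Finset.sum_subset (Finset.Icc_subset_Icc le_rfl hYA)
    intro k _ hk2
    have : a k = 0 := by
      by_contra h
      exact hk2 (Finset.mem_Icc.mpr ⟨(ha k h).1, (ha k h).2.1⟩)
    rw [this, zero_mul]
  obtain ⟨B, hB0, hB⟩ := spm_poly_bd hP AA' (c := s) (fun k hk => (hsA k hk).2.2)
  have hS4 : Integrable (fun x => (∑ m ∈ Finset.Icc 1 AA', s m * Um m x) ^ 4) P := by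
    refine spm_int_bdd ((spm_poly_meas AA' s).pow_const 4) (B := B ^ 4) ?_
    filter_upwards [hB] with x hx
    rw [abs_pow]
    exact pow_le_pow_left₀ (abs_nonneg _) hx 4
  have hC4' : ∫ x, (∑ m ∈ Finset.Icc 1 AA', s m * Um m x) ^ 4 ∂P ≤ C' :=
    hC4.trans (by rw [hC']; linarith [le_abs_self C₄])
  -- the second moment
  have hκ : ∫ x, ((Yz A₁ N x - 1) * ∑ m ∈ Finset.Icc 1 AA', s m * Um m x) ^ 2 ∂P ≤ ε := by
    have h1 : ∀ x, ((Yz A₁ N x - 1) * ∑ m ∈ Finset.Icc 1 AA', s m * Um m x) ^ 2 ≤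
        t / 2 * (Yz A₁ N x - 1) ^ 4 + 1 / (2 * t) * (∑ m ∈ Finset.Icc 1 AA', s m * Um m x) ^ 4 := by
      intro x
      generalize Yz A₁ N x - 1 = u
      generalize (∑ m ∈ Finset.Icc 1 AA', s m * Um m x) = v
      have h2 : 0 ≤ (t * u ^ 2 - v ^ 2) ^ 2 / (2 * t) := by positivity
      have h3 : (t * u ^ 2 - v ^ 2) ^ 2 / (2 * t) =
          t / 2 * u ^ 4 + 1 / (2 * t) * v ^ 4 - (u * v) ^ 2 := by
        field_simp
        ring
      linarith
    have i1 : Integrable (fun x => t / 2 * (Yz A₁ N x - 1) ^ 4) P := hY4.const_mul _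
    have i2 : Integrable (fun x => 1 / (2 * t) * (∑ m ∈ Finset.Icc 1 AA', s m * Um m x) ^ 4) P :=
      hS4.const_mul _
    have i3 : Integrable (fun x => t / 2 * (Yz A₁ N x - 1) ^ 4 +
        1 / (2 * t) * (∑ m ∈ Finset.Icc 1 AA', s m * Um m x) ^ 4) P := i1.add i2
    refine (integral_mono_of_nonneg (Eventually.of_forall (fun x => sq_nonneg _)) i3
      (Eventually.of_forall h1)).trans ?_
    rw [integral_add i1 i2, integral_const_mul, integral_const_mul]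
    calc t / 2 * ∫ x, (Yz A₁ N x - 1) ^ 4 ∂P +
        1 / (2 * t) * ∫ x, (∑ m ∈ Finset.Icc 1 AA', s m * Um m x) ^ 4 ∂P
        ≤ t / 2 * (ε / t) + 1 / (2 * t) * C' := by gcongr
      _ = ε := by
          rw [ht]
          field_simp
          ring
  obtain ⟨hcd, hcn⟩ := spm_core hP hpr hsm (hsp A₁) hsA haA hab hY4 hκ
  refine ⟨a, ⟨fun k hk => ?_, ?_⟩, hab, hcd, hcn⟩
  · exact ⟨(hsm k).mpr ⟨(haA k hk).1, (haA k hk).2.2⟩, (haA k hk).2.1⟩
  · -- the l1 bound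
    have h1 : ∑ k ∈ Finset.Icc 1 AA', |a k| = ∑ k ∈ Finset.Icc 1 (Y * Y), |a k| := by
      symm
      apply Finset.sum_subset (Finset.Icc_subset_Icc le_rfl hYA)
      intro k _ hk2
      have : a k = 0 := by
        by_contra h
        exact hk2 (Finset.mem_Icc.mpr ⟨(ha k h).1, (ha k h).2.1⟩)
      rw [this, abs_zero]
    have h2 : ∑ k ∈ Finset.Icc 1 (Y * Y), a k ^ 2 ≤ (Real.log N ^ C + C') / 2 := by
      rw [← st_sq hpr hP ha]
      have h3 : ∀ x, (∑ m ∈ Finset.Icc 1 (Y * Y), a m * Um m x) ^ 2 ≤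
          1 / 2 * Bz A₁ N x ^ 4 + 1 / 2 * (∑ m ∈ Finset.Icc 1 AA', s m * Um m x) ^ 4 := by
        intro x
        rw [← hax x]
        generalize Bz A₁ N x = u
        generalize (∑ m ∈ Finset.Icc 1 AA', s m * Um m x) = v
        nlinarith [sq_nonneg (u ^ 2 - v ^ 2)]
      have i1 : Integrable (fun x => 1 / 2 * Bz A₁ N x ^ 4) P := hB4.const_mul _
      have i2 : Integrable (fun x => 1 / 2 * (∑ m ∈ Finset.Icc 1 AA', s m * Um m x) ^ 4) P :=
        hS4.const_mul _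
      have i3 : Integrable (fun x => 1 / 2 * Bz A₁ N x ^ 4 +
          1 / 2 * (∑ m ∈ Finset.Icc 1 AA', s m * Um m x) ^ 4) P := i1.add i2
      refine (integral_mono_of_nonneg (Eventually.of_forall (fun x => sq_nonneg _)) i3
        (Eventually.of_forall h3)).trans ?_
      rw [integral_add i1 i2, integral_const_mul, integral_const_mul]
      linarith
    have h5 : (∑ k ∈ Finset.Icc 1 (Y * Y), |a k|) ^ 2 ≤ ((N : ℝ) ^ ε₂ / 2) ^ 2 := by
      calc (∑ k ∈ Finset.Icc 1 (Y * Y), |a k|) ^ 2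
          ≤ ((Finset.Icc 1 (Y * Y)).card : ℝ) * ∑ k ∈ Finset.Icc 1 (Y * Y), |a k| ^ 2 :=
            sq_sum_le_card_mul_sum_sq
        _ = ((Y * Y : ℕ) : ℝ) * ∑ k ∈ Finset.Icc 1 (Y * Y), a k ^ 2 := by
            rw [Nat.card_Icc, Nat.add_sub_cancel]
            congr 1
            exact Finset.sum_congr rfl (fun k _ => sq_abs _)
        _ ≤ (N : ℝ) ^ (ε₂ / 2) * ((Real.log N ^ C + C') / 2) :=
            mul_le_mul hYY h2 (Finset.sum_nonneg (fun _ _ => sq_nonneg _)) (by positivity)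
        _ ≤ (N : ℝ) ^ (ε₂ / 2) * ((N : ℝ) ^ (3 * ε₂ / 2) / 4) := by
            refine mul_le_mul_of_nonneg_left ?_ (by positivity)
            linarith
        _ = ((N : ℝ) ^ ε₂ / 2) ^ 2 := by
            rw [div_pow, ← Real.rpow_natCast, ← Real.rpow_mul hN0.le, mul_div_assoc', ← Real.rpow_add hN0]
            norm_num
            congr 1
            ring
    have h6 : ∑ k ∈ Finset.Icc 1 (Y * Y), |a k| ≤ (N : ℝ) ^ ε₂ / 2 :=
      le_of_sq_le_sq h5 (by positivity)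
    have h7 : (N : ℝ) ^ ε₂ - 1 ≤ (AA' : ℝ) := by
      have := Nat.lt_floor_add_one ((N : ℝ) ^ ε₂)
      have h8 : (AA' : ℝ) = (⌊(N : ℝ) ^ ε₂⌋₊ : ℝ) := rfl
      rw [h8]; linarith
    rw [h1]
    linarith

theorem sp_mult : type_of% @sp_mult_pr := @sp_mult_pr

end Pool.Agent.KSL
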