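import Pool.Agent.Lib_helper68.KSL.Defs
import Pool.Agent.Lib_helper68.LEV.EIA
import Pool.Agent.Lib_helper68.LEV.FRK
import Pool.Agent.Lib_helper68.LEV.PET
import Pool.Agent.Lib_helper68.LEV.HAR
import Pool.Agent.Lib_helper68.LEV.HPO
import Pool.Agent.Lib_helper68.LEV.EQS
import Pool.Agent.Lib_helper41.LVBF.EXT
import Pool.Agent.Lib_helper41.LVBF.HPM
import Pool.Agent.Lib_helper41.LVBF.LSS
import Pool.Agent.Lib_helper41.LVBF.STE
import Pool.Agent.Lib_helper41.LVBF.TRA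
import Pool.Agent.Lib_helper68.KSLF.HBI

/-! KSL block TYB : the approximate inverse of the Euler product has typical size. -/

namespace Pool.Agent.KSL

open Pool.Agent.LEV Pool.Agent.LVB
open Complex MeasureTheory Filter Topology UpperHalfPlane ModularGroup ProbabilityTheory
open scoped MatrixGroups Modular ENNReal ModularForm ComplexConjugate ContDiff

theorem tyb_om {N : ℕ} [Fact N.Prime] {f : S2 N} (hf : IsNew f) : 0 ≤ om f := by
  have := nr_pos (new_ne_zero hf)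
  unfold om
  have := Real.pi_pos
  positivity

theorem tyb_exp : Real.exp (8 * Real.pi * (1 / 100)) ≤ 2 := by
  have h1 : 8 * Real.pi * (1 / 100) ≤ Real.log 2 := by
    have := Real.pi_lt_d2
    have h2 := Real.log_two_gt_d9
    linarith
  calc Real.exp (8 * Real.pi * (1 / 100)) ≤ Real.exp (Real.log 2) := Real.exp_le_exp.mpr h1
    _ = 2 := Real.exp_log (by norm_num)

theorem tyb_lim (k : ℕ) {ε : ℝ} (hε : 0 < ε) (C : ℝ) {κ : ℝ} (hκ : 0 < κ) : ∃ N₀ : ℕ, ∀ N : ℕ,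
    N₀ ≤ N → C * Real.log (Real.log N) ^ k ≤ κ * Real.exp (ε * Real.sqrt (Real.log (Real.log N))) := by
  have hll : Tendsto (fun N : ℕ => Real.sqrt (Real.log (Real.log (N : ℝ)))) atTop atTop :=
    Real.tendsto_sqrt_atTop.comp (Real.tendsto_log_atTop.comp
      (Real.tendsto_log_atTop.comp tendsto_natCast_atTop_atTop))
  have h1 : Tendsto (fun u : ℝ => C * ((u ^ (2 * k)) * Real.exp (-(ε * u)))) atTop (𝓝 0) := by
    have h2 := Real.tendsto_pow_mul_exp_neg_atTop_nhds_zero (2 * k)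
    have h3 : Tendsto (fun u : ℝ => ε * u) atTop atTop := Tendsto.const_mul_atTop hε tendsto_id
    have h4 := (h2.comp h3).const_mul (C / ε ^ (2 * k))
    rw [mul_zero] at h4
    refine h4.congr fun u => ?_
    simp only [Function.comp]
    rw [mul_pow]
    field_simp
  have h5 := h1.comp hll
  obtain ⟨N₀, hN₀⟩ := Filter.eventually_atTop.mp
    ((h5.eventually (gt_mem_nhds hκ)).and (hll.eventually_ge_atTop 1))
  refine ⟨N₀, fun N hN => ?_⟩
  obtain ⟨h6, h7⟩ := hN₀ N hN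
  simp only [Function.comp] at h6
  set u := Real.sqrt (Real.log (Real.log (N : ℝ))) with hu
  have h8 : Real.log (Real.log (N : ℝ)) = u ^ 2 := by
    rw [hu, Real.sq_sqrt]
    by_contra h
    push Not at h
    rw [hu, Real.sqrt_eq_zero_of_nonpos h.le] at h7
    linarith
  rw [h8, ← pow_mul]
  rw [Real.exp_neg, ← mul_assoc, ← div_eq_mul_inv, div_lt_iff₀ (Real.exp_pos _)] at h6
  exact h6.le

/-- the second moment of the sum over primes -/
theorem tyb_block {N : ℕ} [Fact N.Prime] (hN : 16 ≤ N) {ι : Type} [Fintype ι] (f : ι → S2 N)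
    (hi : Function.Injective f) (hn : ∀ i, IsNew (f i)) {I : Finset ℕ}
    (hI : ∀ p ∈ I, 1 ≤ p ∧ (p : ℝ) ≤ (N : ℝ) ^ (1 / 2 : ℝ)) :
    ∑ i, om (f i) * PB I (la (f i)) ^ 2 ≤ Real.exp (8 * Real.pi * (1 / 2)) * HB I := by
  classical
  have hNr : (16 : ℝ) ≤ N := by exact_mod_cast hN
  have hNp : (0 : ℝ) < N := by linarith
  set X : ℕ := ⌊(N : ℝ) ^ (1 / 2 : ℝ)⌋₊ with hX
  have hsq : ((N : ℝ) ^ (1 / 2 : ℝ)) ^ 2 = N := by
    rw [← Real.sqrt_eq_rpow, Real.sq_sqrt hNp.le]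
  have h4 : (4 : ℝ) ≤ (N : ℝ) ^ (1 / 2 : ℝ) := by
    rw [← Real.sqrt_eq_rpow]
    apply Real.le_sqrt_of_sq_le
    linarith
  have hX1 : 1 ≤ X := Nat.le_floor (by push_cast; linarith)
  have hX2 : (X : ℝ) ≤ (1 / 2 : ℝ) ^ 2 * N := by
    have : (X : ℝ) ≤ (N : ℝ) ^ (1 / 2 : ℝ) := Nat.floor_le (by positivity)
    nlinarith
  have hsub : I ⊆ Finset.Icc 1 X := by
    intro p hp
    rw [Finset.mem_Icc]
    exact ⟨(hI p hp).1, Nat.le_floor (hI p hp).2⟩
  have key := ls_sharp f hi hn (ν := 1 / 2) (by norm_num) (by norm_num) hX1 hX2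
    (fun n => if n ∈ I then 1 / Real.sqrt n else 0) 0
  have e1 : ∑ n ∈ Finset.Icc 1 X, (if n ∈ I then 1 / Real.sqrt n else 0 : ℝ) ^ 2 = HB I := by
    have : ∑ n ∈ Finset.Icc 1 X, (if n ∈ I then 1 / Real.sqrt n else 0 : ℝ) ^ 2 =
        ∑ n ∈ Finset.Icc 1 X, if n ∈ I then 1 / (n : ℝ) else 0 := by
      refine Finset.sum_congr rfl fun n _ => ?_
      by_cases h : n ∈ I
      · rw [if_pos h, if_pos h, div_pow, one_pow, Real.sq_sqrt (Nat.cast_nonneg n)]
      · rw [if_neg h, if_neg h]; norm_num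
    rw [this, Finset.sum_ite_mem, Finset.inter_eq_right.2 hsub, HB]
  have e2 : ∀ i, ∑ n ∈ Finset.Icc 1 X, (if n ∈ I then 1 / Real.sqrt n else 0 : ℝ) * la (f i) n +
      0 * se (f i) = PB I (la (f i)) := by
    intro i
    have : ∑ n ∈ Finset.Icc 1 X, (if n ∈ I then 1 / Real.sqrt n else 0 : ℝ) * la (f i) n =
        ∑ n ∈ Finset.Icc 1 X, if n ∈ I then la (f i) n / Real.sqrt n else 0 := by
      refine Finset.sum_congr rfl fun n _ => ?_
      by_cases h : n ∈ I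
      · rw [if_pos h, if_pos h]; ring
      · rw [if_neg h, if_neg h]; ring
    rw [this, Finset.sum_ite_mem, Finset.inter_eq_right.2 hsub, PB]
    ring
  simp only [e2] at key
  rw [e1] at key
  simpa using key

/-- the inverse of the Euler product over `I` -/
noncomputable def tybB (I : Finset ℕ) (x : ℕ → ℝ) : ℝ := ∏ p ∈ I, (1 - x p / Real.sqrt p + 1 / p)

theorem tyb_hp1 {p : ℕ} (hp : p.Prime) :
    HPoly {p} p (fun x => 1 - x p / Real.sqrt p + 1 / (p : ℝ)) := by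
  have h1 : HPoly {p} p (Um 1) := HPO_single le_rfl hp.one_le (by simp)
  have h2 : HPoly {p} p (Um p) := HPO_single hp.one_le le_rfl (by rw [hp.primeFactors])
  have h3 := hpoly_add_pr (hpoly_smul_pr h1 (1 + 1 / (p : ℝ))) (hpoly_smul_pr h2 (-(1 / Real.sqrt p)))
  obtain ⟨c, hc, h⟩ := h3
  refine ⟨c, hc, fun x => ?_⟩
  rw [← h x]
  beta_reduce
  rw [HPO_um_one]
  have h4 : Um p x = x p := by
    have := HPO_um_pow hp 1 x
    rw [pow_one] at this
    rw [this]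
    rfl
  rw [h4]
  ring

theorem tyb_hp (I : Finset ℕ) (hI : ∀ p ∈ I, p.Prime) : HPoly I (∏ p ∈ I, p) (tybB I) := by
  classical
  induction I using Finset.induction_on with
  | empty =>
    obtain ⟨c, hc, h⟩ := HPO_single (I := (∅ : Finset ℕ)) (X := 1) (m := 1) le_rfl le_rfl (by simp)
    refine ⟨c, by simpa using hc, fun x => ?_⟩
    have h2 := h x
    rw [HPO_um_one] at h2
    simpa [tybB] using h2
  | insert p s hps ih =>
    have h1 := ih (fun q hq => hI q (Finset.mem_insert_of_mem hq))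
    have hp := hI p (Finset.mem_insert_self _ _)
    have h2 := hpoly_mul (I := {p}) (I' := s) (by simpa using hp)
      (fun q hq => hI q (Finset.mem_insert_of_mem hq)) (tyb_hp1 hp) h1
    rw [Finset.prod_insert hps]
    have h3 : ({p} : Finset ℕ) ∪ s = insert p s := by rw [Finset.insert_eq]
    rw [h3] at h2
    obtain ⟨c, hc, h⟩ := h2
    refine ⟨c, hc, fun x => ?_⟩
    rw [← h x]
    unfold tybB
    rw [Finset.prod_insert hps]

theorem tyb_intf {I : Finset ℕ} {P : Measure (ℕ → ℝ)} (hP : IsST I P) {p : ℕ} (hp : p ∈ I)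
    {φ : ℝ → ℝ} (hφ : Continuous φ) : Integrable (fun x : ℕ → ℝ => φ (x p)) P := by
  have := hP.prob
  obtain ⟨C, hC⟩ := (isCompact_Icc (a := (-2 : ℝ)) (b := 2)).exists_bound_of_continuousOn
    hφ.continuousOn
  refine Integrable.of_bound (hφ.measurable.comp (measurable_pi_apply p)).aestronglyMeasurable C ?_
  filter_upwards [hP.bdd] with x hx
  exact hC _ (abs_le.mp (hx p hp))

theorem tyb_one {I : Finset ℕ} {P : Measure (ℕ → ℝ)} (hP : IsST I P) {p : ℕ} (hp : p ∈ I)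
    (hpp : p.Prime) :
    ∫ x, (1 - x p / Real.sqrt p + 1 / (p : ℝ)) ^ 2 ∂P = 1 + 3 / (p : ℝ) + 1 / (p : ℝ) ^ 2 := by
  have := hP.prob
  have hp0 : (0 : ℝ) < p := by exact_mod_cast hpp.pos
  have hs : Real.sqrt p ^ 2 = p := Real.sq_sqrt hp0.le
  have hs0 : 0 < Real.sqrt p := Real.sqrt_pos.mpr hp0
  have m1 : ∫ x, x p ∂P = 0 := by
    have := hP.mom p hp 1
    simpa [Uu] using this
  have m2 : ∫ x, x p ^ 2 ∂P = 1 := by
    have h := hP.mom p hp 2
    have h1 : ∀ x : ℕ → ℝ, Uu (x p) 2 = x p ^ 2 - 1 := by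
      intro x
      show x p * Uu (x p) 1 - Uu (x p) 0 = _
      show x p * x p - 1 = _
      ring
    simp_rw [h1] at h
    rw [integral_sub (tyb_intf hP hp (φ := fun y => y ^ 2) (by fun_prop)) (integrable_const _)] at h
    simp at h
    linarith
  have h1 : ∀ x : ℕ → ℝ, (1 - x p / Real.sqrt p + 1 / (p : ℝ)) ^ 2 =
      (1 + 1 / (p : ℝ)) ^ 2 + (-(2 * (1 + 1 / (p : ℝ)) / Real.sqrt p)) * x p +
        (1 / (p : ℝ)) * x p ^ 2 := by
    intro x
    have h2 : (x p / Real.sqrt p) ^ 2 = (1 / (p : ℝ)) * x p ^ 2 := by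
      rw [div_pow, hs]; ring
    calc (1 - x p / Real.sqrt p + 1 / (p : ℝ)) ^ 2 =
          (1 + 1 / (p : ℝ)) ^ 2 - 2 * (1 + 1 / (p : ℝ)) * (x p / Real.sqrt p) +
            (x p / Real.sqrt p) ^ 2 := by ring
      _ = _ := by rw [h2]; ring
  simp_rw [h1]
  have i1 : Integrable (fun x : ℕ → ℝ => x p) P := tyb_intf hP hp (φ := fun y => y) continuous_id
  have i2 : Integrable (fun x : ℕ → ℝ => x p ^ 2) P :=
    tyb_intf hP hp (φ := fun y => y ^ 2) (by fun_prop)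
  have i3 : Integrable (fun x : ℕ → ℝ => (1 + 1 / (p : ℝ)) ^ 2 +
      (-(2 * (1 + 1 / (p : ℝ)) / Real.sqrt p)) * x p) P := (integrable_const _).add (i1.const_mul _)
  rw [integral_add i3 (i2.const_mul _),
    integral_add (integrable_const _) (i1.const_mul _), integral_const_mul, integral_const_mul,
    m1, m2]
  simp
  field_simp
  ring

theorem tyb_sq {I : Finset ℕ} (hI : ∀ p ∈ I, p.Prime) {P : Measure (ℕ → ℝ)} (hP : IsST I P) :
    ∫ x, tybB I x ^ 2 ∂P ≤ Real.exp (4 * ∑ p ∈ I, 1 / (p : ℝ)) := by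
  have := hP.prob
  have h := hP.ind.integral_fun_prod_comp
    (f := fun (p : I) (y : ℝ) => (1 - y / Real.sqrt (p : ℕ) + 1 / ((p : ℕ) : ℝ)) ^ 2)
    (fun p => (measurable_pi_apply _).aemeasurable)
    (fun p => (by fun_prop : Continuous fun y : ℝ =>
      (1 - y / Real.sqrt (p : ℕ) + 1 / ((p : ℕ) : ℝ)) ^ 2).aestronglyMeasurable)
  have h1 : ∀ x : ℕ → ℝ, tybB I x ^ 2 =
      ∏ p : I, (1 - x p / Real.sqrt (p : ℕ) + 1 / ((p : ℕ) : ℝ)) ^ 2 := by
    intro x
    unfold tybB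
    rw [← Finset.prod_pow]
    exact (Finset.prod_coe_sort I
      (fun p => (1 - x p / Real.sqrt (p : ℕ) + 1 / ((p : ℕ) : ℝ)) ^ 2)).symm
  simp_rw [h1]
  rw [h, Finset.prod_congr rfl fun (p : I) _ => tyb_one hP p.2 (hI p p.2),
    Finset.prod_coe_sort I (fun p => 1 + 3 / (p : ℝ) + 1 / (p : ℝ) ^ 2), Finset.mul_sum, Real.exp_sum]
  refine Finset.prod_le_prod (fun p _ => by positivity) fun p hp => ?_
  have hp1 : (1 : ℝ) ≤ p := by exact_mod_cast (hI p hp).one_le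
  have h2 : 1 / (p : ℝ) ^ 2 ≤ 1 / (p : ℝ) := by
    apply one_div_le_one_div_of_le (by linarith)
    nlinarith
  have h3 : 1 + 3 / (p : ℝ) + 1 / (p : ℝ) ^ 2 ≤ 4 * (1 / (p : ℝ)) + 1 := by
    have h4 : 3 / (p : ℝ) = 3 * (1 / (p : ℝ)) := by ring
    rw [h4]
    linarith
  exact h3.trans (Real.add_one_le_exp _)

theorem tyb_harm {l : ℝ} (hl : 1 ≤ l) :
    ∑ p ∈ (Finset.Icc 1 ⌊l⌋₊).filter Nat.Prime, 1 / (p : ℝ) ≤ 1 + Real.log l := by
  have h1 := harmonic_floor_le_one_add_log l hl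
  rw [harmonic_eq_sum_Icc] at h1
  push_cast at h1
  refine le_trans (Finset.sum_le_sum_of_subset_of_nonneg (Finset.filter_subset _ _)
    fun _ _ _ => by positivity) ?_
  refine le_trans (le_of_eq ?_) h1
  exact Finset.sum_congr rfl fun n _ => one_div _

theorem tyb_prim {l : ℝ} (hl : 0 ≤ l) :
    ((∏ p ∈ (Finset.Icc 1 ⌊l⌋₊).filter Nat.Prime, p : ℕ) : ℝ) ≤ Real.exp (2 * l) := by
  have h1 : ∏ p ∈ (Finset.Icc 1 ⌊l⌋₊).filter Nat.Prime, p = primorial ⌊l⌋₊ := by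
    unfold primorial
    refine Finset.prod_congr ?_ fun _ _ => rfl
    ext p
    simp only [Finset.mem_filter, Finset.mem_Icc, Finset.mem_range]
    constructor
    · rintro ⟨⟨_, h⟩, hp⟩; exact ⟨by omega, hp⟩
    · rintro ⟨h, hp⟩; exact ⟨⟨hp.one_le, by omega⟩, hp⟩
  rw [h1]
  have h2 : ((primorial ⌊l⌋₊ : ℕ) : ℝ) ≤ (4 : ℝ) ^ ⌊l⌋₊ := by exact_mod_cast primorial_le_four_pow _
  refine h2.trans ?_
  have h3 : (4 : ℝ) ≤ Real.exp 2 := by
    have h4 := Real.exp_one_gt_d9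
    have h5 : Real.exp 2 = Real.exp 1 * Real.exp 1 := by rw [← Real.exp_add]; norm_num
    rw [h5]
    nlinarith
  calc (4 : ℝ) ^ ⌊l⌋₊ ≤ (Real.exp 2) ^ ⌊l⌋₊ := pow_le_pow_left₀ (by norm_num) h3 _
    _ = Real.exp (⌊l⌋₊ * 2) := by rw [← Real.exp_nat_mul]
    _ ≤ Real.exp (2 * l) := by
        apply Real.exp_le_exp.mpr
        have := Nat.floor_le hl
        linarith

/-- the deterministic inequality -/
theorem tyb_det {ε T u l b pb hb : ℝ} {K : ℕ} (hu : 0 ≤ u) (hl : l = u ^ 2)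
    (hK : l ≤ K) (hTu : 2 * T ≤ u) (h2 : 2 ≤ Real.exp (ε / 2 * u)) (hb1 : hb ≤ l)
    (hpb : |pb| ≤ T * u) (hbb : |b| ≤ Real.exp (ε / 2 * u)) :
    |b * (Real.exp (hb / 2) * ex K (-pb))| ≤ Real.exp (-pb + l / 2 + ε * u) := by
  have h3 := ex_near K (-pb)
  have h4 := ex_pos K (-pb)
  rw [abs_neg] at h3
  have he : Real.exp 1 ≤ 3 := by
    have := Real.exp_one_lt_d9
    linarith
  have h5 : Real.exp (-(2 * K + 1)) * Real.exp (Real.exp 1 * |pb|) ≤ Real.exp (-pb) := by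
    rw [← Real.exp_add]
    apply Real.exp_le_exp.mpr
    have h6 : Real.exp 1 * |pb| ≤ 3 * (T * u) :=
      mul_le_mul he hpb (abs_nonneg _) (by norm_num)
    have h7 : pb ≤ T * u := (le_abs_self _).trans hpb
    have h8 : 2 * T * u ≤ u * u := mul_le_mul_of_nonneg_right hTu hu
    nlinarith
  have h9 : ex K (-pb) ≤ 2 * Real.exp (-pb) := by
    have := (abs_le.mp h3).2
    linarith
  rw [abs_mul, abs_of_pos (mul_pos (Real.exp_pos _) h4)]
  have h10 : Real.exp (hb / 2) ≤ Real.exp (l / 2) := Real.exp_le_exp.mpr (by linarith)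
  calc |b| * (Real.exp (hb / 2) * ex K (-pb)) ≤
        Real.exp (ε / 2 * u) * (Real.exp (l / 2) * (Real.exp (ε / 2 * u) * Real.exp (-pb))) := by
        refine mul_le_mul hbb ?_ (by positivity) (Real.exp_pos _).le
        refine mul_le_mul h10 ?_ h4.le (Real.exp_pos _).le
        exact h9.trans (mul_le_mul_of_nonneg_right h2 (Real.exp_pos _).le)
    _ = Real.exp (-pb + l / 2 + ε * u) := by
        rw [← Real.exp_add, ← Real.exp_add, ← Real.exp_add]
        congr 1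
        ring

theorem typ_b_pr {A₁ : ℕ} (hA : 1 ≤ A₁) {ε : ℝ} (hε : 0 < ε) : ∃ N₀ : ℕ, ∀ (N : ℕ) [Fact N.Prime], N₀ ≤ N → ∀ {ι : Type} [Fintype ι] (f : ι → S2 N),
    Function.Injective f → (∀ i, IsNew (f i)) → ∀ t : Finset ι,
      (∀ i ∈ t, Real.exp (-PB (IN N) (la (f i)) + Real.log (Real.log N) / 2 +
        ε * Real.sqrt (Real.log (Real.log N))) < |Bz A₁ N (la (f i))|) →
      ∑ i ∈ t, om (f i) ≤ ε := by
  classical
  set E : ℝ := Real.exp (8 * Real.pi * (1 / 2)) with hE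
  have hE0 : 0 < E := Real.exp_pos _
  set T : ℝ := Real.sqrt (2 * E / ε) with hTd
  have hT0 : 0 < T := Real.sqrt_pos.mpr (by positivity)
  have hT2 : T ^ 2 = 2 * E / ε := Real.sq_sqrt (by positivity)
  obtain ⟨N₁, hN₁⟩ := hb_in (ε := 1) one_pos
  obtain ⟨N₂, hN₂⟩ := tyb_lim 4 hε (2 * Real.exp 4) (κ := ε / 2) (by positivity)
  obtain ⟨N₃, hN₃⟩ := tyb_lim 0 (ε := ε / 2) (by positivity) 2 (κ := 1) one_pos
  have hll : Tendsto (fun N : ℕ => Real.sqrt (Real.log (Real.log (N : ℝ)))) atTop atTop :=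
    Real.tendsto_sqrt_atTop.comp (Real.tendsto_log_atTop.comp
      (Real.tendsto_log_atTop.comp tendsto_natCast_atTop_atTop))
  have hlog2 : Tendsto (fun N : ℕ => Real.log (N : ℝ) ^ 2 / N) atTop (𝓝 0) := by
    have h1 := (Real.isLittleO_pow_log_id_atTop (n := 2)).tendsto_div_nhds_zero
    exact h1.comp tendsto_natCast_atTop_atTop
  obtain ⟨N₄, hN₄⟩ := Filter.eventually_atTop.mp
    ((hll.eventually_ge_atTop (max 2 (2 * T))).and
      (hlog2.eventually (gt_mem_nhds (show (0 : ℝ) < 1 / 10000 by norm_num))))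
  refine ⟨N₁ + N₂ + N₃ + N₄ + 16, fun N _ hN ι _ f hi hn t ht => ?_⟩
  obtain ⟨hHB, _, _⟩ := hN₁ N (by omega)
  have hL4 := hN₂ N (by omega)
  have hL0 := hN₃ N (by omega)
  obtain ⟨hu2, hlg⟩ := hN₄ N (by omega)
  set l : ℝ := Real.log (Real.log (N : ℝ)) with hl
  set u : ℝ := Real.sqrt l with hu
  have hu2' : 2 ≤ u := (le_max_left _ _).trans hu2
  have huT : 2 * T ≤ u := (le_max_right _ _).trans hu2
  have hlu : l = u ^ 2 := by
    rw [hu, Real.sq_sqrt]
    by_contra h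
    push Not at h
    rw [hu, Real.sqrt_eq_zero_of_nonpos h.le] at hu2'
    linarith
  have hl4 : 4 ≤ l := by rw [hlu]; nlinarith
  have hNr : (16 : ℝ) ≤ N := by exact_mod_cast (by omega : 16 ≤ N)
  have hN0 : (0 : ℝ) < N := by linarith
  have hlogN : 0 < Real.log N := Real.log_pos (by linarith)
  have hexpl : Real.exp l = Real.log N := by rw [hl]; exact Real.exp_log hlogN
  have hlN : Real.log (N : ℝ) ^ 2 ≤ (1 / 100) ^ 2 * N := by
    have h1 := hlg.le
    rw [div_le_iff₀ hN0] at h1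
    norm_num at h1 ⊢
    exact h1
  have he2l : Real.exp (2 * l) ≤ (1 / 100) ^ 2 * N := by
    have h1 : Real.exp (2 * l) = Real.log N ^ 2 := by
      rw [← hexpl, sq, ← Real.exp_add]; congr 1; ring
    rw [h1]
    exact hlN
  have hlltN : l < N := by
    have h1 : 2 * l + 1 ≤ Real.exp (2 * l) := Real.add_one_le_exp _
    nlinarith
  -- the tiny primes
  have hI0 : ∀ p ∈ I0 N, p.Prime ∧ p < N := by
    intro p hp
    unfold I0 at hp
    rw [Finset.mem_filter, Finset.mem_Icc] at hp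
    refine ⟨hp.2, ?_⟩
    have h1 : (p : ℝ) ≤ l := (Nat.le_floor_iff (by linarith)).mp hp.1.2
    exact_mod_cast h1.trans_lt hlltN
  obtain ⟨P, hP⟩ := st_exists (I0 N) (fun p hp => (hI0 p hp).1)
  have hhp := tyb_hp (I0 N) (fun p hp => (hI0 p hp).1)
  have hX1 : 1 ≤ ∏ p ∈ I0 N, p := Finset.prod_pos fun p hp => (hI0 p hp).1.pos
  have hX2 : ((∏ p ∈ I0 N, p : ℕ) : ℝ) ≤ (1 / 100) ^ 2 * N :=
    (tyb_prim (l := l) (by linarith)).trans he2l
  have htr := transfer f hi hn (ν := 1 / 100) (by norm_num) (by norm_num) hX1 hX2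
    (I := I0 N) hI0 hP hhp 0
  simp only [zero_mul, add_zero] at htr
  have hBsq : ∫ x, tybB (I0 N) x ^ 2 ∂P ≤ Real.exp 4 * l ^ 4 := by
    refine (tyb_sq (fun p hp => (hI0 p hp).1) hP).trans ?_
    have h1 : ∑ p ∈ I0 N, 1 / (p : ℝ) ≤ 1 + Real.log l := tyb_harm (l := l) (by linarith)
    calc Real.exp (4 * ∑ p ∈ I0 N, 1 / (p : ℝ)) ≤ Real.exp (4 + 4 * Real.log l) :=
          Real.exp_le_exp.mpr (by linarith)
      _ = Real.exp 4 * l ^ 4 := by
          rw [Real.exp_add]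
          congr 1
          have h2 : 4 * Real.log l = ((4 : ℕ) : ℝ) * Real.log l := by push_cast; ring
          rw [h2, Real.exp_nat_mul, Real.exp_log (by linarith)]
  have h5 : (0 : ℝ) ≤ ∫ x, tybB (I0 N) x ^ 2 ∂P := integral_nonneg fun x => sq_nonneg _
  have h6 : ∑ i, om (f i) * tybB (I0 N) (la (f i)) ^ 2 ≤ 2 * (Real.exp 4 * l ^ 4) := by
    refine htr.trans ?_
    have h7 : ∫ x, tybB (I0 N) x ^ 2 ∂P + 0 ^ 2 ≤ Real.exp 4 * l ^ 4 := by
      rw [zero_pow two_ne_zero, add_zero]; exact hBsq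
    exact mul_le_mul tyb_exp h7 (by positivity) (by norm_num)
  have hom : ∀ i, 0 ≤ om (f i) := fun i => tyb_om (hn i)
  -- first exceptional set
  set s₁ : Finset ι := Finset.univ.filter
    (fun i => Real.exp (ε / 2 * u) < |tybB (I0 N) (la (f i))|) with hs₁
  set s₂ : Finset ι := Finset.univ.filter (fun i => T * u < |PB (IN N) (la (f i))|) with hs₂
  have hm1 : ∑ i ∈ s₁, om (f i) ≤ ε / 2 := by
    have h7 := HAR_cheb (fun i => om (f i)) (fun i => tybB (I0 N) (la (f i)) ^ 2)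
      hom (fun i => sq_nonneg _) (t := Real.exp (ε * u)) (Real.exp_pos _) h6 s₁ (by
        intro i hi'
        have h8 := (Finset.mem_filter.1 hi').2
        have h9 : Real.exp (ε * u) = Real.exp (ε / 2 * u) ^ 2 := by
          rw [← Real.exp_nat_mul]
          congr 1
          push_cast
          ring
        show Real.exp (ε * u) ≤ tybB (I0 N) (la (f i)) ^ 2
        rw [h9, ← sq_abs (tybB (I0 N) (la (f i)))]
        exact pow_le_pow_left₀ (Real.exp_pos _).le h8.le 2)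
    refine h7.trans ?_
    rw [div_le_iff₀ (Real.exp_pos _)]
    calc 2 * (Real.exp 4 * l ^ 4) = 2 * Real.exp 4 * l ^ 4 := by ring
      _ ≤ _ := hL4
  have hm2 : ∑ i ∈ s₂, om (f i) ≤ ε / 2 := by
    have hIN : ∀ p ∈ IN N, 1 ≤ p ∧ (p : ℝ) ≤ (N : ℝ) ^ (1 / 2 : ℝ) := by
      intro p hp
      unfold IN at hp
      rw [Finset.mem_filter, Finset.mem_Icc] at hp
      refine ⟨hp.1.1, ?_⟩
      have hz0 : 0 ≤ zN N := (Real.exp_pos _).le
      have h1 : (p : ℝ) ≤ zN N := (Nat.le_floor_iff hz0).mp hp.1.2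
      refine h1.trans ?_
      unfold zN
      rw [Real.rpow_def_of_pos hN0]
      apply Real.exp_le_exp.mpr
      rw [div_le_iff₀ (by positivity)]
      have h2 : (2 : ℝ) ≤ Real.log (Real.log (N : ℝ)) ^ 2 := by
        rw [← hl]; nlinarith
      nlinarith
    have h7 := tyb_block (by omega) f hi hn hIN
    have h8 : ∑ i, om (f i) * PB (IN N) (la (f i)) ^ 2 ≤ E * l := by
      refine h7.trans ?_
      exact mul_le_mul_of_nonneg_left hHB hE0.le
    have h9 := HAR_cheb (fun i => om (f i)) (fun i => PB (IN N) (la (f i)) ^ 2)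
      hom (fun i => sq_nonneg _) (t := (T * u) ^ 2) (by positivity) h8 s₂ (by
        intro i hi'
        have h10 := (Finset.mem_filter.1 hi').2
        show (T * u) ^ 2 ≤ PB (IN N) (la (f i)) ^ 2
        rw [← sq_abs (PB (IN N) (la (f i)))]
        exact pow_le_pow_left₀ (by positivity) h10.le 2)
    refine h9.trans ?_
    rw [div_le_iff₀ (by positivity), mul_pow, hT2, ← hlu]
    have h11 : ε / 2 * (2 * E / ε * l) = E * l := by field_simp
    rw [h11]
  have hsub : t ⊆ s₁ ∪ s₂ := by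
    intro i hi'
    by_contra hcon
    rw [Finset.mem_union, not_or] at hcon
    obtain ⟨c1, c2⟩ := hcon
    rw [hs₁, Finset.mem_filter] at c1
    rw [hs₂, Finset.mem_filter] at c2
    have c1' : |tybB (I0 N) (la (f i))| ≤ Real.exp (ε / 2 * u) := by
      by_contra h
      push Not at h
      exact c1 ⟨Finset.mem_univ _, h⟩
    have c2' : |PB (IN N) (la (f i))| ≤ T * u := by
      by_contra h
      push Not at h
      exact c2 ⟨Finset.mem_univ _, h⟩
    have hK : l ≤ ((A₁ * ⌈Real.log (Real.log N)⌉₊ : ℕ) : ℝ) := by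
      have h1 : l ≤ (⌈Real.log (Real.log (N : ℝ))⌉₊ : ℝ) := Nat.le_ceil _
      have h2 : (1 : ℝ) ≤ A₁ := by exact_mod_cast hA
      push_cast
      nlinarith
    have h2e : 2 ≤ Real.exp (ε / 2 * u) := by
      simpa using hL0
    have hdet := tyb_det (ε := ε) (by linarith : 0 ≤ u) hlu hK huT h2e hHB c2' c1'
    have hlt := ht i hi'
    have hBz : Bz A₁ N (la (f i)) = tybB (I0 N) (la (f i)) *
        (Real.exp (HB (IN N) / 2) * ex (A₁ * ⌈Real.log (Real.log N)⌉₊) (-PB (IN N) (la (f i)))) := rfl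
    rw [hBz] at hlt
    exact absurd hdet (not_le.mpr hlt)
  calc ∑ i ∈ t, om (f i) ≤ ∑ i ∈ s₁ ∪ s₂, om (f i) :=
        Finset.sum_le_sum_of_subset_of_nonneg hsub fun i _ _ => hom i
    _ ≤ ∑ i ∈ s₁, om (f i) + ∑ i ∈ s₂, om (f i) := by
        have := Finset.sum_union_inter (s₁ := s₁) (s₂ := s₂) (f := fun i => om (f i))
        have h0 : 0 ≤ ∑ i ∈ s₁ ∩ s₂, om (f i) := Finset.sum_nonneg fun i _ => hom i
        linarith
    _ ≤ ε := by linarith

theorem typ_b : type_of% @typ_b_pr := @typ_b_pr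

end Pool.Agent.KSL
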