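import Pool.Agent.Lib_helper68.KSL.Defs
import Pool.Agent.Lib_helper68.LEV.EIA
import Pool.Agent.Lib_helper68.LEV.FRK
import Pool.Agent.Lib_helper68.LEV.PET
import Pool.Agent.Lib_helper41.LVBF.HPM
import Pool.Agent.Lib_helper41.LVBF.STE
import Pool.Agent.Lib_helper41.LVBF.TRA
import Pool.Agent.Lib_helper68.KSLF.BZP
import Pool.Agent.Lib_helper68.KSLF.FIB
import Pool.Agent.Lib_helper68.KSLF.HBI
import Pool.Agent.Lib_helper68.KSLF.TYB
import Pool.Agent.Lib_helper68.KSLF.TYM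

namespace Pool.Agent.KSL

open Pool.Agent.LEV Pool.Agent.LVB
open Complex MeasureTheory Filter Topology UpperHalfPlane ModularGroup ProbabilityTheory
open scoped MatrixGroups Modular ENNReal ModularForm ComplexConjugate ContDiff

theorem fic_om {N : ℕ} [Fact N.Prime] (f : S2 N) : 0 ≤ om f := by
  unfold om
  by_cases hf : f = 0
  · rw [hf]
    have : nr (0 : S2 N) = 0 := by
      have := pet_self (0 : S2 N)
      unfold nr
      have h2 : pet (0 : S2 N) 0 = 0 := by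
        have h3 := pet_smul (0 : ℂ) (0 : S2 N) (0 : S2 N)
        rw [zero_smul, zero_mul] at h3
        exact h3
      rw [h2]; simp
    rw [this]; simp
  · have := nr_pos hf
    positivity

theorem fic_gauss (V : ℝ) {ε : ℝ} (hε : 0 < ε) : ∃ V' : ℝ, V < V' ∧
    (gaussianReal 0 1).real (Set.Ici V) - ε ≤ (gaussianReal 0 1).real (Set.Ici V') := by
  have : NullSingletonClass (gaussianReal 0 1) := nullSingletonClass_gaussianReal (by norm_num)
  have h1 : (gaussianReal 0 1).real (Set.Ici V) = (gaussianReal 0 1).real (Set.Ioi V) := by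
    rw [measureReal_def, measureReal_def, Ioi_ae_eq_Ici.measure_eq]
  have h2 : Set.Ioi V = ⋃ n : ℕ, Set.Ici (V + 1 / ((n : ℝ) + 1)) := by
    ext x
    simp only [Set.mem_Ioi, Set.mem_iUnion, Set.mem_Ici]
    constructor
    · intro hx
      obtain ⟨n, hn⟩ := exists_nat_one_div_lt (sub_pos.mpr hx)
      exact ⟨n, by linarith⟩
    · rintro ⟨n, hn⟩
      have : (0 : ℝ) < 1 / ((n : ℝ) + 1) := by positivity
      linarith
  have hmono : Monotone (fun n : ℕ => Set.Ici (V + 1 / ((n : ℝ) + 1))) := by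
    intro m n hmn
    apply Set.Ici_subset_Ici.mpr
    have : 1 / ((n : ℝ) + 1) ≤ 1 / ((m : ℝ) + 1) := by
      apply one_div_le_one_div_of_le (by positivity)
      have : (m : ℝ) ≤ n := by exact_mod_cast hmn
      linarith
    linarith
  have h3 := tendsto_measure_iUnion_atTop (μ := gaussianReal 0 1) hmono
  rw [← h2] at h3
  have h4 := (ENNReal.tendsto_toReal (measure_ne_top (gaussianReal 0 1) (Set.Ioi V))).comp h3
  have h5 : ∀ᶠ n : ℕ in atTop, (gaussianReal 0 1).real (Set.Ioi V) - ε <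
      (gaussianReal 0 1).real (Set.Ici (V + 1 / ((n : ℝ) + 1))) :=
    h4.eventually (lt_mem_nhds (by
      show (gaussianReal 0 1).real (Set.Ioi V) - ε < (gaussianReal 0 1).real (Set.Ioi V)
      linarith))
  obtain ⟨n, hn⟩ := h5.exists
  refine ⟨V + 1 / ((n : ℝ) + 1), ?_, ?_⟩
  · have : (0 : ℝ) < 1 / ((n : ℝ) + 1) := by positivity
    linarith
  · rw [h1]; exact hn.le

theorem fic_ka {ε₂ : ℝ} (h1 : ε₂ ≤ 1 / 8) : ∃ N₀ : ℕ, ∀ N : ℕ, N₀ ≤ N →
    ((KA ε₂ N * KA ε₂ N : ℕ) : ℝ) ≤ (1 / 100) ^ 2 * N := by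
  refine ⟨10 ^ 10, fun N hN => ?_⟩
  have hN1 : (1 : ℝ) ≤ N := by
    have : (10 ^ 10 : ℕ) ≤ N := hN
    exact_mod_cast le_trans (by norm_num) this
  have hN2 : (10 ^ 10 : ℝ) ≤ N := by exact_mod_cast hN
  have h2 : (KA ε₂ N : ℝ) ≤ (N : ℝ) ^ ε₂ := Nat.floor_le (by positivity)
  have h3 : (N : ℝ) ^ ε₂ ≤ (N : ℝ) ^ (1 / 4 : ℝ) :=
    Real.rpow_le_rpow_of_exponent_le hN1 (by linarith)
  have h4 : (N : ℝ) ^ (1 / 4 : ℝ) * (N : ℝ) ^ (1 / 4 : ℝ) = Real.sqrt N := by
    rw [← Real.rpow_add (by linarith), Real.sqrt_eq_rpow]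
    norm_num
  have h5 : Real.sqrt N * Real.sqrt N = N := Real.mul_self_sqrt (by linarith)
  have h6 : (10 ^ 5 : ℝ) ≤ Real.sqrt N := by
    apply Real.le_sqrt_of_sq_le
    norm_num at hN2 ⊢
    exact hN2
  have h7 : Real.sqrt N ≤ (1 / 100) ^ 2 * N := by nlinarith
  have h8 : (KA ε₂ N : ℝ) * KA ε₂ N ≤ (N : ℝ) ^ (1 / 4 : ℝ) * (N : ℝ) ^ (1 / 4 : ℝ) :=
    mul_le_mul (h2.trans h3) (h2.trans h3) (Nat.cast_nonneg _) (by positivity)
  push_cast
  linarith

theorem fic_exp : Real.exp (8 * Real.pi * (1 / 100)) ≤ 2 := by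
  have h1 : 8 * Real.pi * (1 / 100) ≤ Real.log 2 := by
    have := Real.pi_lt_d2
    have h2 := Real.log_two_gt_d9
    linarith
  calc Real.exp (8 * Real.pi * (1 / 100)) ≤ Real.exp (Real.log 2) := Real.exp_le_exp.mpr h1
    _ = 2 := Real.exp_log (by norm_num)

/-- from the mollified values to the values -/
theorem fic_low {V V' e κ L H b m P l : ℝ} (hVV : V < V') (hκ : 0 < κ) (he : 0 < e)
    (he1 : e ≤ (V' - V) / (16 * (|V'| + 1))) (hL : 0 ≤ L) (hH : H ≤ L) (hH2 : (1 - e) * L ≤ H)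
    (hκL : -Real.log κ ≤ (V' - V) / 2 * Real.sqrt L)
    (hb0 : 0 ≤ b) (hb : b ≤ Real.exp (-P + L / 2 + e * Real.sqrt L))
    (hm0 : 0 ≤ m) (hm : m ≤ Real.exp (e * Real.sqrt L)) (hP : V' * Real.sqrt H ≤ P) (hl0 : 0 ≤ l)
    (hl : κ ≤ l * b * m) : Real.exp (-L / 2 + V * Real.sqrt L) ≤ l := by
  have hs0 : 0 ≤ Real.sqrt L := Real.sqrt_nonneg L
  have hV1 : 0 < |V'| + 1 := by positivity
  have he2 : e * (|V'| + 1) ≤ (V' - V) / 16 := by
    have := mul_le_mul_of_nonneg_right he1 hV1.le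
    calc _ ≤ _ := this
      _ = (V' - V) / 16 := by field_simp
  have he3 : e ≤ (V' - V) / 16 := by nlinarith [abs_nonneg V']
  have he4 : |V'| * e ≤ (V' - V) / 16 := by nlinarith [abs_nonneg V']
  have hVH : V' * Real.sqrt L - (V' - V) / 4 * Real.sqrt L ≤ V' * Real.sqrt H := by
    rcases le_or_gt 0 V' with h | h
    · by_cases h1 : 1 ≤ e
      · rw [abs_of_nonneg h] at he4
        have h2 : V' ≤ (V' - V) / 16 := by nlinarith
        have h3 : 0 ≤ V' * Real.sqrt H := mul_nonneg h (Real.sqrt_nonneg _)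
        nlinarith
      push Not at h1
      have h2 : (1 - e) * Real.sqrt L ≤ Real.sqrt H := by
        apply Real.le_sqrt_of_sq_le
        calc ((1 - e) * Real.sqrt L) ^ 2 = (1 - e) ^ 2 * L := by
              rw [mul_pow, Real.sq_sqrt hL]
          _ ≤ (1 - e) * L := by nlinarith
          _ ≤ H := hH2
      rw [abs_of_nonneg h] at he4
      have h3 := mul_le_mul_of_nonneg_left h2 h
      nlinarith
    · have h2 : Real.sqrt H ≤ Real.sqrt L := Real.sqrt_le_sqrt hH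
      nlinarith
  have h1 : l * b * m ≤ l * Real.exp (-P + L / 2 + e * Real.sqrt L) * Real.exp (e * Real.sqrt L) :=
    mul_le_mul (mul_le_mul_of_nonneg_left hb hl0) hm hm0 (by positivity)
  have h2 : κ ≤ l * Real.exp (-P + L / 2 + 2 * e * Real.sqrt L) := by
    refine (hl.trans h1).trans (le_of_eq ?_)
    rw [mul_assoc, ← Real.exp_add]
    congr 2
    ring
  have h3 : Real.exp (Real.log κ) = κ := Real.exp_log hκ
  have h4 : Real.exp (Real.log κ + P - L / 2 - 2 * e * Real.sqrt L) ≤ l := by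
    have h5 : Real.exp (Real.log κ + P - L / 2 - 2 * e * Real.sqrt L) =
        κ * Real.exp (-(-P + L / 2 + 2 * e * Real.sqrt L)) := by
      rw [← h3, ← Real.exp_add, h3]
      congr 1
      ring
    rw [h5, Real.exp_neg, ← div_eq_mul_inv, div_le_iff₀ (Real.exp_pos _)]
    exact h2
  refine le_trans (Real.exp_le_exp.mpr ?_) h4
  nlinarith

/-- the mass of a small set -/
theorem fic_small {ι : Type} [Fintype ι] (o S : ι → ℝ) (ho : ∀ i, 0 ≤ o i) {e C : ℝ}
    (he : 0 ≤ e) (t : Finset ι) (h1 : ∑ i ∈ t, o i ≤ e) (h2 : ∑ i, o i * (S i ^ 2) ^ 2 ≤ C) :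
    ∑ i ∈ t, o i * S i ^ 2 ≤ Real.sqrt (e * C) := by
  classical
  apply Real.le_sqrt_of_sq_le
  have := Finset.sum_mul_sq_le_sq_mul_sq t (fun i => Real.sqrt (o i))
    (fun i => Real.sqrt (o i) * S i ^ 2)
  have h4 : ∀ i, Real.sqrt (o i) * (Real.sqrt (o i) * S i ^ 2) = o i * S i ^ 2 := by
    intro i
    calc _ = (Real.sqrt (o i) * Real.sqrt (o i)) * (S i ^ 2) := by ring
      _ = _ := by rw [Real.mul_self_sqrt (ho i)]
  have h5 : ∀ i, (Real.sqrt (o i) * S i ^ 2) ^ 2 = o i * (S i ^ 2) ^ 2 := by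
    intro i
    rw [mul_pow, Real.sq_sqrt (ho i)]
  have h6 : ∀ i, Real.sqrt (o i) ^ 2 = o i := fun i => Real.sq_sqrt (ho i)
  simp only [h4, h5, h6] at this
  refine this.trans ?_
  have h7 : ∑ i ∈ t, o i * (S i ^ 2) ^ 2 ≤ C := by
    refine le_trans ?_ h2
    apply Finset.sum_le_sum_of_subset_of_nonneg (Finset.subset_univ _)
    intro i _ _
    exact mul_nonneg (ho i) (sq_nonneg _)
  exact mul_le_mul h1 h7 (Finset.sum_nonneg fun i _ => mul_nonneg (ho i) (sq_nonneg _)) he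

theorem final_harm_pr (A : Finset ℕ) (c : ℕ → ℝ) (hA : ∀ a ∈ A, 1 ≤ a) (hc : ∀ a, 0 ≤ c a) (V : ℝ)
    {ε : ℝ} (hε : 0 < ε) : ∃ N₀ : ℕ, ∀ (N : ℕ) [Fact N.Prime], N₀ ≤ N → ∀ {ι : Type}
    [Fintype ι] (f : ι → S2 N), AllNew f → ∃ t : Finset ι,
      (∀ i ∈ t, co (f i) N = 1 ∧ Real.exp (-Real.log (Real.log N) / 2 +
        V * Real.sqrt (Real.log (Real.log N))) ≤ ‖Lh (f i)‖) ∧
      1 / 4 * ((∑ a ∈ A, c a) * (gaussianReal 0 1).real (Set.Ici V)) - ε ≤
        ∑ i ∈ t, om (f i) * Hd A c (la (f i)) := by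
  classical
  set h₀ : ℝ := ∑ a ∈ A, c a with hh₀
  have hh0 : 0 ≤ h₀ := Finset.sum_nonneg fun a _ => hc a
  obtain ⟨V', hVV, hV'⟩ := fic_gauss V (ε := ε / (h₀ + 1)) (by positivity)
  obtain ⟨A₁, κ, δ, ε₂, C₄, N₁, hA₁, hκ, hδ, hδ4, hε₂, hε₂8, hm⟩ :=
    moll_half A c hA hc V' (ε := ε / 8) (by positivity)
  set e : ℝ := min ((V' - V) / (16 * (|V'| + 1))) (ε ^ 2 / (256 * (|C₄| + 1))) with he
  have hVp : 0 < V' - V := by linarith
  have he0 : 0 < e := lt_min (by positivity) (by positivity)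
  have he1 : e ≤ (V' - V) / (16 * (|V'| + 1)) := min_le_left _ _
  have he2 : e ≤ ε ^ 2 / (256 * (|C₄| + 1)) := min_le_right _ _
  obtain ⟨N₂, hN₂⟩ := typ_b hA₁ he0
  obtain ⟨N₃, hN₃⟩ := typ_m hδ hδ4 he0
  obtain ⟨N₄, hN₄⟩ := hb_in he0
  obtain ⟨N₅, hN₅⟩ := fic_ka hε₂8
  obtain ⟨N₆, hN₆⟩ := iz_split
  have hll : Tendsto (fun N : ℕ => Real.log (Real.log (N : ℝ))) atTop atTop :=
    Real.tendsto_log_atTop.comp (Real.tendsto_log_atTop.comp tendsto_natCast_atTop_atTop)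
  obtain ⟨N₇, hN₇⟩ := Filter.eventually_atTop.mp
    (hll.eventually_ge_atTop (max 0 ((2 * -Real.log κ / (V' - V)) ^ 2)))
  refine ⟨N₁ + N₂ + N₃ + N₄ + N₅ + N₆ + N₇ + 1, fun N _ hN ι _ f hf => ?_⟩
  have hi : Function.Injective f := hf.1
  have hn : ∀ i, IsNew (f i) := fun i => (hf.2 (f i)).mpr ⟨i, rfl⟩
  obtain ⟨s, G, hs1, hs2, hs3, hG1, hG2⟩ := hm N (by omega) f hf
  obtain ⟨-, -, hIZ, -, -⟩ := hN₆ N (by omega)
  obtain ⟨hb1, hb2, hb3⟩ := hN₄ N (by omega)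
  have hL := hN₇ N (by omega)
  set L : ℝ := Real.log (Real.log N) with hLdef
  have hL0 : 0 ≤ L := (le_max_left _ _).trans hL
  have hκL : -Real.log κ ≤ (V' - V) / 2 * Real.sqrt L := by
    have h1 : (2 * -Real.log κ / (V' - V)) ^ 2 ≤ L := (le_max_right _ _).trans hL
    have h2 : 2 * -Real.log κ / (V' - V) ≤ Real.sqrt L := Real.le_sqrt_of_sq_le h1
    rw [div_le_iff₀ hVp] at h2
    linarith
  set S : ι → ℝ := fun i => ∑ m ∈ Finset.Icc 1 (KA ε₂ N), s m * Um m (la (f i)) with hS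
  obtain ⟨P, hP⟩ := st_exists (IZ N) (fun p hp => (hIZ p hp).1)
  have hs1' : ∀ m, s m ≠ 0 → 1 ≤ m ∧ m ≤ KA ε₂ N ∧ m.primeFactors ⊆ IZ N := by
    intro m hm'
    refine ⟨(hs1 m hm').1, (hs1 m hm').2.1.trans ?_, (hs1 m hm').2.2⟩
    unfold KA
    apply Nat.floor_le_floor
    apply Real.rpow_le_rpow_of_exponent_le _ (by linarith)
    have : 1 ≤ N := by omega
    exact_mod_cast this
  have hHS : HPoly (IZ N) (KA ε₂ N) (fun x => ∑ m ∈ Finset.Icc 1 (KA ε₂ N), s m * Um m x) :=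
    ⟨s, hs1', fun x => rfl⟩
  have hHS2 : HPoly (IZ N) (KA ε₂ N * KA ε₂ N)
      (fun x => (∑ m ∈ Finset.Icc 1 (KA ε₂ N), s m * Um m x) ^ 2) := by
    have h1 := hpoly_mul (fun p hp => (hIZ p hp).1) (fun p hp => (hIZ p hp).1) hHS hHS
    rw [Finset.union_self] at h1
    simpa only [sq] using h1
  have hKA1 : 1 ≤ KA ε₂ N := by
    unfold KA
    rw [Nat.one_le_floor_iff]
    apply Real.one_le_rpow _ hε₂.le
    have : 1 ≤ N := by omega
    exact_mod_cast this
  have hS4 : ∑ i, om (f i) * (S i ^ 2) ^ 2 ≤ 2 * (|C₄| + 1) := by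
    have h1 := transfer f hi hn (ν := 1 / 100) (by norm_num) (by norm_num)
      (X := KA ε₂ N * KA ε₂ N) (Nat.mul_pos hKA1 hKA1) (hN₅ N (by omega)) (I := IZ N) hIZ hP hHS2 0
    simp only [zero_mul, add_zero] at h1
    have h2 : ∫ x, ((∑ m ∈ Finset.Icc 1 (KA ε₂ N), s m * Um m x) ^ 2) ^ 2 ∂P ≤ |C₄| + 1 := by
      have h3 := hs2 P hP
      have h4 : ∀ x : ℕ → ℝ, ((∑ m ∈ Finset.Icc 1 (KA ε₂ N), s m * Um m x) ^ 2) ^ 2 =
          (∑ m ∈ Finset.Icc 1 (KA ε₂ N), s m * Um m x) ^ 4 := fun x => by ring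
      simp only [h4]
      linarith [le_abs_self C₄]
    refine h1.trans ?_
    have h5 : (0 : ℝ) ≤ ∫ x, ((∑ m ∈ Finset.Icc 1 (KA ε₂ N), s m * Um m x) ^ 2) ^ 2 ∂P :=
      integral_nonneg fun x => sq_nonneg _
    exact mul_le_mul fic_exp (by linarith) (by linarith) (by norm_num)
  -- the atypical sets
  set t₁ : Finset ι := Finset.univ.filter (fun i => Real.exp (-PB (IN N) (la (f i)) +
    Real.log (Real.log N) / 2 + e * Real.sqrt (Real.log (Real.log N))) <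
      |Bz A₁ N (la (f i))|) with ht₁
  set t₂ : Finset ι := Finset.univ.filter (fun i => Real.exp (e * Real.sqrt (Real.log (Real.log N))) <
      |Mr (zz N) (MM δ N) 2 (la (f i))|) with ht₂
  have hb : ∑ i ∈ t₁, om (f i) ≤ e := hN₂ N (by omega) f hi hn t₁ (fun i hi' => by
    rw [ht₁, Finset.mem_filter] at hi'; exact hi'.2)
  have hmm : ∑ i ∈ t₂, om (f i) ≤ e := hN₃ N (by omega) f hi hn t₂ (fun i hi' => by
    rw [ht₂, Finset.mem_filter] at hi'; exact hi'.2)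
  have hbm : ∑ i ∈ t₁ ∪ t₂, om (f i) ≤ 2 * e := by
    have h1 : ∑ i ∈ t₁ ∪ t₂, om (f i) ≤ ∑ i ∈ t₁, om (f i) + ∑ i ∈ t₂, om (f i) := by
      rw [← Finset.sum_union_inter]
      have : 0 ≤ ∑ i ∈ t₁ ∩ t₂, om (f i) := Finset.sum_nonneg fun i _ => fic_om _
      linarith
    linarith
  have hsm : ∑ i ∈ t₁ ∪ t₂, om (f i) * S i ^ 2 ≤ ε / 8 := by
    refine (fic_small (fun i => om (f i)) S (fun i => fic_om _) (by linarith) _ hbm hS4).trans ?_
    rw [Real.sqrt_le_left (by positivity)]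
    have h1 : e * (256 * (|C₄| + 1)) ≤ ε ^ 2 := by
      rw [le_div_iff₀ (by positivity)] at he2
      exact he2
    nlinarith
  refine ⟨G.filter (fun i => i ∉ t₁ ∪ t₂ ∧ V' ≤ Pn N (la (f i))), ?_, ?_⟩
  · intro i hit
    rw [Finset.mem_filter, Finset.mem_union] at hit
    obtain ⟨hiG, hit, hiV⟩ := hit
    push Not at hit
    obtain ⟨h1, h2⟩ := hG1 i hiG
    refine ⟨h1, ?_⟩
    have h3 : |Bz A₁ N (la (f i))| ≤ Real.exp (-PB (IN N) (la (f i)) + L / 2 + e * Real.sqrt L) := by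
      by_contra h
      push Not at h
      exact hit.1 (by rw [ht₁, Finset.mem_filter]; exact ⟨Finset.mem_univ _, h⟩)
    have h4 : |Mr (zz N) (MM δ N) 2 (la (f i))| ≤ Real.exp (e * Real.sqrt L) := by
      by_contra h
      push Not at h
      exact hit.2 (by rw [ht₂, Finset.mem_filter]; exact ⟨Finset.mem_univ _, h⟩)
    have h5 : V' * Real.sqrt (HB (IN N)) ≤ PB (IN N) (la (f i)) := by
      unfold Pn at hiV
      have h6 : 0 < Real.sqrt (HB (IN N)) := Real.sqrt_pos.mpr (by linarith)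
      rw [le_div_iff₀ h6] at hiV
      exact hiV
    exact fic_low hVV hκ he0 he1 hL0 hb1 hb2 hκL (abs_nonneg _) h3 (abs_nonneg _) h4 h5
      (norm_nonneg _) h2
  · have hHd : ∀ i, 0 ≤ Hd A c (la (f i)) := fun i =>
      Finset.sum_nonneg fun a _ => mul_nonneg (hc a) (sq_nonneg _)
    have h1 : ∑ i ∈ G, om (f i) * S i ^ 2 ≤
        ∑ i ∈ G.filter (fun i => i ∉ t₁ ∪ t₂ ∧ V' ≤ Pn N (la (f i))),
          om (f i) * Hd A c (la (f i)) +
        ∑ i, om (f i) * |S i ^ 2 - Hd A c (la (f i)) * iV V' (Pn N (la (f i)))| +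
        ∑ i ∈ t₁ ∪ t₂, om (f i) * S i ^ 2 := by
      have h2 : ∑ i ∈ G, om (f i) * S i ^ 2 ≤ ∑ i ∈ G,
          ((if i ∉ t₁ ∪ t₂ ∧ V' ≤ Pn N (la (f i)) then om (f i) * Hd A c (la (f i)) else 0) +
          om (f i) * |S i ^ 2 - Hd A c (la (f i)) * iV V' (Pn N (la (f i)))| +
          (if i ∈ t₁ ∪ t₂ then om (f i) * S i ^ 2 else 0)) := by
        apply Finset.sum_le_sum
        intro i _
        have hoi := fic_om (f i)
        by_cases h3 : i ∈ t₁ ∪ t₂
        · rw [if_pos h3, if_neg (fun h => h.1 h3)]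
          have : 0 ≤ om (f i) * |S i ^ 2 - Hd A c (la (f i)) * iV V' (Pn N (la (f i)))| := by
            positivity
          linarith
        · rw [if_neg h3]
          by_cases h4 : V' ≤ Pn N (la (f i))
          · rw [if_pos ⟨h3, h4⟩]
            have h5 : iV V' (Pn N (la (f i))) = 1 := by unfold iV; rw [if_pos h4]
            rw [h5, mul_one, add_zero, ← mul_add]
            apply mul_le_mul_of_nonneg_left _ hoi
            have := le_abs_self (S i ^ 2 - Hd A c (la (f i)))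
            linarith
          · rw [if_neg (fun h => h4 h.2)]
            have h5 : iV V' (Pn N (la (f i))) = 0 := by unfold iV; rw [if_neg h4]
            rw [h5, mul_zero, sub_zero, add_zero, zero_add]
            apply mul_le_mul_of_nonneg_left (le_abs_self _) hoi
      refine h2.trans ?_
      rw [Finset.sum_add_distrib, Finset.sum_add_distrib, ← Finset.sum_filter]
      have h6 : ∑ i ∈ G, om (f i) * |S i ^ 2 - Hd A c (la (f i)) * iV V' (Pn N (la (f i)))| ≤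
          ∑ i, om (f i) * |S i ^ 2 - Hd A c (la (f i)) * iV V' (Pn N (la (f i)))| := by
        apply Finset.sum_le_sum_of_subset_of_nonneg (Finset.subset_univ _)
        intro i _ _
        exact mul_nonneg (fic_om _) (abs_nonneg _)
      have h7 : ∑ i ∈ G, (if i ∈ t₁ ∪ t₂ then om (f i) * S i ^ 2 else 0) ≤
          ∑ i ∈ t₁ ∪ t₂, om (f i) * S i ^ 2 := by
        rw [← Finset.sum_filter]
        apply Finset.sum_le_sum_of_subset_of_nonneg
        · intro i hi'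
          rw [Finset.mem_filter] at hi'
          exact hi'.2
        · intro i _ _
          exact mul_nonneg (fic_om _) (sq_nonneg _)
      linarith
    have h8 : h₀ * (gaussianReal 0 1).real (Set.Ici V) - ε ≤
        h₀ * (gaussianReal 0 1).real (Set.Ici V') := by
      have h9 := mul_le_mul_of_nonneg_left hV' hh0
      have h10 : h₀ * (ε / (h₀ + 1)) ≤ ε := by
        rw [mul_div_assoc', div_le_iff₀ (by positivity)]
        nlinarith
      nlinarith
    linarith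

theorem final_harm : type_of% @final_harm_pr := @final_harm_pr

end Pool.Agent.KSL
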