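import Pool.Agent.Lib_helper68.KSL.Defs
import Pool.Agent.Lib_helper68.LEV.EIA
import Pool.Agent.Lib_helper68.LEV.EQS
import Pool.Agent.Lib_helper68.LEV.FRK
import Pool.Agent.Lib_helper68.LEV.PET
import Pool.Agent.Lib_helper68.LEV.NAT
import Pool.Agent.Lib_helper41.KSNF.NFI
import Pool.Agent.Lib_helper41.LVBF.HPM
import Pool.Agent.Lib_helper41.LVBF.STE
import Pool.Agent.Lib_helper41.LVBF.TRA
import Pool.Agent.Lib_helper68.KSLF.FIC

/-! Block FID: the passage to equal weights (cites final_harm, nat_sharp, transfer, hpoly_mul, hpoly_sum, st_exists). -/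

namespace Pool.Agent.KSL

open Pool.Agent.LEV Pool.Agent.LVB
open Pool.Agent.FG61 (mu phi cc ff AA Lam)
open Complex MeasureTheory Filter Topology UpperHalfPlane ModularGroup ProbabilityTheory
open scoped MatrixGroups Modular ENNReal ModularForm ComplexConjugate ContDiff

theorem fid_om {N : ℕ} [Fact N.Prime] {f : S2 N} (hf : IsNew f) :
    0 < nr f ∧ 0 < om f ∧ 4 * Real.pi * nr f * om f = 1 := by
  have h1 : 0 < nr f := nr_pos (new_ne_zero hf)
  have := Real.pi_pos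
  refine ⟨h1, by unfold om; positivity, ?_⟩
  unfold om
  field_simp

theorem fid_se {N : ℕ} [Fact N.Prime] {f : S2 N} (hf : IsNew f) : se f ^ 2 = 1 := by
  obtain ⟨W, hW⟩ := fricke_exists (N := N)
  rcases (new_fricke hf hW).2 with h | h <;> simp [se, h]

theorem fid_hp {I : Finset ℕ} {P : Measure (ℕ → ℝ)} (hP : IsST I P) {X : ℕ} {G : (ℕ → ℝ) → ℝ}
    (hG : HPoly I X G) : Measurable G ∧ ∃ C : ℝ, ∀ᵐ x ∂P, |G x| ≤ C := by
  obtain ⟨c, hc, hGc⟩ := hG
  have hGe : G = fun x => ∑ m ∈ Finset.Icc 1 X, c m * Um m x := funext hGc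
  have hb : ∀ e : ℕ, ∃ C : ℝ, ∀ y : ℝ, |y| ≤ 2 → ‖Uu y e‖ ≤ C := by
    intro e
    obtain ⟨C, hC⟩ := (isCompact_Icc (a := (-2 : ℝ)) (b := 2)).exists_bound_of_continuousOn
      (EQS_ucont e).continuousOn
    exact ⟨C, fun y hy => hC y (abs_le.mp hy)⟩
  choose C hC using hb
  have hm : ∀ n : ℕ, Measurable (fun x : ℕ → ℝ => Um n x) := by
    intro n
    unfold Um
    exact Finset.measurable_fun_prod _ fun p _ =>
      (EQS_ucont _).measurable.comp (measurable_pi_apply p)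
  refine ⟨?_, ∑ m ∈ Finset.Icc 1 X, |c m| * ∏ p ∈ m.primeFactors, C (m.factorization p), ?_⟩
  · rw [hGe]
    exact Finset.measurable_fun_sum _ fun m _ => (hm m).const_mul _
  · filter_upwards [hP.bdd] with x hx
    rw [hGc x]
    refine (Finset.abs_sum_le_sum_abs _ _).trans (Finset.sum_le_sum fun m _ => ?_)
    rw [abs_mul]
    by_cases h0 : c m = 0
    · rw [h0]
      simp
    · refine mul_le_mul_of_nonneg_left ?_ (abs_nonneg _)
      unfold Um
      rw [Finset.abs_prod]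
      exact Finset.prod_le_prod (fun p _ => abs_nonneg _) fun p hp => hC _ _ (hx p ((hc m h0).2.2 hp))

theorem fid_intk {I : Finset ℕ} {P : Measure (ℕ → ℝ)} (hP : IsST I P) {X : ℕ}
    {G : (ℕ → ℝ) → ℝ} (hG : HPoly I X G) (k : ℕ) : Integrable (fun x => G x ^ k) P := by
  have := hP.prob
  obtain ⟨h1, C, hC⟩ := fid_hp hP hG
  refine Integrable.of_bound (h1.pow_const k).aestronglyMeasurable (C ^ k) ?_
  filter_upwards [hC] with x hx
  rw [Real.norm_eq_abs, abs_pow]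
  exact pow_le_pow_left₀ (abs_nonneg _) hx k

theorem fid_three {P : Measure (ℕ → ℝ)} {u v w : (ℕ → ℝ) → ℝ} (hu : Integrable u P)
    (hv : Integrable v P) (hw : Integrable w P) (s t : ℝ) :
    ∫ x, (u x + s * v x + t * w x) ∂P = ∫ x, u x ∂P + s * ∫ x, v x ∂P + t * ∫ x, w x ∂P := by
  have h1 : ∫ x, (u x + s * v x + t * w x) ∂P =
      ∫ x, (u x + s * v x) ∂P + ∫ x, t * w x ∂P := integral_add (hu.add (hv.const_mul s)) (hw.const_mul t)
  have h2 : ∫ x, (u x + s * v x) ∂P = ∫ x, u x ∂P + ∫ x, s * v x ∂P :=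
    integral_add hu (hv.const_mul s)
  rw [h1, h2, integral_const_mul, integral_const_mul]

/-- `∫ G² ≤ √(∫ G⁴)` -/
theorem fid_four {I : Finset ℕ} {P : Measure (ℕ → ℝ)} (hP : IsST I P) {X : ℕ}
    {G : (ℕ → ℝ) → ℝ} (hG : HPoly I X G) : (∫ x, G x ^ 2 ∂P) ^ 2 ≤ ∫ x, G x ^ 4 ∂P := by
  have := hP.prob
  have i2 := fid_intk hP hG 2
  have i4 := fid_intk hP hG 4
  have h1 : 0 ≤ ∫ x, (G x ^ 2 - ∫ y, G y ^ 2 ∂P) ^ 2 ∂P := integral_nonneg fun x => sq_nonneg _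
  set q : ℝ := ∫ y, G y ^ 2 ∂P with hq
  have e1 : ∀ x, (G x ^ 2 - q) ^ 2 = G x ^ 4 + (-2 * q) * G x ^ 2 + q ^ 2 * 1 := by
    intro x
    ring
  simp only [e1] at h1
  rw [fid_three i4 i2 (integrable_const 1) (-2 * q) (q ^ 2), integral_const,
    smul_eq_mul, probReal_univ, ← hq] at h1
  nlinarith

theorem fid_mono {I J : Finset ℕ} (hIJ : I ⊆ J) {X Y : ℕ} (h : X ≤ Y) {G : (ℕ → ℝ) → ℝ}
    (hG : HPoly I X G) : HPoly J Y G := by
  obtain ⟨c, hc, hGc⟩ := hG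
  refine ⟨c, fun m hm => ⟨(hc m hm).1, (hc m hm).2.1.trans h, (hc m hm).2.2.trans hIJ⟩, fun x => ?_⟩
  rw [hGc x]
  refine Finset.sum_subset (Finset.Icc_subset_Icc le_rfl h) fun m _ hm => ?_
  by_contra h0
  have h1 : c m ≠ 0 := fun h => h0 (by rw [h, zero_mul])
  exact hm (Finset.mem_Icc.mpr ⟨(hc m h1).1, (hc m h1).2.1⟩)

theorem fid_smul {I : Finset ℕ} {X : ℕ} {H : (ℕ → ℝ) → ℝ} (hH : HPoly I X H) (t : ℝ) :
    HPoly I X (fun x => t * H x) := by
  obtain ⟨d, hd, hHd⟩ := hH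
  refine ⟨fun m => t * d m, fun m hm => hd m fun h => hm (by simp [h]), fun x => ?_⟩
  simp only []
  rw [hHd x, Finset.mul_sum]
  exact Finset.sum_congr rfl fun m _ => by ring

theorem fid_um {a : ℕ} (ha : 1 ≤ a) : HPoly a.primeFactors a (Um a) := by
  refine ⟨fun m => if m = a then 1 else 0, fun m hm => ?_, fun x => ?_⟩
  · have : m = a := by
      by_contra h
      exact hm (if_neg h)
    subst this
    exact ⟨ha, le_rfl, subset_rfl⟩
  · simp only [ite_mul, one_mul, zero_mul]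
    rw [Finset.sum_ite_eq', if_pos (Finset.mem_Icc.mpr ⟨ha, le_rfl⟩)]

theorem fid_VV (z : ℕ) : 0 ≤ VV z := by
  unfold VV
  refine Finset.prod_nonneg fun p hp => ?_
  have h1 : p.Prime := (Finset.mem_filter.mp hp).2
  have h2 : (1 : ℝ) ≤ p := by exact_mod_cast h1.one_lt.le
  have : 1 / (p : ℝ) ≤ 1 := by
    rw [div_le_one (by linarith)]
    exact h2
  linarith

theorem fid_ha {z : ℕ} {A : Finset ℕ} (hA : ∀ a ∈ A, smooth z a) {N : ℕ} (hN : z < N) :
    HPoly (Pr N) ((A.sup id) ^ 2 + 1) (HA z A) := by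
  have h1 : HPoly (Pr N) ((A.sup id) ^ 2 + 1) (fun x => ∑ a ∈ A, VV z / a * Um a x ^ 2) := by
    refine hpoly_sum (J := ℕ) A (G := fun a x => VV z / a * Um a x ^ 2) fun a ha => ?_
    apply fid_smul
    have ha1 : 1 ≤ a := Nat.one_le_iff_ne_zero.mpr (hA a ha).1
    have h2 := hpoly_mul (fun p hp => Nat.prime_of_mem_primeFactors hp)
      (fun p hp => Nat.prime_of_mem_primeFactors hp) (fid_um ha1) (fid_um ha1)
    have h3 : (fun x => Um a x ^ 2) = fun x => Um a x * Um a x := by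
      funext x
      ring
    rw [h3]
    refine fid_mono ?_ ?_ h2
    · rw [Finset.union_self]
      intro p hp
      have hpp := Nat.prime_of_mem_primeFactors hp
      have := (hA a ha).2 p hpp (Nat.dvd_of_mem_primeFactors hp)
      exact Finset.mem_filter.mpr ⟨Finset.mem_range.mpr (by omega), hpp⟩
    · have h4 : a ≤ A.sup id := Finset.le_sup (f := id) ha
      nlinarith
  exact h1

theorem fid_exp : ∃ ν : ℝ, 0 < ν ∧ ν < 1 ∧ Real.exp (8 * Real.pi * ν) ≤ 2 := by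
  have := Real.pi_gt_three
  refine ⟨1 / (16 * Real.pi), by positivity, ?_, ?_⟩
  · rw [div_lt_one (by positivity)]
    linarith
  · have h4 : 8 * Real.pi * (1 / (16 * Real.pi)) = 1 / 2 := by
      field_simp
      norm_num
    rw [h4]
    have h5 : Real.exp (1 / 2) ^ 2 = Real.exp 1 := by
      rw [← Real.exp_nat_mul]
      norm_num
    have h6 := Real.exp_one_lt_three
    have h7 := Real.exp_pos (1 / 2)
    nlinarith

theorem fid_cs {ι : Type} (s : Finset ι) (o u : ι → ℝ) (ho : ∀ i, 0 ≤ o i) {a b : ℝ}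
    (h1 : ∑ i ∈ s, o i ≤ a) (h2 : ∑ i ∈ s, o i * u i ^ 2 ≤ b) (ha : 0 ≤ a) :
    ∑ i ∈ s, o i * u i ≤ Real.sqrt a * Real.sqrt b := by
  have h3 : ∀ i, o i * u i = Real.sqrt (o i) * (Real.sqrt (o i) * u i) := by
    intro i
    have := Real.mul_self_sqrt (ho i)
    linear_combination (-(u i)) * this
  have h5 := Finset.sum_mul_sq_le_sq_mul_sq s (fun i => Real.sqrt (o i))
    (fun i => Real.sqrt (o i) * u i)
  have h4 : ∀ i, (Real.sqrt (o i) * u i) ^ 2 = o i * u i ^ 2 := by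
    intro i
    rw [mul_pow, Real.sq_sqrt (ho i)]
  have h6 : ∀ i, Real.sqrt (o i) ^ 2 = o i := fun i => Real.sq_sqrt (ho i)
  simp only [h4, h6] at h5
  simp only [h3]
  rw [← Real.sqrt_mul ha]
  apply Real.le_sqrt_of_sq_le
  refine h5.trans ?_
  exact mul_le_mul h1 h2 (Finset.sum_nonneg fun i _ => mul_nonneg (ho i) (sq_nonneg _)) ha

theorem final_nat_pr (V : ℝ) {ε : ℝ} (hε : 0 < ε) : ∃ N₀ : ℕ, ∀ (N : ℕ) [Fact N.Prime],
    N₀ ≤ N → (N : ℝ) / 24 * (1 / 2 * (gaussianReal 0 1).real (Set.Ici V) - ε) ≤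
      ({f : S2 N | (IsNew f ∧ co f N = 1) ∧ Real.exp (-Real.log (Real.log N) / 2 +
        V * Real.sqrt (Real.log (Real.log N))) ≤ ‖Lh f‖}.ncard : ℝ) := by
  classical
  obtain ⟨C₄, hC₄⟩ := nat_sharp
  obtain ⟨C, hC1, hCC⟩ : ∃ C : ℝ, 1 ≤ C ∧ C₄ ≤ C := ⟨max 1 C₄, le_max_left _ _, le_max_right _ _⟩
  set γ : ℝ := (gaussianReal 0 1).real (Set.Ici V) with hγ
  have hγ0 : 0 ≤ γ := measureReal_nonneg
  have hγ1 : γ ≤ 1 := measureReal_le_one
  set K : ℝ := Real.sqrt (2 * Real.sqrt C) with hK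
  have hK0 : 0 ≤ K := Real.sqrt_nonneg _
  obtain ⟨ε₁, he0, he1, he2⟩ : ∃ ε₁ : ℝ, 0 < ε₁ ∧ ε₁ ≤ 1 ∧ (4 + K) * Real.sqrt ε₁ ≤ ε / 2 := by
    refine ⟨min 1 ((ε / (2 * (4 + K))) ^ 2), by positivity, min_le_left _ _, ?_⟩
    have h1 : Real.sqrt (min 1 ((ε / (2 * (4 + K))) ^ 2)) ≤ ε / (2 * (4 + K)) := by
      rw [← Real.sqrt_sq (show 0 ≤ ε / (2 * (4 + K)) by positivity)]
      exact Real.sqrt_le_sqrt (by
        rw [Real.sqrt_sq (by positivity)]
        exact min_le_right _ _)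
    calc (4 + K) * Real.sqrt (min 1 ((ε / (2 * (4 + K))) ^ 2)) ≤ (4 + K) * (ε / (2 * (4 + K))) := by
          gcongr
      _ = ε / 2 := by field_simp
  obtain ⟨z, A, hA, hAs, hAI, N₁, hs1⟩ := hC₄ ε₁ he0
  obtain ⟨N₂, hfin⟩ := final_harm A (fun a => VV z / a)
    (fun a ha => Nat.one_le_iff_ne_zero.mpr (hA a ha).1)
    (fun a => div_nonneg (fid_VV z) (Nat.cast_nonneg a)) V he0
  obtain ⟨ν, hν0, hν1, hνe⟩ := fid_exp
  obtain ⟨N₃, hN₃⟩ := exists_nat_gt ((((A.sup id) ^ 2 + 1 : ℕ) : ℝ) / ν ^ 2)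
  obtain ⟨_, _, hnf⟩ := new_fin
  refine ⟨max (max N₁ N₂) (max N₃ (z + 1)), fun N _ hN => ?_⟩
  have hN1 : N₁ ≤ N := le_trans (by simp) hN
  have hN2 : N₂ ≤ N := le_trans (by simp) hN
  have hN3 : N₃ ≤ N := le_trans (by simp) hN
  have hNz : z < N := Nat.lt_of_succ_le (le_trans (by simp) hN)
  have hN0 : (0 : ℝ) < N := by exact_mod_cast (Fact.out : N.Prime).pos
  have hXN : (((A.sup id) ^ 2 + 1 : ℕ) : ℝ) ≤ ν ^ 2 * N := by
    have h1 : (((A.sup id) ^ 2 + 1 : ℕ) : ℝ) / ν ^ 2 ≤ N :=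
      hN₃.le.trans (by exact_mod_cast hN3)
    rw [div_le_iff₀ (by positivity)] at h1
    linarith
  have hF : {f : S2 N | IsNew f}.Finite := (hnf N).1
  have : Fintype {f : S2 N // IsNew f} := hF.fintype
  set f : {f : S2 N // IsNew f} → S2 N := fun i => i.1 with hf
  have hinj : Function.Injective f := Subtype.coe_injective
  have hn : ∀ i, IsNew (f i) := fun i => i.2
  have hall : AllNew f := ⟨hinj, fun g => ⟨fun hg => ⟨⟨g, hg⟩, rfl⟩, fun ⟨i, hi⟩ => hi ▸ i.2⟩⟩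
  have hom : ∀ i, 0 ≤ om (f i) := fun i => (fid_om (hn i)).2.1.le
  have hPr : ∀ p ∈ Pr N, p.Prime ∧ p < N := by
    intro p hp
    obtain ⟨h2, h3⟩ := Finset.mem_filter.mp hp
    exact ⟨h3, Finset.mem_range.mp h2⟩
  obtain ⟨P, hP⟩ := st_exists (Pr N) (fun p hp => (hPr p hp).1)
  have hHA := fid_ha hA hNz
  have hHA0 : ∀ x, 0 ≤ HA z A x := by
    intro x
    unfold HA
    exact Finset.sum_nonneg fun a _ => mul_nonneg (div_nonneg (fid_VV z) (Nat.cast_nonneg a))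
      (sq_nonneg _)
  -- moments
  have hmass : ∑ i, om (f i) ≤ 2 := by
    have h := transfer f hinj hn hν0 hν1 (X := 1) le_rfl (by
        refine le_trans ?_ hXN
        exact_mod_cast Nat.le_add_left 1 _) hPr hP
      (G := fun _ => 0) ⟨fun _ => 0, fun m hm => absurd rfl hm, fun x => by simp⟩ 1
    have h4 : ∑ i, om (f i) * ((0 : ℝ) + 1 * se (f i)) ^ 2 = ∑ i, om (f i) := by
      refine Finset.sum_congr rfl fun i _ => ?_
      have := fid_se (hn i)
      linear_combination om (f i) * this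
    simp only [h4] at h
    refine h.trans ?_
    simpa using hνe
  have hsq : ∑ i, om (f i) * HA z A (la (f i)) ^ 2 ≤ 2 * Real.sqrt C := by
    have h := transfer f hinj hn hν0 hν1 (Nat.le_add_left 1 _) hXN hPr hP hHA 0
    have h4 : ∑ i, om (f i) * (HA z A (la (f i)) + 0 * se (f i)) ^ 2 =
        ∑ i, om (f i) * HA z A (la (f i)) ^ 2 := by simp only [zero_mul, add_zero]
    rw [h4] at h
    have h5 : ∫ x, HA z A x ^ 2 ∂P ≤ Real.sqrt C := by
      apply Real.le_sqrt_of_sq_le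
      refine (fid_four hP hHA).trans (((hAI (Pr N) (fun p hp => (hPr p hp).1) ?_ P hP).2).trans hCC)
      intro p hp hpz
      exact Finset.mem_filter.mpr ⟨Finset.mem_range.mpr (by omega), hp⟩
    have h6 : 0 ≤ ∫ x, HA z A x ^ 2 ∂P := integral_nonneg fun x => sq_nonneg _
    calc _ ≤ _ := h
      _ ≤ 2 * (Real.sqrt C + 0 ^ 2) := by
        apply mul_le_mul hνe _ (by positivity) (by norm_num)
        linarith
      _ = _ := by ring
  -- the sets
  obtain ⟨t, ht, htsum⟩ := hfin N hN2 f hall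
  set s : Finset {f : S2 N // IsNew f} := Finset.univ.filter
    (fun i => 4 * Real.pi * nr (f i) < N / 12 * ((1 - ε₁) * HA z A (la (f i)) - ε₁)) with hs
  have hsm : ∑ i ∈ s, om (f i) ≤ ε₁ :=
    hs1 N hN1 f hinj hn s (fun i hi => (Finset.mem_filter.mp hi).2)
  have htsum' : 1 / 4 * ((1 - ε₁) * γ) - ε₁ ≤ ∑ i ∈ t, om (f i) * HA z A (la (f i)) := by
    have h1 : ∑ a ∈ A, VV z / (a : ℝ) = VV z * ∑ a ∈ A, 1 / (a : ℝ) := by
      rw [Finset.mul_sum]
      exact Finset.sum_congr rfl fun a _ => by ring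
    have h2 : 1 / 4 * ((∑ a ∈ A, VV z / (a : ℝ)) * γ) - ε₁ ≤
        ∑ i ∈ t, om (f i) * HA z A (la (f i)) := htsum
    rw [h1] at h2
    have h3 : (1 - ε₁) * γ ≤ (VV z * ∑ a ∈ A, 1 / (a : ℝ)) * γ :=
      mul_le_mul_of_nonneg_right hAs hγ0
    linarith
  have hbad : ∑ i ∈ s, om (f i) * HA z A (la (f i)) ≤ Real.sqrt ε₁ * K := by
    refine fid_cs s (fun i => om (f i)) (fun i => HA z A (la (f i))) hom hsm ?_ he0.le
    refine le_trans ?_ hsq
    exact Finset.sum_le_sum_of_subset_of_nonneg (Finset.subset_univ _)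
      fun i _ _ => mul_nonneg (hom i) (sq_nonneg _)
  have hgood : 1 / 4 * ((1 - ε₁) * γ) - ε₁ - Real.sqrt ε₁ * K ≤
      ∑ i ∈ t \ s, om (f i) * HA z A (la (f i)) := by
    have h1 := Finset.sum_sdiff_sub_sum_sdiff (s₁ := t) (s₂ := s)
      (f := fun i => om (f i) * HA z A (la (f i)))
    have h2 : 0 ≤ ∑ i ∈ s \ t, om (f i) * HA z A (la (f i)) :=
      Finset.sum_nonneg fun i _ => mul_nonneg (hom i) (hHA0 _)
    linarith
  have hmt : ∑ i ∈ t \ s, om (f i) ≤ 2 :=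
    (Finset.sum_le_sum_of_subset_of_nonneg (Finset.subset_univ _) fun i _ _ => hom i).trans hmass
  have hcard : (N : ℝ) / 12 * ((1 - ε₁) * ∑ i ∈ t \ s, om (f i) * HA z A (la (f i)) -
      ε₁ * ∑ i ∈ t \ s, om (f i)) ≤ (t \ s).card := by
    calc (N : ℝ) / 12 * ((1 - ε₁) * ∑ i ∈ t \ s, om (f i) * HA z A (la (f i)) -
          ε₁ * ∑ i ∈ t \ s, om (f i)) =
        ∑ i ∈ t \ s, (N : ℝ) / 12 * ((1 - ε₁) * HA z A (la (f i)) - ε₁) * om (f i) := by
          rw [Finset.mul_sum, Finset.mul_sum, ← Finset.sum_sub_distrib, Finset.mul_sum]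
          exact Finset.sum_congr rfl fun i _ => by ring
      _ ≤ ∑ i ∈ t \ s, 1 := by
          refine Finset.sum_le_sum fun i hi => ?_
          obtain ⟨h6, h7, h8⟩ := fid_om (hn i)
          have h9 : i ∉ s := (Finset.mem_sdiff.mp hi).2
          have h10 : (N : ℝ) / 12 * ((1 - ε₁) * HA z A (la (f i)) - ε₁) ≤
              4 * Real.pi * nr (f i) := by
            by_contra hcon
            push Not at hcon
            exact h9 (Finset.mem_filter.mpr ⟨Finset.mem_univ _, hcon⟩)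
          exact (mul_le_mul_of_nonneg_right h10 h7.le).trans h8.le
      _ = (t \ s).card := by simp
  have hfinal : (N : ℝ) / 24 * (1 / 2 * γ - ε) ≤ (t \ s).card := by
    refine le_trans ?_ hcard
    have h1 : ε₁ ≤ Real.sqrt ε₁ := by
      apply Real.le_sqrt_of_sq_le
      nlinarith
    have h2 : 0 ≤ Real.sqrt ε₁ := Real.sqrt_nonneg _
    have h3 : (1 - ε₁) * (1 / 4 * ((1 - ε₁) * γ) - ε₁ - Real.sqrt ε₁ * K) ≤
        (1 - ε₁) * ∑ i ∈ t \ s, om (f i) * HA z A (la (f i)) :=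
      mul_le_mul_of_nonneg_left hgood (by linarith)
    have h4 : ε₁ * ∑ i ∈ t \ s, om (f i) ≤ ε₁ * 2 := mul_le_mul_of_nonneg_left hmt he0.le
    have h5 : 1 / 4 * γ - ε / 2 ≤
        (1 - ε₁) * (1 / 4 * ((1 - ε₁) * γ) - ε₁ - Real.sqrt ε₁ * K) - ε₁ * 2 := by
      have h6 : 1 / 4 * γ - ε₁ / 2 ≤ (1 - ε₁) * (1 / 4 * ((1 - ε₁) * γ)) := by
        nlinarith [mul_nonneg he0.le hγ0, mul_nonneg (mul_nonneg he0.le he0.le) hγ0,
          mul_le_mul_of_nonneg_left hγ1 he0.le]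
      have h7 : (1 - ε₁) * (ε₁ + Real.sqrt ε₁ * K) ≤ ε₁ + Real.sqrt ε₁ * K := by
        have : 0 ≤ ε₁ + Real.sqrt ε₁ * K := by positivity
        nlinarith
      nlinarith
    have h8 : (N : ℝ) / 24 * (1 / 2 * γ - ε) = (N : ℝ) / 12 * (1 / 4 * γ - ε / 2) := by ring
    rw [h8]
    apply mul_le_mul_of_nonneg_left _ (by positivity)
    linarith
  refine hfinal.trans ?_
  norm_cast
  rw [← Finset.card_image_of_injective (t \ s) hinj, ← Set.ncard_coe_finset]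
  apply Set.ncard_le_ncard
  · intro g hg
    obtain ⟨i, hi, rfl⟩ := Finset.mem_image.mp (Finset.mem_coe.mp hg)
    obtain ⟨h7, h8⟩ := ht i (Finset.mem_sdiff.mp hi).1
    exact ⟨⟨hn i, h7⟩, h8⟩
  · exact hF.subset fun g hg => hg.1.1

theorem final_nat : type_of% @final_nat_pr := @final_nat_pr

end Pool.Agent.KSL
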