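import Pool.Agent.Lib_helper68.KSL.Defs
import Pool.Agent.Lib_helper68.LEV.EIA
import Pool.Agent.Lib_helper68.LEV.FRK
import Pool.Agent.Lib_helper68.LEV.PET
import Pool.Agent.Lib_helper68.LEV.HAR
import Pool.Agent.Lib_helper41.LVBF.STE
import Pool.Agent.Lib_helper41.LVBF.TRA
import Pool.Agent.Lib_helper68.KSLF.MRB
import Pool.Agent.Lib_helper68.KSLF.SZF

namespace Pool.Agent.KSL

open Pool.Agent.LEV Pool.Agent.LVB
open Complex MeasureTheory Filter Topology UpperHalfPlane ModularGroup ProbabilityTheory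
open scoped MatrixGroups Modular ENNReal ModularForm ComplexConjugate ContDiff

theorem tym_om {N : ℕ} [Fact N.Prime] (f : S2 N) : 0 ≤ om f := by
  unfold om
  by_cases hf : f = 0
  · rw [hf]
    have : nr (0 : S2 N) = 0 := by
      have := pet_self (0 : S2 N)
      unfold nr
      have h2 : pet (0 : S2 N) 0 = 0 := by
        have h3 := pet_smul (0 : ℂ) (0 : S2 N) (0 : S2 N)
        rw [zero_smul, zero_mul] at h3
        exact h3
      rw [h2]; simp
    rw [this]; simp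
  · have := nr_pos hf
    positivity

theorem tym_exp : Real.exp (8 * Real.pi * (1 / 100)) ≤ 2 := by
  have h1 : 8 * Real.pi * (1 / 100) ≤ Real.log 2 := by
    have := Real.pi_lt_d2
    have h2 := Real.log_two_gt_d9
    linarith
  calc Real.exp (8 * Real.pi * (1 / 100)) ≤ Real.exp (Real.log 2) := Real.exp_le_exp.mpr h1
    _ = 2 := Real.exp_log (by norm_num)

theorem tym_lim (k : ℕ) {ε : ℝ} (hε : 0 < ε) (C : ℝ) {κ : ℝ} (hκ : 0 < κ) : ∃ N₀ : ℕ, ∀ N : ℕ,
    N₀ ≤ N → C * Real.log (Real.log N) ^ k ≤ κ * Real.exp (ε * Real.sqrt (Real.log (Real.log N))) := by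
  have hll : Tendsto (fun N : ℕ => Real.sqrt (Real.log (Real.log (N : ℝ)))) atTop atTop :=
    Real.tendsto_sqrt_atTop.comp (Real.tendsto_log_atTop.comp
      (Real.tendsto_log_atTop.comp tendsto_natCast_atTop_atTop))
  have h1 : Tendsto (fun u : ℝ => C * ((u ^ (2 * k)) * Real.exp (-(ε * u)))) atTop (𝓝 0) := by
    have h2 := Real.tendsto_pow_mul_exp_neg_atTop_nhds_zero (2 * k)
    have h3 : Tendsto (fun u : ℝ => ε * u) atTop atTop := Tendsto.const_mul_atTop hε tendsto_id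
    have h4 := (h2.comp h3).const_mul (C / ε ^ (2 * k))
    rw [mul_zero] at h4
    refine h4.congr fun u => ?_
    simp only [Function.comp]
    rw [mul_pow]
    field_simp
  have h5 := h1.comp hll
  obtain ⟨N₀, hN₀⟩ := Filter.eventually_atTop.mp
    ((h5.eventually (gt_mem_nhds hκ)).and (hll.eventually_ge_atTop 1))
  refine ⟨N₀, fun N hN => ?_⟩
  obtain ⟨h6, h7⟩ := hN₀ N hN
  simp only [Function.comp] at h6
  set u := Real.sqrt (Real.log (Real.log (N : ℝ))) with hu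
  have h8 : Real.log (Real.log (N : ℝ)) = u ^ 2 := by
    rw [hu, Real.sq_sqrt]
    by_contra h
    push Not at h
    rw [hu, Real.sqrt_eq_zero_of_nonpos h.le] at h7
    linarith
  rw [h8, ← pow_mul]
  rw [Real.exp_neg, ← mul_assoc, ← div_eq_mul_inv, div_lt_iff₀ (Real.exp_pos _)] at h6
  exact h6.le

theorem typ_m_pr {δ : ℝ} (h0 : 0 < δ) (h1 : δ < 1 / 4) {ε : ℝ} (hε : 0 < ε) : ∃ N₀ : ℕ,
    ∀ (N : ℕ) [Fact N.Prime], N₀ ≤ N → ∀ {ι : Type} [Fintype ι] (f : ι → S2 N),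
    Function.Injective f → (∀ i, IsNew (f i)) → ∀ t : Finset ι,
      (∀ i ∈ t, Real.exp (ε * Real.sqrt (Real.log (Real.log N))) <
        |Mr (zz N) (MM δ N) 2 (la (f i))|) → ∑ i ∈ t, om (f i) ≤ ε := by
  obtain ⟨N₁, hN₁⟩ := mr_hpoly h0 h1
  obtain ⟨C, N₂, hN₂⟩ := mr_sq h0 h1
  obtain ⟨N₃, hN₃⟩ := tym_lim 8 (ε := 2 * ε) (by positivity) (2 * C) hε
  obtain ⟨N₄, hN₄⟩ := sizes h0 h1 (ε := 1) one_pos
  refine ⟨N₁ + N₂ + N₃ + N₄ + 10 ^ 10, fun N _ hN ι _ f hi hn t ht => ?_⟩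
  have hPr : ∀ p ∈ Pr N, p.Prime ∧ p < N := by
    intro p hp
    unfold Pr at hp
    rw [Finset.mem_filter, Finset.mem_range] at hp
    exact ⟨hp.2, hp.1⟩
  obtain ⟨P, hP⟩ := st_exists (Pr N) (fun p hp => (hPr p hp).1)
  have hMr := hN₁ N (by omega)
  have hsq := hN₂ N (by omega) P hP
  have hz := hN₄ N (by omega)
  have hM1 : 1 ≤ 2 * MM δ N := by
    have := hz.2.2.1
    omega
  have hNr : (10 ^ 10 : ℝ) ≤ N := by
    have : (10 ^ 10 : ℕ) ≤ N := by omega
    exact_mod_cast this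
  have hM2 : ((2 * MM δ N : ℕ) : ℝ) ≤ (1 / 100) ^ 2 * N := by
    have hN1 : (1 : ℝ) ≤ N := le_trans (by norm_num) hNr
    have h3 : (MM δ N : ℝ) ≤ (N : ℝ) ^ (1 / 2 - δ) := Nat.floor_le (by positivity)
    have h4 : (N : ℝ) ^ (1 / 2 - δ) ≤ Real.sqrt N := by
      rw [Real.sqrt_eq_rpow]
      exact Real.rpow_le_rpow_of_exponent_le hN1 (by linarith)
    have h5 : Real.sqrt N * Real.sqrt N = N := Real.mul_self_sqrt (by linarith)
    have h6 : (10 ^ 5 : ℝ) ≤ Real.sqrt N := by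
      apply Real.le_sqrt_of_sq_le
      norm_num at hNr ⊢
      exact hNr
    push_cast
    nlinarith
  have htr := transfer f hi hn (ν := 1 / 100) (by norm_num) (by norm_num) hM1 hM2
    (I := Pr N) hPr hP hMr 0
  simp only [zero_mul, add_zero] at htr
  have h5 : (0 : ℝ) ≤ ∫ x, Mr (zz N) (MM δ N) 2 x ^ 2 ∂P := integral_nonneg fun x => sq_nonneg _
  have h6 : ∑ i, om (f i) * Mr (zz N) (MM δ N) 2 (la (f i)) ^ 2 ≤
      2 * (C * Real.log (Real.log N) ^ 8) := by
    refine htr.trans ?_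
    exact mul_le_mul tym_exp (by linarith) (by linarith) (by norm_num)
  have h7 := HAR_cheb (fun i => om (f i)) (fun i => Mr (zz N) (MM δ N) 2 (la (f i)) ^ 2)
    (fun i => tym_om _) (fun i => sq_nonneg _)
    (t := Real.exp (2 * ε * Real.sqrt (Real.log (Real.log N)))) (Real.exp_pos _) h6 t (by
      intro i hi'
      have h8 := ht i hi'
      have h9 : Real.exp (2 * ε * Real.sqrt (Real.log (Real.log N))) =
          Real.exp (ε * Real.sqrt (Real.log (Real.log N))) ^ 2 := by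
        rw [← Real.exp_nat_mul]
        congr 1
        push_cast
        ring
      show Real.exp (2 * ε * Real.sqrt (Real.log (Real.log N))) ≤
        Mr (zz N) (MM δ N) 2 (la (f i)) ^ 2
      rw [h9, ← sq_abs (Mr (zz N) (MM δ N) 2 (la (f i)))]
      exact pow_le_pow_left₀ (Real.exp_pos _).le h8.le 2)
  refine h7.trans ?_
  rw [div_le_iff₀ (Real.exp_pos _)]
  have h10 := hN₃ N (by omega)
  calc 2 * (C * Real.log (Real.log N) ^ 8) = 2 * C * Real.log (Real.log N) ^ 8 := by ring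
    _ ≤ _ := h10

theorem typ_m : type_of% @typ_m_pr := @typ_m_pr

end Pool.Agent.KSL
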