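import Pool.Agent.Lib_helper68.KSL.Defs
import Pool.Agent.Lib_helper68.LEV.GIH

/-! KSL block HEA: the Hecke relations -/

set_option linter.unusedSectionVars false

namespace Pool.Agent.KSL

open Pool.Agent.LEV Pool.Agent.LVB
open Pool.Agent.FG61 (mu phi cc ff AA Lam)
open Complex MeasureTheory Filter Topology UpperHalfPlane ModularGroup ProbabilityTheory
open scoped MatrixGroups Modular ENNReal ModularForm ComplexConjugate ContDiff

theorem hea_sum_divisors {a b : ℕ} (ha : 0 < a) (hb : 0 < b) (hab : a.Coprime b) (F : ℕ → ℂ) :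
    ∑ d ∈ (a * b).divisors, F d = ∑ d ∈ a.divisors, ∑ e ∈ b.divisors, F (d * e) := by
  rw [← Finset.sum_product']
  symm
  refine Finset.sum_nbij' (fun x : ℕ × ℕ => x.1 * x.2) (fun d => (d.gcd a, d.gcd b)) ?_ ?_ ?_ ?_ ?_
  · rintro ⟨d, e⟩ hx
    rw [Finset.mem_product, Nat.mem_divisors, Nat.mem_divisors] at hx
    rw [Nat.mem_divisors]
    exact ⟨Nat.mul_dvd_mul hx.1.1 hx.2.1, (Nat.mul_pos ha hb).ne'⟩
  · intro d hd
    rw [Finset.mem_product, Nat.mem_divisors, Nat.mem_divisors]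
    exact ⟨⟨Nat.gcd_dvd_right _ _, ha.ne'⟩, ⟨Nat.gcd_dvd_right _ _, hb.ne'⟩⟩
  · rintro ⟨d, e⟩ hx
    rw [Finset.mem_product, Nat.mem_divisors, Nat.mem_divisors] at hx
    have h1 : e.Coprime a := (hab.coprime_dvd_right hx.2.1).symm
    have h2 : d.Coprime b := hab.coprime_dvd_left hx.1.1
    have h3 : (d * e).gcd a = d := by
      rw [Nat.Coprime.gcd_mul_right_cancel d h1]
      exact Nat.gcd_eq_left hx.1.1
    have h4 : (d * e).gcd b = e := by
      rw [Nat.Coprime.gcd_mul_left_cancel e h2]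
      exact Nat.gcd_eq_left hx.2.1
    rw [Prod.mk.injEq]
    exact ⟨h3, h4⟩
  · intro d hd
    rw [Nat.mem_divisors] at hd
    show d.gcd a * d.gcd b = d
    rw [← Nat.Coprime.gcd_mul d hab]
    exact Nat.gcd_eq_left hd.1
  · intro x _
    rfl

section
variable {N : ℕ} [Fact N.Prime]

theorem hea_pp {f : S2 N} (hf : IsNew f) {p : ℕ} (hp : p.Prime) (hpN : p ≠ N) :
    ∀ r s : ℕ, r ≤ s → co f (p ^ r) * co f (p ^ s) =
      ∑ i ∈ Finset.range (r + 1), (p : ℂ) ^ i * co f (p ^ (r + s - 2 * i))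
  | 0 => fun s _ => by simp [hf.one]
  | 1 => fun s hs => by
    obtain ⟨t, rfl⟩ : ∃ t, s = t + 1 := ⟨s - 1, by omega⟩
    have h := hf.hecke p t hp hpN
    rw [Finset.sum_range_succ, Finset.sum_range_one]
    have e1 : 1 + (t + 1) - 2 * 0 = t + 2 := by omega
    have e2 : 1 + (t + 1) - 2 * 1 = t := by omega
    rw [e1, e2, h, pow_one, pow_zero, pow_one]
    ring
  | r + 2 => fun s hs => by
    have i1 := hea_pp hf hp hpN (r + 1) s (by omega)
    have i0 := hea_pp hf hp hpN r s (by omega)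
    have h := hf.hecke p r hp hpN
    have e1 : co f p * ∑ i ∈ Finset.range (r + 1 + 1), (p : ℂ) ^ i * co f (p ^ (r + 1 + s - 2 * i)) =
        ∑ i ∈ Finset.range (r + 1 + 1), (p : ℂ) ^ i * co f (p ^ (r + 2 + s - 2 * i)) +
        ∑ i ∈ Finset.range (r + 1 + 1), (p : ℂ) ^ (i + 1) * co f (p ^ (r + s - 2 * i)) := by
      rw [Finset.mul_sum, ← Finset.sum_add_distrib]
      refine Finset.sum_congr rfl fun i hi => ?_
      rw [Finset.mem_range] at hi
      have h2 := hf.hecke p (r + s - 2 * i) hp hpN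
      have a1 : r + 1 + s - 2 * i = r + s - 2 * i + 1 := by omega
      have a2 : r + 2 + s - 2 * i = r + s - 2 * i + 2 := by omega
      rw [a1, a2, h2]
      ring
    have e2 : (p : ℂ) * ∑ i ∈ Finset.range (r + 1), (p : ℂ) ^ i * co f (p ^ (r + s - 2 * i)) =
        ∑ i ∈ Finset.range (r + 1), (p : ℂ) ^ (i + 1) * co f (p ^ (r + s - 2 * i)) := by
      rw [Finset.mul_sum]
      refine Finset.sum_congr rfl fun i _ => ?_
      ring
    calc co f (p ^ (r + 2)) * co f (p ^ s)
        = co f p * (co f (p ^ (r + 1)) * co f (p ^ s)) - p * (co f (p ^ r) * co f (p ^ s)) := by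
          rw [h]
          ring
      _ = _ := by
          rw [i1, i0, e1, e2, Finset.sum_range_succ (fun i => (p : ℂ) ^ (i + 1) *
            co f (p ^ (r + s - 2 * i))), Finset.sum_range_succ _ (r + 1 + 1)]
          have a1 : r + s - 2 * (r + 1) = r + 2 + s - 2 * (r + 1 + 1) := by omega
          rw [a1]
          ring

theorem hea_prime_pow {f : S2 N} (hf : IsNew f) {p : ℕ} (hp : p.Prime) (hpN : p ≠ N) (r n : ℕ) :
    co f (p ^ r) * co f n =
      ∑ d ∈ (Nat.gcd (p ^ r) n).divisors, (d : ℂ) * co f (p ^ r * n / d ^ 2) := by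
  rcases Nat.eq_zero_or_pos n with rfl | hn
  · simp [co_zero]
  · obtain ⟨s, k, hk, rfl⟩ := Nat.exists_eq_pow_mul_and_not_dvd hn.ne' p hp.ne_one
    have hcop : (p ^ s).Coprime k := Nat.Coprime.pow_left s ((Nat.Prime.coprime_iff_not_dvd hp).2 hk)
    have hgcd : Nat.gcd (p ^ r) (p ^ s * k) = p ^ (min r s) := by
      have h1 : (p ^ r).Coprime k := Nat.Coprime.pow_left r ((Nat.Prime.coprime_iff_not_dvd hp).2 hk)
      rw [Nat.Coprime.gcd_mul_right_cancel_right _ h1.symm]
      rcases le_total r s with h | h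
      · rw [min_eq_left h]
        exact Nat.gcd_eq_left (pow_dvd_pow p h)
      · rw [min_eq_right h]
        exact Nat.gcd_eq_right (pow_dvd_pow p h)
    rw [hgcd, Nat.divisors_prime_pow hp, Finset.sum_map, hf.mul _ _ hcop, ← mul_assoc]
    have key : co f (p ^ r) * co f (p ^ s) =
        ∑ i ∈ Finset.range (min r s + 1), (p : ℂ) ^ i * co f (p ^ (r + s - 2 * i)) := by
      rcases le_total r s with h | h
      · rw [min_eq_left h]
        exact hea_pp hf hp hpN r s h
      · rw [min_eq_right h, mul_comm, add_comm r s]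
        exact hea_pp hf hp hpN s r h
    rw [key, Finset.sum_mul]
    refine Finset.sum_congr rfl fun i hi => ?_
    rw [Finset.mem_range] at hi
    have hi2 : 2 * i ≤ r + s := by
      have := min_le_left r s
      have := min_le_right r s
      omega
    have hcop' : (p ^ (r + s - 2 * i)).Coprime k :=
      Nat.Coprime.pow_left _ ((Nat.Prime.coprime_iff_not_dvd hp).2 hk)
    have hdiv : p ^ r * (p ^ s * k) / (p ^ i) ^ 2 = p ^ (r + s - 2 * i) * k := by
      have h1 : p ^ r * (p ^ s * k) = (p ^ (r + s - 2 * i) * k) * (p ^ i) ^ 2 := by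
        have h2 : p ^ r * p ^ s = p ^ (r + s - 2 * i) * (p ^ i) ^ 2 := by
          rw [← pow_add, ← pow_mul, ← pow_add]
          congr 1
          omega
        calc p ^ r * (p ^ s * k) = (p ^ r * p ^ s) * k := by ring
          _ = _ := by rw [h2]; ring
      rw [h1]
      exact Nat.mul_div_cancel _ (by have := hp.pos; positivity)
    show (p : ℂ) ^ i * co f (p ^ (r + s - 2 * i)) * co f k =
      ((p ^ i : ℕ) : ℂ) * co f (p ^ r * (p ^ s * k) / (p ^ i) ^ 2)
    rw [hdiv, hf.mul _ _ hcop', Nat.cast_pow]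
    ring

theorem hea_mul {f : S2 N} (hf : IsNew f) {a b : ℕ} (ha : 0 < a) (hb : 0 < b) (hab : a.Coprime b)
    (Ha : ∀ n, co f a * co f n = ∑ d ∈ (Nat.gcd a n).divisors, (d : ℂ) * co f (a * n / d ^ 2))
    (Hb : ∀ n, co f b * co f n = ∑ d ∈ (Nat.gcd b n).divisors, (d : ℂ) * co f (b * n / d ^ 2))
    (n : ℕ) : co f (a * b) * co f n =
      ∑ d ∈ (Nat.gcd (a * b) n).divisors, (d : ℂ) * co f (a * b * n / d ^ 2) := by
  rcases Nat.eq_zero_or_pos n with rfl | hn
  · simp [co_zero]
  · have g1 : 0 < a.gcd n := Nat.gcd_pos_of_pos_left _ ha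
    have g2 : 0 < b.gcd n := Nat.gcd_pos_of_pos_left _ hb
    have g3 : (a.gcd n).Coprime (b.gcd n) :=
      Nat.Coprime.coprime_dvd_left (Nat.gcd_dvd_left a n)
        (hab.coprime_dvd_right (Nat.gcd_dvd_left b n))
    have g4 : Nat.gcd (a * b) n = a.gcd n * b.gcd n := by
      rw [Nat.gcd_comm, Nat.Coprime.gcd_mul n hab, Nat.gcd_comm n a, Nat.gcd_comm n b]
    rw [g4, hea_sum_divisors g1 g2 g3, hf.mul _ _ hab, mul_assoc, Hb, Finset.mul_sum,
      Finset.sum_comm]
    refine Finset.sum_congr rfl fun e he => ?_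
    rw [Nat.mem_divisors] at he
    obtain ⟨b', hb'⟩ : e ∣ b := he.1.trans (Nat.gcd_dvd_left b n)
    obtain ⟨n', hn'⟩ : e ∣ n := he.1.trans (Nat.gcd_dvd_right b n)
    have he0 : 0 < e := Nat.pos_of_dvd_of_pos (he.1.trans (Nat.gcd_dvd_left b n)) hb
    have hae : a.Coprime e := hab.coprime_dvd_right (he.1.trans (Nat.gcd_dvd_left b n))
    have hab' : a.Coprime b' := hab.coprime_dvd_right ⟨e, by rw [hb']; ring⟩
    have q1 : b * n / e ^ 2 = b' * n' := by
      have : b * n = (b' * n') * e ^ 2 := by rw [hb', hn']; ring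
      rw [this]
      exact Nat.mul_div_cancel _ (by positivity)
    have q2 : a.gcd (b' * n') = a.gcd n := by
      rw [Nat.Coprime.gcd_mul_left_cancel_right _ hab'.symm, hn',
        Nat.Coprime.gcd_mul_left_cancel_right _ hae.symm]
    rw [q1, ← mul_assoc, mul_comm (co f a) (e : ℂ), mul_assoc, Ha, q2, Finset.mul_sum]
    refine Finset.sum_congr rfl fun d hd => ?_
    rw [Nat.mem_divisors] at hd
    obtain ⟨a', ha'⟩ : d ∣ a := hd.1.trans (Nat.gcd_dvd_left a n)
    have hd0 : 0 < d := Nat.pos_of_dvd_of_pos (hd.1.trans (Nat.gcd_dvd_left a n)) ha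
    have hde : d.Coprime e := hae.coprime_dvd_left (hd.1.trans (Nat.gcd_dvd_left a n))
    obtain ⟨k, hk⟩ : d ∣ n' := by
      have h1 : d ∣ e * n' := by
        rw [← hn']
        exact hd.1.trans (Nat.gcd_dvd_right a n)
      exact hde.dvd_of_dvd_mul_left h1
    have q3 : a * (b' * n') / d ^ 2 = a' * b' * k := by
      have : a * (b' * n') = (a' * b' * k) * d ^ 2 := by rw [ha', hk]; ring
      rw [this]
      exact Nat.mul_div_cancel _ (by positivity)
    have q4 : a * b * n / (d * e) ^ 2 = a' * b' * k := by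
      have : a * b * n = (a' * b' * k) * (d * e) ^ 2 := by rw [ha', hb', hn', hk]; ring
      rw [this]
      exact Nat.mul_div_cancel _ (by positivity)
    rw [q3, q4]
    push_cast
    ring

theorem hecke_all_pr {f : S2 N} (hf : IsNew f) {m : ℕ} (hm : m.Coprime N) (n : ℕ) :
    co f m * co f n = ∑ d ∈ (Nat.gcd m n).divisors, (d : ℂ) * co f (m * n / d ^ 2) := by
  have hN : N.Prime := Fact.out
  revert hm n
  refine Nat.recOnPosPrimePosCoprime ?_ ?_ ?_ ?_ m
  · intro p r hp hr hm n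
    refine hea_prime_pow hf hp ?_ r n
    rintro rfl
    rw [Nat.coprime_pow_left_iff hr] at hm
    exact hp.one_lt.ne' ((Nat.coprime_self p).1 hm)
  · intro hm
    exact absurd ((Nat.coprime_zero_left N).1 hm) hN.one_lt.ne'
  · intro _ n
    simp [hf.one]
  · intro a b ha hb hab Ha Hb hm n
    exact hea_mul hf (by omega) (by omega) hab (Ha (Nat.Coprime.coprime_mul_right hm))
      (Hb (Nat.Coprime.coprime_mul_left hm)) n

end

theorem hecke_all : type_of% @hecke_all_pr := @hecke_all_pr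

end Pool.Agent.KSL
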