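import Pool.Agent.Lib_helper68.KSL.Defs
import Pool.Agent.Lib_helper68.LEV.GIH
import Pool.Agent.Lib_helper68.KSLF.HEA

/-! KSL block GHK: the action of the Hecke operators on the central value, all `m`. -/

set_option autoImplicit false

namespace Pool.Agent.KSL

open Pool.Agent.LEV Pool.Agent.LVB
open Pool.Agent.FG61 (mu phi cc ff AA Lam)
open Complex MeasureTheory Filter Topology UpperHalfPlane ModularGroup ProbabilityTheory
open scoped MatrixGroups Modular ENNReal ModularForm ComplexConjugate ContDiff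

section
variable {N : ℕ} [Fact N.Prime]

/-- one divisor -/
theorem GHK_one (f : S2 N) {a d : ℕ} (ha : 0 < a) (hd : 0 < d) {v : ℝ} (hv : 0 < v) :
    HasSum (fun n : ℕ => if d ∣ n then (d : ℂ) * co f (a * d * n / d ^ 2) *
      (Real.exp (-2 * Real.pi * n * v) : ℂ) else 0)
      ((d : ℂ) / a * GIH_H f a ((d : ℝ) / a * v)) := by
  have haR : (a : ℝ) ≠ 0 := by exact_mod_cast ha.ne'
  have haC : (a : ℂ) ≠ 0 := by exact_mod_cast ha.ne'
  have hdR : (0 : ℝ) < d := by exact_mod_cast hd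
  have haR' : (0 : ℝ) < a := by exact_mod_cast ha
  have h1 := (GIH_hasSum f ha (v := (d : ℝ) / a * v) (by positivity)).mul_left ((d : ℂ) / a)
  have hinj : Function.Injective (fun k : ℕ => d * k) := fun x y hxy =>
    Nat.eq_of_mul_eq_mul_left hd hxy
  refine (Function.Injective.hasSum_iff hinj ?_).mp ?_
  · intro x hx
    have : ¬ d ∣ x := by
      rintro ⟨k, rfl⟩
      exact hx ⟨k, rfl⟩
    simp [this]
  · refine GIH_congr ?_ h1
    intro k
    simp only [Function.comp_apply, dvd_mul_right, if_true]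
    have e1 : a * d * (d * k) / d ^ 2 = a * k := by
      rw [show a * d * (d * k) = a * k * d ^ 2 by ring]
      exact Nat.mul_div_cancel _ (by positivity)
    have e2 : -2 * Real.pi * ((a * k : ℕ) : ℝ) * ((d : ℝ) / a * v) =
        -2 * Real.pi * ((d * k : ℕ) : ℝ) * v := by
      push_cast
      field_simp
    rw [e1, e2]
    field_simp

/-- the Hecke relation for the sums over all fractions -/
theorem GHK_rel {f : S2 N} (hf : IsNew f) {m : ℕ} (hm : 1 ≤ m) (hmN : m.Coprime N) {v : ℝ}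
    (hv : 0 < v) :
    co f m * GIH_H f 1 v = ∑ d ∈ m.divisors, ((d : ℂ) / ((m / d : ℕ) : ℂ)) *
      GIH_H f (m / d) ((d : ℝ) / ((m / d : ℕ) : ℝ) * v) := by
  have h1 : HasSum (fun n : ℕ => ∑ d ∈ m.divisors, if d ∣ n then (d : ℂ) * co f (m * n / d ^ 2) *
      (Real.exp (-2 * Real.pi * n * v) : ℂ) else 0)
      (∑ d ∈ m.divisors, ((d : ℂ) / ((m / d : ℕ) : ℂ)) *
      GIH_H f (m / d) ((d : ℝ) / ((m / d : ℕ) : ℝ) * v)) := by
    apply hasSum_sum
    intro d hd
    have hdm : d ∣ m := Nat.dvd_of_mem_divisors hd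
    have hd0 : 0 < d := Nat.pos_of_mem_divisors hd
    have ha0 : 0 < m / d := Nat.div_pos (Nat.le_of_dvd hm hdm) hd0
    have h := GHK_one f ha0 hd0 hv
    rw [Nat.div_mul_cancel hdm] at h
    exact h
  have h2 := (GIH_hasSum f one_pos hv).mul_left (co f m)
  refine HasSum.unique h2 (GIH_congr ?_ h1)
  intro n
  have h3 := hecke_all hf hmN n
  have h4 : m.divisors.filter (fun d => d ∣ n) = (Nat.gcd m n).divisors := by
    ext c
    rw [Finset.mem_filter, Nat.mem_divisors, Nat.mem_divisors, Nat.dvd_gcd_iff]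
    constructor
    · rintro ⟨⟨h4, h5⟩, h6⟩
      exact ⟨⟨h4, h6⟩, fun h => h5 (Nat.eq_zero_of_gcd_eq_zero_left h)⟩
    · rintro ⟨⟨h4, h6⟩, h5⟩
      exact ⟨⟨h4, by omega⟩, h6⟩
  rw [← Finset.sum_filter, h4, one_mul, Nat.cast_one, one_mul, ← mul_assoc, h3, Finset.sum_mul]

theorem GHK_total {f : S2 N} (hf : IsNew f) (h1 : co f N = 1) {m : ℕ} (hm : 1 ≤ m)
    (hmN : m.Coprime N) : ∑ e ∈ m.divisors, GIH_I f e = co f m * GIH_I f 1 := by
  rw [← Nat.sum_div_divisors m (fun e => GIH_I f e)]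
  have h2 : ∫ v in Set.Ioi (0 : ℝ), co f m * GIH_H f 1 v =
      ∫ v in Set.Ioi (0 : ℝ), ∑ d ∈ m.divisors, ((d : ℂ) / ((m / d : ℕ) : ℂ)) *
      GIH_H f (m / d) ((d : ℝ) / ((m / d : ℕ) : ℝ) * v) :=
    setIntegral_congr_fun measurableSet_Ioi (fun v hv => GHK_rel hf hm hmN hv)
  rw [integral_const_mul] at h2
  unfold GIH_I
  rw [h2, integral_finsetSum]
  · apply Finset.sum_congr rfl
    intro d hd
    have hdm : d ∣ m := Nat.dvd_of_mem_divisors hd
    have hd0 : 0 < d := Nat.pos_of_mem_divisors hd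
    have ha0 : 0 < m / d := Nat.div_pos (Nat.le_of_dvd hm hdm) hd0
    have hdR : (0 : ℝ) < d := by exact_mod_cast hd0
    have haR : (0 : ℝ) < ((m / d : ℕ) : ℝ) := by exact_mod_cast ha0
    have hdC : (d : ℂ) ≠ 0 := by exact_mod_cast hd0.ne'
    have haC : ((m / d : ℕ) : ℂ) ≠ 0 := by exact_mod_cast ha0.ne'
    rw [integral_const_mul, integral_comp_mul_left_Ioi (fun v => GIH_H f (m / d) v) 0
      (b := (d : ℝ) / ((m / d : ℕ) : ℝ)) (by positivity), mul_zero, Complex.real_smul]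
    push_cast
    field_simp
  · intro d hd
    have hdm : d ∣ m := Nat.dvd_of_mem_divisors hd
    have hd0 : 0 < d := Nat.pos_of_mem_divisors hd
    have ha0 : 0 < m / d := Nat.div_pos (Nat.le_of_dvd hm hdm) hd0
    have hdR : (0 : ℝ) < d := by exact_mod_cast hd0
    have haR : (0 : ℝ) < ((m / d : ℕ) : ℝ) := by exact_mod_cast ha0
    have hcop : (m / d).Coprime N := Nat.Coprime.coprime_dvd_left (Nat.div_dvd_of_dvd hdm) hmN
    have i2 := GIH_intH hf h1 ha0 hcop
    have := (integrableOn_Ioi_comp_mul_left_iff (fun v => GIH_H f (m / d) v) 0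
      (a := (d : ℝ) / ((m / d : ℕ) : ℝ)) (by positivity)).mpr (by rw [mul_zero]; exact i2)
    exact this.const_mul _

/-- the action of the Hecke operators on the central value -/
theorem geo_hecke_all_pr {f : S2 N} (hf : IsNew f) (h1 : co f N = 1) {m : ℕ} (hm : 1 ≤ m)
    (hmN : m.Coprime N) :
    co f m * Lh f = 4 * Real.pi * ∑ e ∈ m.divisors, ((m / e).divisors.card : ℂ) *
      ∑ j ∈ RR e, ∫ v in Set.Ioi (rq N e), ev f ((j : ℝ) / e) v := by
  have h2 := (lh_int f).2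
  have h3 : GIH_I f 1 = ∫ v in Set.Ioi (0 : ℝ), ev f 0 v := by
    unfold GIH_I GIH_H
    simp
  rw [h2, ← h3]
  have h4 := GHK_total hf h1 hm hmN
  have h5 : ∑ e ∈ m.divisors, GIH_I f e = ∑ e ∈ m.divisors, ∑ d ∈ e.divisors,
      2 * ∑ j ∈ RR d, ∫ v in Set.Ioi (rq N d), ev f ((j : ℝ) / d) v := by
    apply Finset.sum_congr rfl
    intro e he
    have hem : e ∣ m := Nat.dvd_of_mem_divisors he
    exact GIH_I_eq hf h1 (Nat.pos_of_dvd_of_pos hem hm) (Nat.Coprime.coprime_dvd_left hem hmN)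
  rw [h5, GIH_swap hm] at h4
  calc co f m * (2 * Real.pi * GIH_I f 1) = 2 * Real.pi * (co f m * GIH_I f 1) := by ring
    _ = 2 * Real.pi * ∑ d ∈ m.divisors, ((m / d).divisors.card : ℂ) *
      (2 * ∑ j ∈ RR d, ∫ v in Set.Ioi (rq N d), ev f ((j : ℝ) / d) v) := by rw [← h4]
    _ = 4 * Real.pi * ∑ e ∈ m.divisors, ((m / e).divisors.card : ℂ) *
      ∑ j ∈ RR e, ∫ v in Set.Ioi (rq N e), ev f ((j : ℝ) / e) v := by
        rw [Finset.mul_sum, Finset.mul_sum]
        apply Finset.sum_congr rfl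
        intro e _
        ring

end

theorem geo_hecke_all : type_of% @geo_hecke_all_pr := @geo_hecke_all_pr

end Pool.Agent.KSL
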