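import Pool.Agent.Lib_helper68.KSL.Defs
import Pool.Agent.Lib_helper68.LEV.EIA
import Pool.Agent.Lib_helper68.KSLF.GHK
import Pool.Agent.Lib_helper68.KSLF.SRO

/-! KSL, block LMI: the mollified central value as a linear functional. -/

namespace Pool.Agent.KSL

open Pool.Agent.LEV Pool.Agent.LVB
open Pool.Agent.FG61 (mu phi cc ff AA Lam)
open Complex MeasureTheory Filter Topology UpperHalfPlane ModularGroup ProbabilityTheory
open scoped MatrixGroups Modular ENNReal ModularForm ComplexConjugate ContDiff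
open scoped ArithmeticFunction.zeta ArithmeticFunction.Moebius ArithmeticFunction.sigma

/-- sums over the divisors of a product -/
lemma lmi_div {a b : ℕ} (h : a.Coprime b) (ha : a ≠ 0) (hb : b ≠ 0) (F : ℕ → ℂ) :
    ∑ d ∈ (a * b).divisors, F d = ∑ u ∈ a.divisors, ∑ r ∈ b.divisors, F (u * r) := by
  rw [← Finset.sum_product']
  symm
  refine Finset.sum_nbij (fun x => x.1 * x.2) ?_ ?_ ?_ (fun _ _ => rfl)
  · rintro ⟨u, r⟩ hx
    rw [Finset.mem_product] at hx
    have h1 := Nat.dvd_of_mem_divisors hx.1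
    have h2 := Nat.dvd_of_mem_divisors hx.2
    exact Nat.mem_divisors.mpr ⟨mul_dvd_mul h1 h2, mul_ne_zero ha hb⟩
  · rintro ⟨u, r⟩ hx ⟨u', r'⟩ hx' heq
    simp only [Finset.coe_product, Set.mem_prod, Finset.mem_coe] at hx hx'
    have h1 := Nat.dvd_of_mem_divisors hx.1
    have h2 := Nat.dvd_of_mem_divisors hx.2
    have h1' := Nat.dvd_of_mem_divisors hx'.1
    have h2' := Nat.dvd_of_mem_divisors hx'.2
    simp only at heq h1 h2 h1' h2'
    have c1 : u.Coprime r' := Nat.Coprime.coprime_dvd_left h1 (Nat.Coprime.coprime_dvd_right h2' h)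
    have c2 : u'.Coprime r := Nat.Coprime.coprime_dvd_left h1' (Nat.Coprime.coprime_dvd_right h2 h)
    have d1 : u ∣ u' := by
      have : u ∣ u' * r' := by
        rw [← heq]
        exact Dvd.intro r rfl
      exact c1.dvd_of_dvd_mul_right this
    have d2 : u' ∣ u := by
      have : u' ∣ u * r := by
        rw [heq]
        exact Dvd.intro r' rfl
      exact c2.dvd_of_dvd_mul_right this
    have e1 : u = u' := Nat.dvd_antisymm d1 d2
    subst e1
    have hu : u ≠ 0 := by
      rintro rfl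
      exact ha (Nat.eq_zero_of_zero_dvd h1)
    have e2 : r = r' := Nat.eq_of_mul_eq_mul_left (Nat.pos_of_ne_zero hu) heq
    rw [e2]
  · intro d hd
    have hd1 := Nat.dvd_of_mem_divisors (Finset.mem_coe.mp hd)
    obtain ⟨u, r, hu, hr, hur⟩ := (Nat.dvd_mul).mp hd1
    refine ⟨(u, r), ?_, hur⟩
    simp only [Finset.coe_product, Set.mem_prod, Finset.mem_coe]
    exact ⟨Nat.mem_divisors.mpr ⟨hu, ha⟩, Nat.mem_divisors.mpr ⟨hr, hb⟩⟩

section
variable {N : ℕ} [Fact N.Prime]

/-- the coefficients as an arithmetic function -/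
noncomputable def lmiC (f : S2 N) : ArithmeticFunction ℂ :=
  ⟨fun n => if n = 0 then 0 else co f n, if_pos rfl⟩

lemma lmiC_apply (f : S2 N) {n : ℕ} (hn : n ≠ 0) : lmiC f n = co f n := by
  show (if n = 0 then 0 else co f n) = co f n
  rw [if_neg hn]

lemma lmiC_mult {f : S2 N} (hf : IsNew f) : (lmiC f).IsMultiplicative := by
  refine ArithmeticFunction.IsMultiplicative.iff_ne_zero.mpr ⟨?_, ?_⟩
  · rw [lmiC_apply f one_ne_zero, hf.one]
  · intro m n hm hn h
    rw [lmiC_apply f (mul_ne_zero hm hn), lmiC_apply f hm, lmiC_apply f hn, hf.mul m n h]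

/-- the value at a squarefree number -/
lemma lmi_prod {f : S2 N} (hf : IsNew f) {e : ℕ} (he : Squarefree e) :
    ∑ x ∈ e.divisorsAntidiagonal, ((ArithmeticFunction.moebius x.1 : ℤ) : ℂ) * lmiC f x.2 =
      ∏ p ∈ e.primeFactors, (co f p - 1) := by
  have h1 : ((((μ : ArithmeticFunction ℤ) : ArithmeticFunction ℂ)) * lmiC f) e =
      ∑ x ∈ e.divisorsAntidiagonal, ((ArithmeticFunction.moebius x.1 : ℤ) : ℂ) * lmiC f x.2 := by
    rw [ArithmeticFunction.mul_apply]
    rfl
  rw [← h1]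
  have hm : ((((μ : ArithmeticFunction ℤ) : ArithmeticFunction ℂ)) * lmiC f).IsMultiplicative :=
    (ArithmeticFunction.isMultiplicative_moebius.intCast).mul (lmiC_mult hf)
  rw [← hm.prod_primeFactors he]
  refine Finset.prod_congr rfl (fun p hp => ?_)
  have hpp := Nat.prime_of_mem_primeFactors hp
  rw [ArithmeticFunction.mul_apply]
  rw [Nat.sum_divisorsAntidiagonal
    (f := fun a b => ((μ : ArithmeticFunction ℤ) : ArithmeticFunction ℂ) a * lmiC f b)]
  rw [hpp.sum_divisors]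
  have hp0 : p ≠ 0 := hpp.ne_zero
  rw [Nat.div_self hpp.pos, Nat.div_one, lmiC_apply f one_ne_zero, lmiC_apply f hp0, hf.one]
  simp only [ArithmeticFunction.intCoe_apply, ArithmeticFunction.moebius_apply_prime hpp,
    ArithmeticFunction.moebius_apply_one]
  push_cast
  ring

/-- Moebius inversion against the divisor function -/
lemma lmi_mob (g : ℕ → ℂ) {e : ℕ} (he : e ≠ 0) :
    ∑ x ∈ e.divisorsAntidiagonal, ((ArithmeticFunction.moebius x.1 : ℤ) : ℂ) *
      ∑ r ∈ x.2.divisors, ((x.2 / r).divisors.card : ℂ) * g r = ∑ r ∈ e.divisors, g r := by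
  set gA : ArithmeticFunction ℂ := ⟨fun n => if n = 0 then 0 else g n, if_pos rfl⟩ with hgA
  have hg : ∀ n, n ≠ 0 → gA n = g n := fun n hn => by
    show (if n = 0 then 0 else g n) = g n
    rw [if_neg hn]
  set M : ArithmeticFunction ℂ := ((μ : ArithmeticFunction ℤ) : ArithmeticFunction ℂ) with hM
  set Z : ArithmeticFunction ℂ := ((ζ : ArithmeticFunction ℕ) : ArithmeticFunction ℂ) with hZ
  have hMZ : M * Z = 1 := ArithmeticFunction.coe_moebius_mul_coe_zeta
  have hS : (((σ 0 : ArithmeticFunction ℕ)) : ArithmeticFunction ℂ) = Z * Z := by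
    rw [← ArithmeticFunction.zeta_mul_pow_eq_sigma, ArithmeticFunction.pow_zero_eq_zeta,
      ArithmeticFunction.natCoe_mul]
  have h1 : M * ((((σ 0 : ArithmeticFunction ℕ)) : ArithmeticFunction ℂ) * gA) = Z * gA := by
    rw [hS, mul_assoc, ← mul_assoc, hMZ, one_mul]
  have h2 : (M * ((((σ 0 : ArithmeticFunction ℕ)) : ArithmeticFunction ℂ) * gA)) e =
      (Z * gA) e := by rw [h1]
  rw [ArithmeticFunction.mul_apply] at h2
  have h3 : (Z * gA) e = ∑ r ∈ e.divisors, g r := by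
    rw [hZ, ArithmeticFunction.coe_zeta_mul_apply]
    refine Finset.sum_congr rfl (fun r hr => ?_)
    exact hg r (Nat.pos_of_mem_divisors hr).ne'
  rw [h3] at h2
  rw [← h2]
  refine Finset.sum_congr rfl (fun x hx => ?_)
  congr 1
  rw [ArithmeticFunction.mul_apply, Nat.sum_divisorsAntidiagonal'
    (f := fun a b => (((σ 0 : ArithmeticFunction ℕ)) : ArithmeticFunction ℂ) a * gA b)]
  refine Finset.sum_congr rfl (fun r hr => ?_)
  rw [hg r (Nat.pos_of_mem_divisors hr).ne', ArithmeticFunction.natCoe_apply,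
    ArithmeticFunction.sigma_zero_apply]

/-- the sum over one denominator -/
noncomputable def lmiG (f : S2 N) (q : ℕ) : ℂ :=
  ∑ j ∈ RR q, ∫ v in Set.Ioi (rq N q), ev f ((j : ℝ) / q) v

lemma lmi_key {f : S2 N} (hf : IsNew f) (h1 : co f N = 1) {k e : ℕ} (hk : k ≠ 0)
    (he : Squarefree e) (hke : k.Coprime e) (hN : (k * e).Coprime N) :
    co f k * (∏ p ∈ e.primeFactors, (co f p - 1)) * Lh f =
      4 * Real.pi * ∑ u ∈ k.divisors, ((k / u).divisors.card : ℂ) *
        ∑ r ∈ e.divisors, lmiG f (u * r) := by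
  have he0 : e ≠ 0 := he.ne_zero
  have hterm : ∀ x ∈ e.divisorsAntidiagonal,
      co f k * (((ArithmeticFunction.moebius x.1 : ℤ) : ℂ) * lmiC f x.2) * Lh f =
      4 * Real.pi * (((ArithmeticFunction.moebius x.1 : ℤ) : ℂ) *
        ∑ r ∈ x.2.divisors, ((x.2 / r).divisors.card : ℂ) *
          ∑ u ∈ k.divisors, ((k / u).divisors.card : ℂ) * lmiG f (u * r)) := by
    intro x hx
    have hx2 : x.2 ≠ 0 := Nat.right_ne_zero_of_mem_divisorsAntidiagonal hx
    have hdvd : x.2 ∣ e := Nat.dvd_of_mem_divisors (Nat.snd_mem_divisors_of_mem_antidiagonal hx)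
    have hc : k.Coprime x.2 := Nat.Coprime.coprime_dvd_right hdvd hke
    have hcN : (k * x.2).Coprime N :=
      Nat.Coprime.coprime_dvd_left (mul_dvd_mul_left k hdvd) hN
    have h2 := geo_hecke_all hf h1 (m := k * x.2)
      (Nat.pos_of_ne_zero (mul_ne_zero hk hx2)) hcN
    rw [lmiC_apply f hx2]
    have h3 : co f k * (((ArithmeticFunction.moebius x.1 : ℤ) : ℂ) * co f x.2) * Lh f =
        ((ArithmeticFunction.moebius x.1 : ℤ) : ℂ) * (co f (k * x.2) * Lh f) := by
      rw [hf.mul k x.2 hc]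
      ring
    rw [h3, h2]
    have h4 : ∑ d ∈ (k * x.2).divisors, (((k * x.2) / d).divisors.card : ℂ) *
        ∑ j ∈ RR d, ∫ v in Set.Ioi (rq N d), ev f ((j : ℝ) / d) v =
        ∑ r ∈ x.2.divisors, ((x.2 / r).divisors.card : ℂ) *
          ∑ u ∈ k.divisors, ((k / u).divisors.card : ℂ) * lmiG f (u * r) := by
      rw [lmi_div hc hk hx2 (fun d => (((k * x.2) / d).divisors.card : ℂ) *
        ∑ j ∈ RR d, ∫ v in Set.Ioi (rq N d), ev f ((j : ℝ) / d) v), Finset.sum_comm]
      refine Finset.sum_congr rfl (fun r hr => ?_)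
      rw [Finset.mul_sum]
      refine Finset.sum_congr rfl (fun u hu => ?_)
      have hu1 := Nat.dvd_of_mem_divisors hu
      have hr1 := Nat.dvd_of_mem_divisors hr
      have e1 : k * x.2 / (u * r) = (k / u) * (x.2 / r) := Nat.mul_div_mul_comm hu1 hr1
      have e2 : (k / u).Coprime (x.2 / r) :=
        Nat.Coprime.coprime_dvd_left (Nat.div_dvd_of_dvd hu1)
          (Nat.Coprime.coprime_dvd_right (Nat.div_dvd_of_dvd hr1) hc)
      rw [e1, Nat.Coprime.card_divisors_mul e2]
      unfold lmiG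
      push_cast
      ring
    rw [h4]
    ring
  rw [← lmi_prod hf he, Finset.mul_sum, Finset.sum_mul, Finset.sum_congr rfl hterm,
    ← Finset.mul_sum,
    lmi_mob (fun r => ∑ u ∈ k.divisors, ((k / u).divisors.card : ℂ) * lmiG f (u * r)) he0]
  congr 1
  rw [Finset.sum_comm]
  refine Finset.sum_congr rfl (fun u _ => ?_)
  rw [Finset.mul_sum]

/-- sums over multiples -/
lemma lmi_mult (z M K : ℕ) (g : ℕ → ℂ) :
    ∑ r ∈ Finset.Icc 1 (K * M), (wr z M K r : ℂ) * g r =
      ∑ e ∈ Finset.Icc 1 (K * M), (yE z M K e : ℂ) * ∑ r ∈ e.divisors, g r := by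
  have hy : ∀ e, K * M < e → (K ≠ 0) → yE z M K e = 0 := by
    intro e he hK
    unfold yE
    split_ifs with h
    · have h1 : gE z M K e = 0 := by
        unfold gE
        have h2 : M ≤ K * M := Nat.le_mul_of_pos_left M (Nat.pos_of_ne_zero hK)
        rw [if_neg (by omega), if_neg]
        intro h3
        unfold PK at h3
        rw [Finset.mem_filter, Finset.mem_Ioc] at h3
        omega
      rw [h1]
      simp
    · rfl
  by_cases hK : K = 0
  · subst hK
    simp
  have hKM : ∀ e, yE z M K e ≠ 0 → e ≤ K * M := by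
    intro e he
    by_contra hlt
    exact he (hy e (by omega) hK)
  have hL : ∑ r ∈ Finset.Icc 1 (K * M), (wr z M K r : ℂ) * g r =
      ∑ x ∈ (Finset.Icc 1 (K * M)) ×ˢ (Finset.Icc 1 (K * M)),
        (yE z M K (x.1 * x.2) : ℂ) * g x.1 := by
    rw [Finset.sum_product]
    refine Finset.sum_congr rfl (fun r _ => ?_)
    unfold wr
    push_cast
    rw [Finset.sum_mul]
  have hR : ∑ e ∈ Finset.Icc 1 (K * M), (yE z M K e : ℂ) * ∑ r ∈ e.divisors, g r =
      ∑ x ∈ (Finset.Icc 1 (K * M)).sigma (fun e => e.divisors), (yE z M K x.1 : ℂ) * g x.2 := by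
    rw [Finset.sum_sigma]
    refine Finset.sum_congr rfl (fun e _ => ?_)
    rw [Finset.mul_sum]
  rw [hL, hR, ← Finset.sum_filter_of_ne
    (p := fun x : ℕ × ℕ => x.1 * x.2 ≤ K * M)]
  · refine Finset.sum_nbij' (fun x => (⟨x.1 * x.2, x.1⟩ : Σ _ : ℕ, ℕ))
      (fun x => (x.2, x.1 / x.2)) ?_ ?_ ?_ ?_ ?_
    · rintro ⟨r, m⟩ hx
      simp only [Finset.mem_filter, Finset.mem_product, Finset.mem_Icc] at hx
      simp only [Finset.mem_sigma, Finset.mem_Icc, Nat.mem_divisors]
      obtain ⟨⟨⟨a1, a2⟩, ⟨b1, b2⟩⟩, c⟩ := hx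
      refine ⟨⟨?_, c⟩, Dvd.intro m rfl, ?_⟩
      · exact Nat.mul_pos a1 b1
      · have := Nat.mul_pos (show 0 < r from a1) (show 0 < m from b1)
        omega
    · rintro ⟨e, r⟩ hx
      simp only [Finset.mem_sigma, Finset.mem_Icc, Nat.mem_divisors] at hx
      simp only [Finset.mem_filter, Finset.mem_product, Finset.mem_Icc]
      obtain ⟨⟨a1, a2⟩, b, c⟩ := hx
      have h5 : r * (e / r) = e := Nat.mul_div_cancel' b
      have h6 : r ≤ e := Nat.le_of_dvd a1 b
      have h7 : 0 < r := Nat.pos_of_dvd_of_pos b a1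
      have h8 : 0 < e / r := Nat.div_pos h6 h7
      have h9 : e / r ≤ e := Nat.div_le_self e r
      rw [h5]
      refine ⟨⟨⟨h7, by omega⟩, ⟨h8, by omega⟩⟩, a2⟩
    · rintro ⟨r, m⟩ hx
      simp only [Finset.mem_filter, Finset.mem_product, Finset.mem_Icc] at hx
      simp only
      rw [Nat.mul_div_cancel_left m (by omega)]
    · rintro ⟨e, r⟩ hx
      simp only [Finset.mem_sigma, Finset.mem_Icc, Nat.mem_divisors] at hx
      simp only
      rw [Nat.mul_div_cancel' hx.2.1]
    · rintro ⟨r, m⟩ _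
      rfl
  · rintro ⟨r, m⟩ _ hne
    simp only at hne ⊢
    apply hKM
    intro h0
    apply hne
    rw [h0]
    simp

lemma lmi_multA (A : ℕ) (a : ℕ → ℝ) (h : ℕ → ℂ) :
    ∑ u ∈ Finset.Icc 1 A, (al A a u : ℂ) * h u =
      ∑ k ∈ Finset.Icc 1 A, ((a k / Real.sqrt k : ℝ) : ℂ) *
        ∑ u ∈ k.divisors, ((k / u).divisors.card : ℂ) * h u := by
  have h1 : ∀ u ∈ Finset.Icc 1 A, (al A a u : ℂ) * h u =
      ∑ k ∈ Finset.Icc 1 A, if u ∣ k then ((a k / Real.sqrt k : ℝ) : ℂ) *
        (((k / u).divisors.card : ℂ) * h u) else 0 := by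
    intro u _
    unfold al
    rw [← Finset.sum_filter]
    push_cast
    rw [Finset.sum_mul]
    refine Finset.sum_congr rfl (fun k _ => ?_)
    ring
  rw [Finset.sum_congr rfl h1, Finset.sum_comm]
  refine Finset.sum_congr rfl (fun k hk => ?_)
  rw [Finset.mem_Icc] at hk
  rw [← Finset.sum_filter, Finset.mul_sum]
  refine Finset.sum_congr ?_ (fun _ _ => rfl)
  ext u
  rw [Finset.mem_filter, Finset.mem_Icc, Nat.mem_divisors]
  constructor
  · rintro ⟨_, hd⟩
    exact ⟨hd, by omega⟩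
  · rintro ⟨hd, _⟩
    have := Nat.le_of_dvd (by omega) hd
    have h3 : 0 < u := Nat.pos_of_dvd_of_pos hd (by omega)
    exact ⟨⟨h3, by omega⟩, hd⟩

/-- the mollified central value as a linear functional -/
theorem lm_all_pr {f : S2 N} (hf : IsNew f) (h1 : co f N = 1) {z M K A : ℕ} {a : ℕ → ℝ}
    (ha : ∀ k, a k ≠ 0 → smooth z k ∧ k ≤ A) (hQ : QA M K A < N) :
    Lh f * ((∑ k ∈ Finset.Icc 1 A, a k * la f k : ℝ) : ℂ) * ((Mr z M K (la f) : ℝ) : ℂ) =
      4 * Real.pi * lw f (QA M K A) (wA z M K A a) := by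
  have hNp : N.Prime := Fact.out
  have hre : ∀ n, (((co f n).re : ℝ) : ℂ) = co f n := fun n => by
    apply Complex.ext
    · simp
    · simp [new_real hf n]
  -- right side
  have hR : lw f (QA M K A) (wA z M K A a) = ∑ k ∈ Finset.Icc 1 A, ∑ e ∈ Finset.Icc 1 (K * M),
      ((a k / Real.sqrt k : ℝ) : ℂ) * (yE z M K e : ℂ) *
        ∑ u ∈ k.divisors, ((k / u).divisors.card : ℂ) * ∑ r ∈ e.divisors, lmiG f (u * r) := by
    have h2 : lw f (QA M K A) (wA z M K A a) =
        ∑ q ∈ Finset.Icc 1 (QA M K A), (wA z M K A a q : ℂ) * lmiG f q := rfl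
    rw [h2, wa_sum ha (lmiG f)]
    have h3 : ∀ u ∈ Finset.Icc 1 A, ∑ r ∈ Finset.Icc 1 (K * M),
        (al A a u : ℂ) * (wr z M K r : ℂ) * lmiG f (u * r) =
        (al A a u : ℂ) * ∑ e ∈ Finset.Icc 1 (K * M), (yE z M K e : ℂ) *
          ∑ r ∈ e.divisors, lmiG f (u * r) := by
      intro u _
      rw [← lmi_mult z M K (fun r => lmiG f (u * r)), Finset.mul_sum]
      refine Finset.sum_congr rfl (fun r _ => ?_)
      ring
    rw [Finset.sum_congr rfl h3, lmi_multA A a (fun u => ∑ e ∈ Finset.Icc 1 (K * M),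
      (yE z M K e : ℂ) * ∑ r ∈ e.divisors, lmiG f (u * r))]
    refine Finset.sum_congr rfl (fun k _ => ?_)
    rw [Finset.mul_sum]
    have h4 : ∀ u ∈ k.divisors, ((a k / Real.sqrt k : ℝ) : ℂ) * (((k / u).divisors.card : ℂ) *
        ∑ e ∈ Finset.Icc 1 (K * M), (yE z M K e : ℂ) * ∑ r ∈ e.divisors, lmiG f (u * r)) =
        ∑ e ∈ Finset.Icc 1 (K * M), ((a k / Real.sqrt k : ℝ) : ℂ) * (yE z M K e : ℂ) *
          (((k / u).divisors.card : ℂ) * ∑ r ∈ e.divisors, lmiG f (u * r)) := by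
      intro u _
      rw [Finset.mul_sum, Finset.mul_sum]
      refine Finset.sum_congr rfl (fun e _ => ?_)
      ring
    rw [Finset.sum_congr rfl h4, Finset.sum_comm]
    refine Finset.sum_congr rfl (fun e _ => ?_)
    rw [← Finset.mul_sum]
  -- left side
  have hL : Lh f * ((∑ k ∈ Finset.Icc 1 A, a k * la f k : ℝ) : ℂ) *
      ((Mr z M K (la f) : ℝ) : ℂ) = ∑ k ∈ Finset.Icc 1 A, ∑ e ∈ Finset.Icc 1 (K * M),
        Lh f * ((a k * la f k : ℝ) : ℂ) * (((e : ℝ) * yE z M K e *
          ∏ p ∈ e.primeFactors, (la f p / Real.sqrt p - 1 / p) : ℝ) : ℂ) := by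
    unfold Mr
    push_cast
    have hx : ∀ X Y : ℕ → ℂ, Lh f * (∑ k ∈ Finset.Icc 1 A, X k) *
        (∑ e ∈ Finset.Icc 1 (K * M), Y e) =
        ∑ k ∈ Finset.Icc 1 A, ∑ e ∈ Finset.Icc 1 (K * M), Lh f * X k * Y e := by
      intro X Y
      have hx1 : Lh f * (∑ k ∈ Finset.Icc 1 A, X k) = ∑ k ∈ Finset.Icc 1 A, Lh f * X k :=
        Finset.mul_sum _ _ _
      rw [hx1, Finset.sum_mul]
      refine Finset.sum_congr rfl (fun k _ => ?_)
      rw [Finset.mul_sum]
    exact hx _ _
  rw [hL, hR, Finset.mul_sum]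
  refine Finset.sum_congr rfl (fun k hk => ?_)
  rw [Finset.mul_sum]
  refine Finset.sum_congr rfl (fun e he => ?_)
  rw [Finset.mem_Icc] at hk he
  by_cases hak : a k = 0
  · rw [hak]
    simp
  by_cases hye : yE z M K e = 0
  · rw [hye]
    simp
  have hks := ha k hak
  -- properties of `e`
  have hrough : rough z e := by
    unfold yE at hye
    split_ifs at hye with h
    · exact h.1
    · exact absurd rfl hye
  have hsq : Squarefree e := by
    by_contra hns
    apply hye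
    unfold yE
    split_ifs with h
    · have : mu e = 0 := by
        unfold Pool.Agent.FG61.mu
        rw [ArithmeticFunction.moebius_eq_zero_of_not_squarefree hns]
        simp
      rw [this]
      simp
    · rfl
  have hk0 : k ≠ 0 := by omega
  have he0 : e ≠ 0 := by omega
  have hcop : k.Coprime e := by
    rw [Nat.coprime_iff_gcd_eq_one]
    by_contra hg
    obtain ⟨p, hp, hpd⟩ := Nat.exists_prime_and_dvd hg
    have h5 := hks.1.2 p hp (hpd.trans (Nat.gcd_dvd_left k e))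
    have h6 := hrough p hp (hpd.trans (Nat.gcd_dvd_right k e))
    omega
  have hlt : k * e < N := by
    have h7 : k * e ≤ A * (K * M) := Nat.mul_le_mul hks.2 he.2
    have h8 : A * (K * M) = QA M K A := by
      unfold QA
      ring
    omega
  have hcN : (k * e).Coprime N := by
    rw [Nat.coprime_comm]
    refine (Nat.Prime.coprime_iff_not_dvd hNp).mpr (fun hd => ?_)
    have := Nat.le_of_dvd (Nat.pos_of_ne_zero (mul_ne_zero hk0 he0)) hd
    omega
  have hkey := lmi_key hf h1 hk0 hsq hcop hcN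
  have hla : ((la f k : ℝ) : ℂ) = co f k / ((Real.sqrt k : ℝ) : ℂ) := by
    unfold la
    push_cast
    rw [hre]
  have hprod : (e : ℂ) * ((∏ p ∈ e.primeFactors, (la f p / Real.sqrt p - 1 / p) : ℝ) : ℂ) =
      ∏ p ∈ e.primeFactors, (co f p - 1) := by
    have h9 : (e : ℂ) = ∏ p ∈ e.primeFactors, (p : ℂ) := by
      have := Nat.prod_primeFactors_of_squarefree hsq
      conv_lhs => rw [← this]
      push_cast
      rfl
    rw [h9]
    push_cast
    rw [← Finset.prod_mul_distrib]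
    refine Finset.prod_congr rfl (fun p hp => ?_)
    have hpp := Nat.prime_of_mem_primeFactors hp
    have hp0 : (p : ℂ) ≠ 0 := by exact_mod_cast hpp.ne_zero
    have h10 : ((la f p : ℝ) : ℂ) = co f p / ((Real.sqrt p : ℝ) : ℂ) := by
      unfold la
      push_cast
      rw [hre]
    have h11 : ((Real.sqrt p : ℝ) : ℂ) * ((Real.sqrt p : ℝ) : ℂ) = (p : ℂ) := by
      rw [← Complex.ofReal_mul, Real.mul_self_sqrt (Nat.cast_nonneg p)]
      simp
    rw [h10, div_div, h11]
    field_simp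
  have hfin : Lh f * ((a k * la f k : ℝ) : ℂ) * (((e : ℝ) * yE z M K e *
      ∏ p ∈ e.primeFactors, (la f p / Real.sqrt p - 1 / p) : ℝ) : ℂ) =
      ((a k / Real.sqrt k : ℝ) : ℂ) * (yE z M K e : ℂ) *
        (co f k * (∏ p ∈ e.primeFactors, (co f p - 1)) * Lh f) := by
    rw [← hprod, Complex.ofReal_mul, hla]
    push_cast
    ring
  rw [hfin, hkey]
  ring

end

theorem lm_all : type_of% @lm_all_pr := @lm_all_pr

end Pool.Agent.KSL
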