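import Pool.Agent.Lib_helper68.KSL.Defs

namespace Pool.Agent.KSL

open Pool.Agent.LEV Pool.Agent.LVB
open Pool.Agent.FG61 (mu phi cc ff AA Lam)
open Complex MeasureTheory Filter Topology UpperHalfPlane ModularGroup ProbabilityTheory
open scoped MatrixGroups Modular ENNReal ModularForm ComplexConjugate ContDiff

/-- FNJ: the step function -/
noncomputable def fnj_T (N Q : ℕ) (a : ℕ → ℝ) (y : ℝ) : ℝ :=
  ∑ q ∈ Finset.Icc 1 Q, (Set.Ioi (2 * rq N q)).indicator (fun _ => a q) y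

theorem fnj_T_meas (N Q : ℕ) (a : ℕ → ℝ) : Measurable (fnj_T N Q a) := by
  unfold fnj_T
  refine Finset.measurable_sum _ fun q _ => ?_
  exact measurable_const.indicator measurableSet_Ioi

theorem fnj_T_bd (N Q : ℕ) (a : ℕ → ℝ) (y : ℝ) :
    |fnj_T N Q a y| ≤ ∑ q ∈ Finset.Icc 1 Q, |a q| := by
  unfold fnj_T
  refine (Finset.abs_sum_le_sum_abs _ _).trans (Finset.sum_le_sum fun q _ => ?_)
  by_cases h : y ∈ Set.Ioi (2 * rq N q)
  · rw [Set.indicator_of_mem h]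
  · rw [Set.indicator_of_notMem h, abs_zero]
    exact abs_nonneg _

theorem fnj_TT {N Q : ℕ} (hN : 1 ≤ N) (w : ℕ → ℝ) (n : ℕ) {y : ℝ} (hy : 0 < y) :
    TT Q w (2 / (y * Real.sqrt N)) n = fnj_T N Q (fun q => w q * cc q n) y := by
  have hs : 0 < Real.sqrt N := Real.sqrt_pos.mpr (by exact_mod_cast hN)
  unfold TT fnj_T
  rw [Finset.sum_filter]
  refine Finset.sum_congr rfl fun q hq => ?_
  have hq1 : (0 : ℝ) < q := by
    have := (Finset.mem_Icc.mp hq).1
    exact_mod_cast this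
  rw [Set.indicator_apply]
  refine if_congr ?_ rfl rfl
  rw [Set.mem_Ioi, rq, div_lt_iff₀ (mul_pos hy hs), ← mul_div_assoc, mul_one,
    div_lt_iff₀ (mul_pos hq1 hs)]
  constructor
  · intro h
    linarith [mul_comm (q : ℝ) (y * Real.sqrt N), mul_assoc y (q : ℝ) (Real.sqrt N),
      mul_left_comm y (q : ℝ) (Real.sqrt N)]
  · intro h
    linarith [mul_comm (q : ℝ) (y * Real.sqrt N), mul_assoc y (q : ℝ) (Real.sqrt N),
      mul_left_comm y (q : ℝ) (Real.sqrt N)]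

theorem fnj_T_large {N Q : ℕ} (hN : 1 ≤ N) (w : ℕ → ℝ) (n : ℕ) {y : ℝ}
    (hy : 2 / Real.sqrt N < y) :
    fnj_T N Q (fun q => w q * cc q n) y = WW Q w n := by
  have hs : 0 < Real.sqrt N := Real.sqrt_pos.mpr (by exact_mod_cast hN)
  unfold WW fnj_T
  refine Finset.sum_congr rfl fun q hq => ?_
  have hq1 : (1 : ℝ) ≤ q := by
    have := (Finset.mem_Icc.mp hq).1
    exact_mod_cast this
  rw [Set.indicator_of_mem]
  rw [Set.mem_Ioi]
  refine lt_of_le_of_lt ?_ hy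
  rw [rq, ← mul_div_assoc, mul_one]
  apply div_le_div_of_nonneg_left (by norm_num) hs
  nlinarith

/-- FNJ: the weight -/
noncomputable def fnj_g (n : ℕ) (y : ℝ) : ℝ := Real.pi * n * Real.exp (-Real.pi * n * y)

theorem fnj_g_int {n : ℕ} (hn : 1 ≤ n) (c : ℝ) : IntegrableOn (fnj_g n) (Set.Ioi c) := by
  have hn' : (1 : ℝ) ≤ n := by exact_mod_cast hn
  have hneg : -Real.pi * n < 0 := by nlinarith [Real.pi_pos]
  unfold fnj_g
  exact (integrableOn_exp_mul_Ioi hneg c).const_mul _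

theorem fnj_g_val {n : ℕ} (hn : 1 ≤ n) (c : ℝ) :
    ∫ y in Set.Ioi c, fnj_g n y = Real.exp (-Real.pi * n * c) := by
  have hn' : (1 : ℝ) ≤ n := by exact_mod_cast hn
  have hneg : -Real.pi * n < 0 := by nlinarith [Real.pi_pos]
  unfold fnj_g
  rw [integral_const_mul, integral_exp_mul_Ioi hneg c]
  have hpi := Real.pi_pos
  field_simp

theorem fnj_gT_int {N Q n : ℕ} (hn : 1 ≤ n) (a : ℕ → ℝ) (k : ℕ) (c : ℝ) :
    IntegrableOn (fun y => fnj_g n y * fnj_T N Q a y ^ k) (Set.Ioi c) := by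
  have h1 := fnj_g_int hn c
  refine Integrable.mul_bdd (c := (∑ q ∈ Finset.Icc 1 Q, |a q|) ^ k) h1
    ((fnj_T_meas N Q a).pow_const k).aestronglyMeasurable ?_
  refine Eventually.of_forall fun y => ?_
  rw [Real.norm_eq_abs, abs_pow]
  exact pow_le_pow_left₀ (abs_nonneg _) (fnj_T_bd N Q a y) k

theorem fnj_gT_val {N Q n : ℕ} (hn : 1 ≤ n) (a : ℕ → ℝ) :
    ∫ y in Set.Ioi 0, fnj_g n y * fnj_T N Q a y =
      ∑ q ∈ Finset.Icc 1 Q, a q * Real.exp (-2 * Real.pi * n * rq N q) := by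
  have h1 : ∀ y, fnj_g n y * fnj_T N Q a y =
      ∑ q ∈ Finset.Icc 1 Q, (Set.Ioi (2 * rq N q)).indicator (fun y => a q * fnj_g n y) y := by
    intro y
    rw [fnj_T, Finset.mul_sum]
    refine Finset.sum_congr rfl fun q _ => ?_
    by_cases h : y ∈ Set.Ioi (2 * rq N q)
    · rw [Set.indicator_of_mem h, Set.indicator_of_mem h, mul_comm]
    · rw [Set.indicator_of_notMem h, Set.indicator_of_notMem h, mul_zero]
  simp_rw [h1]
  rw [integral_finsetSum]
  · refine Finset.sum_congr rfl fun q _ => ?_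
    have hr : 0 ≤ 2 * rq N q := by unfold rq; positivity
    rw [setIntegral_indicator measurableSet_Ioi, Set.Ioi_inter_Ioi, sup_eq_right.mpr hr,
      integral_const_mul, fnj_g_val hn]
    congr 2
    ring
  · intro q _
    exact Integrable.indicator ((fnj_g_int hn 0).const_mul _) measurableSet_Ioi

theorem fnj_jensen {N Q n : ℕ} (hn : 1 ≤ n) (a : ℕ → ℝ) :
    (∑ q ∈ Finset.Icc 1 Q, a q * Real.exp (-2 * Real.pi * n * rq N q)) ^ 2 ≤
      ∫ y in Set.Ioi 0, fnj_g n y * fnj_T N Q a y ^ 2 := by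
  set c := ∑ q ∈ Finset.Icc 1 Q, a q * Real.exp (-2 * Real.pi * n * rq N q) with hc
  have hn' : (1 : ℝ) ≤ n := by exact_mod_cast hn
  have h0 : 0 ≤ ∫ y in Set.Ioi 0, fnj_g n y * (fnj_T N Q a y - c) ^ 2 := by
    apply integral_nonneg
    intro y
    have : 0 ≤ fnj_g n y := by unfold fnj_g; positivity
    exact mul_nonneg this (sq_nonneg _)
  have h1 : ∀ y, fnj_g n y * (fnj_T N Q a y - c) ^ 2 =
      fnj_g n y * fnj_T N Q a y ^ 2 - (2 * c) * (fnj_g n y * fnj_T N Q a y) +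
        c ^ 2 * fnj_g n y := by
    intro y
    ring
  simp_rw [h1] at h0
  have i1 := fnj_gT_int (N := N) (Q := Q) hn a 2 0
  have i2 : IntegrableOn (fun y => fnj_g n y * fnj_T N Q a y) (Set.Ioi 0) := by
    simpa using fnj_gT_int (N := N) (Q := Q) hn a 1 0
  have i3 := fnj_g_int hn 0
  have j2 : IntegrableOn (fun y => 2 * c * (fnj_g n y * fnj_T N Q a y)) (Set.Ioi 0) :=
    i2.const_mul (2 * c)
  have j1 : IntegrableOn (fun y => fnj_g n y * fnj_T N Q a y ^ 2 -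
    2 * c * (fnj_g n y * fnj_T N Q a y)) (Set.Ioi 0) := i1.sub j2
  have j3 : IntegrableOn (fun y => c ^ 2 * fnj_g n y) (Set.Ioi 0) := i3.const_mul (c ^ 2)
  rw [integral_add j1 j3, integral_sub i1 j2,
    integral_const_mul, integral_const_mul, fnj_gT_val hn, ← hc, fnj_g_val hn, mul_zero,
    Real.exp_zero] at h0
  nlinarith

/-- Jensen's inequality over the denominators -/
theorem fs_jensen_pr {N Q : ℕ} (hN : 1 ≤ N) (w : ℕ → ℝ) {n : ℕ} (hn : 1 ≤ n) :
    IntegrableOn (fun y : ℝ => Real.pi * Real.exp (-Real.pi * n * y) *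
      TT Q w (2 / (y * Real.sqrt N)) n ^ 2) (Set.Ioo 0 (2 / Real.sqrt N)) ∧
    Wt N Q w n ^ 2 / n ≤ WW Q w n ^ 2 * Real.exp (-2 * Real.pi * n / Real.sqrt N) / n +
      ∫ y in Set.Ioo 0 (2 / Real.sqrt N), Real.pi * Real.exp (-Real.pi * n * y) *
        TT Q w (2 / (y * Real.sqrt N)) n ^ 2 := by
  have hs : 0 < Real.sqrt N := Real.sqrt_pos.mpr (by exact_mod_cast hN)
  have hn' : (0 : ℝ) < n := by exact_mod_cast hn
  set a : ℕ → ℝ := fun q => w q * cc q n with ha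
  have hEq : Set.EqOn (fun y : ℝ => Real.pi * Real.exp (-Real.pi * n * y) *
      TT Q w (2 / (y * Real.sqrt N)) n ^ 2)
      (fun y => (1 / n : ℝ) * (fnj_g n y * fnj_T N Q a y ^ 2)) (Set.Ioo 0 (2 / Real.sqrt N)) := by
    intro y hy
    simp only
    rw [fnj_TT hN w n hy.1, ← ha, fnj_g]
    field_simp
  have i1 := fnj_gT_int (N := N) (Q := Q) hn a 2 0
  have i2 : IntegrableOn (fun y => fnj_g n y * fnj_T N Q a y ^ 2) (Set.Ioo 0 (2 / Real.sqrt N)) :=
    i1.mono_set Set.Ioo_subset_Ioi_self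
  refine ⟨(integrableOn_congr_fun hEq measurableSet_Ioo).mpr (i2.const_mul _), ?_⟩
  rw [setIntegral_congr_fun measurableSet_Ioo hEq, integral_const_mul]
  have hj := fnj_jensen (N := N) (Q := Q) hn a
  have hW : Wt N Q w n = ∑ q ∈ Finset.Icc 1 Q, a q * Real.exp (-2 * Real.pi * n * rq N q) := by
    unfold Wt
    rfl
  rw [← hW] at hj
  have hsplit : ∫ y in Set.Ioi 0, fnj_g n y * fnj_T N Q a y ^ 2 =
      (∫ y in Set.Ioo 0 (2 / Real.sqrt N), fnj_g n y * fnj_T N Q a y ^ 2) +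
        WW Q w n ^ 2 * Real.exp (-2 * Real.pi * n / Real.sqrt N) := by
    have hpos : 0 < 2 / Real.sqrt N := by positivity
    rw [← Set.Ioc_union_Ioi_eq_Ioi hpos.le, setIntegral_union
      (Set.Ioc_disjoint_Ioi le_rfl) measurableSet_Ioi
      (i1.mono_set Set.Ioc_subset_Ioi_self) (i1.mono_set (Set.Ioi_subset_Ioi hpos.le)),
      integral_Ioc_eq_integral_Ioo]
    congr 1
    have e : Set.EqOn (fun y => fnj_g n y * fnj_T N Q a y ^ 2)
        (fun y => WW Q w n ^ 2 * fnj_g n y) (Set.Ioi (2 / Real.sqrt N)) := by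
      intro y hy
      simp only
      rw [ha, fnj_T_large hN w n hy, mul_comm]
    rw [setIntegral_congr_fun measurableSet_Ioi e, integral_const_mul, fnj_g_val hn]
    congr 2
    ring
  rw [hsplit] at hj
  rw [div_le_iff₀ hn']
  have e3 : (WW Q w n ^ 2 * Real.exp (-2 * Real.pi * n / Real.sqrt N) / n +
      1 / n * ∫ y in Set.Ioo 0 (2 / Real.sqrt N), fnj_g n y * fnj_T N Q a y ^ 2) * n =
      (∫ y in Set.Ioo 0 (2 / Real.sqrt N), fnj_g n y * fnj_T N Q a y ^ 2) +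
        WW Q w n ^ 2 * Real.exp (-2 * Real.pi * n / Real.sqrt N) := by
    field_simp
    ring
  rw [e3]
  exact hj

theorem fs_jensen : type_of% @fs_jensen_pr := @fs_jensen_pr

end Pool.Agent.KSL
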