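import Pool.Agent.Lib_helper68.KSL.Defs
import Pool.Agent.Lib_helper68.KSLF.BGI
import Pool.Agent.Lib_helper68.KSLF.BPT
import Pool.Agent.Lib_helper68.KSLF.FNJ
import Pool.Agent.Lib_helper68.KSLF.HGN

namespace Pool.Agent.KSL

open Pool.Agent.LEV Pool.Agent.LVB
open Complex MeasureTheory Filter Topology UpperHalfPlane ModularGroup ProbabilityTheory
open scoped MatrixGroups Modular ENNReal ModularForm ComplexConjugate ContDiff

noncomputable def fnm_g (u : ℝ) : ℝ := Real.pi * Real.exp (-Real.pi * max u 0)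

theorem fnm_g_eq {u : ℝ} (hu : 0 < u) : fnm_g u = Real.pi * Real.exp (-Real.pi * u) := by
  unfold fnm_g
  rw [max_eq_left hu.le]

theorem fnm_int : IntegrableOn (fun u : ℝ => Real.pi * Real.exp (-Real.pi * u)) (Set.Ioi 0) :=
  (integrableOn_exp_mul_Ioi (neg_neg_of_pos Real.pi_pos) 0).const_mul _

theorem fnm_kg : Kg fnm_g Real.pi := by
  refine ⟨?_, ?_, ?_, ?_⟩
  · intro u hu v hv huv
    rw [fnm_g_eq hu, fnm_g_eq hv]
    apply mul_le_mul_of_nonneg_left _ Real.pi_pos.le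
    apply Real.exp_le_exp.mpr
    nlinarith [Real.pi_pos]
  · intro u
    unfold fnm_g
    positivity
  · intro u
    unfold fnm_g
    have h1 : Real.exp (-Real.pi * max u 0) ≤ 1 := by
      apply Real.exp_le_one_iff.mpr
      have := Real.pi_pos
      have h2 := le_max_right u 0
      nlinarith
    have := Real.pi_pos
    nlinarith
  · exact fnm_int.congr_fun (fun u hu => (fnm_g_eq hu).symm) measurableSet_Ioi

theorem fnm_g_int : ∫ u in Set.Ioi (0 : ℝ), fnm_g u = 1 := by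
  rw [setIntegral_congr_fun measurableSet_Ioi (fun u hu => fnm_g_eq hu)]
  rw [integral_const_mul, integral_exp_mul_Ioi (neg_neg_of_pos Real.pi_pos) 0]
  have := Real.pi_pos.ne'
  simp

theorem fnm_shift (F : ℕ → ℝ) (X : ℕ) :
    ∑ n ∈ Finset.Icc 1 X, F n = ∑ n ∈ Finset.range X, F (n + 1) := by
  induction X with
  | zero => simp
  | succ X ih => rw [Finset.sum_Icc_succ_top (by omega), Finset.sum_range_succ, ih]

theorem fs_norm_pr {δ : ℝ} (h0 : 0 < δ) (h1 : δ < 1 / 4) (C₀ : ℝ) :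
    ∃ ε₁ κ C₁ : ℝ, 0 < ε₁ ∧ 0 < κ ∧ ∀ ε₂ : ℝ, 0 < ε₂ → ε₂ ≤ ε₁ → ∃ N₀ : ℕ, ∀ N : ℕ, N₀ ≤ N →
    ∀ a : ℕ → ℝ, Sht (zz N) (KA ε₂ N) a → cn (zz N) (KA ε₂ N) a ≤ C₀ → ∀ s : ℕ → ℝ,
    (∀ m, s m ≠ 0 → m ≤ KA ε₂ N) → cd (zz N) (KA ε₂ N) a s ≤ κ →
      ∑ n ∈ Finset.Icc 1 (X1 δ N),
        (2 * Wt N (QQ δ ε₂ N) (ww δ ε₂ N a) n / Real.sqrt n) ^ 2 ≤ C₁ := by
  obtain ⟨ε₁, κ, hε₁, hκ, hb⟩ := bulk_gen h0 h1 (ε := 1) one_pos C₀ fnm_kg
  obtain ⟨N₁, hh⟩ := high_gen h0 h1 (ε := 1) one_pos C₀ 1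
  refine ⟨min ε₁ (δ / 40), κ, 4 * ((5 / 2 * |C₀| + 1) + (|C₀| / 2 + 1)),
    lt_min hε₁ (by positivity), hκ, fun ε₂ h2 h3 => ?_⟩
  obtain ⟨N₂, hb2⟩ := hb ε₂ h2 (h3.trans (min_le_left _ _))
  obtain ⟨N₃, hp⟩ := bulk_point h0 h1 (ε := 1) one_pos fnm_kg h2 (h3.trans (min_le_right _ _))
  refine ⟨N₁ + N₂ + N₃ + 1, fun N hN a ha hcn s hs hcd => ?_⟩
  have hN1 : 1 ≤ N := by omega
  have hNr : (0 : ℝ) < N := by exact_mod_cast hN1
  have hsN : 0 < Real.sqrt N := Real.sqrt_pos.mpr hNr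
  set Q := QQ δ ε₂ N with hQ
  set w := ww δ ε₂ N a with hw
  obtain ⟨hbi, hbv⟩ := hb2 N (by omega) a ha hcn s hs hcd
  rw [fnm_g_int, one_mul] at hbv
  -- the high part
  obtain ⟨hhs, hhv⟩ := hh N (by omega) (KA ε₂ N) a ha.sup hcn
    (fun n => Real.exp (-2 * Real.pi * n / Real.sqrt N)) (by
      intro n
      refine ⟨(Real.exp_pos _).le, ?_, ?_⟩
      · apply Real.exp_le_one_iff.mpr
        have : (0 : ℝ) ≤ 2 * Real.pi * n / Real.sqrt N := by positivity
        have h4 : -2 * Real.pi * n / Real.sqrt N = -(2 * Real.pi * n / Real.sqrt N) := by ring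
        rw [h4]; linarith
      · set x : ℝ := n / Real.sqrt N with hx
        have hx0 : 0 ≤ x := by positivity
        have h4 : -2 * Real.pi * n / Real.sqrt N = -(2 * Real.pi * x) := by rw [hx]; ring
        have h5 : (n : ℝ) ^ 2 = N * x ^ 2 := by
          rw [hx, div_pow, Real.sq_sqrt hNr.le]
          field_simp
        rw [h4, h5, one_mul]
        have h6 : x ^ 2 ≤ Real.exp (2 * Real.pi * x) := by
          have h7 : x + 1 ≤ Real.exp x := Real.add_one_le_exp x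
          have h8 : Real.exp (2 * x) ≤ Real.exp (2 * Real.pi * x) := by
            apply Real.exp_le_exp.mpr
            have := Real.pi_gt_three
            nlinarith
          have h9 : Real.exp (2 * x) = Real.exp x ^ 2 := by
            rw [← Real.exp_nat_mul]
            norm_num
          have h10 : x ^ 2 ≤ Real.exp x ^ 2 := pow_le_pow_left₀ hx0 (by linarith) 2
          linarith
        rw [Real.exp_neg]
        have h7 : 0 < Real.exp (2 * Real.pi * x) := Real.exp_pos _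
        calc (Real.exp (2 * Real.pi * x))⁻¹ * ((N : ℝ) * x ^ 2)
            = (N : ℝ) * (x ^ 2 / Real.exp (2 * Real.pi * x)) := by field_simp
          _ ≤ (N : ℝ) * 1 := by
            apply mul_le_mul_of_nonneg_left _ hNr.le
            rw [div_le_one h7]; exact h6
          _ = N := mul_one _)
  have hd : 1 / (1 - 2 * δ) ≤ 2 := by
    rw [div_le_iff₀ (by linarith)]
    linarith
  have hd0 : 0 < 1 / (1 - 2 * δ) := by
    have : 0 < 1 - 2 * δ := by linarith
    positivity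
  have hcn0 : 0 ≤ cn (zz N) (KA ε₂ N) a := by
    unfold cn
    apply tsum_nonneg
    intro m
    split_ifs
    · positivity
    · exact le_refl _
  have hC : cn (zz N) (KA ε₂ N) a ≤ |C₀| := hcn.trans (le_abs_self _)
  have hhv' : ∑ n ∈ Finset.Icc 1 (X1 δ N), WW Q w n ^ 2 *
      Real.exp (-2 * Real.pi * n / Real.sqrt N) / n ≤ 5 / 2 * |C₀| + 1 := by
    have h4 : ∑ n ∈ Finset.Icc 1 (X1 δ N), WW Q w n ^ 2 *
      Real.exp (-2 * Real.pi * n / Real.sqrt N) / n ≤ ∑' n : ℕ, WW Q w n ^ 2 *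
      Real.exp (-2 * Real.pi * n / Real.sqrt N) / n :=
      hhs.sum_le_tsum _ (fun n _ => by positivity)
    refine h4.trans (hhv.trans ?_)
    nlinarith
  have hlow : ∑ n ∈ Finset.Icc 1 (X1 δ N), ∫ y in Set.Ioo 0 (2 / Real.sqrt N),
      Real.pi * Real.exp (-Real.pi * n * y) * TT Q w (2 / (y * Real.sqrt N)) n ^ 2 ≤
      |C₀| / 2 + 1 := by
    rw [← integral_finsetSum _ (fun n hn => (fs_jensen hN1 w (Finset.mem_Icc.mp hn).1).1)]
    refine le_trans ?_ (hbv.trans (by linarith))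
    apply setIntegral_mono_on _ hbi measurableSet_Ioo
    · intro y hy
      obtain ⟨-, hps, -⟩ := hp N (by omega) a ha y hy.1 hy.2
      have h4 : ∑ n ∈ Finset.Icc 1 (X1 δ N), Real.pi * Real.exp (-Real.pi * n * y) *
          TT Q w (2 / (y * Real.sqrt N)) n ^ 2 =
          ∑ n ∈ Finset.range (X1 δ N), fnm_g ((n + 1) * y) *
            TT Q w (2 / (y * Real.sqrt N)) (n + 1) ^ 2 := by
        rw [fnm_shift]
        apply Finset.sum_congr rfl
        intro n _
        have h5 : (0 : ℝ) < ((n : ℝ) + 1) * y := mul_pos (by positivity) hy.1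
        rw [fnm_g_eq h5]
        push_cast
        congr 3
        ring
      rw [h4]
      have h5 := hps.sum_le_tsum (Finset.range (X1 δ N)) (fun n _ =>
        mul_nonneg (fnm_kg.nonneg _) (sq_nonneg _))
      have h6 : 0 ≤ TT Q w (2 / (y * Real.sqrt N)) 0 ^ 2 := sq_nonneg _
      linarith
    · exact integrable_finsetSum _
        (fun n hn => (fs_jensen hN1 w (Finset.mem_Icc.mp hn).1).1)
  calc ∑ n ∈ Finset.Icc 1 (X1 δ N), (2 * Wt N Q w n / Real.sqrt n) ^ 2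
      ≤ ∑ n ∈ Finset.Icc 1 (X1 δ N), 4 * (WW Q w n ^ 2 *
          Real.exp (-2 * Real.pi * n / Real.sqrt N) / n + ∫ y in Set.Ioo 0 (2 / Real.sqrt N),
          Real.pi * Real.exp (-Real.pi * n * y) * TT Q w (2 / (y * Real.sqrt N)) n ^ 2) := by
        apply Finset.sum_le_sum
        intro n hn
        have h4 := (fs_jensen (Q := Q) hN1 w (Finset.mem_Icc.mp hn).1).2
        have h5 : (2 * Wt N Q w n / Real.sqrt n) ^ 2 = 4 * (Wt N Q w n ^ 2 / n) := by
          rw [div_pow, mul_pow, Real.sq_sqrt (Nat.cast_nonneg n)]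
          ring
        rw [h5]
        linarith
    _ = 4 * (∑ n ∈ Finset.Icc 1 (X1 δ N), WW Q w n ^ 2 *
          Real.exp (-2 * Real.pi * n / Real.sqrt N) / n +
          ∑ n ∈ Finset.Icc 1 (X1 δ N), ∫ y in Set.Ioo 0 (2 / Real.sqrt N),
          Real.pi * Real.exp (-Real.pi * n * y) * TT Q w (2 / (y * Real.sqrt N)) n ^ 2) := by
        rw [← Finset.mul_sum, Finset.sum_add_distrib]
    _ ≤ _ := by linarith

theorem fs_norm : type_of% @fs_norm_pr := @fs_norm_pr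

end Pool.Agent.KSL
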