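import Pool.Agent.Lib_helper68.KSL.Defs
import Pool.Agent.Lib_helper41.LVBF.HPM
import Pool.Agent.Lib_helper68.KSLF.PCH
import Pool.Agent.Lib_helper68.KSLF.PEX
import Pool.Agent.Lib_helper68.KSLF.WKC

/-! KSL, block PNP -/

namespace Pool.Agent.KSL

open Pool.Agent.LEV Pool.Agent.LVB
open Pool.Agent.FG61 (mu phi cc ff AA Lam)
open Complex MeasureTheory Filter Topology UpperHalfPlane ModularGroup ProbabilityTheory
open scoped MatrixGroups Modular ENNReal ModularForm ComplexConjugate ContDiff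

lemma PNP_meas (N : ℕ) : Measurable (Pn N) := by
  unfold Pn PB
  exact (Finset.measurable_fun_sum _ fun p _ => (measurable_pi_apply p).div_const _).div_const _

lemma PNP_mom (k : ℕ) : ∃ (C : ℝ) (N₀ : ℕ), ∀ N : ℕ, N₀ ≤ N → ∀ P : Measure (ℕ → ℝ),
    IsST (IN N) P → Integrable (fun x => Pn N x ^ k) P ∧ ∫ x, |Pn N x| ^ k ∂P ≤ C := by
  obtain ⟨C, N₀, h⟩ := pn_exp 1
  refine ⟨k.factorial * C, N₀, fun N hN P hP => ?_⟩
  obtain ⟨h1, h2⟩ := h N hN P hP
  simp only [one_mul] at h1 h2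
  have hle : ∀ x, |Pn N x| ^ k ≤ k.factorial * Real.exp |Pn N x| := by
    intro x
    have h3 := Real.pow_div_factorial_le_exp |Pn N x| (abs_nonneg _) k
    have hk : (0 : ℝ) < k.factorial := by exact_mod_cast k.factorial_pos
    rw [div_le_iff₀ hk] at h3
    linarith
  have hI : Integrable (fun x => |Pn N x| ^ k) P := by
    refine (h1.const_mul (k.factorial : ℝ)).mono'
      ((PNP_meas N).abs.pow_const k).aestronglyMeasurable (ae_of_all _ fun x => ?_)
    rw [Real.norm_of_nonneg (by positivity)]; exact hle x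
  refine ⟨?_, ?_⟩
  · refine hI.mono' ((PNP_meas N).pow_const k).aestronglyMeasurable (ae_of_all _ fun x => ?_)
    rw [Real.norm_eq_abs, abs_pow]
  · calc ∫ x, |Pn N x| ^ k ∂P ≤ ∫ x, k.factorial * Real.exp |Pn N x| ∂P :=
          integral_mono hI (h1.const_mul _) hle
      _ = k.factorial * ∫ x, Real.exp |Pn N x| ∂P := integral_const_mul _ _
      _ ≤ _ := mul_le_mul_of_nonneg_left h2 (by positivity)

/-- the normalised sum is almost surely bounded -/
lemma PNP_bdd (N : ℕ) {P : Measure (ℕ → ℝ)} (hP : IsST (IN N) P) (k : ℕ) :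
    Integrable (fun x => Pn N x ^ k) P := by
  have := hP.prob
  set B : ℝ := (∑ p ∈ IN N, 2 / Real.sqrt p) / Real.sqrt (HB (IN N)) with hB
  refine Integrable.of_bound ((PNP_meas N).pow_const k).aestronglyMeasurable (B ^ k) ?_
  filter_upwards [hP.bdd] with x hx
  rw [Real.norm_eq_abs, abs_pow]
  refine pow_le_pow_left₀ (abs_nonneg _) ?_ k
  unfold Pn PB
  rw [hB, abs_div, abs_of_nonneg (Real.sqrt_nonneg _)]
  refine div_le_div_of_nonneg_right ?_ (Real.sqrt_nonneg _)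
  refine (Finset.abs_sum_le_sum_abs _ _).trans (Finset.sum_le_sum fun p hp => ?_)
  rw [abs_div, abs_of_nonneg (Real.sqrt_nonneg _)]
  exact div_le_div_of_nonneg_right (hx p hp) (Real.sqrt_nonneg _)

lemma PNP_int (p : Polynomial ℝ) : ∃ (N₀ : ℕ), ∀ N : ℕ, N₀ ≤ N → ∀ P : Measure (ℕ → ℝ),
    IsST (IN N) P → Integrable (fun x => p.eval (Pn N x)) P := by
  choose C N₀ h using PNP_mom
  refine ⟨∑ i ∈ Finset.range (p.natDegree + 1), N₀ i, fun N hN P hP => ?_⟩
  have h1 : (fun x => p.eval (Pn N x)) =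
      fun x => ∑ i ∈ Finset.range (p.natDegree + 1), p.coeff i * Pn N x ^ i := by
    funext x
    rw [Polynomial.eval_eq_sum_range]
  rw [h1]
  refine integrable_finsetSum _ fun i hi => Integrable.const_mul ?_ _
  refine (h i N (le_trans ?_ hN) P hP).1
  exact Finset.single_le_sum (f := fun i => N₀ i) (fun _ _ => Nat.zero_le _) hi

theorem pn_poly_pr (p : Polynomial ℝ) {ε : ℝ} (hε : 0 < ε) : ∃ N₀ : ℕ, ∀ N : ℕ, N₀ ≤ N →
    ∀ P : Measure (ℕ → ℝ), IsST (IN N) P → Integrable (fun x => p.eval (Pn N x)) P ∧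
      |∫ x, p.eval (Pn N x) ∂P - ∫ x, p.eval x ∂(gaussianReal 0 1)| ≤ ε := by
  obtain ⟨N₁, hI⟩ := PNP_int p
  by_contra hcon
  push Not at hcon
  have hc2 : ∀ n : ℕ, ∃ N : ℕ, max n N₁ ≤ N ∧ ∃ P : Measure (ℕ → ℝ), IsST (IN N) P ∧
      ε < |∫ x, p.eval (Pn N x) ∂P - ∫ x, p.eval x ∂(gaussianReal 0 1)| := by
    intro n
    obtain ⟨N, hN, P, hP, h⟩ := hcon (max n N₁)
    exact ⟨N, hN, P, hP, h (hI N (le_trans (le_max_right _ _) hN) P hP)⟩
  choose N hN P hP hlt using hc2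
  have hNt : Tendsto N atTop atTop :=
    tendsto_atTop_mono (fun n => le_trans (le_max_left _ _) (hN n)) tendsto_id
  have hprob : ∀ n, IsProbabilityMeasure (P n) := fun n => (hP n).prob
  set μ : ℕ → Measure ℝ := fun n => (P n).map (Pn (N n)) with hμ
  have hμp : ∀ n, IsFiniteMeasure (μ n) := fun n => by
    have := Measure.isProbabilityMeasure_map (μ := P n) (PNP_meas (N n)).aemeasurable
    exact inferInstance
  have hchar : ∀ θ : ℝ, Tendsto (fun n => charFun (μ n) θ) atTop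
      (𝓝 (((1 : ℝ) * Real.exp (-θ ^ 2 / 2) : ℝ) : ℂ)) := by
    intro θ
    rw [Metric.tendsto_atTop]
    intro η hη
    obtain ⟨N₂, h2⟩ := pn_char θ (half_pos hη)
    obtain ⟨n₀, hn₀⟩ := (tendsto_atTop.1 hNt N₂).exists_forall_of_atTop
    refine ⟨n₀, fun n hn => ?_⟩
    have h3 := h2 (N n) (hn₀ n hn) (P n) (hP n)
    rw [dist_eq_norm, charFun_apply_real, one_mul]
    have h4 : ∫ x, cexp (θ * x * Complex.I) ∂(μ n)
        = ∫ x, cexp ((θ * Pn (N n) x : ℝ) * Complex.I) ∂(P n) := by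
      rw [hμ]
      simp only
      rw [integral_map (PNP_meas _).aemeasurable
        (by fun_prop : Continuous fun x : ℝ => cexp (θ * x * Complex.I)).aestronglyMeasurable]
      push_cast
      rfl
    rw [h4]
    exact lt_of_le_of_lt h3 (half_lt_self hη)
  have hmom : ∀ k : ℕ, ∃ C : ℝ, ∀ n, Integrable (fun x => x ^ (2 * k)) (μ n) ∧
      ∫ x, x ^ (2 * k) ∂(μ n) ≤ C := by
    intro k
    obtain ⟨C, N₂, h2⟩ := PNP_mom (2 * k)
    obtain ⟨n₀, hn₀⟩ := (tendsto_atTop.1 hNt N₂).exists_forall_of_atTop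
    have h7 : ∀ n, ∫ x, x ^ (2 * k) ∂(μ n) = ∫ x, Pn (N n) x ^ (2 * k) ∂(P n) := by
      intro n
      rw [hμ]
      simp only
      rw [integral_map (PNP_meas _).aemeasurable (continuous_pow _).aestronglyMeasurable]
    refine ⟨|C| + ∑ n ∈ Finset.range n₀, |∫ x, Pn (N n) x ^ (2 * k) ∂(P n)|, fun n => ⟨?_, ?_⟩⟩
    · rw [hμ]
      simp only
      rw [integrable_map_measure (continuous_pow _).aestronglyMeasurable (PNP_meas _).aemeasurable]
      exact PNP_bdd (N n) (hP n) (2 * k)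
    · rw [h7]
      by_cases hn : n < n₀
      · have h8 : |∫ x, Pn (N n) x ^ (2 * k) ∂(P n)|
            ≤ ∑ n ∈ Finset.range n₀, |∫ x, Pn (N n) x ^ (2 * k) ∂(P n)| :=
          Finset.single_le_sum (f := fun n => |∫ x, Pn (N n) x ^ (2 * k) ∂(P n)|)
            (fun _ _ => abs_nonneg _) (Finset.mem_range.2 hn)
        have h9 := le_abs_self (∫ x, Pn (N n) x ^ (2 * k) ∂(P n))
        have h10 := abs_nonneg C
        linarith
      · have h8 := (h2 (N n) (hn₀ n (not_lt.1 hn)) (P n) (hP n)).2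
        have h9 : ∫ x, Pn (N n) x ^ (2 * k) ∂(P n) = ∫ x, |Pn (N n) x| ^ (2 * k) ∂(P n) := by
          refine integral_congr_ae (ae_of_all _ fun x => ?_)
          simp only
          rw [Even.pow_abs ⟨k, by ring⟩]
        have h10 := le_abs_self C
        have h11 : 0 ≤ ∑ n ∈ Finset.range n₀, |∫ x, Pn (N n) x ^ (2 * k) ∂(P n)| :=
          Finset.sum_nonneg fun _ _ => abs_nonneg _
        rw [h9]
        linarith
  have hfin := (weak_poly (μ := μ) (zero_le_one) hchar hmom p 0).2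
  rw [one_mul, Metric.tendsto_atTop] at hfin
  obtain ⟨n, hn⟩ := hfin ε hε
  have h5 := hn n le_rfl
  have h6 : ∫ x, p.eval x ∂(μ n) = ∫ x, p.eval (Pn (N n) x) ∂(P n) := by
    rw [hμ]
    simp only
    rw [integral_map (PNP_meas _).aemeasurable p.continuous.aestronglyMeasurable]
  rw [h6, Real.dist_eq] at h5
  linarith [hlt n]

lemma PNP_mono {I : Finset ℕ} {X Y : ℕ} (h : X ≤ Y) {G : (ℕ → ℝ) → ℝ} (hG : HPoly I X G) :
    HPoly I Y G := by
  obtain ⟨c, hc, hG⟩ := hG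
  refine ⟨c, fun m hm => ?_, fun x => ?_⟩
  · obtain ⟨h1, h2, h3⟩ := hc m hm
    exact ⟨h1, h2.trans h, h3⟩
  · rw [hG x]
    refine Finset.sum_subset (Finset.Icc_subset_Icc_right h) fun m hm hm2 => ?_
    have : c m = 0 := by
      by_contra hne
      obtain ⟨h1, h2, _⟩ := hc m hne
      exact hm2 (Finset.mem_Icc.2 ⟨h1, h2⟩)
    rw [this, zero_mul]

lemma PNP_const (I : Finset ℕ) (a : ℝ) : HPoly I 1 (fun _ => a) := by
  refine ⟨fun m => if m = 1 then a else 0, fun m hm => ?_, fun x => ?_⟩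
  · have : m = 1 := by
      by_contra hne
      exact hm (if_neg hne)
    subst this
    simp
  · simp [Um]

lemma PNP_smul {I : Finset ℕ} {X : ℕ} {G : (ℕ → ℝ) → ℝ} (a : ℝ) (hG : HPoly I X G) :
    HPoly I X (fun x => a * G x) := by
  obtain ⟨c, hc, hG⟩ := hG
  refine ⟨fun m => a * c m, fun m hm => hc m (right_ne_zero_of_mul hm), fun x => ?_⟩
  simp only
  rw [hG x, Finset.mul_sum]
  exact Finset.sum_congr rfl fun m _ => by ring

lemma PNP_pow {I : Finset ℕ} (hI : ∀ p ∈ I, p.Prime) {X : ℕ} {G : (ℕ → ℝ) → ℝ}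
    (hG : HPoly I X G) (k : ℕ) : HPoly I (X ^ k) (fun x => G x ^ k) := by
  induction k with
  | zero =>
    have := PNP_const I 1
    simpa using this
  | succ k ih =>
    have := hpoly_mul hI hI ih hG
    rw [Finset.union_self] at this
    simpa only [pow_succ] using this

lemma PNP_Um_prime {p : ℕ} (hp : p.Prime) (x : ℕ → ℝ) : Um p x = x p := by
  unfold Um
  rw [hp.primeFactors, Finset.prod_singleton, hp.factorization_self]
  rfl

lemma PNP_PB {I : Finset ℕ} (hI : ∀ p ∈ I, p.Prime) {Z : ℕ} (hZ : ∀ p ∈ I, p ≤ Z) :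
    HPoly I Z (PB I) := by
  refine ⟨fun m => if m ∈ I then 1 / Real.sqrt m else 0, fun m hm => ?_, fun x => ?_⟩
  · have hmI : m ∈ I := by
      by_contra hne
      exact hm (if_neg hne)
    refine ⟨(hI m hmI).one_lt.le, hZ m hmI, ?_⟩
    rw [(hI m hmI).primeFactors]
    simpa using hmI
  · unfold PB
    have hsub : I ⊆ Finset.Icc 1 Z := fun p hp =>
      Finset.mem_Icc.2 ⟨(hI p hp).one_lt.le, hZ p hp⟩
    rw [← Finset.sum_subset hsub]
    · refine Finset.sum_congr rfl fun p hp => ?_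
      simp only
      rw [if_pos hp, PNP_Um_prime (hI p hp)]
      ring
    · intro m _ hm
      simp only
      rw [if_neg hm, zero_mul]

lemma PNP_len (d : ℕ) {ε₂ : ℝ} (h2 : 0 < ε₂) : ∃ N₀ : ℕ, ∀ N : ℕ, N₀ ≤ N →
    1 ≤ ⌊zN N⌋₊ ∧ ⌊zN N⌋₊ ^ d ≤ KA ε₂ N := by
  have hll : Tendsto (fun N : ℕ => Real.log (Real.log N)) atTop atTop :=
    Real.tendsto_log_atTop.comp (Real.tendsto_log_atTop.comp tendsto_natCast_atTop_atTop)
  have hl : Tendsto (fun N : ℕ => Real.log N) atTop atTop :=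
    Real.tendsto_log_atTop.comp tendsto_natCast_atTop_atTop
  obtain ⟨N₁, hN₁⟩ := (tendsto_atTop.1 hll (max 1 (d / ε₂))).exists_forall_of_atTop
  obtain ⟨N₂, hN₂⟩ := (tendsto_atTop.1 hl 1).exists_forall_of_atTop
  refine ⟨max 1 (max N₁ N₂), fun N hN => ?_⟩
  have hN0 : 1 ≤ N := le_trans (le_max_left _ _) hN
  have hN1 := hN₁ N (le_trans (le_trans (le_max_left _ _) (le_max_right _ _)) hN)
  have hN2 := hN₂ N (le_trans (le_trans (le_max_right _ _) (le_max_right _ _)) hN)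
  have hNr : (0 : ℝ) < N := by exact_mod_cast hN0
  set L := Real.log N with hL
  set M := Real.log L with hM
  have hM1 : 1 ≤ M := le_trans (le_max_left _ _) hN1
  have hM2 : d / ε₂ ≤ M := le_trans (le_max_right _ _) hN1
  have hz1 : 1 ≤ zN N := by
    unfold zN
    exact Real.one_le_exp (by positivity)
  refine ⟨Nat.le_floor (by push_cast; exact hz1), ?_⟩
  unfold KA
  refine Nat.le_floor ?_
  push_cast
  have h3 : (⌊zN N⌋₊ : ℝ) ≤ zN N := Nat.floor_le (by linarith)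
  calc (⌊zN N⌋₊ : ℝ) ^ d ≤ zN N ^ d := pow_le_pow_left₀ (Nat.cast_nonneg _) h3 d
    _ = Real.exp (d * (L / M ^ 2)) := by
        unfold zN
        rw [← Real.exp_nat_mul]
    _ ≤ Real.exp (L * ε₂) := by
        apply Real.exp_le_exp.2
        have h4 : (d : ℝ) ≤ ε₂ * M ^ 2 := by
          rw [div_le_iff₀ h2] at hM2
          nlinarith
        have h5 : (d : ℝ) * (L / M ^ 2) = (d / M ^ 2) * L := by ring
        rw [h5, mul_comm L]
        apply mul_le_mul_of_nonneg_right _ (by linarith)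
        rw [div_le_iff₀ (by positivity)]
        exact h4
    _ = (N : ℝ) ^ ε₂ := by
        rw [Real.rpow_def_of_pos hNr]

theorem pn_hpoly_pr (p : Polynomial ℝ) {ε₂ : ℝ} (h2 : 0 < ε₂) : ∃ N₀ : ℕ, ∀ N : ℕ, N₀ ≤ N →
    HPoly (IN N) (KA ε₂ N) (fun x => p.eval (Pn N x)) := by
  obtain ⟨N₀, h⟩ := PNP_len p.natDegree h2
  refine ⟨N₀, fun N hN => ?_⟩
  obtain ⟨hz, hlen⟩ := h N hN
  have hI : ∀ q ∈ IN N, q.Prime := by
    intro q hq
    unfold IN at hq
    exact (Finset.mem_filter.1 hq).2.1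
  have hIZ : ∀ q ∈ IN N, q ≤ ⌊zN N⌋₊ := by
    intro q hq
    unfold IN at hq
    exact (Finset.mem_Icc.1 (Finset.mem_filter.1 hq).1).2
  have h1 : (fun x => p.eval (Pn N x)) =
      fun x => ∑ i ∈ Finset.range (p.natDegree + 1), p.coeff i * Pn N x ^ i := by
    funext x
    rw [Polynomial.eval_eq_sum_range]
  rw [h1]
  refine hpoly_sum _ fun i hi => PNP_smul _ ?_
  have hP : HPoly (IN N) ⌊zN N⌋₊ (Pn N) := by
    have h5 := PNP_smul (1 / Real.sqrt (HB (IN N))) (PNP_PB hI hIZ)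
    have h6 : Pn N = fun x => 1 / Real.sqrt (HB (IN N)) * PB (IN N) x := by
      funext x
      unfold Pn
      ring
    rw [h6]
    exact h5
  refine PNP_mono ?_ (PNP_pow hI hP i)
  refine le_trans ?_ hlen
  exact Nat.pow_le_pow_right hz (Nat.lt_succ_iff.1 (Finset.mem_range.1 hi))

theorem pn_poly : type_of% @pn_poly_pr := @pn_poly_pr
theorem pn_hpoly : type_of% @pn_hpoly_pr := @pn_hpoly_pr

end Pool.Agent.KSL
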